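import Pool.Agent.H48.TC.Stm

/-! # Leaf ABSK of the project TC (helper48), by helper249: many absorbers for every vertex -/

set_option autoImplicit false

namespace Pool.Agent.H48.TC

open Finset Pool.Agent.H48.PW Pool.Agent.Helper83K9.CF

namespace ABSKL

/-! ### Complexes -/

section cx

variable {V : Type} [DecidableEq V] {k : ℕ} {K : Finset V → Prop} {γ : ℝ} {U : Finset V}

theorem mem_ex {T : Finset V} {v : V} : v ∈ ex K U T ↔ v ∈ U ∧ v ∉ T ∧ K (insert v T) := by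
  classical
  unfold ex
  rw [mem_filter]

theorem pd_mono {γ' : ℝ} (h : γ ≤ γ') (hP : PD k K γ U) : PD k K γ' U := by
  intro T hT hc
  refine le_trans ?_ (hP T hT hc)
  refine mul_le_mul_of_nonneg_right ?_ (Nat.cast_nonneg _)
  linarith

theorem ex_large (hk : 3 ≤ k) (hγ : γ < 1 / 6) (hU : 0 < U.card) (hP : PD k K γ U)
    {T : Finset V} (hT : K T) (hc : T.card < k) : U.card < 2 * (ex K U T).card := by
  have h1 := hP T hT hc
  have hk' : (3 : ℝ) ≤ k := by exact_mod_cast hk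
  have h2 : 1 / (k : ℝ) ≤ 1 / 3 := one_div_le_one_div_of_le (by norm_num) hk'
  have hU' : (0 : ℝ) < U.card := by exact_mod_cast hU
  have h3 : (1 / 2 : ℝ) * (U.card : ℝ) < (1 - 1 / (k : ℝ) - γ) * (U.card : ℝ) :=
    mul_lt_mul_of_pos_right (by linarith) hU'
  have h4 : ((U.card : ℕ) : ℝ) < ((2 * (ex K U T).card : ℕ) : ℝ) := by
    push_cast
    linarith
  exact_mod_cast h4

theorem grow (hk : 3 ≤ k) (hγ : γ < 1 / 6) (hU : 0 < U.card) (hP : PD k K γ U)
    {T : Finset V} (hT : K T) (j : ℕ) (hj : T.card + j ≤ k) :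
    ∃ T' : Finset V, T ⊆ T' ∧ T'.card = T.card + j ∧ K T' ∧ T' \ T ⊆ U := by
  induction j with
  | zero => exact ⟨T, Subset.refl T, rfl, hT, by simp⟩
  | succ j ih =>
    obtain ⟨T', h1, h2, h3, h4⟩ := ih (by omega)
    have h5 := ex_large hk hγ hU hP h3 (by omega)
    have h6 : (ex K U T').Nonempty := by
      rw [← card_pos]
      omega
    obtain ⟨x, hx⟩ := h6
    obtain ⟨hx1, hx2, hx3⟩ := mem_ex.1 hx
    refine ⟨insert x T', h1.trans (subset_insert _ _), ?_, hx3, ?_⟩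
    · rw [card_insert_of_notMem hx2, h2]
      rfl
    · intro y hy
      rw [mem_sdiff, mem_insert] at hy
      rcases hy with ⟨rfl | hy, hy'⟩
      · exact hx1
      · exact h4 (mem_sdiff.2 ⟨hy, hy'⟩)

theorem common (hk : 3 ≤ k) (hγ : γ < 1 / 6) (hU : 0 < U.card) (hP : PD k K γ U)
    {S T : Finset V} (hS : K S) (hT : K T) (hcS : S.card < k) (hcT : T.card < k) :
    ∃ x ∈ U, x ∉ S ∧ x ∉ T ∧ K (insert x S) ∧ K (insert x T) := by
  have h1 := ex_large hk hγ hU hP hS hcS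
  have h2 := ex_large hk hγ hU hP hT hcT
  have h3 : ¬ Disjoint (ex K U S) (ex K U T) := by
    intro hd
    have h4 := card_union_of_disjoint hd
    have h5 : (ex K U S ∪ ex K U T).card ≤ U.card := by
      refine card_le_card ?_
      intro x hx
      rcases mem_union.1 hx with hx | hx
      · exact (mem_ex.1 hx).1
      · exact (mem_ex.1 hx).1
    omega
  rw [not_disjoint_iff] at h3
  obtain ⟨x, hx, hx'⟩ := h3
  obtain ⟨a1, a2, a3⟩ := mem_ex.1 hx
  obtain ⟨_, b2, b3⟩ := mem_ex.1 hx'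
  exact ⟨x, a1, a2, b2, a3, b3⟩

end cx

theorem enum {N R m : ℕ} {S : Finset (Fin N ⊕ Fin R)} (hS : S ⊆ lft N R) (hm : S.card = m) :
    ∃ f : Fin m → Fin N, Function.Injective f ∧ ∀ a, Sum.inl (f a) ∈ S := by
  have h1 : ∀ a : Fin m, ∃ x : Fin N, Sum.inl x = (((equivFinOfCardEq hm).symm a : S) :
      Fin N ⊕ Fin R) := by
    intro a
    have h2 := hS ((equivFinOfCardEq hm).symm a).2
    unfold lft at h2
    obtain ⟨x, -, hx⟩ := mem_image.1 h2
    exact ⟨x, hx⟩
  choose f hf using h1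
  refine ⟨f, ?_, ?_⟩
  · intro a b hab
    have h2 : (((equivFinOfCardEq hm).symm a : S) : Fin N ⊕ Fin R) =
        ((equivFinOfCardEq hm).symm b : S) := by
      rw [← hf a, ← hf b, hab]
    exact (equivFinOfCardEq hm).symm.injective (Subtype.ext h2)
  · intro a
    rw [hf a]
    exact ((equivFinOfCardEq hm).symm a).2

/-! ### Lists -/

section lists

variable {α β : Type}

theorem md_map (k : ℕ) (f : α → β) (Q : List α) (v : α) :
    (md k Q v).map f = md k (Q.map f) (f v) := by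
  unfold md
  rw [List.map_append, List.map_cons, List.map_take, List.map_drop]

theorem md_mem {k : ℕ} {Q : List α} {v x : α} (h : x ∈ md k Q v) : x ∈ Q ∨ x = v := by
  unfold md at h
  rw [List.mem_append, List.mem_cons] at h
  rcases h with h | h | h
  · exact Or.inl (List.mem_of_mem_take h)
  · exact Or.inr h
  · exact Or.inl (List.mem_of_mem_drop h)

/-- entries of a row with an element inserted in the middle -/
theorem md_get {k : ℕ} (f : Fin (2 * (k - 1)) → α) (v : α) (i : ℕ) (x : α)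
    (h : (md k (List.ofFn f) v)[i]? = some x) :
    (∃ h : i < 2 * (k - 1), i < k - 1 ∧ x = f ⟨i, h⟩) ∨ (i = k - 1 ∧ x = v) ∨
      (∃ h : i - 1 < 2 * (k - 1), k - 1 < i ∧ x = f ⟨i - 1, h⟩) := by
  unfold md at h
  have hl : ((List.ofFn f).take (k - 1)).length = k - 1 := by
    rw [List.length_take, List.length_ofFn]
    omega
  rcases lt_trichotomy i (k - 1) with hi | hi | hi
  · left
    rw [List.getElem?_append_left (by rw [hl]; exact hi), List.getElem?_take_of_lt hi,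
      List.getElem?_ofFn] at h
    have h2 : i < 2 * (k - 1) := by omega
    rw [dif_pos h2] at h
    exact ⟨h2, hi, (Option.some.inj h).symm⟩
  · right; left
    rw [List.getElem?_append_right (by rw [hl, hi]), hl, hi, Nat.sub_self] at h
    exact ⟨hi, (Option.some.inj h).symm⟩
  · right; right
    rw [List.getElem?_append_right (by rw [hl]; exact hi.le), hl] at h
    obtain ⟨j, hj⟩ : ∃ j, i - (k - 1) = j + 1 := ⟨i - (k - 1) - 1, by omega⟩
    rw [hj, List.getElem?_cons_succ, List.getElem?_drop, List.getElem?_ofFn] at h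
    have h3 : k - 1 + j = i - 1 := by omega
    split_ifs at h with h2
    · have h4 : i - 1 < 2 * (k - 1) := by omega
      refine ⟨h4, hi, ?_⟩
      have h5 := (Option.some.inj h).symm
      rw [h5]
      congr 2

theorem win_nodup {l : List α} {k : ℕ}
    (h : ∀ i j x y, i < j → j < i + k → l[i]? = some x → l[j]? = some y → x ≠ y) (i : ℕ) :
    ((l.drop i).take k).Nodup := by
  rw [List.nodup_iff_getElem?_ne_getElem?]
  intro a b hab hb hne
  have hbk : b < k := by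
    have := List.length_take_le k (l.drop i)
    omega
  rw [List.getElem?_take_of_lt (hab.trans hbk), List.getElem?_take_of_lt hbk,
    List.getElem?_drop, List.getElem?_drop] at hne
  have hbl : i + b < l.length := by
    rw [List.length_take, List.length_drop] at hb
    omega
  have e2 : l[i + b]? = some l[i + b] := List.getElem?_eq_getElem hbl
  have e1 : l[i + a]? = some l[i + b] := by rw [hne, e2]
  exact h (i + a) (i + b) _ _ (by omega) (by omega) e1 e2 rfl

variable [DecidableEq α]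

theorem tw_of {Γ : Finset α → Prop} {k : ℕ} {l : List α}
    (hn : ∀ i j x y, i < j → j < i + k → l[i]? = some x → l[j]? = some y → x ≠ y)
    (hZ : ∀ T : Finset α, (∀ x ∈ T, x ∈ l) → T.card ≤ k → Γ T) : TW Γ k l := by
  refine ⟨fun i => hZ _ ?_ ?_, fun i => win_nodup hn i⟩
  · intro x hx
    rw [List.mem_toFinset] at hx
    exact List.mem_of_mem_drop (List.mem_of_mem_take hx)
  · exact (List.toFinset_card_le _).trans (List.length_take_le _ _)

/-- a row with an element in the middle -/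
theorem tw_md {Γ : Finset α → Prop} {k : ℕ} (P : Fin (2 * (k - 1)) → α) (u : α)
    (hP : ∀ a b : Fin (2 * (k - 1)), (a : ℕ) < b → (b : ℕ) < a + (k - 1) → P a ≠ P b)
    (hu : ∀ a, P a ≠ u)
    (hZ : ∀ T : Finset α, (∀ x ∈ T, x = u ∨ ∃ a, P a = x) → T.card ≤ k → Γ T) :
    TW Γ k (md k (List.ofFn P) u) := by
  refine tw_of ?_ ?_
  · intro i j x y hij hjk hx hy
    rcases md_get P u i x hx with ⟨hi, hit, hxe⟩ | ⟨hi, hxe⟩ | ⟨hi, hit, hxe⟩
    · rcases md_get P u j y hy with ⟨hj, hj2, hye⟩ | ⟨hj, hye⟩ | ⟨hj, hj2, hye⟩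
      · rw [hxe, hye]
        exact hP ⟨i, hi⟩ ⟨j, hj⟩ hij (by show j < i + (k - 1); omega)
      · rw [hxe, hye]
        exact hu _
      · rw [hxe, hye]
        exact hP ⟨i, hi⟩ ⟨j - 1, hj⟩ (by show i < j - 1; omega) (by show j - 1 < i + (k - 1); omega)
    · rcases md_get P u j y hy with ⟨hj, hj2, hye⟩ | ⟨hj, hye⟩ | ⟨hj, hj2, hye⟩
      · omega
      · omega
      · rw [hxe, hye]
        exact (hu _).symm
    · rcases md_get P u j y hy with ⟨hj, hj2, hye⟩ | ⟨hj, hye⟩ | ⟨hj, hj2, hye⟩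
      · omega
      · omega
      · rw [hxe, hye]
        exact hP ⟨i - 1, hi⟩ ⟨j - 1, hj⟩ (by show i - 1 < j - 1; omega)
          (by show j - 1 < i - 1 + (k - 1); omega)
  · intro T hT hc
    refine hZ T (fun x hx => ?_) hc
    rcases md_mem (hT x hx) with h | h
    · exact Or.inr (List.mem_ofFn.1 h)
    · exact Or.inl h

/-- a row without an element in the middle -/
theorem tw_row {Γ : Finset α → Prop} {k m : ℕ} (P : Fin m → α)
    (hP : ∀ a b : Fin m, (a : ℕ) < b → (b : ℕ) < a + k → P a ≠ P b)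
    (hZ : ∀ T : Finset α, (∀ x ∈ T, ∃ a, P a = x) → T.card ≤ k → Γ T) :
    TW Γ k (List.ofFn P) := by
  refine tw_of ?_ ?_
  · intro i j x y hij hjk hx hy
    rw [List.getElem?_ofFn] at hx hy
    split_ifs at hx hy with h1 h2
    rw [← Option.some.inj hx, ← Option.some.inj hy]
    exact hP _ _ hij hjk
  · intro T hT hc
    exact hZ T (fun x hx => List.mem_ofFn.1 (hT x hx)) hc

end lists

/-! ### Realisation -/

section real

variable {V : Type} [DecidableEq V] {N R s k : ℕ} {K : Finset V → Prop} {e : Fin R → V}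
  {Γ : Finset (Fin N ⊕ Fin R) → Prop} {Ω : Fin N × Fin s → V}

/-- realisation of a point with the number of a copy -/
def rl (Ω : Fin N × Fin s → V) (e : Fin R → V) (p : (Fin N ⊕ Fin R) × Fin s) : V :=
  Sum.elim (fun x => Ω (x, p.2)) e p.1

theorem real_K (hs : 0 < s) (hF : Faith K e Γ Ω) (L : List ((Fin N ⊕ Fin R) × Fin s))
    (hn : (L.map Prod.fst).Nodup) (hΓ : Γ (L.map Prod.fst).toFinset) :
    K (L.map (rl Ω e)).toFinset := by
  classical
  let sel : Fin N → Fin s := fun x => if h : ∃ c, ((Sum.inl x : Fin N ⊕ Fin R), c) ∈ L then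
    h.choose else ⟨0, hs⟩
  have hsel : ∀ p ∈ L, rl Ω e p = Sum.elim (fun x => Ω (x, sel x)) e p.1 := by
    rintro ⟨x | r, c⟩ hp
    · have h1 : ∃ c, ((Sum.inl x : Fin N ⊕ Fin R), c) ∈ L := ⟨c, hp⟩
      have h2 : sel x = h1.choose := dif_pos h1
      have h3 := List.inj_on_of_nodup_map hn hp h1.choose_spec rfl
      have h4 : c = sel x := by
        rw [h2]
        exact congrArg Prod.snd h3
      show Ω (x, c) = Ω (x, sel x)
      rw [← h4]
    · rfl
  have h1 : (L.map (rl Ω e)).toFinset =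
      (L.map Prod.fst).toFinset.image (Sum.elim (fun x => Ω (x, sel x)) e) := by
    ext y
    rw [List.mem_toFinset, mem_image, List.mem_map]
    constructor
    · rintro ⟨p, hp, rfl⟩
      exact ⟨p.1, List.mem_toFinset.2 (List.mem_map.2 ⟨p, hp, rfl⟩), (hsel p hp).symm⟩
    · rintro ⟨x, hx, rfl⟩
      obtain ⟨p, hp, rfl⟩ := List.mem_map.1 (List.mem_toFinset.1 hx)
      exact ⟨p, hp, hsel p hp⟩
  rw [h1]
  exact hF.2.2 _ sel hΓ

theorem real_TP (hs : 0 < s) (hF : Faith K e Γ Ω) (L : List ((Fin N ⊕ Fin R) × Fin s))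
    (h : TW Γ k (L.map Prod.fst)) : TP K k (L.map (rl Ω e)) := by
  intro i
  have h1 := h.1 i
  have h2 := h.2 i
  rw [← List.map_drop, ← List.map_take] at h1 h2
  rw [← List.map_drop, ← List.map_take]
  exact real_K hs hF _ h2 h1

/-- realisation of a row with an element in the middle -/
theorem real_md (hs : 0 < s) (hF : Faith K e Γ Ω) (P : Fin (2 * (k - 1)) → Fin N ⊕ Fin R)
    (c : Fin (2 * (k - 1)) → Fin s) (u : Fin N ⊕ Fin R) (d : Fin s)
    (h : TW Γ k (md k (List.ofFn P) u)) :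
    TP K k (md k (List.ofFn (fun a => rl Ω e (P a, c a))) (rl Ω e (u, d))) := by
  have h1 := real_TP (k := k) hs hF (md k (List.ofFn (fun a => (P a, c a))) (u, d)) (by
    rw [md_map, List.map_ofFn]
    exact h)
  rw [md_map, List.map_ofFn] at h1
  exact h1

theorem real_row (hs : 0 < s) (hF : Faith K e Γ Ω) {m : ℕ} (P : Fin m → Fin N ⊕ Fin R)
    (c : Fin m → Fin s) (h : TW Γ k (List.ofFn P)) :
    TP K k (List.ofFn (fun a => rl Ω e (P a, c a))) := by
  have h1 := real_TP (k := k) hs hF (List.ofFn (fun a => (P a, c a))) (by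
    rw [List.map_ofFn]
    exact h)
  rw [List.map_ofFn] at h1
  exact h1

end real

/-! ### Counting -/

/-- a positive proportion of all functions gives a positive proportion of the restrictions -/
theorem push {V I P : Type} [DecidableEq V] [Fintype I] [DecidableEq I] [Fintype P]
    [DecidableEq P] (φ : I → P) (hφ : Function.Injective φ) (U : Finset V) (hU : 0 < U.card)
    (G : Finset (P → V)) (hG : G ⊆ Fintype.piFinset (fun _ : P => U)) (c : ℝ)
    (h : c * (U.card : ℝ) ^ Fintype.card P ≤ (G.card : ℝ)) :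
    c * (U.card : ℝ) ^ Fintype.card I ≤ ((G.image (fun Ω => Ω ∘ φ)).card : ℝ) := by
  classical
  have hcard : G.card ≤ (G.image (fun Ω => Ω ∘ φ)).card *
      (Fintype.piFinset (fun _ : {p // p ∉ Set.range φ} => U)).card := by
    rw [← card_product]
    refine card_le_card_of_injOn (fun Ω => (Ω ∘ φ, fun p => Ω p.1)) ?_ ?_
    · intro Ω hΩ
      rw [mem_coe] at hΩ
      rw [mem_coe, mem_product]
      refine ⟨mem_image_of_mem _ hΩ, ?_⟩
      rw [Fintype.mem_piFinset]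
      intro p
      exact Fintype.mem_piFinset.1 (hG hΩ) p.1
    · intro Ω _ Ω' _ heq
      have h1 : Ω ∘ φ = Ω' ∘ φ := congrArg Prod.fst heq
      have h2 : (fun p : {p // p ∉ Set.range φ} => Ω p.1) = fun p => Ω' p.1 :=
        congrArg Prod.snd heq
      funext p
      by_cases hp : p ∈ Set.range φ
      · obtain ⟨i, rfl⟩ := hp
        exact congrFun h1 i
      · exact congrFun h2 ⟨p, hp⟩
  rw [Fintype.card_piFinset, prod_const, card_univ] at hcard
  have hcI : Fintype.card P = Fintype.card I + Fintype.card {p // p ∉ Set.range φ} := by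
    have e1 : Fintype.card {p // p ∈ Set.range φ} = Fintype.card I :=
      Fintype.card_congr (Equiv.ofInjective φ hφ).symm
    rw [← e1, ← Fintype.card_sum]
    exact (Fintype.card_congr (Equiv.sumCompl (fun p => p ∈ Set.range φ))).symm
  have hU' : (0 : ℝ) < (U.card : ℝ) := by exact_mod_cast hU
  have h2 : (G.card : ℝ) ≤ ((G.image (fun Ω => Ω ∘ φ)).card : ℝ) *
      (U.card : ℝ) ^ Fintype.card {p // p ∉ Set.range φ} := by exact_mod_cast hcard
  rw [hcI, pow_add, ← mul_assoc] at h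
  exact le_of_mul_le_mul_right (h.trans h2) (pow_pos hU' _)

theorem mod_ne {a b m : ℕ} (h1 : a < b) (h2 : b < a + m) : a % m ≠ b % m := by
  intro h
  have h3 : a ≡ b [MOD m] := h
  have h4 := (Nat.modEq_iff_dvd' h1.le).1 h3
  have h5 := Nat.le_of_dvd (by omega) h4
  omega

end ABSKL

open ABSKL

theorem absk (h1 : S_TRK) (h2 : S_KK1) : S_ABSK := by
  classical
  intro k hk
  obtain ⟨γ₁, n₁, hγ₁, hKK⟩ := h2 k hk
  obtain ⟨γ, hγ, hγa, hγb⟩ : ∃ γ : ℝ, 0 < γ ∧ 2 * γ ≤ γ₁ ∧ 2 * γ < 1 / 6 := by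
    refine ⟨min (γ₁ / 2) (1 / 24), lt_min (by linarith) (by norm_num), ?_, ?_⟩
    · have := min_le_left (γ₁ / 2) (1 / 24)
      linarith
    · have := min_le_right (γ₁ / 2) (1 / 24)
      linarith
  obtain ⟨N₀, hTR⟩ := h1 k γ 1 (by omega) hγ
  obtain ⟨N, hN0, hN1, hNpos⟩ : ∃ N, N₀ ≤ N ∧ n₁ ≤ N ∧ 0 < N :=
    ⟨max N₀ n₁ + 1, by omega, by omega, by omega⟩
  obtain ⟨c, n₀, hc, hTR'⟩ := hTR N hN0 8 (by norm_num)
  refine ⟨γ, c, max n₀ 1, hγ, hc, ?_⟩
  intro V _ _ K U hK hU hPD v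
  have hU0 : n₀ ≤ U.card := (le_max_left _ _).trans hU
  have hU1 : 0 < U.card := (le_max_right n₀ 1).trans hU
  obtain ⟨Γ, hΓ, hΓP, hΓe, hcount⟩ := hTR' V K U hK hU0 hPD (fun _ : Fin 1 => v)
    (Function.injective_of_subsingleton _)
  have hlft : (lft N 1).card = N := by
    unfold lft
    rw [card_image_of_injective _ Sum.inl_injective, card_univ, Fintype.card_fin]
  have hlpos : 0 < (lft N 1).card := by rw [hlft]; exact hNpos
  have hlmem : ∀ x : Fin N ⊕ Fin 1, x ∈ lft N 1 ↔ ∃ y, Sum.inl y = x := by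
    intro x
    unfold lft
    rw [mem_image]
    exact ⟨fun ⟨y, _, hy⟩ => ⟨y, hy⟩, fun ⟨y, hy⟩ => ⟨y, mem_univ _, hy⟩⟩
  -- the finite configuration
  obtain ⟨Q, hQ1, hQ2, hQ3⟩ := hKK (Fin N ⊕ Fin 1) Γ (lft N 1) hΓ (by rw [hlft]; exact hN1)
    (pd_mono hγa hΓP)
  have hQne : Q.Nonempty := by
    rw [← card_pos]
    omega
  obtain ⟨w₂, hw₂⟩ := hQne
  obtain ⟨u₂, hu₂⟩ := (hlmem w₂).1 (hQ1 hw₂)
  have hgrow : ∀ x : Fin N ⊕ Fin 1, ∃ S : Finset (Fin N ⊕ Fin 1), x ∉ S ∧ S ⊆ lft N 1 ∧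
      S.card = k - 1 ∧ Γ (insert x S) := by
    intro x
    obtain ⟨T, g1, g2, g3, g4⟩ := grow hk hγb hlpos hΓP (hΓ.vert x) (k - 1)
      (by rw [card_singleton]; omega)
    have hxT : x ∈ T := g1 (mem_singleton_self x)
    refine ⟨T.erase x, notMem_erase x T, ?_, ?_, ?_⟩
    · rw [← sdiff_singleton_eq_erase]
      exact g4
    · rw [card_erase_of_mem hxT, g2, card_singleton]
      omega
    · rw [insert_erase hxT]
      exact g3
  obtain ⟨S₀, s01, s02, s03, s04⟩ := hgrow (Sum.inr 0)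
  obtain ⟨S₁, s11, s12, s13, s14⟩ := hgrow w₂
  obtain ⟨w₁, hw₁, hw₁0, hw₁1, s05, s15⟩ := common hk hγb hlpos hΓP
    (hΓ.sub _ _ s04 (subset_insert _ _)) (hΓ.sub _ _ s14 (subset_insert _ _))
    (by omega) (by omega)
  obtain ⟨u₁, hu₁⟩ := (hlmem w₁).1 hw₁
  obtain ⟨f₀, hf₀, hf₀S⟩ := enum s02 s03
  obtain ⟨f₁, hf₁, hf₁S⟩ := enum s12 s13
  have hQe : (Q.erase w₂).card = k := by
    rw [card_erase_of_mem hw₂, hQ2]
    rfl
  obtain ⟨f₂, hf₂, hf₂S⟩ := enum ((erase_subset _ _).trans hQ1) hQe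
  have hk1 : 0 < k - 1 := by omega
  have hk0 : 0 < k := by omega
  -- the points of the rows
  let pt : Fin 3 → Fin (2 * (k - 1)) → Fin N :=
    ![fun a => f₀ ⟨(a : ℕ) % (k - 1), Nat.mod_lt _ hk1⟩,
      fun a => f₁ ⟨(a : ℕ) % (k - 1), Nat.mod_lt _ hk1⟩,
      fun a => f₂ ⟨(a : ℕ) % k, Nat.mod_lt _ hk0⟩]
  have hpt2 : ∀ a b : Fin (2 * (k - 1)), (a : ℕ) < b → (b : ℕ) < a + k → pt 2 a ≠ pt 2 b := by
    intro a b hab hb h
    exact mod_ne hab hb (congrArg Fin.val (hf₂ h))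
  have hpt : ∀ (i : Fin 3) (a b : Fin (2 * (k - 1))), (a : ℕ) < b → (b : ℕ) < a + (k - 1) →
      pt i a ≠ pt i b := by
    intro i a b hab hb
    fin_cases i
    · intro h
      exact mod_ne hab hb (congrArg Fin.val (hf₀ h))
    · intro h
      exact mod_ne hab hb (congrArg Fin.val (hf₁ h))
    · exact hpt2 a b hab (by omega)
  have hpt' : ∀ (i : Fin 3) (a b : Fin (2 * (k - 1))), (a : ℕ) < b → (b : ℕ) < a + (k - 1) →
      (Sum.inl (pt i a) : Fin N ⊕ Fin 1) ≠ Sum.inl (pt i b) := fun i a b hab hb h =>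
    hpt i a b hab hb (Sum.inl_injective h)
  have hm0 : ∀ a, (Sum.inl (pt 0 a) : Fin N ⊕ Fin 1) ∈ S₀ := fun a => hf₀S _
  have hm1 : ∀ a, (Sum.inl (pt 1 a) : Fin N ⊕ Fin 1) ∈ S₁ := fun a => hf₁S _
  have hm2 : ∀ a, (Sum.inl (pt 2 a) : Fin N ⊕ Fin 1) ∈ Q.erase w₂ := fun a => hf₂S _
  -- tight walks
  have hrow : ∀ (i : Fin 3) (S : Finset (Fin N ⊕ Fin 1)) (u : Fin N ⊕ Fin 1),
      (∀ a, (Sum.inl (pt i a) : Fin N ⊕ Fin 1) ∈ S) → u ∉ S → Γ (insert u S) →
      TW Γ k (md k (List.ofFn (fun a => (Sum.inl (pt i a) : Fin N ⊕ Fin 1))) u) := by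
    intro i S u hS hu hΓu
    refine tw_md _ u (hpt' i) (fun a h => hu (h ▸ hS a)) ?_
    intro T hT _
    refine hΓ.sub _ _ hΓu ?_
    intro x hx
    rcases hT x hx with rfl | ⟨a, rfl⟩
    · exact mem_insert_self _ _
    · exact mem_insert_of_mem (hS a)
  have t0 := hrow 0 S₀ (Sum.inl u₁) hm0 (hu₁ ▸ hw₁0) (hu₁ ▸ s05)
  have t0' := hrow 0 S₀ (Sum.inr 0) hm0 s01 s04
  have t1 := hrow 1 S₁ (Sum.inl u₂) hm1 (hu₂ ▸ s11) (hu₂ ▸ s14)
  have t1' := hrow 1 S₁ (Sum.inl u₁) hm1 (hu₁ ▸ hw₁1) (hu₁ ▸ s15)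
  have t2 : TW Γ k (md k (List.ofFn (fun a => (Sum.inl (pt 2 a) : Fin N ⊕ Fin 1)))
      (Sum.inl u₂)) := by
    refine tw_md _ _ (hpt' 2) (fun a h => ?_) ?_
    · have h3 := hm2 a
      rw [h, hu₂] at h3
      exact notMem_erase _ _ h3
    · intro T hT hTc
      refine hQ3 T ?_ hTc
      intro x hx
      rcases hT x hx with rfl | ⟨a, rfl⟩
      · rw [hu₂]
        exact hw₂
      · exact erase_subset _ _ (hm2 a)
  have t2' : TW Γ k (List.ofFn (fun a => (Sum.inl (pt 2 a) : Fin N ⊕ Fin 1))) := by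
    refine tw_row _ (fun a b hab hb h => hpt2 a b hab hb (Sum.inl_injective h)) ?_
    intro T hT hTc
    refine hQ3 T ?_ hTc
    intro x hx
    obtain ⟨a, rfl⟩ := hT x hx
    exact erase_subset _ _ (hm2 a)
  -- the copies
  have hcp : ∀ (i : Fin 3) (a : Fin (2 * (k - 1))),
      2 * (i : ℕ) + (if (a : ℕ) < k - 1 then 0 else 1) < 8 := by
    intro i a
    have := i.2
    split_ifs <;> omega
  let cp : Fin 3 → Fin (2 * (k - 1)) → Fin 8 := fun i a => ⟨_, hcp i a⟩
  let φ : IB k → Fin N × Fin 8 := Sum.elim (fun q => (pt q.1 q.2, cp q.1 q.2))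
    ![(u₁, 6), (u₂, 7)]
  have hφ : Function.Injective φ := by
    have hlt : ∀ (i : Fin 3) (a : Fin (2 * (k - 1))), ((cp i a : Fin 8) : ℕ) < 6 := by
      intro i a
      show 2 * (i : ℕ) + (if (a : ℕ) < k - 1 then 0 else 1) < 6
      have := i.2
      split_ifs <;> omega
    rintro (⟨i, a⟩ | i) (⟨j, b⟩ | j) h
    · have e1 : pt i a = pt j b := congrArg Prod.fst h
      have e2 : 2 * (i : ℕ) + (if (a : ℕ) < k - 1 then 0 else 1) =
          2 * (j : ℕ) + (if (b : ℕ) < k - 1 then 0 else 1) :=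
        congrArg (fun w => ((w.2 : Fin 8) : ℕ)) h
      have e3 : (i : ℕ) = j ∧ ((a : ℕ) < k - 1 ↔ (b : ℕ) < k - 1) := by
        split_ifs at e2 with ha hb hb
        · exact ⟨by omega, ⟨fun _ => hb, fun _ => ha⟩⟩
        · omega
        · omega
        · exact ⟨by omega, ⟨fun h' => absurd h' ha, fun h' => absurd h' hb⟩⟩
      have e4 : i = j := Fin.ext e3.1
      subst e4
      have hab : (a : ℕ) = b := by
        have ha2 := a.2
        have hb2 := b.2
        rcases lt_trichotomy (a : ℕ) b with hab | hab | hab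
        · exact absurd e1 (hpt i a b hab (by omega))
        · exact hab
        · exact absurd e1.symm (hpt i b a hab (by omega))
      rw [Fin.ext hab]
    · exfalso
      have e2 : ((cp i a : Fin 8) : ℕ) = ((φ (Sum.inr j)).2 : ℕ) :=
        congrArg (fun w => ((w.2 : Fin 8) : ℕ)) h
      have e3 := hlt i a
      have e4 : 6 ≤ ((φ (Sum.inr j)).2 : ℕ) := by
        fin_cases j
        · exact le_refl 6
        · show 6 ≤ 7
          norm_num
      omega
    · exfalso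
      have e2 : ((φ (Sum.inr i)).2 : ℕ) = ((cp j b : Fin 8) : ℕ) :=
        congrArg (fun w => ((w.2 : Fin 8) : ℕ)) h
      have e3 := hlt j b
      have e4 : 6 ≤ ((φ (Sum.inr i)).2 : ℕ) := by
        fin_cases i
        · exact le_refl 6
        · show 6 ≤ 7
          norm_num
      omega
    · have e2 : ((φ (Sum.inr i)).2 : ℕ) = ((φ (Sum.inr j)).2 : ℕ) :=
        congrArg (fun w => ((w.2 : Fin 8) : ℕ)) h
      fin_cases i <;> fin_cases j
      · rfl
      · have e3 : (6 : ℕ) = 7 := e2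
        omega
      · have e3 : (7 : ℕ) = 6 := e2
        omega
      · rfl
  have hpush := push φ hφ U hU1 _ (filter_subset _ _) c (by
    rw [Fintype.card_prod, Fintype.card_fin, Fintype.card_fin]
    exact hcount)
  refine hpush.trans ?_
  rw [Nat.cast_le]
  refine card_le_card ?_
  intro g hg
  rw [mem_image] at hg
  obtain ⟨Ω, hΩ, rfl⟩ := hg
  rw [mem_filter, Fintype.mem_piFinset] at hΩ
  obtain ⟨hΩ1, hF⟩ := hΩ
  have h8 : 0 < 8 := by norm_num
  rw [mem_filter, Fintype.mem_piFinset]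
  refine ⟨fun i => hΩ1 _, ⟨hF.1.comp hφ, ?_, ?_, ?_, ?_, ?_⟩, ?_, ?_⟩
  · exact real_md h8 hF _ (cp 0) (Sum.inl u₁) 6 t0
  · exact real_md h8 hF _ (cp 1) (Sum.inl u₂) 7 t1
  · exact real_md h8 hF _ (cp 1) (Sum.inl u₁) 6 t1'
  · exact real_md h8 hF _ (cp 2) (Sum.inl u₂) 7 t2
  · exact real_row h8 hF _ (cp 2) t2'
  · exact real_md h8 hF _ (cp 0) (Sum.inr 0) 0 t0'
  · intro i
    exact hF.2.1 (φ i) 0

end Pool.Agent.H48.TC
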