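import Pool.Agent.H48.TC.Stm
import Pool.Agent.H48.PW.POT2

/-! # Leaf ALMK: potential with polynomially many tests, almost perfect tilings -/

set_option autoImplicit false
set_option linter.unusedSectionVars false

namespace Pool.Agent.H48.TC

open Finset Pool.Agent.H48.PW Pool.Agent.Helper83K9.CF

namespace ALMKL

theorem exp_large (A : ℕ) (C c : ℝ) (hc : 0 < c) :
    ∃ k₁ : ℕ, ∀ k : ℕ, k₁ ≤ k → 2 * (C * (k : ℝ) ^ A) ≤ Real.exp (c * k) := by
  have h1 := (Real.tendsto_exp_div_pow_atTop A).eventually_ge_atTop (2 * |C| / c ^ A)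
  rw [Filter.eventually_atTop] at h1
  obtain ⟨x₀, hx₀⟩ := h1
  refine ⟨max 1 ⌈x₀ / c⌉₊, fun k hk => ?_⟩
  have hk1 : 1 ≤ k := (le_max_left _ _).trans hk
  have hk0 : (0 : ℝ) < k := by exact_mod_cast hk1
  have hk2 : x₀ / c ≤ k := (Nat.le_ceil _).trans (by exact_mod_cast (le_max_right _ _).trans hk)
  have h2 := hx₀ (c * k) (by rw [div_le_iff₀ hc] at hk2; linarith)
  have h3 : 0 < (c * (k : ℝ)) ^ A := by positivity
  rw [div_le_div_iff₀ (by positivity) h3, mul_pow] at h2
  have h4 : 2 * |C| * (k : ℝ) ^ A ≤ Real.exp (c * k) := by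
    have h5 : 0 < c ^ A := by positivity
    have h6 : 2 * |C| * (c ^ A * (k : ℝ) ^ A) = (2 * |C| * (k : ℝ) ^ A) * c ^ A := by ring
    rw [h6] at h2
    exact le_of_mul_le_mul_right h2 h5
  have h5 : C * (k : ℝ) ^ A ≤ |C| * (k : ℝ) ^ A :=
    mul_le_mul_of_nonneg_right (le_abs_self C) (by positivity)
  linarith

section

variable {V : Type} [Fintype V] [DecidableEq V]

/-- `U` has density `1 / E` in `S`, up to `g n` -/
def Reg (U : Finset V) (E g : ℝ) (S : Finset V) : Prop :=
  |E * ((S ∩ U).card : ℝ) - (S.card : ℝ)| ≤ g * (Fintype.card V : ℝ)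

theorem Y_const (S U : Finset V) (σ : ℝ) :
    Y S U (fun _ => 1 * Real.exp (-(σ * 1))) = Real.exp σ * ((S ∩ U).card : ℝ) := by
  unfold Y
  simp only [one_mul, mul_one, Real.exp_neg, inv_inv, sum_const, nsmul_eq_mul]
  ring

theorem Y_one (S U : Finset V) : Y S U (fun _ => (1 : ℝ)) = ((S ∩ U).card : ℝ) := by
  unfold Y
  simp

theorem ex_inter (K : Finset V → Prop) (U T : Finset V) : ex K U T = ex K univ T ∩ U := by
  ext v
  simp only [ex, mem_filter, mem_inter, mem_univ, true_and]
  tauto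

theorem ce_inter (K : Finset V → Prop) (U T : Finset V) : ce K U T = ce K univ T ∩ U := by
  ext v
  simp only [ce, ex, mem_sdiff, mem_filter, mem_inter, mem_univ, true_and]
  tauto

theorem PD_of {k : ℕ} (K : Finset V → Prop) (U : Finset V) (E g γ₂ : ℝ) (hE : 0 < E)
    (hg : 0 ≤ g) (h2 : 2 * g ≤ γ₂) (hPD : PD k K 0 univ) (hu : Reg U E g univ)
    (hT : ∀ T, K T → T.card < k → Reg U E g (ex K univ T)) : PD k K γ₂ U := by
  intro T hKT hTk
  have h3 := hPD T hKT hTk
  have h4 := (abs_le.1 (hT T hKT hTk)).1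
  have h5 := (abs_le.1 hu).2
  rw [← ex_inter] at h4
  rw [univ_inter, card_univ] at h5
  rw [card_univ] at h3
  have hk0 : (0 : ℝ) ≤ 1 / (k : ℝ) := by positivity
  have hn : (0 : ℝ) ≤ (Fintype.card V : ℝ) := Nat.cast_nonneg _
  have hU : (0 : ℝ) ≤ (U.card : ℝ) := Nat.cast_nonneg _
  have hX : (0 : ℝ) ≤ ((ex K U T).card : ℝ) := Nat.cast_nonneg _
  rcases le_or_gt (1 - 1 / (k : ℝ) - γ₂) 0 with h6 | h6
  · exact (mul_nonpos_of_nonpos_of_nonneg h6 hU).trans hX
  · refine le_of_mul_le_mul_left ?_ hE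
    have h7 : E * ((1 - 1 / (k : ℝ) - γ₂) * (U.card : ℝ)) ≤
        (1 - 1 / (k : ℝ) - γ₂) * ((1 + g) * (Fintype.card V : ℝ)) := by
      rw [mul_left_comm]
      exact mul_le_mul_of_nonneg_left (by linarith) h6.le
    have h8 : (1 - 1 / (k : ℝ) - γ₂) * ((1 + g) * (Fintype.card V : ℝ)) ≤
        (1 - 1 / (k : ℝ) - g) * (Fintype.card V : ℝ) := by
      rw [← mul_assoc]
      apply mul_le_mul_of_nonneg_right _ hn
      nlinarith
    linarith

open Classical in
/-- the set in the definition of `NE` -/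
noncomputable def Ds (K : Finset V → Prop) (β : ℝ) (U : Finset V) (v : V) : Finset V :=
  (ce K U {v}).filter (fun y => β * (U.card : ℝ) ≤ ((ce K U {v} ∩ ex K U {y}).card : ℝ))

theorem NE_of {k : ℕ} (hk : 1 ≤ k) (K : Finset V → Prop) (U : Finset V) (E g β : ℝ) (hE : 0 < E)
    (hg : 0 ≤ g) (h2 : 4 * g ≤ β) (h2' : β / 2 * (1 + g) ≤ β - g)
    (hNE : NE k K β univ) (hu : Reg U E g univ) (hc : ∀ v, Reg U E g (ce K univ {v}))
    (hD : ∀ v, Reg U E g (Ds K β univ v))
    (hce : ∀ v y, Reg U E g (ce K univ {v} ∩ ex K univ {y})) : NE k K (β / 2) U := by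
  intro v hv
  obtain ⟨n, hn⟩ : ∃ n : ℝ, n = (Fintype.card V : ℝ) := ⟨_, rfl⟩
  have hn0 : 0 ≤ n := by rw [hn]; positivity
  have hu1 := (abs_le.1 hu).1
  have hu2 := (abs_le.1 hu).2
  rw [univ_inter, card_univ, ← hn] at hu1 hu2
  have hc2 := (abs_le.1 (hc v)).2
  rw [← ce_inter, ← hn] at hc2
  have hk0 : (0 : ℝ) < k := by exact_mod_cast hk
  have hk1 : 1 / (k : ℝ) ≤ 1 := by
    rw [div_le_one hk0]
    exact_mod_cast hk
  have hbig : (1 / (k : ℝ) - β) * ((univ : Finset V).card : ℝ) ≤ ((ce K univ {v}).card : ℝ) := by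
    rw [card_univ, ← hn]
    rcases le_or_gt (1 / (k : ℝ) - β / 2) 0 with h6 | h6
    · refine (mul_nonpos_of_nonpos_of_nonneg ?_ hn0).trans (Nat.cast_nonneg _)
      linarith
    · have h7 : (1 / (k : ℝ) - β / 2) * ((1 - g) * n) ≤ E * ((ce K U {v}).card : ℝ) := by
        calc (1 / (k : ℝ) - β / 2) * ((1 - g) * n) ≤ (1 / (k : ℝ) - β / 2) * (E * (U.card : ℝ)) :=
              mul_le_mul_of_nonneg_left (by linarith) h6.le
          _ = E * ((1 / (k : ℝ) - β / 2) * (U.card : ℝ)) := by ring
          _ ≤ _ := mul_le_mul_of_nonneg_left hv hE.le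
      have h8 : (1 / (k : ℝ) - β / 2 - g) * n ≤ (1 / (k : ℝ) - β / 2) * ((1 - g) * n) := by
        rw [← mul_assoc]
        apply mul_le_mul_of_nonneg_right _ hn0
        nlinarith
      have h9 : (1 / (k : ℝ) - β) * n ≤ (1 / (k : ℝ) - β / 2 - g) * n - g * n := by
        rw [← sub_mul]
        apply mul_le_mul_of_nonneg_right _ hn0
        linarith
      linarith
  have hlow : ∀ X : Finset V, Reg U E g X → β * n ≤ (X.card : ℝ) →
      β / 2 * (U.card : ℝ) ≤ ((X ∩ U).card : ℝ) := by
    intro X hX hXb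
    have h7 := (abs_le.1 hX).1
    rw [← hn] at h7
    refine le_of_mul_le_mul_left ?_ hE
    have h8 : E * (β / 2 * (U.card : ℝ)) ≤ β / 2 * ((1 + g) * n) := by
      rw [mul_left_comm]
      exact mul_le_mul_of_nonneg_left (by linarith) (by linarith)
    have h9 : β / 2 * ((1 + g) * n) ≤ (β - g) * n := by
      rw [← mul_assoc]
      exact mul_le_mul_of_nonneg_right h2' hn0
    linarith
  have h3 := hNE v hbig
  have h4 : β / 2 * (U.card : ℝ) ≤ ((Ds K β univ v ∩ U).card : ℝ) := by
    refine hlow _ (hD v) ?_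
    rw [card_univ, ← hn] at h3
    refine h3.trans (le_of_eq ?_)
    unfold Ds
    rw [card_univ, ← hn]
  refine h4.trans ?_
  have h5 : Ds K β univ v ∩ U ⊆ Ds K (β / 2) U v := by
    intro y hy
    rw [mem_inter] at hy
    have hy1 := hy.1
    unfold Ds at hy1 ⊢
    rw [mem_filter] at hy1 ⊢
    refine ⟨?_, ?_⟩
    · rw [ce_inter, mem_inter]
      exact ⟨hy1.1, hy.2⟩
    · have h6 : ce K U {v} ∩ ex K U {y} = (ce K univ {v} ∩ ex K univ {y}) ∩ U := by
        rw [ce_inter K U, ex_inter K U]
        ext z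
        simp only [mem_inter]
        tauto
      rw [h6]
      refine hlow _ (hce v y) ?_
      have := hy1.2
      rw [card_univ, ← hn] at this
      exact this
  exact_mod_cast card_le_card h5

/-- the tests -/
noncomputable def tst (k : ℕ) (K : Finset V → Prop) (β : ℝ) : Finset (Finset V) :=
  insert univ (insert (ex K univ ∅)
    ((univ : Finset (Fin k → V)).image (fun f => ex K univ (univ.image f)) ∪
      ((univ : Finset V).image (fun v => ce K univ {v}) ∪
        ((univ : Finset V).image (fun v => Ds K β univ v) ∪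
          (univ : Finset (V × V)).image (fun q => ce K univ {q.1} ∩ ex K univ {q.2})))))

theorem tst_card {k : ℕ} (hk : 3 ≤ k) (K : Finset V → Prop) (β : ℝ) (hn : 1 ≤ Fintype.card V) :
    ((tst k K β).card : ℝ) ≤ 6 * (Fintype.card V : ℝ) ^ k := by
  have h1 : (tst k K β).card ≤ 1 + 1 + (Fintype.card V ^ k + (Fintype.card V + (Fintype.card V +
      Fintype.card V * Fintype.card V))) := by
    unfold tst
    refine (card_insert_le _ _).trans ?_
    have e1 := card_insert_le (ex K univ ∅)
      ((univ : Finset (Fin k → V)).image (fun f => ex K univ (univ.image f)) ∪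
      ((univ : Finset V).image (fun v => ce K univ {v}) ∪
        ((univ : Finset V).image (fun v => Ds K β univ v) ∪
          (univ : Finset (V × V)).image (fun q => ce K univ {q.1} ∩ ex K univ {q.2}))))
    have e2 := card_union_le ((univ : Finset (Fin k → V)).image (fun f => ex K univ (univ.image f)))
      ((univ : Finset V).image (fun v => ce K univ {v}) ∪
        ((univ : Finset V).image (fun v => Ds K β univ v) ∪
          (univ : Finset (V × V)).image (fun q => ce K univ {q.1} ∩ ex K univ {q.2})))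
    have e3 := card_union_le ((univ : Finset V).image (fun v => ce K univ {v}))
        ((univ : Finset V).image (fun v => Ds K β univ v) ∪
          (univ : Finset (V × V)).image (fun q => ce K univ {q.1} ∩ ex K univ {q.2}))
    have e4 := card_union_le ((univ : Finset V).image (fun v => Ds K β univ v))
          ((univ : Finset (V × V)).image (fun q => ce K univ {q.1} ∩ ex K univ {q.2}))
    have f1 := card_image_le (s := (univ : Finset (Fin k → V)))
      (f := fun f => ex K univ (univ.image f))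
    have f2 := card_image_le (s := (univ : Finset V)) (f := fun v => ce K univ {v})
    have f3 := card_image_le (s := (univ : Finset V)) (f := fun v => Ds K β univ v)
    have f4 := card_image_le (s := (univ : Finset (V × V)))
      (f := fun q => ce K univ {q.1} ∩ ex K univ {q.2})
    rw [card_univ, Fintype.card_fun, Fintype.card_fin] at f1
    rw [card_univ] at f2 f3
    rw [card_univ, Fintype.card_prod] at f4
    omega
  obtain ⟨n, hn'⟩ : ∃ n : ℕ, n = Fintype.card V := ⟨_, rfl⟩
  rw [← hn'] at h1 hn ⊢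
  have g1 : 1 ≤ n ^ k := Nat.one_le_pow _ _ hn
  have g2 : n ≤ n ^ k := by
    calc n = n ^ 1 := (pow_one n).symm
      _ ≤ n ^ k := Nat.pow_le_pow_right hn (by omega)
  have g3 : n * n ≤ n ^ k := by
    calc n * n = n ^ 2 := (sq n).symm
      _ ≤ n ^ k := Nat.pow_le_pow_right hn (by omega)
  have h2 : (tst k K β).card ≤ 6 * n ^ k := by omega
  exact_mod_cast h2

theorem tst_ex {k : ℕ} (K : Finset V → Prop) (β : ℝ) (T : Finset V) (hT : T.card < k) :
    ex K univ T ∈ tst k K β := by
  unfold tst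
  rcases T.eq_empty_or_nonempty with rfl | hne
  · exact mem_insert_of_mem (mem_insert_self _ _)
  · refine mem_insert_of_mem (mem_insert_of_mem (mem_union_left _ ?_))
    rw [mem_image]
    obtain ⟨x, hx⟩ := hne
    -- an enumeration of `T`
    obtain ⟨e⟩ : Nonempty (Fin T.card ≃ T) := ⟨(T.equivFin).symm⟩
    refine ⟨fun i => if h : i.1 < T.card then (e ⟨i.1, h⟩ : V) else x, mem_univ _, ?_⟩
    congr 1
    ext y
    simp only [mem_image, mem_univ, true_and]
    constructor
    · rintro ⟨i, hi⟩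
      split_ifs at hi with h
      · rw [← hi]; exact (e _).2
      · rw [← hi]; exact hx
    · intro hy
      refine ⟨⟨(e.symm ⟨y, hy⟩).1, lt_trans (e.symm ⟨y, hy⟩).2 hT⟩, ?_⟩
      rw [dif_pos (e.symm ⟨y, hy⟩).2]
      simp

theorem tst_univ {k : ℕ} (K : Finset V → Prop) (β : ℝ) : univ ∈ tst k K β := mem_insert_self _ _

theorem tst_ce {k : ℕ} (K : Finset V → Prop) (β : ℝ) (v : V) : ce K univ {v} ∈ tst k K β := by
  refine mem_insert_of_mem (mem_insert_of_mem (mem_union_right _ (mem_union_left _ ?_)))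
  exact mem_image_of_mem _ (mem_univ v)

theorem tst_Ds {k : ℕ} (K : Finset V → Prop) (β : ℝ) (v : V) : Ds K β univ v ∈ tst k K β := by
  refine mem_insert_of_mem (mem_insert_of_mem (mem_union_right _ (mem_union_right _
    (mem_union_left _ ?_))))
  exact mem_image_of_mem _ (mem_univ v)

theorem tst_ce2 {k : ℕ} (K : Finset V → Prop) (β : ℝ) (v y : V) :
    ce K univ {v} ∩ ex K univ {y} ∈ tst k K β := by
  refine mem_insert_of_mem (mem_insert_of_mem (mem_union_right _ (mem_union_right _
    (mem_union_right _ ?_))))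
  rw [mem_image]
  exact ⟨(v, y), mem_univ _, rfl⟩

end

end ALMKL

open POT2L Pool.Agent.Helper83K9.CF.PotL

theorem pot3 : S_POT3 := by
  intro t A d τ γ κ ht hd hd1 hτ hγ hκ
  have htr : (1 : ℝ) ≤ t := by exact_mod_cast ht
  obtain ⟨B, hB⟩ : ∃ B : ℝ, B = 6 / (d * κ) + t / d := ⟨_, rfl⟩
  have hB0 : 0 < B := by rw [hB]; positivity
  obtain ⟨lam, hl⟩ : ∃ lam : ℝ, lam = min (1 / B) (γ * d / (48 * B * (τ + 1))) := ⟨_, rfl⟩
  have hlam : 0 < lam := by rw [hl]; exact lt_min (by positivity) (by positivity)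
  have hlB : lam * B ≤ 1 := by
    have : lam ≤ 1 / B := by rw [hl]; exact min_le_left _ _
    rw [le_div_iff₀ hB0] at this
    exact this
  have hlC : 48 * lam * B * (τ + 1) ≤ γ * d := by
    have : lam ≤ γ * d / (48 * B * (τ + 1)) := by rw [hl]; exact min_le_right _ _
    rw [le_div_iff₀ (by positivity)] at this
    linarith
  obtain ⟨η, hη⟩ : ∃ η : ℝ, η = min 1 (γ * d / (36 * (τ + 1))) := ⟨_, rfl⟩
  have hη0 : 0 < η := by rw [hη]; exact lt_min one_pos (by positivity)
  have hη1 : η ≤ 1 := by rw [hη]; exact min_le_left _ _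
  have hηC : 36 * η * (τ + 1) ≤ γ * d := by
    have : η ≤ γ * d / (36 * (τ + 1)) := by rw [hη]; exact min_le_right _ _
    rw [le_div_iff₀ (by positivity)] at this
    linarith
  refine ⟨η, hη0, hη1, fun C => ?_⟩
  obtain ⟨k₁, hk₁⟩ := ALMKL.exp_large A C (lam * γ / 4) (by positivity)
  refine ⟨max (max 1 ⌈1 / κ⌉₊) (max ⌈12 * (τ + 1) / (d * κ * γ)⌉₊ k₁), fun k hk => ?_⟩
  have hk1 : 1 ≤ k := le_trans (le_trans (le_max_left _ _) (le_max_left _ _)) hk
  have hkr : (1 : ℝ) ≤ k := by exact_mod_cast hk1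
  have hk2 : 1 ≤ κ * k := by
    have : 1 / κ ≤ k := (Nat.le_ceil _).trans (by exact_mod_cast le_trans (le_trans (le_max_right _ _) (le_max_left _ _)) hk)
    rw [div_le_iff₀ hκ] at this
    linarith
  have hk3 : 12 * (τ + 1) ≤ d * κ * γ * k := by
    have : 12 * (τ + 1) / (d * κ * γ) ≤ k :=
      (Nat.le_ceil _).trans (by exact_mod_cast le_trans (le_trans (le_max_left _ _) (le_max_right _ _)) hk)
    rw [div_le_iff₀ (by positivity)] at this
    linarith
  have hk4 := hk₁ k (le_trans (le_trans (le_max_right _ _) (le_max_right _ _)) hk)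
  intro V _ _ T r e D U₀ ok hTc hT hr he hD hok hyp
  -- the growth rate
  obtain ⟨Λ, hΛ⟩ : ∃ Λ : ℝ, Λ = k * (lam * (3 / d) * (1 / (κ * k) + 3 * η) + 12 * lam ^ 2 * B / d) := ⟨_, rfl⟩
  have hΛ0 : 0 ≤ Λ := by rw [hΛ]; positivity
  have hΛ1 : Λ * (τ + 1) ≤ (3 / 4) * (lam * γ * k) := by
    have e1 : Λ * (τ + 1) = lam * k * (3 * (τ + 1) / (d * κ * k) + 9 * η * (τ + 1) / d + 12 * lam * B * (τ + 1) / d) := by
      rw [hΛ]; field_simp; ring
    rw [e1]
    have e2 : 3 * (τ + 1) / (d * κ * k) ≤ γ / 4 := by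
      rw [div_le_iff₀ (by positivity)]
      nlinarith
    have e3 : 9 * η * (τ + 1) / d ≤ γ / 4 := by
      rw [div_le_iff₀ hd]; linarith
    have e4 : 12 * lam * B * (τ + 1) / d ≤ γ / 4 := by
      rw [div_le_iff₀ hd]; linarith
    calc lam * k * (3 * (τ + 1) / (d * κ * k) + 9 * η * (τ + 1) / d + 12 * lam * B * (τ + 1) / d) ≤
        lam * k * (γ / 4 + γ / 4 + γ / 4) := by
          apply mul_le_mul_of_nonneg_left _ (by positivity)
          linarith
      _ = (3 / 4) * (lam * γ * k) := by ring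
  -- the potential controls the tests
  have hctl : ∀ (U : Finset V) (σ : ℝ), 0 ≤ σ → σ ≤ τ + 1 →
      Phi T lam U₀ U D (fun v => D v * Real.exp (-(σ * r v))) ≤ 2 * T.card * Real.exp (Λ * σ) →
      ∀ S ∈ T, |Y S U (fun v => D v * Real.exp (-(σ * r v))) - Y S U₀ D| ≤ γ * k := by
    intro U σ hσ0 hσ1 hΦ S hS
    have h1 := (abs_le_Phi T lam hlam U₀ U D (fun v => D v * Real.exp (-(σ * r v))) hS).trans hΦ
    have h2 : Real.exp (Λ * σ) ≤ Real.exp ((3 / 4) * (lam * γ * k)) :=
      Real.exp_le_exp.2 ((mul_le_mul_of_nonneg_left hσ1 hΛ0).trans hΛ1)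
    have h3 : 2 * (T.card : ℝ) ≤ Real.exp ((1 / 4) * (lam * γ * k)) := by
      have h5 : (1 / 4) * (lam * γ * k) = lam * γ / 4 * k := by ring
      rw [h5]
      linarith
    have h4 : Real.exp (lam * |Y S U (fun v => D v * Real.exp (-(σ * r v))) - Y S U₀ D|) ≤ Real.exp (lam * (γ * k)) := by
      refine h1.trans ?_
      calc 2 * (T.card : ℝ) * Real.exp (Λ * σ) ≤ Real.exp ((1 / 4) * (lam * γ * k)) * Real.exp ((3 / 4) * (lam * γ * k)) :=
            mul_le_mul h3 h2 (Real.exp_pos _).le (Real.exp_pos _).le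
        _ = Real.exp (lam * (γ * k)) := by rw [← Real.exp_add]; congr 1; ring
    exact le_of_mul_le_mul_left (Real.exp_le_exp.1 h4) hlam
  -- the process
  have main : ∀ (N : ℕ) (U : Finset V) (σ : ℝ) (F : Finset (Finset V)), U.card ≤ N → U = U₀ \ F.biUnion id →
      0 ≤ σ → σ ≤ τ + 1 → (∀ K ∈ F, ok K ∧ K ⊆ U₀) → (∀ K ∈ F, ∀ L ∈ F, K ≠ L → Disjoint K L) →
      (∀ K ∈ F, ∀ v ∈ K, 0 < r v + e v) →
      Phi T lam U₀ U D (fun v => D v * Real.exp (-(σ * r v))) ≤ 2 * T.card * Real.exp (Λ * σ) →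
      ∃ (σ : ℝ) (F : Finset (Finset V)), τ ≤ σ ∧ σ ≤ τ + 1 ∧ (∀ K ∈ F, ok K ∧ K ⊆ U₀) ∧
        (∀ K ∈ F, ∀ L ∈ F, K ≠ L → Disjoint K L) ∧ (∀ K ∈ F, ∀ v ∈ K, 0 < r v + e v) ∧
        ∀ S ∈ T, |Y S (U₀ \ F.biUnion id) (fun v => D v * Real.exp (-(σ * r v))) - Y S U₀ D| ≤ γ * k := by
    intro N
    induction N with
    | zero =>
      intro U σ F hUN hU hσ0 hσ1 hF1 hF2 hF3 hΦ
      rcases le_or_gt τ σ with hτσ | hστ
      · refine ⟨σ, F, hτσ, hσ1, hF1, hF2, hF3, ?_⟩
        rw [← hU]
        exact hctl U σ hσ0 hσ1 hΦ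
      · exfalso
        obtain ⟨w, hw0, hwok, hwc, hwd, hwW⟩ := hyp U σ (by rw [hU]; exact sdiff_subset) hσ0 hστ.le (hctl U σ hσ0 hσ1 hΦ) (by
          intro v hv
          rw [hU, mem_sdiff]
          constructor
          · exact fun h => h.1
          · intro h
            refine ⟨h, fun hvF => ?_⟩
            rw [mem_biUnion] at hvF
            obtain ⟨K, hK, hvK⟩ := hvF
            have := hF3 K hK v hvK
            linarith)
        have hpos : 0 < ∑ K, w K := by linarith
        obtain ⟨K, _, hK⟩ := exists_ne_zero_of_sum_ne_zero hpos.ne'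
        have h1 := hwok K hK
        have h2 := hok K h1.1
        have h3 := card_le_card h1.2
        omega
    | succ N ih =>
      intro U σ F hUN hU hσ0 hσ1 hF1 hF2 hF3 hΦ
      rcases le_or_gt τ σ with hτσ | hστ
      · refine ⟨σ, F, hτσ, hσ1, hF1, hF2, hF3, ?_⟩
        rw [← hU]
        exact hctl U σ hσ0 hσ1 hΦ
      · obtain ⟨w, hw0, hwok, hwc, hwd, hwW⟩ := hyp U σ (by rw [hU]; exact sdiff_subset) hσ0 hστ.le (hctl U σ hσ0 hσ1 hΦ) (by
          intro v hv
          rw [hU, mem_sdiff]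
          constructor
          · exact fun h => h.1
          · intro h
            refine ⟨h, fun hvF => ?_⟩
            rw [mem_biUnion] at hvF
            obtain ⟨K, hK, hvK⟩ := hvF
            have := hF3 K hK v hvK
            linarith)
        have hpos : 0 < ∑ K, w K := by linarith
        obtain ⟨s, hs⟩ : ∃ s : ℝ, s = 1 / ∑ K, w K := ⟨_, rfl⟩
        have hs0 : 0 < s := by rw [hs]; positivity
        have hWs : ∑ K, w K = 1 / s := by rw [hs]; field_simp
        have hsle : s ≤ 1 / (κ * k) := by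
          rw [hs]; exact one_div_le_one_div_of_le (by positivity) hwW
        have hs1 : s ≤ 1 := hsle.trans (by rw [div_le_one (by positivity)]; exact hk2)
        have hsk : s * k ≤ 1 / κ := by
          calc s * k ≤ 1 / (κ * k) * k := mul_le_mul_of_nonneg_right hsle (by positivity)
            _ = 1 / κ := by field_simp
        have hσ' : σ + s ≤ τ + 1 := by linarith
        obtain ⟨K, hK, hKΦ⟩ := one_step2 (t := t) (k := k) (B := B) hd hκ hη0.le hη1 T hT U₀ U D r e
          (fun v => D v * Real.exp (-(σ * r v))) (fun v => D v * Real.exp (-((σ + s) * r v))) w hs0 hs1 hWs hsk hw0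
          (fun K hK => hok K (hwok K hK).1) hr he (fun v => (hD v σ hσ0 hσ1).1)
          (fun v => (hD v (σ + s) (by positivity) hσ').1) (fun v => by
            rw [mul_assoc, ← Real.exp_add]; congr 2; ring) hwc hwd hB hlam hlB
        have hKok := hwok K hK
        have hKcard : K.card = t := hok K hKok.1
        have hKne : K.Nonempty := by rw [← card_pos]; omega
        have hKpos : 0 < w K := lt_of_le_of_ne (hw0 K) (Ne.symm hK)
        have hU' : U \ K = U₀ \ (insert K F).biUnion id := by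
          rw [hU]
          ext v
          simp only [mem_sdiff, mem_biUnion, mem_insert, id]
          constructor
          · rintro ⟨⟨h1, h2⟩, h3⟩
            refine ⟨h1, ?_⟩
            rintro ⟨L, rfl | hL, hv⟩
            · exact h3 hv
            · exact h2 ⟨L, hL, hv⟩
          · rintro ⟨h1, h2⟩
            exact ⟨⟨h1, fun ⟨L, hL, hv⟩ => h2 ⟨L, Or.inr hL, hv⟩⟩, fun hv => h2 ⟨K, Or.inl rfl, hv⟩⟩
        have hdisF : ∀ L ∈ F, Disjoint K L := by
          intro L hL
          rw [Finset.disjoint_left]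
          intro v hvK hvL
          have := hKok.2 hvK
          rw [hU, mem_sdiff] at this
          exact this.2 (mem_biUnion.2 ⟨L, hL, hvL⟩)
        refine ih (U \ K) (σ + s) (insert K F) ?_ hU' (by positivity) hσ' ?_ ?_ ?_ ?_
        · have h1 : (U \ K).card + K.card = U.card := card_sdiff_add_card_eq_card hKok.2
          have h2 := card_pos.2 hKne
          omega
        · intro L hL
          rcases mem_insert.1 hL with rfl | hL
          · exact ⟨hKok.1, hKok.2.trans (by rw [hU]; exact sdiff_subset)⟩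
          · exact hF1 L hL
        · intro L hL L' hL' hne
          rcases mem_insert.1 hL with h1 | h1
          · rcases mem_insert.1 hL' with h2 | h2
            · exact absurd (h1.trans h2.symm) hne
            · rw [h1]; exact hdisF L' h2
          · rcases mem_insert.1 hL' with h2 | h2
            · rw [h2]; exact (hdisF L h1).symm
            · exact hF2 L h1 L' h2 hne
        · intro L hL v hv
          rcases mem_insert.1 hL with rfl | hL
          · have h1 := hwc v (hKok.2 hv)
            have h2 : w L ≤ ∑ K, (if v ∈ K then w K else 0) := by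
              have h3 : (if v ∈ L then w L else 0) ≤ ∑ K, (if v ∈ K then w K else 0) :=
                single_le_sum (f := fun K : Finset V => if v ∈ K then w K else 0)
                (fun K _ => by
                  by_cases hvK : v ∈ K
                  · show 0 ≤ (if v ∈ K then w K else 0)
                    rw [if_pos hvK]; exact hw0 K
                  · show 0 ≤ (if v ∈ K then w K else 0)
                    rw [if_neg hvK]) (mem_univ L)
              rw [if_pos hv] at h3
              exact h3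
            linarith
          · exact hF3 L hL v hv
        · refine hKΦ.trans ?_
          have h1 : s * (k * (lam * (3 / d) * (s + 3 * η) + 12 * lam ^ 2 * B / d)) ≤ Λ * s := by
            rw [mul_comm s, hΛ]
            apply mul_le_mul_of_nonneg_right _ hs0.le
            apply mul_le_mul_of_nonneg_left _ (by positivity)
            have : lam * (3 / d) * (s + 3 * η) ≤ lam * (3 / d) * (1 / (κ * k) + 3 * η) :=
              mul_le_mul_of_nonneg_left (by linarith) (by positivity)
            linarith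
          calc Phi T lam U₀ U D (fun v => D v * Real.exp (-(σ * r v))) *
              Real.exp (s * (k * (lam * (3 / d) * (s + 3 * η) + 12 * lam ^ 2 * B / d))) ≤
              (2 * T.card * Real.exp (Λ * σ)) * Real.exp (Λ * s) :=
                mul_le_mul hΦ (Real.exp_le_exp.2 h1) (Real.exp_pos _).le
                  (mul_nonneg (mul_nonneg zero_le_two (Nat.cast_nonneg _)) (Real.exp_pos _).le)
            _ = 2 * T.card * Real.exp (Λ * (σ + s)) := by rw [mul_assoc, ← Real.exp_add]; congr 2; ring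
  refine main U₀.card U₀ 0 ∅ le_rfl (by rw [biUnion_empty, sdiff_empty]) le_rfl (by positivity)
    (fun K hK => absurd hK (notMem_empty K)) (fun K hK => absurd hK (notMem_empty K))
    (fun K hK => absurd hK (notMem_empty K)) ?_
  have h1 : (fun v => D v * Real.exp (-(0 * r v))) = D := by
    funext v; simp
  rw [h1]
  unfold Phi
  simp only [sub_self, mul_zero, neg_zero, Real.exp_zero, sum_const, nsmul_eq_mul]
  linarith



open ALMKL in
theorem almk (h1 : S_POT3) (h2 : S_FTK) : S_ALMK := by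
  intro k β γ₁ hk hβ hγ₁
  obtain ⟨γf, hγf, hF⟩ := h2 k (β / 2) hk (by positivity)
  obtain ⟨γ₂, hγ₂⟩ : ∃ γ₂ : ℝ, γ₂ = min γ₁ γf := ⟨_, rfl⟩
  have hγ₂0 : 0 < γ₂ := by rw [hγ₂]; exact lt_min hγ₁ hγf
  have hγ₂1 : γ₂ ≤ γ₁ := by rw [hγ₂]; exact min_le_left _ _
  have hγ₂f : γ₂ ≤ γf := by rw [hγ₂]; exact min_le_right _ _
  obtain ⟨g, hg⟩ : ∃ g : ℝ, g = min (min (γ₂ / 2) (β / 4)) (min (β / (2 + β)) (1 / 2)) := ⟨_, rfl⟩
  have hg0 : 0 < g := by
    rw [hg]
    exact lt_min (lt_min (by positivity) (by positivity)) (lt_min (by positivity) (by norm_num))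
  have hg1 : 2 * g ≤ γ₂ := by
    have : g ≤ γ₂ / 2 := by rw [hg]; exact (min_le_left _ _).trans (min_le_left _ _)
    linarith
  have hg2 : 4 * g ≤ β := by
    have : g ≤ β / 4 := by rw [hg]; exact (min_le_left _ _).trans (min_le_right _ _)
    linarith
  have hg3 : β / 2 * (1 + g) ≤ β - g := by
    have : g ≤ β / (2 + β) := by rw [hg]; exact (min_le_right _ _).trans (min_le_left _ _)
    rw [le_div_iff₀ (by positivity)] at this
    linarith
  have hg4 : g ≤ 1 / 2 := by rw [hg]; exact (min_le_right _ _).trans (min_le_right _ _)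
  refine ⟨g / 2, by positivity, fun δ hδ => ?_⟩
  obtain ⟨τ, hτ⟩ : ∃ τ : ℝ, τ = max 1 (Real.log (2 / δ)) := ⟨_, rfl⟩
  have hτ1 : 1 ≤ τ := by rw [hτ]; exact le_max_left _ _
  have hτ2 : Real.exp (-τ) ≤ δ / 2 := by
    have e1 : Real.log (2 / δ) ≤ τ := by rw [hτ]; exact le_max_right _ _
    have e2 : 2 / δ ≤ Real.exp τ := by
      rw [← Real.exp_log (by positivity : 0 < 2 / δ)]
      exact Real.exp_le_exp.2 e1
    rw [Real.exp_neg]
    have e3 : (δ / 2) = (2 / δ)⁻¹ := by rw [inv_div]
    rw [e3]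
    exact inv_anti₀ (by positivity) e2
  refine ⟨Real.exp (-(τ + 1)) / 2, by positivity, fun s hs => ?_⟩
  obtain ⟨κ, hκ⟩ : ∃ κ : ℝ, κ = Real.exp (-τ) / (4 * ((k : ℝ) * s)) := ⟨_, rfl⟩
  have hk0 : (0 : ℝ) < k := by
    have : 0 < k := by omega
    exact_mod_cast this
  have hs0 : (0 : ℝ) < s := by exact_mod_cast hs
  have hκ0 : 0 < κ := by rw [hκ]; positivity
  have hks : 1 ≤ k * s := Nat.one_le_iff_ne_zero.2 (by
    have : 0 < k * s := Nat.mul_pos (by omega) hs
    omega)
  obtain ⟨η, hη0, hη1, hP⟩ := h1 (k * s) k (Real.exp (-(τ + 1))) τ (g / 2) κ hks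
    (Real.exp_pos _) (by rw [Real.exp_le_one_iff]; linarith) (by linarith) (by positivity) hκ0
  obtain ⟨k₀, hk₀⟩ := hP 6
  obtain ⟨n₁, hn₁⟩ := hF s (min η (1 / 2)) hs (lt_min hη0 (by norm_num))
  refine ⟨max (max 1 k₀) ⌈2 * n₁ / Real.exp (-τ)⌉₊, ?_⟩
  intro V _ _ K hK hn hPD hNE B hB
  have hn1 : 1 ≤ Fintype.card V := ((le_max_left _ _).trans (le_max_left _ _)).trans hn
  have hn2 : k₀ ≤ Fintype.card V := ((le_max_right _ _).trans (le_max_left _ _)).trans hn
  have hn3 : 2 * (n₁ : ℝ) ≤ Real.exp (-τ) * Fintype.card V := by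
    have : 2 * (n₁ : ℝ) / Real.exp (-τ) ≤ (Fintype.card V : ℝ) :=
      (Nat.le_ceil _).trans (by exact_mod_cast (le_max_right _ _).trans hn)
    rw [div_le_iff₀ (Real.exp_pos _)] at this
    linarith
  obtain ⟨n, hnn⟩ : ∃ n : ℝ, n = (Fintype.card V : ℝ) := ⟨_, rfl⟩
  have hn0 : 0 < n := by
    rw [hnn]
    exact_mod_cast hn1
  -- from the tests to regularity
  have hreg : ∀ (U : Finset V) (σ : ℝ) (S : Finset V),
      |Y S U (fun _ => 1 * Real.exp (-(σ * 1))) - Y S Bᶜ (fun _ => (1 : ℝ))| ≤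
        g / 2 * (Fintype.card V : ℝ) → Reg U (Real.exp σ) g S := by
    intro U σ S hS
    rw [Y_const, Y_one] at hS
    have e1 : ((S ∩ Bᶜ).card : ℝ) ≤ S.card := by exact_mod_cast card_le_card inter_subset_left
    have e2 : (S.card : ℝ) ≤ ((S ∩ Bᶜ).card : ℝ) + B.card := by
      have e3 : S ⊆ (S ∩ Bᶜ) ∪ B := by
        intro x hx
        by_cases hxB : x ∈ B
        · exact mem_union_right _ hxB
        · exact mem_union_left _ (mem_inter.2 ⟨hx, mem_compl.2 hxB⟩)
      have e4 := (card_le_card e3).trans (card_union_le _ _)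
      exact_mod_cast e4
    unfold Reg
    rw [abs_le] at hS ⊢
    constructor <;> linarith [hS.1, hS.2]
  -- the bounds for `U`
  have hlo : ∀ (U : Finset V) (σ : ℝ), Reg U (Real.exp σ) g univ →
      Real.exp (-σ) * n / 2 ≤ (U.card : ℝ) ∧ (U.card : ℝ) ≤ 2 * (Real.exp (-σ) * n) := by
    intro U σ hU
    unfold Reg at hU
    rw [univ_inter, card_univ, ← hnn, abs_le] at hU
    have hE : 0 < Real.exp σ := Real.exp_pos _
    have e1 : Real.exp σ * Real.exp (-σ) = 1 := by rw [← Real.exp_add, add_neg_cancel, Real.exp_zero]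
    constructor
    · refine le_of_mul_le_mul_left ?_ hE
      have e2 : Real.exp σ * (Real.exp (-σ) * n / 2) = n / 2 := by
        rw [mul_div_assoc, ← mul_assoc, e1, one_mul]
      rw [e2]
      nlinarith [hU.1]
    · refine le_of_mul_le_mul_left ?_ hE
      have e2 : Real.exp σ * (2 * (Real.exp (-σ) * n)) = 2 * n := by
        rw [mul_left_comm, ← mul_assoc (Real.exp σ), e1, one_mul]
      rw [e2]
      nlinarith [hU.2]
  have hPDU : ∀ (U : Finset V) (σ : ℝ), (∀ S ∈ tst k K β, Reg U (Real.exp σ) g S) →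
      PD k K γ₂ U := by
    intro U σ hU
    exact PD_of K U (Real.exp σ) g γ₂ (Real.exp_pos _) hg0.le hg1 hPD (hU _ (tst_univ K β))
      fun T _ hT => hU _ (tst_ex K β T hT)
  obtain ⟨σ, F, hσ1, hσ2, hF1, hF2, -, hF4⟩ := hk₀ (Fintype.card V) hn2 V (tst k K β)
    (fun _ => 1) (fun _ => 0) (fun _ => 1) Bᶜ (TileK k s K) (tst_card hk K β hn1)
    (by
      intro S _
      have : S.card ≤ Fintype.card V := card_le_univ S
      have : (S.card : ℝ) ≤ Fintype.card V := by exact_mod_cast this
      linarith)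
    (fun _ => ⟨zero_le_one, le_rfl⟩) (fun _ => ⟨le_rfl, hη0.le⟩)
    (by
      intro _ σ hσ0 hσ1
      rw [one_mul, mul_one]
      exact ⟨Real.exp_le_exp.2 (by linarith), by rw [Real.exp_le_one_iff]; linarith⟩)
    (by
      rintro T ⟨p, hp, rfl, -⟩
      rw [card_image_of_injective _ hp, card_univ, Fintype.card_prod, Fintype.card_fin,
        Fintype.card_fin])
    (by
      intro U σ hU hσ0 hσ1 hUt _
      have hUr : ∀ S ∈ tst k K β, Reg U (Real.exp σ) g S := fun S hS => hreg U σ S (hUt S hS)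
      have hb := hlo U σ (hUr _ (tst_univ K β))
      have hexp : Real.exp (-τ) ≤ Real.exp (-σ) := Real.exp_le_exp.2 (by linarith)
      have hUc : Real.exp (-τ) * n / 2 ≤ (U.card : ℝ) := by
        refine le_trans ?_ hb.1
        have := mul_le_mul_of_nonneg_right hexp hn0.le
        linarith
      have hUn : n₁ ≤ U.card := by
        have e1 : (n₁ : ℝ) ≤ U.card := by
          rw [← hnn] at hn3
          linarith
        exact_mod_cast e1
      have hPf : PD k K γf U := by
        intro T hKT hTk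
        refine le_trans ?_ (hPDU U σ hUr T hKT hTk)
        apply mul_le_mul_of_nonneg_right _ (Nat.cast_nonneg _)
        linarith
      have hNf : NE k K (β / 2) U := NE_of (by omega) K U (Real.exp σ) g β (Real.exp_pos _) hg0.le hg2
        hg3 hNE (hUr _ (tst_univ K β)) (fun v => hUr _ (tst_ce K β v))
        (fun v => hUr _ (tst_Ds K β v)) (fun v y => hUr _ (tst_ce2 K β v y))
      obtain ⟨w, hw0, hwT, hwc, hwd⟩ := hn₁ V K U hK hUn hPf hNf
      refine ⟨w, hw0, hwT, fun v hv => by linarith [hwc v hv], ?_, ?_⟩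
      · intro S _
        have e1 : ∑ v ∈ S ∩ U, max 0 (1 - ∑ T, (if v ∈ T then w T else 0)) ≤
            ∑ v ∈ U, (1 - ∑ T, (if v ∈ T then w T else 0)) := by
          calc ∑ v ∈ S ∩ U, max 0 (1 - ∑ T, (if v ∈ T then w T else 0)) =
              ∑ v ∈ S ∩ U, (1 - ∑ T, (if v ∈ T then w T else 0)) := by
                refine sum_congr rfl fun v hv => ?_
                exact max_eq_right (by linarith [hwc v (mem_inter.1 hv).2])
            _ ≤ _ := sum_le_sum_of_subset_of_nonneg inter_subset_right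
                fun v hv _ => by linarith [hwc v hv]
        refine e1.trans (hwd.trans ?_)
        have e2 : (U.card : ℝ) ≤ Fintype.card V := by exact_mod_cast card_le_univ U
        exact mul_le_mul (min_le_left _ _) e2 (Nat.cast_nonneg _) hη0.le
      · -- the total weight
        have e1 : ∑ v ∈ U, ∑ T, (if v ∈ T then w T else 0) = ((k : ℝ) * s) * ∑ T, w T := by
          rw [sum_comm, mul_sum]
          refine sum_congr rfl fun T _ => ?_
          by_cases hT : w T = 0
          · rw [hT, mul_zero]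
            refine sum_eq_zero fun v _ => ?_
            split_ifs <;> rfl
          · obtain ⟨⟨p, hp, hTp, -⟩, hTU⟩ := hwT T hT
            rw [← sum_filter]
            have e2 : U.filter (fun v => v ∈ T) = T := by
              ext v
              rw [mem_filter]
              exact ⟨fun h => h.2, fun h => ⟨hTU h, h⟩⟩
            have e3 : T.card = k * s := by
              rw [hTp, card_image_of_injective _ hp, card_univ, Fintype.card_prod,
                Fintype.card_fin, Fintype.card_fin]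
            rw [e2, sum_const, e3, nsmul_eq_mul]
            push_cast
            ring
        have e2 : (U.card : ℝ) / 2 ≤ ((k : ℝ) * s) * ∑ T, w T := by
          rw [sum_sub_distrib, e1, sum_const, nsmul_eq_mul, mul_one] at hwd
          have e3 : min η (1 / 2) * (U.card : ℝ) ≤ 1 / 2 * (U.card : ℝ) :=
            mul_le_mul_of_nonneg_right (min_le_right _ _) (Nat.cast_nonneg _)
          linarith
        rw [← hnn]
        have hks0 : 0 < (k : ℝ) * s := by positivity
        refine le_of_mul_le_mul_left ?_ hks0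
        have e4 : (k : ℝ) * s * (κ * n) = Real.exp (-τ) * n / 4 := by
          rw [hκ]
          field_simp
        rw [e4]
        linarith)
  refine ⟨F, Bᶜ \ F.biUnion id, ?_, hF2, ?_, ?_, ?_, ?_⟩
  · intro T hT
    refine ⟨(hF1 T hT).1, ?_⟩
    rw [Finset.disjoint_left]
    intro x hx hxB
    exact (mem_compl.1 ((hF1 T hT).2 hx)) hxB
  · ext x
    simp only [mem_sdiff, mem_compl, mem_union]
    tauto
  · have hb := hlo _ σ (hreg _ σ _ (hF4 _ (tst_univ K β)))
    rw [← hnn]
    refine le_trans ?_ hb.1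
    have := mul_le_mul_of_nonneg_right (Real.exp_le_exp.2 (by linarith : -(τ + 1) ≤ -σ)) hn0.le
    linarith
  · have hb := hlo _ σ (hreg _ σ _ (hF4 _ (tst_univ K β)))
    rw [← hnn]
    refine hb.2.trans ?_
    have h3 : Real.exp (-σ) ≤ δ / 2 := (Real.exp_le_exp.2 (by linarith : -σ ≤ -τ)).trans hτ2
    have := mul_le_mul_of_nonneg_right h3 hn0.le
    linarith
  · intro T hKT hTk
    refine le_trans ?_ (hPDU _ σ (fun S hS => hreg _ σ S (hF4 S hS)) T hKT hTk)
    apply mul_le_mul_of_nonneg_right _ (Nat.cast_nonneg _)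
    linarith

end Pool.Agent.H48.TC
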