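import Pool.Agent.H48.TC.Stm
import Pool.Graph.R_pool_sql_team_seeded_1e53cb71.Helper83K9.CF.Base
import Pool.Graph.R_pool_sql_team_seeded_1e53cb71.Helper83K9.CF.Sel
import Pool.Graph.R_pool_sql_team_seeded_1e53cb71.Helper83K9.CF.Fam1

/-!
[APK] absorbing paths
-/

set_option autoImplicit false

namespace Pool.Agent.H48.TC

open Finset Pool.Agent.H48.PW Pool.Agent.Helper83K9.CF

namespace APKL

/-! ### Lists -/

section lists

variable {V : Type} [DecidableEq V] {K : Finset V → Prop} {k t : ℕ}

theorem tp_left (hK : Cx k K) {A B : List V} (h : TP K k (A ++ B)) : TP K k A := by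
  intro i
  refine hK.sub _ _ (h i) ?_
  intro x hx
  rw [List.mem_toFinset] at hx ⊢
  rw [List.drop_append, List.take_append]
  exact List.mem_append_left _ hx

theorem tp_right {A B : List V} (h : TP K k (A ++ B)) : TP K k B := by
  intro i
  have h1 := h (A.length + i)
  rw [List.drop_append, List.drop_eq_nil_of_le (by omega), Nat.add_sub_cancel_left,
    List.nil_append] at h1
  exact h1

theorem tp_glue {A C B : List V} (hC : k - 1 ≤ C.length) (h1 : TP K k (A ++ C))
    (h2 : TP K k (C ++ B)) : TP K k (A ++ C ++ B) := by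
  intro i
  by_cases h : i + k ≤ (A ++ C).length
  · have h3 : ((A ++ C ++ B).drop i).take k = ((A ++ C).drop i).take k := by
      rw [List.drop_append, List.take_append_of_le_length]
      rw [List.length_drop]
      omega
    rw [h3]
    exact h1 i
  · rw [List.length_append] at h
    have h3 : (A ++ C ++ B).drop i = (C ++ B).drop (i - A.length) := by
      rw [List.append_assoc, List.drop_append, List.drop_eq_nil_of_le (by omega)]
      simp
    rw [h3]
    exact h2 _

omit [DecidableEq V] in
theorem lastn_length {l : List V} (h : t ≤ l.length) : (lastn t l).length = t := by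
  unfold lastn
  rw [List.length_drop]
  omega

omit [DecidableEq V] in
theorem take_append_lastn (l : List V) : l.take (l.length - t) ++ lastn t l = l :=
  List.take_append_drop _ _

omit [DecidableEq V] in
theorem lastn_append {A B : List V} (h : t ≤ B.length) : lastn t (A ++ B) = lastn t B := by
  unfold lastn
  rw [List.length_append, show A.length + B.length - t = A.length + (B.length - t) by omega,
    List.drop_append]
  simp

omit [DecidableEq V] in
theorem take_append' {A B : List V} (h : t ≤ A.length) : (A ++ B).take t = A.take t :=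
  List.take_append_of_le_length h

omit [DecidableEq V] in
theorem mem_lastn {l : List V} {x : V} (h : x ∈ lastn t l) : x ∈ l := List.mem_of_mem_drop h

/-- joining of two pieces by a connection -/
theorem tp_join {P c A : List V} (hP : k - 1 ≤ P.length) (hA : k - 1 ≤ A.length)
    (h1 : TP K k P) (h2 : TP K k A) (h3 : TP K k (lastn (k - 1) P ++ c ++ A.take (k - 1))) :
    TP K k (P ++ c ++ A) := by
  have h4 : TP K k (P.take (P.length - (k - 1)) ++ lastn (k - 1) P ++ (c ++ A.take (k - 1))) := by
    refine tp_glue (lastn_length hP).ge ?_ ?_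
    · rw [take_append_lastn]
      exact h1
    · rw [← List.append_assoc]
      exact h3
  rw [take_append_lastn, ← List.append_assoc] at h4
  have h5 : TP K k ((P ++ c) ++ A.take (k - 1) ++ A.drop (k - 1)) := by
    refine tp_glue (by rw [List.length_take]; omega) h4 ?_
    rw [List.take_append_drop]
    exact h2
  rw [List.append_assoc, List.take_append_drop] at h5
  exact h5

/-- the same first and last `t` entries -/
structure Sim (t : ℕ) (A B : List V) : Prop where
  l1 : t ≤ A.length
  l2 : t ≤ B.length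
  fst : B.take t = A.take t
  lst : lastn t B = lastn t A

omit [DecidableEq V] in
theorem sim_refl {A : List V} (h : t ≤ A.length) : Sim t A A := ⟨h, h, rfl, rfl⟩

omit [DecidableEq V] in
theorem sim_join {P P' c A A' : List V} (hP : Sim t P P') (hA : Sim t A A') :
    Sim t (P ++ c ++ A) (P' ++ c ++ A') := by
  have h1 := hP.l1
  have h2 := hP.l2
  refine ⟨by simp only [List.length_append]; omega, by simp only [List.length_append]; omega,
    ?_, ?_⟩
  · rw [List.append_assoc, List.append_assoc, take_append' h2, take_append' h1, hP.fst]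
  · rw [lastn_append hA.l2, lastn_append hA.l1, hA.lst]

omit [DecidableEq V] in
theorem md_length {Q : List V} {v : V} (h : k - 1 ≤ Q.length) :
    (md k Q v).length = Q.length + 1 := by
  unfold md
  rw [List.length_append, List.length_cons, List.length_take, List.length_drop]
  omega

omit [DecidableEq V] in
theorem md_take {Q : List V} {v : V} (h : k - 1 ≤ Q.length) :
    (md k Q v).take (k - 1) = Q.take (k - 1) := by
  unfold md
  rw [List.take_append_of_le_length (by rw [List.length_take]; omega), List.take_take, min_self]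

omit [DecidableEq V] in
theorem md_lastn {Q : List V} {v : V} (h : Q.length = 2 * (k - 1)) :
    lastn (k - 1) (md k Q v) = lastn (k - 1) Q := by
  unfold md
  have h1 : Q.take (k - 1) ++ v :: Q.drop (k - 1) = (Q.take (k - 1) ++ [v]) ++ Q.drop (k - 1) := by
    simp
  rw [h1, lastn_append (by rw [List.length_drop]; omega)]
  unfold lastn
  rw [List.length_drop, h, List.drop_drop]
  congr 1
  omega

omit [DecidableEq V] in
theorem md_perm {Q : List V} {v : V} : (md k Q v).Perm (v :: Q) := by
  unfold md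
  refine List.perm_middle.trans ?_
  rw [List.take_append_drop]

omit [DecidableEq V] in
theorem mem_md {Q : List V} {v x : V} : x ∈ md k Q v ↔ x = v ∨ x ∈ Q := by
  rw [md_perm.mem_iff, List.mem_cons]

omit [DecidableEq V] in
theorem rowK_length {g : IB k → V} {i : Fin 3} : (rowK g i).length = 2 * (k - 1) := by
  unfold rowK
  rw [List.length_ofFn]

omit [DecidableEq V] in
theorem mem_rowK {g : IB k → V} {i : Fin 3} {x : V} :
    x ∈ rowK g i ↔ ∃ a, g (Sum.inl (i, a)) = x := by
  unfold rowK
  rw [List.mem_ofFn]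

omit [DecidableEq V] in
theorem rowK_nodup {g : IB k → V} (hg : Function.Injective g) (i : Fin 3) : (rowK g i).Nodup := by
  unfold rowK
  rw [List.nodup_ofFn]
  intro a a' h
  have := hg h
  simpa using this

omit [DecidableEq V] in
theorem md_nodup {g : IB k → V} (hg : Function.Injective g) (i : Fin 3) (j : Fin 2) :
    (md k (rowK g i) (g (Sum.inr j))).Nodup := by
  rw [md_perm.nodup_iff, List.nodup_cons]
  refine ⟨?_, rowK_nodup hg i⟩
  intro h
  obtain ⟨a, ha⟩ := mem_rowK.1 h
  have := hg ha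
  simp at this

end lists

/-! ### Pieces and their connection -/

section seg

variable {V : Type} [DecidableEq V] {K : Finset V → Prop} {k W : ℕ}

/-- connections outside of all small sets -/
def CN (K : Finset V → Prop) (k W : ℕ) (b : ℝ) : Prop :=
  ∀ F : Finset V, (F.card : ℝ) ≤ b → ∀ a a' : List V, a.length = k - 1 → a'.length = k - 1 →
    (a ++ a').Nodup → K a.toFinset → K a'.toFinset →
    ∃ c : List V, c.length ≤ W ∧ (∀ p ∈ c, p ∉ F) ∧ c.Nodup ∧ TP K k (a ++ c ++ a')

/-- a piece which avoids `F` -/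
structure Sg (K : Finset V → Prop) (k : ℕ) (F : Finset V) (A : List V) : Prop where
  len : k - 1 ≤ A.length
  tp : TP K k A
  nd : A.Nodup
  av : ∀ p ∈ A, p ∉ F

omit [DecidableEq V] in
theorem nodup_join {A c B : List V} (hA : A.Nodup) (hc : c.Nodup) (hB : B.Nodup)
    (h1 : ∀ p ∈ c, p ∉ A ∧ p ∉ B) (h2 : ∀ p ∈ A, p ∉ B) : (A ++ c ++ B).Nodup := by
  rw [List.nodup_append, List.nodup_append]
  refine ⟨⟨hA, hc, ?_⟩, hB, ?_⟩
  · intro v hv w hw hvw
    subst hvw
    exact (h1 _ hw).1 hv
  · intro v hv w hw hvw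
    subst hvw
    rcases List.mem_append.1 hv with hv | hv
    · exact h2 _ hv hw
    · exact (h1 _ hv).2 hw

theorem seg_join (hK : Cx k K) {b b' : ℝ} {F : Finset V} {A₁ A₂ : List V} {G : Finset V}
    (hc : CN K k W b) (hF : (F.card : ℝ) ≤ b')
    (h1 : Sg K k F A₁) (h2 : Sg K k F A₂)
    (hd : ∀ v ∈ A₁, v ∉ A₂)
    (hb : b' + (A₁.length + A₂.length + G.card : ℕ) ≤ b) :
    ∃ c : List V, c.length ≤ W ∧ (∀ p ∈ c, p ∉ G ∧ p ∉ A₁ ∧ p ∉ A₂ ∧ p ∉ F) ∧
      TP K k (lastn (k - 1) A₁ ++ c ++ A₂.take (k - 1)) ∧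
      Sg K k F (A₁ ++ c ++ A₂) := by
  classical
  have hthin : ((F ∪ (A₁.toFinset ∪ A₂.toFinset ∪ G)).card : ℝ) ≤ b := by
    have h3 := card_union_le (A₁.toFinset ∪ A₂.toFinset) G
    have h4 := card_union_le A₁.toFinset A₂.toFinset
    have h5 := List.toFinset_card_le A₁
    have h6 := List.toFinset_card_le A₂
    have h7 := card_union_le F (A₁.toFinset ∪ A₂.toFinset ∪ G)
    have h8 : ((F ∪ (A₁.toFinset ∪ A₂.toFinset ∪ G)).card : ℝ) ≤
        ((F.card + (A₁.length + A₂.length + G.card) : ℕ) : ℝ) := by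
      exact_mod_cast (by omega)
    rw [Nat.cast_add] at h8
    linarith
  have hlast : K (lastn (k - 1) A₁).toFinset := by
    have h3 := h1.tp
    rw [← take_append_lastn (t := k - 1) A₁] at h3
    have h4 := tp_right h3 0
    rw [List.drop_zero, List.take_of_length_le] at h4
    · exact h4
    · rw [lastn_length h1.len]
      omega
  have hfirst : K (A₂.take (k - 1)).toFinset := by
    refine hK.sub _ _ (h2.tp 0) ?_
    intro x hx
    rw [List.mem_toFinset] at hx ⊢
    rw [List.drop_zero]
    exact (List.take_subset_take_left A₂ (by omega)) hx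
  obtain ⟨c, hc1, hc2, hc3, hc4⟩ := hc _ hthin (lastn (k - 1) A₁) (A₂.take (k - 1))
    (lastn_length h1.len) (by rw [List.length_take]; have := h2.len; omega)
    (by
      rw [List.nodup_append]
      refine ⟨h1.nd.sublist (List.drop_sublist _ _), h2.nd.sublist (List.take_sublist _ _), ?_⟩
      intro v hv w hw hvw
      subst hvw
      exact hd v (mem_lastn hv) (List.mem_of_mem_take hw)) hlast hfirst
  have hcF : ∀ p ∈ c, p ∉ F ∧ p ∉ A₁ ∧ p ∉ A₂ ∧ p ∉ G := by
    intro p hp
    have := hc2 p hp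
    simp only [mem_union, List.mem_toFinset, not_or] at this
    exact ⟨this.1, this.2.1.1, this.2.1.2, this.2.2⟩
  refine ⟨c, hc1, fun p hp => ⟨(hcF p hp).2.2.2, (hcF p hp).2.1, (hcF p hp).2.2.1,
    (hcF p hp).1⟩, hc4, ?_, ?_, ?_, ?_⟩
  · simp only [List.length_append]
    have := h1.len
    omega
  · exact tp_join h1.len h2.len h1.tp h2.tp hc4
  · exact nodup_join h1.nd hc3 h2.nd (fun p hp => ⟨(hcF p hp).2.1, (hcF p hp).2.2.1⟩) hd
  · intro p hp
    simp only [List.mem_append] at hp
    rcases hp with (hp | hp) | hp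
    · exact h1.av p hp
    · exact (hcF p hp).1
    · exact h2.av p hp

/-! ### Completion of an absorber -/

theorem seg_md {F : Finset V} {g : IB k → V} (hg : Function.Injective g) (hF : ∀ i, g i ∉ F)
    (i : Fin 3) (j : Fin 2) (htp : TP K k (md k (rowK g i) (g (Sum.inr j)))) :
    Sg K k F (md k (rowK g i) (g (Sum.inr j))) := by
  have hl : (rowK g i).length = 2 * (k - 1) := rowK_length
  refine ⟨by rw [md_length (by omega)]; omega, htp, md_nodup hg i j, ?_⟩
  intro p hp
  rcases mem_md.1 hp with rfl | h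
  · exact hF _
  · obtain ⟨a, rfl⟩ := mem_rowK.1 h
    exact hF _

theorem seg_row {F : Finset V} {g : IB k → V} (hg : Function.Injective g) (hF : ∀ i, g i ∉ F)
    (i : Fin 3) (htp : TP K k (rowK g i)) : Sg K k F (rowK g i) := by
  have hl : (rowK g i).length = 2 * (k - 1) := rowK_length
  refine ⟨by omega, htp, rowK_nodup hg i, ?_⟩
  intro p hp
  obtain ⟨a, rfl⟩ := mem_rowK.1 hp
  exact hF _

omit [DecidableEq V] in
theorem sim_md {g : IB k → V} {i : Fin 3} {u v : V} :
    Sim (k - 1) (md k (rowK g i) u) (md k (rowK g i) v) := by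
  refine ⟨?_, ?_, ?_, ?_⟩
  · rw [md_length (by rw [rowK_length]; omega), rowK_length]
    omega
  · rw [md_length (by rw [rowK_length]; omega), rowK_length]
    omega
  · rw [md_take (by rw [rowK_length]; omega), md_take (by rw [rowK_length]; omega)]
  · rw [md_lastn rowK_length, md_lastn rowK_length]

omit [DecidableEq V] in
theorem sim_row {g : IB k → V} {i : Fin 3} {v : V} :
    Sim (k - 1) (rowK g i) (md k (rowK g i) v) := by
  refine ⟨?_, ?_, ?_, ?_⟩
  · rw [rowK_length]
    omega
  · rw [md_length (by rw [rowK_length]; omega), rowK_length]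
    omega
  · rw [md_take (by rw [rowK_length]; omega)]
  · rw [md_lastn rowK_length]

/-- the completion of an absorber -/
theorem complete (hK : Cx k K) (hk : 1 ≤ k) {b b' : ℝ} {F : Finset V} {g : IB k → V}
    (hc : CN K k W b) (hF : (F.card : ℝ) ≤ b') (hA : AbsK k K g) (hav : ∀ i, g i ∉ F)
    (hb : b' + (6 * k + 2 * W + Fintype.card (IB k) : ℕ) ≤ b) :
    ∃ A : List V, Sg K k F A ∧ A.length ≤ 6 * k + 2 * W ∧ 2 * k ≤ A.length ∧
      ∀ x, HitK k K g x → ∃ A' : List V, Sim (k - 1) A A' ∧ TP K k A' ∧ A'.Perm (x :: A) := by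
  classical
  have hS0 := seg_md (F := F) (K := K) hA.inj hav 0 0 hA.self0
  have hS1 := seg_md (F := F) (K := K) hA.inj hav 1 1 hA.self1
  have hS2 := seg_row (F := F) (K := K) hA.inj hav 2 hA.last
  have hl0 : (md k (rowK g 0) (g (Sum.inr 0))).length = 2 * (k - 1) + 1 := by
    rw [md_length (by rw [rowK_length]; omega), rowK_length]
  have hl1 : (md k (rowK g 1) (g (Sum.inr 1))).length = 2 * (k - 1) + 1 := by
    rw [md_length (by rw [rowK_length]; omega), rowK_length]
  have hl2 : (rowK g 2).length = 2 * (k - 1) := rowK_length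
  have hGc : (univ.image g).card ≤ Fintype.card (IB k) := card_image_le.trans card_univ.le
  have hd01 : ∀ v ∈ md k (rowK g 0) (g (Sum.inr 0)), v ∉ md k (rowK g 1) (g (Sum.inr 1)) := by
    intro v hv hv'
    rcases mem_md.1 hv with h | h <;> rcases mem_md.1 hv' with h' | h'
    · have := hA.inj (h.symm.trans h')
      simp at this
    · obtain ⟨a, ha⟩ := mem_rowK.1 h'
      have := hA.inj (ha.trans h)
      simp at this
    · obtain ⟨a, ha⟩ := mem_rowK.1 h
      have := hA.inj (ha.trans h')
      simp at this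
    · obtain ⟨a, ha⟩ := mem_rowK.1 h
      obtain ⟨a', ha'⟩ := mem_rowK.1 h'
      have := hA.inj (ha.trans ha'.symm)
      simp at this
  obtain ⟨c₁, hc1, hc2, hc3, hc4⟩ := seg_join (G := univ.image g) hK hc hF hS0 hS1 hd01 (by
    refine le_trans (add_le_add_right (Nat.cast_le.2 ?_) _) hb
    omega)
  have hd2 : ∀ v ∈ md k (rowK g 0) (g (Sum.inr 0)) ++ c₁ ++ md k (rowK g 1) (g (Sum.inr 1)),
      v ∉ rowK g 2 := by
    intro v hv hv'
    obtain ⟨a', ha'⟩ := mem_rowK.1 hv'
    simp only [List.mem_append] at hv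
    rcases hv with (h | h) | h
    · rcases mem_md.1 h with h | h
      · have := hA.inj (ha'.trans h)
        simp at this
      · obtain ⟨a, ha⟩ := mem_rowK.1 h
        have := hA.inj (ha.trans ha'.symm)
        simp at this
    · refine (hc2 v h).1 ?_
      rw [← ha']
      exact mem_image_of_mem _ (mem_univ _)
    · rcases mem_md.1 h with h | h
      · have := hA.inj (ha'.trans h)
        simp at this
      · obtain ⟨a, ha⟩ := mem_rowK.1 h
        have := hA.inj (ha.trans ha'.symm)
        simp at this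
  obtain ⟨c₂, hc5, hc6, hc7, hc8⟩ := seg_join (G := ∅) hK hc hF hc4 hS2 hd2 (by
    refine le_trans (add_le_add_right (Nat.cast_le.2 ?_) _) hb
    simp only [List.length_append, card_empty]
    omega)
  refine ⟨_, hc8, ?_, ?_, ?_⟩
  · simp only [List.length_append]
    omega
  · simp only [List.length_append]
    omega
  · intro x hx
    have hs0 : Sim (k - 1) (md k (rowK g 0) (g (Sum.inr 0))) (md k (rowK g 0) x) := sim_md
    have hs1 : Sim (k - 1) (md k (rowK g 1) (g (Sum.inr 1))) (md k (rowK g 1) (g (Sum.inr 0))) :=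
      sim_md
    have hs2 : Sim (k - 1) (rowK g 2) (md k (rowK g 2) (g (Sum.inr 1))) := sim_row
    have hs3 := sim_join (c := c₁) hs0 hs1
    have hT1 : TP K k (md k (rowK g 0) x ++ c₁ ++ md k (rowK g 1) (g (Sum.inr 0))) := by
      refine tp_join hs0.l2 hs1.l2 hx hA.next1 ?_
      rw [hs0.lst, hs1.fst]
      exact hc3
    refine ⟨md k (rowK g 0) x ++ c₁ ++ md k (rowK g 1) (g (Sum.inr 0)) ++ c₂ ++
      md k (rowK g 2) (g (Sum.inr 1)), sim_join hs3 hs2, ?_, ?_⟩
    · refine tp_join hs3.l2 hs2.l2 hT1 hA.next2 ?_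
      rw [hs3.lst, hs2.fst]
      exact hc7
    · rw [List.perm_iff_count]
      intro y
      have e1 := (md_perm (k := k) (Q := rowK g 0) (v := x)).count_eq y
      have e2 := (md_perm (k := k) (Q := rowK g 0) (v := g (Sum.inr 0))).count_eq y
      have e3 := (md_perm (k := k) (Q := rowK g 1) (v := g (Sum.inr 0))).count_eq y
      have e4 := (md_perm (k := k) (Q := rowK g 1) (v := g (Sum.inr 1))).count_eq y
      have e5 := (md_perm (k := k) (Q := rowK g 2) (v := g (Sum.inr 1))).count_eq y
      simp only [List.count_cons, List.count_append] at e1 e2 e3 e4 e5 ⊢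
      omega

end seg

/-! ### Selection -/

section select

variable {V : Type} [DecidableEq V] {K : Finset V → Prop} {k W : ℕ}

/-- the piece `P` can be continued by `c ++ A`, where `A` can be changed for every hit -/
def Cmp (K : Finset V → Prop) (k W : ℕ) (P : List V) (g : IB k → V) (c A : List V) : Prop :=
  c.length ≤ W ∧ A.length ≤ 6 * k + 2 * W ∧ Sg K k ∅ (P ++ c ++ A) ∧
    k - 1 ≤ A.length ∧ TP K k (lastn (k - 1) P ++ c ++ A.take (k - 1)) ∧
    ∀ x, HitK k K g x → ∃ A' : List V, Sim (k - 1) A A' ∧ TP K k A' ∧ A'.Perm (x :: A)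

theorem cmp_exists (hK : Cx k K) (hk : 1 ≤ k) {b : ℝ} {P : List V} {g : IB k → V}
    (hc : CN K k W b) (hP : Sg K k ∅ P) (hA : AbsK k K g) (hav : ∀ i, g i ∉ P)
    (hb : ((P.length + (6 * k + 2 * W + Fintype.card (IB k)) : ℕ) : ℝ) ≤ b) :
    ∃ c A : List V, Cmp K k W P g c A := by
  classical
  obtain ⟨A, hA1, hA2, hA4, hA3⟩ := complete (F := P.toFinset) (b' := P.length) hK hk hc
    (by exact_mod_cast List.toFinset_card_le P) hA
    (by
      intro i hi
      exact hav i (List.mem_toFinset.1 hi))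
    (by
      push_cast at hb ⊢
      linarith)
  have hdis : ∀ v ∈ P, v ∉ A := by
    intro v hv hv'
    exact hA1.av v hv' (List.mem_toFinset.2 hv)
  obtain ⟨c, hc1, hc2, hc3, hc4⟩ := seg_join (G := ∅) (F := ∅) (b' := 0) hK hc (by simp) hP
    ⟨hA1.len, hA1.tp, hA1.nd, fun p _ => notMem_empty p⟩ hdis (by
      rw [zero_add]
      refine le_trans (Nat.cast_le.2 ?_) hb
      rw [card_empty]
      omega)
  exact ⟨c, A, hc1, hA2, hc4, hA1.len, hc3, hA3⟩

/-- simultaneous replacement -/
theorem replace {R : ℕ} {st : ℕ → List V} {g : ℕ → IB k → V}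
    {c A : ℕ → List V} (h0 : Sg K k ∅ (st 0))
    (hst : ∀ i < R, st (i + 1) = st i ++ c i ++ A i)
    (hcmp : ∀ i < R, Cmp K k W (st i) (g i) (c i) (A i))
    (f : ℕ → Option V) :
    ∀ i ≤ R, (∀ j < i, ∀ x, f j = some x → HitK k K (g j) x) →
      ∃ P' : List V, TP K k P' ∧ Sim (k - 1) (st i) P' ∧
        P'.Perm ((List.range i).filterMap f ++ st i) := by
  intro i
  induction i with
  | zero =>
    intro _ _
    exact ⟨st 0, h0.tp, sim_refl h0.len, by simp⟩
  | succ i ih =>
    intro hi hf
    obtain ⟨P', hP1, hP2, hP3⟩ := ih (by omega) (fun j hj => hf j (by omega))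
    obtain ⟨hc1, hc2, hc3, hc4, hc5, hc6⟩ := hcmp i (by omega)
    have hPi : TP K k (st i ++ c i ++ A i) := hc3.tp
    have hAi : TP K k (A i) := tp_right hPi
    obtain ⟨A', hA1, hA2, hA3⟩ : ∃ A' : List V, Sim (k - 1) (A i) A' ∧ TP K k A' ∧
        A'.Perm ((f i).toList ++ A i) := by
      cases hfi : f i with
      | none => exact ⟨A i, sim_refl hc4, hAi, by simp⟩
      | some x =>
        obtain ⟨A', h1, h2, h3⟩ := hc6 x (hf i (by omega) x hfi)
        exact ⟨A', h1, h2, by simpa using h3⟩
    refine ⟨P' ++ c i ++ A', ?_, ?_, ?_⟩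
    · refine tp_join hP2.l2 hA1.l2 hP1 hA2 ?_
      rw [hP2.lst, hA1.fst]
      exact hc5
    · rw [hst i (by omega)]
      exact sim_join hP2 hA1
    · rw [hst i (by omega), List.range_succ, List.filterMap_append]
      have h4 : List.filterMap f [i] = (f i).toList := by
        cases hfi : f i <;> simp [hfi]
      rw [h4, List.perm_iff_count] at *
      intro y
      have h5 := hP3 y
      have h6 := hA3 y
      simp only [List.count_append] at h5 h6 ⊢
      omega

/-- `PD` in the complement of a small set -/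
theorem pd_compl [Fintype V] {γ₀ γ₁ b : ℝ} {F : Finset V} (hPD : PD k K γ₀ univ)
    (hF : (F.card : ℝ) ≤ b * (Fintype.card V : ℝ)) (hγ : γ₀ + b ≤ γ₁) : PD k K γ₁ Fᶜ := by
  classical
  intro T hT hTk
  have h1 := hPD T hT hTk
  rw [card_univ] at h1
  have h2 : (ex K univ T).card ≤ (ex K Fᶜ T).card + F.card := by
    refine (card_le_card (t := ex K Fᶜ T ∪ F) ?_).trans (card_union_le _ _)
    intro x hx
    rw [mem_union]
    by_cases hxF : x ∈ F
    · exact Or.inr hxF
    · refine Or.inl ?_
      unfold ex at hx ⊢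
      rw [mem_filter] at hx ⊢
      exact ⟨mem_compl.2 hxF, hx.2⟩
  have h3 : ((ex K univ T).card : ℝ) ≤ (ex K Fᶜ T).card + F.card := by exact_mod_cast h2
  have h4 : ((Fᶜ : Finset V).card : ℝ) ≤ Fintype.card V := by
    exact_mod_cast card_le_univ _
  have hn : (0 : ℝ) ≤ Fintype.card V := Nat.cast_nonneg _
  rcases le_or_gt 0 (1 - 1 / (k : ℝ) - γ₁) with h | h
  · have h5 := mul_le_mul_of_nonneg_left h4 h
    have h6 := mul_le_mul_of_nonneg_right hγ hn
    nlinarith
  · have h5 : (1 - 1 / (k : ℝ) - γ₁) * ((Fᶜ : Finset V).card : ℝ) ≤ 0 :=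
      mul_nonpos_of_nonpos_of_nonneg h.le (Nat.cast_nonneg _)
    exact h5.trans (Nat.cast_nonneg _)

end select

end APKL

open APKL

open Classical in
theorem apk (h1 : S_CONNK) (h2 : S_ABSK) : S_APK := by
  intro k hk
  obtain ⟨γc, W, nc, hγc, hconn⟩ := h1 k hk
  obtain ⟨γa, c₀, na, hγa, hc₀, habs⟩ := h2 k hk
  set δ : ℝ := min (min γc γa) 1 with hδ
  have hδ0 : 0 < δ := lt_min (lt_min hγc hγa) one_pos
  have hδc : δ ≤ γc := (min_le_left _ _).trans (min_le_left _ _)
  have hδa : δ ≤ γa := (min_le_left _ _).trans (min_le_right _ _)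
  have hδ1 : δ ≤ 1 := min_le_right _ _
  refine ⟨δ / 2, by positivity, ?_⟩
  intro γ hγ
  set γ' : ℝ := min γ (δ / 8) with hγ'
  have hγ'0 : 0 < γ' := lt_min hγ (by positivity)
  have hγ'8 : γ' ≤ δ / 8 := min_le_right _ _
  set a : ℕ := 6 * k + 3 * W with ha
  set a₁ : ℕ := 6 * k + 2 * W + Fintype.card (IB k) with ha₁
  have har : (0 : ℝ) < a := by
    have : 0 < a := by omega
    exact_mod_cast this
  set e : ℕ := Fintype.card (IB k) with he
  set c : ℝ := c₀ / 2 ^ e with hc
  have hc1 : 0 < c := by positivity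
  obtain ⟨k₄, hk₄⟩ := Fam1L.log_small (c * γ' / (8 * a)) 1 (c / 2) (by positivity) (by positivity)
  obtain ⟨k₅, hk₅⟩ := exists_nat_ge ((a : ℝ) / (γ' / 2))
  obtain ⟨k₆, hk₆⟩ := exists_nat_ge ((a₁ : ℝ) / (δ / 8))
  obtain ⟨k₇, hk₇⟩ := exists_nat_ge (((2 * k : ℕ) : ℝ) / (δ / 4))
  refine ⟨c * γ' / (8 * a), 2 * nc + 2 * na + k₄ + k₅ + k₆ + k₇ + 1, by positivity, ?_⟩
  intro V _ _ K hK hn hPD
  set n : ℕ := Fintype.card V with hndef
  have hn1 : 1 ≤ n := by omega
  have hnr : (1 : ℝ) ≤ n := by exact_mod_cast hn1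
  have hk5 : (a : ℝ) ≤ γ' / 2 * n := by
    have h4 : (a : ℝ) / (γ' / 2) ≤ n := hk₅.trans (by exact_mod_cast (by omega : k₅ ≤ n))
    rw [div_le_iff₀ (by positivity)] at h4
    linarith
  have hk6 : (a₁ : ℝ) ≤ δ / 8 * n := by
    have h4 : (a₁ : ℝ) / (δ / 8) ≤ n := hk₆.trans (by exact_mod_cast (by omega : k₆ ≤ n))
    rw [div_le_iff₀ (by positivity)] at h4
    linarith
  have hk7 : ((2 * k : ℕ) : ℝ) ≤ δ / 4 * n := by
    have h4 : ((2 * k : ℕ) : ℝ) / (δ / 4) ≤ n := hk₇.trans (by exact_mod_cast (by omega : k₇ ≤ n))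
    rw [div_le_iff₀ (by positivity)] at h4
    linarith
  -- size of complements
  have hcompl : ∀ F : Finset V, (F.card : ℝ) ≤ δ / 2 * n → (n : ℝ) / 2 ≤ ((Fᶜ : Finset V).card : ℝ) := by
    intro F hF
    have h4 : ((Fᶜ : Finset V).card : ℝ) = n - F.card := by
      rw [card_compl, Nat.cast_sub (card_le_univ F)]
    rw [h4]
    have h5 : δ / 2 * n ≤ 1 / 2 * n := mul_le_mul_of_nonneg_right (by linarith) (by positivity)
    linarith
  -- connections
  have hCN : CN K k W (δ / 4 * n) := by
    intro F hF a a' ha ha' hnd hKa hKa'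
    set F' : Finset V := F ∪ (a ++ a').toFinset with hF'
    have h4 : (F'.card : ℝ) ≤ δ / 2 * n := by
      have h5 := card_union_le F (a ++ a').toFinset
      have h6 := List.toFinset_card_le (a ++ a')
      rw [List.length_append] at h6
      have h7 : (F'.card : ℝ) ≤ F.card + ((2 * k : ℕ) : ℝ) := by
        have h8 : F'.card ≤ F.card + 2 * k := by
          rw [hF']
          omega
        exact_mod_cast h8
      linarith
    have h5 : PD k K γc F'ᶜ := pd_compl hPD h4 (by linarith)
    have h6 : nc ≤ (F'ᶜ : Finset V).card := by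
      have h7 := hcompl F' h4
      have h8 : ((2 * nc : ℕ) : ℝ) ≤ n := by exact_mod_cast (by omega)
      have h9 : ((2 * nc : ℕ) : ℝ) = 2 * (nc : ℝ) := by push_cast; ring
      have h10 : (nc : ℝ) ≤ ((F'ᶜ : Finset V).card : ℝ) := by linarith
      exact_mod_cast h10
    obtain ⟨c', h7, h8, h9, h10⟩ := hconn V K F'ᶜ hK h6 h5 a a' ha ha' hnd (by
      intro v hv hv'
      rw [mem_compl] at hv'
      exact hv' (mem_union_right _ (List.mem_toFinset.2 hv))) hKa hKa'
    refine ⟨c', h7, ?_, h9, h10⟩
    intro p hp hpF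
    have := h8 p hp
    rw [mem_compl] at this
    exact this (mem_union_left _ hpF)
  -- candidates
  let C : Finset (IB k → V) := univ
  have hCcard : (C.card : ℝ) = (n : ℝ) ^ e := by
    change ((univ : Finset (IB k → V)).card : ℝ) = _
    rw [card_univ, Fintype.card_fun]
    push_cast
    rfl
  have hmany : ∀ P : List V, (P.length : ℝ) ≤ γ' * n → ∀ x ∈ (univ : Finset V),
      ∃ H : Finset (IB k → V), H ⊆ C.filter (fun g => AbsK k K g ∧ ∀ i, g i ∉ P) ∧
        (∀ g ∈ H, HitK k K g x) ∧ 0 < H.card ∧ c * C.card ≤ H.card := by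
    intro P hP x _
    have h3 : (P.toFinset.card : ℝ) ≤ δ / 2 * n := by
      have h4 : (P.toFinset.card : ℝ) ≤ P.length := by exact_mod_cast List.toFinset_card_le P
      have h5 : γ' * n ≤ δ / 2 * n := mul_le_mul_of_nonneg_right (by linarith) (by positivity)
      linarith
    have hU := hcompl P.toFinset h3
    have h4 := habs V K P.toFinsetᶜ hK (by
      have h8 : ((2 * na : ℕ) : ℝ) ≤ n := by exact_mod_cast (by omega)
      have h9 : ((2 * na : ℕ) : ℝ) = 2 * (na : ℝ) := by push_cast; ring
      have h10 : (na : ℝ) ≤ ((P.toFinsetᶜ : Finset V).card : ℝ) := by linarith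
      exact_mod_cast h10) (pd_compl hPD h3 (by linarith)) x
    have h5 : c * (n : ℝ) ^ e ≤ c₀ * ((P.toFinsetᶜ : Finset V).card : ℝ) ^ e := by
      have h6 : ((n : ℝ) / 2) ^ e ≤ ((P.toFinsetᶜ : Finset V).card : ℝ) ^ e :=
        pow_le_pow_left₀ (by positivity) hU e
      rw [div_pow] at h6
      have h7 := mul_le_mul_of_nonneg_left h6 hc₀.le
      have h8 : c * (n : ℝ) ^ e = c₀ * ((n : ℝ) ^ e / 2 ^ e) := by
        rw [hc]
        ring
      rw [h8]
      exact h7
    refine ⟨_, ?_, ?_, ?_, le_trans (by rw [hCcard]; exact h5) h4⟩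
    · intro g hg
      obtain ⟨h6, h7, h8, h9⟩ := mem_filter.1 hg
      refine mem_filter.2 ⟨mem_univ _, h7, fun i => ?_⟩
      have h10 := Fintype.mem_piFinset.1 h6 i
      rw [mem_compl, List.mem_toFinset] at h10
      exact h10
    · intro g hg
      exact (mem_filter.1 hg).2.2.1
    · have h6 : (0 : ℝ) < c * (n : ℝ) ^ e := by positivity
      exact_mod_cast (h6.trans_le (h5.trans h4))
  -- the beginning
  have hVne : Nonempty V := Fintype.card_pos_iff.1 hn1
  have hXne : (univ : Finset V).Nonempty := univ_nonempty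
  obtain ⟨P₀, hP₀, hP₀1, hP₀2⟩ : ∃ P₀ : List V, Sg K k ∅ P₀ ∧ P₀.length ≤ a ∧
      2 * k ≤ P₀.length := by
    obtain ⟨x, hx⟩ := hXne
    obtain ⟨H, h4, -, h5, -⟩ := hmany [] (by simp; positivity) x hx
    obtain ⟨g, hg⟩ := card_pos.1 h5
    have h6 := mem_filter.1 (h4 hg)
    obtain ⟨A, hA1, hA2, hA3, -⟩ := complete (F := ∅) (b' := 0) hK (by omega) hCN (by simp) h6.2.1
      (fun i => notMem_empty _) (by
        rw [← ha₁]
        have : δ / 8 * (n : ℝ) ≤ δ / 4 * n :=
          mul_le_mul_of_nonneg_right (by linarith) (by positivity)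
        linarith)
    exact ⟨A, hA1, by omega, hA3⟩
  -- selection
  set R : ℕ := ⌊γ' / 2 * (n : ℝ) / a⌋₊ with hR
  have hRa : (a : ℝ) * R ≤ γ' / 2 * n := by
    have h4 : (R : ℝ) ≤ γ' / 2 * n / a := Nat.floor_le (by positivity)
    rwa [le_div_iff₀ har, mul_comm] at h4
  let allowed : List V → Finset (IB k → V) := fun P =>
    C.filter (fun g => AbsK k K g ∧ ∀ i, g i ∉ P)
  let cm : List V → (IB k → V) → List V × List V := fun P g =>
    if h : ∃ q : List V × List V, Cmp K k W P g q.1 q.2 then h.choose else ([], [])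
  let next : List V → (IB k → V) → List V := fun P g => P ++ (cm P g).1 ++ (cm P g).2
  let good : ℕ → List V → Prop := fun i P => Sg K k ∅ P ∧ P.length ≤ a + a * i ∧
    2 * k ≤ P.length
  have hlen : ∀ (i : ℕ) (P : List V), i ≤ R → P.length ≤ a + a * i → (P.length : ℝ) ≤ γ' * n := by
    intro i P hi hP
    have h4 : (P.length : ℝ) ≤ a + (a : ℝ) * i := by exact_mod_cast hP
    have h5 : (a : ℝ) * i ≤ a * R := mul_le_mul_of_nonneg_left (by exact_mod_cast hi) har.le
    linarith
  have hcm : ∀ i P g, i < R → good i P → g ∈ allowed P →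
      Cmp K k W P g (cm P g).1 (cm P g).2 := by
    intro i P g hi hP hg
    obtain ⟨hgC, hg1, hg2⟩ := mem_filter.1 hg
    have hex : ∃ q : List V × List V, Cmp K k W P g q.1 q.2 := by
      obtain ⟨c', A, h4⟩ := cmp_exists (b := δ / 4 * n) hK (by omega) hCN hP.1 hg1 hg2
        (by
          have h5 := hlen i P hi.le hP.2.1
          have h6 : γ' * n ≤ δ / 8 * n := mul_le_mul_of_nonneg_right hγ'8 (by positivity)
          rw [← ha₁]
          push_cast
          linarith)
      exact ⟨(c', A), h4⟩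
    change Cmp K k W P g
      (if h : ∃ q : List V × List V, Cmp K k W P g q.1 q.2 then h.choose else ([], [])).1
      (if h : ∃ q : List V × List V, Cmp K k W P g q.1 q.2 then h.choose else ([], [])).2
    rw [dif_pos hex]
    exact hex.choose_spec
  obtain ⟨l, st, hst0, hl, hst, hgood, hW⟩ := sel_main (IB k → V) V (List V) C
    univ P₀ c R allowed next good
    (fun x g => HitK k K g x) hc1 hXne (fun s => filter_subset _ _)
    ⟨hP₀, by omega, hP₀2⟩
    (by
      intro i P g hi hP hg
      obtain ⟨h4, h5, h6, -⟩ := hcm i P g hi hP hg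
      refine ⟨h6, ?_, ?_⟩
      · have h7 := hP.2.1
        change (P ++ (cm P g).1 ++ (cm P g).2).length ≤ a + a * (i + 1)
        rw [List.length_append, List.length_append, Nat.mul_succ]
        omega
      · have h7 := hP.2.2
        change 2 * k ≤ (P ++ (cm P g).1 ++ (cm P g).2).length
        rw [List.length_append, List.length_append]
        omega)
    (by
      intro i P hi hP x hx
      exact hmany P (hlen i P hi.le hP.2.1) x hx)
  -- the result
  have hfin := hgood R le_rfl
  have hlenR := hlen R (st R) le_rfl hfin.2.1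
  refine ⟨st R, hfin.1.nd, hfin.1.tp, hfin.2.2, ?_, ?_⟩
  · exact hlenR.trans (mul_le_mul_of_nonneg_right (min_le_left _ _) (by positivity))
  · intro X hXc hXP
    -- the assignment
    have hWX : ∀ x : X, ∃ W' : Finset ℕ, W' ⊆ range R ∧
        (∀ i ∈ W', HitK k K (l i) x) ∧ X.card ≤ W'.card := by
      intro x
      obtain ⟨W', h4, h5, h6⟩ := hW x (mem_univ _)
      refine ⟨W', h4, h5, ?_⟩
      have h7 : (univ : Finset V).card = n := card_univ
      rw [h7] at h6
      have h8 : γ' / 2 * (n : ℝ) / a - 1 ≤ R := by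
        have := Nat.lt_floor_add_one (γ' / 2 * (n : ℝ) / a)
        linarith
      have h9 := hk₄ n (by omega)
      have h10 : c / 2 * (γ' / 2 * (n : ℝ) / a - 1) ≤ c / 2 * R :=
        mul_le_mul_of_nonneg_left h8 (by positivity)
      have h11 : c / 2 * (γ' / 2 * (n : ℝ) / a - 1) =
          2 * (c * γ' / (8 * a) * n) - c / 2 := by
        field_simp
        ring
      have h12 : (X.card : ℝ) ≤ W'.card := by linarith
      exact_mod_cast h12
    choose W' hW1 hW2 hW3 using hWX
    obtain ⟨φ, hφ1, hφ2⟩ := (Finset.all_card_le_biUnion_card_iff_exists_injective W').1 (by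
      intro s
      rcases s.eq_empty_or_nonempty with rfl | ⟨x, hx⟩
      · simp
      · refine le_trans ?_ (card_le_card (subset_biUnion_of_mem W' hx))
        refine le_trans ?_ (hW3 x)
        rw [← Fintype.card_coe X]
        exact card_le_univ s)
    let f : ℕ → Option V := fun j => if h : ∃ x : X, φ x = j then some (h.choose : V) else none
    have hf1 : ∀ x : X, f (φ x) = some (x : V) := by
      intro x
      have hex : ∃ x' : X, φ x' = φ x := ⟨x, rfl⟩
      change (if h : ∃ x' : X, φ x' = φ x then some (h.choose : V) else none) = _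
      rw [dif_pos hex, hφ1 hex.choose_spec]
    have hf2 : ∀ j x, f j = some x → ∃ h : x ∈ X, φ ⟨x, h⟩ = j := by
      intro j x hjx
      change (if h : ∃ x' : X, φ x' = j then some (h.choose : V) else none) = _ at hjx
      split_ifs at hjx with hex
      rw [Option.some.injEq] at hjx
      subst hjx
      exact ⟨hex.choose.2, hex.choose_spec⟩
    obtain ⟨P', hP1, hP2, hP3⟩ := replace (W := W) (g := l)
      (c := fun i => (cm (st i) (l i)).1) (A := fun i => (cm (st i) (l i)).2) (hgood 0 (by omega)).1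
      hst (fun i hi => hcm i (st i) (l i) hi (hgood i hi.le) (hl i hi)) f R le_rfl (by
        intro j hj x hjx
        obtain ⟨hx, hxj⟩ := hf2 j x hjx
        have := hW2 ⟨x, hx⟩ j (by rw [← hxj]; exact hφ2 _)
        exact this)
    have hperm : ((List.range R).filterMap f).Perm X.toList := by
      rw [List.perm_ext_iff_of_nodup]
      · intro x
        rw [List.mem_filterMap, mem_toList]
        constructor
        · rintro ⟨j, hj, hjx⟩
          exact (hf2 j x hjx).1
        · intro hx
          refine ⟨φ ⟨x, hx⟩, ?_, hf1 ⟨x, hx⟩⟩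
          exact List.mem_range.2 (mem_range.1 (hW1 _ (hφ2 ⟨x, hx⟩)))
      · refine List.Nodup.filterMap ?_ List.nodup_range
        intro j j' x hj hj'
        obtain ⟨hx, h4⟩ := hf2 j x hj
        obtain ⟨hx', h5⟩ := hf2 j' x hj'
        rw [← h4, ← h5]
      · exact nodup_toList X
    have hP4 : P'.Perm (X.toList ++ st R) := hP3.trans (hperm.append_right _)
    refine ⟨P', ?_, hP1, hP2.fst, hP2.lst, ?_⟩
    · rw [hP4.nodup_iff, List.nodup_append]
      refine ⟨nodup_toList X, hfin.1.nd, ?_⟩
      intro v hv w hw hvw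
      subst hvw
      exact hXP v (mem_toList.1 hv) hw
    · intro v
      rw [hP4.mem_iff, List.mem_append, mem_toList]
      tauto

end Pool.Agent.H48.TC
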