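import Pool.Agent.H48.TC.Stm

/-!
# S08991, leaf CONNK: connections

The walk of `S_WLKK` in the auxiliary complex of `S_TRK` is realised in the host: the `i`-th entry of
`a' ++ w ++ b'` is the point `x`, realised by `Ω (x, i)` if it is a sample point and by `e r` if it is the
exterior vertex `r`.
-/

set_option autoImplicit false

namespace Pool.Agent.H48.TC

open Finset

namespace CONNKL

/-- realisation of the `i`-th entry of a list of points -/
def rl {V : Type} {N R s : ℕ} (hs : 0 < s) (e : Fin R → V) (Ω : Fin N × Fin s → V) (i : ℕ)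
    (p : Fin N ⊕ Fin R) : V :=
  Sum.elim (fun x => Ω (x, ⟨i % s, Nat.mod_lt _ hs⟩)) e p

/-- a tight walk is realised by a tight path -/
theorem tp_rl {V : Type} [DecidableEq V] {k N R s : ℕ} (hs : 0 < s) (K : Finset V → Prop)
    (hK : Cx k K) (e : Fin R → V) (Ω : Fin N × Fin s → V) (Γ : Finset (Fin N ⊕ Fin R) → Prop)
    (hF : Faith K e Γ Ω) (l : List (Fin N ⊕ Fin R)) (hl : TW Γ k l) :
    TP K k (l.mapIdx (rl hs e Ω)) := by
  intro i
  obtain ⟨h1, h2⟩ := hl
  have hΓ := h1 i
  have hN := h2 i
  set P := (l.drop i).take k with hP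
  have key := hF.2.2 P.toFinset
    (fun x => ⟨(i + sInf {j : ℕ | P[j]? = some (Sum.inl x)}) % s, Nat.mod_lt _ hs⟩) hΓ
  refine hK.sub _ _ key ?_
  intro v hv
  rw [List.mem_toFinset, List.mem_iff_getElem?] at hv
  obtain ⟨j, hj⟩ := hv
  rw [List.getElem?_take] at hj
  split_ifs at hj with hjk
  rw [List.getElem?_drop, List.getElem?_mapIdx, Option.map_eq_some_iff] at hj
  obtain ⟨p, hp, rfl⟩ := hj
  have hPj : P[j]? = some p := by
    rw [hP, List.getElem?_take, if_pos hjk, List.getElem?_drop]
    exact hp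
  have hpP : p ∈ P := List.mem_of_getElem? hPj
  rw [Finset.mem_image]
  refine ⟨p, List.mem_toFinset.2 hpP, ?_⟩
  cases p with
  | inr r => rfl
  | inl x =>
    have hidx : sInf {j : ℕ | P[j]? = some (Sum.inl x : Fin N ⊕ Fin R)} = j := by
      have hset : {j : ℕ | P[j]? = some (Sum.inl x : Fin N ⊕ Fin R)} = {j} := by
        ext j'
        rw [Set.mem_ofPred_eq, Set.mem_singleton_iff]
        constructor
        · intro hj'
          obtain ⟨hlt, h7⟩ := List.getElem?_eq_some_iff.1 hj'
          obtain ⟨hlt', h8⟩ := List.getElem?_eq_some_iff.1 hPj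
          exact (List.Nodup.getElem_inj_iff hN).1 (h7.trans h8.symm)
        · rintro rfl
          exact hPj
      rw [hset, csInf_singleton]
    show Ω (x, ⟨(i + sInf {j : ℕ | P[j]? = some (Sum.inl x : Fin N ⊕ Fin R)}) % s, _⟩) =
      Ω (x, ⟨(i + j) % s, _⟩)
    simp only [hidx]

/-- on a list of exterior points the realisation does not depend on the index -/
theorem mapIdx_inr {V : Type} {N R s : ℕ} (hs : 0 < s) (e : Fin R → V) (Ω : Fin N × Fin s → V)
    (m : ℕ) (q : List (Fin R)) :
    ((q.map (Sum.inr : Fin R → Fin N ⊕ Fin R)).mapIdx (fun i => rl hs e Ω (i + m))) = q.map e := by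
  apply List.ext_getElem?
  intro i
  rw [List.getElem?_mapIdx, List.getElem?_map, List.getElem?_map]
  cases q[i]? with
  | none => rfl
  | some r => rfl

end CONNKL

open CONNKL in
/-- [CONNK] connections -/
theorem connk (hTR : S_TRK) (hW : S_WLKK) : S_CONNK := by
  intro k hk
  obtain ⟨γ₁, N₁, hγ₁, hW⟩ := hW k hk
  obtain ⟨N₂, hTR⟩ := hTR k (γ₁ / 2) (2 * (k - 1)) (by omega) (by positivity)
  obtain ⟨L, hL⟩ := hW (max N₁ N₂) (2 * (k - 1)) (le_max_left _ _)
  have hs : 0 < 2 * (k - 1) + L + 1 := by omega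
  obtain ⟨c₀, n₀, hc₀, hTR⟩ := hTR (max N₁ N₂) (le_max_right _ _) (2 * (k - 1) + L + 1) hs
  refine ⟨γ₁ / 2, L, max n₀ 1, by positivity, ?_⟩
  intro V _ _ K U hK hn hPD a b ha hb hnd hU hKa hKb
  have hlen : (a ++ b).length = 2 * (k - 1) := by
    rw [List.length_append, ha, hb]; omega
  set e : Fin (2 * (k - 1)) → V := fun r => (a ++ b)[r.1]'(by rw [hlen]; exact r.2) with he
  have heinj : Function.Injective e := by
    intro r r' hrr
    have := (List.Nodup.getElem_inj_iff hnd).1 hrr
    exact Fin.ext this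
  obtain ⟨Γ, hΓ, hPDΓ, hext, hcount⟩ := hTR V K U hK (le_trans (le_max_left _ _) hn) hPD e heinj
  have hpos : 0 < U.card := lt_of_lt_of_le Nat.one_pos (le_trans (le_max_right _ _) hn)
  have hpos' : (0 : ℝ) < U.card := by exact_mod_cast hpos
  have hne := lt_of_lt_of_le (show (0 : ℝ) < c₀ * (U.card : ℝ) ^
    (max N₁ N₂ * (2 * (k - 1) + L + 1)) from by positivity) hcount
  classical
  obtain ⟨Ω, hΩ⟩ := Finset.card_pos.1 (Nat.cast_pos.1 hne)
  have hF := (Finset.mem_filter.1 hΩ).2
  have hΩU := Fintype.mem_piFinset.1 (Finset.mem_filter.1 hΩ).1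
  -- the exterior points
  have hmap : (List.finRange (2 * (k - 1))).map e = a ++ b := by
    apply List.ext_getElem
    · rw [List.length_map, List.length_finRange, hlen]
    · intro i h1 h2
      simp [he]
  set qa := (List.finRange (2 * (k - 1))).take (k - 1) with hqa
  set qb := (List.finRange (2 * (k - 1))).drop (k - 1) with hqb
  have hqae : qa.map e = a := by
    rw [hqa, List.map_take, hmap, ← ha]
    simp
  have hqbe : qb.map e = b := by
    rw [hqb, List.map_drop, hmap, ← ha]
    simp
  have hqand : qa.Nodup := (List.nodup_finRange _).sublist (List.take_sublist _ _)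
  have hqbnd : qb.Nodup := (List.nodup_finRange _).sublist (List.drop_sublist _ _)
  have hqalen : qa.length = k - 1 := by
    have := congrArg List.length hqae
    rwa [List.length_map, ha] at this
  have hqblen : qb.length = k - 1 := by
    have := congrArg List.length hqbe
    rwa [List.length_map, hb] at this
  have hΓa : Γ (qa.map Sum.inr).toFinset := by
    have := hext qa.toFinset (by
      have h : qa.toFinset.image e = a.toFinset := by
        ext v
        rw [← hqae]
        simp
      rw [h]; exact hKa)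
    have h2 : (qa.map (Sum.inr : _ → Fin (max N₁ N₂) ⊕ Fin (2 * (k - 1)))).toFinset
        = qa.toFinset.image Sum.inr := by
      ext v; simp
    rw [h2]; exact this
  have hΓb : Γ (qb.map Sum.inr).toFinset := by
    have := hext qb.toFinset (by
      have h : qb.toFinset.image e = b.toFinset := by
        ext v
        rw [← hqbe]
        simp
      rw [h]; exact hKb)
    have h2 : (qb.map (Sum.inr : _ → Fin (max N₁ N₂) ⊕ Fin (2 * (k - 1)))).toFinset
        = qb.toFinset.image Sum.inr := by
      ext v; simp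
    rw [h2]; exact this
  have h2γ : 2 * (γ₁ / 2) = γ₁ := by ring
  rw [h2γ] at hPDΓ
  obtain ⟨w, hwL, hwl, hTW⟩ := hL Γ hΓ hPDΓ (qa.map Sum.inr) (qb.map Sum.inr)
    (by rw [List.length_map, hqalen]) (by rw [List.length_map, hqblen])
    (hqand.map Sum.inr_injective) (hqbnd.map Sum.inr_injective) hΓa hΓb
  have hTP := tp_rl hs K hK e Ω Γ hF _ hTW
  have hwinl : ∀ p ∈ w, ∃ x, p = Sum.inl x := by
    intro p hp
    have := hwl p hp
    rw [lft, Finset.mem_image] at this
    obtain ⟨x, -, hx⟩ := this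
    exact ⟨x, hx.symm⟩
  refine ⟨w.mapIdx (fun i => rl hs e Ω (i + (k - 1))), ?_, ?_, ?_, ?_⟩
  · rw [List.length_mapIdx]; exact hwL
  · intro v hv
    rw [List.mem_mapIdx] at hv
    obtain ⟨i, hi, rfl⟩ := hv
    obtain ⟨x, hx⟩ := hwinl _ (List.getElem_mem hi)
    rw [hx]
    exact hΩU _
  · rw [List.nodup_iff_injective_get]
    intro i j hij
    have hi : i.1 < w.length := lt_of_lt_of_eq i.2 List.length_mapIdx
    have hj : j.1 < w.length := lt_of_lt_of_eq j.2 List.length_mapIdx
    simp only [List.get_eq_getElem, List.getElem_mapIdx] at hij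
    obtain ⟨x, hx⟩ := hwinl _ (List.getElem_mem hi)
    obtain ⟨y, hy⟩ := hwinl _ (List.getElem_mem hj)
    rw [hx, hy] at hij
    have h3 := hF.1 hij
    have h4 := congrArg (fun q => (Prod.snd q).1) h3
    simp only at h4
    rw [Nat.mod_eq_of_lt (by omega), Nat.mod_eq_of_lt (by omega)] at h4
    apply Fin.ext
    omega
  · have h5 : (qa.map (Sum.inr : _ → Fin (max N₁ N₂) ⊕ Fin (2 * (k - 1))) ++ w ++
        qb.map Sum.inr).mapIdx (rl hs e Ω) = a ++ w.mapIdx (fun i => rl hs e Ω (i + (k - 1))) ++ b := by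
      rw [List.mapIdx_append, List.mapIdx_append]
      rw [mapIdx_inr hs e Ω _ qb, hqbe]
      have h6 := mapIdx_inr (N := max N₁ N₂) hs e Ω 0 qa
      simp only [Nat.add_zero] at h6
      rw [List.length_map, hqalen]
      congr 2
      rw [← hqae]
      exact h6
    rw [h5] at hTP
    exact hTP

end Pool.Agent.H48.TC
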