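import Pool.Agent.H48.TC.Stm

/-!
# [DIR], [CYC]: Dirac's theorem and gluing of units (by helper872)
-/

set_option autoImplicit false

namespace Pool.Agent.H48.TC

open Finset Pool.Agent.H48.PW Pool.Agent.Helper83K9.CF

namespace CYCL

/-- path with `n` vertices -/
def Pa {m : ℕ} (A : Fin m → Fin m → Prop) (P : ℕ → Fin m) (n : ℕ) : Prop :=
  (∀ i j, i < n → j < n → P i = P j → i = j) ∧ ∀ i, i + 1 < n → A (P i) (P (i + 1))

theorem Pa.le {m : ℕ} {A : Fin m → Fin m → Prop} {P : ℕ → Fin m} {n : ℕ} (h : Pa A P n) :
    n ≤ m := by
  have h1 : (range n).card ≤ (univ : Finset (Fin m)).card :=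
    Finset.card_le_card_of_injOn P (fun _ _ => mem_coe.2 (mem_univ _)) (by
      intro a ha b hb hab
      exact h.1 a b (mem_range.1 (mem_coe.1 ha)) (mem_range.1 (mem_coe.1 hb)) hab)
  simpa using h1

open Classical in
theorem dirac {m : ℕ} (A : Fin m → Fin m → Prop) (hm : 3 ≤ m) (hirr : ∀ i, ¬ A i i)
    (hsym : ∀ i j, A i j → A j i)
    (hdeg : ∀ i, m ≤ 2 * (univ.filter (fun j => A i j)).card) :
    ∃ g : ℕ → Fin m, (∀ i, g (i + m) = g i) ∧ (∀ i j, i < m → j < m → g i = g j → i = j) ∧
      ∀ i, A (g i) (g (i + 1)) := by
  -- a longest path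
  have hex : ∃ n, ∃ P, Pa A P n ∧ 1 ≤ n := by
    refine ⟨1, fun _ => ⟨0, by omega⟩, ⟨?_, ?_⟩, le_refl 1⟩
    · intro i j hi hj _; omega
    · intro i hi; omega
  obtain ⟨n, ⟨P, hP, hn1⟩, hmax⟩ : ∃ n, (∃ P, Pa A P n ∧ 1 ≤ n) ∧
      ∀ n', (∃ P, Pa A P n' ∧ 1 ≤ n') → n' ≤ n := by
    have hb : ∀ n, (∃ P, Pa A P n ∧ 1 ≤ n) → n ≤ m := fun n ⟨P, hP, _⟩ => hP.le
    refine ⟨Nat.findGreatest (fun n => ∃ P, Pa A P n ∧ 1 ≤ n) m, ?_, ?_⟩
    · obtain ⟨n0, hn0⟩ := hex
      exact Nat.findGreatest_spec (P := fun n => ∃ P, Pa A P n ∧ 1 ≤ n) (hb n0 hn0) hn0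
    · intro n' hn'
      exact Nat.le_findGreatest (hb n' hn') hn'
  have hnm := hP.le
  have hlong : ∀ P', ¬ Pa A P' (n + 1) := by
    intro P' hP'
    have := hmax (n + 1) ⟨P', hP', by omega⟩
    omega
  have h0 : ∀ u, A (P 0) u → ∃ i, i < n ∧ P i = u := by
    intro u hu
    by_contra hcon
    push Not at hcon
    apply hlong (fun i => if i = 0 then u else P (i - 1))
    constructor
    · intro i j hi hj hij
      by_cases hi0 : i = 0 <;> by_cases hj0 : j = 0
      · omega
      · simp only [hi0, hj0, if_true, if_false] at hij
        exact absurd hij.symm (hcon _ (by omega))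
      · simp only [hi0, hj0, if_true, if_false] at hij
        exact absurd hij (hcon _ (by omega))
      · simp only [hi0, hj0, if_false] at hij
        have := hP.1 _ _ (by omega) (by omega) hij
        omega
    · intro i hi
      by_cases hi0 : i = 0
      · subst hi0
        simp only [if_true]
        exact hsym _ _ hu
      · simp only [hi0, if_false]
        have h1 := hP.2 (i - 1) (by omega)
        have e : i - 1 + 1 = i := by omega
        rw [e] at h1
        have e2 : i + 1 - 1 = i := by omega
        rw [if_neg (by omega), e2]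
        exact h1
  have h1 : ∀ u, A (P (n - 1)) u → ∃ i, i < n ∧ P i = u := by
    intro u hu
    by_contra hcon
    push Not at hcon
    apply hlong (fun i => if i = n then u else P i)
    constructor
    · intro i j hi hj hij
      by_cases hi0 : i = n <;> by_cases hj0 : j = n
      · omega
      · simp only [hi0, hj0, if_true, if_false] at hij
        exact absurd hij.symm (hcon _ (by omega))
      · simp only [hi0, hj0, if_true, if_false] at hij
        exact absurd hij (hcon _ (by omega))
      · simp only [hi0, hj0, if_false] at hij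
        exact hP.1 _ _ (by omega) (by omega) hij
    · intro i hi
      have hin : i ≠ n := by omega
      by_cases hi0 : i + 1 = n
      · simp only [hi0, if_true, if_neg hin]
        have e : i = n - 1 := by omega
        rw [e]; exact hu
      · simp only [hi0, hin, if_false]
        exact hP.2 i (by omega)
  -- degrees
  set S := (range (n - 1)).filter (fun i => A (P 0) (P (i + 1))) with hS
  set T := (range (n - 1)).filter (fun i => A (P (n - 1)) (P i)) with hT
  have hdS : (univ.filter (fun j => A (P 0) j)).card ≤ S.card := by
    have : univ.filter (fun j => A (P 0) j) ⊆ S.image (fun i => P (i + 1)) := by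
      intro u hu
      have hu' := (mem_filter.1 hu).2
      obtain ⟨i, hi, rfl⟩ := h0 u hu'
      have hi0 : i ≠ 0 := by
        rintro rfl
        exact hirr _ hu'
      rw [mem_image]
      have e : i - 1 + 1 = i := by omega
      refine ⟨i - 1, ?_, by rw [e]⟩
      rw [hS, mem_filter, mem_range, e]
      exact ⟨by omega, hu'⟩
    exact (card_le_card this).trans card_image_le
  have hdT : (univ.filter (fun j => A (P (n - 1)) j)).card ≤ T.card := by
    have : univ.filter (fun j => A (P (n - 1)) j) ⊆ T.image P := by
      intro u hu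
      have hu' := (mem_filter.1 hu).2
      obtain ⟨i, hi, rfl⟩ := h1 u hu'
      have hi0 : i ≠ n - 1 := by
        rintro rfl
        exact hirr _ hu'
      rw [mem_image]
      refine ⟨i, ?_, rfl⟩
      rw [hT, mem_filter, mem_range]
      exact ⟨by omega, hu'⟩
    exact (card_le_card this).trans card_image_le
  have hSn : S.card ≤ n - 1 := (card_filter_le _ _).trans (by simp)
  have d0 := hdeg (P 0)
  have d1 := hdeg (P (n - 1))
  obtain ⟨i₀, hi₀, hA1, hA0⟩ : ∃ i, i < n - 1 ∧ A (P (n - 1)) (P i) ∧ A (P 0) (P (i + 1)) := by
    by_contra hcon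
    push Not at hcon
    have hdis : Disjoint S T := by
      rw [Finset.disjoint_left]
      intro i hi hi'
      rw [hS, mem_filter, mem_range] at hi
      rw [hT, mem_filter] at hi'
      exact hcon i hi.1 hi'.2 hi.2
    have hun : (S ∪ T).card ≤ n - 1 := by
      have : S ∪ T ⊆ range (n - 1) := union_subset (filter_subset _ _) (filter_subset _ _)
      simpa using card_le_card this
    rw [card_union_of_disjoint hdis] at hun
    omega
  -- the cycle
  set C : ℕ → Fin m := fun i => if i ≤ i₀ then P i else P (n + i₀ - i) with hC
  have hCinj : ∀ i j, i < n → j < n → C i = C j → i = j := by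
    intro i j hi hj hij
    simp only [hC] at hij
    by_cases ci : i ≤ i₀ <;> by_cases cj : j ≤ i₀
    · rw [if_pos ci, if_pos cj] at hij
      exact hP.1 _ _ hi hj hij
    · rw [if_pos ci, if_neg cj] at hij
      have := hP.1 _ _ hi (by omega) hij
      omega
    · rw [if_neg ci, if_pos cj] at hij
      have := hP.1 _ _ (by omega) hj hij
      omega
    · rw [if_neg ci, if_neg cj] at hij
      have := hP.1 _ _ (by omega) (by omega) hij
      omega
  set c : ℕ → Fin m := fun i => C (i % n) with hc
  have hn0 : 0 < n := by omega
  have hcper : ∀ i, c (i + n) = c i := by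
    intro i
    simp only [hc, Nat.add_mod_right]
  have hcA : ∀ i, A (c i) (c (i + 1)) := by
    intro i
    simp only [hc]
    have hr : i % n < n := Nat.mod_lt _ hn0
    have hr1 : (i + 1) % n = if i % n + 1 = n then 0 else i % n + 1 := by
      rw [← Nat.mod_add_mod]
      split_ifs with h
      · rw [h, Nat.mod_self]
      · exact Nat.mod_eq_of_lt (by omega)
    rw [hr1]
    generalize i % n = r at hr
    simp only [hC]
    by_cases g5 : r + 1 = n
    · rw [if_pos g5, if_neg (by omega), if_pos (Nat.zero_le _)]
      have e : n + i₀ - r = i₀ + 1 := by omega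
      rw [e]
      exact hsym _ _ hA0
    · rw [if_neg g5]
      rcases lt_trichotomy r i₀ with h | h | h
      · rw [if_pos h.le, if_pos (by omega)]
        exact hP.2 r (by omega)
      · rw [if_pos h.le, if_neg (by omega)]
        have e : n + i₀ - (r + 1) = n - 1 := by omega
        rw [e, h]
        exact hsym _ _ hA1
      · rw [if_neg (by omega), if_neg (by omega)]
        have e : n + i₀ - r = n + i₀ - (r + 1) + 1 := by omega
        rw [e]
        exact hsym _ _ (hP.2 _ (by omega))
  have hcinj : ∀ s a b, a < n → b < n → c (s + a) = c (s + b) → a = b := by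
    intro s a b ha hb hab
    have h2 := hCinj _ _ (Nat.mod_lt (s + a) hn0) (Nat.mod_lt (s + b) hn0) hab
    have h3 : a ≡ b [MOD n] := Nat.ModEq.add_left_cancel' s h2
    have h4 : a % n = b % n := h3
    rwa [Nat.mod_eq_of_lt ha, Nat.mod_eq_of_lt hb] at h4
  -- the cycle is Hamiltonian
  have hnm' : n = m := by
    by_contra hne
    have hlt : n < m := by omega
    set I : Finset (Fin m) := (range n).image c with hI
    have hIcard : I.card = n := by
      rw [hI, card_image_of_injOn, card_range]
      intro a ha b hb hab
      refine hcinj 0 a b (mem_range.1 (mem_coe.1 ha)) (mem_range.1 (mem_coe.1 hb)) ?_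
      simpa using hab
    obtain ⟨u, hu⟩ : ∃ u, u ∉ I := by
      by_contra hcon
      push Not at hcon
      have : (univ : Finset (Fin m)).card ≤ I.card := card_le_card fun x _ => hcon x
      rw [card_univ, Fintype.card_fin, hIcard] at this
      omega
    have hnb : ∃ s, A u (c s) := by
      by_contra hcon
      push Not at hcon
      have hdis : Disjoint (univ.filter (fun j => A u j)) (insert u I) := by
        rw [Finset.disjoint_left]
        intro w hw hw'
        have hw1 := (mem_filter.1 hw).2
        rcases mem_insert.1 hw' with rfl | hw2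
        · exact hirr _ hw1
        · obtain ⟨s, _, rfl⟩ := mem_image.1 hw2
          exact hcon s hw1
      have h2 := card_le_univ (univ.filter (fun j => A u j) ∪ insert u I)
      rw [card_union_of_disjoint hdis, card_insert_of_notMem hu, hIcard, Fintype.card_fin] at h2
      have h3 := hdeg u
      omega
    obtain ⟨s, hs⟩ := hnb
    apply hlong (fun i => if i = 0 then u else c (s + (i - 1)))
    have hcI : ∀ i, c i ∈ I := by
      intro i
      rw [hI, mem_image]
      refine ⟨i % n, mem_range.2 (Nat.mod_lt _ hn0), ?_⟩
      simp only [hc, Nat.mod_mod]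
    constructor
    · intro i j hi hj hij
      by_cases hi0 : i = 0 <;> by_cases hj0 : j = 0
      · omega
      · simp only [hi0, hj0, if_true, if_false] at hij
        exact absurd (hij ▸ hcI _) hu
      · simp only [hi0, hj0, if_true, if_false] at hij
        exact absurd (hij ▸ hcI _) hu
      · simp only [hi0, hj0, if_false] at hij
        have := hcinj s _ _ (by omega) (by omega) hij
        omega
    · intro i hi
      by_cases hi0 : i = 0
      · subst hi0
        simp only [if_true]
        rw [if_neg (by omega)]
        simpa using hs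
      · show A (if i = 0 then u else c (s + (i - 1))) (if i + 1 = 0 then u else c (s + (i + 1 - 1)))
        rw [if_neg hi0, if_neg (Nat.succ_ne_zero i)]
        have e : s + (i + 1 - 1) = s + (i - 1) + 1 := by omega
        rw [e]
        exact hcA _
  subst hnm'
  refine ⟨c, hcper, ?_, hcA⟩
  intro i j hi hj hij
  refine hcinj 0 i j hi hj ?_
  simpa using hij

/-! ## Tight paths -/

variable {V : Type} [DecidableEq V] {K : Finset V → Prop} {k : ℕ}

theorem TP_left (hK : Cx k K) {X Y : List V} (h : TP K k (X ++ Y)) : TP K k X := by
  intro i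
  refine hK.sub _ _ (h i) ?_
  intro v hv
  rw [List.mem_toFinset] at hv ⊢
  rw [List.drop_append, List.take_append]
  exact List.mem_append_left _ hv

theorem TP_right {X Y : List V} (h : TP K k (X ++ Y)) : TP K k Y := by
  intro i
  have h1 := h (X.length + i)
  rwa [← List.drop_drop, List.drop_left] at h1

theorem TP_glue {X c Y : List V} (h1 : TP K k (X ++ c)) (h2 : TP K k (c ++ Y))
    (hc : k ≤ c.length + 1) : TP K k (X ++ c ++ Y) := by
  intro i
  rcases Nat.lt_or_ge i X.length with hi | hi
  · have h3 := h1 i
    rw [List.drop_append_of_le_length (by rw [List.length_append]; omega),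
      List.take_append_of_le_length (by rw [List.length_drop, List.length_append]; omega)]
    exact h3
  · have h3 := h2 (i - X.length)
    rw [List.append_assoc, List.drop_append, List.drop_eq_nil_of_le hi, List.nil_append]
    exact h3

open Classical in
theorem cyc_main (k : ℕ) (V : Type) [Fintype V] [DecidableEq V] (K : Finset V → Prop) (M : ℕ)
    (u : Fin M → List V × V) (hK : Cx k K) (hU : US k K M u) (hd : S_DIR) : HamC K k := by
  obtain ⟨g, hper, hinj, hA⟩ := hd M
    (fun i j => j ≠ i ∧ Rel k K (u i) (u j) ∧ Rel k K (u j) (u i)) hU.three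
    (fun i h => h.1 rfl) (fun i j h => ⟨h.1.symm, h.2.2, h.2.1⟩) (fun i => by
      have h1 := hU.deg i
      refine h1.trans (Nat.mul_le_mul_left 2 (card_le_card fun x hx => ?_))
      simp only [mem_filter, mem_univ, true_and] at hx ⊢
      exact hx)
  set f : Fin M → List V := fun i => (u i).1 ++ [(u i).2] with hf
  set cat : ℕ → List V := fun N => ((List.range N).map (fun i => f (g i))).flatten with hcat
  have hcat_succ : ∀ N, cat (N + 1) = cat N ++ f (g N) := by
    intro N
    simp only [hcat]
    rw [List.range_succ, List.map_append, List.flatten_append]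
    simp
  have hcat_add : cat (M + M) = cat M ++ cat M := by
    simp only [hcat]
    rw [List.range_add, List.map_append, List.flatten_append, List.map_map]
    congr 2
    refine List.map_congr_left fun i _ => ?_
    simp only [Function.comp]
    rw [Nat.add_comm M i, hper]
  -- tightness
  have htp : ∀ N, TP K k (cat N ++ (u (g N)).1) := by
    intro N
    induction N with
    | zero => simpa [hcat] using hU.tp (g 0)
    | succ N ih =>
      set s := (u (g N)).1 with hs
      set y := (u (g N)).2 with hy
      set s' := (u (g (N + 1))).1 with hs'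
      have hl : k - 1 ≤ s.length := hU.len (g N)
      have hl' : k - 1 ≤ s'.length := hU.len (g (N + 1))
      have hrel : TP K k (lastn (k - 1) s ++ [y] ++ s'.take (k - 1)) := (hA N).2.1
      have hsplit : s.take (s.length - (k - 1)) ++ lastn (k - 1) s = s := List.take_append_drop _ _
      have hlast : (lastn (k - 1) s).length = k - 1 := by
        unfold lastn
        rw [List.length_drop]
        omega
      have h1 : TP K k ((cat N ++ s.take (s.length - (k - 1))) ++ lastn (k - 1) s) := by
        rw [List.append_assoc, hsplit]; exact ih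
      have h2 : TP K k (lastn (k - 1) s ++ ([y] ++ s'.take (k - 1))) := by
        rw [← List.append_assoc]; exact hrel
      have h3 := TP_glue h1 h2 (by rw [hlast]; omega)
      have h4 : TP K k (s'.take (k - 1) ++ s'.drop (k - 1)) := by
        rw [List.take_append_drop]; exact hU.tp _
      have h5 : TP K k ((cat N ++ s.take (s.length - (k - 1)) ++ lastn (k - 1) s ++ [y]) ++
          s'.take (k - 1)) := by
        simpa only [List.append_assoc] using h3
      have h6 := TP_glue h5 h4 (by rw [List.length_take]; omega)
      have h7 : cat N ++ s.take (s.length - (k - 1)) ++ lastn (k - 1) s ++ [y] ++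
          s'.take (k - 1) ++ s'.drop (k - 1) = cat (N + 1) ++ s' := by
        rw [List.append_assoc _ (s'.take (k - 1)), List.take_append_drop,
          List.append_assoc (cat N), hsplit, hcat_succ, List.append_assoc (cat N)]
      rw [h7] at h6
      exact h6
  have hsurj : ∀ j : Fin M, ∃ i, i < M ∧ g i = j := by
    have hi : Function.Injective (fun i : Fin M => g i) := by
      intro a b hab
      exact Fin.ext (hinj _ _ a.2 b.2 hab)
    have hs := Finite.injective_iff_surjective.1 hi
    intro j
    obtain ⟨i, hi⟩ := hs j
    exact ⟨i, i.2, hi⟩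
  have hperm : ((List.range M).map g).Perm (List.finRange M) := by
    refine (List.perm_ext_iff_of_nodup ?_ (List.nodup_finRange M)).2 fun a => ?_
    · refine List.Nodup.map_on ?_ List.nodup_range
      intro x hx y hy hxy
      exact hinj x y (List.mem_range.1 hx) (List.mem_range.1 hy) hxy
    · constructor
      · intro _; exact List.mem_finRange a
      · intro _
        obtain ⟨i, hi, rfl⟩ := hsurj a
        exact List.mem_map.2 ⟨i, List.mem_range.2 hi, rfl⟩
  have hcatM : cat M = ((List.range M).map g).flatMap f := by
    simp only [hcat]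
    rw [List.flatMap_def, List.map_map]
    rfl
  refine ⟨cat M, ?_, ?_, ?_⟩
  · have h1 := hU.nd
    rw [List.ofFn_eq_map, ← List.flatMap_def] at h1
    rw [hcatM]
    exact (hperm.flatMap_right f).nodup_iff.2 h1
  · intro v
    obtain ⟨j, hj⟩ := hU.cov v
    obtain ⟨i, hi, rfl⟩ := hsurj j
    rw [hcatM, List.mem_flatMap]
    exact ⟨g i, List.mem_map.2 ⟨i, List.mem_range.2 hi, rfl⟩, hj⟩
  · rw [← hcat_add]
    exact TP_left hK (htp (M + M))

end CYCL

theorem dir : S_DIR := fun _ A hm hirr hsym hdeg => CYCL.dirac A hm hirr hsym hdeg

theorem cyc (h : S_DIR) : S_CYC := fun k V _ _ K M u _ hK hU => CYCL.cyc_main k V K M u hK hU h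

end Pool.Agent.H48.TC
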