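import Pool.Agent.H48.TC.Stm

/-!
# Assembly of the extremal case
-/

set_option autoImplicit false

namespace Pool.Agent.H48.TC

open Finset Pool.Agent.H48.PW Pool.Agent.Helper83K9.CF

namespace EXTRL

theorem gb_mono {V : Type} [Fintype V] [DecidableEq V] {k : ℕ} {K : Finset V → Prop} {g g' : ℝ}
    {Y Y' : Finset V} {l : List V} (h : GB k K g Y l) (hY : Y' ⊆ Y) (hg : g ≤ g') :
    GB k K g' Y' l := by
  refine ⟨h.len, h.nd, h.mem, ?_⟩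
  have h1 : ((Y' \ ex K univ l.toFinset).card : ℝ) ≤ ((Y \ ex K univ l.toFinset).card : ℝ) := by
    exact_mod_cast Finset.card_le_card (Finset.sdiff_subset_sdiff hY (Finset.Subset.refl _))
  have h2 : g * (Fintype.card V : ℝ) ≤ g' * (Fintype.card V : ℝ) :=
    mul_le_mul_of_nonneg_right hg (Nat.cast_nonneg _)
  linarith [h.ext]

theorem bs {V : Type} [Fintype V] [DecidableEq V] {k : ℕ} {K : Finset V → Prop} {c₁ c c₃ c' : ℝ}
    {Y Ys Xs X' Y' : Finset V} (hk : 3 ≤ k) (h : XS k K c₁ c Y Ys Xs) (hX : X' ⊆ Xs) (hY : Y' ⊆ Ys)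
    {Sg : List (List V)} (hmem : ∀ v, v ∈ Sg.flatten ↔ v ∉ X' ∧ v ∉ Y')
    (hlen : (Sg.flatten.length : ℝ) ≤ c₃ * (Fintype.card V : ℝ)) (hc : c ≤ c₃) (hcc : c ≤ c')
    (hk3 : c₃ ≤ 1 / (16 * (k : ℝ))) : BS k K c' X' Y' := by
  have hkr : (3 : ℝ) ≤ (k : ℝ) := by exact_mod_cast hk
  have hk0 : (0 : ℝ) < (k : ℝ) := by linarith
  have hn : (0 : ℝ) ≤ (Fintype.card V : ℝ) := Nat.cast_nonneg _
  have hYY : Y' ⊆ Y := hY.trans h.ys
  have hXYd : Disjoint X' Y := Finset.disjoint_of_subset_left hX h.xs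
  have hXc : X' ⊆ Yᶜ := by
    intro x hx
    rw [Finset.mem_compl]
    exact fun hy => (Finset.disjoint_left.mp hXYd) hx hy
  -- cardinality of `Y'`
  have e1 : Y \ Y' ⊆ Sg.flatten.toFinset := by
    intro v hv
    rw [Finset.mem_sdiff] at hv
    rw [List.mem_toFinset, hmem]
    exact ⟨fun hx => (Finset.disjoint_left.mp hXYd) hx hv.1, hv.2⟩
  have e2 : ((Y \ Y').card : ℝ) ≤ c₃ * (Fintype.card V : ℝ) := by
    refine le_trans ?_ hlen
    exact_mod_cast (Finset.card_le_card e1).trans (List.toFinset_card_le _)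
  have e3 : (Y.card : ℝ) = (Y'.card : ℝ) + ((Y \ Y').card : ℝ) := by
    have := Finset.card_sdiff_add_card_eq_card hYY
    rw [← this]; push_cast; ring
  have e4 := abs_le.mp h.cY
  -- cardinality of `X'`
  have e5 : (univ : Finset V) ⊆ X' ∪ (Y ∪ Sg.flatten.toFinset) := by
    intro v _
    rw [Finset.mem_union, Finset.mem_union, List.mem_toFinset, hmem]
    by_cases h1 : v ∈ X'
    · exact Or.inl h1
    · by_cases h2 : v ∈ Y
      · exact Or.inr (Or.inl h2)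
      · exact Or.inr (Or.inr ⟨h1, fun h3 => h2 (hYY h3)⟩)
  have e6 : (Fintype.card V : ℝ) ≤ (X'.card : ℝ) + (Y.card : ℝ) + c₃ * (Fintype.card V : ℝ) := by
    have q1 := (Finset.card_le_card e5).trans ((Finset.card_union_le _ _).trans
      (Nat.add_le_add_left (Finset.card_union_le _ _) _))
    have q2 : Sg.flatten.toFinset.card ≤ Sg.flatten.length := List.toFinset_card_le _
    have q3 : Fintype.card V ≤ X'.card + (Y.card + Sg.flatten.length) := by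
      rw [← Finset.card_univ]; omega
    have q4 : (Fintype.card V : ℝ) ≤ (X'.card : ℝ) + ((Y.card : ℝ) + (Sg.flatten.length : ℝ)) := by
      exact_mod_cast q3
    linarith
  have e7 : c₃ * (Fintype.card V : ℝ) ≤ 1 / (16 * (k : ℝ)) * (Fintype.card V : ℝ) :=
    mul_le_mul_of_nonneg_right hk3 hn
  have e8 : c * (Fintype.card V : ℝ) ≤ c₃ * (Fintype.card V : ℝ) :=
    mul_le_mul_of_nonneg_right hc hn
  have e9 : (Fintype.card V : ℝ) / k = 16 * (1 / (16 * (k : ℝ)) * (Fintype.card V : ℝ)) := by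
    field_simp
  have e10 : (Fintype.card V : ℝ) / (2 * k) = 8 * (1 / (16 * (k : ℝ)) * (Fintype.card V : ℝ)) := by
    field_simp
    ring
  have e11 : 1 / (16 * (k : ℝ)) * (Fintype.card V : ℝ) ≤ 1 / 48 * (Fintype.card V : ℝ) := by
    refine mul_le_mul_of_nonneg_right ?_ hn
    exact one_div_le_one_div_of_le (by norm_num) (by linarith)
  have e12 : 0 ≤ 1 / (16 * (k : ℝ)) * (Fintype.card V : ℝ) := by positivity
  refine ⟨Finset.disjoint_of_subset_right hYY hXYd, ?_, ?_, ?_, ?_⟩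
  · rw [e9] at e4
    rw [e10]
    linarith [e4.1]
  · rw [e9] at e4
    linarith [e4.2]
  · intro y hy T hT hyT hTk
    refine le_trans ?_ ((h.exts y (hY hy) T hT hyT hTk).trans (mul_le_mul_of_nonneg_right hcc hn))
    exact_mod_cast Finset.card_le_card (Finset.sdiff_subset_sdiff hXc (Finset.Subset.refl _))
  · intro x hx
    refine le_trans ?_ ((h.xtp x (hX hx)).trans (mul_le_mul_of_nonneg_right hcc hn))
    exact_mod_cast Finset.card_le_card (Finset.sdiff_subset_sdiff hYY (Finset.Subset.refl _))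

/-- the number of regular units -/
theorem chooseR {k x n : ℕ} {p : ℝ} (hk : 3 ≤ k) (hp : 0 < p) (hp1 : p < 1) (hx : x ≤ n)
    (hn : 1 / p ≤ (n : ℝ)) : ∃ R : ℕ, ((k : ℝ) - 1) * R ≤ (1 - p) * (x : ℝ) ∧
      (x : ℝ) ≤ ((k : ℝ) - 1) * (R + 3 * p * (n : ℝ)) := by
  have hkr : (3 : ℝ) ≤ (k : ℝ) := by exact_mod_cast hk
  have hk1 : (0 : ℝ) < (k : ℝ) - 1 := by linarith
  have hx0 : (0 : ℝ) ≤ (x : ℝ) := Nat.cast_nonneg _
  have hxn : (x : ℝ) ≤ (n : ℝ) := by exact_mod_cast hx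
  have h0 : 0 ≤ (1 - p) * (x : ℝ) / ((k : ℝ) - 1) :=
    div_nonneg (mul_nonneg (by linarith) hx0) hk1.le
  refine ⟨⌊(1 - p) * (x : ℝ) / ((k : ℝ) - 1)⌋₊, ?_, ?_⟩
  · have := Nat.floor_le h0
    rw [le_div_iff₀ hk1] at this
    linarith
  · have h1 := Nat.lt_floor_add_one ((1 - p) * (x : ℝ) / ((k : ℝ) - 1))
    rw [div_lt_iff₀ hk1] at h1
    set R : ℝ := (⌊(1 - p) * (x : ℝ) / ((k : ℝ) - 1)⌋₊ : ℝ)
    have h2 : 1 ≤ p * (n : ℝ) := by
      rw [div_le_iff₀ hp] at hn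
      linarith
    have h3 : p * (x : ℝ) ≤ p * (n : ℝ) := mul_le_mul_of_nonneg_left hxn hp.le
    have h4 : 2 * (p * (n : ℝ)) ≤ ((k : ℝ) - 1) * (p * (n : ℝ)) :=
      mul_le_mul_of_nonneg_right (by linarith) (by linarith)
    have h5 : ((k : ℝ) - 1) * 1 ≤ ((k : ℝ) - 1) * (p * (n : ℝ)) :=
      mul_le_mul_of_nonneg_left h2 hk1.le
    nlinarith

end EXTRL

open EXTRL in
theorem extr (h1 : S_XSTR) (h2 : S_XSEG) (h3 : S_REG) (h4 : S_SWP) (h5 : S_CYC) : S_EXTR := by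
  intro k hk
  have hkr : (3 : ℝ) ≤ (k : ℝ) := by exact_mod_cast hk
  have hk0 : (0 : ℝ) < (k : ℝ) := by linarith
  obtain ⟨p₀, hp₀, H4⟩ := h4 k hk
  -- the constant `p`
  obtain ⟨p, hp, hpp, hp1⟩ : ∃ p : ℝ, 0 < p ∧ p ≤ p₀ ∧ p < 1 :=
    ⟨min p₀ (1 / 2), lt_min hp₀ (by norm_num), min_le_left _ _,
      lt_of_le_of_lt (min_le_right _ _) (by norm_num)⟩
  obtain ⟨g₀, hg₀, H3⟩ := h3 k p hk hp hp1
  obtain ⟨g, hg, hgg, hgp⟩ : ∃ g : ℝ, 0 < g ∧ g ≤ g₀ ∧ g ≤ p :=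
    ⟨min g₀ p, lt_min hg₀ hp, min_le_left _ _, min_le_right _ _⟩
  obtain ⟨cR, nR, hcR, H3'⟩ := H3 g hg hgg
  obtain ⟨cS, nS, hcS, H4'⟩ := H4 p g hp hpp hg hgp
  obtain ⟨c₁, hc₁, hc₁', H2⟩ := h2 k hk
  obtain ⟨c₃, hc₃, q1, q2, q3, q4⟩ : ∃ c₃ : ℝ, 0 < c₃ ∧ c₃ ≤ cR ∧ c₃ ≤ cS ∧ c₃ ≤ g ∧
      c₃ ≤ 1 / (16 * (k : ℝ)) :=
    ⟨min (min cR cS) (min g (1 / (16 * (k : ℝ)))),
      lt_min (lt_min hcR hcS) (lt_min hg (by positivity)),
      (min_le_left _ _).trans (min_le_left _ _), (min_le_left _ _).trans (min_le_right _ _),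
      (min_le_right _ _).trans (min_le_left _ _), (min_le_right _ _).trans (min_le_right _ _)⟩
  obtain ⟨c, nX, hc, hcc₁, hcc₃, H2'⟩ := H2 c₃ hc₃
  obtain ⟨β, nT, hβ, H1⟩ := h1 k c₁ c hk hc₁ hc hc₁' hcc₁
  refine ⟨β, nR + nS + nX + nT + ⌈1 / p⌉₊, hβ, ?_⟩
  intro V _ _ K hK hn hPD hNE
  obtain ⟨Y, Ys, Xs, hXS⟩ := H1 V K hK (by omega) hPD hNE
  obtain ⟨X', Y', Sg, hX', hY', hnd, hmem, hseg, hlen, hSg, hcard⟩ :=
    H2' V K hK (by omega) hPD Y Ys Xs hXS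
  have hYY : Y' ⊆ Y := hY'.trans hXS.ys
  have hBR : BS k K cR X' Y' := bs hk hXS hX' hY' hmem hlen hcc₃ (hcc₃.trans q1) q4
  have hBS : BS k K cS X' Y' := bs hk hXS hX' hY' hmem hlen hcc₃ (hcc₃.trans q2) q4
  have hnp : 1 / p ≤ (Fintype.card V : ℝ) := by
    refine (Nat.le_ceil _).trans ?_
    exact_mod_cast (by omega : ⌈1 / p⌉₊ ≤ Fintype.card V)
  obtain ⟨R, hR1, hR2⟩ := chooseR (x := X'.card) (n := Fintype.card V) hk hp hp1
    (Finset.card_le_univ _) hnp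
  have hXY : (X'.card : ℝ) ≤ ((k : ℝ) - 1) * (Y'.card : ℝ) := by
    have e1 : X'.card ≤ (k - 1) * Y'.card := by omega
    have e2 : (X'.card : ℝ) ≤ ((k - 1 : ℕ) : ℝ) * (Y'.card : ℝ) := by exact_mod_cast e1
    rwa [Nat.cast_sub (by omega), Nat.cast_one] at e2
  have hR3 : (R : ℝ) ≤ (1 - p) * (Y'.card : ℝ) := by
    have e3 : (0 : ℝ) < (k : ℝ) - 1 := by linarith
    have e4 : (1 - p) * (X'.card : ℝ) ≤ (1 - p) * (((k : ℝ) - 1) * (Y'.card : ℝ)) :=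
      mul_le_mul_of_nonneg_left hXY (by linarith)
    have e5 : ((k : ℝ) - 1) * (R : ℝ) ≤ ((k : ℝ) - 1) * ((1 - p) * (Y'.card : ℝ)) := by
      calc ((k : ℝ) - 1) * (R : ℝ) ≤ (1 - p) * (X'.card : ℝ) := hR1
        _ ≤ (1 - p) * (((k : ℝ) - 1) * (Y'.card : ℝ)) := e4
        _ = ((k : ℝ) - 1) * ((1 - p) * (Y'.card : ℝ)) := by ring
    exact le_of_mul_le_mul_left e5 e3
  obtain ⟨B, y, hRU⟩ := H3' V K hK (by omega) X' Y' hBR R hR3 hR1
  have hlen2 : (Sg.length : ℝ) ≤ cS * (Fintype.card V : ℝ) :=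
    hSg.trans (mul_le_mul_of_nonneg_right q2 (Nat.cast_nonneg _))
  obtain ⟨M, u, hU⟩ := H4' V K hK (by omega) X' Y' hBS Sg hnd hmem
    (fun s hs => ⟨(hseg s hs).1, (hseg s hs).2.1, gb_mono (hseg s hs).2.2.1 hYY q3,
      gb_mono (hseg s hs).2.2.2 hYY q3⟩) hlen2 hcard R B y hRU hR2
  exact h5 k V K M u (by omega) hK hU

end Pool.Agent.H48.TC
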