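import Pool.Agent.H48.TC.Stm
import Pool.Graph.R_pool_sql_team_seeded_1e53cb71.Helper83K9.CF.Farkas

/-!
# [FRACK] perfect fractional matchings
-/

set_option autoImplicit false

namespace Pool.Agent.H48.TC

open Finset Pool.Agent.H48.PW Pool.Agent.Helper83K9.CF

namespace FRACKL

variable {W : Type} [Fintype W] [DecidableEq W]

theorem mem_ex {Γ : Finset W → Prop} {T : Finset W} {v : W} :
    v ∈ ex Γ univ T ↔ v ∉ T ∧ Γ (insert v T) := by
  unfold ex
  simp only [mem_filter, mem_univ, true_and]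

/-- one step of the greedy extension -/
theorem step {k : ℕ} {γ : ℝ} {Γ : Finset W → Prop} (hP : PD k Γ γ univ) {S : Finset W}
    (hS : (1 / (k : ℝ) + γ) * (Fintype.card W : ℝ) < (S.card : ℝ)) {T : Finset W} (hT : Γ T)
    (hc : T.card < k) : ∃ v ∈ S, v ∉ T ∧ Γ (insert v T) := by
  by_contra hcon
  push Not at hcon
  have hd : Disjoint S (ex Γ univ T) := by
    rw [Finset.disjoint_left]
    intro v hv hv'
    rw [mem_ex] at hv'
    exact hcon v hv hv'.1 hv'.2
  have h1 := Finset.card_union_of_disjoint hd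
  have h2 : (S ∪ ex Γ univ T).card ≤ Fintype.card W := Finset.card_le_univ _
  rw [h1] at h2
  have h3 : (S.card : ℝ) + ((ex Γ univ T).card : ℝ) ≤ (Fintype.card W : ℝ) := by exact_mod_cast h2
  have h4 := hP T hT hc
  rw [Finset.card_univ] at h4
  nlinarith

/-- greedy extension of a member to an edge -/
theorem extend {k : ℕ} {γ : ℝ} {Γ : Finset W → Prop} (hP : PD k Γ γ univ) {S : Finset W}
    (hS : (1 / (k : ℝ) + γ) * (Fintype.card W : ℝ) < (S.card : ℝ)) :
    ∀ (j : ℕ) (T : Finset W), Γ T → T.card + j = k →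
      ∃ R ⊆ S, Disjoint T R ∧ R.card = j ∧ Γ (T ∪ R) := by
  intro j
  induction j with
  | zero =>
    intro T hT _
    exact ⟨∅, Finset.empty_subset _, Finset.disjoint_empty_right _, Finset.card_empty, by simpa using hT⟩
  | succ j ih =>
    intro T hT hc
    obtain ⟨v, hvS, hvT, hv⟩ := step hP hS hT (by omega)
    obtain ⟨R, hRS, hd, hRc, hR⟩ := ih (insert v T) hv (by
      rw [Finset.card_insert_of_notMem hvT]; omega)
    rw [Finset.disjoint_insert_left] at hd
    refine ⟨insert v R, Finset.insert_subset hvS hRS, ?_, ?_, ?_⟩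
    · rw [Finset.disjoint_insert_right]
      exact ⟨hvT, hd.2⟩
    · rw [Finset.card_insert_of_notMem hd.1, hRc]
    · have e : T ∪ insert v R = insert v T ∪ R := by
        ext y; simp only [mem_union, mem_insert]; tauto
      rwa [e]

/-- the dual statement, normalised -/
theorem dual1 {k : ℕ} (hk : 2 ≤ k) {δ : ℝ} (hδ0 : 0 < δ) (hδk : δ ≤ 1 / (2 * (k : ℝ)))
    {Γ : Finset W → Prop} (hC : Cx k Γ) (hP : PD k Γ (δ ^ 2 / 2) univ)
    (hI : ∀ Y : Finset W, (∀ y ∈ Y, ∀ z ∈ Y, y ≠ z → ¬ Γ {y, z}) →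
      (Y.card : ℝ) < (1 / (k : ℝ) - δ) * (Fintype.card W : ℝ))
    (x : W → ℝ) (hx : ∀ v, -1 ≤ x v) (v₀ : W) (hv₀ : x v₀ = -1)
    (hE : ∀ e : Finset W, Γ e → e.card = k → 0 ≤ ∑ v ∈ e, x v) : 0 ≤ ∑ v, x v := by
  classical
  by_contra hneg
  push Not at hneg
  set N : ℝ := (Fintype.card W : ℝ) with hN
  have hkR : (2 : ℝ) ≤ (k : ℝ) := by exact_mod_cast hk
  have hk1 : (0 : ℝ) < (k : ℝ) - 1 := by linarith
  have hN0 : 0 < N := by
    rw [hN]; exact_mod_cast Fintype.card_pos_iff.mpr ⟨v₀⟩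
  set β : ℝ := 1 / ((k : ℝ) - 1) with hβ
  have hβ1 : ((k : ℝ) - 1) * β = 1 := by rw [hβ]; field_simp
  have hδ4 : δ ≤ 1 / 4 := by
    refine hδk.trans ?_
    rw [div_le_div_iff₀ (by linarith) (by norm_num)]
    linarith
  have hkinv : 1 / (k : ℝ) ≤ 1 / 2 := by
    rw [div_le_div_iff₀ (by linarith) (by norm_num)]; linarith
  have hδk1 : (k : ℝ) * δ ≤ 1 / 2 := by
    have h1 := mul_le_mul_of_nonneg_left hδk (by linarith : (0 : ℝ) ≤ k)
    have h2 : (k : ℝ) * (1 / (2 * (k : ℝ))) = 1 / 2 := by field_simp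
    linarith
  -- few points with small values
  set L : Finset W := univ.filter (fun v => x v < β) with hL
  have hLc : (L.card : ℝ) ≤ (1 / (k : ℝ) + δ ^ 2 / 2) * N := by
    by_contra hcon
    push Not at hcon
    obtain ⟨R, hRL, hd, hRc, hR⟩ := extend hP hcon (k - 1) {v₀} (hC.vert v₀) (by
      rw [Finset.card_singleton]; omega)
    have hcard : ({v₀} ∪ R : Finset W).card = k := by
      rw [Finset.card_union_of_disjoint hd, Finset.card_singleton, hRc]; omega
    have h1 := hE _ hR hcard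
    rw [Finset.sum_union hd, Finset.sum_singleton, hv₀] at h1
    have hRne : R.Nonempty := by
      rw [← Finset.card_pos, hRc]; omega
    have h2 : ∑ v ∈ R, x v < ∑ v ∈ R, β :=
      Finset.sum_lt_sum_of_nonempty hRne fun v hv => (Finset.mem_filter.mp (hRL hv)).2
    rw [Finset.sum_const, hRc, nsmul_eq_mul, Nat.cast_sub (by omega), Nat.cast_one, hβ1] at h2
    linarith
  -- splitting the sum
  have hsplit : ∑ v, x v = ∑ v ∈ L, x v + ∑ v ∈ Lᶜ, x v := (Finset.sum_add_sum_compl L x).symm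
  have hLcc : (Lᶜ.card : ℝ) = N - L.card := by
    rw [Finset.card_compl, Nat.cast_sub (Finset.card_le_univ _)]
  have hs1 : ∑ v ∈ L, (x v + 1) = ∑ v ∈ L, x v + L.card := by
    rw [Finset.sum_add_distrib, Finset.sum_const, nsmul_eq_mul, mul_one]
  have hs2 : ∑ v ∈ Lᶜ, (x v - β) = ∑ v ∈ Lᶜ, x v - (N - L.card) * β := by
    rw [Finset.sum_sub_distrib, Finset.sum_const, nsmul_eq_mul, hLcc]
  have hp1 : 0 ≤ ∑ v ∈ L, (x v + 1) := Finset.sum_nonneg fun v _ => by linarith [hx v]
  have hge : ∀ v ∈ Lᶜ, β ≤ x v := by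
    intro v hv
    rw [Finset.mem_compl, hL, Finset.mem_filter, not_and, not_lt] at hv
    exact hv (mem_univ _)
  have hp2 : 0 ≤ ∑ v ∈ Lᶜ, (x v - β) := Finset.sum_nonneg fun v hv => by linarith [hge v hv]
  -- the total excess is small
  have hex : ∑ v ∈ L, (x v + 1) + ∑ v ∈ Lᶜ, (x v - β) ≤ δ ^ 2 * N := by
    rw [hs1, hs2]
    have h1 : ((L.card : ℝ) - (N - L.card) * β) * ((k : ℝ) - 1) = k * L.card - N := by
      have : (N - L.card) * β * ((k : ℝ) - 1) = N - L.card := by
        rw [mul_assoc, mul_comm β, hβ1, mul_one]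
      nlinarith
    have h2 : (k : ℝ) * L.card - N ≤ k * (δ ^ 2 / 2) * N := by
      have h3 := mul_le_mul_of_nonneg_left hLc (by linarith : (0 : ℝ) ≤ k)
      have h4 : (k : ℝ) * ((1 / (k : ℝ) + δ ^ 2 / 2) * N) = N + k * (δ ^ 2 / 2) * N := by
        field_simp
      linarith
    have h3 : (k : ℝ) * (δ ^ 2 / 2) * N ≤ (δ ^ 2 * N) * ((k : ℝ) - 1) := by
      have : 0 ≤ δ ^ 2 * N := by positivity
      nlinarith
    have h4 : ((L.card : ℝ) - (N - L.card) * β) * ((k : ℝ) - 1) ≤ (δ ^ 2 * N) * ((k : ℝ) - 1) := by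
      rw [h1]; exact h2.trans h3
    have h5 := le_of_mul_le_mul_right h4 hk1
    linarith
  -- many points are close to the minimum
  set Y : Finset W := L.filter (fun v => x v ≤ -1 + δ) with hY
  have hYc : (L.card : ℝ) - δ * N ≤ Y.card := by
    have h1 : δ * ((L.filter (fun v => ¬ x v ≤ -1 + δ)).card : ℝ) ≤ ∑ v ∈ L, (x v + 1) := by
      calc δ * ((L.filter (fun v => ¬ x v ≤ -1 + δ)).card : ℝ)
          = ∑ v ∈ L.filter (fun v => ¬ x v ≤ -1 + δ), δ := by
            rw [Finset.sum_const, nsmul_eq_mul, mul_comm]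
        _ ≤ ∑ v ∈ L.filter (fun v => ¬ x v ≤ -1 + δ), (x v + 1) := by
            refine Finset.sum_le_sum fun v hv => ?_
            have := (Finset.mem_filter.mp hv).2
            push Not at this
            linarith
        _ ≤ ∑ v ∈ L, (x v + 1) :=
            Finset.sum_le_sum_of_subset_of_nonneg (Finset.filter_subset _ _)
              fun v _ _ => by linarith [hx v]
    have h2 : δ * ((L.filter (fun v => ¬ x v ≤ -1 + δ)).card : ℝ) ≤ δ * (δ * N) := by
      calc _ ≤ δ ^ 2 * N := by linarith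
        _ = δ * (δ * N) := by ring
    have h3 := le_of_mul_le_mul_left h2 hδ0
    have h4 : (L.card : ℝ) = Y.card + ((L.filter (fun v => ¬ x v ≤ -1 + δ)).card : ℝ) := by
      rw [hY]
      exact_mod_cast (Finset.card_filter_add_card_filter_not (s := L) (fun v => x v ≤ -1 + δ)).symm
    linarith
  have hLlow : N / k < L.card := by
    have h1 : -(L.card : ℝ) ≤ ∑ v ∈ L, x v := by linarith
    have h2 : (N - L.card) * β ≤ ∑ v ∈ Lᶜ, x v := by linarith
    have h3 : -(L.card : ℝ) + (N - L.card) * β < 0 := by linarith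
    have h4 : (-(L.card : ℝ) + (N - L.card) * β) * ((k : ℝ) - 1) < 0 := mul_neg_of_neg_of_pos h3 hk1
    have h5 : (N - L.card) * β * ((k : ℝ) - 1) = N - L.card := by
      rw [mul_assoc, mul_comm β, hβ1, mul_one]
    rw [div_lt_iff₀ (by linarith)]
    nlinarith
  -- few points have large values
  set Z : Finset W := univ.filter (fun v => x v ≤ β + δ) with hZ
  have hZc : (1 / (k : ℝ) + δ ^ 2 / 2) * N < Z.card := by
    have h1 : δ * ((univ.filter (fun v => ¬ x v ≤ β + δ)).card : ℝ) ≤ ∑ v ∈ Lᶜ, (x v - β) := by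
      calc δ * ((univ.filter (fun v => ¬ x v ≤ β + δ)).card : ℝ)
          = ∑ v ∈ univ.filter (fun v => ¬ x v ≤ β + δ), δ := by
            rw [Finset.sum_const, nsmul_eq_mul, mul_comm]
        _ ≤ ∑ v ∈ univ.filter (fun v => ¬ x v ≤ β + δ), (x v - β) := by
            refine Finset.sum_le_sum fun v hv => ?_
            have := (Finset.mem_filter.mp hv).2
            push Not at this
            linarith
        _ ≤ ∑ v ∈ Lᶜ, (x v - β) := by
            refine Finset.sum_le_sum_of_subset_of_nonneg ?_ fun v hv _ => by linarith [hge v hv]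
            intro v hv
            have h2 := (Finset.mem_filter.mp hv).2
            push Not at h2
            rw [Finset.mem_compl, hL, Finset.mem_filter]
            intro h3
            linarith [h3.2]
    have h2 : δ * ((univ.filter (fun v => ¬ x v ≤ β + δ)).card : ℝ) ≤ δ * (δ * N) := by
      calc _ ≤ δ ^ 2 * N := by linarith
        _ = δ * (δ * N) := by ring
    have h3 := le_of_mul_le_mul_left h2 hδ0
    have h4 : N = Z.card + ((univ.filter (fun v => ¬ x v ≤ β + δ)).card : ℝ) := by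
      rw [hZ, hN]
      exact_mod_cast (Finset.card_filter_add_card_filter_not (s := (univ : Finset W))
        (fun v => x v ≤ β + δ)).symm
    have h5 : δ + 1 / (k : ℝ) + δ ^ 2 / 2 < 1 := by nlinarith
    have h6 : (δ + 1 / (k : ℝ) + δ ^ 2 / 2) * N < 1 * N := mul_lt_mul_of_pos_right h5 hN0
    nlinarith
  -- the points close to the minimum are independent
  have hYi : ∀ y ∈ Y, ∀ z ∈ Y, y ≠ z → ¬ Γ {y, z} := by
    intro y hy z hz hyz hΓ
    obtain ⟨R, hRZ, hd, hRc, hR⟩ := extend hP hZc (k - 2) {y, z} hΓ (by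
      rw [Finset.card_pair hyz]; omega)
    have hcard : (({y, z} : Finset W) ∪ R).card = k := by
      rw [Finset.card_union_of_disjoint hd, Finset.card_pair hyz, hRc]; omega
    have h1 := hE _ hR hcard
    rw [Finset.sum_union hd, Finset.sum_pair hyz] at h1
    have h2 : ∑ v ∈ R, x v ≤ ∑ v ∈ R, (β + δ) :=
      Finset.sum_le_sum fun v hv => (Finset.mem_filter.mp (hRZ hv)).2
    rw [Finset.sum_const, hRc, nsmul_eq_mul, Nat.cast_sub hk] at h2
    have h3 := (Finset.mem_filter.mp hy).2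
    have h4 := (Finset.mem_filter.mp hz).2
    have hβ0 : 0 < β := by rw [hβ]; positivity
    push_cast at h2
    nlinarith
  have hfin := hI Y hYi
  have h1 : (1 / (k : ℝ) - δ) * N = N / k - δ * N := by ring
  linarith

/-- the dual statement -/
theorem dual {k : ℕ} (hk : 2 ≤ k) {δ : ℝ} (hδ0 : 0 < δ) (hδk : δ ≤ 1 / (2 * (k : ℝ)))
    {Γ : Finset W → Prop} (hC : Cx k Γ) (hP : PD k Γ (δ ^ 2 / 2) univ)
    (hI : ∀ Y : Finset W, (∀ y ∈ Y, ∀ z ∈ Y, y ≠ z → ¬ Γ {y, z}) →
      (Y.card : ℝ) < (1 / (k : ℝ) - δ) * (Fintype.card W : ℝ))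
    (x : W → ℝ) (hE : ∀ e : Finset W, Γ e → e.card = k → 0 ≤ ∑ v ∈ e, x v) : 0 ≤ ∑ v, x v := by
  rcases isEmpty_or_nonempty W with hW | hW
  · simp
  obtain ⟨v₀, -, hv₀⟩ := Finset.exists_min_image (univ : Finset W) x Finset.univ_nonempty
  rcases le_or_gt 0 (x v₀) with h0 | h0
  · exact Finset.sum_nonneg fun v hv => h0.trans (hv₀ v hv)
  · have hpos : 0 < -x v₀ := by linarith
    have h1 := dual1 hk hδ0 hδk hC hP hI (fun v => x v / (-x v₀)) (fun v => by
        rw [le_div_iff₀ hpos]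
        have := hv₀ v (mem_univ _)
        linarith) v₀ (by rw [div_neg, div_self h0.ne]) (fun e he hc => by
        rw [← Finset.sum_div]
        exact div_nonneg (hE e he hc) hpos.le)
    rw [← Finset.sum_div] at h1
    by_contra hcon
    push Not at hcon
    have := div_neg_of_neg_of_pos hcon hpos
    linarith

end FRACKL

open FRACKL in
theorem frack : S_FRACK := by
  classical
  intro k κ hk hκ
  have hk0 : (0 : ℝ) < k := by exact_mod_cast (by omega : 0 < k)
  set δ : ℝ := min κ (1 / (2 * (k : ℝ))) with hδ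
  have hδ0 : 0 < δ := lt_min hκ (by positivity)
  refine ⟨δ ^ 2 / 2, 0, by positivity, ?_⟩
  intro W _ _ Γ hC _ hP hI
  have hI' : ∀ Y : Finset W, (∀ y ∈ Y, ∀ z ∈ Y, y ≠ z → ¬ Γ {y, z}) →
      (Y.card : ℝ) < (1 / (k : ℝ) - δ) * (Fintype.card W : ℝ) := by
    intro Y hY
    refine (hI Y hY).trans_le ?_
    refine mul_le_mul_of_nonneg_right ?_ (Nat.cast_nonneg _)
    have := min_le_left κ (1 / (2 * (k : ℝ)))
    linarith
  obtain ⟨w, hw0, hw⟩ := farkas W (Finset W) (fun v e => if v ∈ e ∧ Γ e ∧ e.card = k then 1 else 0)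
    (fun _ => 1) (fun _ => False) (by
      intro s _ hs
      simp only [mul_one]
      refine dual hk hδ0 (min_le_right _ _) hC hP hI' s ?_
      intro e he hc
      have h1 := hs e
      have h2 : ∑ v, s v * (if v ∈ e ∧ Γ e ∧ e.card = k then (1 : ℝ) else 0) = ∑ v ∈ e, s v := by
        rw [← Finset.sum_filter_add_sum_filter_not univ (fun v => v ∈ e)]
        have h3 : ∑ v ∈ univ.filter (fun v => ¬ v ∈ e),
            s v * (if v ∈ e ∧ Γ e ∧ e.card = k then (1 : ℝ) else 0) = 0 := by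
          refine Finset.sum_eq_zero fun v hv => ?_
          have := (Finset.mem_filter.mp hv).2
          rw [if_neg (fun h => this h.1), mul_zero]
        have h4 : univ.filter (fun v => v ∈ e) = e := by ext v; simp
        rw [h3, add_zero, h4]
        refine Finset.sum_congr rfl fun v hv => ?_
        rw [if_pos ⟨hv, he, hc⟩, mul_one]
      rwa [h2] at h1)
  refine ⟨fun e => if Γ e ∧ e.card = k then w e else 0, ?_, ?_, ?_⟩
  · intro e
    show 0 ≤ if Γ e ∧ e.card = k then w e else 0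
    split_ifs
    · exact hw0 e
    · exact le_rfl
  · intro e he
    by_contra hcon
    exact he (if_neg hcon)
  · intro v
    rw [← (hw v).2 not_false]
    refine Finset.sum_congr rfl fun e _ => ?_
    show (if v ∈ e then (if Γ e ∧ e.card = k then w e else 0) else 0) =
      (if v ∈ e ∧ Γ e ∧ e.card = k then 1 else 0) * w e
    by_cases h1 : v ∈ e <;> by_cases h2 : Γ e ∧ e.card = k
    · rw [if_pos h1, if_pos h2, if_pos ⟨h1, h2⟩, one_mul]
    · rw [if_pos h1, if_neg h2, if_neg (fun h => h2 h.2), zero_mul]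
    · rw [if_neg h1, if_neg (fun h => h1 h.1), zero_mul]
    · rw [if_neg h1, if_neg (fun h => h1 h.1), zero_mul]

end Pool.Agent.H48.TC
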