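import Pool.Agent.H48.TC.Stm
import Pool.Graph.R_pool_sql_team_seeded_1e53cb71.Helper83K9.CF.Farkas

/-!
# Fractional tilings by tiles: `S_FTK`
-/

set_option autoImplicit false

namespace Pool.Agent.H48.TC

open Finset Pool.Agent.H48.PW Pool.Agent.Helper83K9.CF

namespace FTKL

/-! ### The dual form -/

/-- the dual form -/
def DF {V : Type} [Fintype V] [DecidableEq V] (k s : ℕ) (η : ℝ) (K : Finset V → Prop)
    (U : Finset V) : Prop :=
  ∀ x : V → ℝ, (∀ v, -1 ≤ x v) → (∀ v, x v ≤ (k : ℝ) * s) →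
  (∀ T, TileK k s K T → T ⊆ U → 0 ≤ ∑ v ∈ T, x v) → -(η * (U.card : ℝ)) ≤ ∑ v ∈ U, x v

theorem tile_card {V : Type} [DecidableEq V] {k s : ℕ} {K : Finset V → Prop} {T : Finset V}
    (h : TileK k s K T) : T.card = k * s := by
  obtain ⟨p, hp, rfl, -⟩ := h
  rw [Finset.card_image_of_injective _ hp, Finset.card_univ, Fintype.card_prod, Fintype.card_fin,
    Fintype.card_fin]

open Classical in
theorem of_dual {V : Type} [Fintype V] [DecidableEq V] {k s : ℕ} {η : ℝ} {K : Finset V → Prop}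
    {U : Finset V} (hk : 1 ≤ k) (hs : 1 ≤ s) (hDF : DF k s η K U) :
    ∃ w : Finset V → ℝ, (∀ T, 0 ≤ w T) ∧ (∀ T, w T ≠ 0 → TileK k s K T ∧ T ⊆ U) ∧
    (∀ v ∈ U, ∑ T, (if v ∈ T then w T else 0) ≤ 1) ∧
    ∑ v ∈ U, (1 - ∑ T, (if v ∈ T then w T else 0)) ≤ η * (U.card : ℝ) := by
  have hks : (1 : ℝ) ≤ (k : ℝ) * s := by
    have : 1 * 1 ≤ k * s := Nat.mul_le_mul hk hs
    exact_mod_cast this
  let a : (V ⊕ Unit) → {T : Finset V // TileK k s K T ∧ T ⊆ U} → ℝ :=
    Sum.elim (fun v T => if v ∈ T.1 then (1 : ℝ) else 0) (fun _ T => -(T.1.card : ℝ))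
  let μ : (V ⊕ Unit) → ℝ :=
    Sum.elim (fun v => if v ∈ U then (1 : ℝ) else 0) (fun _ => η * (U.card : ℝ) - (U.card : ℝ))
  obtain ⟨w, hw0, hw⟩ := farkas (V ⊕ Unit) {T : Finset V // TileK k s K T ∧ T ⊆ U} a μ
    (fun _ => True) (by
      intro σ hσ hσT
      set lam : ℝ := σ (Sum.inr ()) with hlam
      have hlam0 : 0 ≤ lam := hσ _ trivial
      set sg : V → ℝ := fun v => σ (Sum.inl v) with hsg
      have hsg0 : ∀ v, 0 ≤ sg v := fun v => hσ _ trivial
      have hgoal : ∑ v, σ v * μ v = ∑ v ∈ U, sg v + lam * (η * (U.card : ℝ) - (U.card : ℝ)) := by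
        rw [Fintype.sum_sum_type]
        simp only [μ, Sum.elim_inl, Sum.elim_inr, Finset.univ_unique, Finset.sum_singleton]
        congr 1
        simp only [mul_ite, mul_one, mul_zero]
        rw [Finset.sum_ite_mem, Finset.univ_inter]
      have htile : ∀ T : Finset V, TileK k s K T → T ⊆ U →
          lam * (T.card : ℝ) ≤ ∑ v ∈ T, sg v := by
        intro T h1 h2
        have h3 := hσT ⟨T, h1, h2⟩
        rw [Fintype.sum_sum_type] at h3
        simp only [a, Sum.elim_inl, Sum.elim_inr, Finset.univ_unique, Finset.sum_singleton,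
          mul_ite, mul_one, mul_zero] at h3
        rw [Finset.sum_ite_mem, Finset.univ_inter] at h3
        have h4 : σ (Sum.inr default) = lam := rfl
        rw [h4] at h3
        linarith
      rw [hgoal]
      rcases hlam0.eq_or_lt with h0 | hpos
      · rw [← h0, zero_mul, add_zero]
        exact Finset.sum_nonneg fun v _ => hsg0 v
      · set x : V → ℝ := fun v => sg v / lam - 1 with hx
        have xlow : ∀ v, -1 ≤ x v := by
          intro v
          have : 0 ≤ sg v / lam := div_nonneg (hsg0 v) hlam0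
          simp only [hx]
          linarith
        have hxT : ∀ T : Finset V, ∑ v ∈ T, x v = (∑ v ∈ T, sg v) / lam - T.card := by
          intro T
          simp only [hx]
          rw [Finset.sum_sub_distrib, Finset.sum_div, Finset.sum_const, nsmul_eq_mul, mul_one]
        have h1 := hDF (fun v => min (x v) ((k : ℝ) * s))
          (fun v => le_min (xlow v) (by linarith)) (fun v => min_le_right _ _) (by
            intro T hT hTU
            have hcard := tile_card hT
            by_cases hall : ∀ v ∈ T, x v ≤ (k : ℝ) * s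
            · rw [Finset.sum_congr rfl (fun v hv => min_eq_left (hall v hv)), hxT T]
              have h2 := htile T hT hTU
              have h3 : (T.card : ℝ) ≤ (∑ v ∈ T, sg v) / lam := by
                rw [le_div_iff₀ hpos, mul_comm]
                exact h2
              linarith
            · push Not at hall
              obtain ⟨v₀, hv₀, hv₀'⟩ := hall
              rw [← Finset.add_sum_erase T _ hv₀, min_eq_right hv₀'.le]
              have h2 : ∑ v ∈ T.erase v₀, (-1 : ℝ) ≤ ∑ v ∈ T.erase v₀, min (x v) ((k : ℝ) * s) :=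
                Finset.sum_le_sum fun v _ => le_min (xlow v) (by linarith)
              rw [Finset.sum_const, nsmul_eq_mul, Finset.card_erase_of_mem hv₀, hcard] at h2
              have h3 : ((k * s - 1 : ℕ) : ℝ) ≤ (k : ℝ) * s := by
                have : ((k * s - 1 : ℕ) : ℝ) ≤ ((k * s : ℕ) : ℝ) := by
                  exact_mod_cast Nat.sub_le _ _
                refine this.trans (le_of_eq ?_)
                push_cast; ring
              linarith)
        have h2 : ∑ v ∈ U, min (x v) ((k : ℝ) * s) ≤ ∑ v ∈ U, x v :=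
          Finset.sum_le_sum fun v _ => min_le_left _ _
        have h3 := h1.trans h2
        rw [hxT U] at h3
        have h4 : (U.card : ℝ) - η * (U.card : ℝ) ≤ (∑ v ∈ U, sg v) / lam := by linarith
        rw [le_div_iff₀ hpos] at h4
        linarith)
  set W : Finset V → ℝ := fun T => if h : TileK k s K T ∧ T ⊆ U then w ⟨T, h⟩ else 0 with hW
  have hsum : ∀ f : Finset V → ℝ, ∑ T, f T * W T =
      ∑ i : {T : Finset V // TileK k s K T ∧ T ⊆ U}, f i.1 * w i := by
    intro f
    have h1 : ∑ T ∈ univ.filter (fun T : Finset V => TileK k s K T ∧ T ⊆ U), f T * W T =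
        ∑ T, f T * W T := by
      refine Finset.sum_subset (Finset.subset_univ _) ?_
      intro T _ hT
      rw [Finset.mem_filter] at hT
      simp only [hW]
      rw [dif_neg (fun h => hT ⟨Finset.mem_univ _, h⟩), mul_zero]
    rw [← h1, Finset.sum_subtype (univ.filter (fun T : Finset V => TileK k s K T ∧ T ⊆ U))
      (p := fun T => TileK k s K T ∧ T ⊆ U) (by simp)]
    refine Finset.sum_congr rfl fun i _ => ?_
    simp only [hW]
    rw [dif_pos i.2]
  have hload : ∀ v, ∑ T, (if v ∈ T then W T else 0) =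
      ∑ i : {T : Finset V // TileK k s K T ∧ T ⊆ U}, (if v ∈ i.1 then (1 : ℝ) else 0) * w i := by
    intro v
    rw [← hsum (fun T => if v ∈ T then (1 : ℝ) else 0)]
    refine Finset.sum_congr rfl fun T _ => ?_
    simp only [ite_mul, one_mul, zero_mul]
  refine ⟨W, fun T => ?_, fun T hT => ?_, fun v hv => ?_, ?_⟩
  · simp only [hW]
    split_ifs with h
    · exact hw0 _
    · exact le_rfl
  · by_contra h
    exact hT (dif_neg h)
  · rw [hload v]
    have h1 := (hw (Sum.inl v)).1 trivial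
    simp only [a, μ, Sum.elim_inl] at h1
    rw [if_pos hv] at h1
    exact h1
  · have h1 := (hw (Sum.inr ())).1 trivial
    simp only [a, μ, Sum.elim_inr] at h1
    rw [Finset.sum_congr rfl (fun v _ => by rw [hload v]), Finset.sum_sub_distrib, Finset.sum_const,
      nsmul_eq_mul, mul_one, Finset.sum_comm]
    have h2 : ∀ i : {T : Finset V // TileK k s K T ∧ T ⊆ U},
        ∑ v ∈ U, (if v ∈ i.1 then (1 : ℝ) else 0) * w i = (i.1.card : ℝ) * w i := by
      intro i
      rw [← Finset.sum_mul, Finset.sum_ite_mem, Finset.sum_const, nsmul_eq_mul, mul_one,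
        Finset.inter_eq_right.2 i.2.2]
    rw [Finset.sum_congr rfl (fun i _ => h2 i)]
    simp only [neg_mul, Finset.sum_neg_distrib] at h1
    linarith

/-! ### Blow-ups give tiles -/

theorem coll_card {κ V : Type} [Fintype κ] [DecidableEq κ] [DecidableEq V] (S : κ → Finset V)
    {p p' : κ} (hp : p ≠ p') :
    ((Fintype.piFinset S).filter (fun Ω => Ω p = Ω p')).card * (S p').card ≤
      ∏ r, (S r).card := by
  rw [← Fintype.card_piFinset, ← Finset.card_product]
  refine Finset.card_le_card_of_injOn (fun z => Function.update z.1 p' z.2) ?_ ?_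
  · intro z hz
    rw [Finset.mem_coe, Finset.mem_product, Finset.mem_filter, Fintype.mem_piFinset] at hz
    rw [Finset.mem_coe, Fintype.mem_piFinset]
    intro r
    by_cases hr : r = p'
    · subst hr
      simpa using hz.2
    · simpa [Function.update_of_ne hr] using hz.1.1 r
  · intro z hz z' hz' h
    rw [Finset.mem_coe, Finset.mem_product, Finset.mem_filter] at hz hz'
    have hval : ∀ r, Function.update z.1 p' z.2 r = Function.update z'.1 p' z'.2 r :=
      fun r => congrFun h r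
    have h2 : z.2 = z'.2 := by
      have := hval p'
      simpa using this
    have h1 : ∀ r, r ≠ p' → z.1 r = z'.1 r := by
      intro r hr
      have := hval r
      rwa [Function.update_of_ne hr, Function.update_of_ne hr] at this
    have h3 : z.1 = z'.1 := by
      funext r
      by_cases hr : r = p'
      · subst hr
        rw [← hz.1.2, ← hz'.1.2]
        exact h1 p hp
      · exact h1 r hr
    exact Prod.ext h3 h2

open Classical in
theorem blow_tile (hB : S_BLOW) {V : Type} [Fintype V] [DecidableEq V] {N k s : ℕ}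
    {K : Finset V → Prop} {U : Finset V} {x : V → ℝ} {c : ℝ} (hs : 1 ≤ s) (hc : 0 < c)
    (hU : U.Nonempty) (I : Fin k → Fin N) (hI : Function.Injective I)
    (G : Finset (Fin N → V)) (hGS : G ⊆ Fintype.piFinset (fun _ : Fin N => U))
    (hG : ∀ ω ∈ G, K (univ.image (fun i => ω (I i))) ∧ ∑ i, x (ω (I i)) < 0)
    (hcard : c * (U.card : ℝ) ^ N ≤ (G.card : ℝ))
    (hbig : ((N : ℝ) * s) ^ 2 < c ^ (s ^ N) * (U.card : ℝ)) :
    ∃ T, TileK k s K T ∧ T ⊆ U ∧ ∑ v ∈ T, x v < 0 := by
  have hU0 : (0 : ℝ) < (U.card : ℝ) := by exact_mod_cast hU.card_pos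
  have hprod1 : ∏ _i : Fin N, (U.card : ℝ) = (U.card : ℝ) ^ N := by simp
  have hprod2 : ∏ _i : Fin N, (U.card : ℝ) ^ s = ∏ _p : Fin N × Fin s, (U.card : ℝ) := by
    rw [Fintype.prod_prod_type]
    refine Finset.prod_congr rfl fun i _ => ?_
    simp
  have hprod : (0 : ℝ) < ∏ _p : Fin N × Fin s, (U.card : ℝ) :=
    Finset.prod_pos fun _ _ => hU0
  have h1 := hB (Fin N) V (fun _ => U) G c s hGS hc.le hs (by rw [hprod1]; exact hcard)
  rw [Fintype.card_fin, hprod2] at h1
  set P : ℝ := ∏ _p : Fin N × Fin s, (U.card : ℝ) with hP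
  set Z : Finset (Fin N × Fin s → V) :=
    (Fintype.piFinset (fun _ : Fin N × Fin s => U)).filter
      (fun Ω => ∀ φ : Fin N → Fin s, (fun i => Ω (i, φ i)) ∈ G) with hZ
  set J : Finset ((Fin N × Fin s) × (Fin N × Fin s)) :=
    univ.filter (fun z => z.1 ≠ z.2) with hJ
  have hJcard : (J.card : ℝ) ≤ ((N : ℝ) * s) ^ 2 := by
    have h2 : J.card ≤ (univ : Finset ((Fin N × Fin s) × (Fin N × Fin s))).card :=
      Finset.card_le_card (Finset.filter_subset _ _)
    rw [Finset.card_univ, Fintype.card_prod, Fintype.card_prod, Fintype.card_fin,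
      Fintype.card_fin] at h2
    have h3 : (J.card : ℝ) ≤ ((N * s * (N * s) : ℕ) : ℝ) := by exact_mod_cast h2
    refine h3.trans (le_of_eq ?_)
    push_cast
    ring
  have hcoll : ∀ z ∈ J, (((Fintype.piFinset (fun _ : Fin N × Fin s => U)).filter
      (fun Ω => Ω z.1 = Ω z.2)).card : ℝ) ≤ P / (U.card : ℝ) := by
    intro z hz
    rw [hJ, Finset.mem_filter] at hz
    have h2 := coll_card (fun _ : Fin N × Fin s => U) hz.2
    have h3 : (((Fintype.piFinset (fun _ : Fin N × Fin s => U)).filter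
      (fun Ω => Ω z.1 = Ω z.2)).card : ℝ) * (U.card : ℝ) ≤ P := by
      rw [hP]
      exact_mod_cast h2
    rw [le_div_iff₀ hU0]
    exact h3
  have hex : ∃ Ω ∈ Z, ∀ z ∈ J, Ω z.1 ≠ Ω z.2 := by
    by_contra hcon
    push Not at hcon
    have hsub : Z ⊆ J.biUnion (fun z => (Fintype.piFinset (fun _ : Fin N × Fin s => U)).filter
        (fun Ω => Ω z.1 = Ω z.2)) := by
      intro Ω hΩ
      obtain ⟨z, hz, hz'⟩ := hcon Ω hΩ
      rw [Finset.mem_biUnion]
      refine ⟨z, hz, ?_⟩
      rw [Finset.mem_filter]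
      rw [hZ, Finset.mem_filter] at hΩ
      exact ⟨hΩ.1, hz'⟩
    have h2 : (Z.card : ℝ) ≤ ∑ z ∈ J, (((Fintype.piFinset (fun _ : Fin N × Fin s => U)).filter
        (fun Ω => Ω z.1 = Ω z.2)).card : ℝ) := by
      exact_mod_cast (Finset.card_le_card hsub).trans Finset.card_biUnion_le
    have h3 := h2.trans (Finset.sum_le_sum hcoll)
    rw [Finset.sum_const, nsmul_eq_mul] at h3
    have h4 : c ^ (s ^ N) * P ≤ ((N : ℝ) * s) ^ 2 * (P / (U.card : ℝ)) :=
      (h1.trans h3).trans (mul_le_mul_of_nonneg_right hJcard (div_nonneg hprod.le hU0.le))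
    have h5 : ((N : ℝ) * s) ^ 2 * (P / (U.card : ℝ)) =
        (((N : ℝ) * s) ^ 2 / (U.card : ℝ)) * P := by ring
    rw [h5] at h4
    have h6 := le_of_mul_le_mul_right h4 hprod
    rw [le_div_iff₀ hU0] at h6
    linarith
  obtain ⟨Ω, hΩZ, hΩ⟩ := hex
  rw [hZ, Finset.mem_filter, Fintype.mem_piFinset] at hΩZ
  obtain ⟨hΩS, hΩG⟩ := hΩZ
  have hinj : Function.Injective (fun p : Fin k × Fin s => Ω (I p.1, p.2)) := by
    intro p p' hpp
    by_contra hne'
    have h2 : (I p.1, p.2) ≠ (I p'.1, p'.2) := by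
      intro h
      rw [Prod.mk.injEq] at h
      exact hne' (Prod.ext (hI h.1) h.2)
    refine hΩ ((I p.1, p.2), (I p'.1, p'.2)) ?_ hpp
    rw [hJ, Finset.mem_filter]
    exact ⟨Finset.mem_univ _, h2⟩
  have hφ : ∀ φ : Fin k → Fin s, ∃ φ' : Fin N → Fin s, ∀ i, φ' (I i) = φ i := fun φ =>
    ⟨Function.extend I φ (fun _ => ⟨0, hs⟩), fun i => hI.extend_apply φ _ i⟩
  refine ⟨univ.image (fun p : Fin k × Fin s => Ω (I p.1, p.2)),
    ⟨fun p => Ω (I p.1, p.2), hinj, rfl, ?_⟩, ?_, ?_⟩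
  · intro φ
    obtain ⟨φ', hφ'⟩ := hφ φ
    have h2 := (hG _ (hΩG φ')).1
    simp only [hφ'] at h2
    exact h2
  · intro v hv
    rw [Finset.mem_image] at hv
    obtain ⟨p, -, rfl⟩ := hv
    exact hΩS (I p.1, p.2)
  · rw [Finset.sum_image (fun a _ b _ h => hinj h), Fintype.sum_prod_type, Finset.sum_comm]
    refine Finset.sum_neg (fun a _ => ?_) ?_
    · exact (hG _ (hΩG (fun _ => a))).2
    · exact ⟨⟨0, hs⟩, Finset.mem_univ _⟩

/-! ### Good samples contain an edge with negative sum -/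

theorem pl_cx {V : Type} [DecidableEq V] {k N R : ℕ} {K : Finset V → Prop} (hK : Cx k K)
    (ω : Fin N → V) (e : Fin R → V) : Cx k (pl K ω e) := by
  constructor
  · exact ⟨by simp, by simpa using hK.emp⟩
  · intro S T hT hST
    exact ⟨hT.1.mono (by exact_mod_cast hST), hK.sub _ _ hT.2 (Finset.image_subset_image hST)⟩
  · intro T hT
    have h1 := Finset.card_image_of_injOn hT.1
    rw [← h1]
    exact hK.card _ hT.2
  · intro v
    refine ⟨by simp, ?_⟩
    rw [Finset.image_singleton]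
    exact hK.vert _

theorem lft_zero (N : ℕ) : lft N 0 = univ := by
  ext v
  rcases v with v | v
  · simp [lft]
  · exact v.elim0

theorem exists_edge {V : Type} [DecidableEq V] {k N : ℕ} {K : Finset V → Prop}
    (ω : Fin N → V) (e : Fin 0 → V) (x : V → ℝ)
    (hw : ∃ w : Finset (Fin N ⊕ Fin 0) → ℝ, (∀ T, 0 ≤ w T) ∧
      (∀ T, w T ≠ 0 → pl K ω e T ∧ T.card = k) ∧
      ∀ v, ∑ T, (if v ∈ T then w T else 0) = 1)
    (hx : ∑ i, x (ω i) < 0) :
    ∃ I : Fin k → Fin N, Function.Injective I ∧ K (univ.image (fun i => ω (I i))) ∧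
      ∑ i, x (ω (I i)) < 0 := by
  obtain ⟨w, hw0, hw1, hw2⟩ := hw
  set X : Fin N ⊕ Fin 0 → ℝ := fun v => x (Sum.elim ω e v) with hX
  have hXs : ∑ v, X v < 0 := by
    rw [Fintype.sum_sum_type]
    simpa [hX] using hx
  have h1 : ∑ v, X v = ∑ T, w T * ∑ v ∈ T, X v := by
    have h2 : ∀ v, X v = ∑ T, (if v ∈ T then w T * X v else 0) := by
      intro v
      have h3 := hw2 v
      have h4 : ∑ T, (if v ∈ T then w T * X v else 0) =
          (∑ T, (if v ∈ T then w T else 0)) * X v := by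
        rw [Finset.sum_mul]
        refine Finset.sum_congr rfl fun T _ => ?_
        simp only [ite_mul, zero_mul]
      rw [h4, h3, one_mul]
    rw [Finset.sum_congr rfl (fun v _ => h2 v), Finset.sum_comm]
    refine Finset.sum_congr rfl fun T _ => ?_
    rw [Finset.sum_ite_mem, Finset.univ_inter, Finset.mul_sum]
  have h2 : ∃ T, w T ≠ 0 ∧ ∑ v ∈ T, X v < 0 := by
    by_contra hcon
    push Not at hcon
    have h3 : 0 ≤ ∑ T, w T * ∑ v ∈ T, X v := by
      refine Finset.sum_nonneg fun T _ => ?_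
      by_cases h4 : w T = 0
      · rw [h4, zero_mul]
      · exact mul_nonneg (hw0 T) (hcon T h4)
    linarith
  obtain ⟨T, hT0, hTs⟩ := h2
  obtain ⟨⟨hinj, hKT⟩, hTc⟩ := hw1 T hT0
  let g : Fin N ⊕ Fin 0 → Fin N := Sum.elim id (fun z => z.elim0)
  have hg : ∀ v, Sum.elim ω e v = ω (g v) := by
    intro v
    rcases v with v | v
    · rfl
    · exact v.elim0
  have hginj : Function.Injective g := by
    intro v v' h
    rcases v with v | v
    · rcases v' with v' | v'
      · exact congrArg Sum.inl h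
      · exact v'.elim0
    · exact v.elim0
  let φ : Fin k ≃ {v // v ∈ T} := (Finset.equivFinOfCardEq hTc).symm
  refine ⟨fun i => g (φ i), ?_, ?_, ?_⟩
  · intro i j h
    exact φ.injective (Subtype.ext (hginj h))
  · have h3 : univ.image (fun i => ω (g (φ i))) = T.image (Sum.elim ω e) := by
      ext v
      rw [Finset.mem_image, Finset.mem_image]
      constructor
      · rintro ⟨i, -, rfl⟩
        exact ⟨φ i, (φ i).2, hg _⟩
      · rintro ⟨y, hy, rfl⟩
        exact ⟨φ.symm ⟨y, hy⟩, Finset.mem_univ _, by rw [Equiv.apply_symm_apply, hg]⟩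
    rw [h3]
    exact hKT
  · have h3 : ∑ i, x (ω (g (φ i))) = ∑ v ∈ T, X v := by
      rw [← Finset.sum_coe_sort T, ← φ.sum_comp]
      refine Finset.sum_congr rfl fun i _ => ?_
      simp only [hX]
      rw [hg]
    rw [h3]
    exact hTs

/-! ### The dual form holds -/

theorem PD_mono {V : Type} [DecidableEq V] {k : ℕ} {K : Finset V → Prop} {γ γ' : ℝ}
    {U : Finset V} (h : PD k K γ U) (hγ : γ ≤ γ') : PD k K γ' U := by
  intro T hT hc
  refine le_trans ?_ (h T hT hc)
  refine mul_le_mul_of_nonneg_right ?_ (Nat.cast_nonneg _)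
  linarith

open Classical in
theorem dual (h1 : S_HOEF) (h2 : S_BLOW) {V : Type} [Fintype V] [DecidableEq V] {k s N : ℕ}
    {η : ℝ} {K : Finset V → Prop} {U : Finset V} (hk : 1 ≤ k) (hs : 1 ≤ s) (hη : 0 < η)
    (hN : 1 ≤ N) (hU : U.Nonempty)
    (hexp : Real.exp (-((η * N) ^ 2) / (16 * ((k : ℝ) * s) ^ 2 * N)) ≤ 1 / 8)
    (B : Finset (Fin N → V)) (hB : 2 * (B.card : ℝ) ≤ (U.card : ℝ) ^ N / 2)
    (hedge : ∀ ω ∈ Fintype.piFinset (fun _ : Fin N => U), ω ∉ B → ∀ x : V → ℝ,
      ∑ i, x (ω i) < 0 →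
      ∃ I : Fin k → Fin N, Function.Injective I ∧ K (univ.image (fun i => ω (I i))) ∧
      ∑ i, x (ω (I i)) < 0)
    (hbig : ((N : ℝ) * s) ^ 2 < (1 / (2 * (N : ℝ) ^ k)) ^ (s ^ N) * (U.card : ℝ)) :
    DF k s η K U := by
  intro x hx1 hx2 htile
  by_contra hcon
  rw [not_le] at hcon
  have hU0 : (0 : ℝ) < (U.card : ℝ) := by exact_mod_cast hU.card_pos
  have hN0 : (0 : ℝ) < (N : ℝ) := by exact_mod_cast hN
  have hks : (1 : ℝ) ≤ (k : ℝ) * s := by
    have : 1 * 1 ≤ k * s := Nat.mul_le_mul hk hs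
    exact_mod_cast this
  have hpow : (0 : ℝ) < (U.card : ℝ) ^ N := pow_pos hU0 N
  set A : (Fin k → Fin N) → Finset (Fin N → V) := fun I =>
    (Fintype.piFinset (fun _ : Fin N => U)).filter (fun ω => Function.Injective I ∧
      K (univ.image (fun i => ω (I i))) ∧ ∑ i, x (ω (I i)) < 0) with hA
  set C : Finset (Fin N → V) := (Fintype.piFinset (fun _ : Fin N => U)).filter
    (fun ω => 0 ≤ ∑ i, x (ω i)) with hC
  have hcover : Fintype.piFinset (fun _ : Fin N => U) ⊆ univ.biUnion A ∪ (B ∪ C) := by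
    intro ω hω
    by_contra hcon2
    rw [Finset.mem_union, Finset.mem_union, Finset.mem_biUnion] at hcon2
    push Not at hcon2
    obtain ⟨hcA, hcB, hcC⟩ := hcon2
    have hs' : ∑ i, x (ω i) < 0 := by
      by_contra h
      exact hcC (Finset.mem_filter.2 ⟨hω, not_lt.1 h⟩)
    obtain ⟨I, hI1, hI2, hI3⟩ := hedge ω hω hcB x hs'
    exact hcA I (Finset.mem_univ _) (Finset.mem_filter.2 ⟨hω, hI1, hI2, hI3⟩)
  have hCcard : (C.card : ℝ) ≤ 1 / 8 * (U.card : ℝ) ^ N := by
    have h3 := h1 (Fin N) V (fun _ => U) (fun _ v => x v) ((k : ℝ) * s) (η * N)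
      (fun _ => hU) (by linarith) (by positivity) (fun _ v => by
        rw [abs_le]
        exact ⟨by linarith [hx1 v], hx2 v⟩)
    have h4 : ∏ _i : Fin N, (U.card : ℝ) = (U.card : ℝ) ^ N := by simp
    rw [Fintype.card_fin, h4] at h3
    have h5 := h3.trans (mul_le_mul_of_nonneg_right hexp hpow.le)
    refine le_trans ?_ h5
    have h6 : C ⊆ (Fintype.piFinset (fun _ : Fin N => U)).filter (fun ω =>
        ∑ _i : Fin N, (∑ v ∈ U, x v) / (U.card : ℝ) + η * N ≤ ∑ i, x (ω i)) := by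
      intro ω hω
      rw [hC, Finset.mem_filter] at hω
      refine Finset.mem_filter.2 ⟨hω.1, le_trans ?_ hω.2⟩
      rw [Finset.sum_const, Finset.card_univ, Fintype.card_fin, nsmul_eq_mul]
      have h7 : (∑ v ∈ U, x v) / (U.card : ℝ) ≤ -η := by
        rw [div_le_iff₀ hU0]
        linarith
      have h8 := mul_le_mul_of_nonneg_left h7 hN0.le
      linarith
    exact_mod_cast Finset.card_le_card h6
  have hcardle : (U.card : ℝ) ^ N ≤ ∑ I, ((A I).card : ℝ) + ((B.card : ℝ) + (C.card : ℝ)) := by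
    have h3 := (Finset.card_le_card hcover).trans ((Finset.card_union_le _ _).trans
      (Nat.add_le_add Finset.card_biUnion_le (Finset.card_union_le _ _)))
    rw [Fintype.card_piFinset] at h3
    have h4 : ∏ _i : Fin N, U.card = U.card ^ N := by simp
    rw [h4] at h3
    exact_mod_cast h3
  have hAsum : (1 / 2) * (U.card : ℝ) ^ N ≤ ∑ I, ((A I).card : ℝ) := by linarith
  have hex : ∃ I, (1 / (2 * (N : ℝ) ^ k)) * (U.card : ℝ) ^ N ≤ ((A I).card : ℝ) := by
    by_contra hcon2
    push Not at hcon2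
    have : Nonempty (Fin N) := ⟨⟨0, hN⟩⟩
    have h3 : ∑ I : Fin k → Fin N, ((A I).card : ℝ) <
        ∑ I : Fin k → Fin N, (1 / (2 * (N : ℝ) ^ k)) * (U.card : ℝ) ^ N :=
      Finset.sum_lt_sum_of_nonempty Finset.univ_nonempty (fun I _ => hcon2 I)
    rw [Finset.sum_const, Finset.card_univ, Fintype.card_fun, Fintype.card_fin, Fintype.card_fin,
      nsmul_eq_mul] at h3
    have h4 : ((N ^ k : ℕ) : ℝ) * ((1 / (2 * (N : ℝ) ^ k)) * (U.card : ℝ) ^ N) =
        (1 / 2) * (U.card : ℝ) ^ N := by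
      push_cast
      field_simp
    rw [h4] at h3
    linarith
  obtain ⟨I, hI⟩ := hex
  have hAne : (A I).Nonempty := by
    rw [← Finset.card_pos]
    have : (0 : ℝ) < ((A I).card : ℝ) := lt_of_lt_of_le (by positivity) hI
    exact_mod_cast this
  obtain ⟨ω₀, hω₀⟩ := hAne
  rw [hA, Finset.mem_filter] at hω₀
  obtain ⟨T, hT1, hT2, hT3⟩ := blow_tile h2 (K := K) (x := x) hs (by positivity) hU I hω₀.2.1 (A I)
    (Finset.filter_subset _ _) (fun ω hω => by
      rw [hA, Finset.mem_filter] at hω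
      exact hω.2.2) hI hbig
  exact absurd (htile T hT1 hT2) (not_le.2 hT3)

end FTKL

/-- [FTK] -/
theorem ftk (h1 : S_HOEF) (h2 : S_BLOW) (h3 : S_SMP) (h4 : S_NES) (h5 : S_FRACK) : S_FTK := by
  classical
  intro k β hk hβ
  have hk0 : (0 : ℝ) < k := by
    have : 0 < k := by omega
    exact_mod_cast this
  obtain ⟨κ, γN, N₁, hκ, hγN, hNES⟩ := h4 k β (by omega) hβ
  obtain ⟨γF, N₂, hγF, hFR⟩ := h5 k κ (by omega) hκ
  set γ : ℝ := min γN (γF / 2) with hγdef
  have hγ : 0 < γ := lt_min hγN (by positivity)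
  have hγ1 : γ ≤ γN := min_le_left _ _
  have hγ2 : 2 * γ ≤ γF := by
    have : γ ≤ γF / 2 := min_le_right _ _
    linarith
  obtain ⟨N₃, hSMP⟩ := h3 k γ 0 (by omega) hγ
  refine ⟨γ, hγ, ?_⟩
  intro s η hs hη
  have hs0 : (0 : ℝ) < s := by
    have : 0 < s := hs
    exact_mod_cast this
  -- the size of the sample
  obtain ⟨N₄, hN₄⟩ := exists_nat_ge (3 * (16 * ((k : ℝ) * s) ^ 2) / η ^ 2)
  set N : ℕ := max (max N₁ N₂) (max N₃ (max N₄ 1)) with hNdef
  have hNN1 : N₁ ≤ N := (le_max_left _ _).trans (le_max_left _ _)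
  have hNN2 : N₂ ≤ N := (le_max_right _ _).trans (le_max_left _ _)
  have hNN3 : N₃ ≤ N := (le_max_left _ _).trans (le_max_right _ _)
  have hNN4 : N₄ ≤ N := ((le_max_left _ _).trans (le_max_right _ _)).trans (le_max_right _ _)
  have hN1 : 1 ≤ N := ((le_max_right _ _).trans (le_max_right _ _)).trans (le_max_right _ _)
  have hN0 : (0 : ℝ) < (N : ℝ) := by exact_mod_cast hN1
  obtain ⟨n₁, hn₁⟩ := hNES N hNN1
  obtain ⟨n₂, hn₂⟩ := hSMP N hNN3
  set c : ℝ := (1 / (2 * (N : ℝ) ^ k)) ^ (s ^ N) with hc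
  have hc0 : 0 < c := by positivity
  obtain ⟨n₃, hn₃⟩ := exists_nat_gt (((N : ℝ) * s) ^ 2 / c)
  refine ⟨max (max n₁ n₂) (max n₃ 1), ?_⟩
  intro V _ _ K U hK hU hPD hNE
  have hU1 : n₁ ≤ U.card := ((le_max_left _ _).trans (le_max_left _ _)).trans hU
  have hU2 : n₂ ≤ U.card := ((le_max_right _ _).trans (le_max_left _ _)).trans hU
  have hU3 : n₃ ≤ U.card := ((le_max_left _ _).trans (le_max_right _ _)).trans hU
  have hU4 : 1 ≤ U.card := ((le_max_right _ _).trans (le_max_right _ _)).trans hU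
  have hUne : U.Nonempty := Finset.card_pos.1 hU4
  let e : Fin 0 → V := fun z => z.elim0
  have hb1 := hn₁ V K U hK hU1 (FTKL.PD_mono hPD hγ1) hNE e
  have hb2 := hn₂ V K U hK hU2 hPD e (fun z => z.elim0)
  have hD := FTKL.dual h1 h2 (K := K) (U := U) (k := k) (s := s) (η := η) (N := N) (by omega) hs hη
    hN1 hUne (by
      have h6 : 3 * (16 * ((k : ℝ) * s) ^ 2) ≤ η ^ 2 * N := by
        have h7 : 3 * (16 * ((k : ℝ) * s) ^ 2) / η ^ 2 ≤ N := hN₄.trans (by exact_mod_cast hNN4)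
        rw [div_le_iff₀ (by positivity)] at h7
        linarith
      have h7 : -((η * N) ^ 2) / (16 * ((k : ℝ) * s) ^ 2 * N) ≤ -3 := by
        rw [div_le_iff₀ (by positivity)]
        have h8 := mul_le_mul_of_nonneg_right h6 hN0.le
        linarith
      have h8 : Real.exp (-((η * N) ^ 2) / (16 * ((k : ℝ) * s) ^ 2 * N)) ≤ Real.exp (-3) :=
        Real.exp_le_exp.2 h7
      refine h8.trans ?_
      rw [Real.exp_neg, inv_eq_one_div, div_le_div_iff₀ (Real.exp_pos 3) (by norm_num)]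
      have h9 : (2 : ℝ) ≤ Real.exp 1 := by
        have := Real.add_one_le_exp (1 : ℝ)
        linarith
      have h10 : Real.exp 3 = Real.exp 1 ^ 3 := by
        rw [← Real.exp_nat_mul]
        norm_num
      rw [h10]
      have h11 : (2 : ℝ) ^ 3 ≤ Real.exp 1 ^ 3 := pow_le_pow_left₀ (by norm_num) h9 3
      linarith)
    (((Fintype.piFinset (fun _ : Fin N => U)).filter (fun ω => ¬ (Function.Injective ω ∧
        (∀ x r, ω x ≠ e r) ∧ PD k (pl K ω e) (2 * γ) (lft N 0)))) ∪
      ((Fintype.piFinset (fun _ : Fin N => U)).filter (fun ω => ∃ Y : Finset (Fin N ⊕ Fin 0),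
        (1 / (k : ℝ) - κ) * (N : ℝ) ≤ (Y.card : ℝ) ∧
        ∀ y ∈ Y, ∀ z ∈ Y, y ≠ z → ¬ pl K ω e {y, z}))) (by
      have hb1' : 8 * (((Fintype.piFinset (fun _ : Fin N => U)).filter (fun ω =>
            ∃ Y : Finset (Fin N ⊕ Fin 0), (1 / (k : ℝ) - κ) * (N : ℝ) ≤ (Y.card : ℝ) ∧
            ∀ y ∈ Y, ∀ z ∈ Y, y ≠ z → ¬ pl K ω e {y, z})).card : ℝ) ≤ (U.card : ℝ) ^ N := hb1
      have hb2' : 8 * (((Fintype.piFinset (fun _ : Fin N => U)).filter (fun ω =>
            ¬ (Function.Injective ω ∧ (∀ x r, ω x ≠ e r) ∧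
            PD k (pl K ω e) (2 * γ) (lft N 0)))).card : ℝ) ≤ (U.card : ℝ) ^ N := hb2
      have h7 := Finset.card_union_le
        ((Fintype.piFinset (fun _ : Fin N => U)).filter (fun ω => ¬ (Function.Injective ω ∧
          (∀ x r, ω x ≠ e r) ∧ PD k (pl K ω e) (2 * γ) (lft N 0))))
        ((Fintype.piFinset (fun _ : Fin N => U)).filter (fun ω => ∃ Y : Finset (Fin N ⊕ Fin 0),
          (1 / (k : ℝ) - κ) * (N : ℝ) ≤ (Y.card : ℝ) ∧
          ∀ y ∈ Y, ∀ z ∈ Y, y ≠ z → ¬ pl K ω e {y, z}))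
      have h8 := (Nat.cast_le (α := ℝ)).2 h7
      rw [Nat.cast_add] at h8
      linarith)
    (by
      rintro ω hω hg x hx
      rw [Finset.mem_union, Finset.mem_filter, Finset.mem_filter] at hg
      push Not at hg
      have hg1 : PD k (pl K ω e) (2 * γ) (lft N 0) := by
        by_contra h
        exact absurd (hg.1 hω) (fun h' => h h'.2.2)
      have hg2 : ¬ ∃ Y : Finset (Fin N ⊕ Fin 0),
          (1 / (k : ℝ) - κ) * (N : ℝ) ≤ (Y.card : ℝ) ∧
          ∀ y ∈ Y, ∀ z ∈ Y, y ≠ z → ¬ pl K ω e {y, z} := by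
        rintro ⟨Y, hY1, hY2⟩
        obtain ⟨y, hy, z, hz, hyz, h⟩ := hg.2 hω Y hY1
        exact hY2 y hy z hz hyz h
      refine FTKL.exists_edge ω e x ?_ hx
      have hcard : Fintype.card (Fin N ⊕ Fin 0) = N := by simp
      refine hFR (Fin N ⊕ Fin 0) (pl K ω e) (FTKL.pl_cx hK ω e) (by rw [hcard]; exact hNN2) ?_ ?_
      · rw [← FTKL.lft_zero]
        exact FTKL.PD_mono hg1 hγ2
      · intro Y hY
        rw [hcard]
        by_contra h
        exact hg2 ⟨Y, not_lt.1 h, hY⟩)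
    (by
      have h6 : ((N : ℝ) * s) ^ 2 / c < (U.card : ℝ) :=
        hn₃.trans_le (by exact_mod_cast hU3)
      rw [div_lt_iff₀ hc0] at h6
      linarith)
  exact FTKL.of_dual (by omega) hs hD

end Pool.Agent.H48.TC
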