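import Pool.Agent.H48.TC.Stm

set_option autoImplicit false

namespace Pool.Agent.H48.TC

open Finset Pool.Agent.H48.PW Pool.Agent.Helper83K9.CF

namespace KK1L

variable {V : Type} [DecidableEq V]

theorem mem_ex {K : Finset V → Prop} {U T : Finset V} {v : V} :
    v ∈ ex K U T ↔ v ∈ U ∧ v ∉ T ∧ K (insert v T) := by
  classical
  unfold ex
  rw [mem_filter]

theorem mem_ce {K : Finset V → Prop} {U T : Finset V} {v : V} :
    v ∈ ce K U T ↔ v ∈ U ∧ (v ∈ T ∨ ¬ K (insert v T)) := by
  unfold ce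
  rw [mem_sdiff, mem_ex]
  tauto

theorem ex_sub (K : Finset V → Prop) (U T : Finset V) : ex K U T ⊆ U := fun _ h => (mem_ex.1 h).1

theorem ce_sub (K : Finset V → Prop) (U T : Finset V) : ce K U T ⊆ U := fun _ h => (mem_ce.1 h).1

theorem ce_card (K : Finset V → Prop) (U T : Finset V) :
    ((ce K U T).card : ℝ) = (U.card : ℝ) - ((ex K U T).card : ℝ) := by
  unfold ce
  rw [card_sdiff_of_subset (ex_sub K U T), Nat.cast_sub (card_le_card (ex_sub K U T))]

theorem ce_le {k : ℕ} {K : Finset V → Prop} {U : Finset V} {γ : ℝ} (hPD : PD k K γ U)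
    {T : Finset V} (hT : K T) (hc : T.card < k) :
    ((ce K U T).card : ℝ) ≤ (1 / (k : ℝ) + γ) * (U.card : ℝ) := by
  have h := hPD T hT hc
  rw [ce_card]
  linarith

/-- greedy extension -/
theorem ext {k : ℕ} {K : Finset V → Prop} {U : Finset V} {γ : ℝ} (hPD : PD k K γ U)
    (hpos : 0 < (1 - 1 / (k : ℝ) - γ) * (U.card : ℝ)) {T : Finset V} (hT : K T) (hTU : T ⊆ U)
    (j : ℕ) (hj : T.card ≤ j) (hjk : j ≤ k) :
    ∃ e : Finset V, T ⊆ e ∧ e ⊆ U ∧ K e ∧ e.card = j := by
  induction j, hj using Nat.le_induction with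
  | base => exact ⟨T, Subset.refl _, hTU, hT, rfl⟩
  | succ j hj ih =>
    obtain ⟨e, h1, h2, h3, h4⟩ := ih (by omega)
    have h5 := hPD e h3 (by omega)
    have h6 : (0 : ℝ) < ((ex K U e).card : ℝ) := lt_of_lt_of_le hpos h5
    have h7 : 0 < (ex K U e).card := by exact_mod_cast h6
    obtain ⟨v, hv⟩ := card_pos.1 h7
    obtain ⟨v1, v2, v3⟩ := mem_ex.1 hv
    exact ⟨insert v e, h1.trans (subset_insert _ _), insert_subset v1 h2, v3, by
      rw [card_insert_of_notMem v2, h4]⟩

/-- the negation of the conclusion -/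
def NoQ (k : ℕ) (K : Finset V → Prop) (U : Finset V) : Prop :=
  ¬ ∃ Q : Finset V, Q ⊆ U ∧ Q.card = k + 1 ∧ ∀ T : Finset V, T ⊆ Q → T.card ≤ k → K T

theorem cover {k : ℕ} (hk : 2 ≤ k) {K : Finset V → Prop} {U : Finset V} (hK : Cx k K)
    (hno : NoQ k K U) {e : Finset V} (he : K e) (heU : e ⊆ U) (hec : e.card = k) {w : V}
    (hw : w ∈ U) : ∃ u ∈ e, w ∈ ce K U (e.erase u) := by
  by_cases hwe : w ∈ e
  · have h1 : 1 < e.card := by omega
    obtain ⟨u, hu, huw⟩ := exists_mem_ne h1 w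
    exact ⟨u, hu, mem_ce.2 ⟨hw, Or.inl (mem_erase.2 ⟨huw.symm, hwe⟩)⟩⟩
  · by_contra hcon
    push Not at hcon
    apply hno
    refine ⟨insert w e, insert_subset hw heU, by rw [card_insert_of_notMem hwe, hec], ?_⟩
    intro T hT hTc
    by_cases hwT : w ∈ T
    · have h1 : T.erase w ⊆ e := by
        intro x hx
        obtain ⟨x1, x2⟩ := mem_erase.1 hx
        rcases mem_insert.1 (hT x2) with h | h
        · exact absurd h x1
        · exact h
      have h2 : (T.erase w).card < e.card := by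
        rw [card_erase_of_mem hwT, hec]
        omega
      obtain ⟨u, hu, huT⟩ := exists_mem_notMem_of_card_lt_card h2
      have h3 := hcon u hu
      rw [mem_ce] at h3
      push Not at h3
      have h4 := (h3 hw).2
      refine hK.sub _ _ h4 ?_
      intro x hx
      by_cases hxw : x = w
      · rw [hxw]; exact mem_insert_self _ _
      · refine mem_insert_of_mem (mem_erase.2 ⟨?_, h1 (mem_erase.2 ⟨hxw, hx⟩)⟩)
        rintro rfl
        exact huT (mem_erase.2 ⟨hxw, hx⟩)
    · refine hK.sub _ _ he ?_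
      intro x hx
      rcases mem_insert.1 (hT hx) with h | h
      · exact absurd (h ▸ hx) hwT
      · exact h

theorem kpos {k : ℕ} (hk : 2 ≤ k) : (0 : ℝ) < (k : ℝ) := by
  have : 0 < k := by omega
  exact_mod_cast this

theorem inter_le {k : ℕ} (hk : 2 ≤ k) {K : Finset V → Prop} {U : Finset V} {γ : ℝ} (hK : Cx k K)
    (hno : NoQ k K U) (hPD : PD k K γ U) {e : Finset V} (he : K e) (heU : e ⊆ U)
    (hec : e.card = k) {u u' : V} (hu : u ∈ e) (hu' : u' ∈ e) (huu : u ≠ u') :
    ((ce K U (e.erase u) ∩ ce K U (e.erase u')).card : ℝ) ≤ (k : ℝ) * γ * (U.card : ℝ) := by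
  set A : V → Finset V := fun x => ce K U (e.erase x) with hA
  have hAle : ∀ x ∈ e, ((A x).card : ℝ) ≤ (1 / (k : ℝ) + γ) * (U.card : ℝ) := by
    intro x hx
    refine ce_le hPD (hK.sub _ _ he (erase_subset _ _)) ?_
    rw [card_erase_of_mem hx, hec]
    omega
  have h1 : U ⊆ (A u ∪ A u') ∪ ((e.erase u).erase u').biUnion A := by
    intro w hw
    obtain ⟨x, hx, hxw⟩ := cover hk hK hno he heU hec hw
    by_cases h1 : x = u
    · subst h1
      exact mem_union_left _ (mem_union_left _ hxw)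
    · by_cases h2 : x = u'
      · subst h2
        exact mem_union_left _ (mem_union_right _ hxw)
      · exact mem_union_right _ (mem_biUnion.2 ⟨x, mem_erase.2 ⟨h2, mem_erase.2 ⟨h1, hx⟩⟩, hxw⟩)
  have h2 : (U.card : ℝ) ≤ ((A u ∪ A u').card : ℝ) +
      ∑ x ∈ (e.erase u).erase u', ((A x).card : ℝ) := by
    have h3 := (card_le_card h1).trans (card_union_le _ _)
    have h4 := card_biUnion_le (s := (e.erase u).erase u') (t := A)
    have h5 : U.card ≤ (A u ∪ A u').card + ∑ x ∈ (e.erase u).erase u', (A x).card := by omega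
    exact_mod_cast h5
  have h3 : ((A u ∪ A u').card : ℝ) + ((A u ∩ A u').card : ℝ) =
      ((A u).card : ℝ) + ((A u').card : ℝ) := by
    exact_mod_cast card_union_add_card_inter (A u) (A u')
  have h4 : ∑ x ∈ e, ((A x).card : ℝ) = ((A u).card : ℝ) + (((A u').card : ℝ) +
      ∑ x ∈ (e.erase u).erase u', ((A x).card : ℝ)) := by
    rw [← add_sum_erase e _ hu, ← add_sum_erase (e.erase u) _ (mem_erase.2 ⟨huu.symm, hu'⟩)]
  have h5 : ∑ x ∈ e, ((A x).card : ℝ) ≤ (k : ℝ) * ((1 / (k : ℝ) + γ) * (U.card : ℝ)) := by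
    have := sum_le_card_nsmul e (fun x => ((A x).card : ℝ)) _ hAle
    rw [hec, nsmul_eq_mul] at this
    exact this
  have hk0 := kpos hk
  have h6 : (k : ℝ) * ((1 / (k : ℝ) + γ) * (U.card : ℝ)) =
      (U.card : ℝ) + (k : ℝ) * γ * (U.card : ℝ) := by
    field_simp
  show ((A u ∩ A u').card : ℝ) ≤ _
  linarith

/-- data used throughout -/
structure Dat (k : ℕ) (K : Finset V → Prop) (U : Finset V) (γ : ℝ) : Prop where
  hk : 3 ≤ k
  hK : Cx k K
  hno : NoQ k K U
  hPD : PD k K γ U
  hpos : 0 < (1 - 1 / (k : ℝ) - γ) * (U.card : ℝ)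

theorem small {k : ℕ} {K : Finset V → Prop} {U : Finset V} {γ : ℝ} (h : Dat k K U γ)
    {T : Finset V} (hT : K T) (hTU : T ⊆ U) (hc : T.card + 2 ≤ k) :
    ((ce K U T).card : ℝ) ≤ (k : ℝ) * γ * (U.card : ℝ) := by
  obtain ⟨e, h1, h2, h3, h4⟩ := ext h.hPD h.hpos hT hTU k (by omega) le_rfl
  have h5 : 2 ≤ (e \ T).card := by
    rw [card_sdiff_of_subset h1, h4]
    omega
  obtain ⟨u, hu, u', hu', huu⟩ := one_lt_card.1 (by omega : 1 < (e \ T).card)
  have hk2 : 2 ≤ k := by have := h.hk; omega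
  rw [mem_sdiff] at hu hu'
  refine le_trans ?_ (inter_le hk2 h.hK h.hno h.hPD h3 h2 h4 hu.1 hu'.1 huu)
  have key : ∀ x : V, x ∉ T → ce K U T ⊆ ce K U (e.erase x) := by
    intro x hx v hv
    rw [mem_ce] at hv ⊢
    have hsub : T ⊆ e.erase x := fun y hy => mem_erase.2 ⟨fun hh => hx (hh ▸ hy), h1 hy⟩
    refine ⟨hv.1, ?_⟩
    rcases hv.2 with hv2 | hv2
    · exact Or.inl (hsub hv2)
    · exact Or.inr fun hh => hv2 (h.hK.sub _ _ hh (insert_subset_insert _ hsub))
  exact_mod_cast card_le_card (subset_inter (key u hu.2) (key u' hu'.2))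

theorem large {k : ℕ} {K : Finset V → Prop} {U : Finset V} {γ : ℝ} (h : Dat k K U γ)
    {T : Finset V} (hT : K T) (hTU : T ⊆ U) (hc : T.card + 1 = k) :
    (1 / (k : ℝ) - ((k : ℝ) - 1) * γ) * (U.card : ℝ) ≤ ((ce K U T).card : ℝ) := by
  have hk2 : 2 ≤ k := by have := h.hk; omega
  have h5 := h.hPD T hT (by omega)
  have h6 : (0 : ℝ) < ((ex K U T).card : ℝ) := lt_of_lt_of_le h.hpos h5
  have h7 : 0 < (ex K U T).card := by exact_mod_cast h6
  obtain ⟨u, hu⟩ := card_pos.1 h7
  obtain ⟨u1, u2, u3⟩ := mem_ex.1 hu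
  set e := insert u T with he
  have hec : e.card = k := by rw [he, card_insert_of_notMem u2, hc]
  have heU : e ⊆ U := insert_subset u1 hTU
  have hue : u ∈ e := mem_insert_self _ _
  have hTe : e.erase u = T := erase_insert u2
  set A : V → Finset V := fun x => ce K U (e.erase x) with hA
  have hAle : ∀ x ∈ e, ((A x).card : ℝ) ≤ (1 / (k : ℝ) + γ) * (U.card : ℝ) := by
    intro x hx
    refine ce_le h.hPD (h.hK.sub _ _ u3 (erase_subset _ _)) ?_
    rw [card_erase_of_mem hx, hec]
    omega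
  have h1 : U ⊆ A u ∪ (e.erase u).biUnion A := by
    intro w hw
    obtain ⟨x, hx, hxw⟩ := cover hk2 h.hK h.hno u3 heU hec hw
    by_cases h1 : x = u
    · subst h1
      exact mem_union_left _ hxw
    · exact mem_union_right _ (mem_biUnion.2 ⟨x, mem_erase.2 ⟨h1, hx⟩, hxw⟩)
  have h2 : (U.card : ℝ) ≤ ((A u).card : ℝ) + ∑ x ∈ e.erase u, ((A x).card : ℝ) := by
    have h3 := (card_le_card h1).trans (card_union_le _ _)
    have h4 := card_biUnion_le (s := e.erase u) (t := A)
    have h5 : U.card ≤ (A u).card + ∑ x ∈ e.erase u, (A x).card := by omega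
    exact_mod_cast h5
  have h3 : ∑ x ∈ e.erase u, ((A x).card : ℝ) ≤
      ((k : ℝ) - 1) * ((1 / (k : ℝ) + γ) * (U.card : ℝ)) := by
    have := sum_le_card_nsmul (e.erase u) (fun x => ((A x).card : ℝ)) _
      (fun x hx => hAle x (mem_of_mem_erase hx))
    rw [nsmul_eq_mul, card_erase_of_mem hue, hec, Nat.cast_sub (by omega), Nat.cast_one] at this
    exact this
  have hk0 := kpos hk2
  have hAu : A u = ce K U T := by rw [hA]; simp only [hTe]
  rw [hAu] at h2
  have h6 : ((k : ℝ) - 1) * ((1 / (k : ℝ) + γ) * (U.card : ℝ)) =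
      (U.card : ℝ) - 1 / (k : ℝ) * (U.card : ℝ) + ((k : ℝ) - 1) * γ * (U.card : ℝ) := by
    field_simp
  nlinarith

/-! ## pairs over `T₀` -/

/-- `A_{ca}` -/
noncomputable def A (K : Finset V → Prop) (U T₀ : Finset V) (c a : V) : Finset V :=
  ce K U (insert a (insert c T₀))

theorem A_comm (K : Finset V → Prop) (U T₀ : Finset V) (c a : V) : A K U T₀ c a = A K U T₀ a c := by
  unfold A
  rw [Finset.insert_comm]

/-- `T₀ ∪ {c, a}` is a member with `k - 1` elements -/
def M (k : ℕ) (K : Finset V → Prop) (T₀ : Finset V) (c a : V) : Prop :=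
  K (insert a (insert c T₀)) ∧ (insert a (insert c T₀)).card + 1 = k

theorem M_comm {k : ℕ} {K : Finset V → Prop} {T₀ : Finset V} {c a : V} (h : M k K T₀ c a) :
    M k K T₀ a c := by
  unfold M at h ⊢
  rwa [Finset.insert_comm]

/-- a defect -/
def Df (k : ℕ) (K : Finset V → Prop) (U T₀ : Finset V) (c a d b : V) : Prop :=
  M k K T₀ c a ∧ d ∈ A K U T₀ c a ∧ b ∈ A K U T₀ c d ∧ b ∉ A K U T₀ c a

theorem M_dist {k : ℕ} {K : Finset V → Prop} {T₀ : Finset V} (hT₀c : T₀.card + 3 = k) {c a : V}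
    (h : M k K T₀ c a) : c ∉ T₀ ∧ a ∉ T₀ ∧ a ≠ c ∧ a ∉ insert c T₀ := by
  obtain ⟨-, h2⟩ := h
  have h3 : (insert c T₀).card ≤ T₀.card + 1 := card_insert_le _ _
  have h4 : (insert a (insert c T₀)).card ≤ (insert c T₀).card + 1 := card_insert_le _ _
  have h5 : a ∉ insert c T₀ := by
    intro hh
    rw [insert_eq_of_mem hh] at h2
    omega
  have h6 : c ∉ T₀ := by
    intro hh
    rw [insert_eq_of_mem hh] at h3 h4 h2 h5
    omega
  refine ⟨h6, fun hh => h5 (mem_insert_of_mem hh), fun hh => h5 (hh ▸ mem_insert_self _ _), h5⟩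

open Classical in
theorem Df_count {k : ℕ} {K : Finset V → Prop} {U : Finset V} {γ : ℝ} (h : Dat k K U γ)
    (hγ : 0 ≤ γ) {T₀ : Finset V} (hT₀ : T₀ ⊆ U) (hT₀c : T₀.card + 3 = k) {c a b : V} (hc : c ∈ U)
    (ha : a ∈ U) (hb : b ∈ U) :
    ((U.filter (fun d => Df k K U T₀ c a d b)).card : ℝ) ≤ (k : ℝ) * γ * (U.card : ℝ) := by
  by_cases hM : M k K T₀ c a ∧ b ∉ A K U T₀ c a
  · obtain ⟨hM1, h3⟩ := hM
    obtain ⟨-, -, hac, -⟩ := M_dist hT₀c hM1
    obtain ⟨h1, h2⟩ := hM1
    have h3' := h3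
    unfold A at h3'
    rw [mem_ce] at h3'
    push Not at h3'
    obtain ⟨h4, h5⟩ := h3' hb
    have hk2 : 2 ≤ k := by have := h.hk; omega
    set e := insert b (insert a (insert c T₀)) with he
    have hec : e.card = k := by rw [he, card_insert_of_notMem h4, h2]
    have heU : e ⊆ U := insert_subset hb (insert_subset ha (insert_subset hc hT₀))
    have hba : b ≠ a := fun hh => h4 (hh ▸ mem_insert_self _ _)
    have e1 : e.erase b = insert a (insert c T₀) := erase_insert h4
    have haT : a ∉ insert c T₀ := (M_dist hT₀c ⟨h1, h2⟩).2.2.2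
    have e2 : e.erase a = insert b (insert c T₀) := by
      rw [he, Finset.insert_comm, erase_insert]
      rw [mem_insert]
      push Not
      exact ⟨hba.symm, haT⟩
    have hI := inter_le hk2 h.hK h.hno h.hPD h5 heU hec (u := b) (u' := a)
      (mem_insert_self _ _) (mem_insert_of_mem (mem_insert_self _ _)) hba
    refine le_trans ?_ hI
    have hsub : U.filter (fun d => Df k K U T₀ c a d b) ⊆
        ce K U (e.erase b) ∩ ce K U (e.erase a) := by
      intro d hd
      rw [mem_filter] at hd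
      obtain ⟨hdU, -, d1, d2, d3⟩ := hd
      rw [mem_inter, e1, e2]
      refine ⟨d1, ?_⟩
      unfold A at d2
      rw [mem_ce] at d2 ⊢
      refine ⟨hdU, ?_⟩
      rcases d2.2 with d4 | d4
      · exfalso
        rcases mem_insert.1 d4 with d5 | d5
        · exact d3 (d5 ▸ d1)
        · exact h4 (mem_insert_of_mem d5)
      · right
        rwa [Finset.insert_comm]
    exact_mod_cast card_le_card hsub
  · have h0 : U.filter (fun d => Df k K U T₀ c a d b) = ∅ := by
      rw [filter_eq_empty_iff]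
      rintro d - ⟨d1, -, -, d4⟩
      exact hM ⟨d1, d4⟩
    rw [h0, card_empty, Nat.cast_zero]
    positivity

/-- no `k + 1` vertices pairwise forming edges with `T₀ + t` -/
theorem noStar {k : ℕ} {K : Finset V → Prop} {U : Finset V} {γ : ℝ} (h : Dat k K U γ)
    {T₀ : Finset V} (hT₀ : T₀ ⊆ U) (hT₀c : T₀.card + 3 = k) {t : V} (ht : t ∈ U)
    (y : Fin (k + 1) → V) (hy : ∀ i, y i ∈ U)
    (hed : ∀ i j, i ≠ j → K (insert t (insert (y j) (insert (y i) T₀))) ∧
      (insert t (insert (y j) (insert (y i) T₀))).card = k) :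
    ((k : ℝ) + 1) * ((1 / (k : ℝ) - ((k : ℝ) - 1) * γ) * (U.card : ℝ) -
      (k : ℝ) * ((k : ℝ) * γ * (U.card : ℝ))) ≤ (U.card : ℝ) := by
  have hk2 : 2 ≤ k := by have := h.hk; omega
  set B : Fin (k + 1) → Finset V := fun i => ce K U (insert t (insert (y i) T₀)) with hB
  have hex : ∀ i : Fin (k + 1), ∃ j, j ≠ i := by
    intro i
    have : Nontrivial (Fin (k + 1)) := Fin.nontrivial_iff_two_le.2 (by omega)
    exact exists_ne i
  -- distinctness
  have hdis : ∀ i j, i ≠ j → y j ∉ insert t (insert (y i) T₀) ∧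
      (insert t (insert (y i) T₀)).card + 1 = k := by
    intro i j hij
    obtain ⟨h1, h2⟩ := hed i j hij
    have h3 : (insert (y i) T₀).card ≤ T₀.card + 1 := card_insert_le _ _
    have h4 : (insert t (insert (y i) T₀)).card ≤ (insert (y i) T₀).card + 1 := card_insert_le _ _
    have h5 : insert t (insert (y j) (insert (y i) T₀)) =
        insert (y j) (insert t (insert (y i) T₀)) := Finset.insert_comm _ _ _
    rw [h5] at h2
    have h6 : (insert (y j) (insert t (insert (y i) T₀))).card ≤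
      (insert t (insert (y i) T₀)).card + 1 := card_insert_le _ _
    refine ⟨?_, by omega⟩
    intro hh
    rw [insert_eq_of_mem hh] at h2
    omega
  have hlarge : ∀ i, (1 / (k : ℝ) - ((k : ℝ) - 1) * γ) * (U.card : ℝ) ≤ ((B i).card : ℝ) := by
    intro i
    obtain ⟨j, hj⟩ := hex i
    obtain ⟨h1, h2⟩ := hed i j hj.symm
    refine large h ?_ ?_ (hdis i j hj.symm).2
    · refine h.hK.sub _ _ h1 ?_
      exact insert_subset_insert _ (subset_insert _ _)
    · exact insert_subset ht (insert_subset (hy i) hT₀)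
  have hint : ∀ i j, i ≠ j → ((B i ∩ B j).card : ℝ) ≤ (k : ℝ) * γ * (U.card : ℝ) := by
    intro i j hij
    obtain ⟨h1, h2⟩ := hed i j hij
    obtain ⟨h3, h4⟩ := hdis i j hij
    obtain ⟨h3', h4'⟩ := hdis j i hij.symm
    set e := insert t (insert (y j) (insert (y i) T₀)) with he
    have heU : e ⊆ U := insert_subset ht (insert_subset (hy j) (insert_subset (hy i) hT₀))
    have e1 : e.erase (y j) = insert t (insert (y i) T₀) := by
      rw [he, Finset.insert_comm, erase_insert h3]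
    have e2 : e.erase (y i) = insert t (insert (y j) T₀) := by
      rw [he, Finset.insert_comm (y j) (y i) T₀, Finset.insert_comm, erase_insert h3']
    have hne : y j ≠ y i := by
      intro hh
      exact h3 (hh ▸ mem_insert_of_mem (mem_insert_self _ _))
    have hI := inter_le hk2 h.hK h.hno h.hPD h1 heU h2 (u := y j) (u' := y i)
      (mem_insert_of_mem (mem_insert_self _ _))
      (mem_insert_of_mem (mem_insert_of_mem (mem_insert_self _ _))) hne
    rw [e1, e2] at hI
    exact hI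
  -- disjoint parts
  set C : Fin (k + 1) → Finset V := fun i => B i \ (univ.erase i).biUnion B with hC
  have hCc : ∀ i, (1 / (k : ℝ) - ((k : ℝ) - 1) * γ) * (U.card : ℝ) -
      (k : ℝ) * ((k : ℝ) * γ * (U.card : ℝ)) ≤ ((C i).card : ℝ) := by
    intro i
    have h1 : B i ⊆ C i ∪ (univ.erase i).biUnion (fun j => B i ∩ B j) := by
      intro v hv
      by_cases h2 : v ∈ (univ.erase i).biUnion B
      · obtain ⟨j, hj, hvj⟩ := mem_biUnion.1 h2
        exact mem_union_right _ (mem_biUnion.2 ⟨j, hj, mem_inter.2 ⟨hv, hvj⟩⟩)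
      · exact mem_union_left _ (mem_sdiff.2 ⟨hv, h2⟩)
    have h2 : ((B i).card : ℝ) ≤ ((C i).card : ℝ) +
        ∑ j ∈ univ.erase i, ((B i ∩ B j).card : ℝ) := by
      have h3 := (card_le_card h1).trans (card_union_le _ _)
      have h4 := card_biUnion_le (s := univ.erase i) (t := fun j => B i ∩ B j)
      have h5 : (B i).card ≤ (C i).card + ∑ j ∈ univ.erase i, (B i ∩ B j).card := by omega
      exact_mod_cast h5
    have h3 : ∑ j ∈ univ.erase i, ((B i ∩ B j).card : ℝ) ≤
        (k : ℝ) * ((k : ℝ) * γ * (U.card : ℝ)) := by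
      have := sum_le_card_nsmul (univ.erase i) (fun j => ((B i ∩ B j).card : ℝ)) _
        (fun j hj => hint i j (mem_erase.1 hj).1.symm)
      rw [nsmul_eq_mul, card_erase_of_mem (mem_univ _), card_univ, Fintype.card_fin,
        Nat.add_sub_cancel] at this
      exact this
    have := hlarge i
    linarith
  have hdisj : ∀ i ∈ (univ : Finset (Fin (k + 1))), ∀ j ∈ (univ : Finset (Fin (k + 1))), i ≠ j →
      Disjoint (C i) (C j) := by
    intro i _ j _ hij
    rw [disjoint_left]
    intro v hv hv'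
    rw [hC] at hv hv'
    simp only [mem_sdiff, mem_biUnion, mem_erase, mem_univ, and_true, not_exists, not_and] at hv hv'
    exact hv.2 j hij.symm hv'.1
  have hU : ((univ : Finset (Fin (k + 1))).biUnion C).card ≤ U.card := by
    apply card_le_card
    intro v hv
    obtain ⟨i, -, hvi⟩ := mem_biUnion.1 hv
    exact ce_sub _ _ _ (mem_sdiff.1 hvi).1
  rw [card_biUnion hdisj] at hU
  have hU' : ∑ i : Fin (k + 1), ((C i).card : ℝ) ≤ (U.card : ℝ) := by exact_mod_cast hU
  have := card_nsmul_le_sum (univ : Finset (Fin (k + 1))) (fun i => ((C i).card : ℝ)) _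
    (fun i _ => hCc i)
  rw [nsmul_eq_mul, card_univ, Fintype.card_fin] at this
  push_cast at this
  linarith

/-! ## counting functions with a bad value at one coordinate -/

omit [DecidableEq V] in
open Classical in
theorem count_bad {I : Type} [Fintype I] [DecidableEq I] (U : Finset V) (E : (I → V) → Prop)
    (p : I) (μ : ℝ)
    (h : ∀ z : I → V, (∀ i, z i ∈ U) →
      ((U.filter (fun v => E (Function.update z p v))).card : ℝ) ≤ μ) :
    (U.card : ℝ) * (((Fintype.piFinset fun _ : I => U).filter E).card : ℝ) ≤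
      μ * (U.card : ℝ) ^ (Fintype.card I) := by
  set S := Fintype.piFinset fun _ : I => U with hS
  have hSc : (S.card : ℝ) = (U.card : ℝ) ^ (Fintype.card I) := by
    rw [hS, Fintype.card_piFinset, prod_const, card_univ]
    push_cast
    rfl
  have h1 : ∑ z ∈ S, (U.filter (fun v => E (Function.update z p v))).card =
      ∑ z ∈ S, (U.filter (fun _ => E z)).card := by
    rw [← card_sigma, ← card_sigma]
    apply card_nbij' (fun x => ⟨Function.update x.1 p x.2, x.1 p⟩)
      (fun x => ⟨Function.update x.1 p x.2, x.1 p⟩)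
    · rintro ⟨z, v⟩ hx
      simp only [coe_sigma, Set.mem_sigma_iff, mem_coe, hS, Fintype.mem_piFinset, mem_filter] at hx ⊢
      refine ⟨?_, hx.1 p, hx.2.2⟩
      intro i
      by_cases hi : i = p
      · subst hi; rw [Function.update_self]; exact hx.2.1
      · rw [Function.update_of_ne hi]; exact hx.1 i
    · rintro ⟨z, v⟩ hx
      simp only [coe_sigma, Set.mem_sigma_iff, mem_coe, hS, Fintype.mem_piFinset, mem_filter] at hx ⊢
      refine ⟨?_, hx.1 p, ?_⟩
      · intro i
        by_cases hi : i = p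
        · subst hi; rw [Function.update_self]; exact hx.2.1
        · rw [Function.update_of_ne hi]; exact hx.1 i
      · rw [Function.update_idem, Function.update_eq_self]
        exact hx.2.2
    · rintro ⟨z, v⟩ _
      simp
    · rintro ⟨z, v⟩ _
      simp
  have h2 : ∑ z ∈ S, (U.filter (fun _ => E z)).card = U.card * (S.filter E).card := by
    rw [card_filter, mul_sum]
    refine sum_congr rfl fun z _ => ?_
    by_cases hz : E z <;> simp [hz]
  have h3 : ((U.card * (S.filter E).card : ℕ) : ℝ) ≤ μ * (S.card : ℝ) := by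
    rw [← h2, ← h1]
    push_cast
    have := sum_le_card_nsmul S
      (fun z => ((U.filter (fun v => E (Function.update z p v))).card : ℝ)) μ
      (fun z hz => h z (by rw [hS, Fintype.mem_piFinset] at hz; exact hz))
    rw [nsmul_eq_mul] at this
    linarith
  rw [hSc] at h3
  push_cast at h3
  exact h3

/-! ## the tuples -/

/-- index type of the tuples: `x`, `t`, `y_0, ..., y_k` -/
abbrev Ix (k : ℕ) : Type := Bool ⊕ Fin (k + 1)

/-- the tuples which are counted -/
def Fg {k : ℕ} (K : Finset V → Prop) (U T₀ : Finset V) (z : Ix k → V) : Prop :=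
  z (Sum.inl false) ∈ ex K U T₀ ∧
  z (Sum.inr 0) ∈ ex K U (insert (z (Sum.inl false)) T₀) ∧
  (∀ i : Fin (k + 1), i ≠ 0 → z (Sum.inr i) ∈ A K U T₀ (z (Sum.inl false)) (z (Sum.inr 0))) ∧
  z (Sum.inl true) ∈ ex K U (insert (z (Sum.inr 0)) (insert (z (Sum.inl false)) T₀))

/-- the sets of values of the coordinates for given `x`, `y_0` -/
noncomputable def Wv {k : ℕ} (K : Finset V → Prop) (U T₀ : Finset V) (x y : V) : Ix k → Finset V
  | Sum.inl false => {x}
  | Sum.inl true => ex K U (insert y (insert x T₀))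
  | Sum.inr i => if i = 0 then {y} else A K U T₀ x y

open Classical in
theorem count_good {k : ℕ} (K : Finset V → Prop) (U T₀ : Finset V) (a b : ℝ) (ha : 0 ≤ a)
    (hb : 0 ≤ b) (h1 : a ≤ ((ex K U T₀).card : ℝ))
    (h2 : ∀ x ∈ ex K U T₀, a ≤ ((ex K U (insert x T₀)).card : ℝ))
    (h3 : ∀ x ∈ ex K U T₀, ∀ y ∈ ex K U (insert x T₀),
      a ≤ ((ex K U (insert y (insert x T₀))).card : ℝ))
    (h4 : ∀ x ∈ ex K U T₀, ∀ y ∈ ex K U (insert x T₀), b ≤ ((A K U T₀ x y).card : ℝ)) :
    a * (a * (a * b ^ k)) ≤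
      (((Fintype.piFinset fun _ : Ix k => U).filter (Fg K U T₀)).card : ℝ) := by
  set G := (ex K U T₀).sigma (fun x => (ex K U (insert x T₀)).sigma
    (fun y => Fintype.piFinset (Wv (k := k) K U T₀ x y))) with hG
  have hcard : G.card ≤ ((Fintype.piFinset fun _ : Ix k => U).filter (Fg K U T₀)).card := by
    apply card_le_card_of_injOn (fun x => x.2.2)
    · rintro ⟨x, y, z⟩ hx
      simp only [hG, coe_sigma, Set.mem_sigma_iff, mem_coe, Fintype.mem_piFinset] at hx
      obtain ⟨x1, x2, x3⟩ := hx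
      have z0 : z (Sum.inl false) = x := by
        have := x3 (Sum.inl false)
        simpa [Wv] using this
      have z1 : z (Sum.inr 0) = y := by
        have := x3 (Sum.inr 0)
        simpa [Wv] using this
      have z2 : z (Sum.inl true) ∈ ex K U (insert y (insert x T₀)) := x3 (Sum.inl true)
      have z3 : ∀ i : Fin (k + 1), i ≠ 0 → z (Sum.inr i) ∈ A K U T₀ x y := by
        intro i hi
        have := x3 (Sum.inr i)
        simpa [Wv, hi] using this
      simp only [coe_filter, Set.mem_ofPred_eq, Fintype.mem_piFinset]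
      refine ⟨?_, ?_, ?_, ?_, ?_⟩
      · rintro (c | i)
        · cases c
          · rw [z0]; exact ex_sub _ _ _ x1
          · exact ex_sub _ _ _ z2
        · by_cases hi : i = 0
          · rw [hi, z1]; exact ex_sub _ _ _ x2
          · exact ce_sub _ _ _ (z3 i hi)
      · rw [z0]; exact x1
      · rw [z0, z1]; exact x2
      · rw [z0, z1]; exact z3
      · rw [z0, z1]; exact z2
    · rintro ⟨x, y, z⟩ hx ⟨x', y', z'⟩ hx' hzz
      simp only [hG, coe_sigma, Set.mem_sigma_iff, mem_coe, Fintype.mem_piFinset] at hx hx'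
      simp only at hzz
      subst hzz
      have z0 : z (Sum.inl false) = x := by
        have := hx.2.2 (Sum.inl false)
        simpa [Wv] using this
      have z1 : z (Sum.inr 0) = y := by
        have := hx.2.2 (Sum.inr 0)
        simpa [Wv] using this
      have z0' : z (Sum.inl false) = x' := by
        have := hx'.2.2 (Sum.inl false)
        simpa [Wv] using this
      have z1' : z (Sum.inr 0) = y' := by
        have := hx'.2.2 (Sum.inr 0)
        simpa [Wv] using this
      have e1 : x = x' := z0.symm.trans z0'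
      have e2 : y = y' := z1.symm.trans z1'
      subst e1; subst e2
      rfl
  refine le_trans ?_ (by exact_mod_cast hcard : (G.card : ℝ) ≤ _)
  rw [hG, card_sigma]
  push_cast
  have hpi : ∀ x ∈ ex K U T₀, ∀ y ∈ ex K U (insert x T₀),
      a * b ^ k ≤ ((Fintype.piFinset (Wv (k := k) K U T₀ x y)).card : ℝ) := by
    intro x hx y hy
    rw [Fintype.card_piFinset]
    push_cast
    rw [Fintype.prod_sum_type, Fintype.prod_bool, Fin.prod_univ_succ]
    have e1 : (Wv (k := k) K U T₀ x y (Sum.inr 0)).card = 1 := by simp [Wv]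
    have e2 : ∀ i : Fin k, (Wv (k := k) K U T₀ x y (Sum.inr i.succ)) = A K U T₀ x y := by
      intro i
      simp [Wv, Fin.succ_ne_zero]
    have e3 : (Wv (k := k) K U T₀ x y (Sum.inl false)).card = 1 := by simp [Wv]
    have e4 : (Wv (k := k) K U T₀ x y (Sum.inl true)) = ex K U (insert y (insert x T₀)) := rfl
    simp only [e1, e2, e3, e4, prod_const, card_univ, Fintype.card_fin, Nat.cast_one, mul_one,
      one_mul]
    have := h3 x hx y hy
    have h5 := h4 x hx y hy
    gcongr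
  have hy : ∀ x ∈ ex K U T₀, a * (a * b ^ k) ≤
      (((ex K U (insert x T₀)).sigma
        (fun y => Fintype.piFinset (Wv (k := k) K U T₀ x y))).card : ℝ) := by
    intro x hx
    rw [card_sigma]
    push_cast
    have := card_nsmul_le_sum (ex K U (insert x T₀))
      (fun y => ((Fintype.piFinset (Wv (k := k) K U T₀ x y)).card : ℝ)) _ (hpi x hx)
    rw [nsmul_eq_mul] at this
    refine le_trans ?_ this
    have := h2 x hx
    gcongr
  have := card_nsmul_le_sum (ex K U T₀)
    (fun x => (((ex K U (insert x T₀)).sigma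
        (fun y => Fintype.piFinset (Wv (k := k) K U T₀ x y))).card : ℝ)) _ hy
  rw [nsmul_eq_mul] at this
  refine le_trans ?_ this
  gcongr

/-- the bad events -/
def Ev {k : ℕ} (K : Finset V → Prop) (U T₀ : Finset V) (s : Fin 5) (i j : Fin (k + 1))
    (z : Ix k → V) : Prop :=
  match s with
  | 0 => i ≠ 0 ∧ z (Sum.inl false) ∈ ex K U T₀ ∧
      z (Sum.inr i) ∈ ce K U (insert (z (Sum.inl false)) T₀)
  | 1 => i ≠ j ∧ z (Sum.inr i) = z (Sum.inr j)
  | 2 => i ≠ 0 ∧ j ≠ 0 ∧ Df k K U T₀ (z (Sum.inl false)) (z (Sum.inr i)) (z (Sum.inr 0))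
      (z (Sum.inr j))
  | 3 => i ≠ j ∧ Df k K U T₀ (z (Sum.inr i)) (z (Sum.inl false)) (z (Sum.inr j))
      (z (Sum.inl true))
  | 4 => i ≠ 0 ∧ Df k K U T₀ (z (Sum.inl false)) (z (Sum.inr 0)) (z (Sum.inr i))
      (z (Sum.inl true))

open Classical in
theorem Ev_count {k : ℕ} {K : Finset V → Prop} {U : Finset V} {γ : ℝ} (h : Dat k K U γ)
    (hγ : 0 ≤ γ) {T₀ : Finset V} (hT₀ : T₀ ⊆ U) (hT₀c : T₀.card + 3 = k)
    (h1 : 1 ≤ (k : ℝ) * γ * (U.card : ℝ)) (s : Fin 5) (i j : Fin (k + 1)) :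
    (U.card : ℝ) * (((Fintype.piFinset fun _ : Ix k => U).filter (Ev K U T₀ s i j)).card : ℝ) ≤
      ((k : ℝ) * γ * (U.card : ℝ)) * (U.card : ℝ) ^ (k + 3) := by
  have hI : Fintype.card (Ix k) = k + 3 := by
    rw [Fintype.card_sum, Fintype.card_bool, Fintype.card_fin]
    ring
  have hμ : 0 ≤ (k : ℝ) * γ * (U.card : ℝ) := by linarith
  rw [← hI]
  have hzero : ∀ p : V → Prop, (∀ v, ¬ p v) →
      ((U.filter p).card : ℝ) ≤ (k : ℝ) * γ * (U.card : ℝ) := by
    intro p hp
    rw [filter_eq_empty_iff.2 (fun v _ => hp v), card_empty, Nat.cast_zero]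
    exact hμ
  have hmono : ∀ p q : V → Prop, (∀ v, p v → q v) →
      ((U.filter q).card : ℝ) ≤ (k : ℝ) * γ * (U.card : ℝ) →
      ((U.filter p).card : ℝ) ≤ (k : ℝ) * γ * (U.card : ℝ) := by
    intro p q hpq hq
    refine le_trans ?_ hq
    exact_mod_cast card_le_card (fun v hv =>
      mem_filter.2 ⟨(mem_filter.1 hv).1, hpq v (mem_filter.1 hv).2⟩)
  fin_cases s
  · -- type 0
    refine count_bad U _ (Sum.inr i) _ ?_
    intro z hz
    have e0 : ∀ v, Function.update z (Sum.inr i) v (Sum.inl false) = z (Sum.inl false) :=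
      fun v => Function.update_of_ne (by simp) _ _
    by_cases hx : z (Sum.inl false) ∈ ex K U T₀
    · obtain ⟨x1, x2, x3⟩ := mem_ex.1 hx
      have := small h (T := insert (z (Sum.inl false)) T₀) x3 (insert_subset x1 hT₀) (by
        rw [card_insert_of_notMem x2]; omega)
      refine le_trans ?_ this
      have hsub : U.filter (fun v => Ev K U T₀ 0 i j (Function.update z (Sum.inr i) v)) ⊆
          ce K U (insert (z (Sum.inl false)) T₀) := by
        intro v hv
        rw [mem_filter] at hv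
        obtain ⟨-, -, -, v3⟩ := hv
        rw [e0, Function.update_self] at v3
        exact v3
      exact_mod_cast card_le_card hsub
    · apply hzero
      rintro v ⟨-, v2, -⟩
      rw [e0] at v2
      exact hx v2
  · -- type 1
    refine count_bad U _ (Sum.inr j) _ ?_
    intro z hz
    by_cases hij : i = j
    · apply hzero
      rintro v ⟨v1, -⟩
      exact v1 hij
    · refine le_trans ?_ h1
      have hsub : U.filter (fun v => Ev K U T₀ 1 i j (Function.update z (Sum.inr j) v)) ⊆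
          {z (Sum.inr i)} := by
        intro v hv
        rw [mem_filter] at hv
        obtain ⟨-, -, v2⟩ := hv
        rw [Function.update_self, Function.update_of_ne (by
          intro hh; exact hij (Sum.inr_injective hh))] at v2
        exact mem_singleton.2 v2.symm
      have := card_le_card hsub
      rw [card_singleton] at this
      exact_mod_cast this
  · -- type 2
    refine count_bad U _ (Sum.inr 0) _ ?_
    intro z hz
    by_cases hi : i = 0
    · apply hzero
      rintro v ⟨v1, -⟩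
      exact v1 hi
    by_cases hj : j = 0
    · apply hzero
      rintro v ⟨-, v1, -⟩
      exact v1 hj
    refine hmono _ _ ?_ (Df_count h hγ hT₀ hT₀c (hz (Sum.inl false)) (hz (Sum.inr i))
      (hz (Sum.inr j)))
    rintro v ⟨-, -, v3⟩
    rw [Function.update_self, Function.update_of_ne (by simp), Function.update_of_ne (by
      intro hh; exact hi (Sum.inr_injective hh)), Function.update_of_ne (by
      intro hh; exact hj (Sum.inr_injective hh))] at v3
    exact v3
  · -- type 3
    refine count_bad U _ (Sum.inr j) _ ?_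
    intro z hz
    by_cases hij : i = j
    · apply hzero
      rintro v ⟨v1, -⟩
      exact v1 hij
    refine hmono _ _ ?_ (Df_count h hγ hT₀ hT₀c (hz (Sum.inr i)) (hz (Sum.inl false))
      (hz (Sum.inl true)))
    rintro v ⟨-, v3⟩
    have e1 : Function.update z (Sum.inr j) v (Sum.inr i) = z (Sum.inr i) :=
      Function.update_of_ne (fun hh => hij (Sum.inr_injective hh)) _ _
    have e2 : Function.update z (Sum.inr j) v (Sum.inl false) = z (Sum.inl false) :=
      Function.update_of_ne (by simp) _ _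
    have e3 : Function.update z (Sum.inr j) v (Sum.inl true) = z (Sum.inl true) :=
      Function.update_of_ne (by simp) _ _
    rw [e1, e2, e3, Function.update_self] at v3
    exact v3
  · -- type 4
    refine count_bad U _ (Sum.inr i) _ ?_
    intro z hz
    by_cases hi : i = 0
    · apply hzero
      rintro v ⟨v1, -⟩
      exact v1 hi
    refine hmono _ _ ?_ (Df_count h hγ hT₀ hT₀c (hz (Sum.inl false)) (hz (Sum.inr 0))
      (hz (Sum.inl true)))
    rintro v ⟨-, v3⟩
    rw [Function.update_self, Function.update_of_ne (by simp), Function.update_of_ne (by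
      intro hh; exact hi (Sum.inr_injective hh).symm), Function.update_of_ne (by simp)] at v3
    exact v3

/-- a tuple without bad events contradicts `noStar` -/
theorem no_bad {k : ℕ} {K : Finset V → Prop} {U : Finset V} {T₀ : Finset V}
    (hT₀c : T₀.card + 3 = k) (z : Ix k → V) (hz : ∀ c, z c ∈ U) (hF : Fg K U T₀ z)
    (hE : ∀ s i j, ¬ Ev K U T₀ s i j z) (i j : Fin (k + 1)) (hij : i ≠ j) :
    K (insert (z (Sum.inl true)) (insert (z (Sum.inr j)) (insert (z (Sum.inr i)) T₀))) ∧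
    (insert (z (Sum.inl true)) (insert (z (Sum.inr j)) (insert (z (Sum.inr i)) T₀))).card = k := by
  obtain ⟨f1, f2, f3, f4⟩ := hF
  set x := z (Sum.inl false) with hx
  set t := z (Sum.inl true) with ht
  set y : Fin (k + 1) → V := fun i => z (Sum.inr i) with hy
  obtain ⟨x1, x2, x3⟩ := mem_ex.1 f1
  -- membership
  have hM : ∀ i, M k K T₀ x (y i) := by
    intro i
    by_cases hi : i = 0
    · subst hi
      obtain ⟨y1, y2, y3⟩ := mem_ex.1 f2
      refine ⟨y3, ?_⟩
      rw [card_insert_of_notMem y2, card_insert_of_notMem x2]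
      omega
    · have h1 := hE 0 i j
      have h2 : y i ∉ ce K U (insert x T₀) := fun hh => h1 ⟨hi, f1, hh⟩
      rw [mem_ce] at h2
      push Not at h2
      obtain ⟨h3, h4⟩ := h2 (hz _)
      refine ⟨h4, ?_⟩
      rw [card_insert_of_notMem h3, card_insert_of_notMem x2]
      omega
  have hyT : ∀ i, y i ∉ T₀ ∧ y i ≠ x := fun i =>
    ⟨(M_dist hT₀c (hM i)).2.1, (M_dist hT₀c (hM i)).2.2.1⟩
  have hne : ∀ i j, i ≠ j → y i ≠ y j := fun i j hij hh => hE 1 i j ⟨hij, hh⟩
  -- `y_j ∈ A x y_i`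
  have ha0 : ∀ i, i ≠ 0 → y 0 ∈ A K U T₀ x (y i) := by
    intro i hi
    have h1 := f3 i hi
    unfold A at h1 ⊢
    rw [mem_ce] at h1 ⊢
    refine ⟨hz _, Or.inr ?_⟩
    rcases h1.2 with h2 | h2
    · exfalso
      rcases mem_insert.1 h2 with h3 | h3
      · exact hne i 0 hi h3
      · rcases mem_insert.1 h3 with h4 | h4
        · exact (hyT i).2 h4
        · exact (hyT i).1 h4
    · rwa [Finset.insert_comm]
  have ha : ∀ i j, i ≠ j → y j ∈ A K U T₀ x (y i) := by
    intro i j hij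
    by_cases hi : i = 0
    · subst hi
      exact f3 j hij.symm
    by_cases hj : j = 0
    · subst hj
      exact ha0 i hi
    by_contra hcon
    exact hE 2 i j ⟨hi, hj, hM i, ha0 i hi, f3 j hj, hcon⟩
  -- `t ∉ A x y_0`
  have ht0 : t ∉ A K U T₀ x (y 0) := by
    intro hh
    unfold A at hh
    rw [mem_ce] at hh
    obtain ⟨-, t2, t3⟩ := mem_ex.1 f4
    rcases hh.2 with h2 | h2
    · exact t2 h2
    · exact h2 t3
  have htA : t ∉ A K U T₀ (y i) (y j) := by
    intro hh
    have h1 : t ∈ A K U T₀ (y i) x := by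
      by_contra hcon
      refine hE 3 i j ⟨hij, M_comm (hM i), ?_, hh, hcon⟩
      rw [A_comm]
      exact ha i j hij
    have h2 : t ∈ A K U T₀ x (y i) := by rwa [A_comm]
    by_cases hi : i = 0
    · subst hi
      exact ht0 h2
    · exact hE 4 i j ⟨hi, hM 0, f3 i hi, h2, ht0⟩
  unfold A at htA
  rw [mem_ce] at htA
  push Not at htA
  obtain ⟨h1, h2⟩ := htA (hz _)
  refine ⟨h2, ?_⟩
  have h3 : y j ∉ insert (y i) T₀ := by
    rw [mem_insert]
    push Not
    exact ⟨(hne i j hij).symm, (hyT j).1⟩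
  rw [card_insert_of_notMem h1, card_insert_of_notMem h3, card_insert_of_notMem (hyT i).1]
  omega

/-- the constants -/
theorem consts (k : ℕ) (hk : 3 ≤ k) : ∃ m : ℝ, 0 < m ∧ m ≤ 1 / 6 ∧ m * (2 * (k : ℝ)) ≤ 1 ∧
    ((k : ℝ) + 1) ^ 2 * m * (k : ℝ) < 1 ∧
    5 * ((k : ℝ) + 1) ^ 2 * m * (8 * (2 * (k : ℝ)) ^ k) < 1 := by
  have hk3 : (3 : ℝ) ≤ (k : ℝ) := by exact_mod_cast hk
  have hP1 : 1 ≤ (2 * (k : ℝ)) ^ k := one_le_pow₀ (by linarith)
  generalize (2 * (k : ℝ)) ^ k = P at hP1 ⊢
  generalize (k : ℝ) = c at hk3 ⊢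
  have h0 : 0 < 80 * (c + 1) ^ 4 * P := by positivity
  have hA : 16 * (c + 1) ^ 2 ≤ (c + 1) ^ 4 := by
    have h1 : 16 ≤ (c + 1) ^ 2 := by nlinarith
    have h2 : (c + 1) ^ 4 = (c + 1) ^ 2 * (c + 1) ^ 2 := by ring
    rw [h2]
    exact mul_le_mul_of_nonneg_right h1 (by positivity)
  have hB : (c + 1) ^ 2 * c ≤ (c + 1) ^ 4 := by
    have h1 : c ≤ (c + 1) ^ 2 := by nlinarith
    have h2 : (c + 1) ^ 4 = (c + 1) ^ 2 * (c + 1) ^ 2 := by ring
    rw [h2]
    exact mul_le_mul_of_nonneg_left h1 (by positivity)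
  have hC : 256 ≤ (c + 1) ^ 4 := by
    have h1 : 16 ≤ (c + 1) ^ 2 := by nlinarith
    linarith
  have hD : (c + 1) ^ 4 ≤ (c + 1) ^ 4 * P := le_mul_of_one_le_right (by positivity) hP1
  refine ⟨1 / (80 * (c + 1) ^ 4 * P), by positivity, ?_, ?_, ?_, ?_⟩
  · rw [div_le_div_iff₀ h0 (by norm_num)]
    nlinarith
  · rw [div_mul_eq_mul_div, div_le_iff₀ h0]
    nlinarith
  · rw [mul_one_div, div_mul_eq_mul_div, div_lt_iff₀ h0]
    nlinarith
  · rw [mul_one_div, div_mul_eq_mul_div, div_lt_iff₀ h0]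
    have h1 : 5 * (c + 1) ^ 2 * (8 * P) = 40 * ((c + 1) ^ 2 * P) := by ring
    rw [h1]
    have h2 : (c + 1) ^ 2 * P ≤ (c + 1) ^ 4 * P := by
      apply mul_le_mul_of_nonneg_right _ (by linarith)
      nlinarith [sq_nonneg (c + 1)]
    nlinarith

theorem final_arith (n m P c : ℝ) (a b g : ℝ) (j : ℕ) (hn : 0 < n) (hP : 0 < P)
    (hc : 5 * (c + 1) ^ 2 * m * (8 * P) < 1)
    (ha : n * a = n ^ (j + 4) / (8 * P)) (hgood : a ≤ g) (hb : b = 5 * ((c + 1) * (c + 1)))
    (h : n * g ≤ b * (m * n * n ^ (j + 3))) : False := by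
  have h4 := (mul_le_mul_of_nonneg_left hgood hn.le).trans h
  rw [ha, hb] at h4
  have h6 : 5 * ((c + 1) * (c + 1)) * (m * n * n ^ (j + 3)) =
      n ^ (j + 4) * (5 * (c + 1) ^ 2 * m) := by ring
  rw [h6, div_eq_mul_inv] at h4
  have h7 := le_of_mul_le_mul_left h4 (by positivity)
  have h8 : (8 * P)⁻¹ * (8 * P) ≤ (5 * (c + 1) ^ 2 * m) * (8 * P) :=
    mul_le_mul_of_nonneg_right h7 (by positivity)
  rw [inv_mul_cancel₀ (by positivity)] at h8
  linarith

theorem prod_arith (n c : ℝ) (k : ℕ) (hc : 0 < c) :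
    n * (n / 2 * (n / 2 * (n / 2 * (n / (2 * c)) ^ k))) = n ^ (k + 4) / (8 * (2 * c) ^ k) := by
  rw [div_pow]
  have : (2 * c) ^ k ≠ 0 := by positivity
  field_simp
  ring

theorem star_arith (n m c γ : ℝ) (hc : 0 < c) (hn : 0 < n) (h1 : (c - 1) * γ ≤ m)
    (h2 : (c + 1) ^ 2 * m * c < 1)
    (h : (c + 1) * ((1 / c - (c - 1) * γ) * n - c * (m * n)) ≤ n) : False := by
  have h3 : (c + 1) * ((1 / c - m) * n - c * (m * n)) ≤ n := by
    refine le_trans (mul_le_mul_of_nonneg_left ?_ (by linarith)) h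
    have : (1 / c - m) * n ≤ (1 / c - (c - 1) * γ) * n :=
      mul_le_mul_of_nonneg_right (by linarith) hn.le
    linarith
  have h4 : (c + 1) * ((1 / c - m) * n - c * (m * n)) * c =
      n * c + (1 - (c + 1) ^ 2 * m * c) * n := by
    field_simp
    ring
  have h5 : (c + 1) * ((1 / c - m) * n - c * (m * n)) * c ≤ n * c :=
    mul_le_mul_of_nonneg_right h3 hc.le
  rw [h4] at h5
  have h6 : 0 < (1 - (c + 1) ^ 2 * m * c) * n := mul_pos (by linarith) hn
  linarith

end KK1L

open KK1L in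
theorem kk1 : S_KK1 := by
  intro k hk
  obtain ⟨m, hm0, hm2, hm3, hm4, hm5⟩ := consts k hk
  have hk3 : (3 : ℝ) ≤ (k : ℝ) := by exact_mod_cast hk
  have hk0 : (0 : ℝ) < (k : ℝ) := by linarith
  obtain ⟨γ, hγ⟩ : ∃ γ : ℝ, γ = m / (k : ℝ) := ⟨_, rfl⟩
  have hγ0 : 0 < γ := by rw [hγ]; positivity
  have hkγ : (k : ℝ) * γ = m := by rw [hγ]; field_simp
  refine ⟨γ, ⌈1 / m⌉₊ + 1, hγ0, ?_⟩
  intro V _ _ K U hK hn hPD
  by_contra hno
  have hγm : γ ≤ m := by nlinarith
  obtain ⟨n, hnr⟩ : ∃ n : ℝ, n = (U.card : ℝ) := ⟨_, rfl⟩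
  have hn1 : 1 / m ≤ n := by
    have h1 : 1 / m ≤ (⌈1 / m⌉₊ : ℝ) := Nat.le_ceil _
    have h2 : ((⌈1 / m⌉₊ : ℕ) : ℝ) ≤ n := by
      rw [hnr]
      have : ⌈1 / m⌉₊ ≤ U.card := by omega
      exact_mod_cast this
    linarith
  have hn0 : 0 < n := lt_of_lt_of_le (by positivity) hn1
  have hmn : 1 ≤ m * n := by
    rw [div_le_iff₀ hm0] at hn1
    linarith
  have hk13 : 1 / (k : ℝ) ≤ 1 / 3 := by
    apply one_div_le_one_div_of_le (by norm_num) hk3
  have hhalf : 1 / 2 ≤ 1 - 1 / (k : ℝ) - γ := by linarith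
  have D : Dat k K U γ := ⟨hk, hK, hno, hPD, by
    rw [← hnr]
    exact mul_pos (by linarith) hn0⟩
  obtain ⟨T₀, -, hT₀U, hT₀K, hT₀c⟩ := ext hPD D.hpos hK.emp (empty_subset U) (k - 3)
    (by rw [card_empty]; omega) (by omega)
  have hT₀c' : T₀.card + 3 = k := by omega
  have hexl : ∀ T : Finset V, K T → T.card < k → n / 2 ≤ ((ex K U T).card : ℝ) := by
    intro T hT hTc
    have := hPD T hT hTc
    rw [← hnr] at this
    nlinarith
  have hα : 1 / (2 * (k : ℝ)) ≤ 1 / (k : ℝ) - ((k : ℝ) - 1) * γ := by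
    have h1 : ((k : ℝ) - 1) * γ ≤ m := by nlinarith
    have h2 : m ≤ 1 / (2 * (k : ℝ)) := by
      rw [le_div_iff₀ (by positivity)]
      exact hm3
    have h3 : 1 / (k : ℝ) = 1 / (2 * (k : ℝ)) + 1 / (2 * (k : ℝ)) := by
      rw [← add_div, div_eq_div_iff (by positivity) (by positivity)]
      ring
    linarith
  classical
  have hgood := count_good (k := k) K U T₀ (n / 2) (n / (2 * (k : ℝ))) (by positivity)
    (by positivity) (hexl T₀ hT₀K (by omega)) (by
      intro x hx
      obtain ⟨x1, x2, x3⟩ := mem_ex.1 hx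
      exact hexl _ x3 (by rw [card_insert_of_notMem x2]; omega)) (by
      intro x hx y hy
      obtain ⟨x1, x2, x3⟩ := mem_ex.1 hx
      obtain ⟨y1, y2, y3⟩ := mem_ex.1 hy
      exact hexl _ y3 (by rw [card_insert_of_notMem y2, card_insert_of_notMem x2]; omega)) (by
      intro x hx y hy
      obtain ⟨x1, x2, x3⟩ := mem_ex.1 hx
      obtain ⟨y1, y2, y3⟩ := mem_ex.1 hy
      have := large D y3 (insert_subset y1 (insert_subset x1 hT₀U)) (by
        rw [card_insert_of_notMem y2, card_insert_of_notMem x2]; omega)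
      unfold KK1L.A
      refine le_trans ?_ this
      have h5 : n / (2 * (k : ℝ)) = 1 / (2 * (k : ℝ)) * n := by ring
      rw [h5, ← hnr]
      exact mul_le_mul_of_nonneg_right hα hn0.le)
  -- a tuple without bad events
  have hex : ∃ z ∈ (Fintype.piFinset fun _ : Ix k => U).filter (Fg K U T₀),
      ∀ s i j, ¬ Ev K U T₀ s i j z := by
    by_contra hcon
    push Not at hcon
    have hsub : (Fintype.piFinset fun _ : Ix k => U).filter (Fg K U T₀) ⊆
        (univ : Finset (Fin 5 × Fin (k + 1) × Fin (k + 1))).biUnion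
          (fun q => (Fintype.piFinset fun _ : Ix k => U).filter (Ev K U T₀ q.1 q.2.1 q.2.2)) := by
      intro z hz
      obtain ⟨s, i, j, h1⟩ := hcon z hz
      rw [mem_biUnion]
      exact ⟨(s, i, j), mem_univ _, mem_filter.2 ⟨(mem_filter.1 hz).1, h1⟩⟩
    have h1 := (card_le_card hsub).trans card_biUnion_le
    have h2 : (((Fintype.piFinset fun _ : Ix k => U).filter (Fg K U T₀)).card : ℝ) ≤
        ∑ q : Fin 5 × Fin (k + 1) × Fin (k + 1),
          (((Fintype.piFinset fun _ : Ix k => U).filter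
            (Ev K U T₀ q.1 q.2.1 q.2.2)).card : ℝ) := by exact_mod_cast h1
    have h3 : n * (((Fintype.piFinset fun _ : Ix k => U).filter (Fg K U T₀)).card : ℝ) ≤
        ∑ q : Fin 5 × Fin (k + 1) × Fin (k + 1), (m * n) * n ^ (k + 3) := by
      refine (mul_le_mul_of_nonneg_left h2 hn0.le).trans ?_
      rw [mul_sum]
      apply sum_le_sum
      intro q _
      have := Ev_count D hγ0.le hT₀U hT₀c' (by rw [hkγ, ← hnr]; exact hmn) q.1 q.2.1 q.2.2
      rw [hkγ, ← hnr] at this
      exact this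
    rw [sum_const, card_univ, Fintype.card_prod, Fintype.card_prod, Fintype.card_fin,
      Fintype.card_fin, nsmul_eq_mul] at h3
    exact final_arith n m ((2 * (k : ℝ)) ^ k) k _ _ _ k hn0 (by positivity) hm5
      (prod_arith n k k hk0) hgood (by push_cast; ring) h3
  obtain ⟨z, hz, hzE⟩ := hex
  rw [mem_filter, Fintype.mem_piFinset] at hz
  have hst := noStar D hT₀U hT₀c' (hz.1 (Sum.inl true)) (fun i => z (Sum.inr i))
    (fun i => hz.1 _) (fun i j hij => no_bad hT₀c' z hz.1 hz.2 hzE i j hij)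
  rw [hkγ, ← hnr] at hst
  exact star_arith n m k γ hk0 hn0 (by nlinarith) hm4 hst

end Pool.Agent.H48.TC
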