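import Pool.Agent.H48.TC.Basic
import Pool.Agent.H48.PW.TRANS

/-!
[NES] non-extremality of a random sample.
-/

set_option autoImplicit false

namespace Pool.Agent.H48.TC

open Finset Pool.Agent.H48.PW Pool.Agent.Helper83K9.CF

namespace NESL

/-- Hoeffding's inequality with the coordinates of `T` fixed -/
theorem fixT (h1 : S_HOEF) {ι V : Type} [Fintype ι] [DecidableEq ι] [DecidableEq V]
    (U : Finset V) (hU : U.Nonempty) (T : Finset ι) (F : (ι → V) → ι → V → ℝ)
    (hdep : ∀ ω ω' : ι → V, (∀ i ∈ T, ω i = ω' i) → F ω = F ω') (hF : ∀ ω i v, |F ω i v| ≤ 1)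
    (hE : ∀ ω i, ∑ v ∈ U, F ω i v ≤ 0) (dev A : ℝ) (hdev : 0 < dev)
    (hA : (Fintype.card ι : ℝ) ≤ A) :
    (((Fintype.piFinset (fun _ : ι => U)).filter
      (fun ω => (T.card : ℝ) + dev ≤ ∑ i, F ω i (ω i))).card : ℝ) ≤
      Real.exp (-(dev ^ 2) / (16 * A)) * (U.card : ℝ) ^ Fintype.card ι := by
  classical
  set P := Fintype.piFinset (fun _ : ι => U) with hP
  set Bad := P.filter (fun ω => (T.card : ℝ) + dev ≤ ∑ i, F ω i (ω i)) with hBad
  set S : (ι → V) → ι → Finset V := fun ω i => if i ∈ T then {ω i} else U with hS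
  set M : ℝ := ∏ i : ι, (if i ∈ T then (1 : ℝ) else (U.card : ℝ)) with hM
  have hUpos : (0 : ℝ) < (U.card : ℝ) := by exact_mod_cast hU.card_pos
  have hMpos : 0 < M := by
    apply Finset.prod_pos
    intro i _
    split_ifs
    · exact one_pos
    · exact hUpos
  have hSM : ∀ ω, ∏ i, ((S ω i).card : ℝ) = M := by
    intro ω
    apply Finset.prod_congr rfl
    intro i _
    simp only [hS]
    split_ifs
    · simp
    · rfl
  have hPc : (P.card : ℝ) = (U.card : ℝ) ^ Fintype.card ι := by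
    rw [hP, Fintype.card_piFinset, Finset.prod_const, Finset.card_univ]; push_cast; rfl
  have hSne : ∀ ω i, (S ω i).Nonempty := by
    intro ω i
    simp only [hS]
    split_ifs
    · exact singleton_nonempty _
    · exact hU
  have hL : ∀ ω₀ ∈ P, ((Bad.filter (fun ω => ∀ i ∈ T, ω i = ω₀ i)).card : ℝ) ≤
      Real.exp (-(dev ^ 2) / (16 * A)) * M := by
    intro ω₀ _
    rw [← hSM ω₀]
    refine le_trans ?_ (TRANSL.hoef h1 (S ω₀) (F ω₀) (T.card : ℝ) dev A (hSne ω₀) hdev hA
      (hF ω₀) ?_)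
    · exact_mod_cast Finset.card_le_card (by
        intro ω hω
        rw [mem_filter, hBad, mem_filter] at hω
        obtain ⟨⟨h2, h3⟩, h4⟩ := hω
        rw [mem_filter]
        refine ⟨?_, by rw [hdep ω ω₀ h4] at h3; exact h3⟩
        rw [hP, Fintype.mem_piFinset] at h2
        rw [Fintype.mem_piFinset]
        intro i
        simp only [hS]
        split_ifs with hi
        · rw [mem_singleton]; exact h4 i hi
        · exact h2 i)
    · have h5 : ∀ i, (∑ v ∈ S ω₀ i, F ω₀ i v) / ((S ω₀ i).card : ℝ) ≤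
          if i ∈ T then (1 : ℝ) else 0 := by
        intro i
        simp only [hS]
        split_ifs with hi
        · rw [sum_singleton, card_singleton, Nat.cast_one, div_one]
          exact (le_abs_self _).trans (hF _ _ _)
        · exact div_nonpos_of_nonpos_of_nonneg (hE _ _) hUpos.le
      refine (Finset.sum_le_sum (fun i _ => h5 i)).trans ?_
      rw [Finset.sum_ite_mem, univ_inter, Finset.sum_const, nsmul_eq_mul, mul_one]
  have hR : ∀ ω ∈ Bad, ((P.filter (fun ω₀ => ∀ i ∈ T, ω i = ω₀ i)).card : ℝ) = M := by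
    intro ω hω
    have hωP : ω ∈ P := (mem_filter.mp hω).1
    have h2 : P.filter (fun ω₀ => ∀ i ∈ T, ω i = ω₀ i) = Fintype.piFinset (S ω) := by
      ext ω₀
      rw [mem_filter, hP, Fintype.mem_piFinset, Fintype.mem_piFinset]
      constructor
      · rintro ⟨h3, h4⟩ i
        simp only [hS]
        split_ifs with hi
        · rw [mem_singleton]; exact (h4 i hi).symm
        · exact h3 i
      · intro h3
        refine ⟨fun i => ?_, fun i hi => ?_⟩
        · have h4 := h3 i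
          simp only [hS] at h4
          split_ifs at h4 with hi
          · rw [mem_singleton] at h4
            rw [h4]
            exact (Fintype.mem_piFinset.mp hωP) i
          · exact h4
        · have h4 := h3 i
          simp only [hS] at h4
          rw [if_pos hi, mem_singleton] at h4
          exact h4.symm
    rw [h2, Fintype.card_piFinset]
    push_cast
    exact hSM ω
  have hdc := Finset.sum_card_bipartiteAbove_eq_sum_card_bipartiteBelow
    (s := P) (t := Bad) (fun ω₀ ω : ι → V => ∀ i ∈ T, ω i = ω₀ i)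
  have hdc' : ∑ ω₀ ∈ P, ((Bad.filter (fun ω => ∀ i ∈ T, ω i = ω₀ i)).card : ℝ) =
      ∑ ω ∈ Bad, ((P.filter (fun ω₀ => ∀ i ∈ T, ω i = ω₀ i)).card : ℝ) := by
    exact_mod_cast hdc
  have h6 : (Bad.card : ℝ) * M ≤ (P.card : ℝ) * (Real.exp (-(dev ^ 2) / (16 * A)) * M) := by
    calc (Bad.card : ℝ) * M
        = ∑ ω ∈ Bad, ((P.filter (fun ω₀ => ∀ i ∈ T, ω i = ω₀ i)).card : ℝ) := by
          rw [Finset.sum_congr rfl hR, Finset.sum_const, nsmul_eq_mul]
      _ = ∑ ω₀ ∈ P, ((Bad.filter (fun ω => ∀ i ∈ T, ω i = ω₀ i)).card : ℝ) := hdc'.symm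
      _ ≤ ∑ ω₀ ∈ P, Real.exp (-(dev ^ 2) / (16 * A)) * M := Finset.sum_le_sum hL
      _ = _ := by rw [Finset.sum_const, nsmul_eq_mul]
  rw [hPc] at h6
  have h7 : (Bad.card : ℝ) * M ≤
      (Real.exp (-(dev ^ 2) / (16 * A)) * (U.card : ℝ) ^ Fintype.card ι) * M := by
    linarith
  exact le_of_mul_le_mul_right h7 hMpos

/-- centred indicator -/
noncomputable def cf {V : Type} [DecidableEq V] (U B : Finset V) (v : V) : ℝ :=
  (if v ∈ B then 1 else 0) - (B.card : ℝ) / (U.card : ℝ)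

section

variable {V : Type} [DecidableEq V] {U B : Finset V}

theorem cf_abs (hB : B ⊆ U) (v : V) : |cf U B v| ≤ 1 := by
  have h1 : (B.card : ℝ) / (U.card : ℝ) ≤ 1 := by
    apply div_le_one_of_le₀ _ (Nat.cast_nonneg _)
    exact_mod_cast Finset.card_le_card hB
  have h2 : 0 ≤ (B.card : ℝ) / (U.card : ℝ) := by positivity
  rw [cf, abs_le]
  split_ifs <;> constructor <;> linarith

theorem cf_sum (hB : B ⊆ U) (hU : U.Nonempty) : ∑ v ∈ U, cf U B v = 0 := by
  have hUpos : (0 : ℝ) < (U.card : ℝ) := by exact_mod_cast hU.card_pos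
  simp only [cf]
  rw [Finset.sum_sub_distrib, Finset.sum_ite_mem, Finset.inter_eq_right.mpr hB, Finset.sum_const,
    Finset.sum_const, nsmul_eq_mul, nsmul_eq_mul, mul_one, mul_div_cancel₀ _ hUpos.ne', sub_self]

theorem cf_total {N : ℕ} (ω : Fin N → V) : ∑ i, cf U B (ω i) =
    ((univ.filter (fun i => ω i ∈ B)).card : ℝ) - (N : ℝ) * ((B.card : ℝ) / (U.card : ℝ)) := by
  simp only [cf]
  rw [Finset.sum_sub_distrib, Finset.sum_const, Finset.card_univ, Fintype.card_fin, nsmul_eq_mul,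
    Finset.card_filter]
  push_cast
  rfl

theorem ev (h1 : S_HOEF) (hU : U.Nonempty) (N : ℕ) (B : V → V → Finset V)
    (hB : ∀ a b, B a b ⊆ U) (s : ℝ) (hs : |s| = 1) (dev : ℝ) (hdev : 0 < dev) (x z : Fin N) :
    (((Fintype.piFinset (fun _ : Fin N => U)).filter
      (fun ω => 2 + dev ≤ s * ∑ i, cf U (B (ω x) (ω z)) (ω i))).card : ℝ) ≤
      Real.exp (-(dev ^ 2) / (16 * N)) * (U.card : ℝ) ^ N := by
  have h2 := fixT h1 U hU ({x, z} : Finset (Fin N))
    (fun ω _ v => s * cf U (B (ω x) (ω z)) v) ?_ ?_ ?_ dev N hdev (by simp)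
  · rw [Fintype.card_fin] at h2
    refine le_trans ?_ h2
    exact_mod_cast Finset.card_le_card (by
      intro ω hω
      rw [mem_filter] at hω ⊢
      refine ⟨hω.1, ?_⟩
      rw [← Finset.mul_sum]
      refine le_trans ?_ hω.2
      have h3 : (({x, z} : Finset (Fin N)).card : ℝ) ≤ 2 := by
        exact_mod_cast Finset.card_le_two
      linarith)
  · intro ω ω' h
    have hx := h x (by simp)
    have hz := h z (by simp)
    simp only [hx, hz]
  · intro ω _ v
    rw [abs_mul, hs, one_mul]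
    exact cf_abs (hB _ _) v
  · intro ω _
    rw [← Finset.mul_sum, cf_sum (hB _ _) hU, mul_zero]

theorem evU (h1 : S_HOEF) (hU : U.Nonempty) (N : ℕ) (B : V → V → Finset V)
    (hB : ∀ a b, B a b ⊆ U) (s : ℝ) (hs : |s| = 1) (dev : ℝ) (hdev : 0 < dev) :
    (((Fintype.piFinset (fun _ : Fin N => U)).filter
      (fun ω => ∃ x z, 2 + dev ≤ s * ∑ i, cf U (B (ω x) (ω z)) (ω i))).card : ℝ) ≤
      (N : ℝ) ^ 2 * (Real.exp (-(dev ^ 2) / (16 * N)) * (U.card : ℝ) ^ N) := by
  have h2 : (Fintype.piFinset (fun _ : Fin N => U)).filter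
      (fun ω => ∃ x z, 2 + dev ≤ s * ∑ i, cf U (B (ω x) (ω z)) (ω i)) ⊆
      (univ : Finset (Fin N × Fin N)).biUnion (fun p => (Fintype.piFinset (fun _ : Fin N => U)).filter
        (fun ω => 2 + dev ≤ s * ∑ i, cf U (B (ω p.1) (ω p.2)) (ω i))) := by
    intro ω hω
    rw [mem_filter] at hω
    obtain ⟨h3, x, z, h4⟩ := hω
    exact mem_biUnion.mpr ⟨(x, z), mem_univ _, mem_filter.mpr ⟨h3, h4⟩⟩
  calc (((Fintype.piFinset (fun _ : Fin N => U)).filter
      (fun ω => ∃ x z, 2 + dev ≤ s * ∑ i, cf U (B (ω x) (ω z)) (ω i))).card : ℝ)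
      ≤ ((∑ p : Fin N × Fin N, ((Fintype.piFinset (fun _ : Fin N => U)).filter
        (fun ω => 2 + dev ≤ s * ∑ i, cf U (B (ω p.1) (ω p.2)) (ω i))).card : ℕ) : ℝ) := by
        exact_mod_cast (Finset.card_le_card h2).trans Finset.card_biUnion_le
    _ ≤ ∑ p : Fin N × Fin N, Real.exp (-(dev ^ 2) / (16 * N)) * (U.card : ℝ) ^ N := by
        push_cast
        exact Finset.sum_le_sum (fun p _ => ev h1 hU N B hB s hs dev hdev p.1 p.2)
    _ = _ := by
        rw [Finset.sum_const, Finset.card_univ, Fintype.card_prod, Fintype.card_fin, nsmul_eq_mul]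
        push_cast
        ring

/-- few maps are not injective -/
theorem noninj (N : ℕ) :
    (((Fintype.piFinset (fun _ : Fin N => U)).filter
      (fun ω => ¬ Function.Injective ω)).card : ℝ) * (U.card : ℝ) ≤
      (N : ℝ) ^ 2 * (U.card : ℝ) ^ N := by
  classical
  have hPc : (Fintype.piFinset (fun _ : Fin N => U)).card = U.card ^ N := by
    rw [Fintype.card_piFinset, Finset.prod_const, Finset.card_univ, Fintype.card_fin]
  have h1 : ∀ p : Fin N × Fin N, p.1 ≠ p.2 → ((Fintype.piFinset (fun _ : Fin N => U)).filter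
      (fun ω => ω p.1 = ω p.2)).card * U.card ≤ U.card ^ N := by
    rintro ⟨x, z⟩ hxz
    rw [← Finset.card_product, ← hPc]
    apply Finset.card_le_card_of_injOn (fun q : (Fin N → V) × V => Function.update q.1 x q.2)
    · rintro ⟨ω, u⟩ hq
      rw [mem_coe, mem_product, mem_filter] at hq
      rw [mem_coe, Fintype.mem_piFinset]
      intro i
      simp only at hq ⊢
      by_cases hi : i = x
      · subst hi
        rw [Function.update_self]; exact hq.2
      · rw [Function.update_of_ne hi]; exact Fintype.mem_piFinset.mp hq.1.1 i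
    · rintro ⟨ω, u⟩ hq ⟨ω', u'⟩ hq' heq
      rw [mem_coe, mem_product, mem_filter] at hq hq'
      simp only at heq hq hq'
      have hu : u = u' := by
        have := congrFun heq x
        rwa [Function.update_self, Function.update_self] at this
      have hne : ∀ i, i ≠ x → ω i = ω' i := by
        intro i hi
        have := congrFun heq i
        rwa [Function.update_of_ne hi, Function.update_of_ne hi] at this
      have hω : ω = ω' := by
        funext i
        by_cases hi : i = x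
        · rw [hi, hq.1.2, hq'.1.2]
          exact hne z (fun h => hxz h.symm)
        · exact hne i hi
      rw [hu, hω]
  have h2 : (Fintype.piFinset (fun _ : Fin N => U)).filter (fun ω => ¬ Function.Injective ω) ⊆
      ((univ : Finset (Fin N × Fin N)).filter (fun p => p.1 ≠ p.2)).biUnion
        (fun p => (Fintype.piFinset (fun _ : Fin N => U)).filter (fun ω => ω p.1 = ω p.2)) := by
    intro ω hω
    rw [mem_filter] at hω
    obtain ⟨h3, h4⟩ := hω
    rw [Function.Injective] at h4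
    push Not at h4
    obtain ⟨x, z, h5, h6⟩ := h4
    exact mem_biUnion.mpr ⟨(x, z), mem_filter.mpr ⟨mem_univ _, h6⟩, mem_filter.mpr ⟨h3, h5⟩⟩
  have h3 : ((Fintype.piFinset (fun _ : Fin N => U)).filter
      (fun ω => ¬ Function.Injective ω)).card * U.card ≤ N ^ 2 * U.card ^ N := by
    calc ((Fintype.piFinset (fun _ : Fin N => U)).filter
      (fun ω => ¬ Function.Injective ω)).card * U.card
        ≤ (∑ p ∈ (univ : Finset (Fin N × Fin N)).filter (fun p => p.1 ≠ p.2),
          ((Fintype.piFinset (fun _ : Fin N => U)).filter (fun ω => ω p.1 = ω p.2)).card) *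
            U.card := Nat.mul_le_mul_right _ ((Finset.card_le_card h2).trans Finset.card_biUnion_le)
      _ = ∑ p ∈ (univ : Finset (Fin N × Fin N)).filter (fun p => p.1 ≠ p.2),
          ((Fintype.piFinset (fun _ : Fin N => U)).filter (fun ω => ω p.1 = ω p.2)).card *
            U.card := by rw [Finset.sum_mul]
      _ ≤ ∑ p ∈ (univ : Finset (Fin N × Fin N)).filter (fun p => p.1 ≠ p.2), U.card ^ N :=
          Finset.sum_le_sum (fun p hp => h1 p (mem_filter.mp hp).2)
      _ = ((univ : Finset (Fin N × Fin N)).filter (fun p => p.1 ≠ p.2)).card * U.card ^ N := by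
          rw [Finset.sum_const, smul_eq_mul]
      _ ≤ N ^ 2 * U.card ^ N := by
          apply Nat.mul_le_mul_right
          refine (Finset.card_le_univ _).trans ?_
          rw [Fintype.card_prod, Fintype.card_fin, sq]
  exact_mod_cast h3

end

open Classical in
/-- the deterministic part -/
theorem det {V : Type} [DecidableEq V] {K : Finset V → Prop} {k : ℕ} {β b κ : ℝ} {U : Finset V}
    (hk : 2 ≤ k) (hK : Cx k K) (hκ : 0 < κ) (hb : b = 20 * κ) (hbβ : b ≤ β)
    (hbk : b ≤ 1 / (k : ℝ)) (hPD : PD k K κ U) (hNE : NE k K β U) (hU : U.Nonempty) {N : ℕ}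
    (hN : 4 ≤ κ * N) (e : Fin 0 → V) (ω : Fin N → V) (hωU : ∀ i, ω i ∈ U)
    (hinj : Function.Injective ω)
    (h1 : ∀ x, ((univ.filter (fun i => ω i ∈ ce K U {ω x})).card : ℝ) <
      (N : ℝ) * (((ce K U {ω x}).card : ℝ) / (U.card : ℝ)) + κ * N)
    (h2 : ∀ x, (N : ℝ) * ((((ce K U {ω x}).filter
      (fun y => β * (U.card : ℝ) ≤ ((ce K U {ω x} ∩ ex K U {y}).card : ℝ))).card : ℝ) /
        (U.card : ℝ)) - κ * N < ((univ.filter (fun i => ω i ∈ (ce K U {ω x}).filter
      (fun y => β * (U.card : ℝ) ≤ ((ce K U {ω x} ∩ ex K U {y}).card : ℝ)))).card : ℝ))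
    (h3 : ∀ x z, (N : ℝ) * (((ce K U {ω x} ∩ ex K U {ω z}).card : ℝ) / (U.card : ℝ)) - κ * N <
      ((univ.filter (fun i => ω i ∈ ce K U {ω x} ∩ ex K U {ω z})).card : ℝ))
    (Y : Finset (Fin N ⊕ Fin 0)) (hY : (1 / (k : ℝ) - κ) * (N : ℝ) ≤ (Y.card : ℝ))
    (hYi : ∀ y ∈ Y, ∀ z ∈ Y, y ≠ z → ¬ pl K ω e {y, z}) : False := by
  have hUpos : (0 : ℝ) < (U.card : ℝ) := by exact_mod_cast hU.card_pos
  have hNpos : (0 : ℝ) < (N : ℝ) := by
    by_contra h
    have : κ * (N : ℝ) ≤ 0 := mul_nonpos_of_nonneg_of_nonpos hκ.le (not_lt.mp h)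
    linarith
  -- the set of the points of `Y`
  set Y' : Finset (Fin N) := univ.filter (fun x => Sum.inl x ∈ Y) with hY'
  have hYc : Y.card = Y'.card := by
    apply Finset.card_bij' (fun (y : Fin N ⊕ Fin 0) _ => Sum.elim id (fun r => Fin.elim0 r) y)
      (fun x _ => Sum.inl x)
    · rintro (x | r) hy
      · exact mem_filter.mpr ⟨mem_univ _, hy⟩
      · exact Fin.elim0 r
    · intro x hx
      exact (mem_filter.mp hx).2
    · rintro (x | r) hy
      · rfl
      · exact Fin.elim0 r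
    · intro x hx
      rfl
  rw [hYc] at hY
  have hind : ∀ x ∈ Y', ∀ z ∈ Y', ω z ∉ ex K U {ω x} := by
    intro x hx z hz hmem
    obtain ⟨-, g1, g2⟩ := mem_ex.mp hmem
    have hne : x ≠ z := by
      rintro rfl
      exact g1 (mem_singleton_self _)
    apply hYi (Sum.inl z) (mem_filter.mp hz).2 (Sum.inl x) (mem_filter.mp hx).2
      (fun h => hne (Sum.inl.inj h).symm)
    refine ⟨?_, ?_⟩
    · intro p hp q hq hpq
      rcases p with p | p
      · rcases q with q | q
        · simp only [Sum.elim_inl] at hpq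
          rw [hinj hpq]
        · exact Fin.elim0 q
      · exact Fin.elim0 p
    · rw [Finset.image_insert, Finset.image_singleton]
      exact g2
  have hce : ∀ x ∈ Y', ∀ z ∈ Y', ω z ∈ ce K U {ω x} := by
    intro x hx z hz
    exact mem_sdiff.mpr ⟨hωU z, hind x hx z hz⟩
  have hk1 : (0 : ℝ) < 1 / (k : ℝ) := by positivity
  have hYpos : (0 : ℝ) < (Y'.card : ℝ) := by
    refine lt_of_lt_of_le ?_ hY
    apply mul_pos _ hNpos
    linarith
  obtain ⟨x, hx⟩ : Y'.Nonempty := by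
    rw [← Finset.card_pos]; exact_mod_cast hYpos
  -- sizes
  set C := ce K U {ω x} with hC
  set D := C.filter (fun y => β * (U.card : ℝ) ≤ ((C ∩ ex K U {y}).card : ℝ)) with hD
  set W := univ.filter (fun i => ω i ∈ C) with hW
  have hYW : Y' ⊆ W := by
    intro z hz
    exact mem_filter.mpr ⟨mem_univ _, hce x hx z hz⟩
  have hYW' : (Y'.card : ℝ) ≤ (W.card : ℝ) := by exact_mod_cast Finset.card_le_card hYW
  have hfrac : ∀ a c : ℝ, c ≤ a * (U.card : ℝ) → (N : ℝ) * (c / (U.card : ℝ)) ≤ N * a := by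
    intro a c hac
    apply mul_le_mul_of_nonneg_left _ hNpos.le
    rwa [div_le_iff₀ hUpos]
  have hfrac' : ∀ a c : ℝ, a * (U.card : ℝ) ≤ c → N * a ≤ (N : ℝ) * (c / (U.card : ℝ)) := by
    intro a c hac
    apply mul_le_mul_of_nonneg_left _ hNpos.le
    rwa [le_div_iff₀ hUpos]
  have hC1 : (1 / (k : ℝ) - β) * (U.card : ℝ) ≤ (C.card : ℝ) := by
    by_contra hcon
    push Not at hcon
    have g1 := h1 x
    have g2 : (N : ℝ) * ((C.card : ℝ) / (U.card : ℝ)) ≤ N * (1 / (k : ℝ) - 2 * κ) := by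
      apply hfrac
      refine hcon.le.trans ?_
      apply mul_le_mul_of_nonneg_right _ hUpos.le
      linarith
    have g3 : (1 / (k : ℝ) - κ) * (N : ℝ) < N * (1 / (k : ℝ) - 2 * κ) + κ * N := by
      calc (1 / (k : ℝ) - κ) * (N : ℝ) ≤ (Y'.card : ℝ) := hY
        _ ≤ (W.card : ℝ) := hYW'
        _ < _ := by linarith
    nlinarith
  have hD1 := hNE (ω x) hC1
  have hC2 : (C.card : ℝ) ≤ (1 / (k : ℝ) + κ) * (U.card : ℝ) := by
    have g1 := hPD.ce_le (T := {ω x}) (hK.vert _) (by rw [card_singleton]; omega)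
    exact g1
  have hWc : (W.card : ℝ) < (1 / (k : ℝ) + 2 * κ) * N := by
    have g1 := h1 x
    have g2 : (N : ℝ) * ((C.card : ℝ) / (U.card : ℝ)) ≤ N * (1 / (k : ℝ) + κ) := by
      exact hfrac _ _ hC2
    calc (W.card : ℝ) < (N : ℝ) * ((C.card : ℝ) / (U.card : ℝ)) + κ * N := g1
      _ ≤ _ := by linarith
  have hWY : ((W \ Y').card : ℝ) < 3 * κ * N := by
    rw [Finset.card_sdiff_of_subset hYW, Nat.cast_sub (Finset.card_le_card hYW)]
    nlinarith
  -- a typical point of `Y`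
  set Z := univ.filter (fun i => ω i ∈ D) with hZ
  have hZc : 19 * κ * N < (Z.card : ℝ) := by
    have g1 := h2 x
    have g2 : (N : ℝ) * b ≤ (N : ℝ) * ((D.card : ℝ) / (U.card : ℝ)) := by
      apply hfrac'
      refine le_trans ?_ hD1
      exact mul_le_mul_of_nonneg_right hbβ hUpos.le
    have g3 : (N : ℝ) * ((D.card : ℝ) / (U.card : ℝ)) - κ * N < (Z.card : ℝ) := g1
    nlinarith
  have hex : ∃ z ∈ Z, z ∈ Y' := by
    by_contra hcon
    push Not at hcon
    have g1 : Z ⊆ W \ Y' := by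
      intro z hz
      rw [mem_sdiff]
      refine ⟨?_, hcon z hz⟩
      have g2 := (mem_filter.mp hz).2
      exact mem_filter.mpr ⟨mem_univ _, (mem_filter.mp g2).1⟩
    have g2 : (Z.card : ℝ) ≤ ((W \ Y').card : ℝ) := by exact_mod_cast Finset.card_le_card g1
    have g3 : 0 < κ * N := mul_pos hκ hNpos
    nlinarith
  obtain ⟨z, hzZ, hzY⟩ := hex
  have hzD : β * (U.card : ℝ) ≤ ((C ∩ ex K U {ω z}).card : ℝ) :=
    (mem_filter.mp (mem_filter.mp hzZ).2).2
  set Q := univ.filter (fun i => ω i ∈ C ∩ ex K U {ω z}) with hQ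
  have hQc : 19 * κ * N < (Q.card : ℝ) := by
    have g1 := h3 x z
    have g2 : (N : ℝ) * b ≤ (N : ℝ) * (((C ∩ ex K U {ω z}).card : ℝ) / (U.card : ℝ)) := by
      apply hfrac'
      refine le_trans ?_ hzD
      exact mul_le_mul_of_nonneg_right hbβ hUpos.le
    have g3 : (N : ℝ) * (((C ∩ ex K U {ω z}).card : ℝ) / (U.card : ℝ)) - κ * N < (Q.card : ℝ) := g1
    nlinarith
  have hQW : Q ⊆ W \ Y' := by
    intro w hw
    have g1 := mem_inter.mp (mem_filter.mp hw).2
    rw [mem_sdiff]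
    exact ⟨mem_filter.mpr ⟨mem_univ _, g1.1⟩, fun g2 => hind z hzY w g2 g1.2⟩
  have g2 : (Q.card : ℝ) ≤ ((W \ Y').card : ℝ) := by exact_mod_cast Finset.card_le_card hQW
  have g3 : 0 < κ * N := mul_pos hκ hNpos
  nlinarith

/-- the error is small for large `N` -/
theorem large (κ : ℝ) (hκ : 0 < κ) : ∃ N₀ : ℕ, ∀ N : ℕ, N₀ ≤ N → 4 ≤ κ * N ∧ 1 ≤ N ∧
    3 * (N : ℝ) ^ 2 * Real.exp (-((κ * N / 2) ^ 2) / (16 * N)) ≤ 1 / 16 := by
  set c : ℝ := κ ^ 2 / 64 with hc
  have hcpos : 0 < c := by positivity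
  have h1 := Real.tendsto_pow_mul_exp_neg_atTop_nhds_zero 2
  have h2 : Filter.Tendsto (fun N : ℕ => c * (N : ℝ)) Filter.atTop Filter.atTop :=
    (tendsto_natCast_atTop_atTop).const_mul_atTop hcpos
  have h3 := (h1.comp h2).eventually (gt_mem_nhds (show (0 : ℝ) < c ^ 2 / 48 by positivity))
  obtain ⟨N₁, hN₁⟩ := Filter.eventually_atTop.mp h3
  obtain ⟨N₂, hN₂⟩ := exists_nat_gt (4 / κ)
  refine ⟨max (max N₁ N₂) 1, ?_⟩
  intro N hN
  have g1 : N₁ ≤ N := le_trans (le_max_left _ _) (le_trans (le_max_left _ _) hN)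
  have g2 : N₂ ≤ N := le_trans (le_max_right _ _) (le_trans (le_max_left _ _) hN)
  have g3 : 1 ≤ N := le_trans (le_max_right _ _) hN
  have g4 : (N₂ : ℝ) ≤ (N : ℝ) := by exact_mod_cast g2
  have g5 : (0 : ℝ) < (N : ℝ) := by exact_mod_cast g3
  refine ⟨?_, g3, ?_⟩
  · have : 4 / κ < N := lt_of_lt_of_le hN₂ g4
    rw [div_lt_iff₀ hκ] at this
    linarith
  · have g6 := hN₁ N g1
    simp only [Function.comp] at g6
    have g7 : -((κ * N / 2) ^ 2) / (16 * N) = -(c * N) := by
      rw [hc]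
      field_simp
      ring
    rw [g7]
    have g8 : 3 * (N : ℝ) ^ 2 * Real.exp (-(c * N)) * c ^ 2 ≤ 1 / 16 * c ^ 2 := by
      have : (c * (N : ℝ)) ^ 2 * Real.exp (-(c * N)) ≤ c ^ 2 / 48 := g6.le
      nlinarith
    exact le_of_mul_le_mul_right g8 (by positivity)

end NESL

open NESL in
open Classical in
theorem nes (h : S_HOEF) : S_NES := by
  intro k β hk hβ
  have hk0 : (0 : ℝ) < 1 / (k : ℝ) := by positivity
  set b : ℝ := min β (1 / (k : ℝ)) with hb
  have hbpos : 0 < b := lt_min hβ hk0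
  set κ : ℝ := b / 20 with hκ
  have hκpos : 0 < κ := by positivity
  obtain ⟨N₀, hN₀⟩ := large κ hκpos
  refine ⟨κ, κ, N₀, hκpos, hκpos, ?_⟩
  intro N hN
  obtain ⟨hN4, hN1, hexp⟩ := hN₀ N hN
  refine ⟨16 * N ^ 2 + 1, ?_⟩
  intro V _ _ K U hK hUn hPD hNE e
  have hU : U.Nonempty := by
    rw [← Finset.card_pos]; omega
  have hUpos : (0 : ℝ) < (U.card : ℝ) := by exact_mod_cast hU.card_pos
  set dev : ℝ := κ * N / 2 with hdev
  have hdevpos : 0 < dev := by rw [hdev]; linarith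
  have hdev2 : 2 + dev ≤ κ * N := by rw [hdev]; linarith
  set P := Fintype.piFinset (fun _ : Fin N => U) with hP
  set B1 : V → V → Finset V := fun a _ => ce K U {a} with hB1
  set B2 : V → V → Finset V := fun a _ => (ce K U {a}).filter
    (fun y => β * (U.card : ℝ) ≤ ((ce K U {a} ∩ ex K U {y}).card : ℝ)) with hB2
  set B3 : V → V → Finset V := fun a c => ce K U {a} ∩ ex K U {c} with hB3
  have hcU : ∀ a, ce K U {a} ⊆ U := fun a => ce_subset _
  have e1 := evU h hU N B1 (fun a _ => hcU a) 1 (by norm_num) dev hdevpos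
  have e2 := evU h hU N B2 (fun a _ => (filter_subset _ _).trans (hcU a)) (-1) (by norm_num) dev
    hdevpos
  have e3 := evU h hU N B3 (fun a _ => inter_subset_left.trans (hcU a)) (-1) (by norm_num) dev
    hdevpos
  have e4 := noninj (U := U) N
  set X1 := P.filter (fun ω => ∃ x z, 2 + dev ≤ (1 : ℝ) * ∑ i, cf U (B1 (ω x) (ω z)) (ω i)) with hX1
  set X2 := P.filter (fun ω => ∃ x z, 2 + dev ≤ (-1 : ℝ) * ∑ i, cf U (B2 (ω x) (ω z)) (ω i)) with hX2
  set X3 := P.filter (fun ω => ∃ x z, 2 + dev ≤ (-1 : ℝ) * ∑ i, cf U (B3 (ω x) (ω z)) (ω i)) with hX3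
  set X4 := P.filter (fun ω => ¬ Function.Injective ω) with hX4
  have hsub : P.filter (fun ω => ∃ Y : Finset (Fin N ⊕ Fin 0),
    (1 / (k : ℝ) - κ) * (N : ℝ) ≤ (Y.card : ℝ) ∧
      ∀ y ∈ Y, ∀ z ∈ Y, y ≠ z → ¬ pl K ω e {y, z}) ⊆ (X1 ∪ X2) ∪ (X3 ∪ X4) := by
    intro ω hω
    rw [mem_filter] at hω
    obtain ⟨hωP, Y, hY, hYi⟩ := hω
    by_contra hcon
    simp only [mem_union, not_or] at hcon
    obtain ⟨⟨c1, c2⟩, c3, c4⟩ := hcon
    rw [hX1, mem_filter, not_and] at c1
    rw [hX2, mem_filter, not_and] at c2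
    rw [hX3, mem_filter, not_and] at c3
    rw [hX4, mem_filter, not_and] at c4
    have d1 := c1 hωP
    have d2 := c2 hωP
    have d3 := c3 hωP
    have d4 := not_not.mp (c4 hωP)
    push Not at d1 d2 d3
    refine det (b := b) hk hK hκpos (by rw [hκ]; ring) (min_le_left _ _) (min_le_right _ _) hPD hNE
      hU hN4 e ω (Fintype.mem_piFinset.mp hωP) d4 ?_ ?_ ?_ Y hY hYi
    · intro x
      have g := d1 x x
      rw [cf_total] at g
      simp only [hB1] at g
      linarith
    · intro x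
      have g := d2 x x
      rw [cf_total] at g
      simp only [hB2] at g
      linarith
    · intro x z
      have g := d3 x z
      rw [cf_total] at g
      simp only [hB3] at g
      linarith
  have hcard : ((P.filter (fun ω => ∃ Y : Finset (Fin N ⊕ Fin 0),
    (1 / (k : ℝ) - κ) * (N : ℝ) ≤ (Y.card : ℝ) ∧
      ∀ y ∈ Y, ∀ z ∈ Y, y ≠ z → ¬ pl K ω e {y, z})).card : ℝ) ≤
      (X1.card : ℝ) + X2.card + (X3.card + X4.card) := by
    have g1 := Finset.card_le_card hsub
    have g2 := Finset.card_union_le (X1 ∪ X2) (X3 ∪ X4)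
    have g3 := Finset.card_union_le X1 X2
    have g4 := Finset.card_union_le X3 X4
    have g5 : (P.filter (fun ω => ∃ Y : Finset (Fin N ⊕ Fin 0),
      (1 / (k : ℝ) - κ) * (N : ℝ) ≤ (Y.card : ℝ) ∧
      ∀ y ∈ Y, ∀ z ∈ Y, y ≠ z → ¬ pl K ω e {y, z})).card ≤
      X1.card + X2.card + (X3.card + X4.card) := by omega
    exact_mod_cast g5
  have hX4' : 16 * (X4.card : ℝ) ≤ (U.card : ℝ) ^ N := by
    have g1 : (16 * (N : ℝ) ^ 2) ≤ (U.card : ℝ) := by
      have : 16 * N ^ 2 ≤ U.card := by omega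
      exact_mod_cast this
    have g2 : (0 : ℝ) < (N : ℝ) ^ 2 := by
      have : (0 : ℝ) < (N : ℝ) := by exact_mod_cast hN1
      positivity
    have g3 : (16 * (X4.card : ℝ)) * (N : ℝ) ^ 2 ≤ (U.card : ℝ) ^ N * (N : ℝ) ^ 2 := by
      calc (16 * (X4.card : ℝ)) * (N : ℝ) ^ 2 = (X4.card : ℝ) * (16 * (N : ℝ) ^ 2) := by ring
        _ ≤ (X4.card : ℝ) * (U.card : ℝ) := mul_le_mul_of_nonneg_left g1 (Nat.cast_nonneg _)
        _ ≤ (N : ℝ) ^ 2 * (U.card : ℝ) ^ N := e4
        _ = _ := by ring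
    exact le_of_mul_le_mul_right g3 g2
  have hsum : (X1.card : ℝ) + X2.card + X3.card ≤ 1 / 16 * (U.card : ℝ) ^ N := by
    have g1 : (X1.card : ℝ) + X2.card + X3.card ≤
        3 * (N : ℝ) ^ 2 * Real.exp (-(dev ^ 2) / (16 * N)) * (U.card : ℝ) ^ N := by
      linarith
    refine g1.trans ?_
    apply mul_le_mul_of_nonneg_right _ (by positivity)
    exact hexp
  linarith

end Pool.Agent.H48.TC
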