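import Pool.Agent.H48.TC.Stm

/-!
[NONEX] the non-extremal case: assembly.
-/

set_option autoImplicit false

namespace Pool.Agent.H48.TC

open Finset Pool.Agent.H48.PW Pool.Agent.Helper83K9.CF

namespace NONEXL

/-! ### Tight paths -/

section lists

variable {V : Type} [DecidableEq V] {K : Finset V → Prop} {k : ℕ} {l u v b w : List V}

theorem tp_iff (hK : Cx k K) : TP K k l ↔
    ∀ s w e : List V, l = s ++ (w ++ e) → w.length ≤ k → K w.toFinset := by
  constructor
  · intro h s w e hl hw
    refine hK.sub _ _ (h s.length) ?_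
    rw [hl, List.drop_left]
    intro x hx
    rw [List.mem_toFinset] at hx ⊢
    have h1 : (w ++ e).take k = w ++ e.take (k - w.length) := by
      rw [List.take_append, List.take_of_length_le hw]
    rw [h1]
    exact List.mem_append_left _ hx
  · intro h i
    refine h (l.take i) _ ((l.drop i).drop k) ?_ (by simp)
    rw [List.take_append_drop, List.take_append_drop]

theorem tp_inner (hK : Cx k K) (h : TP K k (u ++ (v ++ w))) : TP K k v := by
  rw [tp_iff hK] at h ⊢
  rintro s x e rfl hx
  refine h (u ++ s) x (e ++ w) ?_ hx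
  simp [List.append_assoc]

theorem tp_left (hK : Cx k K) (h : TP K k (u ++ v)) : TP K k u := by
  have : TP K k ([] ++ (u ++ v)) := by simpa using h
  exact tp_inner hK this

theorem tp_right (hK : Cx k K) (h : TP K k (u ++ v)) : TP K k v := by
  have : TP K k (u ++ (v ++ [])) := by simpa using h
  exact tp_inner hK this

theorem tp_glue (h1 : TP K k (u ++ b)) (h2 : TP K k (b ++ v)) (hb : k - 1 ≤ b.length) :
    TP K k (u ++ b ++ v) := by
  intro i
  rcases Nat.lt_or_ge (u.length + b.length) (i + k) with h | h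
  · have hi : u.length ≤ i := by omega
    have h3 := h2 (i - u.length)
    rw [List.append_assoc, List.drop_append, List.drop_of_length_le hi, List.nil_append]
    exact h3
  · have h3 := h1 i
    rw [List.drop_append_of_le_length (by simp; omega),
      List.take_append_of_le_length (by simp; omega)]
    exact h3

omit [DecidableEq V] in
theorem length_lastn (n : ℕ) : (lastn n l).length = min n l.length := by
  unfold lastn
  simp
  omega

omit [DecidableEq V] in
theorem lastn_append (n : ℕ) (h : n ≤ v.length) : lastn n (u ++ v) = lastn n v := by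
  unfold lastn
  rw [List.length_append, List.drop_append, List.drop_of_length_le (by omega), List.nil_append]
  congr 1
  omega

omit [DecidableEq V] in
theorem take_lastn_eq (n : ℕ) : l.take (l.length - n) ++ lastn n l = l := List.take_append_drop _ _

/-- `u` is connected with `v` by the list `c` -/
theorem tp_connect {c : List V} (hu : TP K k u) (hv : TP K k v)
    (hul : k - 1 ≤ u.length) (hvl : k - 1 ≤ v.length)
    (hc : TP K k (lastn (k - 1) u ++ c ++ v.take (k - 1))) : TP K k (u ++ c ++ v) := by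
  have h1 : TP K k (u.take (u.length - (k - 1)) ++ lastn (k - 1) u ++ (c ++ v.take (k - 1))) := by
    refine tp_glue ?_ ?_ ?_
    · rw [take_lastn_eq]; exact hu
    · rw [← List.append_assoc]; exact hc
    · rw [length_lastn]; omega
  rw [take_lastn_eq, ← List.append_assoc] at h1
  have h2 : TP K k (u ++ c ++ v.take (k - 1) ++ v.drop (k - 1)) := by
    refine tp_glue h1 ?_ ?_
    · rw [List.take_append_drop]; exact hv
    · simp; omega
  rw [List.append_assoc, List.take_append_drop] at h2
  exact h2

theorem glue_seq (A C : ℕ → List V) (hA : ∀ i, k - 1 ≤ (A i).length)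
    (hP : ∀ i, TP K k (A i))
    (hC : ∀ i, TP K k (lastn (k - 1) (A i) ++ C i ++ (A (i + 1)).take (k - 1))) (m : ℕ) :
    TP K k ((List.range m).flatMap (fun i => A i ++ C i) ++ A m) := by
  induction m with
  | zero => simpa using hP 0
  | succ m ih =>
    have e : (List.range (m + 1)).flatMap (fun i => A i ++ C i) ++ A (m + 1) =
        ((List.range m).flatMap (fun i => A i ++ C i) ++ A m) ++ C m ++ A (m + 1) := by
      rw [List.range_succ, List.flatMap_append]
      simp [List.append_assoc]
    rw [e]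
    refine tp_connect ih (hP (m + 1)) ?_ (hA (m + 1)) ?_
    · rw [List.length_append]
      have := hA m
      omega
    · rw [lastn_append _ (hA m)]
      exact hC m

theorem glue_cyc (hK : Cx k K) {N : ℕ} (A C : ℕ → List V) (hA : ∀ i, k - 1 ≤ (A i).length)
    (hP : ∀ i, TP K k (A i))
    (hC : ∀ i, TP K k (lastn (k - 1) (A i) ++ C i ++ (A (i + 1)).take (k - 1)))
    (pA : ∀ i, A (N + i) = A i) (pC : ∀ i, C (N + i) = C i) :
    TP K k ((List.range N).flatMap (fun i => A i ++ C i) ++
      (List.range N).flatMap (fun i => A i ++ C i)) := by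
  have h := glue_seq A C hA hP hC (N + N)
  have e : (List.range (N + N)).flatMap (fun i => A i ++ C i) =
      (List.range N).flatMap (fun i => A i ++ C i) ++
      (List.range N).flatMap (fun i => A i ++ C i) := by
    rw [List.range_add, List.flatMap_append]
    congr 1
    rw [List.flatMap_map]
    congr 1
    funext i
    simp only [pA, pC]
  rw [e] at h
  exact tp_left hK h

end lists

theorem greedy {α : Type} (N : ℕ) (Good : ℕ → List α → Prop)
    (step : ∀ i < N, ∀ C : ℕ → List α, (∀ i' < i, Good i' (C i')) →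
      ∃ c, Good i c ∧ ∀ i' < i, ∀ v ∈ c, v ∉ C i') :
    ∃ C : ℕ → List α, (∀ i < N, Good i (C i)) ∧ ∀ i < N, ∀ i' < i, ∀ v ∈ C i, v ∉ C i' := by
  have key : ∀ m, m ≤ N → ∃ C : ℕ → List α, (∀ i < m, Good i (C i)) ∧
      ∀ i < m, ∀ i' < i, ∀ v ∈ C i, v ∉ C i' := by
    intro m
    induction m with
    | zero => intro _; exact ⟨fun _ => [], by intro i hi; omega, by intro i hi; omega⟩
    | succ m ih =>
      intro hm
      obtain ⟨C, h1, h2⟩ := ih (by omega)
      obtain ⟨c, hc1, hc2⟩ := step m (by omega) C h1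
      refine ⟨Function.update C m c, ?_, ?_⟩
      · intro i hi
        rcases Nat.lt_succ_iff_lt_or_eq.1 hi with h | h
        · rw [Function.update_of_ne (by omega)]
          exact h1 i h
        · subst h
          rw [Function.update_self]
          exact hc1
      · intro i hi i' hi' v hv
        rw [Function.update_of_ne (show i' ≠ m by omega)]
        rcases Nat.lt_succ_iff_lt_or_eq.1 hi with h | h
        · rw [Function.update_of_ne (by omega)] at hv
          exact h2 i h i' hi' v hv
        · subst h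
          rw [Function.update_self] at hv
          exact hc2 i' hi' v hv
  exact key N le_rfl

/-! ### The path of a tile -/

theorem tile_list {V : Type} [DecidableEq V] {K : Finset V → Prop} {k s : ℕ} (hK : Cx k K)
    (hk : 1 ≤ k) (hs : 1 ≤ s) {T : Finset V} (h : TileK k s K T) :
    ∃ L : List V, L.length = s * k ∧ TP K k L ∧ L.Nodup ∧ (∀ v, v ∈ L ↔ v ∈ T) ∧
      T.card = s * k := by
  obtain ⟨p, hp, hT, hφ⟩ := h
  have hk0 : 0 < k := hk
  have hdiv : ∀ j, j < s * k → j / k < s := fun j hj =>
    Nat.div_lt_of_lt_mul (by rwa [mul_comm] at hj)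
  let f : Fin (s * k) → V := fun i => p ((finProdFinEquiv.symm i).2, (finProdFinEquiv.symm i).1)
  have hf : Function.Injective f := by
    intro i j hij
    have h1 := hp hij
    rw [Prod.mk.injEq] at h1
    exact finProdFinEquiv.symm.injective (Prod.ext h1.2 h1.1)
  have hfv : ∀ i : Fin (s * k), f i = p (⟨(i : ℕ) % k, Nat.mod_lt _ hk0⟩,
      ⟨(i : ℕ) / k, hdiv _ i.2⟩) := by
    intro i
    rfl
  refine ⟨List.ofFn f, List.length_ofFn, ?_, List.nodup_ofFn.2 hf, ?_, ?_⟩
  · intro i
    classical
    -- the function describing the window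
    let φ : Fin k → Fin s := fun a => if h : ∃ j, (i ≤ j ∧ j < i + k ∧ j < s * k) ∧ j % k = (a : ℕ)
      then ⟨h.choose / k, hdiv _ h.choose_spec.1.2.2⟩
      else ⟨0, hs⟩
    refine hK.sub _ _ (hφ φ) ?_
    intro x hx
    rw [List.mem_toFinset] at hx
    obtain ⟨j, hj, rfl⟩ := List.getElem_of_mem hx
    have hj' := hj
    rw [List.length_take, List.length_drop, List.length_ofFn] at hj'
    rw [List.getElem_take, List.getElem_drop, List.getElem_ofFn, hfv, mem_image]
    refine ⟨⟨(i + j) % k, Nat.mod_lt _ hk0⟩, mem_univ _, ?_⟩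
    have h1 : ∃ j', (i ≤ j' ∧ j' < i + k ∧ j' < s * k) ∧ j' % k = (i + j) % k :=
      ⟨i + j, ⟨by omega, by omega, by omega⟩, rfl⟩
    have h2 : φ ⟨(i + j) % k, Nat.mod_lt _ hk0⟩ = ⟨(i + j) / k,
        hdiv _ (by omega)⟩ := by
      have h3 : h1.choose = i + j := by
        obtain ⟨⟨h4, h5, h6⟩, h7⟩ := h1.choose_spec
        generalize h1.choose = j' at *
        rcases Nat.lt_trichotomy j' (i + j) with h8 | h8 | h8
        · have h9 : k ∣ (i + j) - j' := (Nat.modEq_iff_dvd' h8.le).1 h7
          have := Nat.le_of_dvd (by omega) h9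
          omega
        · exact h8
        · have h9 : k ∣ j' - (i + j) := (Nat.modEq_iff_dvd' h8.le).1 h7.symm
          have := Nat.le_of_dvd (by omega) h9
          omega
      change (if h : ∃ j', (i ≤ j' ∧ j' < i + k ∧ j' < s * k) ∧ j' % k = (i + j) % k
        then (⟨h.choose / k, _⟩ : Fin s) else ⟨0, hs⟩) = _
      rw [dif_pos h1]
      apply Fin.ext
      change h1.choose / k = (i + j) / k
      rw [h3]
    rw [h2]
  · intro v
    rw [List.mem_ofFn, hT, mem_image]
    constructor
    · rintro ⟨i, rfl⟩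
      exact ⟨_, mem_univ _, rfl⟩
    · rintro ⟨x, _, rfl⟩
      refine ⟨finProdFinEquiv (x.2, x.1), ?_⟩
      simp only [f, Equiv.symm_apply_apply]
  · rw [hT, card_image_of_injective _ hp, card_univ, Fintype.card_prod, Fintype.card_fin,
      Fintype.card_fin, mul_comm]

/-! ### Positive degree of a smaller set -/

theorem PD.sdiff {V : Type} [DecidableEq V] {K : Finset V → Prop} {k : ℕ} {γ : ℝ}
    {U T : Finset V} (h : PD k K (γ / 2) U)
    (hT : (T.card : ℝ) ≤ γ / 2 * (U.card : ℝ)) : PD k K γ (U \ T) := by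
  classical
  intro S hS hSk
  have h1 := h S hS hSk
  have h2 : ((ex K U S).card : ℝ) ≤ ((ex K (U \ T) S).card : ℝ) + (T.card : ℝ) := by
    have h3 : ex K U S ⊆ ex K (U \ T) S ∪ T := by
      intro v hv
      unfold ex at hv ⊢
      rw [mem_filter] at hv
      rw [mem_union, mem_filter, mem_sdiff]
      by_cases hvT : v ∈ T
      · right; exact hvT
      · left; exact ⟨⟨hv.1, hvT⟩, hv.2⟩
    exact_mod_cast (card_le_card h3).trans (card_union_le _ _)
  have h4 : ((U \ T).card : ℝ) ≤ (U.card : ℝ) := by exact_mod_cast card_le_card sdiff_subset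
  have h5 : (0 : ℝ) ≤ ((U \ T).card : ℝ) := Nat.cast_nonneg _
  rcases le_or_gt 0 (1 - 1 / (k : ℝ) - γ) with h6 | h6
  · have h7 : (1 - 1 / (k : ℝ) - γ) * ((U \ T).card : ℝ) ≤
        (1 - 1 / (k : ℝ) - γ) * (U.card : ℝ) := by gcongr
    linarith
  · have h7 : (1 - 1 / (k : ℝ) - γ) * ((U \ T).card : ℝ) ≤ 0 :=
      mul_nonpos_of_nonpos_of_nonneg h6.le h5
    exact h7.trans (Nat.cast_nonneg _)

theorem PD.mono {V : Type} [DecidableEq V] {K : Finset V → Prop} {k : ℕ} {γ γ' : ℝ}
    {U : Finset V} (h : PD k K γ U) (hγ : γ ≤ γ') : PD k K γ' U := by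
  intro S hS hSk
  refine le_trans ?_ (h S hS hSk)
  gcongr

/-! ### The construction -/

theorem core {V : Type} [Fintype V] [DecidableEq V] {K : Finset V → Prop} {k N W : ℕ}
    (hK : Cx k K) (hk : 3 ≤ k) (hN : 1 ≤ N) (A : ℕ → List V) (U : Finset V)
    (hlen : ∀ i < N, 2 * (k - 1) ≤ (A i).length) (htp : ∀ i < N, TP K k (A i))
    (hnd : ∀ i < N, (A i).Nodup)
    (hdis : ∀ i < N, ∀ j < N, i ≠ j → ∀ v ∈ A i, v ∉ A j)
    (hU : ∀ v, v ∈ U ↔ ∀ i < N, v ∉ A i)
    (hconn : ∀ T : Finset V, T.card ≤ N * W → ∀ a b : List V, a.length = k - 1 →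
      b.length = k - 1 → (a ++ b).Nodup → (∀ v ∈ a ++ b, v ∉ U) → K a.toFinset → K b.toFinset →
      ∃ c : List V, c.length ≤ W ∧ (∀ v ∈ c, v ∈ U ∧ v ∉ T) ∧ c.Nodup ∧ TP K k (a ++ c ++ b))
    (habs : ∀ X : Finset V, X ⊆ U → ∃ P' : List V, P'.Nodup ∧ TP K k P' ∧
      P'.take (k - 1) = (A 0).take (k - 1) ∧ lastn (k - 1) P' = lastn (k - 1) (A 0) ∧
      ∀ v, v ∈ P' ↔ v ∈ A 0 ∨ v ∈ X) : HamC K k := by
  -- the successor of a piece
  have hsuc : ∀ i, (i + 1) % N < N := fun i => Nat.mod_lt _ hN
  -- the connections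
  obtain ⟨C, hC1, hC2⟩ := greedy N (fun i c => c.length ≤ W ∧ (∀ v ∈ c, v ∈ U) ∧ c.Nodup ∧
      TP K k (lastn (k - 1) (A i) ++ c ++ (A ((i + 1) % N)).take (k - 1))) (by
    intro i hi C hC
    have hij := hsuc i
    generalize (i + 1) % N = j at hij
    have hTc : ((range i).biUnion (fun i' => (C i').toFinset)).card ≤ N * W := by
      refine (card_biUnion_le_card_mul _ _ W ?_).trans ?_
      · intro i' hi'
        rw [mem_range] at hi'
        exact (List.toFinset_card_le _).trans (hC i' hi').1
      · rw [card_range]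
        exact Nat.mul_le_mul_right _ hi.le
    have hli := hlen i hi
    have hlj := hlen j hij
    have hla : (lastn (k - 1) (A i)).length = k - 1 := by rw [length_lastn]; omega
    have hlb : ((A j).take (k - 1)).length = k - 1 := by rw [List.length_take]; omega
    obtain ⟨c, hc1, hc2, hc3, hc4⟩ := hconn _ hTc (lastn (k - 1) (A i)) ((A j).take (k - 1))
      hla hlb (by
        by_cases hij' : i = j
        · subst hij'
          have h1 : (A i).drop ((A i).length - (k - 1)) =
              ((A i).drop (k - 1)).drop ((A i).length - (k - 1) - (k - 1)) := by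
            rw [List.drop_drop]; congr 1; omega
          have h2 : ((A i).take (k - 1) ++ lastn (k - 1) (A i)).Nodup := by
            have h3 : ((A i).take (k - 1) ++ lastn (k - 1) (A i)).Sublist (A i) := by
              conv_rhs => rw [← List.take_append_drop (k - 1) (A i)]
              refine List.Sublist.append (List.Sublist.refl _) ?_
              unfold lastn
              rw [h1]
              exact List.drop_sublist _ _
            exact h3.nodup (hnd i hi)
          exact List.nodup_append_comm.1 h2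
        · refine List.Nodup.append ?_ ?_ ?_
          · exact (List.drop_sublist _ _).nodup (hnd i hi)
          · exact (List.take_sublist _ _).nodup (hnd j hij)
          · intro v hv hv'
            exact hdis i hi j hij hij' v (List.mem_of_mem_drop hv) (List.mem_of_mem_take hv')) (by
        intro v hv hvU
        rw [hU] at hvU
        rw [List.mem_append] at hv
        rcases hv with hv | hv
        · exact hvU i hi (List.mem_of_mem_drop hv)
        · exact hvU j hij (List.mem_of_mem_take hv)) (by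
        have h1 := htp i hi
        rw [tp_iff hK] at h1
        refine h1 ((A i).take ((A i).length - (k - 1))) _ [] ?_ (by omega)
        rw [List.append_nil, take_lastn_eq]) (by
        have h1 := htp j hij
        rw [tp_iff hK] at h1
        refine h1 [] _ ((A j).drop (k - 1)) ?_ (by omega)
        rw [List.nil_append, List.take_append_drop])
    refine ⟨c, ⟨hc1, fun v hv => (hc2 v hv).1, hc3, hc4⟩, ?_⟩
    intro i' hi' v hv hv'
    exact (hc2 v hv).2 (mem_biUnion.2 ⟨i', mem_range.2 hi', List.mem_toFinset.2 hv'⟩))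
  -- the remaining vertices
  obtain ⟨X, hX⟩ : ∃ X : Finset V, ∀ v, v ∈ X ↔ v ∈ U ∧ ∀ i < N, v ∉ C i := by
    refine ⟨U \ (range N).biUnion (fun i => (C i).toFinset), fun v => ?_⟩
    rw [mem_sdiff, mem_biUnion]
    simp only [mem_range, List.mem_toFinset, not_exists, not_and]
  obtain ⟨P', hP1, hP2, hP3, hP4, hP5⟩ := habs X (fun v hv => ((hX v).1 hv).1)
  -- the new pieces
  obtain ⟨B, hB0, hB1⟩ : ∃ B : ℕ → List V, B 0 = P' ∧ ∀ i, i ≠ 0 → B i = A i :=
    ⟨fun i => if i = 0 then P' else A i, if_pos rfl, fun i hi => if_neg hi⟩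
  have hBlast : ∀ i, lastn (k - 1) (B i) = lastn (k - 1) (A i) := by
    intro i
    by_cases hi : i = 0
    · subst hi; rw [hB0]; exact hP4
    · rw [hB1 i hi]
  have hBtake : ∀ i, (B i).take (k - 1) = (A i).take (k - 1) := by
    intro i
    by_cases hi : i = 0
    · subst hi; rw [hB0]; exact hP3
    · rw [hB1 i hi]
  have hBlen : ∀ i < N, k - 1 ≤ (B i).length := by
    intro i hi
    have h1 := congrArg List.length (hBtake i)
    rw [List.length_take, List.length_take] at h1
    have := hlen i hi
    omega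
  have hBtp : ∀ i < N, TP K k (B i) := by
    intro i hi
    by_cases h0 : i = 0
    · subst h0; rw [hB0]; exact hP2
    · rw [hB1 i h0]; exact htp i hi
  have hBnd : ∀ i < N, (B i).Nodup := by
    intro i hi
    by_cases h0 : i = 0
    · subst h0; rw [hB0]; exact hP1
    · rw [hB1 i h0]; exact hnd i hi
  have hBmem : ∀ i v, v ∈ B i ↔ v ∈ A i ∨ (i = 0 ∧ v ∈ X) := by
    intro i v
    by_cases h0 : i = 0
    · subst h0; rw [hB0, hP5]; simp
    · rw [hB1 i h0]; simp [h0]
  have hXA : ∀ v ∈ X, ∀ i < N, v ∉ A i := fun v hv => (hU v).1 ((hX v).1 hv).1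
  have hBB : ∀ i < N, ∀ j < N, i < j → ∀ v ∈ B i, v ∉ B j := by
    intro i hi j hj hij v hv hv'
    rw [hBmem] at hv hv'
    rcases hv with hv | ⟨_, hv⟩
    · rcases hv' with hv' | ⟨h0, _⟩
      · exact hdis i hi j hj (by omega) v hv hv'
      · omega
    · rcases hv' with hv' | ⟨h0, _⟩
      · exact hXA v hv j hj hv'
      · omega
  have hBC : ∀ i < N, ∀ j < N, ∀ v ∈ B i, v ∉ C j := by
    intro i hi j hj v hv hv'
    rw [hBmem] at hv
    rcases hv with hv | ⟨_, hv⟩
    · exact (hU v).1 ((hC1 j hj).2.1 v hv') i hi hv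
    · exact ((hX v).1 hv).2 j hj hv'
  -- the cyclic list
  refine ⟨(List.range N).flatMap (fun i => B (i % N) ++ C (i % N)), ?_, ?_, ?_⟩
  · rw [List.nodup_flatMap]
    constructor
    · intro i hi
      rw [List.mem_range] at hi
      rw [Nat.mod_eq_of_lt hi]
      exact (hBnd i hi).append (hC1 i hi).2.2.1 (fun v hv hv' => hBC i hi i hi v hv hv')
    · refine List.Pairwise.imp_of_mem ?_ List.pairwise_lt_range
      intro i j hi hj hij v hv hv'
      rw [List.mem_range] at hi hj
      change v ∈ B (i % N) ++ C (i % N) at hv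
      change v ∈ B (j % N) ++ C (j % N) at hv'
      rw [Nat.mod_eq_of_lt hi, List.mem_append] at hv
      rw [Nat.mod_eq_of_lt hj, List.mem_append] at hv'
      rcases hv with hv | hv
      · rcases hv' with hv' | hv'
        · exact hBB i hi j hj hij v hv hv'
        · exact hBC i hi j hj v hv hv'
      · rcases hv' with hv' | hv'
        · exact hBC j hj i hi v hv' hv
        · exact hC2 j hj i hij v hv' hv
  · intro v
    rw [List.mem_flatMap]
    by_cases hvU : v ∈ U
    · by_cases hvC : ∃ i < N, v ∈ C i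
      · obtain ⟨i, hi, hv⟩ := hvC
        refine ⟨i, List.mem_range.2 hi, List.mem_append_right _ ?_⟩
        rw [Nat.mod_eq_of_lt hi]
        exact hv
      · push Not at hvC
        refine ⟨0, List.mem_range.2 hN, List.mem_append_left _ ?_⟩
        rw [Nat.mod_eq_of_lt (show 0 < N by omega), hBmem]
        exact Or.inr ⟨rfl, (hX v).2 ⟨hvU, hvC⟩⟩
    · rw [hU] at hvU
      push Not at hvU
      obtain ⟨i, hi, hv⟩ := hvU
      refine ⟨i, List.mem_range.2 hi, List.mem_append_left _ ?_⟩
      rw [Nat.mod_eq_of_lt hi, hBmem]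
      exact Or.inl hv
  · have hm : ∀ i, i % N < N := fun i => Nat.mod_lt _ hN
    exact glue_cyc hK (N := N) (fun i => B (i % N)) (fun i => C (i % N))
      (fun i => hBlen _ (hm i)) (fun i => hBtp _ (hm i)) (by
        intro i
        have h2 := (hC1 (i % N) (hm i)).2.2.2
        change TP K k (lastn (k - 1) (B (i % N)) ++ C (i % N) ++ (B ((i + 1) % N)).take (k - 1))
        rw [hBlast, hBtake]
        have h3 : (i % N + 1) % N = (i + 1) % N := by rw [Nat.mod_add_mod]
        rw [h3] at h2
        exact h2) (by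
        intro i
        rw [Nat.add_mod_left]) (by
        intro i
        rw [Nat.add_mod_left])

end NONEXL

/-- [NONEX] the non-extremal case -/
theorem nonex (h1 : S_ALMK) (h2 : S_APK) (h3 : S_CONNK) : S_NONEX := by
  classical
  intro k β hk hβ
  obtain ⟨γc₀, W, nC, hγc₀, hconn⟩ := h3 k hk
  obtain ⟨γc, hγcdef⟩ : ∃ γc, γc = min γc₀ 1 := ⟨_, rfl⟩
  have hγc : 0 < γc := by rw [hγcdef]; exact lt_min hγc₀ one_pos
  have hγc1 : γc ≤ 1 := by rw [hγcdef]; exact min_le_right _ _
  have hγc2 : γc ≤ γc₀ := by rw [hγcdef]; exact min_le_left _ _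
  obtain ⟨γB, hγB, halm⟩ := h1 k β (γc / 2) hk hβ (by positivity)
  obtain ⟨γ₀, hγ₀, hap⟩ := h2 k hk
  obtain ⟨h, nP, hh, hap⟩ := hap γB hγB
  obtain ⟨θ, hθ, halm⟩ := halm h hh
  have hγθ : 0 < γc * θ := by positivity
  have hk0 : (0 : ℝ) < k := by exact_mod_cast (by omega : 0 < k)
  obtain ⟨s, hs⟩ := exists_nat_ge (4 * (W : ℝ) / (γc * θ) + 2)
  have hs2 : (2 : ℝ) ≤ s := by
    have : 0 ≤ 4 * (W : ℝ) / (γc * θ) := by positivity
    linarith
  have hs2' : 2 ≤ s := by exact_mod_cast hs2
  obtain ⟨nA, halm⟩ := halm s (by omega)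
  obtain ⟨nD, hnD⟩ := exists_nat_ge (4 * (W : ℝ) / (γc * θ))
  obtain ⟨nE, hnE⟩ := exists_nat_ge (2 * (nC : ℝ) / θ)
  refine ⟨max (max nP nA) (max nD nE), ?_⟩
  intro V _ _ K hK hn hPD hNE
  have hnP : nP ≤ Fintype.card V := le_trans (le_trans (le_max_left _ _) (le_max_left _ _)) hn
  have hnA : nA ≤ Fintype.card V := le_trans (le_trans (le_max_right _ _) (le_max_left _ _)) hn
  have hnD' : nD ≤ Fintype.card V := le_trans (le_trans (le_max_left _ _) (le_max_right _ _)) hn
  have hnE' : nE ≤ Fintype.card V := le_trans (le_trans (le_max_right _ _) (le_max_right _ _)) hn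
  obtain ⟨P, hP1, hP2, hP3, hP4, hP5⟩ := hap V K hK hnP (NONEXL.PD.mono hPD hγ₀.le)
  obtain ⟨F, U, hF1, hF2, hU, hU1, hU2, hU3⟩ := halm V K hK hnA hPD hNE P.toFinset (by
    have : (P.toFinset.card : ℝ) ≤ (P.length : ℝ) := by exact_mod_cast List.toFinset_card_le _
    linarith)
  -- the lists of the tiles
  have hL : ∀ T : Finset V, ∃ L : List V, T ∈ F → (L.length = s * k ∧ TP K k L ∧ L.Nodup ∧
      (∀ v, v ∈ L ↔ v ∈ T) ∧ T.card = s * k) := by
    intro T
    by_cases hT : T ∈ F
    · obtain ⟨L, hL⟩ := NONEXL.tile_list hK (by omega) (by omega) (hF1 T hT).1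
      exact ⟨L, fun _ => hL⟩
    · exact ⟨[], fun h => absurd h hT⟩
  choose L hL using hL
  -- the pieces
  obtain ⟨A, hA0, hA1⟩ : ∃ A : ℕ → List V, A 0 = P ∧
      ∀ i (h : i < F.toList.length), A (i + 1) = L (F.toList[i]) := by
    refine ⟨fun i => if i = 0 then P else (if h : i - 1 < F.toList.length then
      L (F.toList[i - 1]) else []), if_pos rfl, ?_⟩
    intro i h
    change (if i + 1 = 0 then P else (if h : i + 1 - 1 < F.toList.length then
      L (F.toList[i + 1 - 1]) else [])) = _
    rw [if_neg (by omega), dif_pos (by simpa using h)]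
    simp
  have hFl : F.toList.length = F.card := length_toList F
  have hmem : ∀ i (h : i < F.toList.length), F.toList[i] ∈ F := fun i h =>
    mem_toList.1 (List.getElem_mem h)
  have hks : k * 2 ≤ s * k := by rw [mul_comm]; exact Nat.mul_le_mul_right _ hs2'
  -- number of tiles
  have hcount : F.card * (s * k) ≤ Fintype.card V := by
    have e1 : (F.biUnion id).card = ∑ T ∈ F, T.card := by
      apply card_biUnion
      intro T hT T' hT' hne
      exact hF2 T hT T' hT' hne
    have e2 : ∑ T ∈ F, T.card = F.card * (s * k) := by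
      rw [← smul_eq_mul, ← sum_const]
      exact sum_congr rfl fun T hT => (hL T hT).2.2.2.2
    rw [← e2, ← e1]
    exact card_le_univ _
  have hn0 : (0 : ℝ) ≤ Fintype.card V := Nat.cast_nonneg _
  have hbound : (((F.card + 1) * W : ℕ) : ℝ) ≤ γc / 2 * (U.card : ℝ) := by
    have e1 : ((F.card : ℝ)) * (s * k) ≤ Fintype.card V := by exact_mod_cast hcount
    have e2 : 4 * (W : ℝ) ≤ γc * θ * s := by
      have h6 : 4 * (W : ℝ) / (γc * θ) ≤ s := by linarith
      rw [div_le_iff₀ hγθ] at h6
      linarith
    have e3 : 4 * (W : ℝ) ≤ γc * θ * Fintype.card V := by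
      have h5 : (nD : ℝ) ≤ Fintype.card V := by exact_mod_cast hnD'
      have h6 := hnD.trans h5
      rw [div_le_iff₀ hγθ] at h6
      linarith
    have e4 : 4 * ((F.card : ℝ) * W) ≤ γc * θ * Fintype.card V := by
      calc 4 * ((F.card : ℝ) * W) = F.card * (4 * W) := by ring
        _ ≤ F.card * (γc * θ * s) := by gcongr
        _ = γc * θ * (F.card * s * 1) := by ring
        _ ≤ γc * θ * (F.card * s * k) := by
            gcongr
            exact_mod_cast (by omega : 1 ≤ k)
        _ = γc * θ * (F.card * (s * k)) := by ring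
        _ ≤ _ := by gcongr
    push_cast
    have e5 : γc / 2 * (θ * Fintype.card V) ≤ γc / 2 * (U.card : ℝ) := by gcongr
    nlinarith
  refine NONEXL.core (N := F.card + 1) (W := W) hK hk (by omega) A U ?_ ?_ ?_ ?_ ?_ ?_ ?_
  · intro i hi
    rcases i with _ | i
    · rw [hA0]; omega
    · rw [hA1 i (by omega), (hL _ (hmem i (by omega))).1]
      omega
  · intro i hi
    rcases i with _ | i
    · rw [hA0]; exact hP2
    · rw [hA1 i (by omega)]
      exact (hL _ (hmem i (by omega))).2.1
  · intro i hi
    rcases i with _ | i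
    · rw [hA0]; exact hP1
    · rw [hA1 i (by omega)]
      exact (hL _ (hmem i (by omega))).2.2.1
  · have hPT : ∀ i (h : i < F.toList.length), ∀ v ∈ P, v ∉ A (i + 1) := by
      intro i h v hv hv'
      rw [hA1 i h, (hL _ (hmem i h)).2.2.2.1] at hv'
      exact disjoint_left.1 (hF1 _ (hmem i h)).2 hv' (List.mem_toFinset.2 hv)
    intro i hi j hj hij v hv hv'
    rcases i with _ | i
    · rcases j with _ | j
      · exact hij rfl
      · rw [hA0] at hv
        exact hPT j (by omega) v hv hv'
    · rcases j with _ | j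
      · rw [hA0] at hv'
        exact hPT i (by omega) v hv' hv
      · rw [hA1 i (by omega), (hL _ (hmem i (by omega))).2.2.2.1] at hv
        rw [hA1 j (by omega), (hL _ (hmem j (by omega))).2.2.2.1] at hv'
        refine disjoint_left.1 (hF2 _ (hmem i (by omega)) _ (hmem j (by omega)) ?_) hv hv'
        intro he
        have := (List.Nodup.getElem_inj_iff F.nodup_toList).1 he
        omega
  · intro v
    rw [hU, mem_compl, mem_union, mem_biUnion, List.mem_toFinset, not_or]
    constructor
    · rintro ⟨ha, hb⟩ i hi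
      rcases i with _ | i
      · rw [hA0]; exact ha
      · rw [hA1 i (by omega), (hL _ (hmem i (by omega))).2.2.2.1]
        intro hv
        exact hb ⟨_, hmem i (by omega), hv⟩
    · intro hv
      refine ⟨?_, ?_⟩
      · have := hv 0 (by omega)
        rwa [hA0] at this
      · rintro ⟨T, hT, hvT⟩
        obtain ⟨i, hi, rfl⟩ := List.getElem_of_mem (mem_toList.2 hT)
        have h5 := hv (i + 1) (by omega)
        rw [hA1 i hi, (hL _ (hmem i hi)).2.2.2.1] at h5
        exact h5 hvT
  · intro T hT a b ha hb hab hv hKa hKb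
    have hTr : (T.card : ℝ) ≤ γc / 2 * (U.card : ℝ) := by
      refine le_trans ?_ hbound
      exact_mod_cast hT
    have hc1 : nC ≤ (U \ T).card := by
      have e1 : (U.card : ℝ) ≤ ((U \ T).card : ℝ) + (T.card : ℝ) := by
        have : U ⊆ (U \ T) ∪ T := by
          intro x hx
          rw [mem_union, mem_sdiff]
          by_cases hxT : x ∈ T
          · right; exact hxT
          · left; exact ⟨hx, hxT⟩
        exact_mod_cast (card_le_card this).trans (card_union_le _ _)
      have e2 : 2 * (nC : ℝ) ≤ θ * Fintype.card V := by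
        have h5 : (nE : ℝ) ≤ Fintype.card V := by exact_mod_cast hnE'
        have h6 := hnE.trans h5
        rw [div_le_iff₀ hθ] at h6
        linarith
      have e3 : γc / 2 * (U.card : ℝ) ≤ 1 / 2 * (U.card : ℝ) := by gcongr
      have e4 : (nC : ℝ) ≤ ((U \ T).card : ℝ) := by linarith
      exact_mod_cast e4
    obtain ⟨c, hc2, hc3, hc4, hc5⟩ := hconn V K (U \ T) hK hc1
      (NONEXL.PD.mono (NONEXL.PD.sdiff hU3 hTr) hγc2) a b ha hb hab
      (fun v hv' hvU => hv v hv' (mem_sdiff.1 hvU).1) hKa hKb
    exact ⟨c, hc2, fun v hv => mem_sdiff.1 (hc3 v hv), hc4, hc5⟩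
  · intro X hX
    rw [hA0]
    refine hP5 X ?_ ?_
    · have e1 : (X.card : ℝ) ≤ (U.card : ℝ) := by exact_mod_cast card_le_card hX
      linarith
    · intro x hx hxP
      have h5 := hX hx
      rw [hU, mem_compl, mem_union, List.mem_toFinset, not_or] at h5
      exact h5.1 hxP

end Pool.Agent.H48.TC
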