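import Pool.Agent.H48.TC.Stm

/-!
[SEQ], [REG]: sequential selection with an exponential potential, regular units
-/

set_option autoImplicit false

namespace Pool.Agent.H48.TC

open Finset Pool.Agent.H48.PW Pool.Agent.Helper83K9.CF

namespace REGL

open Classical in
/-- the set of the bad choices among the first `i` choices -/
noncomputable def bads {Cand Ts : Type} (bad : Ts → Cand → Prop) (l : ℕ → Cand) (i : ℕ) (w : Ts) :
    Finset ℕ := (range i).filter (fun j => bad w (l j))

open Classical in
/-- one step of the selection -/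
theorem step {Cand Ts : Type} (A : Finset Cand) (hA : A.Nonempty) (T : Finset Ts) (p : ℝ)
    (bad : Ts → Cand → Prop) (f : Ts → ℝ) (hf : ∀ w, 0 < f w)
    (h : ∀ w ∈ T, ∃ H : Finset Cand, H ⊆ A ∧ (∀ g ∈ A, g ∉ H → ¬ bad w g) ∧
      (H.card : ℝ) ≤ p * (A.card : ℝ)) :
    ∃ g ∈ A, ∑ w ∈ T, f w * (if bad w g then Real.exp 1 else 1) ≤
      Real.exp (2 * p) * ∑ w ∈ T, f w := by
  have hav : ∑ g ∈ A, ∑ w ∈ T, f w * (if bad w g then Real.exp 1 else 1) ≤
      ∑ _g ∈ A, (1 + 2 * p) * ∑ w ∈ T, f w := by
    rw [sum_comm, sum_const, nsmul_eq_mul, mul_sum, mul_sum]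
    refine sum_le_sum fun w hw => ?_
    rw [← mul_sum]
    obtain ⟨H, h1, h2, h3⟩ := h w hw
    have he : Real.exp 1 ≤ 3 := by
      have := Real.exp_one_lt_d9
      linarith
    have h5 : ∑ g ∈ A, (if bad w g then Real.exp 1 else 1) ≤ (A.card : ℝ) + 2 * H.card := by
      have h6 : ∑ g ∈ A, (if bad w g then Real.exp 1 else 1) ≤
          ∑ g ∈ A, (1 + (if g ∈ H then (2 : ℝ) else 0)) := by
        refine sum_le_sum fun g hg => ?_
        by_cases hgH : g ∈ H
        · rw [if_pos hgH]
          split_ifs <;> linarith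
        · rw [if_neg hgH, if_neg (h2 g hg hgH)]
          linarith
      refine h6.trans ?_
      rw [sum_add_distrib, sum_const, nsmul_eq_mul, mul_one, ← sum_filter, sum_const,
        nsmul_eq_mul]
      have h7 : A.filter (fun g => g ∈ H) = H := by
        ext g
        rw [mem_filter]
        exact ⟨fun h => h.2, fun h => ⟨h1 h, h⟩⟩
      rw [h7]
      linarith
    calc f w * ∑ g ∈ A, (if bad w g then Real.exp 1 else 1)
        ≤ f w * (A.card * (1 + 2 * p)) := by
          refine mul_le_mul_of_nonneg_left (h5.trans ?_) (hf w).le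
          nlinarith
      _ = (A.card : ℝ) * ((1 + 2 * p) * f w) := by ring
  obtain ⟨g, hg, hgl⟩ := exists_le_of_sum_le hA hav
  refine ⟨g, hg, hgl.trans ?_⟩
  refine mul_le_mul_of_nonneg_right ?_ (sum_nonneg fun x _ => (hf x).le)
  have := Real.add_one_le_exp (2 * p)
  linarith

end REGL

open REGL

open Classical in
theorem seq : S_SEQ := by
  intro Cand Ts Sta _ T s₀ p R allowed next good bad hp hT h0 hnext hH
  have key : ∀ i ≤ R, ∃ (l : ℕ → Cand) (st : ℕ → Sta), st 0 = s₀ ∧
      (∀ j < i, l j ∈ allowed (st j)) ∧ (∀ j < i, st (j + 1) = next (st j) (l j)) ∧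
      (∀ j ≤ i, good j (st j)) ∧
      ∑ w ∈ T, Real.exp (((bads bad l i w).card : ℝ)) ≤ Real.exp (2 * p * i) * T.card := by
    intro i
    induction i with
    | zero =>
      intro _
      refine ⟨fun _ => Classical.arbitrary Cand, fun _ => s₀, rfl, fun j hj => (by omega),
        fun j hj => (by omega), fun j hj => ?_, ?_⟩
      · obtain rfl : j = 0 := by omega
        exact h0
      · simp [bads]
    | succ i ih =>
      intro hi
      obtain ⟨l, st, h1, h2, h3, h4, h5⟩ := ih (by omega)
      obtain ⟨hne, hb⟩ := hH i (st i) (by omega) (h4 i le_rfl)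
      obtain ⟨g, hg, hgl⟩ := step (allowed (st i)) hne T p bad
        (fun x => Real.exp (((bads bad l i x).card : ℝ))) (fun x => Real.exp_pos _) hb
      refine ⟨Function.update l i g, Function.update st (i + 1) (next (st i) g), ?_, ?_, ?_, ?_, ?_⟩
      · rw [Function.update_of_ne (by omega), h1]
      · intro j hj
        rw [Function.update_of_ne (show j ≠ i + 1 by omega)]
        by_cases hji : j = i
        · subst hji
          rw [Function.update_self]
          exact hg
        · rw [Function.update_of_ne hji]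
          exact h2 j (by omega)
      · intro j hj
        rw [Function.update_of_ne (show j ≠ i + 1 by omega)]
        by_cases hji : j = i
        · subst hji
          rw [Function.update_self, Function.update_self]
        · rw [Function.update_of_ne hji, Function.update_of_ne (by omega)]
          exact h3 j (by omega)
      · intro j hj
        by_cases hji : j = i + 1
        · subst hji
          rw [Function.update_self]
          exact hnext i (st i) g (by omega) (h4 i le_rfl) hg
        · rw [Function.update_of_ne hji]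
          exact h4 j (by omega)
      · have h6 : ∀ x, Real.exp (((bads bad (Function.update l i g) (i + 1) x).card : ℝ)) =
            Real.exp (((bads bad l i x).card : ℝ)) *
              (if bad x g then Real.exp 1 else 1) := by
          intro x
          have h7 : (range i).filter (fun j => bad x (Function.update l i g j)) =
              bads bad l i x := by
            refine filter_congr fun j hj => ?_
            rw [Function.update_of_ne (by rw [mem_range] at hj; omega)]
          unfold bads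
          rw [range_add_one, filter_insert, Function.update_self]
          split_ifs with hx
          · rw [card_insert_of_notMem (by simp), h7, ← Real.exp_add]
            unfold bads
            congr 1
            push_cast
            ring
          · rw [h7, mul_one]
            rfl
        calc ∑ x ∈ T, Real.exp (((bads bad (Function.update l i g) (i + 1) x).card : ℝ))
            = ∑ x ∈ T, Real.exp (((bads bad l i x).card : ℝ)) *
              (if bad x g then Real.exp 1 else 1) := sum_congr rfl fun x _ => h6 x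
          _ ≤ Real.exp (2 * p) * ∑ x ∈ T, Real.exp (((bads bad l i x).card : ℝ)) := hgl
          _ ≤ Real.exp (2 * p) * (Real.exp (2 * p * i) * T.card) :=
              mul_le_mul_of_nonneg_left h5 (Real.exp_pos _).le
          _ = Real.exp (2 * p * (i + 1 : ℕ)) * T.card := by
              rw [← mul_assoc, ← Real.exp_add]
              congr 2
              push_cast
              ring
  obtain ⟨l, st, h1, h2, h3, h4, h5⟩ := key R le_rfl
  refine ⟨l, st, h1, h2, h3, h4, fun x hx => ⟨bads bad l R x, filter_subset _ _, ?_, ?_⟩⟩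
  · intro i hi hiW hb
    exact hiW (mem_filter.2 ⟨mem_range.2 hi, hb⟩)
  · have h6 : Real.exp (((bads bad l R x).card : ℝ)) ≤ Real.exp (2 * p * R) * T.card :=
      (single_le_sum (f := fun x => Real.exp (((bads bad l R x).card : ℝ)))
        (fun x _ => (Real.exp_pos _).le) hx).trans h5
    have hXp : (0 : ℝ) < T.card := by exact_mod_cast card_pos.2 hT
    have h7 : Real.exp (2 * p * R) * T.card = Real.exp (2 * p * R + Real.log T.card) := by
      rw [Real.exp_add, Real.exp_log hXp]
    rw [h7, Real.exp_le_exp] at h6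
    linarith

namespace REGL

/-! ## Counting -/

open Classical in
/-- functions whose `j`-th coordinate is in a small set depending on the other coordinates -/
theorem fib {V : Type} [DecidableEq V] {r : ℕ} (A : Finset V) (j : Fin r)
    (E : (Fin r → V) → Finset V) (hE : ∀ b v, E (Function.update b j v) = E b) (δ : ℝ)
    (hδ0 : 0 ≤ δ) (hδ : ∀ b, ((E b).card : ℝ) ≤ δ) :
    (((Fintype.piFinset (fun _ : Fin r => A)).filter (fun b => b j ∈ E b)).card : ℝ) ≤
      δ * (A.card : ℝ) ^ (r - 1) := by
  have h1 := Finset.card_le_mul_card_image_of_maps_to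
    (s := (Fintype.piFinset (fun _ : Fin r => A)).filter (fun b => b j ∈ E b))
    (t := Fintype.piFinset (fun _ : {i : Fin r // i ≠ j} => A))
    (f := fun (b : Fin r → V) (i : {i : Fin r // i ≠ j}) => b i.1) (by
      intro b hb
      rw [mem_filter, Fintype.mem_piFinset] at hb
      rw [Fintype.mem_piFinset]
      intro i
      exact hb.1 i.1) ⌊δ⌋₊ (by
      intro ρ _
      rcases (((Fintype.piFinset (fun _ : Fin r => A)).filter (fun b => b j ∈ E b)).filter
        (fun b => (fun (i : {i : Fin r // i ≠ j}) => b i.1) = ρ)).eq_empty_or_nonempty with he | ⟨b₀, hb₀⟩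
      · rw [he, card_empty]
        exact Nat.zero_le _
      · rw [mem_filter, mem_filter] at hb₀
        have h2 : ∀ b ∈ (((Fintype.piFinset (fun _ : Fin r => A)).filter (fun b => b j ∈ E b)).filter
            (fun b => (fun (i : {i : Fin r // i ≠ j}) => b i.1) = ρ)),
            b = Function.update b₀ j (b j) := by
          intro b hb
          rw [mem_filter, mem_filter] at hb
          funext i
          by_cases hij : i = j
          · subst hij
            rw [Function.update_self]
          · rw [Function.update_of_ne hij]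
            have h3 := congrFun (hb.2.trans hb₀.2.symm) ⟨i, hij⟩
            exact h3
        refine le_trans (Finset.card_le_card_of_injOn (fun b => b j) (t := E b₀) ?_ ?_)
          (Nat.le_floor (hδ b₀))
        · intro b hb
          have h3 := h2 b hb
          have h4 := (mem_filter.1 (mem_filter.1 hb).1).2
          rw [h3, hE] at h4
          rw [Function.update_self] at h4
          exact h4
        · intro b hb b' hb' hbb
          rw [h2 b hb, h2 b' hb']
          simp only at hbb
          rw [hbb])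
  have h5 : (Fintype.piFinset (fun _ : {i : Fin r // i ≠ j} => A)).card = A.card ^ (r - 1) := by
    rw [Fintype.card_piFinset, prod_const, card_univ]
    congr 1
    have := Fintype.card_subtype_compl (fun i : Fin r => i = j)
    simp only [Fintype.card_fin, Fintype.card_unique] at this
    rw [← this]
  rw [h5] at h1
  have h6 : (((Fintype.piFinset (fun _ : Fin r => A)).filter (fun b => b j ∈ E b)).card : ℝ) ≤
      (⌊δ⌋₊ : ℝ) * (A.card : ℝ) ^ (r - 1) := by exact_mod_cast h1
  exact h6.trans (mul_le_mul_of_nonneg_right (Nat.floor_le hδ0) (by positivity))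

open Classical in
/-- pairs (function, vertex) with an exceptional coordinate -/
theorem cnt {V : Type} [DecidableEq V] {r : ℕ} (A Z : Finset V)
    (E : Fin r → (Fin r → V) → V → Finset V) (F : (Fin r → V) → Finset V) (δ η : ℝ)
    (hδ : 0 ≤ δ) (hE : ∀ j b v y, E j (Function.update b j v) y = E j b y)
    (hEc : ∀ j b y, ((E j b y).card : ℝ) ≤ δ) (hFc : ∀ b, ((F b).card : ℝ) ≤ η) :
    ((((Fintype.piFinset (fun _ : Fin r => A)) ×ˢ Z).filter
      (fun q => (∃ j, q.1 j ∈ E j q.1 q.2) ∨ q.2 ∈ F q.1)).card : ℝ) ≤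
      r * δ * (A.card : ℝ) ^ (r - 1) * Z.card + η * (A.card : ℝ) ^ r := by
  have hc : ∀ (Q : (Fin r → V) × V → Prop) [DecidablePred Q],
      (((Fintype.piFinset (fun _ : Fin r => A)) ×ˢ Z).filter Q).card =
        ∑ y ∈ Z, ((Fintype.piFinset (fun _ : Fin r => A)).filter (fun b => Q (b, y))).card := by
    intro Q _
    rw [card_filter, sum_product_right]
    refine sum_congr rfl fun y _ => ?_
    rw [card_filter]
  have hc' : ∀ (Q : (Fin r → V) × V → Prop) [DecidablePred Q],
      (((Fintype.piFinset (fun _ : Fin r => A)) ×ˢ Z).filter Q).card =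
        ∑ b ∈ (Fintype.piFinset (fun _ : Fin r => A)), (Z.filter (fun y => Q (b, y))).card := by
    intro Q _
    rw [card_filter, sum_product]
    refine sum_congr rfl fun y _ => ?_
    rw [card_filter]
  have h1 : ((Fintype.piFinset (fun _ : Fin r => A)) ×ˢ Z).filter
      (fun q => (∃ j, q.1 j ∈ E j q.1 q.2) ∨ q.2 ∈ F q.1) ⊆
      (univ : Finset (Fin r)).biUnion (fun j => ((Fintype.piFinset (fun _ : Fin r => A)) ×ˢ Z).filter
        (fun q => q.1 j ∈ E j q.1 q.2)) ∪ ((Fintype.piFinset (fun _ : Fin r => A)) ×ˢ Z).filter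
        (fun q => q.2 ∈ F q.1) := by
    intro q hq
    rw [mem_filter] at hq
    rcases hq.2 with ⟨j, hj⟩ | hj
    · exact mem_union_left _ (mem_biUnion.2 ⟨j, mem_univ _, mem_filter.2 ⟨hq.1, hj⟩⟩)
    · exact mem_union_right _ (mem_filter.2 ⟨hq.1, hj⟩)
  have h2 := (card_le_card h1).trans (card_union_le _ _)
  have h3 : ∀ j : Fin r, (((((Fintype.piFinset (fun _ : Fin r => A)) ×ˢ Z).filter
      (fun q => q.1 j ∈ E j q.1 q.2)).card : ℕ) : ℝ) ≤ δ * (A.card : ℝ) ^ (r - 1) * Z.card := by
    intro j
    rw [hc]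
    push_cast
    calc ∑ y ∈ Z, (((Fintype.piFinset (fun _ : Fin r => A)).filter
          (fun b => b j ∈ E j b y)).card : ℝ)
        ≤ ∑ _y ∈ Z, δ * (A.card : ℝ) ^ (r - 1) := by
          refine sum_le_sum fun y _ => ?_
          exact fib A j (fun b => E j b y) (fun b v => hE j b v y) δ hδ (fun b => hEc j b y)
      _ = δ * (A.card : ℝ) ^ (r - 1) * Z.card := by
          rw [sum_const, nsmul_eq_mul]
          ring
  have h4 : ((((((Fintype.piFinset (fun _ : Fin r => A)) ×ˢ Z).filter
      (fun q => q.2 ∈ F q.1)).card : ℕ)) : ℝ) ≤ η * (A.card : ℝ) ^ r := by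
    rw [hc']
    push_cast
    calc ∑ b ∈ (Fintype.piFinset (fun _ : Fin r => A)), ((Z.filter (fun y => y ∈ F b)).card : ℝ)
        ≤ ∑ _b ∈ (Fintype.piFinset (fun _ : Fin r => A)), η := by
          refine sum_le_sum fun b _ => le_trans ?_ (hFc b)
          exact_mod_cast card_le_card (fun y hy => (mem_filter.1 hy).2)
      _ = η * (A.card : ℝ) ^ r := by
          rw [sum_const, nsmul_eq_mul, Fintype.card_piFinset, prod_const, card_univ,
            Fintype.card_fin]
          push_cast
          ring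
  have h5 : (((univ : Finset (Fin r)).biUnion (fun j => ((Fintype.piFinset (fun _ : Fin r => A)) ×ˢ
      Z).filter (fun q => q.1 j ∈ E j q.1 q.2))).card : ℝ) ≤
      r * δ * (A.card : ℝ) ^ (r - 1) * Z.card := by
    calc (((univ : Finset (Fin r)).biUnion (fun j => ((Fintype.piFinset (fun _ : Fin r => A)) ×ˢ
      Z).filter (fun q => q.1 j ∈ E j q.1 q.2))).card : ℝ)
        ≤ ∑ j : Fin r, ((((Fintype.piFinset (fun _ : Fin r => A)) ×ˢ Z).filter
          (fun q => q.1 j ∈ E j q.1 q.2)).card : ℝ) := by exact_mod_cast card_biUnion_le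
      _ ≤ ∑ _j : Fin r, δ * (A.card : ℝ) ^ (r - 1) * Z.card := sum_le_sum fun j _ => h3 j
      _ = r * δ * (A.card : ℝ) ^ (r - 1) * Z.card := by
          rw [sum_const, nsmul_eq_mul, card_univ, Fintype.card_fin]
          ring
  have h6 : ((((Fintype.piFinset (fun _ : Fin r => A)) ×ˢ Z).filter
      (fun q => (∃ j, q.1 j ∈ E j q.1 q.2) ∨ q.2 ∈ F q.1)).card : ℝ) ≤
      (((univ : Finset (Fin r)).biUnion (fun j => ((Fintype.piFinset (fun _ : Fin r => A)) ×ˢ
      Z).filter (fun q => q.1 j ∈ E j q.1 q.2))).card : ℝ) +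
      ((((Fintype.piFinset (fun _ : Fin r => A)) ×ˢ Z).filter
      (fun q => q.2 ∈ F q.1)).card : ℝ) := by exact_mod_cast h2
  linarith

/-! ## Good sets -/

open Classical in
theorem mem_ex {V : Type} [DecidableEq V] {K : Finset V → Prop} {U T : Finset V} {v : V} :
    v ∈ ex K U T ↔ v ∈ U ∧ v ∉ T ∧ K (insert v T) := by
  unfold ex
  rw [mem_filter]

/-- good sets: extended by almost all vertices of `Y` -/
def Gd {V : Type} [Fintype V] [DecidableEq V] (k : ℕ) (K : Finset V → Prop) (g : ℝ) (Y : Finset V)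
    (T : Finset V) : Prop :=
  K T ∧ ((Y \ ex K univ T).card : ℝ) ≤ (T.card : ℝ) * (g / k * (Fintype.card V : ℝ))

open Classical in
theorem keyc {V : Type} [Fintype V] [DecidableEq V] {k : ℕ} {K : Finset V → Prop} {c g : ℝ}
    {X' Y' : Finset V} (hk : 3 ≤ k) (hK : Cx k K) (hB : BS k K c X' Y') (hc : 0 < c) (hg : 0 < g)
    (hg1 : g ≤ 1 / (32 * (k : ℝ))) (hN : 0 < Fintype.card V) (T : Finset V)
    (hT : Gd k K g Y' T) (hTc : T.card < k - 1) :
    ((X'.filter (fun b => b ∉ T ∧ ¬ Gd k K g Y' (insert b T))).card : ℝ) ≤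
      k * c * (Fintype.card V : ℝ) / g := by
  set N : ℝ := (Fintype.card V : ℝ) with hNdef
  have hN' : 0 < N := by rw [hNdef]; exact_mod_cast hN
  have hk' : (3 : ℝ) ≤ k := by exact_mod_cast hk
  have hkpos : (0 : ℝ) < k := by linarith
  set S := X'.filter (fun b => b ∉ T ∧ ¬ Gd k K g Y' (insert b T)) with hS
  set Z := Y' ∩ ex K univ T with hZ
  -- many bad pairs for every bad vertex
  have h1 : ∀ b ∈ S, g / k * N ≤ ((Z.filter (fun y => b ∉ ex K univ (insert y T))).card : ℝ) := by
    intro b hb
    rw [hS, mem_filter] at hb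
    obtain ⟨hbX, hbT, hbad⟩ := hb
    have hbY : b ∉ Y' := fun h => (Finset.disjoint_left.1 hB.dis) hbX h
    -- good pairs
    have h2 : ∀ y ∈ Z, b ∈ ex K univ (insert y T) → K (insert b T) ∧ y ∈ ex K univ (insert b T) := by
      intro y hy hby
      rw [hZ, mem_inter, mem_ex] at hy
      rw [mem_ex] at hby
      obtain ⟨hyY, -, hyT, hyK⟩ := hy
      obtain ⟨-, hb1, hb2⟩ := hby
      refine ⟨hK.sub _ _ hb2 ?_, ?_⟩
      · intro v hv
        rw [mem_insert] at hv ⊢
        rcases hv with rfl | hv
        · exact Or.inl rfl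
        · exact Or.inr (mem_insert_of_mem hv)
      · rw [mem_ex]
        refine ⟨mem_univ _, ?_, ?_⟩
        · rw [mem_insert, not_or]
          exact ⟨fun h => hbY (h ▸ hyY), hyT⟩
        · rw [Finset.insert_comm]
          exact hb2
    by_cases hKb : K (insert b T)
    · have h3 : Y' \ ex K univ (insert b T) ⊆ (Y' \ ex K univ T) ∪
          Z.filter (fun y => b ∉ ex K univ (insert y T)) := by
        intro y hy
        rw [mem_sdiff] at hy
        rw [mem_union]
        by_cases hy2 : y ∈ ex K univ T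
        · right
          rw [mem_filter, hZ, mem_inter]
          exact ⟨⟨hy.1, hy2⟩, fun h => hy.2 (h2 y (by rw [hZ, mem_inter]; exact ⟨hy.1, hy2⟩) h).2⟩
        · left
          rw [mem_sdiff]
          exact ⟨hy.1, hy2⟩
      have h4 : ((Y' \ ex K univ (insert b T)).card : ℝ) ≤ ((Y' \ ex K univ T).card : ℝ) +
          ((Z.filter (fun y => b ∉ ex K univ (insert y T))).card : ℝ) := by
        exact_mod_cast (card_le_card h3).trans (card_union_le _ _)
      have h5 : ((insert b T).card : ℝ) * (g / k * N) < ((Y' \ ex K univ (insert b T)).card : ℝ) := by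
        by_contra hcon
        exact hbad ⟨hKb, not_lt.1 hcon⟩
      rw [card_insert_of_notMem hbT] at h5
      have h6 := hT.2
      push_cast at h5
      rw [← hNdef] at h6
      linarith
    · have h3 : Z.filter (fun y => b ∉ ex K univ (insert y T)) = Z := by
        rw [filter_eq_self]
        intro y hy h
        exact hKb (h2 y hy h).1
      rw [h3]
      have h4 : (Y'.card : ℝ) ≤ (Z.card : ℝ) + ((Y' \ ex K univ T).card : ℝ) := by
        have : Y' ⊆ Z ∪ (Y' \ ex K univ T) := by
          intro y hy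
          rw [mem_union, hZ, mem_inter, mem_sdiff]
          by_cases h : y ∈ ex K univ T
          · exact Or.inl ⟨hy, h⟩
          · exact Or.inr ⟨hy, h⟩
        exact_mod_cast (card_le_card this).trans (card_union_le _ _)
      have h5 := hB.cY
      have h6 := hT.2
      rw [← hNdef] at h6 h5
      have h7 : (T.card : ℝ) ≤ k - 2 := by
        have : T.card + 2 ≤ k := by omega
        have : ((T.card + 2 : ℕ) : ℝ) ≤ k := by exact_mod_cast this
        push_cast at this
        linarith
      have h8 : (T.card : ℝ) * (g / k * N) ≤ (k - 2) * (g / k * N) :=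
        mul_le_mul_of_nonneg_right h7 (by positivity)
      have h9 : (k - 2) * (g / k * N) + g / k * N ≤ g * N := by
        have : (k - 2) * (g / k * N) + g / k * N = g * N - g / k * N := by
          field_simp
          ring
        rw [this]
        have : 0 ≤ g / k * N := by positivity
        linarith
      have h10 : g * N ≤ 1 / (32 * k) * N := mul_le_mul_of_nonneg_right hg1 hN'.le
      have h11 : 1 / (32 * k) * N ≤ N / (2 * k) := by
        rw [one_div, div_eq_mul_inv, mul_comm]
        refine mul_le_mul_of_nonneg_left ?_ hN'.le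
        apply inv_anti₀ (by positivity)
        linarith
      linarith
  -- double counting
  have h2 : ∑ b ∈ S, (Z.filter (fun y => b ∉ ex K univ (insert y T))).card =
      ∑ y ∈ Z, (S.filter (fun b => b ∉ ex K univ (insert y T))).card := by
    have := Finset.sum_card_bipartiteAbove_eq_sum_card_bipartiteBelow (s := S) (t := Z)
      (fun b y => b ∉ ex K univ (insert y T))
    exact this
  have h3 : ∀ y ∈ Z, ((S.filter (fun b => b ∉ ex K univ (insert y T))).card : ℝ) ≤ c * N := by
    intro y hy
    rw [hZ, mem_inter, mem_ex] at hy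
    have h4 := hB.exts y hy.1 (insert y T) hy.2.2.2 (mem_insert_self _ _) (by
      rw [card_insert_of_notMem hy.2.2.1]
      omega)
    refine le_trans ?_ h4
    have : S.filter (fun b => b ∉ ex K univ (insert y T)) ⊆ X' \ ex K univ (insert y T) := by
      intro b hb
      rw [mem_filter] at hb
      rw [mem_sdiff]
      exact ⟨(mem_filter.1 hb.1).1, hb.2⟩
    exact_mod_cast card_le_card this
  have h4 : (S.card : ℝ) * (g / k * N) ≤ N * (c * N) := by
    calc (S.card : ℝ) * (g / k * N) = ∑ _b ∈ S, g / k * N := by rw [sum_const, nsmul_eq_mul]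
      _ ≤ ∑ b ∈ S, ((Z.filter (fun y => b ∉ ex K univ (insert y T))).card : ℝ) := sum_le_sum h1
      _ = ∑ y ∈ Z, ((S.filter (fun b => b ∉ ex K univ (insert y T))).card : ℝ) := by
          exact_mod_cast h2
      _ ≤ ∑ _y ∈ Z, c * N := sum_le_sum h3
      _ = (Z.card : ℝ) * (c * N) := by rw [sum_const, nsmul_eq_mul]
      _ ≤ N * (c * N) := by
          refine mul_le_mul_of_nonneg_right ?_ (by positivity)
          rw [hNdef]
          exact_mod_cast card_le_univ Z
  have h5 : (S.card : ℝ) * (g / k) ≤ c * N := by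
    have : (S.card : ℝ) * (g / k) * N ≤ c * N * N := by linarith
    exact le_of_mul_le_mul_right this hN'
  rw [le_div_iff₀ hg]
  have h6 : (S.card : ℝ) * (g / k) = (S.card : ℝ) * g / k := by ring
  rw [h6, div_le_iff₀ hkpos] at h5
  linarith

/-! ## Sequential choice of good sets -/

open Classical in
/-- the exceptional vertices for the coordinate `j` (start `D`, active coordinates `I`) -/
noncomputable def Est {V : Type} [Fintype V] [DecidableEq V] {r : ℕ} (k : ℕ) (K : Finset V → Prop)
    (g : ℝ) (X' Y' D : Finset V) (I : Finset (Fin r)) (j : Fin r) (b : Fin r → V) : Finset V :=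
  if Gd k K g Y' (D ∪ (I.filter (fun i => i < j)).image b) ∧
      (D ∪ (I.filter (fun i => i < j)).image b).card < k - 1 then
    (D ∪ (I.filter (fun i => i < j)).image b) ∪ X'.filter (fun v =>
      v ∉ (D ∪ (I.filter (fun i => i < j)).image b) ∧
      ¬ Gd k K g Y' (insert v (D ∪ (I.filter (fun i => i < j)).image b)))
  else ∅

theorem Est_update {V : Type} [Fintype V] [DecidableEq V] {r : ℕ} (k : ℕ) (K : Finset V → Prop)
    (g : ℝ) (X' Y' D : Finset V) (I : Finset (Fin r)) (j : Fin r) (b : Fin r → V) (v : V) :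
    Est k K g X' Y' D I j (Function.update b j v) = Est k K g X' Y' D I j b := by
  have h : (I.filter (fun i => i < j)).image (Function.update b j v) =
      (I.filter (fun i => i < j)).image b := by
    refine Finset.image_congr ?_
    intro i hi
    rw [mem_coe, mem_filter] at hi
    rw [Function.update_of_ne hi.2.ne]
  unfold Est
  rw [h]

theorem Est_card {V : Type} [Fintype V] [DecidableEq V] {r : ℕ} {k : ℕ} {K : Finset V → Prop}
    {c g : ℝ} {X' Y' : Finset V} (hk : 3 ≤ k) (hK : Cx k K) (hB : BS k K c X' Y') (hc : 0 < c)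
    (hg : 0 < g) (hg1 : g ≤ 1 / (32 * (k : ℝ))) (hN : 0 < Fintype.card V) (D : Finset V)
    (I : Finset (Fin r)) (j : Fin r) (b : Fin r → V) :
    ((Est k K g X' Y' D I j b).card : ℝ) ≤ k + k * c * (Fintype.card V : ℝ) / g := by
  unfold Est
  split_ifs with h
  · have h1 := keyc hk hK hB hc hg hg1 hN _ h.1 h.2
    have h2 : ((D ∪ (I.filter (fun i => i < j)).image b).card : ℝ) ≤ k := by
      have : (D ∪ (I.filter (fun i => i < j)).image b).card ≤ k := by omega
      exact_mod_cast this
    refine le_trans ?_ (add_le_add h2 h1)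
    exact_mod_cast card_union_le _ _
  · rw [card_empty]
    have : (0 : ℝ) ≤ k + k * c * (Fintype.card V : ℝ) / g := by positivity
    exact_mod_cast this

open Classical in
theorem star {V : Type} [Fintype V] [DecidableEq V] {r : ℕ} {k : ℕ} {K : Finset V → Prop}
    {g : ℝ} {X' Y' : Finset V} (D : Finset V) (I : Finset (Fin r)) (hD : Gd k K g Y' D)
    (hDI : D.card + I.card ≤ k - 1) (b : Fin r → V) (hb : ∀ i, b i ∈ X')
    (hE : ∀ j, b j ∉ Est k K g X' Y' D I j b) :
    Gd k K g Y' (D ∪ I.image b) ∧ (D ∪ I.image b).card = D.card + I.card := by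
  have key : ∀ j : ℕ, j ≤ r → Gd k K g Y' (D ∪ (I.filter (fun i => i.val < j)).image b) ∧
      (D ∪ (I.filter (fun i => i.val < j)).image b).card =
        D.card + (I.filter (fun i => i.val < j)).card := by
    intro j
    induction j with
    | zero =>
      intro _
      have : I.filter (fun i : Fin r => i.val < 0) = ∅ := by
        rw [filter_eq_empty_iff]
        intro i _
        omega
      rw [this, image_empty, union_empty, card_empty]
      exact ⟨hD, by omega⟩
    | succ j ih =>
      intro hj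
      obtain ⟨h1, h2⟩ := ih (by omega)
      by_cases hjI : (⟨j, by omega⟩ : Fin r) ∈ I
      · have h3 : I.filter (fun i : Fin r => i.val < j + 1) =
            insert (⟨j, by omega⟩ : Fin r) (I.filter (fun i : Fin r => i.val < j)) := by
          ext i
          rw [mem_insert, mem_filter, mem_filter, Fin.ext_iff]
          constructor
          · rintro ⟨h, h'⟩
            rcases Nat.lt_succ_iff_lt_or_eq.1 h' with h'' | h''
            · exact Or.inr ⟨h, h''⟩
            · exact Or.inl h''
          · rintro (h | ⟨h, h'⟩)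
            · have : i = ⟨j, by omega⟩ := Fin.ext h
              rw [this]
              exact ⟨hjI, by simp⟩
            · exact ⟨h, by omega⟩
        have h4 : (⟨j, by omega⟩ : Fin r) ∉ I.filter (fun i : Fin r => i.val < j) := by
          rw [mem_filter]
          rintro ⟨-, h⟩
          simp at h
        have h5 : (I.filter (fun i : Fin r => i.val < j + 1)).card =
            (I.filter (fun i : Fin r => i.val < j)).card + 1 := by
          rw [h3, card_insert_of_notMem h4]
        have h6 : (I.filter (fun i : Fin r => i.val < j + 1)).card ≤ I.card :=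
          card_le_card (filter_subset _ _)
        have h7 := hE ⟨j, by omega⟩
        have h8 : (I.filter (fun i => i < (⟨j, by omega⟩ : Fin r))) =
            I.filter (fun i : Fin r => i.val < j) := by
          refine filter_congr fun i _ => ?_
          rw [Fin.lt_def]
        unfold Est at h7
        rw [h8, if_pos ⟨h1, by omega⟩, mem_union, not_or, mem_filter, not_and, not_and, not_not] at h7
        have h9 : D ∪ (I.filter (fun i : Fin r => i.val < j + 1)).image b =
            insert (b ⟨j, by omega⟩) (D ∪ (I.filter (fun i : Fin r => i.val < j)).image b) := by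
          rw [h3, image_insert, union_insert]
        rw [h9, card_insert_of_notMem h7.1, h2, h5]
        exact ⟨h7.2 (hb _) h7.1, by omega⟩
      · have h3 : I.filter (fun i : Fin r => i.val < j + 1) =
            I.filter (fun i : Fin r => i.val < j) := by
          refine filter_congr fun i hi => ?_
          constructor
          · intro h
            rcases Nat.lt_succ_iff_lt_or_eq.1 h with h' | h'
            · exact h'
            · exact absurd hi (by
                have : i = ⟨j, by omega⟩ := Fin.ext h'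
                rw [this]
                exact hjI)
          · intro h
            omega
        rw [h3]
        exact ⟨h1, h2⟩
  have h := key r le_rfl
  have h3 : I.filter (fun i : Fin r => i.val < r) = I := by
    rw [filter_eq_self]
    intro i _
    exact i.2
  rw [h3] at h
  exact h

/-! ## Windows -/

/-- the first `j` values -/
def Lo {V : Type} [DecidableEq V] {r : ℕ} (f : Fin r → V) (j : ℕ) : Finset V :=
  (univ.filter (fun i : Fin r => i.val < j)).image f

/-- the values from the index `j` on -/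
def Hi {V : Type} [DecidableEq V] {r : ℕ} (f : Fin r → V) (j : ℕ) : Finset V :=
  (univ.filter (fun i : Fin r => j ≤ i.val)).image f

theorem card_Lo {V : Type} [DecidableEq V] {r : ℕ} (f : Fin r → V) (j : ℕ) : (Lo f j).card ≤ j := by
  unfold Lo
  refine card_image_le.trans ?_
  have : (univ.filter (fun i : Fin r => i.val < j)).card ≤ (range j).card :=
    card_le_card_of_injOn (fun i => i.val) (by
      intro i hi
      rw [mem_coe, mem_filter] at hi
      rw [mem_coe, mem_range]
      exact hi.2) (fun a _ b _ hab => Fin.ext hab)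
  rwa [card_range] at this

theorem card_Hi {V : Type} [DecidableEq V] {r : ℕ} (f : Fin r → V) (j : ℕ) :
    (Hi f j).card ≤ r - j := by
  unfold Hi
  refine card_image_le.trans ?_
  have : (univ.filter (fun i : Fin r => j ≤ i.val)).card ≤ (Ico j r).card :=
    card_le_card_of_injOn (fun i => i.val) (by
      intro i hi
      rw [mem_coe, mem_filter] at hi
      rw [mem_coe, mem_Ico]
      exact ⟨hi.2, i.2⟩) (fun a _ b _ hab => Fin.ext hab)
  rwa [Nat.card_Ico] at this

theorem mem_Lo {V : Type} [DecidableEq V] {r : ℕ} {f : Fin r → V} {j : ℕ} {v : V} :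
    v ∈ Lo f j ↔ ∃ i : Fin r, i.val < j ∧ f i = v := by
  unfold Lo
  simp only [mem_image, mem_filter, mem_univ, true_and]

theorem mem_Hi {V : Type} [DecidableEq V] {r : ℕ} {f : Fin r → V} {j : ℕ} {v : V} :
    v ∈ Hi f j ↔ ∃ i : Fin r, j ≤ i.val ∧ f i = v := by
  unfold Hi
  simp only [mem_image, mem_filter, mem_univ, true_and]

theorem Lo_all {V : Type} [DecidableEq V] {r : ℕ} (f : Fin r → V) : Lo f r = univ.image f := by
  ext v
  rw [mem_Lo, mem_image]
  constructor
  · rintro ⟨i, -, h⟩
    exact ⟨i, mem_univ _, h⟩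
  · rintro ⟨i, -, h⟩
    exact ⟨i, i.2, h⟩

theorem Hi_zero {V : Type} [DecidableEq V] {r : ℕ} (f : Fin r → V) : Hi f 0 = univ.image f := by
  ext v
  rw [mem_Hi, mem_image]
  constructor
  · rintro ⟨i, -, h⟩
    exact ⟨i, mem_univ _, h⟩
  · rintro ⟨i, -, h⟩
    exact ⟨i, Nat.zero_le _, h⟩

theorem Lo_zero {V : Type} [DecidableEq V] {r : ℕ} (f : Fin r → V) : Lo f 0 = ∅ := by
  ext v
  rw [mem_Lo]
  simp

theorem Hi_all {V : Type} [DecidableEq V] {r : ℕ} (f : Fin r → V) : Hi f r = ∅ := by
  ext v
  rw [mem_Hi]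
  constructor
  · rintro ⟨i, h, -⟩
    exact absurd i.2 (by omega)
  · intro h
    simp at h

theorem ofFn_set {V : Type} [DecidableEq V] {r : ℕ} (f : Fin r → V) :
    (List.ofFn f).toFinset = univ.image f := by
  ext v
  rw [List.mem_toFinset, List.mem_ofFn, mem_image]
  simp

theorem tpl {V : Type} [DecidableEq V] {r k : ℕ} (hk : r + 1 = k) {K : Finset V → Prop}
    (hK : Cx k K) (u w : Fin r → V) (z : V)
    (h : ∀ j ≤ r, K (insert z (Hi u j ∪ Lo w j))) :
    TP K k (List.ofFn u ++ [z] ++ List.ofFn w) := by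
  intro i
  refine hK.sub _ _ (h (min i r) (min_le_right _ _)) ?_
  intro v hv
  rw [List.mem_toFinset, List.mem_iff_getElem?] at hv
  obtain ⟨m, hm⟩ := hv
  rw [List.getElem?_take] at hm
  split_ifs at hm with hmk
  rw [List.getElem?_drop, List.append_assoc, List.getElem?_append, List.length_ofFn] at hm
  split_ifs at hm with h1
  · rw [List.getElem?_ofFn, dif_pos h1] at hm
    have h2 := Option.some.inj hm
    rw [mem_insert, mem_union, mem_Hi]
    exact Or.inr (Or.inl ⟨⟨i + m, h1⟩, by simp only; omega, h2⟩)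
  · rw [List.getElem?_append, List.length_singleton] at hm
    split_ifs at hm with h2
    · have h3 : i + m - r = 0 := by omega
      rw [h3] at hm
      have h4 := Option.some.inj hm
      rw [mem_insert]
      exact Or.inl h4.symm
    · rw [List.getElem?_ofFn] at hm
      split_ifs at hm with h3
      have h4 := Option.some.inj hm
      rw [mem_insert, mem_union, mem_Lo]
      exact Or.inr (Or.inr ⟨⟨i + m - r - 1, h3⟩, by simp only; omega, h4⟩)

/-! ## Exceptional sets for windows -/

open Classical in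
/-- forward: vertices which do not extend `z, u_(j+1), .., b_0, .., b_(j-1)` -/
noncomputable def Ef {V : Type} [Fintype V] [DecidableEq V] {r : ℕ} (K : Finset V → Prop)
    (X' : Finset V) (u : Fin r → V) (z : V) (j : Fin r) (b : Fin r → V) : Finset V :=
  if K (insert z (Hi u (j.val + 1) ∪ Lo b j.val)) then
    X' \ ex K univ (insert z (Hi u (j.val + 1) ∪ Lo b j.val)) else ∅

open Classical in
/-- backward -/
noncomputable def Eb {V : Type} [Fintype V] [DecidableEq V] {r : ℕ} (K : Finset V → Prop)
    (X' : Finset V) (w : Fin r → V) (z : V) (j : Fin r) (b : Fin r → V) : Finset V :=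
  if K (insert z (Hi b (j.val + 1) ∪ Lo w j.val)) then
    X' \ ex K univ (insert z (Hi b (j.val + 1) ∪ Lo w j.val)) else ∅

theorem Ef_update {V : Type} [Fintype V] [DecidableEq V] {r : ℕ} (K : Finset V → Prop)
    (X' : Finset V) (u : Fin r → V) (z : V) (j : Fin r) (b : Fin r → V) (v : V) :
    Ef K X' u z j (Function.update b j v) = Ef K X' u z j b := by
  have h : Lo (Function.update b j v) j.val = Lo b j.val := by
    unfold Lo
    refine Finset.image_congr ?_
    intro i hi
    rw [mem_coe, mem_filter] at hi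
    rw [Function.update_of_ne (fun h => by rw [h] at hi; exact lt_irrefl _ hi.2)]
  unfold Ef
  rw [h]

theorem Eb_update {V : Type} [Fintype V] [DecidableEq V] {r : ℕ} (K : Finset V → Prop)
    (X' : Finset V) (w : Fin r → V) (z : V) (j : Fin r) (b : Fin r → V) (v : V) :
    Eb K X' w z j (Function.update b j v) = Eb K X' w z j b := by
  have h : Hi (Function.update b j v) (j.val + 1) = Hi b (j.val + 1) := by
    unfold Hi
    refine Finset.image_congr ?_
    intro i hi
    rw [mem_coe, mem_filter] at hi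
    rw [Function.update_of_ne (fun h => by rw [h] at hi; omega)]
  unfold Eb
  rw [h]

theorem Ef_card {V : Type} [Fintype V] [DecidableEq V] {r k : ℕ} (hk : r + 1 = k)
    {K : Finset V → Prop} {c : ℝ} {X' Y' : Finset V} (hB : BS k K c X' Y') (hc : 0 < c)
    (u : Fin r → V) (z : V) (hz : z ∈ Y') (j : Fin r) (b : Fin r → V) :
    ((Ef K X' u z j b).card : ℝ) ≤ c * (Fintype.card V : ℝ) := by
  unfold Ef
  split_ifs with h
  · refine hB.exts z hz _ h (mem_insert_self _ _) ?_
    have h1 := card_insert_le z (Hi u (j.val + 1) ∪ Lo b j.val)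
    have h2 := card_union_le (Hi u (j.val + 1)) (Lo b j.val)
    have h3 := card_Hi u (j.val + 1)
    have h4 := card_Lo b j.val
    have h5 := j.2
    omega
  · rw [card_empty]
    have : (0 : ℝ) ≤ c * (Fintype.card V : ℝ) := by positivity
    exact_mod_cast this

theorem Eb_card {V : Type} [Fintype V] [DecidableEq V] {r k : ℕ} (hk : r + 1 = k)
    {K : Finset V → Prop} {c : ℝ} {X' Y' : Finset V} (hB : BS k K c X' Y') (hc : 0 < c)
    (w : Fin r → V) (z : V) (hz : z ∈ Y') (j : Fin r) (b : Fin r → V) :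
    ((Eb K X' w z j b).card : ℝ) ≤ c * (Fintype.card V : ℝ) := by
  unfold Eb
  split_ifs with h
  · refine hB.exts z hz _ h (mem_insert_self _ _) ?_
    have h1 := card_insert_le z (Hi b (j.val + 1) ∪ Lo w j.val)
    have h2 := card_union_le (Hi b (j.val + 1)) (Lo w j.val)
    have h3 := card_Hi b (j.val + 1)
    have h4 := card_Lo w j.val
    have h5 := j.2
    omega
  · rw [card_empty]
    have : (0 : ℝ) ≤ c * (Fintype.card V : ℝ) := by positivity
    exact_mod_cast this

/-- forward windows -/
theorem fwd {V : Type} [Fintype V] [DecidableEq V] {r k : ℕ} {K : Finset V → Prop}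
    (hK : Cx k K) {X' : Finset V} (u b : Fin r → V) (z : V) (h0 : K (insert z (univ.image u)))
    (hb : ∀ i, b i ∈ X') (hE : ∀ j, b j ∉ Ef K X' u z j b) :
    ∀ j ≤ r, K (insert z (Hi u j ∪ Lo b j)) := by
  intro j
  induction j with
  | zero =>
    intro _
    rw [Hi_zero, Lo_zero, union_empty]
    exact h0
  | succ j ih =>
    intro hj
    have h1 := ih (by omega)
    have h2 : K (insert z (Hi u (j + 1) ∪ Lo b j)) := by
      refine hK.sub _ _ h1 ?_
      intro v hv
      rw [mem_insert, mem_union] at hv ⊢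
      rcases hv with h | h | h
      · exact Or.inl h
      · rw [mem_Hi] at h
        obtain ⟨i, hi, hi'⟩ := h
        exact Or.inr (Or.inl (mem_Hi.2 ⟨i, by omega, hi'⟩))
      · exact Or.inr (Or.inr h)
    have h3 := hE ⟨j, by omega⟩
    unfold Ef at h3
    rw [if_pos h2, mem_sdiff, not_and, not_not] at h3
    have h4 := (mem_ex.1 (h3 (hb _))).2.2
    refine hK.sub _ _ h4 ?_
    intro v hv
    rw [mem_insert, mem_union] at hv
    rw [mem_insert, mem_insert, mem_union]
    rcases hv with h | h | h
    · exact Or.inr (Or.inl h)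
    · exact Or.inr (Or.inr (Or.inl h))
    · rw [mem_Lo] at h
      obtain ⟨i, hi, hi'⟩ := h
      rcases Nat.lt_succ_iff_lt_or_eq.1 hi with h' | h'
      · exact Or.inr (Or.inr (Or.inr (mem_Lo.2 ⟨i, h', hi'⟩)))
      · left
        rw [← hi']
        congr 1
        exact Fin.ext h'

/-- backward windows -/
theorem bwd {V : Type} [Fintype V] [DecidableEq V] {r k : ℕ} {K : Finset V → Prop}
    (hK : Cx k K) {X' : Finset V} (b w : Fin r → V) (z : V) (h0 : K (insert z (univ.image w)))
    (hb : ∀ i, b i ∈ X') (hE : ∀ j, b j ∉ Eb K X' w z j b) :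
    ∀ j ≤ r, K (insert z (Hi b j ∪ Lo w j)) := by
  intro j hj
  obtain ⟨m, hm⟩ : ∃ m, m + j = r := ⟨r - j, by omega⟩
  induction m generalizing j with
  | zero =>
    have hjr : j = r := by omega
    rw [hjr, Hi_all, Lo_all, empty_union]
    exact h0
  | succ m ih =>
    have h1 := ih (j + 1) (by omega) (by omega)
    have h2 : K (insert z (Hi b (j + 1) ∪ Lo w j)) := by
      refine hK.sub _ _ h1 ?_
      intro v hv
      rw [mem_insert, mem_union] at hv ⊢
      rcases hv with h | h | h
      · exact Or.inl h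
      · exact Or.inr (Or.inl h)
      · rw [mem_Lo] at h
        obtain ⟨i, hi, hi'⟩ := h
        exact Or.inr (Or.inr (mem_Lo.2 ⟨i, by omega, hi'⟩))
    have h3 := hE ⟨j, by omega⟩
    unfold Eb at h3
    rw [if_pos h2, mem_sdiff, not_and, not_not] at h3
    have h4 := (mem_ex.1 (h3 (hb _))).2.2
    refine hK.sub _ _ h4 ?_
    intro v hv
    rw [mem_insert, mem_union] at hv
    rw [mem_insert, mem_insert, mem_union]
    rcases hv with h | h | h
    · exact Or.inr (Or.inl h)
    · rw [mem_Hi] at h
      obtain ⟨i, hi, hi'⟩ := h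
      rcases Nat.lt_or_ge j i.val with h' | h'
      · exact Or.inr (Or.inr (Or.inl (mem_Hi.2 ⟨i, h', hi'⟩)))
      · left
        rw [← hi']
        congr 1
        exact Fin.ext (by simp only; omega)
    · exact Or.inr (Or.inr (Or.inr h))

/-! ## The numbers -/

theorem num {k : ℕ} {p g c N a z : ℝ} (hk : 3 ≤ k) (hp : 0 < p) (hg : 0 < g)
    (hg2 : g ≤ p ^ 2 / (32 * (k : ℝ))) (hc : c = g * p ^ 2 / (64 * (k : ℝ) ^ 2))
    (hN : 64 * (k : ℝ) ^ 2 / p ^ 2 ≤ N) (ha : p * N / 2 ≤ a) (hz : p * N / (2 * (k : ℝ)) ≤ z) :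
    ((k - 1 : ℕ) : ℝ) * (k + k * c * N / g) ≤ p / 16 * a ∧ g * N ≤ p / 16 * z := by
  have hk' : (3 : ℝ) ≤ k := by exact_mod_cast hk
  have hkpos : (0 : ℝ) < k := by linarith
  have hN0 : 0 < N := lt_of_lt_of_le (by positivity) hN
  have h1 : (k : ℝ) ^ 2 ≤ p ^ 2 * N / 64 := by
    rw [div_le_iff₀ (by positivity)] at hN
    linarith
  have h2 : k * (k * c * N / g) = p ^ 2 * N / 64 := by
    rw [hc]
    field_simp
  have h0 : 0 ≤ k * c * N / g := by
    rw [hc]
    positivity
  constructor
  · have h3 : ((k - 1 : ℕ) : ℝ) ≤ k := by exact_mod_cast Nat.sub_le k 1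
    calc ((k - 1 : ℕ) : ℝ) * (k + k * c * N / g) ≤ k * (k + k * c * N / g) :=
          mul_le_mul_of_nonneg_right h3 (by positivity)
      _ = (k : ℝ) ^ 2 + k * (k * c * N / g) := by ring
      _ ≤ p ^ 2 * N / 64 + p ^ 2 * N / 64 := by rw [h2]; linarith
      _ = p / 16 * (p * N / 2) := by ring
      _ ≤ p / 16 * a := mul_le_mul_of_nonneg_left ha (by positivity)
  · calc g * N ≤ p ^ 2 / (32 * (k : ℝ)) * N := mul_le_mul_of_nonneg_right hg2 hN0.le
      _ = p / 16 * (p * N / (2 * (k : ℝ))) := by
          field_simp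
          ring
      _ ≤ p / 16 * z := mul_le_mul_of_nonneg_left hz (by positivity)

/-- hypotheses on the numbers -/
structure Nm (k : ℕ) (p g c N : ℝ) : Prop where
  hk : 3 ≤ k
  hp : 0 < p
  hp1 : p < 1
  hg : 0 < g
  hg2 : g ≤ p ^ 2 / (32 * (k : ℝ))
  hc : c = g * p ^ 2 / (64 * (k : ℝ) ^ 2)
  hN : 64 * (k : ℝ) ^ 2 / p ^ 2 ≤ N

theorem Nm.c0 {k : ℕ} {p g c N : ℝ} (h : Nm k p g c N) : 0 < c := by
  have hk' : (3 : ℝ) ≤ k := by exact_mod_cast h.hk
  have hkpos : (0 : ℝ) < k := by linarith
  have h1 := h.hp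
  have h2 := h.hg
  rw [h.hc]
  positivity

theorem Nm.N0 {k : ℕ} {p g c N : ℝ} (h : Nm k p g c N) : 0 < N := by
  have hk' : (3 : ℝ) ≤ k := by exact_mod_cast h.hk
  have hkpos : (0 : ℝ) < k := by linarith
  have h1 := h.hp
  exact lt_of_lt_of_le (by positivity) h.hN

theorem Nm.g1 {k : ℕ} {p g c N : ℝ} (h : Nm k p g c N) : g ≤ 1 / (32 * (k : ℝ)) := by
  have hk' : (3 : ℝ) ≤ k := by exact_mod_cast h.hk
  have hkpos : (0 : ℝ) < k := by linarith
  refine h.hg2.trans ?_
  refine div_le_div_of_nonneg_right ?_ (by positivity)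
  have h1 := h.hp
  have h2 := h.hp1
  nlinarith

theorem Nm.cg {k : ℕ} {p g c N : ℝ} (h : Nm k p g c N) : c ≤ g / k := by
  have hk' : (3 : ℝ) ≤ k := by exact_mod_cast h.hk
  have hkpos : (0 : ℝ) < k := by linarith
  have h1 := h.hp
  have h2 := h.hp1
  have h3 := h.hg
  rw [h.hc, div_le_div_iff₀ (by positivity) hkpos]
  have h4 : p ^ 2 ≤ 1 := by nlinarith
  have h5 : g * p ^ 2 * k ≤ g * 1 * k := by gcongr
  refine h5.trans ?_
  have h6 : g * (64 * (k : ℝ) ^ 2) = g * k * (64 * k) := by ring
  rw [h6, mul_one]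
  have h7 : (1 : ℝ) ≤ 64 * k := by linarith
  have h8 : 0 ≤ g * k := by positivity
  nlinarith

theorem Nm.cδ {k : ℕ} {p g c N : ℝ} (h : Nm k p g c N) : c * N ≤ k + k * c * N / g := by
  have hk' : (3 : ℝ) ≤ k := by exact_mod_cast h.hk
  have hkpos : (0 : ℝ) < k := by linarith
  have h0 := h.g1
  have h1 := h.hg
  have h2 := h.c0
  have h3 := h.N0
  have h4 : c * N ≤ k * c * N / g := by
    rw [le_div_iff₀ h1]
    have h5 : g ≤ k := by
      refine h0.trans ?_
      rw [div_le_iff₀ (by positivity)]
      nlinarith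
    have h6 : 0 ≤ c * N := by positivity
    calc c * N * g ≤ c * N * k := mul_le_mul_of_nonneg_left h5 h6
      _ = k * c * N := by ring
  linarith

open Classical in
/-- few pairs are bad -/
theorem few {V : Type} [Fintype V] [DecidableEq V] {k : ℕ} {p g c : ℝ}
    (hn : Nm k p g c (Fintype.card V : ℝ)) (A Z : Finset V)
    (hA : p * (Fintype.card V : ℝ) / 2 ≤ (A.card : ℝ))
    (hZ : p * (Fintype.card V : ℝ) / (2 * (k : ℝ)) ≤ (Z.card : ℝ))
    (Bad : (Fin (k - 1) → V) × V → Prop) [DecidablePred Bad]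
    (E : Fin (k - 1) → (Fin (k - 1) → V) → V → Finset V) (F : (Fin (k - 1) → V) → Finset V)
    (hE : ∀ j b v y, E j (Function.update b j v) y = E j b y)
    (hEc : ∀ j b y, ((E j b y).card : ℝ) ≤ k + k * c * (Fintype.card V : ℝ) / g)
    (hFc : ∀ b, ((F b).card : ℝ) ≤ g * (Fintype.card V : ℝ))
    (hBad : ∀ b y, (∀ i, b i ∈ A) → y ∈ Z → Bad (b, y) → (∀ j, b j ∉ E j b y) → y ∉ F b → False) :
    ((((Fintype.piFinset (fun _ : Fin (k - 1) => A)) ×ˢ Z).filter Bad).card : ℝ) ≤
      p / 8 * ((A.card : ℝ) ^ (k - 1) * (Z.card : ℝ)) := by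
  have h0 := hn.hk
  have h1 := cnt A Z E F (k + k * c * (Fintype.card V : ℝ) / g) (g * (Fintype.card V : ℝ)) (by
    have h2 := hn.c0
    have h3 := hn.hg
    positivity) hE hEc hFc
  obtain ⟨h2, h3⟩ := num hn.hk hn.hp hn.hg hn.hg2 hn.hc hn.hN hA hZ
  refine (le_trans ?_ h1).trans ?_
  · refine Nat.cast_le.2 (card_le_card ?_)
    intro q hq
    rw [mem_filter] at hq ⊢
    refine ⟨hq.1, ?_⟩
    by_contra hcon
    rw [not_or, not_exists] at hcon
    rw [mem_product, Fintype.mem_piFinset] at hq
    exact hBad q.1 q.2 hq.1.1 hq.1.2 hq.2 hcon.1 hcon.2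
  · have ha0 : (0 : ℝ) ≤ A.card := Nat.cast_nonneg _
    have hz0 : (0 : ℝ) ≤ Z.card := Nat.cast_nonneg _
    have h4 : (A.card : ℝ) ^ (k - 1) = A.card * (A.card : ℝ) ^ (k - 1 - 1) := by
      rw [← pow_succ']
      congr 1
      omega
    calc ((k - 1 : ℕ) : ℝ) * (k + k * c * (Fintype.card V : ℝ) / g) * (A.card : ℝ) ^ (k - 1 - 1) *
          (Z.card : ℝ) + g * (Fintype.card V : ℝ) * (A.card : ℝ) ^ (k - 1)
        ≤ (p / 16 * (A.card : ℝ)) * (A.card : ℝ) ^ (k - 1 - 1) * (Z.card : ℝ) +
          (p / 16 * (Z.card : ℝ)) * (A.card : ℝ) ^ (k - 1) := by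
          gcongr
      _ = p / 8 * ((A.card : ℝ) ^ (k - 1) * (Z.card : ℝ)) := by
          rw [h4]
          ring

/-! ## Tests -/

theorem gd_emp {V : Type} [Fintype V] [DecidableEq V] {k : ℕ} {K : Finset V → Prop} (hK : Cx k K)
    (g : ℝ) (Y' : Finset V) : Gd k K g Y' ∅ := by
  refine ⟨hK.emp, ?_⟩
  have h : Y' \ ex K univ ∅ = ∅ := by
    rw [sdiff_eq_empty_iff_subset]
    intro y _
    rw [mem_ex]
    exact ⟨mem_univ _, notMem_empty _, by
      have := hK.vert y
      rwa [← insert_empty_eq] at this⟩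
  rw [h, card_empty]
  push_cast
  rw [zero_mul]

/-- a good set with `k - 1` elements gives a good block -/
theorem gb_of {V : Type} [Fintype V] [DecidableEq V] {k : ℕ} {K : Finset V → Prop} {p g c : ℝ}
    (hn : Nm k p g c (Fintype.card V : ℝ)) {Y' : Finset V} (b : Fin (k - 1) → V)
    (h1 : Gd k K g Y' (univ.image b)) (h2 : (univ.image b).card = k - 1) :
    GB k K g Y' (List.ofFn b) := by
  have hk := hn.hk
  have hk' : (3 : ℝ) ≤ k := by exact_mod_cast hk
  have hkpos : (0 : ℝ) < k := by linarith
  refine ⟨List.length_ofFn, ?_, ?_, ?_⟩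
  · rw [List.nodup_ofFn]
    have h3 : (univ.image b).card = (univ : Finset (Fin (k - 1))).card := by
      rw [h2, card_univ, Fintype.card_fin]
    have h4 := Finset.card_image_iff.1 h3
    intro x y hxy
    exact h4 (by simp) (by simp) hxy
  · rw [ofFn_set]
    exact h1.1
  · rw [ofFn_set]
    refine h1.2.trans ?_
    rw [h2]
    have h3 : ((k - 1 : ℕ) : ℝ) ≤ k := by exact_mod_cast Nat.sub_le k 1
    have h4 := hn.hg
    calc ((k - 1 : ℕ) : ℝ) * (g / k * (Fintype.card V : ℝ))
        ≤ k * (g / k * (Fintype.card V : ℝ)) := mul_le_mul_of_nonneg_right h3 (by positivity)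
      _ = g * (Fintype.card V : ℝ) := by
          field_simp

open Classical in
/-- the exceptional `y` for a block -/
noncomputable def Fy {V : Type} [Fintype V] [DecidableEq V] (k : ℕ) (K : Finset V → Prop)
    (g : ℝ) (Y' : Finset V) (b : Fin (k - 1) → V) : Finset V :=
  if Gd k K g Y' (univ.image b) ∧ (univ.image b).card = k - 1 then
    Y' \ ex K univ (univ.image b) else ∅

theorem Fy_card {V : Type} [Fintype V] [DecidableEq V] {k : ℕ} {K : Finset V → Prop} {p g c : ℝ}
    (hn : Nm k p g c (Fintype.card V : ℝ)) {Y' : Finset V} (b : Fin (k - 1) → V) :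
    ((Fy k K g Y' b).card : ℝ) ≤ g * (Fintype.card V : ℝ) := by
  have h0 := hn.hg
  unfold Fy
  split_ifs with h
  · have := (gb_of hn b h.1 h.2).ext
    rwa [ofFn_set] at this
  · rw [card_empty]
    have : (0 : ℝ) ≤ g * (Fintype.card V : ℝ) := by positivity
    exact_mod_cast this

theorem gu_of {V : Type} [Fintype V] [DecidableEq V] {k : ℕ} {K : Finset V → Prop} {p g c : ℝ}
    (hn : Nm k p g c (Fintype.card V : ℝ)) {Y' : Finset V} (b : Fin (k - 1) → V) (y : V)
    (h1 : Gd k K g Y' (univ.image b)) (h2 : (univ.image b).card = k - 1) (hy : y ∈ Y')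
    (hF : y ∉ Fy k K g Y' b) : GU k K g Y' (List.ofFn b) y := by
  unfold Fy at hF
  rw [if_pos ⟨h1, h2⟩, mem_sdiff, not_and, not_not] at hF
  have h3 := mem_ex.1 (hF hy)
  refine ⟨gb_of hn b h1 h2, hy, ?_, ?_⟩
  · rw [← List.mem_toFinset, ofFn_set]
    exact h3.2.1
  · rw [ofFn_set]
    exact h3.2.2

open Classical in
theorem test0 {V : Type} [Fintype V] [DecidableEq V] {k : ℕ} {K : Finset V → Prop} {p g c : ℝ}
    (hn : Nm k p g c (Fintype.card V : ℝ)) (hK : Cx k K) {X' Y' : Finset V} (hB : BS k K c X' Y')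
    (A Z : Finset V) (hAX : A ⊆ X') (hZY : Z ⊆ Y')
    (hA : p * (Fintype.card V : ℝ) / 2 ≤ (A.card : ℝ))
    (hZ : p * (Fintype.card V : ℝ) / (2 * (k : ℝ)) ≤ (Z.card : ℝ)) :
    ((((Fintype.piFinset (fun _ : Fin (k - 1) => A)) ×ˢ Z).filter
      (fun q => ¬ GU k K g Y' (List.ofFn q.1) q.2)).card : ℝ) ≤
      p / 8 * ((A.card : ℝ) ^ (k - 1) * (Z.card : ℝ)) := by
  have hN : 0 < Fintype.card V := by
    have := hn.N0
    exact_mod_cast this
  refine few hn A Z hA hZ _ (fun j b _ => Est k K g X' Y' ∅ univ j b) (fun b => Fy k K g Y' b)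
    (fun j b v _ => Est_update k K g X' Y' ∅ univ j b v)
    (fun j b _ => Est_card hn.hk hK hB hn.c0 hn.hg hn.g1 hN ∅ univ j b)
    (fun b => Fy_card hn b) ?_
  intro b y hb hy hbad hE hF
  obtain ⟨h1, h2⟩ := star ∅ univ (gd_emp hK g Y') (by simp) b (fun i => hAX (hb i)) hE
  rw [empty_union] at h1 h2
  rw [card_empty, zero_add, card_univ, Fintype.card_fin] at h2
  exact hbad (gu_of hn b y h1 h2 (hZY hy) hF)

open Classical in
theorem test1 {V : Type} [Fintype V] [DecidableEq V] {k : ℕ} {K : Finset V → Prop} {p g c : ℝ}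
    (hn : Nm k p g c (Fintype.card V : ℝ)) (hK : Cx k K) {X' Y' : Finset V} (hB : BS k K c X' Y')
    (A Z : Finset V) (hAX : A ⊆ X')
    (hA : p * (Fintype.card V : ℝ) / 2 ≤ (A.card : ℝ))
    (hZ : p * (Fintype.card V : ℝ) / (2 * (k : ℝ)) ≤ (Z.card : ℝ)) (W : Fin (k - 1) → V) (z : V) :
    ((((Fintype.piFinset (fun _ : Fin (k - 1) => A)) ×ˢ Z).filter
      (fun q => GU k K g Y' (List.ofFn W) z ∧
        ¬ TP K k (List.ofFn W ++ [z] ++ List.ofFn q.1))).card : ℝ) ≤
      p / 8 * ((A.card : ℝ) ^ (k - 1) * (Z.card : ℝ)) := by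
  have hk := hn.hk
  have hg := hn.hg
  by_cases hz : GU k K g Y' (List.ofFn W) z
  · refine few hn A Z hA hZ _ (fun j b _ => Ef K X' W z j b) (fun _ => ∅)
      (fun j b v _ => Ef_update K X' W z j b v)
      (fun j b _ => (Ef_card (by omega) hB hn.c0 W z hz.2.1 j b).trans hn.cδ)
      (fun b => by rw [card_empty]; push_cast; positivity) ?_
    intro b y hb hy hbad hE _
    refine hbad.2 (tpl (by omega) hK W b z (fwd hK W b z ?_ (fun i => hAX (hb i)) hE))
    have := hz.2.2.2
    rwa [ofFn_set] at this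
  · have : ((Fintype.piFinset (fun _ : Fin (k - 1) => A)) ×ˢ Z).filter
      (fun q => GU k K g Y' (List.ofFn W) z ∧
        ¬ TP K k (List.ofFn W ++ [z] ++ List.ofFn q.1)) = ∅ := by
      rw [filter_eq_empty_iff]
      intro q _ h
      exact hz h.1
    rw [this, card_empty]
    have := hn.hp
    push_cast
    positivity

open Classical in
theorem test2 {V : Type} [Fintype V] [DecidableEq V] {k : ℕ} {K : Finset V → Prop} {p g c : ℝ}
    (hn : Nm k p g c (Fintype.card V : ℝ)) (hK : Cx k K) {X' Y' : Finset V} (hB : BS k K c X' Y')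
    (A Z : Finset V) (hAX : A ⊆ X') (hZY : Z ⊆ Y')
    (hA : p * (Fintype.card V : ℝ) / 2 ≤ (A.card : ℝ))
    (hZ : p * (Fintype.card V : ℝ) / (2 * (k : ℝ)) ≤ (Z.card : ℝ)) (W : Fin (k - 1) → V) :
    ((((Fintype.piFinset (fun _ : Fin (k - 1) => A)) ×ˢ Z).filter
      (fun q => GB k K g Y' (List.ofFn W) ∧
        ¬ TP K k (List.ofFn q.1 ++ [q.2] ++ List.ofFn W))).card : ℝ) ≤
      p / 8 * ((A.card : ℝ) ^ (k - 1) * (Z.card : ℝ)) := by
  have hk := hn.hk
  have hg := hn.hg
  by_cases hz : GB k K g Y' (List.ofFn W)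
  · refine few hn A Z hA hZ _ (fun j b y => if y ∈ Y' then Eb K X' W y j b else ∅)
      (fun _ => Y' \ ex K univ (univ.image W))
      (fun j b v y => by
        rw [Eb_update K X' W y j b v])
      (fun j b y => by
        split_ifs with hy
        · exact (Eb_card (by omega) hB hn.c0 W y hy j b).trans hn.cδ
        · rw [card_empty]
          have h1 := hn.c0
          have h2 := hn.N0
          push_cast
          positivity)
      (fun b => by
        have := hz.ext
        rwa [ofFn_set] at this) ?_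
    intro b y hb hy hbad hE hF
    rw [mem_sdiff, not_and, not_not] at hF
    refine hbad.2 (tpl (by omega) hK b W y (bwd hK b W y ?_ (fun i => hAX (hb i)) ?_))
    · exact (mem_ex.1 (hF (hZY hy))).2.2
    · intro j
      have := hE j
      rw [if_pos (hZY hy)] at this
      exact this
  · have : ((Fintype.piFinset (fun _ : Fin (k - 1) => A)) ×ˢ Z).filter
      (fun q => GB k K g Y' (List.ofFn W) ∧
        ¬ TP K k (List.ofFn q.1 ++ [q.2] ++ List.ofFn W)) = ∅ := by
      rw [filter_eq_empty_iff]
      intro q _ h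
      exact hz h.1
    rw [this, card_empty]
    have := hn.hp
    push_cast
    positivity

open Classical in
theorem test3 {V : Type} [Fintype V] [DecidableEq V] {k : ℕ} {K : Finset V → Prop} {p g c : ℝ}
    (hn : Nm k p g c (Fintype.card V : ℝ)) (hK : Cx k K) {X' Y' : Finset V} (hB : BS k K c X' Y')
    (A Z : Finset V) (hAX : A ⊆ X') (hZY : Z ⊆ Y')
    (hA : p * (Fintype.card V : ℝ) / 2 ≤ (A.card : ℝ))
    (hZ : p * (Fintype.card V : ℝ) / (2 * (k : ℝ)) ≤ (Z.card : ℝ)) (x : V) (a : Fin (k - 1)) :
    ((((Fintype.piFinset (fun _ : Fin (k - 1) => A)) ×ˢ Z).filter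
      (fun q => x ∈ X' ∧ x ∉ List.ofFn q.1 ∧
        ¬ GU k K g Y' (List.ofFn (Function.update q.1 a x)) q.2)).card : ℝ) ≤
      p / 8 * ((A.card : ℝ) ^ (k - 1) * (Z.card : ℝ)) := by
  have hk := hn.hk
  have hg := hn.hg
  have hN : 0 < Fintype.card V := by
    have := hn.N0
    exact_mod_cast this
  by_cases hx : x ∈ X'
  · refine few hn A Z hA hZ _ (fun j b _ => Est k K g X' Y' {x} (univ.erase a) j b)
      (fun b => Fy k K g Y' (Function.update b a x))
      (fun j b v _ => Est_update k K g X' Y' {x} (univ.erase a) j b v)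
      (fun j b _ => Est_card hn.hk hK hB hn.c0 hn.hg hn.g1 hN {x} (univ.erase a) j b)
      (fun b => Fy_card hn _) ?_
    intro b y hb hy hbad hE hF
    have hgd : Gd k K g Y' {x} := by
      refine ⟨hK.vert x, (hB.xtp x hx).trans ?_⟩
      rw [card_singleton, Nat.cast_one, one_mul]
      exact mul_le_mul_of_nonneg_right hn.cg (by positivity)
    have hca : (univ.erase a : Finset (Fin (k - 1))).card = k - 1 - 1 := by
      rw [card_erase_of_mem (mem_univ _), card_univ, Fintype.card_fin]
    obtain ⟨h1, h2⟩ := star {x} (univ.erase a) hgd (by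
      rw [hca, card_singleton]
      omega) b (fun i => hAX (hb i)) hE
    rw [hca, card_singleton] at h2
    have h3 : ({x} : Finset V) ∪ (univ.erase a).image b = univ.image (Function.update b a x) := by
      ext v
      rw [mem_union, mem_singleton, mem_image, mem_image]
      constructor
      · rintro (h | ⟨i, hi, h⟩)
        · exact ⟨a, mem_univ _, by rw [Function.update_self, h]⟩
        · rw [mem_erase] at hi
          exact ⟨i, mem_univ _, by rw [Function.update_of_ne hi.1, h]⟩
      · rintro ⟨i, -, h⟩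
        by_cases hia : i = a
        · rw [hia, Function.update_self] at h
          exact Or.inl h.symm
        · rw [Function.update_of_ne hia] at h
          exact Or.inr ⟨i, mem_erase.2 ⟨hia, mem_univ _⟩, h⟩
    rw [h3] at h1 h2
    exact hbad.2.2 (gu_of hn (Function.update b a x) y h1 (by omega) (hZY hy) hF)
  · have : ((Fintype.piFinset (fun _ : Fin (k - 1) => A)) ×ˢ Z).filter
      (fun q => x ∈ X' ∧ x ∉ List.ofFn q.1 ∧
        ¬ GU k K g Y' (List.ofFn (Function.update q.1 a x)) q.2) = ∅ := by
      rw [filter_eq_empty_iff]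
      intro q _ h
      exact hx h.1
    rw [this, card_empty]
    have := hn.hp
    push_cast
    positivity

open Classical in
theorem test4 {V : Type} [Fintype V] [DecidableEq V] {k : ℕ} {K : Finset V → Prop} {p g c : ℝ}
    (hn : Nm k p g c (Fintype.card V : ℝ)) (hK : Cx k K) {X' Y' : Finset V} (hB : BS k K c X' Y')
    (A Z : Finset V) (hAX : A ⊆ X')
    (hA : p * (Fintype.card V : ℝ) / 2 ≤ (A.card : ℝ))
    (hZ : p * (Fintype.card V : ℝ) / (2 * (k : ℝ)) ≤ (Z.card : ℝ)) (z : V) :
    ((((Fintype.piFinset (fun _ : Fin (k - 1) => A)) ×ˢ Z).filter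
      (fun q => z ∈ Y' ∧ ¬ K (insert z (univ.image q.1)))).card : ℝ) ≤
      p / 8 * ((A.card : ℝ) ^ (k - 1) * (Z.card : ℝ)) := by
  have hk := hn.hk
  have hg := hn.hg
  by_cases hz : z ∈ Y'
  · refine few hn A Z hA hZ _ (fun j b _ => Ef K X' (fun _ => z) z j b) (fun _ => ∅)
      (fun j b v _ => Ef_update K X' (fun _ => z) z j b v)
      (fun j b _ => (Ef_card (by omega) hB hn.c0 (fun _ => z) z hz j b).trans hn.cδ)
      (fun b => by rw [card_empty]; push_cast; positivity) ?_
    intro b y hb hy hbad hE _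
    have h1 := fwd hK (fun _ => z) b z (by
      refine hK.sub _ _ (hK.vert z) ?_
      intro v hv
      rw [mem_insert, mem_image] at hv
      rw [mem_singleton]
      rcases hv with h | ⟨i, -, h⟩
      · exact h
      · exact h.symm) (fun i => hAX (hb i)) hE (k - 1) le_rfl
    refine hbad.2 (hK.sub _ _ h1 ?_)
    rw [Lo_all]
    intro v hv
    rw [mem_insert] at hv
    rw [mem_insert, mem_union]
    rcases hv with h | h
    · exact Or.inl h
    · exact Or.inr (Or.inr h)
  · have : ((Fintype.piFinset (fun _ : Fin (k - 1) => A)) ×ˢ Z).filter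
      (fun q => z ∈ Y' ∧ ¬ K (insert z (univ.image q.1))) = ∅ := by
      rw [filter_eq_empty_iff]
      intro q _ h
      exact hz h.1
    rw [this, card_empty]
    have := hn.hp
    push_cast
    positivity

/-! ## Assembly -/

/-- the tests -/
abbrev Tst (k : ℕ) (V : Type) : Type :=
  ((Fin (k - 1) → V) × V) ⊕ ((Fin (k - 1) → V) ⊕ ((V × Fin (k - 1)) ⊕ V))

/-- violated tests -/
def bd {V : Type} [Fintype V] [DecidableEq V] (k : ℕ) (K : Finset V → Prop) (g : ℝ)
    (X' Y' : Finset V) (w : Tst k V) (q : (Fin (k - 1) → V) × V) : Prop :=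
  match w with
  | Sum.inl (W, z) => GU k K g Y' (List.ofFn W) z ∧
      ¬ TP K k (List.ofFn W ++ [z] ++ List.ofFn q.1)
  | Sum.inr (Sum.inl W) => GB k K g Y' (List.ofFn W) ∧
      ¬ TP K k (List.ofFn q.1 ++ [q.2] ++ List.ofFn W)
  | Sum.inr (Sum.inr (Sum.inl (x, a))) => x ∈ X' ∧ x ∉ List.ofFn q.1 ∧
      ¬ GU k K g Y' (List.ofFn (Function.update q.1 a x)) q.2
  | Sum.inr (Sum.inr (Sum.inr z)) => z ∈ Y' ∧ ¬ K (insert z (univ.image q.1))

open Classical in
theorem testall {V : Type} [Fintype V] [DecidableEq V] {k : ℕ} {K : Finset V → Prop} {p g c : ℝ}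
    (hn : Nm k p g c (Fintype.card V : ℝ)) (hK : Cx k K) {X' Y' : Finset V} (hB : BS k K c X' Y')
    (A Z : Finset V) (hAX : A ⊆ X') (hZY : Z ⊆ Y')
    (hA : p * (Fintype.card V : ℝ) / 2 ≤ (A.card : ℝ))
    (hZ : p * (Fintype.card V : ℝ) / (2 * (k : ℝ)) ≤ (Z.card : ℝ)) (w : Tst k V) :
    ((((Fintype.piFinset (fun _ : Fin (k - 1) => A)) ×ˢ Z).filter
      (fun q => bd k K g X' Y' w q)).card : ℝ) ≤
      p / 8 * ((A.card : ℝ) ^ (k - 1) * (Z.card : ℝ)) := by
  rcases w with ⟨W, z⟩ | W | ⟨x, a⟩ | z
  · refine le_trans ?_ (test1 hn hK hB A Z hAX hA hZ W z)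
    exact Nat.cast_le.2 (card_le_card (fun q hq => by
      rw [mem_filter] at hq ⊢
      exact hq))
  · refine le_trans ?_ (test2 hn hK hB A Z hAX hZY hA hZ W)
    exact Nat.cast_le.2 (card_le_card (fun q hq => by
      rw [mem_filter] at hq ⊢
      exact hq))
  · refine le_trans ?_ (test3 hn hK hB A Z hAX hZY hA hZ x a)
    exact Nat.cast_le.2 (card_le_card (fun q hq => by
      rw [mem_filter] at hq ⊢
      exact hq))
  · refine le_trans ?_ (test4 hn hK hB A Z hAX hA hZ z)
    exact Nat.cast_le.2 (card_le_card (fun q hq => by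
      rw [mem_filter] at hq ⊢
      exact hq))

/-- the number of the tests -/
theorem logT {k : ℕ} {p : ℝ} (hk : 3 ≤ k) (hp : 0 < p) : ∃ n₀ : ℕ, ∀ (V : Type) [Fintype V],
    n₀ ≤ Fintype.card V →
    Real.log (Fintype.card (Tst k V) : ℝ) ≤ p / 2 * (Fintype.card V : ℝ) := by
  have h1 : ∀ᶠ n : ℕ in Filter.atTop, Real.log (n : ℝ) ≤ p / (4 * (k + 1)) * n := by
    have h2 := (Real.isLittleO_log_id_atTop.bound (show (0 : ℝ) < p / (4 * (k + 1)) by positivity))
    have h3 := tendsto_natCast_atTop_atTop (R := ℝ) |>.eventually h2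
    filter_upwards [h3, Filter.eventually_ge_atTop 1] with n hn hn1
    have h4 : |Real.log (n : ℝ)| ≤ p / (4 * (k + 1)) * |(n : ℝ)| := hn
    rw [abs_of_nonneg (show (0 : ℝ) ≤ n from Nat.cast_nonneg n)] at h4
    exact (le_abs_self _).trans h4
  obtain ⟨n₁, hn₁⟩ := Filter.eventually_atTop.1 h1
  refine ⟨max n₁ (max k ⌈8 / p⌉₊), ?_⟩
  intro V _ hV
  set n := Fintype.card V with hn
  have hk1 : k ≤ n := (le_max_left _ _).trans ((le_max_right _ _).trans hV)
  have hn1 : n₁ ≤ n := (le_max_left _ _).trans hV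
  have hn8 : 8 / p ≤ n := Nat.ceil_le.1 ((le_max_right _ _).trans ((le_max_right _ _).trans hV))
  have hn0 : 1 ≤ n := by omega
  have h5 : Fintype.card (Tst k V) ≤ 4 * n ^ (k + 1) := by
    simp only [Tst, Fintype.card_sum, Fintype.card_prod, Fintype.card_fun, Fintype.card_fin]
    rw [← hn]
    have h6 : n ^ (k - 1) * n ≤ n ^ (k + 1) := by
      rw [← pow_succ]
      exact Nat.pow_le_pow_right hn0 (by omega)
    have h7 : n ^ (k - 1) ≤ n ^ (k + 1) := Nat.pow_le_pow_right hn0 (by omega)
    have h8 : n * (k - 1) ≤ n ^ (k + 1) := by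
      calc n * (k - 1) ≤ n * n := Nat.mul_le_mul_left n (by omega)
        _ = n ^ 2 := by ring
        _ ≤ n ^ (k + 1) := Nat.pow_le_pow_right hn0 (by omega)
    have h9 : n ≤ n ^ (k + 1) := by
      calc n = n ^ 1 := (pow_one n).symm
        _ ≤ n ^ (k + 1) := Nat.pow_le_pow_right hn0 (by omega)
    omega
  have hpos : 0 < Fintype.card (Tst k V) := by
    have : Nonempty V := Fintype.card_pos_iff.1 (by omega)
    exact Fintype.card_pos
  have hn0' : (0 : ℝ) < n := by exact_mod_cast hn0
  calc Real.log (Fintype.card (Tst k V) : ℝ) ≤ Real.log (4 * (n : ℝ) ^ (k + 1)) := by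
        apply Real.log_le_log (by exact_mod_cast hpos)
        exact_mod_cast h5
    _ = Real.log 4 + (k + 1) * Real.log n := by
        rw [Real.log_mul (by norm_num) (by positivity), Real.log_pow]
        push_cast
        ring
    _ ≤ 2 + (k + 1) * (p / (4 * (k + 1)) * n) := by
        have h6 : Real.log 4 ≤ 2 := by
          have : Real.log 4 = 2 * Real.log 2 := by
            rw [show (4 : ℝ) = 2 ^ 2 by norm_num, Real.log_pow]
            norm_num
          rw [this]
          have := Real.log_two_lt_d9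
          linarith
        have h7 := hn₁ n hn1
        have h8 : (0 : ℝ) ≤ k + 1 := by positivity
        nlinarith
    _ = 2 + p / 4 * n := by
        have : (0 : ℝ) < k + 1 := by positivity
        field_simp
    _ ≤ p / 2 * n := by
        rw [div_le_iff₀ hp] at hn8
        linarith

end REGL

open Classical in
theorem reg (h : S_SEQ) : S_REG := by
  intro k p hk hp hp1
  have hk' : (3 : ℝ) ≤ k := by exact_mod_cast hk
  have hkpos : (0 : ℝ) < k := by linarith
  obtain ⟨n₁, hn₁⟩ := REGL.logT (k := k) hk hp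
  refine ⟨p ^ 2 / (32 * (k : ℝ)), by positivity, ?_⟩
  intro g hg hg2
  refine ⟨g * p ^ 2 / (64 * (k : ℝ) ^ 2), max n₁ ⌈64 * (k : ℝ) ^ 2 / p ^ 2⌉₊, by positivity, ?_⟩
  intro V _ _ K hK hV X' Y' hB R hR1 hR2
  have hn : Nm k p g (g * p ^ 2 / (64 * (k : ℝ) ^ 2)) (Fintype.card V : ℝ) :=
    ⟨hk, hp, hp1, hg, hg2, rfl, Nat.ceil_le.1 ((le_max_right _ _).trans hV)⟩
  generalize g * p ^ 2 / (64 * (k : ℝ) ^ 2) = c at hB hn
  have hN0 := hn.N0
  have hne : Nonempty V := by
    rw [← Fintype.card_pos_iff]
    exact_mod_cast hN0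
  have hlog := hn₁ V ((le_max_left _ _).trans hV)
  set N : ℝ := (Fintype.card V : ℝ) with hNdef
  -- the allowed candidates
  obtain ⟨l, st, hst0, hl, hnext, -, hT⟩ := h ((Fin (k - 1) → V) × V) (REGL.Tst k V) (Finset V)
    univ ∅ (p / 4) R
    (fun S => ((Fintype.piFinset (fun _ : Fin (k - 1) => X' \ S)) ×ˢ (Y' \ S)).filter
      (fun q => GU k K g Y' (List.ofFn q.1) q.2))
    (fun S q => S ∪ univ.image q.1 ∪ {q.2})
    (fun i S => (S ∩ X').card ≤ (k - 1) * i ∧ (S ∩ Y').card ≤ i)
    (REGL.bd k K g X' Y') (by positivity) univ_nonempty (by simp) (by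
      intro i S q _ hS hq
      rw [mem_filter, mem_product, Fintype.mem_piFinset] at hq
      have h1 : univ.image q.1 ⊆ X' := by
        intro v hv
        rw [mem_image] at hv
        obtain ⟨a, -, rfl⟩ := hv
        exact (mem_sdiff.1 (hq.1.1 a)).1
      have h2 : q.2 ∈ Y' := (mem_sdiff.1 hq.1.2).1
      have h3 : (univ.image q.1).card ≤ k - 1 := by
        refine card_image_le.trans ?_
        rw [card_univ, Fintype.card_fin]
      constructor
      · have h4 : (S ∪ univ.image q.1 ∪ {q.2}) ∩ X' ⊆ (S ∩ X') ∪ univ.image q.1 := by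
          intro v hv
          rw [mem_inter, mem_union, mem_union, mem_singleton] at hv
          rw [mem_union, mem_inter]
          rcases hv.1 with (h5 | h5) | h5
          · exact Or.inl ⟨h5, hv.2⟩
          · exact Or.inr h5
          · exact absurd h2 (by
              rw [← h5]
              exact fun h6 => (Finset.disjoint_left.1 hB.dis) hv.2 h6)
        have h5 := (card_le_card h4).trans (card_union_le _ _)
        have h6 := hS.1
        calc ((S ∪ univ.image q.1 ∪ {q.2}) ∩ X').card ≤ (k - 1) * i + (k - 1) := by omega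
          _ = (k - 1) * (i + 1) := by ring
      · have h4 : (S ∪ univ.image q.1 ∪ {q.2}) ∩ Y' ⊆ (S ∩ Y') ∪ {q.2} := by
          intro v hv
          rw [mem_inter, mem_union, mem_union, mem_singleton] at hv
          rw [mem_union, mem_inter, mem_singleton]
          rcases hv.1 with (h5 | h5) | h5
          · exact Or.inl ⟨h5, hv.2⟩
          · exact absurd hv.2 (fun h6 => (Finset.disjoint_left.1 hB.dis) (h1 h5) h6)
          · exact Or.inr h5
        have h5 := (card_le_card h4).trans (card_union_le _ _)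
        rw [card_singleton] at h5
        have h6 := hS.2
        omega) (by
      intro i S hi hS
      -- sizes
      have hA : p * N / 2 ≤ ((X' \ S).card : ℝ) := by
        have h1 : X'.card ≤ (X' \ S).card + (S ∩ X').card := by
          rw [inter_comm]
          exact (Finset.card_sdiff_add_card_inter X' S).ge
        have h2 : (X'.card : ℝ) ≤ ((X' \ S).card : ℝ) + ((S ∩ X').card : ℝ) := by exact_mod_cast h1
        have h3 : ((S ∩ X').card : ℝ) ≤ ((k : ℝ) - 1) * R := by
          have h4 : (S ∩ X').card ≤ (k - 1) * R :=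
            hS.1.trans (Nat.mul_le_mul_left _ hi.le)
          have h5 : ((S ∩ X').card : ℝ) ≤ (((k - 1) * R : ℕ) : ℝ) := by exact_mod_cast h4
          rw [Nat.cast_mul, Nat.cast_sub (by omega), Nat.cast_one] at h5
          exact h5
        have h4 := hB.cX
        rw [← hNdef] at h4
        have h5 : p * (N / 2) ≤ p * (X'.card : ℝ) := mul_le_mul_of_nonneg_left h4 hp.le
        linarith
      have hZ : p * N / (2 * (k : ℝ)) ≤ ((Y' \ S).card : ℝ) := by
        have h1 : Y'.card ≤ (Y' \ S).card + (S ∩ Y').card := by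
          rw [inter_comm]
          exact (Finset.card_sdiff_add_card_inter Y' S).ge
        have h2 : (Y'.card : ℝ) ≤ ((Y' \ S).card : ℝ) + ((S ∩ Y').card : ℝ) := by exact_mod_cast h1
        have h3 : ((S ∩ Y').card : ℝ) ≤ R := by
          exact_mod_cast hS.2.trans hi.le
        have h4 := hB.cY
        rw [← hNdef] at h4
        have h5 : p * (N / (2 * k)) ≤ p * (Y'.card : ℝ) := mul_le_mul_of_nonneg_left h4 hp.le
        have h6 : p * N / (2 * (k : ℝ)) = p * (N / (2 * k)) := by ring
        linarith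
      have hPc : ((((Fintype.piFinset (fun _ : Fin (k - 1) => X' \ S)) ×ˢ (Y' \ S)).card : ℕ) : ℝ) =
          ((X' \ S).card : ℝ) ^ (k - 1) * ((Y' \ S).card : ℝ) := by
        rw [card_product, Fintype.card_piFinset, prod_const, card_univ, Fintype.card_fin]
        push_cast
        ring
      have hApos : (0 : ℝ) < ((X' \ S).card : ℝ) := lt_of_lt_of_le (by positivity) hA
      have hZpos : (0 : ℝ) < ((Y' \ S).card : ℝ) := lt_of_lt_of_le (by positivity) hZ
      have hPpos : 0 < ((X' \ S).card : ℝ) ^ (k - 1) * ((Y' \ S).card : ℝ) := by positivity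
      have h0 := REGL.test0 hn hK hB (X' \ S) (Y' \ S) sdiff_subset sdiff_subset hA hZ
      have hsum := Finset.card_filter_add_card_filter_not
        (s := (Fintype.piFinset (fun _ : Fin (k - 1) => X' \ S)) ×ˢ (Y' \ S))
        (fun q => GU k K g Y' (List.ofFn q.1) q.2)
      have hsum' : (((((Fintype.piFinset (fun _ : Fin (k - 1) => X' \ S)) ×ˢ (Y' \ S)).filter
          (fun q => GU k K g Y' (List.ofFn q.1) q.2)).card : ℕ) : ℝ) +
          (((((Fintype.piFinset (fun _ : Fin (k - 1) => X' \ S)) ×ˢ (Y' \ S)).filter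
          (fun q => ¬ GU k K g Y' (List.ofFn q.1) q.2)).card : ℕ) : ℝ) =
          ((X' \ S).card : ℝ) ^ (k - 1) * ((Y' \ S).card : ℝ) := by
        rw [← hPc, ← hsum]
        push_cast
        rfl
      have hall : ((X' \ S).card : ℝ) ^ (k - 1) * ((Y' \ S).card : ℝ) / 2 ≤
          (((((Fintype.piFinset (fun _ : Fin (k - 1) => X' \ S)) ×ˢ (Y' \ S)).filter
          (fun q => GU k K g Y' (List.ofFn q.1) q.2)).card : ℕ) : ℝ) := by
        have h1 : p / 8 * (((X' \ S).card : ℝ) ^ (k - 1) * ((Y' \ S).card : ℝ)) ≤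
            1 / 8 * (((X' \ S).card : ℝ) ^ (k - 1) * ((Y' \ S).card : ℝ)) := by
          apply mul_le_mul_of_nonneg_right _ hPpos.le
          linarith
        linarith
      refine ⟨?_, ?_⟩
      · rw [← card_pos]
        have : (0 : ℝ) < (((((Fintype.piFinset (fun _ : Fin (k - 1) => X' \ S)) ×ˢ (Y' \ S)).filter
          (fun q => GU k K g Y' (List.ofFn q.1) q.2)).card : ℕ) : ℝ) := by linarith
        exact_mod_cast this
      · intro w _
        refine ⟨(((Fintype.piFinset (fun _ : Fin (k - 1) => X' \ S)) ×ˢ (Y' \ S)).filter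
          (fun q => GU k K g Y' (List.ofFn q.1) q.2)).filter
          (fun q => REGL.bd k K g X' Y' w q), filter_subset _ _, ?_, ?_⟩
        · intro q hq hq2 hb
          exact hq2 (mem_filter.2 ⟨hq, hb⟩)
        · have h1 := REGL.testall hn hK hB (X' \ S) (Y' \ S) sdiff_subset sdiff_subset hA hZ w
          have h2 : (((((Fintype.piFinset (fun _ : Fin (k - 1) => X' \ S)) ×ˢ (Y' \ S)).filter
              (fun q => GU k K g Y' (List.ofFn q.1) q.2)).filter
              (fun q => REGL.bd k K g X' Y' w q)).card : ℝ) ≤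
              ((((Fintype.piFinset (fun _ : Fin (k - 1) => X' \ S)) ×ˢ (Y' \ S)).filter
              (fun q => REGL.bd k K g X' Y' w q)).card : ℝ) := by
            refine Nat.cast_le.2 (card_le_card ?_)
            intro q hq
            rw [mem_filter] at hq ⊢
            exact ⟨(mem_filter.1 hq.1).1, hq.2⟩
          have h3 : p / 4 * (((X' \ S).card : ℝ) ^ (k - 1) * ((Y' \ S).card : ℝ) / 2) ≤
              p / 4 * (((((Fintype.piFinset (fun _ : Fin (k - 1) => X' \ S)) ×ˢ (Y' \ S)).filter
              (fun q => GU k K g Y' (List.ofFn q.1) q.2)).card : ℕ) : ℝ) :=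
            mul_le_mul_of_nonneg_left hall (by positivity)
          linarith)
  -- the states
  have hmono : ∀ j i, i ≤ j → j ≤ R → st i ⊆ st j := by
    intro j
    induction j with
    | zero =>
      intro i hi _
      obtain rfl : i = 0 := by omega
      exact subset_rfl
    | succ j ih =>
      intro i hi hj
      rcases Nat.le_succ_iff.1 hi with h1 | h1
      · refine (ih i h1 (by omega)).trans ?_
        rw [hnext j (by omega)]
        intro v hv
        exact mem_union_left _ (mem_union_left _ hv)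
      · rw [h1]
  have hlm : ∀ i < R, (∀ a, (l i).1 a ∈ X' \ st i) ∧ (l i).2 ∈ Y' \ st i ∧
      GU k K g Y' (List.ofFn (l i).1) (l i).2 := by
    intro i hi
    have h1 := hl i hi
    rw [mem_filter, mem_product, Fintype.mem_piFinset] at h1
    exact ⟨h1.1.1, h1.1.2, h1.2⟩
  have hused : ∀ i j, i < j → j < R → (∀ a, (l i).1 a ∈ st j) ∧ (l i).2 ∈ st j := by
    intro i j hij hj
    have h1 := hmono j (i + 1) (by omega) (by omega)
    rw [hnext i (by omega)] at h1
    refine ⟨fun a => h1 ?_, h1 ?_⟩
    · exact mem_union_left _ (mem_union_right _ (mem_image_of_mem _ (mem_univ a)))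
    · exact mem_union_right _ (mem_singleton_self _)
  -- the counts
  have hRN : (R : ℝ) ≤ N := by
    have h1 : (Y'.card : ℝ) ≤ N := by
      rw [hNdef]
      exact_mod_cast card_le_univ Y'
    have h2 : (0 : ℝ) ≤ Y'.card := Nat.cast_nonneg _
    nlinarith
  have hcnt : ∀ (w : REGL.Tst k V) (Q : Fin R → Prop) [DecidablePred Q],
      (∀ i : Fin R, Q i → REGL.bd k K g X' Y' w (l i.val)) →
      ((univ.filter (fun i => Q i)).card : ℝ) ≤ p * N := by
    intro w Q _ hQ
    obtain ⟨W, hW1, hW2, hW3⟩ := hT w (mem_univ _)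
    have h1 : (univ.filter (fun i => Q i)).card ≤ W.card := by
      refine card_le_card_of_injOn (fun i => i.val) ?_ (fun a _ b _ hab => Fin.ext hab)
      intro i hi
      rw [mem_coe, mem_filter] at hi
      by_contra hcon
      exact hW2 i.val i.2 hcon (hQ i hi.2)
    have h2 : ((univ.filter (fun i => Q i)).card : ℝ) ≤ (W.card : ℝ) := by exact_mod_cast h1
    rw [card_univ] at hW3
    have h3 : 2 * (p / 4) * (R : ℝ) ≤ p / 2 * N := by
      have : 2 * (p / 4) * (R : ℝ) = p / 2 * R := by ring
      rw [this]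
      exact mul_le_mul_of_nonneg_left hRN (by positivity)
    linarith
  have hlist : ∀ W : List V, W.length = k - 1 → ∃ W' : Fin (k - 1) → V, W = List.ofFn W' := by
    intro W hW
    refine ⟨fun i => W.get (i.cast hW.symm), ?_⟩
    apply List.ext_get
    · exact hW.trans List.length_ofFn.symm
    · intro m h1 h2
      simp
  refine ⟨fun i => (l i.val).1, fun i => (l i.val).2, ?_, ?_, ?_, ?_, ?_, ?_, ?_, ?_, ?_⟩
  · rintro ⟨i, a⟩ ⟨j, b⟩ hij
    simp only at hij
    rcases lt_trichotomy i.val j.val with h1 | h1 | h1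
    · have h2 := (hused _ _ h1 j.2).1 a
      have h3 := (mem_sdiff.1 ((hlm j.val j.2).1 b)).2
      rw [hij] at h2
      exact absurd h2 h3
    · have h2 : i = j := Fin.ext h1
      subst h2
      have h3 := (hlm i.val i.2).2.2.1.nd
      rw [List.nodup_ofFn] at h3
      rw [h3 hij]
    · have h2 := (hused _ _ h1 i.2).1 b
      have h3 := (mem_sdiff.1 ((hlm i.val i.2).1 a)).2
      rw [← hij] at h2
      exact absurd h2 h3
  · intro i j hij
    simp only at hij
    rcases lt_trichotomy i.val j.val with h1 | h1 | h1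
    · have h2 := (hused _ _ h1 j.2).2
      have h3 := (mem_sdiff.1 (hlm j.val j.2).2.1).2
      rw [hij] at h2
      exact absurd h2 h3
    · exact Fin.ext h1
    · have h2 := (hused _ _ h1 i.2).2
      have h3 := (mem_sdiff.1 (hlm i.val i.2).2.1).2
      rw [← hij] at h2
      exact absurd h2 h3
  · intro i a
    exact (mem_sdiff.1 ((hlm i.val i.2).1 a)).1
  · intro i
    exact (mem_sdiff.1 (hlm i.val i.2).2.1).1
  · intro i
    exact (hlm i.val i.2).2.2
  · intro W z hW
    obtain ⟨W', rfl⟩ := hlist W hW.1.len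
    exact hcnt (Sum.inl (W', z)) _ (fun i hi => ⟨hW, hi⟩)
  · intro W hW
    obtain ⟨W', rfl⟩ := hlist W hW.len
    exact hcnt (Sum.inr (Sum.inl W')) _ (fun i hi => ⟨hW, hi⟩)
  · intro x hx a
    exact hcnt (Sum.inr (Sum.inr (Sum.inl (x, a)))) _ (fun i hi => ⟨hx, hi.1, hi.2⟩)
  · intro z hz
    exact hcnt (Sum.inr (Sum.inr (Sum.inr z))) _ (fun i hi => ⟨hz, hi⟩)

end Pool.Agent.H48.TC
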