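import Pool.Agent.H48.TC.Stm

/-!
# Good blocks and single segments
-/

set_option autoImplicit false
set_option linter.unusedSectionVars false
set_option linter.unusedSimpArgs false

namespace Pool.Agent.H48.TC

open Finset Pool.Agent.H48.PW Pool.Agent.Helper83K9.CF

namespace SEGSL

variable {V : Type} [DecidableEq V] {K : Finset V → Prop} {k : ℕ}

theorem tp_win (hK : Cx k K) {l : List V} (h : TP K k l) (a w b : List V) (hl : l = a ++ w ++ b)
    (hw : w.length ≤ k) : K w.toFinset := by
  refine hK.sub _ _ (h a.length) ?_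
  rw [hl, List.append_assoc, List.drop_left]
  intro x hx
  rw [List.mem_toFinset] at hx ⊢
  rw [List.take_append]
  rw [List.take_of_length_le hw]
  exact List.mem_append_left _ hx

theorem tp_of_win {l : List V} (h : ∀ a w b : List V, l = a ++ w ++ b → w.length ≤ k →
    K w.toFinset) : TP K k l := by
  intro i
  refine h (l.take i) ((l.drop i).take k) ((l.drop i).drop k) ?_ (List.length_take_le _ _)
  rw [List.append_assoc, List.take_append_drop, List.take_append_drop]

theorem tp_of_K (hK : Cx k K) {l : List V} (h : K l.toFinset) : TP K k l := by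
  intro i
  refine hK.sub _ _ h fun x hx => ?_
  rw [List.mem_toFinset] at hx ⊢
  exact List.mem_of_mem_drop (List.mem_of_mem_take hx)

theorem tp_rev (hK : Cx k K) {l : List V} (h : TP K k l) : TP K k l.reverse := by
  apply tp_of_win
  intro a w b hl hw
  have h1 : l = b.reverse ++ w.reverse ++ a.reverse := by
    have := congrArg List.reverse hl
    rw [List.reverse_reverse] at this
    rw [this]
    simp [List.append_assoc]
  have h2 := tp_win hK h _ _ _ h1 (by rw [List.length_reverse]; exact hw)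
  rwa [List.toFinset_reverse] at h2

theorem mem_lastn_of_suffix {t : ℕ} {L a w : List V} (hL : L = a ++ w) (hw : w.length ≤ t) {x : V}
    (hx : x ∈ w) : x ∈ lastn t L := by
  unfold lastn
  rw [hL, List.drop_append]
  apply List.mem_append_right
  have : (a ++ w).length - t - a.length = 0 := by
    rw [List.length_append]; omega
  rw [this, List.drop_zero]
  exact hx

theorem tp_snoc (hK : Cx k K) (hk : 1 ≤ k) {L : List V} {v : V} (h : TP K k L)
    (h2 : K (insert v (lastn (k - 1) L).toFinset)) : TP K k (L ++ [v]) := by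
  apply tp_of_win
  intro a w b hl hw
  rcases List.eq_nil_or_concat b with hb | ⟨b', v', hb⟩
  · subst hb
    rw [List.append_nil] at hl
    rcases List.eq_nil_or_concat w with hw' | ⟨w', v', hw'⟩
    · subst hw'
      simpa using hK.emp
    · rw [List.concat_eq_append] at hw'
      subst hw'
      rw [← List.append_assoc] at hl
      obtain ⟨h3, h4⟩ := List.append_inj' hl rfl
      have h5 : v = v' := by simpa using h4
      subst h5
      refine hK.sub _ _ h2 fun x hx => ?_
      rw [List.mem_toFinset, List.mem_append] at hx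
      rw [Finset.mem_insert, List.mem_toFinset]
      rcases hx with hx | hx
      · right
        refine mem_lastn_of_suffix h3 ?_ hx
        rw [List.length_append, List.length_singleton] at hw
        omega
      · left; simpa using hx
  · rw [List.concat_eq_append] at hb
    subst hb
    rw [← List.append_assoc] at hl
    obtain ⟨h3, h4⟩ := List.append_inj' hl rfl
    exact tp_win hK h a w b' h3 hw

theorem K_lastn (hK : Cx k K) {L : List V} (h : TP K k L) : K (lastn (k - 1) L).toFinset := by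
  refine tp_win hK h (L.take (L.length - (k - 1))) _ [] ?_ ?_
  · unfold lastn
    rw [List.append_nil, List.take_append_drop]
  · unfold lastn
    rw [List.length_drop]
    omega

theorem card_lastn (hk : 1 ≤ k) (L : List V) : (lastn (k - 1) L).toFinset.card < k := by
  have h1 := List.toFinset_card_le (lastn (k - 1) L)
  have h2 : (lastn (k - 1) L).length ≤ k - 1 := by
    unfold lastn
    rw [List.length_drop]
    omega
  omega

variable [Fintype V]

theorem mem_ex {T : Finset V} {v : V} : v ∈ ex K univ T ↔ v ∉ T ∧ K (insert v T) := by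
  unfold ex
  simp

open Classical in
/-- Double counting: almost every vertex keeps the degree into `Y` large. -/
theorem bad_count {c₁ c s g : ℝ} {Y Ys Xs : Finset V} (hX : XS k K c₁ c Y Ys Xs) (hs0 : 0 < s)
    (hs : c = s ^ 2) (hs2 : s ≤ 1 / 2) (hn : 0 < Fintype.card V) {T : Finset V}
    (hT : T.card + 1 < k) (hg : ((Y \ ex K univ T).card : ℝ) ≤ g * (Fintype.card V : ℝ)) :
    ((Xs.filter (fun x => x ∉ T ∧ (g + s) * (Fintype.card V : ℝ) <
      ((Y \ ex K univ (insert x T)).card : ℝ))).card : ℝ) ≤ 2 * s * (Fintype.card V : ℝ) := by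
  obtain ⟨n, hn'⟩ : ∃ n : ℝ, n = (Fintype.card V : ℝ) := ⟨_, rfl⟩
  have hn0 : 0 < n := by rw [hn']; exact_mod_cast hn
  rw [← hn'] at hg ⊢
  obtain ⟨B, hB⟩ : ∃ B, B = Xs.filter (fun x => x ∉ T ∧ (g + s) * n <
      ((Y \ ex K univ (insert x T)).card : ℝ)) := ⟨_, rfl⟩
  rw [← hB]
  have hm : ∀ x ∈ B, s / 2 * n ≤ (((Ys ∩ ex K univ T).bipartiteAbove
      (fun x y => x ∈ Yᶜ \ ex K univ (insert y T)) x).card : ℝ) := by
    intro x hx
    rw [hB, Finset.mem_filter] at hx
    obtain ⟨hxX, hxT, hxb⟩ := hx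
    have hxY : x ∉ Y := fun h => (Finset.disjoint_left.1 hX.xs hxX) h
    have h1 : (Y \ ex K univ (insert x T)) ⊆ ((Ys ∩ ex K univ T).bipartiteAbove
        (fun x y => x ∈ Yᶜ \ ex K univ (insert y T)) x) ∪ (Y \ ex K univ T) ∪ (Y \ Ys) := by
      intro y hy
      rw [Finset.mem_sdiff] at hy
      by_cases h2 : y ∈ Ys
      · by_cases h3 : y ∈ ex K univ T
        · apply Finset.mem_union_left
          apply Finset.mem_union_left
          rw [Finset.mem_bipartiteAbove]
          refine ⟨Finset.mem_inter.2 ⟨h2, h3⟩, ?_⟩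
          rw [Finset.mem_sdiff, Finset.mem_compl]
          refine ⟨hxY, fun h4 => hy.2 ?_⟩
          rw [mem_ex] at h3 h4 ⊢
          refine ⟨?_, ?_⟩
          · rw [Finset.mem_insert, not_or]
            exact ⟨fun h => hxY (h ▸ hy.1), h3.1⟩
          · rw [Finset.insert_comm]; exact h4.2
        · apply Finset.mem_union_left
          apply Finset.mem_union_right
          exact Finset.mem_sdiff.2 ⟨hy.1, h3⟩
      · apply Finset.mem_union_right
        exact Finset.mem_sdiff.2 ⟨hy.1, h2⟩
    have h2 := (Finset.card_le_card h1).trans ((Finset.card_union_le _ _).trans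
      (Nat.add_le_add_right (Finset.card_union_le _ _) _))
    have h3 : ((Y \ ex K univ (insert x T)).card : ℝ) ≤
        ((((Ys ∩ ex K univ T).bipartiteAbove
        (fun x y => x ∈ Yᶜ \ ex K univ (insert y T)) x).card : ℝ) +
        ((Y \ ex K univ T).card : ℝ)) + ((Y \ Ys).card : ℝ) := by exact_mod_cast h2
    have h4 := hX.cYs
    rw [← hn', hs] at h4
    have h5 : s ^ 2 * n ≤ s / 2 * n := by
      apply mul_le_mul_of_nonneg_right _ hn0.le
      nlinarith
    nlinarith
  have hn2 : ∀ y ∈ Ys ∩ ex K univ T, ((B.bipartiteBelow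
      (fun x y => x ∈ Yᶜ \ ex K univ (insert y T)) y).card : ℝ) ≤ s ^ 2 * n := by
    intro y hy
    rw [Finset.mem_inter] at hy
    have h1 := hX.exts y hy.1 (insert y T) (mem_ex.1 hy.2).2 (Finset.mem_insert_self _ _)
      (lt_of_le_of_lt (Finset.card_insert_le _ _) hT)
    rw [← hn', hs] at h1
    refine le_trans ?_ h1
    have h2 : (B.bipartiteBelow (fun x y => x ∈ Yᶜ \ ex K univ (insert y T)) y) ⊆
        Yᶜ \ ex K univ (insert y T) := by
      intro x hx
      rw [Finset.mem_bipartiteBelow] at hx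
      exact hx.2
    exact_mod_cast Finset.card_le_card h2
  have h1 := Finset.card_nsmul_le_card_nsmul (R := ℝ)
    (r := fun x y => x ∈ Yᶜ \ ex K univ (insert y T)) hm hn2
  rw [nsmul_eq_mul, nsmul_eq_mul] at h1
  have h2 : ((Ys ∩ ex K univ T).card : ℝ) ≤ n := by
    rw [hn']
    exact_mod_cast Finset.card_le_univ _
  have h3 : (B.card : ℝ) * (s / 2 * n) ≤ n * (s ^ 2 * n) :=
    h1.trans (mul_le_mul_of_nonneg_right h2 (by positivity))
  have h4 : (B.card : ℝ) * (s / 2 * n) ≤ 2 * s * n * (s / 2 * n) := by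
    calc (B.card : ℝ) * (s / 2 * n) ≤ n * (s ^ 2 * n) := h3
      _ = 2 * s * n * (s / 2 * n) := by ring
  exact le_of_mul_le_mul_right h4 (by positivity)

open Classical in
theorem grow (hK : Cx k K) (hk : 1 ≤ k) {c₁ c s : ℝ} {Y Ys Xs : Finset V}
    (hX : XS k K c₁ c Y Ys Xs) (hs0 : 0 < s) (hs : c = s ^ 2) (hs2 : s ≤ 1 / 2)
    (hsc : 4 * s ≤ c₁) (hn : 0 < Fintype.card V) {Q : Finset V} (hQ : Q ⊆ Xs)
    (hQ2 : 2 * c₁ * (Fintype.card V : ℝ) ≤ (Q.card : ℝ)) {l : List V} {y : V} (hy : y ∈ Y)
    (hl : TP K k (l ++ [y])) : ∀ j : ℕ, j + 1 ≤ k → ∃ b : List V, b.length = j ∧ b.Nodup ∧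
      K b.toFinset ∧ ((Y \ ex K univ b.toFinset).card : ℝ) ≤ (j * s) * (Fintype.card V : ℝ) ∧
      (∀ v ∈ b, v ∈ Q) ∧ TP K k (l ++ [y] ++ b) := by
  obtain ⟨n, hn'⟩ : ∃ n : ℝ, n = (Fintype.card V : ℝ) := ⟨_, rfl⟩
  have hn0 : 0 < n := by rw [hn']; exact_mod_cast hn
  intro j
  induction j with
  | zero =>
    intro _
    refine ⟨[], rfl, List.nodup_nil, by simpa using hK.emp, ?_, by simp, by simpa using hl⟩
    have : Y \ ex K univ ([] : List V).toFinset = ∅ := by
      ext x
      simp only [List.toFinset_nil, Finset.mem_sdiff, mem_ex, Finset.notMem_empty,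
        not_false_eq_true, true_and, iff_false, not_and, not_not]
      intro _
      exact hK.vert x
    rw [this]
    simp
  | succ j ih =>
    intro hj
    obtain ⟨b, hb1, hb2, hb3, hb4, hb5, hb6⟩ := ih (by omega)
    have hcard : b.toFinset.card = j := by rw [List.toFinset_card_of_nodup hb2, hb1]
    have hbad := bad_count hX hs0 hs hs2 hn (T := b.toFinset) (by omega) hb4
    obtain ⟨B, hB⟩ : ∃ B, B = Xs.filter (fun x => x ∉ b.toFinset ∧ (j * s + s) *
      (Fintype.card V : ℝ) < ((Y \ ex K univ (insert x b.toFinset)).card : ℝ)) := ⟨_, rfl⟩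
    rw [← hB] at hbad
    obtain ⟨T', hT'⟩ : ∃ T', T' = (lastn (k - 1) (l ++ [y] ++ b)).toFinset := ⟨_, rfl⟩
    have hKT' : K T' := by rw [hT']; exact K_lastn hK hb6
    have hyb : ∀ v ∈ y :: b, v ∈ T' := by
      intro v hv
      rw [hT', List.mem_toFinset]
      refine mem_lastn_of_suffix (a := l) (w := y :: b) (by simp) ?_ hv
      rw [List.length_cons]; omega
    have hext := hX.ext y hy T' hKT' (hyb y (by simp)) (by rw [hT']; exact card_lastn hk _)
    have hex : ∃ x ∈ Q, x ∉ (Yᶜ \ ex K univ T') ∪ B := by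
      by_contra hcon
      push Not at hcon
      have h1 : Q.card ≤ (Yᶜ \ ex K univ T').card + B.card :=
        (Finset.card_le_card hcon).trans (Finset.card_union_le _ _)
      have h2 : (Q.card : ℝ) ≤ ((Yᶜ \ ex K univ T').card : ℝ) + (B.card : ℝ) := by
        exact_mod_cast h1
      rw [← hn'] at hQ2 hext hbad
      have h3 : s * n ≤ c₁ / 4 * n := mul_le_mul_of_nonneg_right (by linarith) hn0.le
      have h4 : 0 < c₁ * n := mul_pos (by linarith) hn0
      nlinarith
    obtain ⟨x, hxQ, hx⟩ := hex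
    rw [Finset.mem_union, not_or, Finset.mem_sdiff, Finset.mem_compl] at hx
    have hxX := hQ hxQ
    have hxY : x ∉ Y := fun h => (Finset.disjoint_left.1 hX.xs hxX) h
    have hxT' : x ∈ ex K univ T' := by
      by_contra h
      exact hx.1 ⟨hxY, h⟩
    rw [mem_ex] at hxT'
    have hxb : x ∉ b := fun h => hxT'.1 (hyb x (by simp [h]))
    have hxB := hx.2
    rw [hB, Finset.mem_filter] at hxB
    have hdeg : ((Y \ ex K univ (insert x b.toFinset)).card : ℝ) ≤
        (j * s + s) * (Fintype.card V : ℝ) := by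
      by_contra h
      exact hxB ⟨hxX, by rwa [List.mem_toFinset], not_le.1 h⟩
    have htf : (b ++ [x]).toFinset = insert x b.toFinset := by
      ext z; simp [or_comm]
    refine ⟨b ++ [x], by simp [hb1], ?_, ?_, ?_, ?_, ?_⟩
    · rw [List.nodup_append]
      refine ⟨hb2, by simp, ?_⟩
      intro a ha b' hb' hab
      rw [List.mem_singleton] at hb'
      subst hb'
      exact hxb (hab ▸ ha)
    · rw [htf]
      refine hK.sub _ _ hxT'.2 ?_
      apply Finset.insert_subset_insert
      intro z hz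
      exact hyb z (by rw [List.mem_toFinset] at hz; simp [hz])
    · rw [htf]
      refine hdeg.trans (le_of_eq ?_)
      push_cast
      ring
    · intro v hv
      rw [List.mem_append, List.mem_singleton] at hv
      rcases hv with hv | hv
      · exact hb5 v hv
      · exact hv ▸ hxQ
    · rw [← List.append_assoc]
      refine tp_snoc hK hk hb6 ?_
      rw [← hT']
      exact hxT'.2

end SEGSL

open SEGSL

theorem extb : S_EXTB := by
  intro k c₁ c₃ hk hc₁ hc₁' hc₃
  have hk0 : (0 : ℝ) < k := by exact_mod_cast (by omega : 0 < k)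
  have hk3 : (3 : ℝ) ≤ k := by exact_mod_cast hk
  have hc₁s : c₁ ≤ 1 / 900 := by
    refine hc₁'.trans ?_
    apply one_div_le_one_div_of_le (by norm_num)
    nlinarith
  obtain ⟨s, hs⟩ : ∃ s : ℝ, s = min (c₁ / 4) (c₃ / k) := ⟨_, rfl⟩
  have hs0 : 0 < s := by rw [hs]; exact lt_min (by positivity) (by positivity)
  have hs1 : s ≤ c₁ / 4 := hs ▸ min_le_left _ _
  have hs3 : s ≤ c₃ / k := hs ▸ min_le_right _ _
  have hs3' : s * k ≤ c₃ := by rwa [le_div_iff₀ hk0] at hs3
  refine ⟨s ^ 2, 1, by positivity, by nlinarith, by nlinarith, ?_⟩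
  intro V _ _ K hK hn Y Ys Xs hX Q hQ hQ2 l y hy hl
  have hright : ∀ l : List V, TP K k (l ++ [y]) → ∃ b : List V, GB k K c₃ Y b ∧
      (∀ v ∈ b, v ∈ Q) ∧ TP K k (l ++ [y] ++ b) := by
    intro l hl
    obtain ⟨b, h1, h2, h3, h4, h5, h6⟩ := grow hK (by omega) hX hs0 rfl (by linarith)
      (by linarith) (by omega) hQ hQ2 hy hl (k - 1) (by omega)
    refine ⟨b, ⟨h1, h2, h3, h4.trans ?_⟩, h5, h6⟩
    apply mul_le_mul_of_nonneg_right _ (by positivity)
    have : ((k - 1 : ℕ) : ℝ) ≤ k := by exact_mod_cast Nat.sub_le k 1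
    nlinarith
  refine ⟨hright l, fun h => ?_⟩
  have h1 : TP K k (l.reverse ++ [y]) := by
    have := tp_rev hK h
    rwa [List.reverse_cons] at this
  obtain ⟨b, hb1, hb2, hb3⟩ := hright _ h1
  refine ⟨b.reverse, ⟨?_, ?_, ?_, ?_⟩, ?_, ?_⟩
  · rw [List.length_reverse]; exact hb1.len
  · rw [List.nodup_reverse]; exact hb1.nd
  · rw [List.toFinset_reverse]; exact hb1.mem
  · rw [List.toFinset_reverse]; exact hb1.ext
  · intro v hv
    exact hb2 v (List.mem_reverse.1 hv)
  · have := tp_rev hK hb3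
    simpa using this

namespace SEGSL

variable {V : Type} [DecidableEq V] {K : Finset V → Prop} {k : ℕ} [Fintype V]

/-- one vertex which extends two sets -/
theorem step {c₁ c : ℝ} {Y Ys Xs : Finset V} (hX : XS k K c₁ c Y Ys Xs)
    (Q : Finset V) (hQ : Q ⊆ Xs) (hQ2 : 2 * c₁ * (Fintype.card V : ℝ) < (Q.card : ℝ))
    (T₁ T₂ : Finset V) {y₁ y₂ : V} (hy₁ : y₁ ∈ Y) (hy₂ : y₂ ∈ Y) (h₁ : y₁ ∈ T₁) (h₂ : y₂ ∈ T₂)
    (hK₁ : K T₁) (hK₂ : K T₂) (hc1 : T₁.card < k) (hc2 : T₂.card < k) :
    ∃ x ∈ Q, x ∉ T₁ ∧ x ∉ T₂ ∧ K (insert x T₁) ∧ K (insert x T₂) := by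
  have e1 := hX.ext y₁ hy₁ T₁ hK₁ h₁ hc1
  have e2 := hX.ext y₂ hy₂ T₂ hK₂ h₂ hc2
  have hex : ∃ x ∈ Q, x ∉ (Yᶜ \ ex K univ T₁) ∪ (Yᶜ \ ex K univ T₂) := by
    by_contra hcon
    push Not at hcon
    have h1 : Q.card ≤ (Yᶜ \ ex K univ T₁).card + (Yᶜ \ ex K univ T₂).card :=
      (Finset.card_le_card hcon).trans (Finset.card_union_le _ _)
    have h2 : (Q.card : ℝ) ≤ ((Yᶜ \ ex K univ T₁).card : ℝ) +
        ((Yᶜ \ ex K univ T₂).card : ℝ) := by exact_mod_cast h1
    linarith
  obtain ⟨x, hxQ, hx⟩ := hex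
  rw [Finset.mem_union, not_or, Finset.mem_sdiff, Finset.mem_sdiff, Finset.mem_compl] at hx
  have hxY : x ∉ Y := fun h => (Finset.disjoint_left.1 hX.xs (hQ hxQ)) h
  have h3 : x ∈ ex K univ T₁ := by
    by_contra h
    exact hx.1 ⟨hxY, h⟩
  have h4 : x ∈ ex K univ T₂ := by
    by_contra h
    exact hx.2 ⟨hxY, h⟩
  rw [mem_ex] at h3 h4
  exact ⟨x, hxQ, h3.1, h4.1, h3.2, h4.2⟩

/-- a core is continued on both sides -/
theorem finish (hK : Cx k K) (hk : 3 ≤ k) {c₁ c c₃ : ℝ} {Y Ys Xs : Finset V}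
    (hX : XS k K c₁ c Y Ys Xs) (hc₁ : c₁ ≤ 1 / 900)
    (hE : ∀ Q : Finset V, Q ⊆ Xs → 2 * c₁ * (Fintype.card V : ℝ) ≤ (Q.card : ℝ) →
      ∀ (l : List V) (y : V), y ∈ Y → (∀ v ∈ l, v ∉ Q) →
      (TP K k (l ++ [y]) →
        ∃ b : List V, GB k K c₃ Y b ∧ (∀ v ∈ b, v ∈ Q) ∧ TP K k (l ++ [y] ++ b)) ∧
      (TP K k (y :: l) → ∃ b : List V, GB k K c₃ Y b ∧ (∀ v ∈ b, v ∈ Q) ∧ TP K k (b ++ y :: l)))
    {Q Z : Finset V} (hQ : Q ⊆ Xs) (hQ2 : 6 / 10 * (Fintype.card V : ℝ) ≤ (Q.card : ℝ))
    (hn : 30 * k ≤ Fintype.card V) (u l₁ l₂ : List V) (y y' : V) (hy : y ∈ Y) (hy' : y' ∈ Y)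
    (hu₁ : u = y :: l₁) (hu₂ : u = l₂ ++ [y']) (hul : u.length ≤ 2 * k) (hTP : TP K k u)
    (hnd : u.Nodup) (hm : ∀ v ∈ u, v ∈ Q ∨ v ∈ Z) (hZ : ∀ z ∈ Z, z ∈ u) (m : ℕ)
    (hmm : m = 2 * (k - 1) + u.length) : ∃ s, Seg k K c₃ Y Q Z m s := by
  obtain ⟨n, hn'⟩ : ∃ n : ℝ, n = (Fintype.card V : ℝ) := ⟨_, rfl⟩
  have hn30 : 30 * (k : ℝ) ≤ n := by rw [hn']; exact_mod_cast hn
  have hk3 : (3 : ℝ) ≤ k := by exact_mod_cast hk
  rw [← hn'] at hQ2 hE
  have hQ1 : 2 * c₁ * n ≤ ((Q \ u.toFinset).card : ℝ) := by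
    have h1 : Q.card ≤ (Q \ u.toFinset).card + u.toFinset.card :=
      Finset.card_le_card_sdiff_add_card
    have h2 : u.toFinset.card ≤ 2 * k := (List.toFinset_card_le u).trans hul
    have h3 : (Q.card : ℝ) ≤ ((Q \ u.toFinset).card : ℝ) + 2 * k := by
      exact_mod_cast h1.trans (Nat.add_le_add_left h2 _)
    nlinarith
  obtain ⟨b₁, hb1, hb2, hb3⟩ := (hE (Q \ u.toFinset) (Finset.sdiff_subset.trans hQ) hQ1 l₁ y hy
    (fun v hv h => by
      rw [Finset.mem_sdiff, List.mem_toFinset] at h
      exact h.2 (by rw [hu₁]; exact List.mem_cons_of_mem _ hv))).2 (hu₁ ▸ hTP)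
  have hQ3 : 2 * c₁ * n ≤ (((Q \ u.toFinset) \ b₁.toFinset).card : ℝ) := by
    have h1 : Q.card ≤ (Q \ u.toFinset).card + u.toFinset.card :=
      Finset.card_le_card_sdiff_add_card
    have h2 : u.toFinset.card ≤ 2 * k := (List.toFinset_card_le u).trans hul
    have h4 : (Q \ u.toFinset).card ≤ ((Q \ u.toFinset) \ b₁.toFinset).card + b₁.toFinset.card :=
      Finset.card_le_card_sdiff_add_card
    have h5 : b₁.toFinset.card ≤ k := (List.toFinset_card_le b₁).trans (by rw [hb1.len]; omega)
    have h3 : (Q.card : ℝ) ≤ (((Q \ u.toFinset) \ b₁.toFinset).card : ℝ) + 3 * k := by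
      have : Q.card ≤ ((Q \ u.toFinset) \ b₁.toFinset).card + 3 * k := by omega
      exact_mod_cast this
    nlinarith
  rw [← hu₁, hu₂, ← List.append_assoc] at hb3
  have hbu : ∀ v ∈ b₁, v ∉ u := by
    intro v hv h
    have := hb2 v hv
    rw [Finset.mem_sdiff, List.mem_toFinset] at this
    exact this.2 h
  obtain ⟨b₂, hc1, hc2, hc3⟩ := (hE ((Q \ u.toFinset) \ b₁.toFinset)
    ((Finset.sdiff_subset.trans Finset.sdiff_subset).trans hQ) hQ3 (b₁ ++ l₂) y' hy'
    (fun v hv h => by
      rw [Finset.mem_sdiff, Finset.mem_sdiff, List.mem_toFinset, List.mem_toFinset] at h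
      rw [List.mem_append] at hv
      rcases hv with hv | hv
      · exact h.2 hv
      · exact h.1.2 (by rw [hu₂]; exact List.mem_append_left _ hv))).1 hb3
  have hcu : ∀ v ∈ b₂, v ∉ u ∧ v ∉ b₁ := by
    intro v hv
    have := hc2 v hv
    rw [Finset.mem_sdiff, Finset.mem_sdiff, List.mem_toFinset, List.mem_toFinset] at this
    exact ⟨this.1.2, this.2⟩
  have hs : b₁ ++ l₂ ++ [y'] ++ b₂ = b₁ ++ u ++ b₂ := by
    rw [hu₂]; simp
  rw [hs] at hc3
  refine ⟨b₁ ++ u ++ b₂, ⟨?_, hc3, ?_, ?_, ?_, ?_, ?_⟩⟩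
  · rw [List.nodup_append, List.nodup_append]
    refine ⟨⟨hb1.nd, hnd, ?_⟩, hc1.nd, ?_⟩
    · intro a ha b hb hab
      exact hbu a ha (hab ▸ hb)
    · intro a ha b hb hab
      rw [List.mem_append] at ha
      subst hab
      rcases ha with ha | ha
      · exact (hcu a hb).2 ha
      · exact (hcu a hb).1 ha
  · rw [List.length_append, List.length_append, hb1.len, hc1.len, hmm]
    omega
  · rw [List.append_assoc]
    have : (b₁ ++ (u ++ b₂)).take (k - 1) = b₁ := by
      rw [List.take_append_of_le_length (by rw [hb1.len]), List.take_of_length_le (by rw [hb1.len])]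
    rw [this]
    exact hb1
  · have : lastn (k - 1) (b₁ ++ u ++ b₂) = b₂ := by
      unfold lastn
      have h1 : (b₁ ++ u ++ b₂).length - (k - 1) = (b₁ ++ u).length := by
        rw [List.length_append (bs := b₂), hc1.len]; omega
      rw [h1, List.drop_left]
    rw [this]
    exact hc1
  · intro v hv
    rw [List.mem_append, List.mem_append] at hv
    rcases hv with (hv | hv) | hv
    · exact Or.inl (Finset.mem_sdiff.1 (hb2 v hv)).1
    · exact hm v hv
    · exact Or.inl (Finset.mem_sdiff.1 (Finset.mem_sdiff.1 (hc2 v hv)).1).1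
  · intro z hz
    rw [List.mem_append, List.mem_append]
    exact Or.inl (Or.inr (hZ z hz))

/-- a list which extends two sets -/
theorem glist {c₁ c : ℝ} {Y Ys Xs : Finset V} (hX : XS k K c₁ c Y Ys Xs)
    {Q : Finset V} (hQ : Q ⊆ Xs) (hQ2 : 2 * c₁ * (Fintype.card V : ℝ) < (Q.card : ℝ))
    (T₁ T₂ : Finset V) {y₁ y₂ : V} (hy₁ : y₁ ∈ Y) (hy₂ : y₂ ∈ Y) (h₁ : y₁ ∈ T₁) (h₂ : y₂ ∈ T₂)
    (hK₁ : K T₁) (hK₂ : K T₂) : ∀ j : ℕ, T₁.card + j ≤ k → T₂.card + j ≤ k →
    ∃ l : List V, l.length = j ∧ l.Nodup ∧ (∀ v ∈ l, v ∈ Q ∧ v ∉ T₁ ∧ v ∉ T₂) ∧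
      K (T₁ ∪ l.toFinset) ∧ K (T₂ ∪ l.toFinset) := by
  intro j
  induction j with
  | zero =>
    intro _ _
    exact ⟨[], rfl, List.nodup_nil, by simp, by simpa using hK₁, by simpa using hK₂⟩
  | succ j ih =>
    intro hj1 hj2
    obtain ⟨l, hl1, hl2, hl3, hl4, hl5⟩ := ih (by omega) (by omega)
    have hlc : l.toFinset.card ≤ j := (List.toFinset_card_le l).trans hl1.le
    obtain ⟨x, hxQ, hx1, hx2, hx3, hx4⟩ := step hX Q hQ hQ2 (T₁ ∪ l.toFinset) (T₂ ∪ l.toFinset)
      hy₁ hy₂ (Finset.mem_union_left _ h₁) (Finset.mem_union_left _ h₂) hl4 hl5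
      (by have := Finset.card_union_le T₁ l.toFinset; omega)
      (by have := Finset.card_union_le T₂ l.toFinset; omega)
    rw [Finset.mem_union, not_or, List.mem_toFinset] at hx1 hx2
    refine ⟨x :: l, by simp [hl1], List.nodup_cons.2 ⟨hx1.2, hl2⟩, ?_, ?_, ?_⟩
    · intro v hv
      rw [List.mem_cons] at hv
      rcases hv with rfl | hv
      · exact ⟨hxQ, hx1.1, hx2.1⟩
      · exact hl3 v hv
    · rw [List.toFinset_cons, Finset.union_insert]; exact hx3
    · rw [List.toFinset_cons, Finset.union_insert]; exact hx4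

end SEGSL

theorem segs (h : S_EXTB) : S_SEGS := by
  intro k c₁ c₃ hk hc₁ hc₁' hc₃
  have hk0 : (0 : ℝ) < k := by exact_mod_cast (by omega : 0 < k)
  have hk3 : (3 : ℝ) ≤ k := by exact_mod_cast hk
  have hc₁s : c₁ ≤ 1 / 900 := by
    refine hc₁'.trans ?_
    apply one_div_le_one_div_of_le (by norm_num)
    nlinarith
  obtain ⟨c, n₀, hc0, hcc₁, hcc₃, hE⟩ := h k c₁ c₃ hk hc₁ hc₁' hc₃
  refine ⟨c, max n₀ (30 * k), hc0, hcc₁, hcc₃, ?_⟩
  intro V _ _ K hK hn hPD Y Ys Xs hX Q hQ hQ2
  have hn1 : n₀ ≤ Fintype.card V := (le_max_left _ _).trans hn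
  have hn2 : 30 * k ≤ Fintype.card V := (le_max_right _ _).trans hn
  obtain ⟨n, hn'⟩ : ∃ n : ℝ, n = (Fintype.card V : ℝ) := ⟨_, rfl⟩
  have hn30 : 30 * (k : ℝ) ≤ n := by rw [hn']; exact_mod_cast hn2
  have hn0 : 0 < n := by linarith
  have hEV := hE V K hK hn1 Y Ys Xs hX
  -- the size of Q
  have hkn : n / k ≤ n / 3 := by
    apply div_le_div_of_nonneg_left hn0.le (by norm_num) hk3
  have hYc : (Y.card : ℝ) ≤ n / k + c * n := by
    have := (abs_le.1 hX.cY).2
    rw [← hn'] at this
    linarith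
  have hXs : n - (Y.card : ℝ) ≤ (Xs.card : ℝ) + c * n := by
    have h1 : (Yᶜ).card ≤ (Yᶜ \ Xs).card + Xs.card := Finset.card_le_card_sdiff_add_card
    have h2 : Y.card + (Yᶜ).card = Fintype.card V := Finset.card_add_card_compl Y
    have h3 := hX.cXs
    rw [← hn'] at h3
    have h4 : n ≤ (Y.card : ℝ) + (((Yᶜ \ Xs).card : ℝ) + (Xs.card : ℝ)) := by
      rw [hn']
      have : Fintype.card V ≤ Y.card + ((Yᶜ \ Xs).card + Xs.card) := by omega
      exact_mod_cast this
    linarith
  rw [← hn'] at hQ2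
  have hcn : c * n ≤ 1 / 900 * n := mul_le_mul_of_nonneg_right (by linarith) hn0.le
  have hc1n : c₁ * n ≤ 1 / 900 * n := mul_le_mul_of_nonneg_right hc₁s hn0.le
  have hQge : n - n / k - 2 * (c * n) - c₁ * n ≤ (Q.card : ℝ) := by linarith
  have hQ6 : 6 / 10 * (Fintype.card V : ℝ) ≤ (Q.card : ℝ) := by
    rw [← hn']
    linarith
  have hQstep : 2 * c₁ * (Fintype.card V : ℝ) < (Q.card : ℝ) := by
    rw [← hn']
    rw [← hn'] at hQ6
    nlinarith
  have hQY : ∀ v ∈ Q, v ∉ Y := fun v hv h => (Finset.disjoint_left.1 hX.xs (hQ hv)) h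
  have F := fun (Z : Finset V) (u l₁ l₂ : List V) (y y' : V) => finish (Z := Z) hK hk hX hc₁s hEV
    hQ hQ6 hn2 u l₁ l₂ y y'
  refine ⟨?_, ?_, ?_, ?_⟩
  · -- (i)
    intro y hy
    refine F {y} [y] [] [] y y hy hy rfl rfl (by simp; omega) ?_ (by simp) (by simp) (by simp) _
      (by simp)
    exact tp_of_K hK (by simpa using hK.vert y)
  · -- (ii)
    intro x y y' hxY hxQ hy hy' hyy hxy hxy'
    have hxy1 : x ≠ y := fun h => hxY (h ▸ hy)
    have hxy2 : x ≠ y' := fun h => hxY (h ▸ hy')
    obtain ⟨l, hl1, hl2, hl3, hl4, hl5⟩ := glist hX hQ hQstep {x, y} {x, y'} hy hy'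
      (by simp) (by simp) hxy hxy' (k - 2)
      (by have := Finset.card_le_two (a := x) (b := y); omega)
      (by have := Finset.card_le_two (a := x) (b := y'); omega)
    have hL : TP K k (y :: x :: l) := by
      apply tp_of_K hK
      refine hK.sub _ _ hl4 fun z hz => ?_
      simp only [List.toFinset_cons, Finset.mem_insert, List.mem_toFinset, Finset.mem_union,
        Finset.mem_singleton] at hz ⊢
      tauto
    have hlast : lastn (k - 1) (y :: x :: l) = x :: l := by
      unfold lastn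
      have : (y :: x :: l).length - (k - 1) = 1 := by
        simp only [List.length_cons, hl1]; omega
      rw [this]; rfl
    have hTP : TP K k ((y :: x :: l) ++ [y']) := by
      refine tp_snoc hK (by omega) hL ?_
      rw [hlast]
      refine hK.sub _ _ hl5 fun z hz => ?_
      simp only [List.toFinset_cons, Finset.mem_insert, List.mem_toFinset, Finset.mem_union,
        Finset.mem_singleton] at hz ⊢
      tauto
    refine F {x, y, y'} ((y :: x :: l) ++ [y']) (x :: l ++ [y']) (y :: x :: l) y y' hy hy' rfl rfl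
      ?_ hTP ?_ ?_ ?_ _ ?_
    · simp only [List.length_append, List.length_cons, hl1, List.length_nil]; omega
    · rw [List.nodup_append]
      refine ⟨?_, by simp, ?_⟩
      · rw [List.nodup_cons, List.nodup_cons]
        refine ⟨?_, ?_, hl2⟩
        · rw [List.mem_cons, not_or]
          exact ⟨hxy1.symm, fun h => hQY y (hl3 y h).1 hy⟩
        · exact fun h => hxQ (hl3 x h).1
      · intro a ha b hb hab
        rw [List.mem_singleton] at hb
        subst hab hb
        rw [List.mem_cons, List.mem_cons] at ha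
        rcases ha with ha | ha | ha
        · exact hyy ha.symm
        · exact hxy2 ha.symm
        · exact hQY _ (hl3 _ ha).1 hy'
    · intro v hv
      simp only [List.mem_append, List.mem_cons, List.not_mem_nil, or_false, Finset.mem_insert,
        Finset.mem_singleton] at hv ⊢
      rcases hv with (hv | hv | hv) | hv
      · tauto
      · tauto
      · exact Or.inl (hl3 v hv).1
      · tauto
    · intro z hz
      simp only [List.mem_append, List.mem_cons, List.not_mem_nil, or_false, Finset.mem_insert,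
        Finset.mem_singleton] at hz ⊢
      tauto
    · simp only [List.length_append, List.length_cons, hl1, List.length_nil]; omega
  · -- (iii)
    intro y y' g hy hy' hyy hK2 hg
    obtain ⟨l, hl1, hl2, hl3, hl4, -⟩ := glist hX hQ hQstep {y, y'} {y, y'} hy hy
      (by simp) (by simp) hK2 hK2 g
      (by have := Finset.card_le_two (a := y) (b := y'); omega)
      (by have := Finset.card_le_two (a := y) (b := y'); omega)
    refine F {y, y'} ((y :: l) ++ [y']) (l ++ [y']) (y :: l) y y' hy hy' rfl rfl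
      ?_ ?_ ?_ ?_ ?_ _ ?_
    · simp only [List.length_append, List.length_cons, hl1, List.length_nil]; omega
    · apply tp_of_K hK
      refine hK.sub _ _ hl4 fun z hz => ?_
      simp only [List.mem_toFinset, List.mem_append, List.mem_cons, List.not_mem_nil, or_false,
        Finset.mem_union, Finset.mem_insert, Finset.mem_singleton] at hz ⊢
      tauto
    · rw [List.nodup_append]
      refine ⟨?_, by simp, ?_⟩
      · rw [List.nodup_cons]
        exact ⟨fun h => hQY y (hl3 y h).1 hy, hl2⟩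
      · intro a ha b hb hab
        rw [List.mem_singleton] at hb
        subst hab hb
        rw [List.mem_cons] at ha
        rcases ha with ha | ha
        · exact hyy ha.symm
        · exact hQY _ (hl3 _ ha).1 hy'
    · intro v hv
      simp only [List.mem_append, List.mem_cons, List.not_mem_nil, or_false, Finset.mem_insert,
        Finset.mem_singleton] at hv ⊢
      rcases hv with (hv | hv) | hv
      · tauto
      · exact Or.inl (hl3 v hv).1
      · tauto
    · intro z hz
      simp only [List.mem_append, List.mem_cons, List.not_mem_nil, or_false, Finset.mem_insert,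
        Finset.mem_singleton] at hz ⊢
      tauto
    · simp only [List.length_append, List.length_cons, hl1, List.length_nil]; omega
  · -- (iv)
    intro y y' hy hy' hyy
    obtain ⟨x₁, hx1Q, hx1y, -, hx1K, -⟩ := step hX Q hQ hQstep {y} {y} hy hy (by simp) (by simp)
      (hK.vert y) (hK.vert y) (by simp; omega) (by simp; omega)
    have hQ' : 2 * c₁ * (Fintype.card V : ℝ) < ((Q \ {x₁}).card : ℝ) := by
      have h1 : Q.card ≤ (Q \ {x₁}).card + ({x₁} : Finset V).card :=
        Finset.card_le_card_sdiff_add_card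
      rw [Finset.card_singleton] at h1
      have h2 : (Q.card : ℝ) ≤ ((Q \ {x₁}).card : ℝ) + 1 := by exact_mod_cast h1
      rw [← hn']
      rw [← hn'] at hQ6
      nlinarith
    obtain ⟨l, hl1, hl2, hl3, hl4, hl5⟩ := glist hX (Finset.sdiff_subset.trans hQ) hQ'
      {x₁, y} {y'} hy hy'
      (by simp) (by simp) hx1K (hK.vert y') (k - 2)
      (by have := Finset.card_le_two (a := x₁) (b := y); omega) (by simp; omega)
    have hl3' : ∀ v ∈ l, v ∈ Q ∧ v ≠ x₁ := by
      intro v hv
      have := (hl3 v hv).1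
      rw [Finset.mem_sdiff, Finset.mem_singleton] at this
      exact this
    have hx1Y : x₁ ∉ Y := hQY _ hx1Q
    -- the last vertex
    obtain ⟨z, hzQ, hz1, hz2, hz3, hz4⟩ : ∃ z ∈ Q, z ∉ insert x₁ l.toFinset ∧
        z ∉ insert y' l.toFinset ∧ K (insert z (insert x₁ l.toFinset)) ∧
        K (insert z (insert y' l.toFinset)) := by
      have hK3 : K (insert x₁ l.toFinset) := by
        refine hK.sub _ _ hl4 fun z hz => ?_
        simp only [Finset.mem_union, Finset.mem_insert, Finset.mem_singleton] at hz ⊢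
        tauto
      have hK4 : K (insert y' l.toFinset) := by
        refine hK.sub _ _ hl5 fun z hz => ?_
        simp only [Finset.mem_union, Finset.mem_insert, Finset.mem_singleton] at hz ⊢
        tauto
      have hlc : l.toFinset.card ≤ k - 2 := (List.toFinset_card_le l).trans hl1.le
      have hc3 : (insert x₁ l.toFinset).card < k := by
        have := Finset.card_insert_le x₁ l.toFinset; omega
      have hc4 : (insert y' l.toFinset).card < k := by
        have := Finset.card_insert_le y' l.toFinset; omega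
      have e1 := hX.ext y' hy' _ hK4 (Finset.mem_insert_self _ _) hc4
      have e2 := hPD _ hK3 hc3
      rw [Finset.card_univ] at e2
      rw [← hn'] at e1 e2
      by_contra hcon
      push Not at hcon
      have h1 : Q ⊆ (Yᶜ \ ex K univ (insert y' l.toFinset)) ∪
          (univ \ ex K univ (insert x₁ l.toFinset)) := by
        intro v hv
        rw [Finset.mem_union, Finset.mem_sdiff, Finset.mem_sdiff, Finset.mem_compl]
        by_contra h2
        rw [not_or] at h2
        have h3 : v ∈ ex K univ (insert y' l.toFinset) := by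
          by_contra h
          exact h2.1 ⟨hQY v hv, h⟩
        have h4 : v ∈ ex K univ (insert x₁ l.toFinset) := by
          by_contra h
          exact h2.2 ⟨Finset.mem_univ _, h⟩
        rw [mem_ex] at h3 h4
        exact hcon v hv h4.1 h3.1 h4.2 h3.2
      have h2 := (Finset.card_le_card h1).trans (Finset.card_union_le _ _)
      have h3 : (univ \ ex K univ (insert x₁ l.toFinset)).card +
          (ex K univ (insert x₁ l.toFinset)).card = Fintype.card V := by
        rw [Finset.card_sdiff_add_card_eq_card (Finset.subset_univ _), Finset.card_univ]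
      have h4 : (Q.card : ℝ) ≤ ((Yᶜ \ ex K univ (insert y' l.toFinset)).card : ℝ) +
          ((univ \ ex K univ (insert x₁ l.toFinset)).card : ℝ) := by exact_mod_cast h2
      have h5 : ((univ \ ex K univ (insert x₁ l.toFinset)).card : ℝ) +
          ((ex K univ (insert x₁ l.toFinset)).card : ℝ) = n := by rw [hn']; exact_mod_cast h3
      have h6 : (1 - 1 / (k : ℝ) - 0) * n = n - n / k := by ring
      rw [h6] at e2
      rw [← hn'] at hQ6
      linarith
    rw [Finset.mem_insert, not_or, List.mem_toFinset] at hz1 hz2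
    have hzY : z ∉ Y := hQY _ hzQ
    have hL : TP K k (y :: x₁ :: l) := by
      apply tp_of_K hK
      refine hK.sub _ _ hl4 fun z hz => ?_
      simp only [List.toFinset_cons, Finset.mem_insert, List.mem_toFinset, Finset.mem_union,
        Finset.mem_singleton] at hz ⊢
      tauto
    have hlast : lastn (k - 1) (y :: x₁ :: l) = x₁ :: l := by
      unfold lastn
      have : (y :: x₁ :: l).length - (k - 1) = 1 := by
        simp only [List.length_cons, hl1]; omega
      rw [this]; rfl
    have hTP1 : TP K k ((y :: x₁ :: l) ++ [z]) := by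
      refine tp_snoc hK (by omega) hL ?_
      rw [hlast, List.toFinset_cons]
      exact hz3
    have hlast2 : lastn (k - 1) ((y :: x₁ :: l) ++ [z]) = l ++ [z] := by
      unfold lastn
      have : ((y :: x₁ :: l) ++ [z]).length - (k - 1) = 2 := by
        simp only [List.length_append, List.length_cons, hl1, List.length_nil]; omega
      rw [this]; rfl
    have hTP : TP K k (((y :: x₁ :: l) ++ [z]) ++ [y']) := by
      refine tp_snoc hK (by omega) hTP1 ?_
      rw [hlast2]
      refine hK.sub _ _ hz4 fun w hw => ?_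
      simp only [List.mem_toFinset, List.mem_append, List.mem_cons, List.not_mem_nil, or_false,
        Finset.mem_insert] at hw ⊢
      tauto
    refine F {y, y'} (((y :: x₁ :: l) ++ [z]) ++ [y']) ((x₁ :: l ++ [z]) ++ [y'])
      ((y :: x₁ :: l) ++ [z]) y y' hy hy' rfl rfl ?_ hTP ?_ ?_ ?_ _ ?_
    · simp only [List.length_append, List.length_cons, hl1, List.length_nil]; omega
    · rw [List.nodup_append, List.nodup_append, List.nodup_cons, List.nodup_cons]
      refine ⟨⟨⟨?_, ?_, hl2⟩, by simp, ?_⟩, by simp, ?_⟩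
      · rw [List.mem_cons, not_or]
        exact ⟨fun h => hx1Y (h ▸ hy), fun h => hQY y (hl3' y h).1 hy⟩
      · exact fun h => (hl3' _ h).2 rfl
      · intro a ha b hb hab
        rw [List.mem_singleton] at hb
        subst hab hb
        rw [List.mem_cons, List.mem_cons] at ha
        rcases ha with ha | ha | ha
        · exact hzY (ha ▸ hy)
        · exact hz1.1 ha
        · exact hz1.2 ha
      · intro a ha b hb hab
        rw [List.mem_singleton] at hb
        subst hab hb
        rw [List.mem_append, List.mem_cons, List.mem_cons, List.mem_singleton] at ha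
        rcases ha with (ha | ha | ha) | ha
        · exact hyy ha.symm
        · exact hx1Y (ha ▸ hy')
        · exact hQY _ (hl3' _ ha).1 hy'
        · exact hzY (ha ▸ hy')
    · intro v hv
      simp only [List.mem_append, List.mem_cons, List.not_mem_nil, or_false, Finset.mem_insert,
        Finset.mem_singleton] at hv ⊢
      rcases hv with ((hv | hv | hv) | hv) | hv
      · tauto
      · exact Or.inl (hv ▸ hx1Q)
      · exact Or.inl (hl3' v hv).1
      · exact Or.inl (hv ▸ hzQ)
      · tauto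
    · intro z hz
      simp only [List.mem_append, List.mem_cons, List.not_mem_nil, or_false, Finset.mem_insert,
        Finset.mem_singleton] at hz ⊢
      tauto
    · simp only [List.length_append, List.length_cons, hl1, List.length_nil]; omega

end Pool.Agent.H48.TC
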