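import Pool.Agent.H48.TC.Stm

set_option autoImplicit false

namespace Pool.Agent.H48.TC

open Finset Pool.Agent.H48.PW Pool.Agent.Helper83K9.CF

namespace SMPL

/-- Hoeffding with the coordinates of the set `A` fixed -/
theorem bad_set (h1 : S_HOEF) {ι V : Type} [Fintype ι] [DecidableEq ι] [DecidableEq V]
    (U : Finset V) (A : Finset ι) (F : (ι → V) → V → ℝ) (E dev : ℝ) (hU : U.Nonempty)
    (hdev : 0 < dev) (hloc : ∀ ω ω' : ι → V, (∀ i ∈ A, ω i = ω' i) → F ω = F ω')
    (hF0 : ∀ ω v, 0 ≤ F ω v) (hF1 : ∀ ω v, F ω v ≤ 1)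
    (hE : ∀ ω ∈ Fintype.piFinset (fun _ : ι => U), (∑ v ∈ U, F ω v) / (U.card : ℝ) ≤ E) :
    (((Fintype.piFinset (fun _ : ι => U)).filter (fun ω => (A.card : ℝ) +
      (Fintype.card ι : ℝ) * E + dev ≤ ∑ i, F ω (ω i))).card : ℝ) ≤
      Real.exp (-(dev ^ 2) / (16 * (Fintype.card ι : ℝ))) * (U.card : ℝ) ^ Fintype.card ι := by
  obtain ⟨v₀, hv₀⟩ := hU
  have hU' : U.Nonempty := ⟨v₀, hv₀⟩
  have hn : (0 : ℝ) < (U.card : ℝ) := by exact_mod_cast Finset.card_pos.mpr hU'
  have hE0 : 0 ≤ E := by
    refine le_trans ?_ (hE (fun _ => v₀) (Fintype.mem_piFinset.mpr (fun _ => hv₀)))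
    exact div_nonneg (Finset.sum_nonneg (fun v _ => hF0 _ _)) hn.le
  set B := (Fintype.piFinset (fun _ : ι => U)).filter (fun ω => (A.card : ℝ) +
      (Fintype.card ι : ℝ) * E + dev ≤ ∑ i, F ω (ω i)) with hB
  set ρ : (ι → V) → (ι → V) := fun ω i => if i ∈ A then ω i else v₀ with hρ
  set SA : ι → Finset V := fun i => if i ∈ A then U else {v₀} with hSA
  have hfib : B.card = ∑ w ∈ Fintype.piFinset SA, (B.filter (fun ω => ρ ω = w)).card := by
    apply Finset.card_eq_sum_card_fiberwise
    intro ω hω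
    rw [mem_coe, hB, mem_filter, Fintype.mem_piFinset] at hω
    rw [mem_coe, Fintype.mem_piFinset]
    intro i
    by_cases hi : i ∈ A
    · simp only [hρ, hSA, if_pos hi]; exact hω.1 i
    · simp only [hρ, hSA, if_neg hi]; exact mem_singleton_self _
  have hterm : ∀ w ∈ Fintype.piFinset SA, ((B.filter (fun ω => ρ ω = w)).card : ℝ) ≤
      Real.exp (-(dev ^ 2) / (16 * (Fintype.card ι : ℝ))) *
        ∏ i : ι, (if i ∈ A then (1 : ℝ) else (U.card : ℝ)) := by
    intro w hw
    rw [Fintype.mem_piFinset] at hw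
    have hwU : ∀ i, w i ∈ U := by
      intro i
      have := hw i
      by_cases hi : i ∈ A
      · simpa only [hSA, if_pos hi] using this
      · simp only [hSA, if_neg hi, mem_singleton] at this
        rw [this]; exact hv₀
    set Sw : ι → Finset V := fun i => if i ∈ A then {w i} else U with hSw
    have hprod : ∏ i : ι, (if i ∈ A then (1 : ℝ) else (U.card : ℝ)) =
        ∏ i, ((Sw i).card : ℝ) := by
      apply Finset.prod_congr rfl
      intro i _
      by_cases hi : i ∈ A
      · simp only [hSw, if_pos hi, card_singleton, Nat.cast_one]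
      · simp only [hSw, if_neg hi]
    rw [hprod]
    have hSwne : ∀ i, (Sw i).Nonempty := by
      intro i
      by_cases hi : i ∈ A
      · simp only [hSw, if_pos hi]; exact singleton_nonempty _
      · simp only [hSw, if_neg hi]; exact hU'
    have h2 := h1 ι V Sw (fun _ v => F w v) 1 dev hSwne one_pos hdev (fun i v => by
      show |F w v| ≤ 1
      rw [abs_of_nonneg (hF0 _ _)]; exact hF1 _ _)
    rw [one_pow, mul_one] at h2
    refine le_trans ?_ h2
    have hsub : B.filter (fun ω => ρ ω = w) ⊆ (Fintype.piFinset Sw).filter (fun ω =>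
        ∑ i, (∑ v ∈ Sw i, F w v) / ((Sw i).card : ℝ) + dev ≤ ∑ i, F w (ω i)) := by
      intro ω hω
      rw [mem_filter, hB, mem_filter, Fintype.mem_piFinset] at hω
      obtain ⟨⟨h3, h4⟩, h5⟩ := hω
      have h6 : ∀ i ∈ A, ω i = w i := by
        intro i hi
        have := congrFun h5 i
        simpa only [hρ, if_pos hi] using this
      have h7 : F ω = F w := hloc ω w h6
      rw [mem_filter, Fintype.mem_piFinset]
      constructor
      · intro i
        by_cases hi : i ∈ A
        · simp only [hSw, if_pos hi, mem_singleton]; exact h6 i hi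
        · simp only [hSw, if_neg hi]; exact h3 i
      · rw [h7] at h4
        refine le_trans ?_ h4
        have h8 : ∑ i, (∑ v ∈ Sw i, F w v) / ((Sw i).card : ℝ) ≤
            ∑ i : ι, ((if i ∈ A then (1 : ℝ) else 0) + E) := by
          apply Finset.sum_le_sum
          intro i _
          by_cases hi : i ∈ A
          · simp only [hSw, if_pos hi, sum_singleton, card_singleton, Nat.cast_one, div_one]
            linarith [hF1 w (w i)]
          · simp only [hSw, if_neg hi, zero_add]
            exact hE w (Fintype.mem_piFinset.mpr hwU)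
        rw [Finset.sum_add_distrib, Finset.sum_const, Finset.card_univ, nsmul_eq_mul,
          Finset.sum_ite_mem, univ_inter, Finset.sum_const, nsmul_eq_mul, mul_one] at h8
        linarith
    exact_mod_cast Finset.card_le_card hsub
  rw [hfib]
  push_cast
  calc ∑ w ∈ Fintype.piFinset SA, ((B.filter (fun ω => ρ ω = w)).card : ℝ)
      ≤ ∑ w ∈ Fintype.piFinset SA, Real.exp (-(dev ^ 2) / (16 * (Fintype.card ι : ℝ))) *
        ∏ i : ι, (if i ∈ A then (1 : ℝ) else (U.card : ℝ)) := Finset.sum_le_sum hterm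
    _ = Real.exp (-(dev ^ 2) / (16 * (Fintype.card ι : ℝ))) * (U.card : ℝ) ^ Fintype.card ι := by
        rw [Finset.sum_const, nsmul_eq_mul, Fintype.card_piFinset]
        push_cast
        rw [mul_left_comm, ← Finset.prod_mul_distrib]
        congr 1
        rw [← Finset.card_univ, ← Finset.prod_const]
        apply Finset.prod_congr rfl
        intro i _
        by_cases hi : i ∈ A
        · simp only [hSA, if_pos hi, mul_one]
        · simp only [hSA, if_neg hi, card_singleton, Nat.cast_one, one_mul]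

/-- one coordinate is determined by the others -/
theorem coll {ι V : Type} [Fintype ι] [DecidableEq ι] [DecidableEq V] (U : Finset V) (i : ι)
    (g : (ι → V) → V) (hg : ∀ ω ω' : ι → V, (∀ j, j ≠ i → ω j = ω' j) → g ω = g ω')
    (P : (ι → V) → Prop) [DecidablePred P] (hP : ∀ ω, P ω → ω i = g ω) :
    (((Fintype.piFinset (fun _ : ι => U)).filter P).card : ℝ) * (U.card : ℝ) ≤
      (U.card : ℝ) ^ Fintype.card ι := by
  have h1 : (((Fintype.piFinset (fun _ : ι => U)).filter P) ×ˢ U).card ≤
      (Fintype.piFinset (fun _ : ι => U)).card := by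
    apply Finset.card_le_card_of_injOn (fun p => Function.update p.1 i p.2)
    · rintro ⟨ω, u⟩ hp
      rw [mem_coe, mem_product, mem_filter, Fintype.mem_piFinset] at hp
      rw [mem_coe, Fintype.mem_piFinset]
      intro j
      by_cases hj : j = i
      · subst hj
        show Function.update ω j u j ∈ U
        rw [Function.update_self]; exact hp.2
      · show Function.update ω i u j ∈ U
        rw [Function.update_of_ne hj]; exact hp.1.1 j
    · rintro ⟨ω, u⟩ hp ⟨ω', u'⟩ hp' heq
      rw [mem_coe, mem_product, mem_filter] at hp hp'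
      have heq' : Function.update ω i u = Function.update ω' i u' := heq
      have h2 : u = u' := by
        have := congrFun heq' i
        rwa [Function.update_self, Function.update_self] at this
      have h3 : ∀ j, j ≠ i → ω j = ω' j := by
        intro j hj
        have := congrFun heq' j
        rwa [Function.update_of_ne hj, Function.update_of_ne hj] at this
      have h4 : ω = ω' := by
        funext j
        by_cases hj : j = i
        · subst hj
          rw [hP ω hp.1.2, hP ω' hp'.1.2]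
          exact hg ω ω' h3
        · exact h3 j hj
      rw [h2, h4]
  rw [card_product, Fintype.card_piFinset, Finset.prod_const, Finset.card_univ] at h1
  exact_mod_cast h1

theorem ev (k R : ℕ) (c : ℝ) (hc : 0 < c) : ∃ N₀ : ℕ, ∀ N : ℕ, N₀ ≤ N →
    (k : ℝ) * ((N : ℝ) + R + 1) ^ k * Real.exp (-(c * N)) ≤ 1 / 16 := by
  have h1 := tendsto_rpow_mul_exp_neg_mul_atTop_nhds_zero (k : ℝ) c hc
  have h2 : Filter.Tendsto (fun N : ℕ => (N : ℝ) + R + 1) Filter.atTop Filter.atTop := by
    apply Filter.tendsto_atTop_add_const_right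
    apply Filter.tendsto_atTop_add_const_right
    exact tendsto_natCast_atTop_atTop
  have h3 := (h1.comp h2).const_mul ((k : ℝ) * Real.exp (c * (R + 1)))
  rw [mul_zero] at h3
  have h4 := h3.eventually (gt_mem_nhds (by norm_num : (0 : ℝ) < 1 / 16))
  obtain ⟨N₀, hN₀⟩ := Filter.eventually_atTop.mp h4
  refine ⟨N₀, fun N hN => ?_⟩
  have h5 := (hN₀ N hN).le
  simp only [Function.comp_apply] at h5
  rw [Real.rpow_natCast] at h5
  refine le_trans (le_of_eq ?_) h5
  have h6 : Real.exp (-(c * N)) = Real.exp (c * (R + 1)) * Real.exp (-c * ((N : ℝ) + R + 1)) := by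
    rw [← Real.exp_add]; congr 1; ring
  rw [h6]; ring

/-- the number of small subsets -/
theorem small_card (α : Type) [Fintype α] [DecidableEq α] (k M : ℕ) (hM : Fintype.card α + 1 ≤ M) :
    (univ.filter (fun T : Finset α => T.card < k)).card ≤ k * M ^ k := by
  have h1 : (univ.filter (fun T : Finset α => T.card < k)) ⊆
      (range k).biUnion (fun j => powersetCard j univ) := by
    intro T hT
    rw [mem_filter] at hT
    rw [mem_biUnion]
    exact ⟨T.card, mem_range.mpr hT.2, mem_powersetCard.mpr ⟨subset_univ _, rfl⟩⟩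
  refine (Finset.card_le_card h1).trans (Finset.card_biUnion_le.trans ?_)
  calc ∑ j ∈ range k, (powersetCard j (univ : Finset α)).card
      ≤ ∑ j ∈ range k, M ^ k := by
        apply Finset.sum_le_sum
        intro j hj
        rw [card_powersetCard, Finset.card_univ]
        calc (Fintype.card α).choose j ≤ (Fintype.card α) ^ j := Nat.choose_le_pow _ _
          _ ≤ M ^ j := Nat.pow_le_pow_left (by omega) _
          _ ≤ M ^ k := Nat.pow_le_pow_right (by omega) (mem_range.mp hj).le
    _ = k * M ^ k := by rw [Finset.sum_const, card_range, smul_eq_mul]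

theorem lft_card (N R : ℕ) : (lft N R).card = N := by
  rw [lft, Finset.card_image_of_injective _ Sum.inl_injective, Finset.card_univ, Fintype.card_fin]

theorem elim_inj {V : Type} {N R : ℕ} {ω : Fin N → V} {e : Fin R → V}
    (h1 : Function.Injective ω) (h2 : Function.Injective e) (h3 : ∀ x r, ω x ≠ e r) :
    Function.Injective (Sum.elim ω e) := by
  rw [Function.Injective]
  rintro (a | a) (b | b) hab
  · exact congrArg _ (h1 hab)
  · exact absurd hab (h3 a b)
  · exact absurd hab.symm (h3 b a)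
  · exact congrArg _ (h2 hab)

open Classical in
/-- the indicator -/
noncomputable def FF {V : Type} [DecidableEq V] {N R : ℕ} (K : Finset V → Prop) (U : Finset V)
    (e : Fin R → V) (T : Finset (Fin N ⊕ Fin R)) (ω : Fin N → V) (v : V) : ℝ :=
  if K (T.image (Sum.elim ω e)) ∧ v ∈ ce K U (T.image (Sum.elim ω e)) then 1 else 0

theorem FF_nonneg {V : Type} [DecidableEq V] {N R : ℕ} (K : Finset V → Prop) (U : Finset V)
    (e : Fin R → V) (T : Finset (Fin N ⊕ Fin R)) (ω : Fin N → V) (v : V) : 0 ≤ FF K U e T ω v := by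
  rw [FF]; split_ifs <;> norm_num

theorem FF_le {V : Type} [DecidableEq V] {N R : ℕ} (K : Finset V → Prop) (U : Finset V)
    (e : Fin R → V) (T : Finset (Fin N ⊕ Fin R)) (ω : Fin N → V) (v : V) : FF K U e T ω v ≤ 1 := by
  rw [FF]; split_ifs <;> norm_num

theorem image_loc {V : Type} [DecidableEq V] {N R : ℕ} (e : Fin R → V)
    (T : Finset (Fin N ⊕ Fin R)) (ω ω' : Fin N → V)
    (h : ∀ i ∈ univ.filter (fun x : Fin N => Sum.inl x ∈ T), ω i = ω' i) :
    T.image (Sum.elim ω e) = T.image (Sum.elim ω' e) := by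
  apply Finset.image_congr
  rintro (a | a) ha
  · exact h a (mem_filter.mpr ⟨mem_univ _, ha⟩)
  · rfl

theorem ce_card {V : Type} [DecidableEq V] (k : ℕ) (K : Finset V → Prop) (γ : ℝ) (U T : Finset V)
    (hPD : PD k K γ U) (hT : K T) (hTk : T.card < k) :
    ((ce K U T).card : ℝ) ≤ (1 / (k : ℝ) + γ) * (U.card : ℝ) := by
  classical
  have h1 := hPD T hT hTk
  have h2 : (ce K U T).card + (ex K U T).card = U.card := by
    rw [ce]
    apply Finset.card_sdiff_add_card_eq_card
    rw [ex]
    exact filter_subset _ _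
  have h3 : ((ce K U T).card : ℝ) + ((ex K U T).card : ℝ) = (U.card : ℝ) := by exact_mod_cast h2
  nlinarith

open Classical in
theorem mean_le {V : Type} [DecidableEq V] {N R : ℕ} (k : ℕ) (K : Finset V → Prop) (γ : ℝ)
    (hγ : 0 < γ) (U : Finset V) (hU : U.Nonempty) (hPD : PD k K γ U)
    (e : Fin R → V) (T : Finset (Fin N ⊕ Fin R)) (hT : T.card < k) (ω : Fin N → V) :
    (∑ v ∈ U, FF K U e T ω v) / (U.card : ℝ) ≤ 1 / (k : ℝ) + γ := by
  have hn : (0 : ℝ) < (U.card : ℝ) := by exact_mod_cast Finset.card_pos.mpr hU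
  rw [div_le_iff₀ hn]
  by_cases hK : K (T.image (Sum.elim ω e))
  · have h1 := ce_card k K γ U _ hPD hK (lt_of_le_of_lt Finset.card_image_le hT)
    refine le_trans (le_of_eq ?_) h1
    have h2 : ∀ v ∈ U, FF K U e T ω v =
        if v ∈ ce K U (T.image (Sum.elim ω e)) then (1 : ℝ) else 0 := by
      intro v _
      simp only [FF, hK, true_and]
    rw [Finset.sum_congr rfl h2, Finset.sum_ite_mem, Finset.sum_const, nsmul_eq_mul, mul_one]
    congr 2
    rw [Finset.inter_eq_right]
    rw [ce]
    exact sdiff_subset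
  · have h2 : ∀ v ∈ U, FF K U e T ω v = 0 := by
      intro v _
      simp only [FF, hK, false_and, if_false]
    rw [Finset.sum_congr rfl h2, Finset.sum_const_zero]
    positivity

open Classical in
theorem good {V : Type} [DecidableEq V] {N R : ℕ} (k : ℕ) (K : Finset V → Prop) (γ : ℝ)
    (U : Finset V) (e : Fin R → V) (he : Function.Injective e) (ω : Fin N → V)
    (hωU : ∀ x, ω x ∈ U) (hinj : Function.Injective ω) (hne : ∀ x r, ω x ≠ e r)
    (hN : 2 * (k : ℝ) ≤ γ * N)
    (hall : ∀ T : Finset (Fin N ⊕ Fin R), T.card < k → ∑ x, FF K U e T ω (ω x) <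
      ((univ.filter (fun x : Fin N => Sum.inl x ∈ T)).card : ℝ) + (N : ℝ) * (1 / (k : ℝ) + γ) +
        γ * N / 2) :
    PD k (pl K ω e) (2 * γ) (lft N R) := by
  intro T hT hTk
  have hei := elim_inj hinj he hne
  have h1 := hall T hTk
  have hKT : K (T.image (Sum.elim ω e)) := hT.2
  have h2 : ((univ.filter (fun x : Fin N => Sum.inl x ∈ T)).card : ℝ) ≤ k := by
    have : (univ.filter (fun x : Fin N => Sum.inl x ∈ T)).card ≤ T.card := by
      apply Finset.card_le_card_of_injOn (fun x => Sum.inl x)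
      · intro x hx
        exact (mem_filter.mp hx).2
      · intro x _ y _ hxy
        exact Sum.inl_injective hxy
    exact_mod_cast this.trans hTk.le
  have h3 : ∑ x, FF K U e T ω (ω x) =
      ((univ.filter (fun x : Fin N => ¬ ω x ∈ ex K U (T.image (Sum.elim ω e)))).card : ℝ) := by
    rw [Finset.card_filter]
    push_cast
    apply Finset.sum_congr rfl
    intro x _
    simp only [FF, hKT, true_and, ce, mem_sdiff, hωU x]
  have h4 : (univ.filter (fun x : Fin N => ω x ∈ ex K U (T.image (Sum.elim ω e)))).card +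
      (univ.filter (fun x : Fin N => ¬ ω x ∈ ex K U (T.image (Sum.elim ω e)))).card = N := by
    rw [Finset.card_filter_add_card_filter_not, Finset.card_univ, Fintype.card_fin]
  have h5 : ((univ.filter (fun x : Fin N => ω x ∈ ex K U (T.image (Sum.elim ω e)))).card : ℝ) +
      ((univ.filter (fun x : Fin N => ¬ ω x ∈ ex K U (T.image (Sum.elim ω e)))).card : ℝ) =
      (N : ℝ) := by exact_mod_cast h4
  have h6 : (univ.filter (fun x : Fin N => ω x ∈ ex K U (T.image (Sum.elim ω e)))).card ≤
      (ex (pl K ω e) (lft N R) T).card := by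
    apply Finset.card_le_card_of_injOn (fun x => Sum.inl x)
    · intro x hx
      have hx' := (mem_filter.mp hx).2
      rw [ex, mem_filter] at hx'
      obtain ⟨-, g1, g2⟩ := hx'
      rw [mem_coe, ex, mem_filter]
      refine ⟨mem_image_of_mem _ (mem_univ _), ?_, ?_, ?_⟩
      · intro h
        exact g1 (mem_image.mpr ⟨Sum.inl x, h, rfl⟩)
      · exact hei.injOn
      · rw [Finset.image_insert]
        exact g2
    · intro x _ y _ hxy
      exact Sum.inl_injective hxy
  have h7 : ((univ.filter (fun x : Fin N => ω x ∈ ex K U (T.image (Sum.elim ω e)))).card : ℝ) ≤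
      ((ex (pl K ω e) (lft N R) T).card : ℝ) := by exact_mod_cast h6
  rw [lft_card]
  rw [h3] at h1
  nlinarith

end SMPL

open Classical in
/-- [SMP] a random sample is good -/
theorem smp (h : S_HOEF) : S_SMP := by
  intro k γ R hk hγ
  obtain ⟨N₁, hN₁⟩ := SMPL.ev k R (γ ^ 2 / 64) (by positivity)
  refine ⟨max (max N₁ ⌈2 * (k : ℝ) / γ⌉₊) 1, ?_⟩
  intro N hN
  have hNa : N₁ ≤ N := (le_max_left _ _).trans ((le_max_left _ _).trans hN)
  have hNb : ⌈2 * (k : ℝ) / γ⌉₊ ≤ N := (le_max_right _ _).trans ((le_max_left _ _).trans hN)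
  have hNc : 1 ≤ N := (le_max_right _ _).trans hN
  have hNpos : (0 : ℝ) < N := by exact_mod_cast hNc
  have hN2 : 2 * (k : ℝ) ≤ γ * N := by
    have : 2 * (k : ℝ) / γ ≤ N := (Nat.le_ceil _).trans (by exact_mod_cast hNb)
    rw [div_le_iff₀ hγ] at this
    linarith
  refine ⟨16 * (N * N + N * R) + 1, ?_⟩
  intro V _ _ K U hK hn hPD e he
  have hUne : U.Nonempty := by
    rw [← Finset.card_pos]; omega
  have hnpos : (0 : ℝ) < (U.card : ℝ) := by exact_mod_cast Finset.card_pos.mpr hUne
  set n : ℝ := (U.card : ℝ) with hndef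
  set Om := Fintype.piFinset (fun _ : Fin N => U) with hOm
  set B1 := (univ.filter (fun p : Fin N × Fin N => p.1 ≠ p.2)).biUnion
    (fun p => Om.filter (fun ω => ω p.1 = ω p.2)) with hB1
  set B2 := (univ : Finset (Fin N × Fin R)).biUnion
    (fun p => Om.filter (fun ω => ω p.1 = e p.2)) with hB2
  set B3 := (univ.filter (fun T : Finset (Fin N ⊕ Fin R) => T.card < k)).biUnion
    (fun T => Om.filter (fun ω => ((univ.filter (fun x : Fin N => Sum.inl x ∈ T)).card : ℝ) +
      (Fintype.card (Fin N) : ℝ) * (1 / (k : ℝ) + γ) + γ * N / 2 ≤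
        ∑ x, SMPL.FF K U e T ω (ω x))) with hB3
  have hsub : Om.filter (fun ω => ¬ (Function.Injective ω ∧
      (∀ x r, ω x ≠ e r) ∧ PD k (pl K ω e) (2 * γ) (lft N R))) ⊆ B1 ∪ (B2 ∪ B3) := by
    intro ω hω
    rw [mem_filter] at hω
    obtain ⟨hω1, hω2⟩ := hω
    by_contra hcon
    rw [mem_union, mem_union, not_or, not_or] at hcon
    obtain ⟨c1, c2, c3⟩ := hcon
    have hinj : Function.Injective ω := by
      intro x y hxy
      by_contra hne
      exact c1 (mem_biUnion.mpr ⟨(x, y), mem_filter.mpr ⟨mem_univ _, hne⟩,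
        mem_filter.mpr ⟨hω1, hxy⟩⟩)
    have hne : ∀ x r, ω x ≠ e r := by
      intro x r hxr
      exact c2 (mem_biUnion.mpr ⟨(x, r), mem_univ _, mem_filter.mpr ⟨hω1, hxr⟩⟩)
    apply hω2
    refine ⟨hinj, hne, SMPL.good k K γ U e he ω (Fintype.mem_piFinset.mp hω1) hinj hne hN2 ?_⟩
    intro T hT
    by_contra hlt
    rw [not_lt] at hlt
    apply c3
    refine mem_biUnion.mpr ⟨T, mem_filter.mpr ⟨mem_univ _, hT⟩, mem_filter.mpr ⟨hω1, ?_⟩⟩
    rw [Fintype.card_fin]
    exact hlt
  have hcard : ((Om.filter (fun ω => ¬ (Function.Injective ω ∧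
      (∀ x r, ω x ≠ e r) ∧ PD k (pl K ω e) (2 * γ) (lft N R)))).card : ℝ) ≤
      (B1.card : ℝ) + ((B2.card : ℝ) + (B3.card : ℝ)) := by
    have := (Finset.card_le_card hsub).trans ((Finset.card_union_le _ _).trans
      (Nat.add_le_add_left (Finset.card_union_le _ _) _))
    exact_mod_cast this
  have hb1 : (B1.card : ℝ) * n ≤ (N : ℝ) * N * n ^ N := by
    have h1 : (B1.card : ℝ) ≤ ∑ p ∈ univ.filter (fun p : Fin N × Fin N => p.1 ≠ p.2),
        ((Om.filter (fun ω => ω p.1 = ω p.2)).card : ℝ) := by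
      rw [hB1]; exact_mod_cast Finset.card_biUnion_le
    calc (B1.card : ℝ) * n ≤ (∑ p ∈ univ.filter (fun p : Fin N × Fin N => p.1 ≠ p.2),
        ((Om.filter (fun ω => ω p.1 = ω p.2)).card : ℝ)) * n :=
          mul_le_mul_of_nonneg_right h1 hnpos.le
      _ = ∑ p ∈ univ.filter (fun p : Fin N × Fin N => p.1 ≠ p.2),
        ((Om.filter (fun ω => ω p.1 = ω p.2)).card : ℝ) * n := Finset.sum_mul _ _ _
      _ ≤ ∑ p ∈ univ.filter (fun p : Fin N × Fin N => p.1 ≠ p.2), n ^ N := by
          apply Finset.sum_le_sum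
          intro p hp
          have := SMPL.coll U p.1 (fun ω => ω p.2) (fun ω ω' h => h p.2 ((mem_filter.mp hp).2).symm)
            (fun ω => ω p.1 = ω p.2) (fun ω h => h)
          rw [Fintype.card_fin] at this
          exact this
      _ = ((univ.filter (fun p : Fin N × Fin N => p.1 ≠ p.2)).card : ℝ) * n ^ N := by
          rw [Finset.sum_const, nsmul_eq_mul]
      _ ≤ (N : ℝ) * N * n ^ N := by
          apply mul_le_mul_of_nonneg_right _ (by positivity)
          have : (univ.filter (fun p : Fin N × Fin N => p.1 ≠ p.2)).card ≤ N * N := by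
            refine (Finset.card_filter_le _ _).trans ?_
            rw [Finset.card_univ, Fintype.card_prod, Fintype.card_fin]
          exact_mod_cast this
  have hb2 : (B2.card : ℝ) * n ≤ (N : ℝ) * R * n ^ N := by
    have h1 : (B2.card : ℝ) ≤ ∑ p : Fin N × Fin R,
        ((Om.filter (fun ω => ω p.1 = e p.2)).card : ℝ) := by
      rw [hB2]; exact_mod_cast Finset.card_biUnion_le
    calc (B2.card : ℝ) * n ≤ (∑ p : Fin N × Fin R,
        ((Om.filter (fun ω => ω p.1 = e p.2)).card : ℝ)) * n :=
          mul_le_mul_of_nonneg_right h1 hnpos.le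
      _ = ∑ p : Fin N × Fin R,
        ((Om.filter (fun ω => ω p.1 = e p.2)).card : ℝ) * n := Finset.sum_mul _ _ _
      _ ≤ ∑ p : Fin N × Fin R, n ^ N := by
          apply Finset.sum_le_sum
          intro p hp
          have := SMPL.coll U p.1 (fun _ => e p.2) (fun ω ω' h => rfl)
            (fun ω => ω p.1 = e p.2) (fun ω h => h)
          rw [Fintype.card_fin] at this
          exact this
      _ = (N : ℝ) * R * n ^ N := by
          rw [Finset.sum_const, nsmul_eq_mul, Finset.card_univ, Fintype.card_prod,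
            Fintype.card_fin, Fintype.card_fin]
          push_cast
          ring
  have hb3 : (B3.card : ℝ) ≤ 1 / 16 * n ^ N := by
    have h1 : (B3.card : ℝ) ≤ ∑ T ∈ univ.filter (fun T : Finset (Fin N ⊕ Fin R) => T.card < k),
        ((Om.filter (fun ω => ((univ.filter (fun x : Fin N => Sum.inl x ∈ T)).card : ℝ) +
      (Fintype.card (Fin N) : ℝ) * (1 / (k : ℝ) + γ) + γ * N / 2 ≤
        ∑ x, SMPL.FF K U e T ω (ω x))).card : ℝ) := by
      rw [hB3]; exact_mod_cast Finset.card_biUnion_le
    refine h1.trans ?_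
    have hexp : Real.exp (-((γ * N / 2) ^ 2) / (16 * (Fintype.card (Fin N) : ℝ))) =
        Real.exp (-(γ ^ 2 / 64 * N)) := by
      congr 1
      rw [Fintype.card_fin]
      field_simp
      ring
    calc ∑ T ∈ univ.filter (fun T : Finset (Fin N ⊕ Fin R) => T.card < k),
        ((Om.filter (fun ω => ((univ.filter (fun x : Fin N => Sum.inl x ∈ T)).card : ℝ) +
      (Fintype.card (Fin N) : ℝ) * (1 / (k : ℝ) + γ) + γ * N / 2 ≤
        ∑ x, SMPL.FF K U e T ω (ω x))).card : ℝ)
        ≤ ∑ T ∈ univ.filter (fun T : Finset (Fin N ⊕ Fin R) => T.card < k),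
          Real.exp (-(γ ^ 2 / 64 * N)) * n ^ N := by
          apply Finset.sum_le_sum
          intro T hT
          have h2 := SMPL.bad_set h U (univ.filter (fun x : Fin N => Sum.inl x ∈ T))
            (SMPL.FF K U e T) (1 / (k : ℝ) + γ) (γ * N / 2) hUne (by positivity)
            (fun ω ω' hω => by
              funext v
              simp only [SMPL.FF, SMPL.image_loc e T ω ω' hω])
            (fun _ _ => SMPL.FF_nonneg _ _ _ _ _ _) (fun _ _ => SMPL.FF_le _ _ _ _ _ _)
            (fun ω _ => SMPL.mean_le k K γ hγ U hUne hPD e T (mem_filter.mp hT).2 ω)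
          rw [hexp] at h2
          have h3 : (U.card : ℝ) ^ Fintype.card (Fin N) = n ^ N := by rw [Fintype.card_fin]
          rw [h3] at h2
          exact h2
      _ = ((univ.filter (fun T : Finset (Fin N ⊕ Fin R) => T.card < k)).card : ℝ) *
          (Real.exp (-(γ ^ 2 / 64 * N)) * n ^ N) := by
          rw [Finset.sum_const, nsmul_eq_mul]
      _ ≤ ((k : ℝ) * ((N : ℝ) + R + 1) ^ k) * (Real.exp (-(γ ^ 2 / 64 * N)) * n ^ N) := by
          apply mul_le_mul_of_nonneg_right _ (by positivity)
          have h4 := SMPL.small_card (Fin N ⊕ Fin R) k (N + R + 1) (by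
            rw [Fintype.card_sum, Fintype.card_fin, Fintype.card_fin])
          have h5 : ((univ.filter (fun T : Finset (Fin N ⊕ Fin R) => T.card < k)).card : ℝ) ≤
              ((k * (N + R + 1) ^ k : ℕ) : ℝ) := by exact_mod_cast h4
          refine h5.trans (le_of_eq ?_)
          push_cast
          ring
      _ = ((k : ℝ) * ((N : ℝ) + R + 1) ^ k * Real.exp (-(γ ^ 2 / 64 * N))) * n ^ N := by ring
      _ ≤ 1 / 16 * n ^ N := mul_le_mul_of_nonneg_right (hN₁ N hNa) (by positivity)
  have hn16 : 16 * ((N : ℝ) * N + N * R) ≤ n := by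
    have : 16 * (N * N + N * R) + 1 ≤ U.card := hn
    have h2 : ((16 * (N * N + N * R) + 1 : ℕ) : ℝ) ≤ n := by
      rw [hndef]; exact_mod_cast this
    push_cast at h2
    linarith
  have hb12 : ((B1.card : ℝ) + (B2.card : ℝ)) ≤ 1 / 16 * n ^ N := by
    have h1 : ((B1.card : ℝ) + (B2.card : ℝ)) * n ≤ (1 / 16 * n ^ N) * n := by
      have h2 : ((N : ℝ) * N + N * R) * n ^ N ≤ (n / 16) * n ^ N :=
        mul_le_mul_of_nonneg_right (by linarith) (by positivity)
      nlinarith
    exact le_of_mul_le_mul_right h1 hnpos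
  linarith

end Pool.Agent.H48.TC
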