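import Pool.Agent.H48.TC.Stm

/-!
# TC-S: completion of the regular units to a system of units (`S_SWP`)
-/

set_option autoImplicit false
set_option linter.unusedSectionVars false
set_option linter.unusedVariables false

namespace Pool.Agent.H48.TC

open Finset Pool.Agent.H48.PW Pool.Agent.Helper83K9.CF

namespace SWPL

section Basic

variable {V : Type} [Fintype V] [DecidableEq V] {k : ℕ} {K : Finset V → Prop}

theorem mem_ex {U T : Finset V} {v : V} : v ∈ ex K U T ↔ v ∈ U ∧ v ∉ T ∧ K (insert v T) := by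
  classical
  unfold ex
  rw [Finset.mem_filter]

theorem mem_exu {T : Finset V} {v : V} : v ∈ ex K univ T ↔ v ∉ T ∧ K (insert v T) := by
  rw [mem_ex]
  exact ⟨fun h => h.2, fun h => ⟨Finset.mem_univ _, h⟩⟩

theorem tp_of_mem (hK : Cx k K) {l : List V} (h : K l.toFinset) : TP K k l := by
  intro i
  refine hK.sub _ _ h ?_
  intro v hv
  rw [List.mem_toFinset] at hv ⊢
  exact List.mem_of_mem_drop (List.mem_of_mem_take hv)

theorem ofFn_toFinset {m : ℕ} (f : Fin m → V) : (List.ofFn f).toFinset = univ.image f := by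
  ext v
  rw [List.mem_toFinset, List.mem_ofFn, Finset.mem_image]
  constructor
  · rintro ⟨i, rfl⟩
    exact ⟨i, Finset.mem_univ _, rfl⟩
  · rintro ⟨i, -, rfl⟩
    exact ⟨i, rfl⟩

theorem coe_flatten (l : List (List V)) :
    Multiset.ofList l.flatten = (l.map (fun s : List V => Multiset.ofList s)).sum := by
  induction l with
  | nil => rfl
  | cons a l ih =>
    rw [List.flatten_cons, List.map_cons, List.sum_cons, ← ih]
    exact (Multiset.coe_add _ _).symm

theorem coe_ofFn {m : ℕ} (f : Fin m → V) :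
    Multiset.ofList (List.ofFn f) = ∑ a, ({f a} : Multiset V) := by
  have h1 : (∑ a, ({f a} : Multiset V)) = ((univ : Finset (Fin m)).val.map (fun a => ({f a} : Multiset V))).sum := rfl
  have h2 : ((univ : Finset (Fin m)).val.map (fun a => ({f a} : Multiset V))) =
      (((univ : Finset (Fin m)).val.map f).map (fun b => ({b} : Multiset V))) := by
    rw [Multiset.map_map]
    rfl
  rw [h1, h2, Multiset.sum_map_singleton, Fin.univ_val_map]

/-- Key count. -/
theorem star (hk : 3 ≤ k) (hK : Cx k K) {c p g : ℝ} {X' Y' : Finset V} (hBS : BS k K c X' Y')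
    (hn0 : 0 < (Fintype.card V : ℝ))
    (hg : 0 < g) (hg4 : g ≤ 1 / (4 * (k : ℝ))) (hc : 0 < c) (hcp : k * c / g ≤ p / 2)
    (hn : 2 * (k : ℝ) ≤ p * (Fintype.card V : ℝ))
    {T : Finset V} (hT : K T) (hTc : T.card < k - 1) {g' : ℝ} (hg' : g' ≤ g)
    (hTY : ((Y' \ ex K univ T).card : ℝ) ≤ g' * (Fintype.card V : ℝ))
    (Bad : Finset V) (hBad : Bad ⊆ X') (hB : ∀ b ∈ Bad, ¬ (b ∉ T ∧ K (insert b T) ∧
      ((Y' \ ex K univ (insert b T)).card : ℝ) ≤ (g' + g / k) * (Fintype.card V : ℝ))) :
    (Bad.card : ℝ) ≤ p * (Fintype.card V : ℝ) := by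
  classical
  set n : ℝ := (Fintype.card V : ℝ) with hnd
  have hk0 : (0 : ℝ) < k := by
    have : 0 < k := by omega
    exact_mod_cast this
  set A : Finset V := Y'.filter (fun v => v ∈ ex K univ T) with hA
  let r : V → V → Prop := fun b v => b ∉ ex K univ (insert v T)
  have hAc : (Y'.card : ℝ) - g' * n ≤ (A.card : ℝ) := by
    have h1 : Y' ⊆ A ∪ (Y' \ ex K univ T) := by
      intro v hv
      rw [Finset.mem_union, Finset.mem_sdiff, hA, Finset.mem_filter]
      by_cases h : v ∈ ex K univ T
      · exact Or.inl ⟨hv, h⟩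
      · exact Or.inr ⟨hv, h⟩
    have h2 : (Y'.card : ℝ) ≤ (A.card : ℝ) + ((Y' \ ex K univ T).card : ℝ) := by
      have := (Finset.card_le_card h1).trans (Finset.card_union_le _ _)
      exact_mod_cast this
    linarith
  have hkg : g / k ≤ g := by
    rw [div_le_iff₀ hk0]
    have : (1 : ℝ) ≤ k := by
      have : 1 ≤ k := by omega
      exact_mod_cast this
    nlinarith
  have hAbig : (g / k) * n ≤ (A.card : ℝ) := by
    have h1 := hBS.cY
    rw [← hnd] at h1
    have h2 : (1 / (4 * (k : ℝ))) * n = n / (4 * k) := by ring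
    have h3 : g * n ≤ n / (4 * k) := by
      rw [← h2]
      exact mul_le_mul_of_nonneg_right hg4 hn0.le
    have h4 : g' * n ≤ g * n := mul_le_mul_of_nonneg_right hg' hn0.le
    have h5 : (g / k) * n ≤ g * n := mul_le_mul_of_nonneg_right hkg hn0.le
    have h6 : n / (2 * (k : ℝ)) = n / (4 * k) + n / (4 * k) := by
      field_simp
      norm_num
    linarith
  have hcount : ∀ b ∈ Bad \ T, (g / k) * n ≤ ((A.filter (fun v => r b v)).card : ℝ) := by
    intro b hb
    rw [Finset.mem_sdiff] at hb
    obtain ⟨hb, hbT⟩ := hb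
    have hbX := hBad hb
    by_cases hKb : K (insert b T)
    · have h1 : ¬ (((Y' \ ex K univ (insert b T)).card : ℝ) ≤ (g' + g / k) * n) := by
        intro h
        exact hB b hb ⟨hbT, hKb, h⟩
      push Not at h1
      have h2 : Y' \ ex K univ (insert b T) ⊆ (Y' \ ex K univ T) ∪ A.filter (fun v => r b v) := by
        intro v hv
        rw [Finset.mem_sdiff] at hv
        obtain ⟨hvY, hv⟩ := hv
        rw [Finset.mem_union, Finset.mem_sdiff, Finset.mem_filter, hA, Finset.mem_filter]
        by_cases h3 : v ∈ ex K univ T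
        · refine Or.inr ⟨⟨hvY, h3⟩, ?_⟩
          intro h4
          apply hv
          rw [mem_exu] at h3 h4 ⊢
          obtain ⟨h5, h6⟩ := h4
          refine ⟨?_, ?_⟩
          · intro h7
            rw [Finset.mem_insert] at h7
            rcases h7 with rfl | h7
            · exact (Finset.disjoint_left.1 hBS.dis) hbX hvY
            · exact h3.1 h7
          · rw [Finset.insert_comm]
            exact h6
        · exact Or.inl ⟨hvY, h3⟩
      have h3 : ((Y' \ ex K univ (insert b T)).card : ℝ) ≤
          ((Y' \ ex K univ T).card : ℝ) + ((A.filter (fun v => r b v)).card : ℝ) := by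
        have := (Finset.card_le_card h2).trans (Finset.card_union_le _ _)
        exact_mod_cast this
      have h4 : (g' + g / k) * n = g' * n + (g / k) * n := by ring
      linarith
    · have h1 : A.filter (fun v => r b v) = A := by
        apply Finset.filter_true_of_mem
        intro v _ h2
        rw [mem_exu] at h2
        apply hKb
        exact hK.sub _ _ h2.2 (Finset.insert_subset_insert _ (Finset.subset_insert _ _))
      rw [h1]
      exact hAbig
  have hdc : ∑ b ∈ Bad \ T, (A.filter (fun v => r b v)).card =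
      ∑ v ∈ A, ((Bad \ T).filter (fun b => r b v)).card :=
    Finset.sum_card_bipartiteAbove_eq_sum_card_bipartiteBelow r
  have h1 : ∀ v ∈ A, (((Bad \ T).filter (fun b => r b v)).card : ℝ) ≤ c * n := by
    intro v hv
    rw [hA, Finset.mem_filter, mem_exu] at hv
    obtain ⟨hvY, hvT, hvK⟩ := hv
    have h2 := hBS.exts v hvY (insert v T) hvK (Finset.mem_insert_self _ _) (by
      rw [Finset.card_insert_of_notMem hvT]
      omega)
    refine le_trans ?_ h2
    have h3 : (Bad \ T).filter (fun b => r b v) ⊆ X' \ ex K univ (insert v T) := by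
      intro b hb
      rw [Finset.mem_filter, Finset.mem_sdiff] at hb
      rw [Finset.mem_sdiff]
      exact ⟨hBad hb.1.1, hb.2⟩
    exact_mod_cast Finset.card_le_card h3
  have h2 : (((Bad \ T).card : ℝ)) * ((g / k) * n) ≤ (A.card : ℝ) * (c * n) := by
    calc (((Bad \ T).card : ℝ)) * ((g / k) * n) = ∑ b ∈ Bad \ T, (g / k) * n := by
          rw [Finset.sum_const, nsmul_eq_mul]
      _ ≤ ∑ b ∈ Bad \ T, ((A.filter (fun v => r b v)).card : ℝ) := Finset.sum_le_sum hcount
      _ = ∑ v ∈ A, (((Bad \ T).filter (fun b => r b v)).card : ℝ) := by exact_mod_cast hdc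
      _ ≤ ∑ v ∈ A, c * n := Finset.sum_le_sum h1
      _ = (A.card : ℝ) * (c * n) := by rw [Finset.sum_const, nsmul_eq_mul]
  have hAn : (A.card : ℝ) ≤ n := by
    rw [hnd]
    exact_mod_cast Finset.card_le_univ A
  have h3 : ((Bad \ T).card : ℝ) ≤ (p / 2) * n := by
    have h4 : (((Bad \ T).card : ℝ)) * ((g / k) * n) ≤ n * (c * n) :=
      h2.trans (mul_le_mul_of_nonneg_right hAn (by positivity))
    have h5 : ((Bad \ T).card : ℝ) ≤ (k * c / g) * n := by
      have h6 : 0 < (g / k) * n := by positivity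
      have h7 : (k * c / g) * n * ((g / k) * n) = n * (c * n) := by
        field_simp
      rw [← h7] at h4
      exact le_of_mul_le_mul_right h4 h6
    exact h5.trans (mul_le_mul_of_nonneg_right hcp hn0.le)
  have h4 : (Bad.card : ℝ) ≤ ((Bad \ T).card : ℝ) + (T.card : ℝ) := by
    have h5 : Bad ⊆ (Bad \ T) ∪ T := by
      intro b hb
      rw [Finset.mem_union, Finset.mem_sdiff]
      by_cases h : b ∈ T
      · exact Or.inr h
      · exact Or.inl ⟨hb, h⟩
    have := (Finset.card_le_card h5).trans (Finset.card_union_le _ _)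
    exact_mod_cast this
  have h5 : (T.card : ℝ) ≤ k := by
    have : T.card ≤ k := by omega
    exact_mod_cast this
  linarith

end Basic

section Units

variable {V : Type} [Fintype V] [DecidableEq V]

/-- the hypotheses -/
structure Hyp (k : ℕ) (K : Finset V → Prop) (p g c : ℝ) (X' Y' : Finset V) (R : ℕ)
    (B : Fin R → Fin (k - 1) → V) (y : Fin R → V) : Prop where
  hk : 3 ≤ k
  hK : Cx k K
  bs : BS k K c X' Y'
  ru : RU k K p g X' Y' R B y
  n0 : 0 < (Fintype.card V : ℝ)
  g0 : 0 < g
  g4 : g ≤ 1 / (4 * (k : ℝ))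
  gp : g ≤ p
  c0 : 0 < c
  cp : k * c / g ≤ p / 2
  hn : 2 * (k : ℝ) ≤ p * (Fintype.card V : ℝ)

variable {k : ℕ} {K : Finset V → Prop} {p g c : ℝ} {X' Y' : Finset V} {R : ℕ}
  {B : Fin R → Fin (k - 1) → V} {y : Fin R → V}

theorem card_filter_image {m : ℕ} (f : Fin R → V) (hf : Function.Injective f) (Bad : Finset V) :
    (univ.filter (fun i => f i ∈ Bad)).card ≤ Bad.card :=
  Finset.card_le_card_of_injOn f (fun i hi => (Finset.mem_filter.1 hi).2) (hf.injOn)

/-- the new block -/
theorem block (H : Hyp k K p g c X' Y' R B y) (S : Finset (Fin R))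
    (hS : 2 * p * (Fintype.card V : ℝ) + k < (S.card : ℝ)) (x : Fin (k - 1) → V)
    (hx : ∀ a, x a ∈ X') (hxB : ∀ a i, x a ∉ List.ofFn (B i)) :
    ∃ φ : Fin (k - 1) → Fin R, Function.Injective φ ∧ (∀ a, φ a ∈ S) ∧
      (∀ a, GU k K g Y' (List.ofFn (Function.update (B (φ a)) a (x a))) (y (φ a))) ∧
      GB k K g Y' (List.ofFn (fun a => B (φ a) a)) := by
  classical
  set n : ℝ := (Fintype.card V : ℝ) with hnd
  have hn0 := H.n0
  rw [← hnd] at hn0
  have hk := H.hk
  have hk0 : (0 : ℝ) < k := by
    have : 0 < k := by omega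
    exact_mod_cast this
  have hp0 : 0 < p := lt_of_lt_of_le H.g0 H.gp
  have hSne : S.Nonempty := by
    rw [← Finset.card_pos]
    have : (0 : ℝ) < (S.card : ℝ) := lt_trans (by positivity) hS
    exact_mod_cast this
  obtain ⟨i₀, hi₀⟩ := hSne
  have key : ∀ m : ℕ, m ≤ k - 1 → ∃ φ : Fin (k - 1) → Fin R,
      (∀ a b : Fin (k - 1), a.val < m → b.val < m → φ a = φ b → a = b) ∧
      (∀ a : Fin (k - 1), a.val < m → φ a ∈ S ∧
        GU k K g Y' (List.ofFn (Function.update (B (φ a)) a (x a))) (y (φ a))) ∧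
      K ((univ.filter (fun a : Fin (k - 1) => a.val < m)).image (fun a => B (φ a) a)) ∧
      ((Y' \ ex K univ ((univ.filter (fun a : Fin (k - 1) => a.val < m)).image
        (fun a => B (φ a) a))).card : ℝ) ≤ (m * (g / k)) * n := by
    intro m
    induction m with
    | zero =>
      intro _
      refine ⟨fun _ => i₀, ?_, ?_, ?_, ?_⟩
      · intro a b ha
        exact absurd ha (Nat.not_lt_zero _)
      · intro a ha
        exact absurd ha (Nat.not_lt_zero _)
      · simp only [Nat.not_lt_zero, Finset.filter_false, Finset.image_empty]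
        exact H.hK.emp
      · simp only [Nat.not_lt_zero, Finset.filter_false, Finset.image_empty]
        have h1 : Y' \ ex K univ ∅ = ∅ := by
          rw [Finset.sdiff_eq_empty_iff_subset]
          intro v _
          rw [mem_exu]
          refine ⟨Finset.notMem_empty _, ?_⟩
          exact H.hK.vert v
        rw [h1]
        simp
    | succ m ih =>
      intro hm
      obtain ⟨φ, h1, h2, h3, h4⟩ := ih (by omega)
      set T := (univ.filter (fun a : Fin (k - 1) => a.val < m)).image (fun a => B (φ a) a) with hT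
      have hTc : T.card ≤ m := by
        refine Finset.card_image_le.trans ?_
        have h5 : (univ.filter (fun a : Fin (k - 1) => a.val < m)).card ≤ (Finset.range m).card :=
          Finset.card_le_card_of_injOn (fun a => a.val)
            (fun a ha => Finset.mem_range.2 (Finset.mem_filter.1 ha).2)
            (Fin.val_injective.injOn)
        rwa [Finset.card_range] at h5
      let q : Fin (k - 1) := ⟨m, by omega⟩
      set Bad := X'.filter (fun b => ¬ (b ∉ T ∧ K (insert b T) ∧
        ((Y' \ ex K univ (insert b T)).card : ℝ) ≤ (m * (g / k) + g / k) * n)) with hBad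
      have hmg : m * (g / k) ≤ g := by
        have h5 : (m : ℝ) ≤ k := by
          have : m ≤ k := by omega
          exact_mod_cast this
        rw [mul_div_assoc', div_le_iff₀ hk0]
        have := H.g0
        nlinarith
      have hbc : (Bad.card : ℝ) ≤ p * n :=
        star H.hk H.hK H.bs H.n0 H.g0 H.g4 H.c0 H.cp H.hn h3 (by omega) hmg h4 Bad
          (Finset.filter_subset _ _) (fun b hb => (Finset.mem_filter.1 hb).2)
      set F1 := (univ.filter (fun a : Fin (k - 1) => a.val < m)).image φ with hF1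
      set F2 := univ.filter (fun i : Fin R => B i q ∈ Bad) with hF2
      set F3 := univ.filter (fun i : Fin R => x q ∉ List.ofFn (B i) ∧
        ¬ GU k K g Y' (List.ofFn (Function.update (B i) q (x q))) (y i)) with hF3
      have hF1c : F1.card ≤ k := by
        refine Finset.card_image_le.trans ?_
        have h5 : (univ.filter (fun a : Fin (k - 1) => a.val < m)).card ≤ (Finset.range m).card :=
          Finset.card_le_card_of_injOn (fun a => a.val)
            (fun a ha => Finset.mem_range.2 (Finset.mem_filter.1 ha).2)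
            (Fin.val_injective.injOn)
        rw [Finset.card_range] at h5
        omega
      have hF2c : (F2.card : ℝ) ≤ p * n := by
        refine le_trans ?_ hbc
        have h5 : F2.card ≤ Bad.card := by
          refine Finset.card_le_card_of_injOn (fun i => B i q) (fun i hi => ?_) ?_
          · exact (Finset.mem_filter.1 hi).2
          · intro i _ j _ hij
            have h6 : (i, q) = (j, q) := H.ru.injB hij
            exact (Prod.ext_iff.1 h6).1
        exact_mod_cast h5
      have hF3c : (F3.card : ℝ) ≤ p * n := H.ru.t3 (x q) (hx q) q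
      have hlt : (F1 ∪ F2 ∪ F3).card < S.card := by
        have h5 : ((F1 ∪ F2 ∪ F3).card : ℝ) ≤ F1.card + F2.card + F3.card := by
          have h6 := Finset.card_union_le (F1 ∪ F2) F3
          have h7 := Finset.card_union_le F1 F2
          have : (F1 ∪ F2 ∪ F3).card ≤ F1.card + F2.card + F3.card := by omega
          exact_mod_cast this
        have h6 : (F1.card : ℝ) ≤ k := by exact_mod_cast hF1c
        have h7 : ((F1 ∪ F2 ∪ F3).card : ℝ) < (S.card : ℝ) := by linarith
        exact_mod_cast h7
      obtain ⟨i, hiS, hiF⟩ := Finset.exists_mem_notMem_of_card_lt_card hlt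
      rw [Finset.mem_union, Finset.mem_union, not_or, not_or] at hiF
      obtain ⟨⟨hi1, hi2⟩, hi3⟩ := hiF
      have hi2' : B i q ∉ T ∧ K (insert (B i q) T) ∧
          ((Y' \ ex K univ (insert (B i q) T)).card : ℝ) ≤ (m * (g / k) + g / k) * n := by
        by_contra hcon
        exact hi2 (Finset.mem_filter.2 ⟨Finset.mem_univ _,
          Finset.mem_filter.2 ⟨H.ru.memB i q, hcon⟩⟩)
      have hi3' : GU k K g Y' (List.ofFn (Function.update (B i) q (x q))) (y i) := by
        by_contra hcon
        exact hi3 (Finset.mem_filter.2 ⟨Finset.mem_univ _, hxB q i, hcon⟩)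
      have hne : ∀ a : Fin (k - 1), a.val < m → a ≠ q := by
        rintro a ha rfl
        exact absurd ha (lt_irrefl _)
      have hq : ∀ a : Fin (k - 1), a.val < m + 1 → ¬ a.val < m → a = q := by
        intro a h5 h6
        apply Fin.ext
        show a.val = m
        omega
      have hTim : (univ.filter (fun a : Fin (k - 1) => a.val < m + 1)).image
          (fun a => B (Function.update φ q i a) a) = insert (B i q) T := by
        ext v
        rw [Finset.mem_image, Finset.mem_insert, hT, Finset.mem_image]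
        constructor
        · rintro ⟨a, ha, rfl⟩
          rw [Finset.mem_filter] at ha
          by_cases h5 : a.val < m
          · right
            refine ⟨a, Finset.mem_filter.2 ⟨Finset.mem_univ _, h5⟩, ?_⟩
            rw [Function.update_of_ne (hne a h5)]
          · left
            have h6 := hq a ha.2 h5
            rw [h6, Function.update_self]
        · rintro (rfl | ⟨a, ha, rfl⟩)
          · refine ⟨q, Finset.mem_filter.2 ⟨Finset.mem_univ _, Nat.lt_succ_self m⟩, ?_⟩
            rw [Function.update_self]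
          · rw [Finset.mem_filter] at ha
            refine ⟨a, Finset.mem_filter.2 ⟨Finset.mem_univ _, by omega⟩, ?_⟩
            rw [Function.update_of_ne (hne a ha.2)]
      refine ⟨Function.update φ q i, ?_, ?_, ?_, ?_⟩
      · intro a b ha hb hab
        by_cases h5 : a.val < m
        · by_cases h6 : b.val < m
          · rw [Function.update_of_ne (hne a h5), Function.update_of_ne (hne b h6)] at hab
            exact h1 a b h5 h6 hab
          · have h7 := hq b hb h6
            rw [h7, Function.update_self, Function.update_of_ne (hne a h5)] at hab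
            exact absurd (Finset.mem_image.2 ⟨a, Finset.mem_filter.2 ⟨Finset.mem_univ _, h5⟩, hab⟩)
              hi1
        · have h7 := hq a ha h5
          by_cases h6 : b.val < m
          · rw [h7, Function.update_self, Function.update_of_ne (hne b h6)] at hab
            exact absurd (Finset.mem_image.2 ⟨b, Finset.mem_filter.2 ⟨Finset.mem_univ _, h6⟩,
              hab.symm⟩) hi1
          · rw [h7, hq b hb h6]
      · intro a ha
        by_cases h5 : a.val < m
        · rw [Function.update_of_ne (hne a h5)]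
          exact h2 a h5
        · rw [hq a ha h5, Function.update_self]
          exact ⟨hiS, hi3'⟩
      · rw [hTim]
        exact hi2'.2.1
      · rw [hTim]
        refine hi2'.2.2.trans (le_of_eq ?_)
        push_cast
        ring
  obtain ⟨φ, h1, h2, h3, h4⟩ := key (k - 1) le_rfl
  have hφ : Function.Injective φ := fun a b hab => h1 a b a.2 b.2 hab
  have hun : univ.filter (fun a : Fin (k - 1) => a.val < k - 1) = univ :=
    Finset.filter_true_of_mem fun a _ => a.2
  rw [hun] at h3 h4
  refine ⟨φ, hφ, fun a => (h2 a a.2).1, fun a => (h2 a a.2).2, ?_⟩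
  refine ⟨List.length_ofFn, ?_, ?_, ?_⟩
  · rw [List.nodup_ofFn]
    intro a b hab
    have h6 : (φ a, a) = (φ b, b) := H.ru.injB hab
    exact (Prod.ext_iff.1 h6).2
  · rw [ofFn_toFinset]
    exact h3
  · rw [ofFn_toFinset]
    refine h4.trans (mul_le_mul_of_nonneg_right ?_ hn0.le)
    have h5 : ((k - 1 : ℕ) : ℝ) ≤ k := by
      have : k - 1 ≤ k := by omega
      exact_mod_cast this
    rw [mul_div_assoc', div_le_iff₀ hk0]
    have := H.g0
    nlinarith

/-- units which can be used -/
def Fine (k : ℕ) (K : Finset V → Prop) (g : ℝ) (Y' : Finset V) (u : List V × V) : Prop :=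
  TP K k u.1 ∧ k - 1 ≤ u.1.length ∧ GB k K g Y' (u.1.take (k - 1)) ∧
    GU k K g Y' (lastn (k - 1) u.1) u.2

theorem lastn_self {l : List V} {m : ℕ} (h : l.length = m) : lastn m l = l := by
  unfold lastn
  rw [h, Nat.sub_self, List.drop_zero]

theorem fine_of_gu (hK : Cx k K) {l : List V} {z : V} (h : GU k K g Y' l z) :
    Fine k K g Y' (l, z) := by
  have h1 := h.1.len
  refine ⟨tp_of_mem hK h.1.mem, h1.ge, ?_, ?_⟩
  · show GB k K g Y' (l.take (k - 1))
    rw [List.take_of_length_le h1.le]
    exact h.1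
  · show GU k K g Y' (lastn (k - 1) l) z
    rw [lastn_self h1]
    exact h

/-- the vertices of a list of units -/
def vm (L : List (List V × V)) : Multiset V :=
  (L.map (fun u : List V × V => Multiset.ofList (u.1 ++ [u.2]))).sum

/-- the vertices of the regular units -/
def vsm (B : Fin R → Fin (k - 1) → V) (y : Fin R → V) (S : Finset (Fin R)) : Multiset V :=
  ∑ i ∈ S, Multiset.ofList (List.ofFn (B i) ++ [y i])

theorem vm_append (L L' : List (List V × V)) : vm (L ++ L') = vm L + vm L' := by
  unfold vm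
  rw [List.map_append, List.sum_append]

theorem coe_append (l l' : List V) :
    Multiset.ofList (l ++ l') = Multiset.ofList l + Multiset.ofList l' :=
  (Multiset.coe_add _ _).symm

theorem coe_single (v : V) : Multiset.ofList [v] = ({v} : Multiset V) := rfl

theorem vm_ofFn {m : ℕ} (f : Fin m → List V × V) :
    vm (List.ofFn f) = ∑ a, Multiset.ofList ((f a).1 ++ [(f a).2]) := by
  unfold vm
  rw [List.map_ofFn, List.sum_ofFn]
  rfl

theorem upd_sum {m : ℕ} (f : Fin m → V) (a : Fin m) (v : V) :
    Multiset.ofList (List.ofFn (Function.update f a v)) + {f a} =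
      Multiset.ofList (List.ofFn f) + {v} := by
  classical
  rw [coe_ofFn, coe_ofFn]
  have h1 : ∑ b, ({Function.update f a v b} : Multiset V) =
      {v} + ∑ b ∈ univ.erase a, ({f b} : Multiset V) := by
    rw [← Finset.add_sum_erase univ _ (Finset.mem_univ a), Function.update_self]
    congr 1
    refine Finset.sum_congr rfl fun b hb => ?_
    rw [Function.update_of_ne (Finset.ne_of_mem_erase hb)]
  have h2 : ∑ b, ({f b} : Multiset V) = {f a} + ∑ b ∈ univ.erase a, ({f b} : Multiset V) :=
    (Finset.add_sum_erase univ _ (Finset.mem_univ a)).symm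
  rw [h1, h2]
  abel

/-- choice of a regular unit for a block and a vertex -/
theorem pick (H : Hyp k K p g c X' Y' R B y) (S : Finset (Fin R))
    (hS : 2 * p * (Fintype.card V : ℝ) < (S.card : ℝ)) {W : List V} (hW : GB k K g Y' W)
    {z : V} (hz : z ∈ Y') :
    ∃ i ∈ S, GU k K g Y' W (y i) ∧ GU k K g Y' (List.ofFn (B i)) z := by
  classical
  set n : ℝ := (Fintype.card V : ℝ) with hnd
  set F1 := univ.filter (fun i : Fin R => y i ∈ Y' \ ex K univ W.toFinset) with hF1
  set F2 := univ.filter (fun i : Fin R => ¬ K (insert z (univ.image (B i)))) with hF2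
  have h1 : (F1.card : ℝ) ≤ g * n := by
    refine le_trans ?_ hW.ext
    have h5 : F1.card ≤ (Y' \ ex K univ W.toFinset).card :=
      Finset.card_le_card_of_injOn y (fun i hi => (Finset.mem_filter.1 hi).2) H.ru.injy.injOn
    exact_mod_cast h5
  have h2 : (F2.card : ℝ) ≤ p * n := H.ru.t4 z hz
  have hlt : (F1 ∪ F2).card < S.card := by
    have h3 : ((F1 ∪ F2).card : ℝ) ≤ F1.card + F2.card := by
      exact_mod_cast Finset.card_union_le F1 F2
    have h4 : g * n ≤ p * n := mul_le_mul_of_nonneg_right H.gp H.n0.le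
    have h5 : ((F1 ∪ F2).card : ℝ) < (S.card : ℝ) := by linarith
    exact_mod_cast h5
  obtain ⟨i, hiS, hiF⟩ := Finset.exists_mem_notMem_of_card_lt_card hlt
  rw [Finset.mem_union, not_or] at hiF
  obtain ⟨hi1, hi2⟩ := hiF
  have hi1' : y i ∈ ex K univ W.toFinset := by
    by_contra hcon
    exact hi1 (Finset.mem_filter.2 ⟨Finset.mem_univ _, Finset.mem_sdiff.2 ⟨H.ru.memy i, hcon⟩⟩)
  have hi2' : K (insert z (univ.image (B i))) := by
    by_contra hcon
    exact hi2 (Finset.mem_filter.2 ⟨Finset.mem_univ _, hcon⟩)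
  rw [mem_exu] at hi1'
  refine ⟨i, hiS, ⟨hW, H.ru.memy i, ?_, hi1'.2⟩, (H.ru.good i).1, hz, ?_, ?_⟩
  · intro h
    exact hi1'.1 (List.mem_toFinset.2 h)
  · intro h
    rw [List.mem_ofFn] at h
    obtain ⟨a, ha⟩ := h
    exact (Finset.disjoint_left.1 H.bs.dis) (H.ru.memB i a) (ha ▸ hz)
  · rw [ofFn_toFinset]
    exact hi2'

/-- absorption of a segment and a vertex -/
theorem moveB (H : Hyp k K p g c X' Y' R B y) (S : Finset (Fin R))
    (hS : 2 * p * (Fintype.card V : ℝ) < (S.card : ℝ)) (L : List (List V × V))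
    (hL : ∀ u ∈ L, Fine k K g Y' u) {s : List V} (hs1 : TP K k s) (hs2 : k ≤ s.length)
    (hs3 : GB k K g Y' (s.take (k - 1))) (hs4 : GB k K g Y' (lastn (k - 1) s)) {z : V}
    (hz : z ∈ Y') :
    ∃ (S' : Finset (Fin R)) (L' : List (List V × V)), (∀ u ∈ L', Fine k K g Y' u) ∧
      vm L' + vsm B y S' = vm L + vsm B y S + Multiset.ofList s + {z} ∧ S'.card + 1 = S.card ∧
      L'.length = L.length + 2 := by
  classical
  obtain ⟨i, hiS, h1, h2⟩ := pick H S hS hs4 hz
  refine ⟨S.erase i, L ++ [(s, y i), (List.ofFn (B i), z)], ?_, ?_, ?_, ?_⟩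
  · intro u hu
    rw [List.mem_append] at hu
    rcases hu with hu | hu
    · exact hL u hu
    · rw [List.mem_cons, List.mem_singleton] at hu
      rcases hu with rfl | rfl
      · exact ⟨hs1, by show k - 1 ≤ s.length; omega, hs3, h1⟩
      · exact fine_of_gu H.hK h2
  · have h3 : vsm B y S = Multiset.ofList (List.ofFn (B i) ++ [y i]) + vsm B y (S.erase i) :=
      (Finset.add_sum_erase S _ hiS).symm
    have h4 : vm [(s, y i), (List.ofFn (B i), z)] =
        Multiset.ofList (s ++ [y i]) + Multiset.ofList (List.ofFn (B i) ++ [z]) := by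
      unfold vm
      simp
    rw [vm_append, h3, h4, coe_append, coe_append, coe_append, coe_single, coe_single]
    abel
  · rw [Finset.card_erase_of_mem hiS]
    have : 0 < S.card := Finset.card_pos.2 ⟨i, hiS⟩
    omega
  · rw [List.length_append]
    rfl

/-- absorption of a block of `X'`-vertices and a `Y'`-vertex -/
theorem moveA (H : Hyp k K p g c X' Y' R B y) (S : Finset (Fin R))
    (hS : 2 * p * (Fintype.card V : ℝ) + k < (S.card : ℝ)) (L : List (List V × V))
    (hL : ∀ u ∈ L, Fine k K g Y' u) (x : Fin (k - 1) → V)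
    (hx : ∀ a, x a ∈ X') (hxB : ∀ a i, x a ∉ List.ofFn (B i)) {z : V}
    (hz : z ∈ Y') :
    ∃ (S' : Finset (Fin R)) (L' : List (List V × V)), (∀ u ∈ L', Fine k K g Y' u) ∧
      vm L' + vsm B y S' = vm L + vsm B y S + Multiset.ofList (List.ofFn x) + {z} ∧
      S'.card + k = S.card ∧ L'.length = L.length + (k + 1) := by
  classical
  have hk := H.hk
  obtain ⟨φ, hφ, hφS, h1, h2⟩ := block H S hS x hx hxB
  set S1 := S \ univ.image φ with hS1
  have hsub : univ.image φ ⊆ S := by
    intro i hi
    rw [Finset.mem_image] at hi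
    obtain ⟨a, -, rfl⟩ := hi
    exact hφS a
  have hcim : (univ.image φ).card = k - 1 := by
    rw [Finset.card_image_of_injective _ hφ, Finset.card_univ, Fintype.card_fin]
  have hS1c : S1.card + (k - 1) = S.card := by
    have h := Finset.card_sdiff_add_card_eq_card hsub
    rw [hcim] at h
    exact h
  have hS1' : 2 * p * (Fintype.card V : ℝ) < (S1.card : ℝ) := by
    have h3 : (S.card : ℝ) ≤ (S1.card : ℝ) + k := by
      have : S.card ≤ S1.card + k := by omega
      exact_mod_cast this
    linarith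
  obtain ⟨i, hiS, h3, h4⟩ := pick H S1 hS1' h2 hz
  refine ⟨S1.erase i, L ++ (List.ofFn (fun a => (List.ofFn (Function.update (B (φ a)) a (x a)),
    y (φ a))) ++ [(List.ofFn (fun a => B (φ a) a), y i), (List.ofFn (B i), z)]), ?_, ?_, ?_, ?_⟩
  · intro u hu
    rw [List.mem_append, List.mem_append] at hu
    rcases hu with hu | hu | hu
    · exact hL u hu
    · rw [List.mem_ofFn] at hu
      obtain ⟨a, rfl⟩ := hu
      exact fine_of_gu H.hK (h1 a)
    · rw [List.mem_cons, List.mem_singleton] at hu
      rcases hu with rfl | rfl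
      · exact fine_of_gu H.hK h3
      · exact fine_of_gu H.hK h4
  · have h5 : vsm B y S1 = Multiset.ofList (List.ofFn (B i) ++ [y i]) + vsm B y (S1.erase i) :=
      (Finset.add_sum_erase S1 _ hiS).symm
    have h6 : vsm B y S = vsm B y S1 + ∑ a, Multiset.ofList (List.ofFn (B (φ a)) ++ [y (φ a)]) := by
      unfold vsm
      rw [hS1, ← Finset.sum_sdiff hsub, Finset.sum_image (fun a _ b _ hab => hφ hab)]
    have h7 : vm [(List.ofFn (fun a => B (φ a) a), y i), (List.ofFn (B i), z)] =
        Multiset.ofList (List.ofFn (fun a => B (φ a) a) ++ [y i]) +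
          Multiset.ofList (List.ofFn (B i) ++ [z]) := by
      unfold vm
      simp
    have h8 : (∑ a, Multiset.ofList (List.ofFn (Function.update (B (φ a)) a (x a)) ++ [y (φ a)])) +
        Multiset.ofList (List.ofFn (fun a => B (φ a) a)) =
        (∑ a, Multiset.ofList (List.ofFn (B (φ a)) ++ [y (φ a)])) +
          Multiset.ofList (List.ofFn x) := by
      rw [coe_ofFn (fun a => B (φ a) a), coe_ofFn x, ← Finset.sum_add_distrib,
        ← Finset.sum_add_distrib]
      refine Finset.sum_congr rfl fun a _ => ?_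
      have h9 := upd_sum (B (φ a)) a (x a)
      rw [coe_append, coe_append, coe_single]
      calc Multiset.ofList (List.ofFn (Function.update (B (φ a)) a (x a))) + {y (φ a)} +
            {B (φ a) a} = (Multiset.ofList (List.ofFn (Function.update (B (φ a)) a (x a))) +
            {B (φ a) a}) + {y (φ a)} := by abel
        _ = (Multiset.ofList (List.ofFn (B (φ a))) + {x a}) + {y (φ a)} := by rw [h9]
        _ = _ := by abel
    rw [vm_append, vm_append, vm_ofFn, h6, h5, h7]
    simp only [coe_append (List.ofFn (fun a => B (φ a) a)), coe_append (List.ofFn (B i)),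
      coe_single]
    have h9 : ∀ A1 A2 A3 A4 A5 A6 A7 A8 A9 : Multiset V, A1 + A2 = A3 + A4 →
        A5 + (A1 + (A2 + A6 + (A7 + A8))) + A9 = A5 + (A7 + A6 + A9 + A3) + A4 + A8 := by
      intro A1 A2 A3 A4 A5 A6 A7 A8 A9 h
      calc A5 + (A1 + (A2 + A6 + (A7 + A8))) + A9 = (A1 + A2) + (A5 + A6 + A7 + A8 + A9) := by abel
        _ = (A3 + A4) + (A5 + A6 + A7 + A8 + A9) := by rw [h]
        _ = _ := by abel
    exact h9 _ _ _ _ _ _ _ _ _ h8
  · rw [Finset.card_erase_of_mem hiS]
    have : 0 < S1.card := Finset.card_pos.2 ⟨i, hiS⟩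
    omega
  · rw [List.length_append, List.length_append, List.length_ofFn]
    simp only [List.length_cons, List.length_nil]
    omega

/-- all the blocks -/
theorem iterA (H : Hyp k K p g c X' Y' R B y) : ∀ (m : ℕ) (X₁ Y₁ : Finset V), X₁ ⊆ X' →
    (∀ v ∈ X₁, ∀ i, v ∉ List.ofFn (B i)) → Y₁ ⊆ Y' → X₁.card = (k - 1) * m → Y₁.card = m →
    ∀ (S : Finset (Fin R)) (L : List (List V × V)), (∀ u ∈ L, Fine k K g Y' u) →
    2 * p * (Fintype.card V : ℝ) + k + k * m < (S.card : ℝ) →
    ∃ (S' : Finset (Fin R)) (L' : List (List V × V)), (∀ u ∈ L', Fine k K g Y' u) ∧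
      vm L' + vsm B y S' = vm L + vsm B y S + X₁.val + Y₁.val ∧
      S'.card + k * m = S.card ∧ L'.length = L.length + (k + 1) * m := by
  classical
  intro m
  induction m with
  | zero =>
    intro X₁ Y₁ _ _ _ h4 h5 S L hL _
    refine ⟨S, L, hL, ?_, by simp, by simp⟩
    rw [Nat.mul_zero, Finset.card_eq_zero] at h4
    rw [Finset.card_eq_zero] at h5
    rw [h4, h5]
    simp
  | succ m ih =>
    intro X₁ Y₁ h1 h2 h3 h4 h5 S L hL hS
    obtain ⟨X₂, hX₂, hX₂c⟩ := Finset.exists_subset_card_eq (s := X₁) (n := k - 1) (by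
      rw [h4]
      exact Nat.le_mul_of_pos_right _ (Nat.succ_pos _))
    obtain ⟨z, hz⟩ : Y₁.Nonempty := by
      rw [← Finset.card_pos, h5]
      exact Nat.succ_pos _
    let e : Fin (k - 1) ≃ X₂ := (Finset.equivFinOfCardEq hX₂c).symm
    let x : Fin (k - 1) → V := fun a => (e a : V)
    have hxX : ∀ a, x a ∈ X₁ := fun a => hX₂ (e a).2
    have hsumx : Multiset.ofList (List.ofFn x) = X₂.val := by
      rw [coe_ofFn]
      have h6 : ∑ a, ({x a} : Multiset V) = ∑ v : X₂, ({(v : V)} : Multiset V) :=
        Equiv.sum_comp e (fun v : X₂ => ({(v : V)} : Multiset V))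
      rw [h6, Finset.sum_coe_sort X₂ (fun v => ({v} : Multiset V))]
      exact Finset.sum_multiset_singleton X₂
    have hk := H.hk
    have hSk : 2 * p * (Fintype.card V : ℝ) + k < (S.card : ℝ) := by
      have h6 : (0 : ℝ) ≤ (k : ℝ) * ((m + 1 : ℕ) : ℝ) := by positivity
      linarith
    obtain ⟨S1, L1, hL1, h6, h7, h8⟩ := moveA H S hSk L hL x (fun a => h1 (hxX a))
      (fun a i => h2 _ (hxX a) i) (h3 hz)
    have hS1 : 2 * p * (Fintype.card V : ℝ) + k + k * m < (S1.card : ℝ) := by
      have h9 : (S1.card : ℝ) + k = S.card := by exact_mod_cast h7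
      push_cast at hS
      linarith
    obtain ⟨S2, L2, hL2, h9, h10, h11⟩ := ih (X₁ \ X₂) (Y₁.erase z)
      (fun v hv => h1 (Finset.mem_sdiff.1 hv).1) (fun v hv => h2 v (Finset.mem_sdiff.1 hv).1)
      (fun v hv => h3 (Finset.mem_of_mem_erase hv)) (by
        have h12 := Finset.card_sdiff_add_card_eq_card hX₂
        rw [hX₂c, h4, Nat.mul_succ] at h12
        omega) (by
        rw [Finset.card_erase_of_mem hz, h5]
        rfl) S1 L1 hL1 hS1
    refine ⟨S2, L2, hL2, ?_, ?_, ?_⟩
    · rw [h9, h6, hsumx]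
      have h12 : X₁.val = X₂.val + (X₁ \ X₂).val := by
        have h13 : X₁ = X₂.disjUnion (X₁ \ X₂) Finset.disjoint_sdiff := by
          rw [Finset.disjUnion_eq_union, Finset.union_sdiff_of_subset hX₂]
        conv_lhs => rw [h13]
        rfl
      have h14 : Y₁.val = {z} + (Y₁.erase z).val := by
        rw [Finset.erase_val, Multiset.singleton_add, Multiset.cons_erase (by exact hz)]
      rw [h12, h14]
      abel
    · rw [Nat.mul_succ]
      omega
    · rw [h11, h8, Nat.mul_succ]
      omega

/-- all the segments -/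
theorem iterB (H : Hyp k K p g c X' Y' R B y) : ∀ (Sg : List (List V)) (Y₁ : Finset V), Y₁ ⊆ Y' →
    (∀ s ∈ Sg, TP K k s ∧ k ≤ s.length ∧ GB k K g Y' (s.take (k - 1)) ∧
      GB k K g Y' (lastn (k - 1) s)) → Y₁.card = Sg.length →
    ∀ (S : Finset (Fin R)) (L : List (List V × V)), (∀ u ∈ L, Fine k K g Y' u) →
    2 * p * (Fintype.card V : ℝ) + Sg.length < (S.card : ℝ) →
    ∃ (S' : Finset (Fin R)) (L' : List (List V × V)), (∀ u ∈ L', Fine k K g Y' u) ∧
      vm L' + vsm B y S' = vm L + vsm B y S + Multiset.ofList Sg.flatten + Y₁.val ∧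
      S'.card + Sg.length = S.card ∧ L'.length = L.length + 2 * Sg.length := by
  classical
  intro Sg
  induction Sg with
  | nil =>
    intro Y₁ _ _ h5 S L hL _
    refine ⟨S, L, hL, ?_, by simp, by simp⟩
    rw [List.length_nil, Finset.card_eq_zero] at h5
    rw [h5]
    simp
  | cons s Sg ih =>
    intro Y₁ h3 hSg h5 S L hL hS
    rw [List.length_cons] at h5 hS
    obtain ⟨z, hz⟩ : Y₁.Nonempty := by
      rw [← Finset.card_pos, h5]
      exact Nat.succ_pos _
    push_cast at hS
    have hSg0 : (0 : ℝ) ≤ (Sg.length : ℝ) := by positivity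
    obtain ⟨hs1, hs2, hs3, hs4⟩ := hSg s List.mem_cons_self
    obtain ⟨S1, L1, hL1, h6, h7, h8⟩ := moveB H S (by linarith) L hL hs1 hs2 hs3 hs4 (h3 hz)
    have hS1 : 2 * p * (Fintype.card V : ℝ) + Sg.length < (S1.card : ℝ) := by
      have h9 : (S1.card : ℝ) + 1 = S.card := by exact_mod_cast h7
      linarith
    obtain ⟨S2, L2, hL2, h9, h10, h11⟩ := ih (Y₁.erase z)
      (fun v hv => h3 (Finset.mem_of_mem_erase hv))
      (fun t ht => hSg t (List.mem_cons_of_mem _ ht)) (by
        rw [Finset.card_erase_of_mem hz, h5]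
        rfl) S1 L1 hL1 hS1
    refine ⟨S2, L2, hL2, ?_, ?_, ?_⟩
    · rw [h9, h6, List.flatten_cons, coe_append]
      have h14 : Y₁.val = {z} + (Y₁.erase z).val := by
        rw [Finset.erase_val, Multiset.singleton_add, Multiset.cons_erase (by exact hz)]
      rw [h14]
      abel
    · rw [List.length_cons]
      omega
    · rw [h11, h8, List.length_cons]
      omega

/-- the regular unit -/
def reg (B : Fin R → Fin (k - 1) → V) (y : Fin R → V) (i : Fin R) : List V × V :=
  (List.ofFn (B i), y i)

theorem reg_fine (H : Hyp k K p g c X' Y' R B y) (i : Fin R) : Fine k K g Y' (reg B y i) :=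
  fine_of_gu H.hK (H.ru.good i)

/-- the degrees -/
theorem degs (H : Hyp k K p g c X' Y' R B y) (S : Finset (Fin R)) {u : List V × V}
    (hu : Fine k K g Y' u) :
    ∃ S' ⊆ S, (∀ i ∈ S', Rel k K u (reg B y i) ∧ Rel k K (reg B y i) u) ∧
      (S.card : ℝ) ≤ (S'.card : ℝ) + 2 * p * (Fintype.card V : ℝ) := by
  classical
  set n : ℝ := (Fintype.card V : ℝ) with hnd
  obtain ⟨hu1, hu2, hu3, hu4⟩ := hu
  set F1 := univ.filter (fun i : Fin R =>
    ¬ TP K k (lastn (k - 1) u.1 ++ [u.2] ++ List.ofFn (B i))) with hF1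
  set F2 := univ.filter (fun i : Fin R =>
    ¬ TP K k (List.ofFn (B i) ++ [y i] ++ u.1.take (k - 1))) with hF2
  have h1 : (F1.card : ℝ) ≤ p * n := H.ru.t1 _ _ hu4
  have h2 : (F2.card : ℝ) ≤ p * n := H.ru.t2 _ hu3
  refine ⟨S \ (F1 ∪ F2), Finset.sdiff_subset, ?_, ?_⟩
  · intro i hi
    rw [Finset.mem_sdiff, Finset.mem_union, not_or] at hi
    obtain ⟨-, hi1, hi2⟩ := hi
    constructor
    · show TP K k (lastn (k - 1) u.1 ++ [u.2] ++ (List.ofFn (B i)).take (k - 1))
      rw [List.take_of_length_le (by rw [List.length_ofFn])]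
      by_contra hcon
      exact hi1 (Finset.mem_filter.2 ⟨Finset.mem_univ _, hcon⟩)
    · show TP K k (lastn (k - 1) (List.ofFn (B i)) ++ [y i] ++ u.1.take (k - 1))
      rw [lastn_self (List.length_ofFn)]
      by_contra hcon
      exact hi2 (Finset.mem_filter.2 ⟨Finset.mem_univ _, hcon⟩)
  · have h3 : (S.card : ℝ) ≤ ((S \ (F1 ∪ F2)).card : ℝ) + (F1.card + F2.card) := by
      have h4 : S ⊆ (S \ (F1 ∪ F2)) ∪ (F1 ∪ F2) := by
        intro i hi
        by_cases h : i ∈ F1 ∪ F2
        · exact Finset.mem_union_right _ h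
        · exact Finset.mem_union_left _ (Finset.mem_sdiff.2 ⟨hi, h⟩)
      have h5 := (Finset.card_le_card h4).trans (Finset.card_union_le _ _)
      have h6 := Finset.card_union_le F1 F2
      have h7 : S.card ≤ (S \ (F1 ∪ F2)).card + (F1.card + F2.card) := by omega
      exact_mod_cast h7
    linarith

/-- the system of units -/
theorem final (H : Hyp k K p g c X' Y' R B y) (S : Finset (Fin R)) (L : List (List V × V))
    (hL : ∀ u ∈ L, Fine k K g Y' u) (hv : vm L + vsm B y S = (univ : Finset V).val)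
    (h3 : 3 ≤ L.length + S.card)
    (hS : (L.length : ℝ) + 4 * p * (Fintype.card V : ℝ) + 2 ≤ (S.card : ℝ)) :
    ∃ (M : ℕ) (u : Fin M → List V × V), US k K M u := by
  classical
  let ι := Fin L.length ⊕ {i // i ∈ S}
  let U : ι → List V × V := Sum.elim (fun j => L.get j) (fun i => reg B y i.1)
  have hcard : Fintype.card ι = L.length + S.card := by
    show Fintype.card (Fin L.length ⊕ {i // i ∈ S}) = _
    rw [Fintype.card_sum, Fintype.card_fin, Fintype.card_coe]
  let e : ι ≃ Fin (L.length + S.card) := Fintype.equivFinOfCardEq hcard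
  have hU : ∀ x, Fine k K g Y' (U x) := by
    rintro (j | i)
    · exact hL _ (List.get_mem L j)
    · exact reg_fine H _
  have hsum : Multiset.ofList (List.ofFn (fun i => (U (e.symm i)).1 ++ [(U (e.symm i)).2])).flatten
      = (univ : Finset V).val := by
    rw [coe_flatten, List.map_ofFn, List.sum_ofFn]
    have h1 : ∑ i, Multiset.ofList ((U (e.symm i)).1 ++ [(U (e.symm i)).2]) =
        ∑ x : ι, Multiset.ofList ((U x).1 ++ [(U x).2]) :=
      Equiv.sum_comp e.symm (fun x : ι => Multiset.ofList ((U x).1 ++ [(U x).2]))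
    show ∑ i, Multiset.ofList ((U (e.symm i)).1 ++ [(U (e.symm i)).2]) = _
    rw [h1, Fintype.sum_sum_type, ← hv]
    congr 1
    · have h2 : vm L = vm (List.ofFn L.get) := by rw [List.ofFn_get]
      rw [h2, vm_ofFn]
      rfl
    · exact Finset.sum_coe_sort S (fun i => Multiset.ofList (List.ofFn (B i) ++ [y i]))
  refine ⟨L.length + S.card, fun i => U (e.symm i), h3, ?_, ?_, ?_, ?_, ?_⟩
  · rw [← Multiset.coe_nodup, hsum]
    exact univ.nodup
  · intro v
    have h1 : v ∈ Multiset.ofList
        (List.ofFn (fun i => (U (e.symm i)).1 ++ [(U (e.symm i)).2])).flatten := by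
      rw [hsum]
      exact Finset.mem_univ v
    rw [Multiset.mem_coe, List.mem_flatten] at h1
    obtain ⟨l, hl, hvl⟩ := h1
    rw [List.mem_ofFn] at hl
    obtain ⟨i, rfl⟩ := hl
    exact ⟨i, hvl⟩
  · intro i
    exact (hU _).1
  · intro i
    exact (hU _).2.1
  · intro i
    obtain ⟨S', hS'S, hS', hc⟩ := degs H S (hU (e.symm i))
    have h1 : S'.card ≤ (univ.filter (fun j => j ≠ i ∧ Rel k K (U (e.symm i)) (U (e.symm j)) ∧
        Rel k K (U (e.symm j)) (U (e.symm i)))).card + 1 := by
      have h2 : S'.attach.image (fun r => e (Sum.inr ⟨r.1, hS'S r.2⟩)) ⊆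
          insert i (univ.filter (fun j => j ≠ i ∧ Rel k K (U (e.symm i)) (U (e.symm j)) ∧
            Rel k K (U (e.symm j)) (U (e.symm i)))) := by
        intro j hj
        rw [Finset.mem_image] at hj
        obtain ⟨r, -, rfl⟩ := hj
        rw [Finset.mem_insert, Finset.mem_filter]
        by_cases h : e (Sum.inr ⟨r.1, hS'S r.2⟩) = i
        · exact Or.inl h
        · refine Or.inr ⟨Finset.mem_univ _, h, ?_⟩
          rw [Equiv.symm_apply_apply]
          exact hS' r.1 r.2
      have h3 := Finset.card_le_card h2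
      rw [Finset.card_image_of_injective, Finset.card_attach] at h3
      · exact h3.trans (Finset.card_insert_le _ _)
      · intro r r' h
        have h4 := Sum.inr_injective (e.injective h)
        exact Subtype.ext (congrArg (fun q : {i // i ∈ S} => q.1) h4)
    have h2 : ((L.length + S.card : ℕ) : ℝ) ≤ 2 * ((univ.filter (fun j => j ≠ i ∧
        Rel k K (U (e.symm i)) (U (e.symm j)) ∧
        Rel k K (U (e.symm j)) (U (e.symm i)))).card : ℝ) := by
      have h3 : (S'.card : ℝ) ≤ ((univ.filter (fun j => j ≠ i ∧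
        Rel k K (U (e.symm i)) (U (e.symm j)) ∧
        Rel k K (U (e.symm j)) (U (e.symm i)))).card : ℝ) + 1 := by exact_mod_cast h1
      push_cast
      linarith
    exact_mod_cast h2

end Units

end SWPL

open SWPL in
/-- [SWP] -/
theorem swp : S_SWP := by
  classical
  intro k hk
  have hk0 : (0 : ℝ) < k := by
    have : 0 < k := by omega
    exact_mod_cast this
  have hk3 : (3 : ℝ) ≤ k := by exact_mod_cast hk
  refine ⟨1 / (100 * (k : ℝ) ^ 2), by positivity, ?_⟩
  intro p g hp hp1 hg hgp
  have hp100 : 100 * (k : ℝ) ^ 2 * p ≤ 1 := by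
    rw [le_div_iff₀ (by positivity)] at hp1
    linarith
  refine ⟨min (g * p / (2 * k)) p, ⌈4 * (k : ℝ) / p⌉₊ + 6 * k, by positivity, ?_⟩
  intro V _ _ K hK hn X' Y' hBS Sg hSg1 hSg2 hSg3 hSg4 hXY R B y hRU hXR
  set n : ℝ := (Fintype.card V : ℝ) with hnd
  set c := min (g * p / (2 * (k : ℝ))) p with hc
  have hc0 : 0 < c := by positivity
  have hn1 : 4 * (k : ℝ) / p ≤ n := by
    have h1 : ((⌈4 * (k : ℝ) / p⌉₊ : ℕ) : ℝ) ≤ n := by
      have : ⌈4 * (k : ℝ) / p⌉₊ ≤ Fintype.card V := by omega
      rw [hnd]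
      exact Nat.cast_le.2 this
    exact (Nat.le_ceil _).trans h1
  have hn2 : 6 * (k : ℝ) ≤ n := by
    have : 6 * k ≤ Fintype.card V := by omega
    rw [hnd]
    exact_mod_cast this
  have hn4 : 4 * (k : ℝ) ≤ p * n := by
    rw [div_le_iff₀ hp] at hn1
    linarith
  have hn0 : 0 < n := by linarith
  have hpk : p ≤ 1 / (4 * (k : ℝ)) := by
    rw [le_div_iff₀ (by positivity)]
    nlinarith
  have H : Hyp k K p g c X' Y' R B y :=
    { hk := hk
      hK := hK
      bs := hBS
      ru := hRU
      n0 := hn0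
      g0 := hg
      g4 := hgp.trans hpk
      gp := hgp
      c0 := hc0
      cp := by
        have h1 : c ≤ g * p / (2 * (k : ℝ)) := min_le_left _ _
        rw [div_le_iff₀ hg]
        have h2 : k * c ≤ k * (g * p / (2 * (k : ℝ))) := mul_le_mul_of_nonneg_left h1 hk0.le
        have h3 : k * (g * p / (2 * (k : ℝ))) = p / 2 * g := by
          field_simp
        linarith
      hn := by linarith }
  -- the number of blocks
  have hSgY : Sg.length ≤ Y'.card := by
    have h1 : (k - 1) * Sg.length ≤ (k - 1) * Y'.card := by omega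
    exact Nat.le_of_mul_le_mul_left h1 (by omega)
  obtain ⟨Mb, hMb⟩ := Nat.exists_eq_add_of_le hSgY
  have hXc : X'.card = (k - 1) * Mb := by
    rw [hMb, Nat.mul_add] at hXY
    omega
  -- images of the regular units
  set BB : Finset V := univ.image (fun q : Fin R × Fin (k - 1) => B q.1 q.2) with hBB
  set YY : Finset V := univ.image y with hYY
  have hBBX : BB ⊆ X' := by
    intro v hv
    rw [hBB, Finset.mem_image] at hv
    obtain ⟨q, -, rfl⟩ := hv
    exact hRU.memB q.1 q.2
  have hYYY : YY ⊆ Y' := by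
    intro v hv
    rw [hYY, Finset.mem_image] at hv
    obtain ⟨q, -, rfl⟩ := hv
    exact hRU.memy q
  have hBBc : BB.card = (k - 1) * R := by
    rw [hBB, Finset.card_image_of_injective _ hRU.injB, Finset.card_univ, Fintype.card_prod,
      Fintype.card_fin, Fintype.card_fin, Nat.mul_comm]
  have hYYc : YY.card = R := by
    rw [hYY, Finset.card_image_of_injective _ hRU.injy, Finset.card_univ, Fintype.card_fin]
  have hRM : R ≤ Mb := by
    have h1 := Finset.card_le_card hBBX
    rw [hBBc, hXc] at h1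
    exact Nat.le_of_mul_le_mul_left h1 (by omega)
  obtain ⟨m, hm⟩ := Nat.exists_eq_add_of_le hRM
  set X₁ := X' \ BB with hX₁
  set Y₀ := Y' \ YY with hY₀
  have hX₁c : X₁.card = (k - 1) * m := by
    have h1 := Finset.card_sdiff_add_card_eq_card hBBX
    rw [← hX₁, hBBc, hXc, hm, Nat.mul_add] at h1
    omega
  have hY₀c : Y₀.card = m + Sg.length := by
    have h1 := Finset.card_sdiff_add_card_eq_card hYYY
    rw [← hY₀, hYYc, hMb, hm] at h1
    omega
  obtain ⟨Y₁, hY₁, hY₁c⟩ := Finset.exists_subset_card_eq (s := Y₀) (n := m) (by omega)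
  set Y₂ := Y₀ \ Y₁ with hY₂
  have hY₂c : Y₂.card = Sg.length := by
    have h1 := Finset.card_sdiff_add_card_eq_card hY₁
    rw [← hY₂] at h1
    omega
  -- numbers
  have hm3 : (m : ℝ) ≤ 3 * p * n := by
    have h1 : ((k : ℝ) - 1) * (R + m) ≤ ((k : ℝ) - 1) * (R + 3 * p * n) := by
      have h2 : (X'.card : ℝ) = ((k : ℝ) - 1) * (R + m) := by
        rw [hXc, hm]
        push_cast [Nat.cast_sub (show 1 ≤ k by omega)]
        ring
      rw [← h2]
      exact hXR
    have h3 := le_of_mul_le_mul_left h1 (by linarith)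
    linarith
  have hSgc : (Sg.length : ℝ) ≤ p * n :=
    hSg4.trans (mul_le_mul_of_nonneg_right (min_le_right _ _) hn0.le)
  have hRbig : n / (2 * k) - 3 * p * n ≤ (R : ℝ) := by
    have h1 := hBS.cX
    rw [← hnd] at h1
    have h2 : n / 2 ≤ ((k : ℝ) - 1) * (R + 3 * p * n) := h1.trans hXR
    have h3 : 0 ≤ (R : ℝ) + 3 * p * n := by positivity
    have h4 : n / 2 ≤ (k : ℝ) * (R + 3 * p * n) := by
      refine h2.trans ?_
      nlinarith
    have h5 : n / (2 * k) ≤ (R : ℝ) + 3 * p * n := by
      rw [div_le_iff₀ (by positivity)]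
      linarith
    linarith
  have hbig : (6 * (k : ℝ) + 15) * (p * n) ≤ n / (2 * k) := by
    rw [le_div_iff₀ (by positivity)]
    have h1 : (6 * (k : ℝ) + 15) * (2 * k) * p ≤ 1 := by
      have h2 : (6 * (k : ℝ) + 15) * (2 * k) ≤ 100 * (k : ℝ) ^ 2 := by nlinarith
      exact (mul_le_mul_of_nonneg_right h2 hp.le).trans hp100
    calc (6 * (k : ℝ) + 15) * (p * n) * (2 * k) = ((6 * (k : ℝ) + 15) * (2 * k) * p) * n := by ring
      _ ≤ 1 * n := mul_le_mul_of_nonneg_right h1 hn0.le
      _ = n := one_mul n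
  have hR : 2 * (k : ℝ) * m + m + 3 * Sg.length + 4 * p * n + k + 2 < (R : ℝ) := by
    have hk2 : (k : ℝ) + 2 ≤ p * n := by linarith
    have h1 : 2 * (k : ℝ) * m ≤ 2 * k * (3 * p * n) := mul_le_mul_of_nonneg_left hm3 (by positivity)
    have h2 : 0 < p * n := by positivity
    nlinarith
  have hcu : ((univ : Finset (Fin R)).card : ℝ) = R := by
    rw [Finset.card_univ, Fintype.card_fin]
  have hkm0 : 0 ≤ (k : ℝ) * m := by positivity
  have hm0 : 0 ≤ (m : ℝ) := by positivity
  have hSg0 : 0 ≤ (Sg.length : ℝ) := by positivity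
  have hpn0 : 0 ≤ p * n := by positivity
  obtain ⟨S1, L1, hL1, h1, h2, h3⟩ := iterA H m X₁ Y₁ Finset.sdiff_subset (by
    intro v hv i hvi
    rw [hX₁, Finset.mem_sdiff] at hv
    rw [List.mem_ofFn] at hvi
    obtain ⟨a, rfl⟩ := hvi
    exact hv.2 (Finset.mem_image.2 ⟨(i, a), Finset.mem_univ _, rfl⟩))
    (hY₁.trans Finset.sdiff_subset) hX₁c hY₁c univ [] (by simp) (by
      rw [hcu, ← hnd]
      nlinarith)
  have hS1 : (S1.card : ℝ) + k * m = R := by
    rw [← hcu]
    exact_mod_cast h2
  obtain ⟨S2, L2, hL2, h4, h5, h6⟩ := iterB H Sg Y₂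
    (Finset.sdiff_subset.trans Finset.sdiff_subset) hSg3 hY₂c S1 L1 hL1 (by
      rw [← hnd]
      nlinarith)
  have hS2 : (S2.card : ℝ) + Sg.length = S1.card := by exact_mod_cast h5
  have hL2c : (L2.length : ℝ) = (k + 1) * m + 2 * Sg.length := by
    rw [h6, h3]
    push_cast
    simp
  have hval : vm L2 + vsm B y S2 = (univ : Finset V).val := by
    rw [h4, h1]
    have e1 : vm ([] : List (List V × V)) = 0 := rfl
    have e2 : vsm B y univ = BB.val + YY.val := by
      unfold vsm
      have e3 : ∀ i, Multiset.ofList (List.ofFn (B i) ++ [y i]) =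
          (∑ a, ({B i a} : Multiset V)) + {y i} := by
        intro i
        rw [coe_append, coe_single, coe_ofFn]
      simp only [e3]
      rw [Finset.sum_add_distrib]
      congr 1
      · have e4 : ∑ v ∈ BB, ({v} : Multiset V) = BB.val := Finset.sum_multiset_singleton BB
        rw [← e4, hBB, Finset.sum_image (fun a _ b _ hab => hRU.injB hab)]
        rw [← Finset.univ_product_univ, Finset.sum_product]
      · have e4 : ∑ v ∈ YY, ({v} : Multiset V) = YY.val := Finset.sum_multiset_singleton YY
        rw [← e4, hYY, Finset.sum_image (fun a _ b _ hab => hRU.injy hab)]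
    have e3 : X'.val = BB.val + X₁.val := by
      have h13 : X' = BB.disjUnion (X' \ BB) Finset.disjoint_sdiff := by
        rw [Finset.disjUnion_eq_union, Finset.union_sdiff_of_subset hBBX]
      conv_lhs => rw [h13]
      rfl
    have e4 : Y'.val = YY.val + Y₀.val := by
      have h13 : Y' = YY.disjUnion (Y' \ YY) Finset.disjoint_sdiff := by
        rw [Finset.disjUnion_eq_union, Finset.union_sdiff_of_subset hYYY]
      conv_lhs => rw [h13]
      rfl
    have e5 : Y₀.val = Y₁.val + Y₂.val := by
      have h13 : Y₀ = Y₁.disjUnion (Y₀ \ Y₁) Finset.disjoint_sdiff := by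
        rw [Finset.disjUnion_eq_union, Finset.union_sdiff_of_subset hY₁]
      conv_lhs => rw [h13]
      rfl
    have e6 : (univ : Finset V).val = X'.val + Y'.val + Multiset.ofList Sg.flatten := by
      have h13 : (univ : Finset V) = (X'.disjUnion Y' hBS.dis).disjUnion (Sg.flatten.toFinset) (by
          rw [Finset.disjoint_left]
          intro v hv1 hv2
          rw [List.mem_toFinset, hSg2] at hv2
          rw [Finset.mem_disjUnion] at hv1
          rcases hv1 with hv1 | hv1
          · exact hv2.1 hv1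
          · exact hv2.2 hv1) := by
        ext v
        rw [Finset.mem_disjUnion, Finset.mem_disjUnion, List.mem_toFinset, hSg2]
        simp only [Finset.mem_univ, true_iff]
        tauto
      rw [h13]
      show X'.val + Y'.val + Sg.flatten.toFinset.val = _
      rw [List.toFinset_val, hSg1.dedup]
    rw [e1, e2, e6, e3, e4, e5]
    abel
  refine final H S2 L2 hL2 hval ?_ ?_
  · have h7 : (3 : ℝ) ≤ (L2.length : ℝ) + S2.card := by
      rw [hL2c]
      nlinarith
    exact_mod_cast h7
  · rw [hL2c, ← hnd]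
    nlinarith

end Pool.Agent.H48.TC
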