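import Pool.Agent.H48.TC.Stm

/-! # Leaf TRK: transfer (helper225 for helper48) -/

set_option autoImplicit false

namespace Pool.Agent.H48.TC

open Finset Pool.Agent.H48.PW Pool.Agent.Helper83K9.CF

namespace TRKL

theorem card_pi {ι V : Type} [Fintype ι] [DecidableEq ι] (U : Finset V) :
    (Fintype.piFinset (fun _ : ι => U)).card = U.card ^ Fintype.card ι := by
  rw [Fintype.card_piFinset, Finset.prod_const, Finset.card_univ]

open Classical in
theorem pair_count {ι V : Type} [Fintype ι] [DecidableEq ι] (U : Finset V)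
    (p p' : ι) (h : p ≠ p') :
    ((Fintype.piFinset (fun _ : ι => U)).filter (fun Ω => Ω p = Ω p')).card * U.card ≤
      U.card ^ Fintype.card ι := by
  rw [← card_pi, ← card_product]
  apply Finset.card_le_card_of_injOn (fun q : (ι → V) × V => Function.update q.1 p q.2)
  · rintro ⟨Ω, v⟩ hq
    rw [mem_coe, mem_product, mem_filter, Fintype.mem_piFinset] at hq
    rw [mem_coe, Fintype.mem_piFinset]
    intro i
    by_cases hi : i = p
    · subst hi
      simpa using hq.2
    · simpa [Function.update_of_ne hi] using hq.1.1 i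
  · rintro ⟨Ω, v⟩ hq ⟨Ω', v'⟩ hq' he
    rw [mem_coe, mem_product, mem_filter] at hq hq'
    simp only at he hq hq'
    have h1 : v = v' := by
      have := congrFun he p
      simpa using this
    have h2 : ∀ i, i ≠ p → Ω i = Ω' i := by
      intro i hi
      have := congrFun he i
      simpa [Function.update_of_ne hi] using this
    have h3 : Ω p = Ω' p := by
      rw [hq.1.2, hq'.1.2]
      exact h2 p' h.symm
    have h4 : Ω = Ω' := by
      funext i
      by_cases hi : i = p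
      · rw [hi]; exact h3
      · exact h2 i hi
    rw [h1, h4]

open Classical in
theorem noninj_count {ι V : Type} [Fintype ι] [DecidableEq ι] (U : Finset V) :
    ((Fintype.piFinset (fun _ : ι => U)).filter (fun Ω => ¬ Function.Injective Ω)).card * U.card ≤
      (Fintype.card ι) ^ 2 * U.card ^ Fintype.card ι := by
  have hsub : (Fintype.piFinset (fun _ : ι => U)).filter (fun Ω => ¬ Function.Injective Ω) ⊆
      ((univ : Finset (ι × ι)).filter (fun q => q.1 ≠ q.2)).biUnion
        (fun q => (Fintype.piFinset (fun _ : ι => U)).filter (fun Ω => Ω q.1 = Ω q.2)) := by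
    intro Ω hΩ
    rw [mem_filter] at hΩ
    obtain ⟨h1, h2⟩ := hΩ
    rw [Function.not_injective_iff] at h2
    obtain ⟨a, b, hab, hne⟩ := h2
    rw [mem_biUnion]
    exact ⟨(a, b), mem_filter.mpr ⟨mem_univ _, hne⟩, mem_filter.mpr ⟨h1, hab⟩⟩
  have h1 := (Finset.card_le_card hsub).trans Finset.card_biUnion_le
  calc ((Fintype.piFinset (fun _ : ι => U)).filter (fun Ω => ¬ Function.Injective Ω)).card * U.card
      ≤ (∑ q ∈ (univ : Finset (ι × ι)).filter (fun q => q.1 ≠ q.2),
        ((Fintype.piFinset (fun _ : ι => U)).filter (fun Ω => Ω q.1 = Ω q.2)).card) * U.card :=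
        Nat.mul_le_mul_right _ h1
    _ = ∑ q ∈ (univ : Finset (ι × ι)).filter (fun q => q.1 ≠ q.2),
        ((Fintype.piFinset (fun _ : ι => U)).filter (fun Ω => Ω q.1 = Ω q.2)).card * U.card := by
        rw [Finset.sum_mul]
    _ ≤ ∑ q ∈ (univ : Finset (ι × ι)).filter (fun q => q.1 ≠ q.2), U.card ^ Fintype.card ι := by
        refine Finset.sum_le_sum fun q hq => ?_
        exact pair_count U q.1 q.2 (mem_filter.mp hq).2
    _ = ((univ : Finset (ι × ι)).filter (fun q => q.1 ≠ q.2)).card * U.card ^ Fintype.card ι := by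
        rw [Finset.sum_const, smul_eq_mul]
    _ ≤ (Fintype.card ι) ^ 2 * U.card ^ Fintype.card ι := by
        refine Nat.mul_le_mul_right _ ?_
        refine (Finset.card_filter_le _ _).trans ?_
        rw [Finset.card_univ, Fintype.card_prod, sq]

open Classical in
theorem noninj_ex {ι V : Type} [Fintype ι] [DecidableEq ι] (U : Finset V) :
    ∃ F3 : Finset (ι → V), (∀ Ω ∈ Fintype.piFinset (fun _ : ι => U),
      ¬ Function.Injective Ω → Ω ∈ F3) ∧
      F3.card * U.card ≤ (Fintype.card ι) ^ 2 * U.card ^ Fintype.card ι :=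
  ⟨_, fun _ hΩ hn => mem_filter.mpr ⟨hΩ, hn⟩, noninj_count U⟩

theorem cx_pl {V : Type} [DecidableEq V] {N R k : ℕ} {K : Finset V → Prop} (hK : Cx k K)
    (ω : Fin N → V) (e : Fin R → V) : Cx k (pl K ω e) := by
  refine ⟨⟨?_, ?_⟩, ?_, ?_, ?_⟩
  · simp
  · simpa using hK.emp
  · intro S T hT hST
    exact ⟨hT.1.mono (by exact_mod_cast hST), hK.sub _ _ hT.2 (Finset.image_subset_image hST)⟩
  · intro T hT
    have := hK.card _ hT.2
    rwa [Finset.card_image_of_injOn hT.1] at this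
  · intro v
    refine ⟨by simp, ?_⟩
    rw [Finset.image_singleton]
    exact hK.vert _

end TRKL

open Classical in
/-- [TRK] transfer -/
theorem trk (h1 : S_SMP) (h2 : S_BLOW) : S_TRK := by
  intro k γ R hk hγ
  obtain ⟨N₀, hN₀⟩ := h1 k γ R hk hγ
  refine ⟨N₀, fun N hN s hs => ?_⟩
  obtain ⟨n₁, hn₁⟩ := hN₀ N hN
  -- the number of possible complexes
  set Q : ℕ := Fintype.card (Finset (Finset (Fin N ⊕ Fin R))) with hQ
  have hQ0 : (0 : ℝ) < Q := by
    rw [hQ]
    exact_mod_cast Fintype.card_pos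
  set C : ℝ := (1 / (2 * (Q : ℝ))) ^ (s ^ N) with hC
  have hC0 : 0 < C := by positivity
  refine ⟨C / 2, n₁ + ⌈2 * ((N * s : ℕ) : ℝ) ^ 2 / C⌉₊ + 1, by positivity, ?_⟩
  intro V _ _ K U hK hU hPD e he
  have hUpos : (0 : ℝ) < U.card := by
    have : 0 < U.card := by omega
    exact_mod_cast this
  have hUbig : 2 * ((N * s : ℕ) : ℝ) ^ 2 / C ≤ U.card := by
    refine (Nat.le_ceil _).trans ?_
    exact_mod_cast (by omega : ⌈2 * ((N * s : ℕ) : ℝ) ^ 2 / C⌉₊ ≤ U.card)
  -- good samples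
  obtain ⟨B, hB1, hB2⟩ : ∃ B : Finset (Fin N → V), (∀ ω ∈ Fintype.piFinset (fun _ : Fin N => U),
      ω ∉ B → (Function.Injective ω ∧
    (∀ x r, ω x ≠ e r) ∧ PD k (pl K ω e) (2 * γ) (lft N R))) ∧
      8 * (B.card : ℝ) ≤ (U.card : ℝ) ^ N := by
    refine ⟨_, ?_, hn₁ V K U hK (by omega) hPD e he⟩
    intro ω hω hωB
    rw [mem_filter] at hωB
    by_contra hcon
    exact hωB ⟨hω, hcon⟩
  set G0 : Finset (Fin N → V) := Fintype.piFinset (fun _ : Fin N => U) \ B with hG0
  have hpi : ((Fintype.piFinset (fun _ : Fin N => U)).card : ℝ) = (U.card : ℝ) ^ N := by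
    rw [TRKL.card_pi, Fintype.card_fin]
    push_cast
    rfl
  have hg : 1 / 2 * (U.card : ℝ) ^ N ≤ (G0.card : ℝ) := by
    have h3 := Finset.le_card_sdiff B (Fintype.piFinset (fun _ : Fin N => U))
    have h4 : (Fintype.piFinset (fun _ : Fin N => U)).card ≤ G0.card + B.card := by
      rw [hG0]; omega
    have h5 : ((Fintype.piFinset (fun _ : Fin N => U)).card : ℝ) ≤ G0.card + B.card := by
      exact_mod_cast h4
    have h6 : 0 < (U.card : ℝ) ^ N := by positivity
    rw [hpi] at h5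
    linarith
  -- pigeonhole
  let dat : (Fin N → V) → Finset (Finset (Fin N ⊕ Fin R)) := fun ω =>
    univ.filter (fun T => pl K ω e T)
  obtain ⟨τ, hτ⟩ : ∃ τ : Finset (Finset (Fin N ⊕ Fin R)),
      1 / (2 * (Q : ℝ)) * (U.card : ℝ) ^ N ≤ ((G0.filter (fun ω => dat ω = τ)).card : ℝ) := by
    have hsum : (G0.card : ℝ) = ∑ τ : Finset (Finset (Fin N ⊕ Fin R)),
        ((G0.filter (fun ω => dat ω = τ)).card : ℝ) := by
      have := Finset.card_eq_sum_card_fiberwise (s := G0) (t := univ)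
        (f := fun ω => dat ω) (fun _ _ => Finset.mem_coe.mpr (mem_univ _))
      exact_mod_cast this
    have hle : ∑ _τ : Finset (Finset (Fin N ⊕ Fin R)), 1 / (2 * (Q : ℝ)) * (U.card : ℝ) ^ N ≤
        ∑ τ : Finset (Finset (Fin N ⊕ Fin R)), ((G0.filter (fun ω => dat ω = τ)).card : ℝ) := by
      rw [← hsum, Finset.sum_const, Finset.card_univ, nsmul_eq_mul]
      have e1 : (Fintype.card (Finset (Finset (Fin N ⊕ Fin R))) : ℝ) *
          (1 / (2 * (Q : ℝ)) * (U.card : ℝ) ^ N) = 1 / 2 * (U.card : ℝ) ^ N := by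
        rw [← hQ]
        field_simp
      rw [e1]
      exact hg
    obtain ⟨τ, _, hτ⟩ := Finset.exists_le_of_sum_le Finset.univ_nonempty hle
    exact ⟨τ, hτ⟩
  set G := G0.filter (fun ω => dat ω = τ) with hG
  have hGne : G.Nonempty := by
    rw [← Finset.card_pos]
    have : (0 : ℝ) < (G.card : ℝ) := lt_of_lt_of_le (by positivity) hτ
    exact_mod_cast this
  obtain ⟨ω₀, hω₀⟩ := hGne
  have hgood : ∀ ω ∈ G, ω ∈ Fintype.piFinset (fun _ : Fin N => U) ∧ Function.Injective ω ∧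
      (∀ x r, ω x ≠ e r) ∧ PD k (pl K ω e) (2 * γ) (lft N R) := by
    intro ω hω
    have h3 := (mem_filter.mp hω).1
    rw [hG0, mem_sdiff] at h3
    exact ⟨h3.1, hB1 ω h3.1 h3.2⟩
  have hsame : ∀ ω ∈ G, ∀ T, pl K ω₀ e T → pl K ω e T := by
    intro ω hω T hT
    have e1 : dat ω₀ = τ := (mem_filter.mp hω₀).2
    have e2 : dat ω = τ := (mem_filter.mp hω).2
    have h3 : T ∈ dat ω₀ := mem_filter.mpr ⟨mem_univ _, hT⟩
    rw [e1, ← e2] at h3
    exact (mem_filter.mp h3).2
  refine ⟨pl K ω₀ e, TRKL.cx_pl hK ω₀ e, (hgood ω₀ hω₀).2.2.2, ?_, ?_⟩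
  · intro T hT
    constructor
    · intro a ha b hb hab
      rw [mem_coe, mem_image] at ha hb
      obtain ⟨a', _, rfl⟩ := ha
      obtain ⟨b', _, rfl⟩ := hb
      simp only [Sum.elim_inr] at hab
      rw [he hab]
    · rw [Finset.image_image]
      exact hT
  · -- the blow-up
    obtain ⟨F1, hF1, hF2⟩ : ∃ F1 : Finset (Fin N × Fin s → V),
        (∀ Ω ∈ F1, Ω ∈ Fintype.piFinset (fun _ : Fin N × Fin s => U) ∧
          ∀ φ : Fin N → Fin s, (fun i => Ω (i, φ i)) ∈ G) ∧
        C * (U.card : ℝ) ^ (N * s) ≤ (F1.card : ℝ) := by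
      have hb := h2 (Fin N) V (fun _ => U) G (1 / (2 * (Q : ℝ))) s
        (fun ω hω => (hgood ω hω).1) (by positivity) hs (by
          rw [Finset.prod_const, Finset.card_univ, Fintype.card_fin]
          exact hτ)
      rw [Fintype.card_fin, Finset.prod_const, Finset.card_univ, Fintype.card_fin, ← pow_mul,
        mul_comm s N] at hb
      refine ⟨_, ?_, hb⟩
      intro Ω hΩ
      rw [mem_filter] at hΩ
      exact hΩ
    obtain ⟨F3, hF3, h3⟩ : ∃ F3 : Finset (Fin N × Fin s → V),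
        (∀ Ω ∈ Fintype.piFinset (fun _ : Fin N × Fin s => U), ¬ Function.Injective Ω → Ω ∈ F3) ∧
        F3.card * U.card ≤ (N * s) ^ 2 * U.card ^ (N * s) := by
      have h3 := TRKL.noninj_ex (ι := Fin N × Fin s) U
      rw [Fintype.card_prod, Fintype.card_fin, Fintype.card_fin] at h3
      exact h3
    have hF3c : (F3.card : ℝ) ≤ C / 2 * (U.card : ℝ) ^ (N * s) := by
      have h4 : (F3.card : ℝ) * U.card ≤ ((N * s : ℕ) : ℝ) ^ 2 * (U.card : ℝ) ^ (N * s) := by
        exact_mod_cast h3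
      have h5 : ((N * s : ℕ) : ℝ) ^ 2 ≤ C / 2 * U.card := by
        rw [div_le_iff₀ hC0] at hUbig
        linarith
      have h6 : (F3.card : ℝ) * U.card ≤ (C / 2 * (U.card : ℝ) ^ (N * s)) * U.card := by
        refine h4.trans ?_
        calc ((N * s : ℕ) : ℝ) ^ 2 * (U.card : ℝ) ^ (N * s) ≤
            (C / 2 * U.card) * (U.card : ℝ) ^ (N * s) := by gcongr
          _ = _ := by ring
      exact le_of_mul_le_mul_right h6 hUpos
    have hfin : ∀ F2 : Finset (Fin N × Fin s → V), F1 \ F3 ⊆ F2 →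
        C / 2 * (U.card : ℝ) ^ (N * s) ≤ (F2.card : ℝ) := by
      intro F2 hF
      have h3 := (Finset.le_card_sdiff F3 F1).trans (Finset.card_le_card hF)
      have h4 : F1.card ≤ F2.card + F3.card := by omega
      have h5 : (F1.card : ℝ) ≤ F2.card + F3.card := by exact_mod_cast h4
      linarith
    apply hfin
    intro Ω hΩ
    rw [mem_sdiff] at hΩ
    obtain ⟨hΩ1, hΩ2⟩ := hΩ
    obtain ⟨h3, h4⟩ := hF1 Ω hΩ1
    rw [mem_filter]
    refine ⟨h3, ?_, ?_, ?_⟩
    · by_contra hcon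
      exact hΩ2 (hF3 Ω h3 hcon)
    · rintro ⟨x, a⟩ r
      exact (hgood _ (h4 (fun _ => a))).2.2.1 x r
    · intro T φ hT
      exact (hsame _ (h4 φ) T hT).2

end Pool.Agent.H48.TC
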