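import Pool.Agent.H48.TC.Stm

set_option autoImplicit false

namespace Pool.Agent.H48.TC

open Finset

namespace UPKL

variable {V : Type} [DecidableEq V]

theorem mem_ex {K : Finset V → Prop} {U T : Finset V} {v : V} :
    v ∈ ex K U T ↔ v ∈ U ∧ v ∉ T ∧ K (insert v T) := by
  simp [ex]

theorem ex_sub (K : Finset V → Prop) (U T : Finset V) : ex K U T ⊆ U := by
  intro v hv
  exact (mem_ex.1 hv).1

theorem pd_mono {k : ℕ} {K : Finset V → Prop} {γ γ' : ℝ} {U : Finset V} (hle : γ ≤ γ')
    (h : PD k K γ U) : PD k K γ' U := by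
  intro T hT hc
  refine le_trans ?_ (h T hT hc)
  apply mul_le_mul_of_nonneg_right _ (Nat.cast_nonneg _)
  linarith

/-- edges inside `U` -/
def EU (k : ℕ) (K : Finset V → Prop) (U e : Finset V) : Prop := e ⊆ U ∧ K e ∧ e.card = k

/-- adjacent edges -/
def St (k : ℕ) (K : Finset V → Prop) (U e f : Finset V) : Prop :=
  EU k K U e ∧ EU k K U f ∧ ∃ T, T ⊆ e ∧ T ⊆ f ∧ T.card = k - 1

/-- greedy extension -/
theorem extend {k : ℕ} {K : Finset V → Prop} {U : Finset V} {γ : ℝ}
    (hpos : 0 < (1 - 1 / (k : ℝ) - γ) * (U.card : ℝ)) (hPD : PD k K γ U) :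
    ∀ (j : ℕ) (T : Finset V), K T → T ⊆ U → T.card + j = k → ∃ e, EU k K U e ∧ T ⊆ e := by
  intro j
  induction j with
  | zero =>
    intro T hT hU hc
    exact ⟨T, ⟨hU, hT, by omega⟩, le_rfl⟩
  | succ j ih =>
    intro T hT hU hc
    have h1 := hPD T hT (by omega)
    have h2 : 0 < ((ex K U T).card : ℝ) := lt_of_lt_of_le hpos h1
    have h3 : 0 < (ex K U T).card := by exact_mod_cast h2
    obtain ⟨v, hv⟩ := Finset.card_pos.1 h3
    obtain ⟨hvU, hvT, hvK⟩ := mem_ex.1 hv
    obtain ⟨e, he, hTe⟩ := ih (insert v T) hvK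
      (by intro x hx; rcases Finset.mem_insert.1 hx with h | h
          · rw [h]; exact hvU
          · exact hU h)
      (by rw [Finset.card_insert_of_notMem hvT]; omega)
    exact ⟨e, he, fun x hx => hTe (Finset.mem_insert_of_mem hx)⟩

theorem common {k : ℕ} {K : Finset V → Prop} {U : Finset V} {γ : ℝ}
    (hpos : (U.card : ℝ) < 2 * ((1 - 1 / (k : ℝ) - γ) * (U.card : ℝ))) (hPD : PD k K γ U)
    {S T : Finset V} (hS : K S) (hT : K T) (hSc : S.card < k) (hTc : T.card < k) :
    ∃ v, v ∈ ex K U S ∧ v ∈ ex K U T := by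
  by_contra hcon
  push Not at hcon
  have hdis : Disjoint (ex K U S) (ex K U T) := Finset.disjoint_left.2 hcon
  have h1 : (ex K U S ∪ ex K U T).card ≤ U.card :=
    Finset.card_le_card (Finset.union_subset (ex_sub _ _ _) (ex_sub _ _ _))
  rw [Finset.card_union_of_disjoint hdis] at h1
  have h1' : ((ex K U S).card : ℝ) + ((ex K U T).card : ℝ) ≤ (U.card : ℝ) := by exact_mod_cast h1
  have := hPD S hS hSc
  have := hPD T hT hTc
  linarith

theorem sets_conn {k : ℕ} {K : Finset V → Prop} {U : Finset V} {γ : ℝ} (hCx : Cx k K)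
    (hpos : 0 < (1 - 1 / (k : ℝ) - γ) * (U.card : ℝ))
    (hpos2 : (U.card : ℝ) < 2 * ((1 - 1 / (k : ℝ) - γ) * (U.card : ℝ))) (hPD : PD k K γ U) :
    ∀ (j : ℕ) (T e f : Finset V), K T → T ⊆ e → T ⊆ f → T.card + (j + 1) = k →
      EU k K U e → EU k K U f → Relation.ReflTransGen (St k K U) e f := by
  intro j
  induction j with
  | zero =>
    intro T e f hT hTe hTf hc he hf
    exact Relation.ReflTransGen.single ⟨he, hf, T, hTe, hTf, by omega⟩
  | succ j ih =>
    intro T e f hT hTe hTf hc he hf
    obtain ⟨a, ha, haT⟩ : ∃ a ∈ e, a ∉ T := by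
      by_contra hcon
      push Not at hcon
      have := Finset.card_le_card (show e ⊆ T from hcon)
      have := he.2.2
      omega
    obtain ⟨b, hb, hbT⟩ : ∃ b ∈ f, b ∉ T := by
      by_contra hcon
      push Not at hcon
      have := Finset.card_le_card (show f ⊆ T from hcon)
      have := hf.2.2
      omega
    have haTe : insert a T ⊆ e := Finset.insert_subset ha hTe
    have hbTf : insert b T ⊆ f := Finset.insert_subset hb hTf
    have hKa : K (insert a T) := hCx.sub _ _ he.2.1 haTe
    have hKb : K (insert b T) := hCx.sub _ _ hf.2.1 hbTf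
    have hca : (insert a T).card = T.card + 1 := Finset.card_insert_of_notMem haT
    have hcb : (insert b T).card = T.card + 1 := Finset.card_insert_of_notMem hbT
    obtain ⟨c, hc1, hc2⟩ := common hpos2 hPD hKa hKb (by omega) (by omega)
    obtain ⟨hcU, hcn1, hcK1⟩ := mem_ex.1 hc1
    obtain ⟨_, hcn2, hcK2⟩ := mem_ex.1 hc2
    have haU : insert a T ⊆ U := haTe.trans he.1
    have hbU : insert b T ⊆ U := hbTf.trans hf.1
    obtain ⟨g, hg, hgT⟩ := extend hpos hPD j (insert c (insert a T)) hcK1
      (Finset.insert_subset hcU haU)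
      (by rw [Finset.card_insert_of_notMem hcn1]; omega)
    obtain ⟨h, hh, hhT⟩ := extend hpos hPD j (insert c (insert b T)) hcK2
      (Finset.insert_subset hcU hbU)
      (by rw [Finset.card_insert_of_notMem hcn2]; omega)
    have hcT : c ∉ T := fun hx => hcn1 (Finset.mem_insert_of_mem hx)
    have hcTg : insert c T ⊆ g := by
      intro x hx
      rcases Finset.mem_insert.1 hx with rfl | hx
      · exact hgT (Finset.mem_insert_self _ _)
      · exact hgT (Finset.mem_insert_of_mem (Finset.mem_insert_of_mem hx))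
    have hcTh : insert c T ⊆ h := by
      intro x hx
      rcases Finset.mem_insert.1 hx with rfl | hx
      · exact hhT (Finset.mem_insert_self _ _)
      · exact hhT (Finset.mem_insert_of_mem (Finset.mem_insert_of_mem hx))
    have h1 := ih (insert a T) e g hKa haTe
      (fun x hx => hgT (Finset.mem_insert_of_mem hx)) (by omega) he hg
    have h2 := ih (insert c T) g h (hCx.sub _ _ hg.2.1 hcTg) hcTg hcTh
      (by rw [Finset.card_insert_of_notMem hcT]; omega) hg hh
    have h3 := ih (insert b T) h f hKb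
      (fun x hx => hhT (Finset.mem_insert_of_mem hx)) hbTf (by omega) hh hf
    exact h1.trans (h2.trans h3)

theorem up_symm {k : ℕ} {K : Finset V → Prop} {U : Finset V} {c d : Fin k → V}
    (h : Up k K U c d) : Up k K U d c := by
  obtain ⟨h1, h2, i, hi⟩ := h
  exact ⟨h2, h1, i, fun j hj => (hi j hj).symm⟩

theorem upT_symm {k : ℕ} {K : Finset V → Prop} {U : Finset V} {c d : Fin k → V}
    (h : Relation.ReflTransGen (Up k K U) c d) : Relation.ReflTransGen (Up k K U) d c := by
  induction h with
  | refl => exact Relation.ReflTransGen.refl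
  | tail _ hstep ih => exact Relation.ReflTransGen.head (up_symm hstep) ih

theorem image_card {k : ℕ} {c : Fin k → V} (h : Function.Injective c) :
    (univ.image c).card = k := by
  rw [Finset.card_image_of_injective _ h]; simp

theorem step_fun {k : ℕ} (hk : 3 ≤ k) {K : Finset V → Prop} {U : Finset V} {e f : Finset V}
    (hst : St k K U e f) {c : Fin k → V} (hc : OE k K U c) (hce : univ.image c = e) :
    ∃ d : Fin k → V, OE k K U d ∧ univ.image d = f ∧ Up k K U c d := by
  obtain ⟨he, hf, T, hTe, hTf, hTc⟩ := hst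
  by_cases hef : e = f
  · refine ⟨c, hc, hce.trans hef, hc, hc, ⟨0, by omega⟩, fun _ _ => rfl⟩
  -- `x ∈ e \ T`, `y ∈ f \ T`
  obtain ⟨x, hx⟩ : ∃ x, e \ T = {x} := by
    rw [← Finset.card_eq_one, Finset.card_sdiff_of_subset hTe, he.2.2]; omega
  obtain ⟨y, hy⟩ : ∃ y, f \ T = {y} := by
    rw [← Finset.card_eq_one, Finset.card_sdiff_of_subset hTf, hf.2.2]; omega
  have hxe : x ∈ e ∧ x ∉ T := by
    have : x ∈ e \ T := by rw [hx]; simp
    simpa using this
  have hyf : y ∈ f ∧ y ∉ T := by
    have : y ∈ f \ T := by rw [hy]; simp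
    simpa using this
  have heT : e = insert x T := by
    rw [← Finset.sdiff_union_of_subset hTe, hx]; rfl
  have hfT : f = insert y T := by
    rw [← Finset.sdiff_union_of_subset hTf, hy]; rfl
  have hye : y ∉ e := by
    intro hye
    rw [heT] at hye
    rcases Finset.mem_insert.1 hye with h | h
    · exact hef (by rw [heT, hfT, h])
    · exact hyf.2 h
  obtain ⟨i, -, hi⟩ := Finset.mem_image.1 (hce ▸ hxe.1)
  have hinj : Function.Injective (Function.update c i y) := by
    intro a b hab
    by_cases ha : a = i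
    · by_cases hb : b = i
      · rw [ha, hb]
      · exfalso
        rw [ha, Function.update_self, Function.update_of_ne hb] at hab
        apply hye
        rw [← hce, hab]
        exact Finset.mem_image_of_mem _ (Finset.mem_univ _)
    · by_cases hb : b = i
      · exfalso
        rw [hb, Function.update_self, Function.update_of_ne ha] at hab
        apply hye
        rw [← hce, ← hab]
        exact Finset.mem_image_of_mem _ (Finset.mem_univ _)
      · rw [Function.update_of_ne ha, Function.update_of_ne hb] at hab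
        exact hc.1 hab
  have himg : univ.image (Function.update c i y) = f := by
    apply Finset.eq_of_subset_of_card_le
    · intro z hz
      obtain ⟨a, -, ha⟩ := Finset.mem_image.1 hz
      by_cases hai : a = i
      · rw [hai, Function.update_self] at ha
        rw [← ha]; exact hyf.1
      · rw [Function.update_of_ne hai] at ha
        have hze : z ∈ e := by
          rw [← hce, ← ha]; exact Finset.mem_image_of_mem _ (Finset.mem_univ _)
        have hzx : z ≠ x := by
          rw [← ha, ← hi]
          intro h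
          exact hai (hc.1 h)
        rw [heT] at hze
        rcases Finset.mem_insert.1 hze with h | h
        · exact absurd h hzx
        · exact hTf h
    · rw [image_card hinj, hf.2.2]
  have hOE : OE k K U (Function.update c i y) := by
    refine ⟨hinj, fun a => hf.1 ?_, by rw [himg]; exact hf.2.1⟩
    rw [← himg]; exact Finset.mem_image_of_mem _ (Finset.mem_univ _)
  exact ⟨_, hOE, himg, hc, hOE, i, fun j hj => by rw [Function.update_of_ne hj]⟩

theorem path_fun {k : ℕ} (hk : 3 ≤ k) {K : Finset V → Prop} {U : Finset V} {e f : Finset V}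
    (hst : Relation.ReflTransGen (St k K U) e f) {c : Fin k → V} (hc : OE k K U c)
    (hce : univ.image c = e) :
    ∃ d : Fin k → V, OE k K U d ∧ univ.image d = f ∧ Relation.ReflTransGen (Up k K U) c d := by
  induction hst with
  | refl => exact ⟨c, hc, hce, Relation.ReflTransGen.refl⟩
  | tail _ hstep ih =>
    obtain ⟨d, hd, hde, hcd⟩ := ih
    obtain ⟨d', hd', hde', hdd'⟩ := step_fun hk hstep hd hde
    exact ⟨d', hd', hde', hcd.tail hdd'⟩

theorem swap_path {k : ℕ} {K : Finset V → Prop} {U Q : Finset V} (hQU : Q ⊆ U)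
    (hQ : ∀ T : Finset V, T ⊆ Q → T.card ≤ k → K T) {w : V} (hw : w ∈ Q) {c : Fin k → V}
    (hc : Function.Injective c) (hcQ : ∀ i, c i ∈ Q) (hcw : ∀ i, c i ≠ w) {x y : Fin k}
    (hxy : x ≠ y) : Relation.ReflTransGen (Up k K U) c (c ∘ Equiv.swap x y) := by
  have hOE : ∀ d : Fin k → V, Function.Injective d → (∀ i, d i ∈ Q) → OE k K U d := by
    intro d hd hdQ
    refine ⟨hd, fun i => hQU (hdQ i), hQ _ ?_ ?_⟩
    · intro z hz
      obtain ⟨a, -, ha⟩ := Finset.mem_image.1 hz
      rw [← ha]; exact hdQ a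
    · rw [image_card hd]
  -- the intermediate functions
  let c1 : Fin k → V := fun i => if i = x then w else c i
  let c2 : Fin k → V := fun i => if i = x then w else if i = y then c x else c i
  let c3 : Fin k → V := fun i => if i = x then c y else if i = y then c x else c i
  have h1i : Function.Injective c1 := by
    intro a b hab
    by_cases ha : a = x <;> by_cases hb : b = x <;> simp only [c1, ha, hb, if_true, if_false] at hab
    · rw [ha, hb]
    · exact absurd hab.symm (hcw b)
    · exact absurd hab (hcw a)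
    · exact hc hab
  have h3 : c3 = c ∘ Equiv.swap x y := by
    funext i
    by_cases hi : i = x
    · simp [c3, hi]
    · by_cases hj : i = y
      · simp [c3, hj, Ne.symm hxy]
      · simp [c3, hi, hj, Equiv.swap_apply_of_ne_of_ne hi hj]
  have h3i : Function.Injective c3 := by
    rw [h3]; exact hc.comp (Equiv.injective _)
  have h2i : Function.Injective c2 := by
    intro a b hab
    by_cases ha : a = x <;> by_cases hb : b = x
    · rw [ha, hb]
    · exfalso
      by_cases hb' : b = y
      · simp [c2, ha, hb', Ne.symm hxy] at hab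
        exact hcw x hab.symm
      · simp [c2, ha, hb, hb'] at hab
        exact hcw b hab.symm
    · exfalso
      by_cases ha' : a = y
      · simp [c2, hb, ha', Ne.symm hxy] at hab
        exact hcw x hab
      · simp [c2, ha, hb, ha'] at hab
        exact hcw a hab
    · have e1 : c2 a = c3 a := by simp [c2, c3, ha]
      have e2 : c2 b = c3 b := by simp [c2, c3, hb]
      rw [e1, e2] at hab
      exact h3i hab
  have h1Q : ∀ i, c1 i ∈ Q := by
    intro i; simp only [c1]; split_ifs
    · exact hw
    · exact hcQ i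
  have h2Q : ∀ i, c2 i ∈ Q := by
    intro i; simp only [c2]; split_ifs
    · exact hw
    · exact hcQ x
    · exact hcQ i
  have h3Q : ∀ i, c3 i ∈ Q := by
    intro i; simp only [c3]; split_ifs
    · exact hcQ y
    · exact hcQ x
    · exact hcQ i
  have s1 : Up k K U c c1 := ⟨hOE c hc hcQ, hOE c1 h1i h1Q, x, fun j hj => by simp [c1, hj]⟩
  have s2 : Up k K U c1 c2 := ⟨hOE c1 h1i h1Q, hOE c2 h2i h2Q, y, fun j hj => by simp [c1, c2, hj]⟩
  have s3 : Up k K U c2 c3 := ⟨hOE c2 h2i h2Q, hOE c3 h3i h3Q, x, fun j hj => by simp [c2, c3, hj]⟩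
  rw [← h3]
  exact ((Relation.ReflTransGen.single s1).tail s2).tail s3

theorem perm_path {k : ℕ} {K : Finset V → Prop} {U Q : Finset V} (hQU : Q ⊆ U)
    (hQ : ∀ T : Finset V, T ⊆ Q → T.card ≤ k → K T) {w : V} (hw : w ∈ Q) (σ : Equiv.Perm (Fin k)) :
    ∀ c : Fin k → V, Function.Injective c → (∀ i, c i ∈ Q) → (∀ i, c i ≠ w) →
      Relation.ReflTransGen (Up k K U) c (c ∘ σ) := by
  induction σ using Equiv.Perm.swap_induction_on with
  | one => intro c _ _ _; exact Relation.ReflTransGen.refl
  | swap_mul f x y hxy ih =>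
    intro c hc hcQ hcw
    have h1 := swap_path hQU hQ hw hc hcQ hcw hxy
    have h2 := ih (c ∘ Equiv.swap x y) (hc.comp (Equiv.injective _)) (fun i => hcQ _)
      (fun i => hcw _)
    have : (c ∘ Equiv.swap x y) ∘ f = c ∘ (Equiv.swap x y * f) := rfl
    rw [this] at h2
    exact h1.trans h2

end UPKL

open UPKL

theorem upk (h : S_KK1) : S_UPK := by
  intro k hk
  obtain ⟨γ₁, n₁, hγ₁, H⟩ := h k hk
  refine ⟨min γ₁ (1 / 12), max n₁ 1, lt_min hγ₁ (by norm_num), ?_⟩
  intro V _ _ K U hCx hn hPD c d hc hd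
  set γ := min γ₁ (1 / 12 : ℝ) with hγ
  have hγ12 : γ ≤ 1 / 12 := min_le_right _ _
  have hγγ₁ : γ ≤ γ₁ := min_le_left _ _
  have hU1 : (1 : ℝ) ≤ (U.card : ℝ) := by exact_mod_cast le_trans (le_max_right _ _) hn
  have hk3 : (3 : ℝ) ≤ (k : ℝ) := by exact_mod_cast hk
  have hkinv : 1 / (k : ℝ) ≤ 1 / 3 := by
    apply one_div_le_one_div_of_le (by norm_num) hk3
  have hcoef : 1 / 2 < 1 - 1 / (k : ℝ) - γ := by linarith
  have hpos : 0 < (1 - 1 / (k : ℝ) - γ) * (U.card : ℝ) := by
    apply mul_pos <;> linarith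
  have hpos2 : (U.card : ℝ) < 2 * ((1 - 1 / (k : ℝ) - γ) * (U.card : ℝ)) := by
    nlinarith
  obtain ⟨Q, hQU, hQc, hQ⟩ := H V K U hCx (le_trans (le_max_left _ _) hn) (pd_mono hγγ₁ hPD)
  obtain ⟨w, hw⟩ : Q.Nonempty := by
    rw [← Finset.card_pos, hQc]; omega
  have hQ0c : (Q.erase w).card = k := by rw [Finset.card_erase_of_mem hw, hQc]; rfl
  have hQ0 : EU k K U (Q.erase w) :=
    ⟨(Finset.erase_subset _ _).trans hQU, hQ _ (Finset.erase_subset _ _) hQ0c.le, hQ0c⟩
  have conn : ∀ c : Fin k → V, OE k K U c → ∃ c' : Fin k → V, OE k K U c' ∧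
      univ.image c' = Q.erase w ∧ Relation.ReflTransGen (Up k K U) c c' := by
    intro c hc
    have he : EU k K U (univ.image c) := by
      refine ⟨?_, hc.2.2, image_card hc.1⟩
      intro z hz
      obtain ⟨a, -, ha⟩ := Finset.mem_image.1 hz
      rw [← ha]; exact hc.2.1 a
    have := sets_conn hCx hpos hpos2 hPD (k - 1) ∅ (univ.image c) (Q.erase w) hCx.emp
      (Finset.empty_subset _) (Finset.empty_subset _) (by simp; omega) he hQ0
    exact path_fun hk this hc rfl
  obtain ⟨c', hc', hcQ, hcc'⟩ := conn c hc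
  obtain ⟨d', hd', hdQ, hdd'⟩ := conn d hd
  have hmem : ∀ i, ∃ j, c' j = d' i := by
    intro i
    have : d' i ∈ univ.image c' := by
      rw [hcQ, ← hdQ]; exact Finset.mem_image_of_mem _ (Finset.mem_univ _)
    obtain ⟨j, -, hj⟩ := Finset.mem_image.1 this
    exact ⟨j, hj⟩
  choose s hs using hmem
  have hsi : Function.Injective s := by
    intro a b hab
    apply hd'.1
    rw [← hs a, ← hs b, hab]
  let σ : Equiv.Perm (Fin k) := Equiv.ofBijective s (Finite.injective_iff_bijective.1 hsi)
  have hσ : c' ∘ σ = d' := by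
    funext i
    exact hs i
  have hmemQ : ∀ i, c' i ∈ Q.erase w := by
    intro i
    rw [← hcQ]; exact Finset.mem_image_of_mem _ (Finset.mem_univ _)
  have hp := perm_path hQU hQ hw σ c' hc'.1 (fun i => Finset.mem_of_mem_erase (hmemQ i))
    (fun i => Finset.ne_of_mem_erase (hmemQ i))
  rw [hσ] at hp
  exact hcc'.trans (hp.trans (upT_symm hdd'))

end Pool.Agent.H48.TC
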