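import Pool.Agent.H48.TC.Stm
import Pool.Agent.H48.PW.WLK

/-!
# [WLKK] tight walks of bounded length
-/

set_option autoImplicit false

namespace Pool.Agent.H48.TC

open Finset Pool.Agent.H48.PW

namespace WLKKL

variable {V : Type} [DecidableEq V] {k : ℕ} {K : Finset V → Prop}

/-- members given by sublists -/
theorem sub_list (hK : Cx k K) {l m : List V} (h : l.Sublist m) (hm : K m.toFinset) :
    K l.toFinset := by
  apply hK.sub _ _ hm
  intro x hx
  rw [List.mem_toFinset] at hx ⊢
  exact h.subset hx

/-- every sublist of a list which is a member is a tight walk -/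
theorem tw_of_mem (hK : Cx k K) {l : List V} (h : l.Nodup) (hl : K l.toFinset) : TW K k l := by
  constructor
  · intro i
    exact sub_list hK ((List.take_sublist _ _).trans (List.drop_sublist _ _)) hl
  · intro i
    exact h.sublist ((List.take_sublist _ _).trans (List.drop_sublist _ _))

/-- one more point in front -/
theorem tw_cons (hk : 1 ≤ k) {l : List V} (h : TW K k l) {v : V}
    (hv : v ∉ l.take (k - 1)) (hKv : K (insert v (l.take (k - 1)).toFinset)) :
    TW K k (v :: l) := by
  obtain ⟨j, rfl⟩ : ∃ j, k = j + 1 := ⟨k - 1, by omega⟩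
  simp only [Nat.add_sub_cancel] at hv hKv
  constructor
  · intro i
    cases i with
    | zero => simpa using hKv
    | succ i => simpa using h.1 i
  · intro i
    cases i with
    | zero =>
      have h0 := h.2 0
      rw [List.drop_zero] at h0
      rw [List.drop_zero, List.take_succ_cons, List.nodup_cons]
      refine ⟨hv, h0.sublist ?_⟩
      exact List.take_sublist_take_left (Nat.le_succ j)
    | succ i => simpa using h.2 i

omit [DecidableEq V] in
/-- the windows of a list with one more point at the end -/
theorem window_snoc (hk : 1 ≤ k) (l : List V) (v : V) (i : ℕ) :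
    (((l ++ [v]).drop i).take k = (l.drop i).take k) ∨
    (((l ++ [v]).drop i).take k = l.drop i ++ [v] ∧ i ≤ l.length ∧ l.length - i ≤ k - 1) := by
  by_cases hi : i ≤ l.length
  · rw [List.drop_append_of_le_length hi]
    by_cases h2 : l.length - i ≤ k - 1
    · right
      refine ⟨?_, hi, h2⟩
      apply List.take_of_length_le
      rw [List.length_append, List.length_drop, List.length_singleton]
      omega
    · left
      rw [List.take_append_of_le_length]
      rw [List.length_drop]
      omega
  · left
    rw [List.drop_eq_nil_of_le (by rw [List.length_append, List.length_singleton]; omega),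
      List.drop_eq_nil_of_le (by omega)]

/-- one more point at the end -/
theorem tw_snoc (hK : Cx k K) (hk : 1 ≤ k) {l : List V} (h : TW K k l) {v : V}
    (hv : v ∉ l.drop (l.length - (k - 1)))
    (hKv : K (insert v (l.drop (l.length - (k - 1))).toFinset)) :
    TW K k (l ++ [v]) := by
  have hsub : ∀ i, i ≤ l.length → l.length - i ≤ k - 1 →
      (l.drop i).Sublist (l.drop (l.length - (k - 1))) := by
    intro i hi h2
    have : l.drop i = (l.drop (l.length - (k - 1))).drop (i - (l.length - (k - 1))) := by
      rw [List.drop_drop]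
      congr 1
      omega
    rw [this]
    exact List.drop_sublist _ _
  constructor
  · intro i
    rcases window_snoc hk l v i with h1 | ⟨h1, hi, h2⟩
    · rw [h1]
      exact h.1 i
    · rw [h1]
      apply hK.sub _ _ hKv
      intro x hx
      rw [List.mem_toFinset, List.mem_append, List.mem_singleton] at hx
      rw [mem_insert, List.mem_toFinset]
      rcases hx with hx | hx
      · exact Or.inr ((hsub i hi h2).subset hx)
      · exact Or.inl hx
  · intro i
    rcases window_snoc hk l v i with h1 | ⟨h1, hi, h2⟩
    · rw [h1]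
      exact h.2 i
    · rw [h1]
      have h3 := h.2 i
      rw [List.take_of_length_le (by rw [List.length_drop]; omega)] at h3
      rw [List.nodup_append]
      refine ⟨h3, List.nodup_singleton v, ?_⟩
      intro x hx y hy hxy
      rw [List.mem_singleton] at hy
      rw [hxy, hy] at hx
      exact hv ((hsub i hi h2).subset hx)

/-- gluing -/
theorem tw_glue {x m y : List V} (h1 : TW K k (x ++ m)) (h2 : TW K k (m ++ y))
    (hm : k - 1 ≤ m.length) : TW K k (x ++ m ++ y) := by
  have key : ∀ i, (((x ++ m ++ y).drop i).take k = ((x ++ m).drop i).take k) ∨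
      (∃ j, ((x ++ m ++ y).drop i).take k = ((m ++ y).drop j).take k) := by
    intro i
    by_cases hi : i < x.length
    · left
      rw [List.drop_append_of_le_length (by rw [List.length_append]; omega),
        List.take_append_of_le_length]
      rw [List.length_drop, List.length_append]
      omega
    · right
      refine ⟨i - x.length, ?_⟩
      rw [List.append_assoc, List.drop_append, List.drop_eq_nil_of_le (by omega), List.nil_append]
  constructor
  · intro i
    rcases key i with h | ⟨j, h⟩
    · rw [h]; exact h1.1 i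
    · rw [h]; exact h2.1 j
  · intro i
    rcases key i with h | ⟨j, h⟩
    · rw [h]; exact h1.2 i
    · rw [h]; exact h2.2 j

/-- an ordered edge as a list -/
theorem oe_nodup {U : Finset V} {c : Fin k → V} (hc : OE k K U c) : (List.ofFn c).Nodup :=
  List.nodup_ofFn.2 hc.1

theorem oe_mem {U : Finset V} {c : Fin k → V} (hc : OE k K U c) : K (List.ofFn c).toFinset := by
  have : (List.ofFn c).toFinset = univ.image c := by
    ext x
    rw [List.mem_toFinset, List.mem_ofFn, mem_image]
    constructor
    · rintro ⟨i, hi⟩
      exact ⟨i, mem_univ _, hi⟩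
    · rintro ⟨i, -, hi⟩
      exact ⟨i, hi⟩
  rw [this]
  exact hc.2.2

/-- rotated lists -/
theorem rot {l : List V} (hl : l.Nodup) (hKl : K l.toFinset) (i : ℕ) :
    (l.drop i ++ l.take i).Nodup ∧ K (l.drop i ++ l.take i).toFinset := by
  have hp : (l.drop i ++ l.take i).Perm l := by
    have h1 : (l.drop i ++ l.take i).Perm (l.take i ++ l.drop i) := List.perm_append_comm
    rwa [List.take_append_drop] at h1
  refine ⟨hp.nodup_iff.2 hl, ?_⟩
  have : (l.drop i ++ l.take i).toFinset = l.toFinset := by
    ext x
    rw [List.mem_toFinset, List.mem_toFinset]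
    exact hp.mem_iff
  rw [this]
  exact hKl

/-- two consecutive ordered edges -/
theorem tw_up (hK : Cx k K) {U : Finset V} {c d : Fin k → V}
    (h : Up k K U c d ∨ (OE k K U c ∧ c = d)) : TW K k (List.ofFn c ++ List.ofFn d) := by
  have hc : OE k K U c := by
    rcases h with h | h
    · exact h.1
    · exact h.1
  have hd : OE k K U d := by
    rcases h with h | h
    · exact h.2.1
    · exact h.2 ▸ h.1
  obtain ⟨p, hp⟩ : ∃ p : ℕ, ∀ j : Fin k, (j : ℕ) ≠ p → d j = c j := by
    rcases h with ⟨-, -, i, hi⟩ | ⟨-, rfl⟩
    · exact ⟨i, fun j hj => hi j (fun h => hj (by rw [h]))⟩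
    · exact ⟨0, fun _ _ => rfl⟩
  have hlen : (List.ofFn c).length = k := List.length_ofFn
  have hlend : (List.ofFn d).length = k := List.length_ofFn
  -- the windows
  have key : ∀ i, (((List.ofFn c ++ List.ofFn d).drop i).take k).Nodup ∧
      K (((List.ofFn c ++ List.ofFn d).drop i).take k).toFinset := by
    intro i
    by_cases hi : i ≤ k
    · have h1 : ((List.ofFn c ++ List.ofFn d).drop i).take k =
          (List.ofFn c).drop i ++ (List.ofFn d).take i := by
        rw [List.drop_append_of_le_length (by omega), List.take_append,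
          List.take_of_length_le (by rw [List.length_drop]; omega), List.length_drop]
        congr 2
        omega
      rw [h1]
      by_cases hpi : p < i
      · have h2 : (List.ofFn c).drop i = (List.ofFn d).drop i := by
          apply List.ext_getElem
          · simp
          · intro n h3 h4
            rw [List.getElem_drop, List.getElem_drop, List.getElem_ofFn, List.getElem_ofFn]
            exact (hp _ (by simp only; omega)).symm
        rw [h2]
        exact rot (oe_nodup hd) (oe_mem hd) i
      · have h2 : (List.ofFn d).take i = (List.ofFn c).take i := by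
          apply List.ext_getElem
          · simp
          · intro n h3 h4
            rw [List.getElem_take, List.getElem_take, List.getElem_ofFn, List.getElem_ofFn]
            rw [List.length_take] at h3
            exact hp _ (by simp only; omega)
        rw [h2]
        exact rot (oe_nodup hc) (oe_mem hc) i
    · have h1 : (List.ofFn c ++ List.ofFn d).drop i = (List.ofFn d).drop (i - k) := by
        rw [List.drop_append, List.drop_eq_nil_of_le (by omega), List.nil_append, hlen]
      rw [h1]
      have hs : (((List.ofFn d).drop (i - k)).take k).Sublist (List.ofFn d) :=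
        (List.take_sublist _ _).trans (List.drop_sublist _ _)
      exact ⟨(oe_nodup hd).sublist hs, sub_list hK hs (oe_mem hd)⟩
  exact ⟨fun i => (key i).2, fun i => (key i).1⟩

/-- the walk between two ordered edges -/
theorem walk_one (hK : Cx k K) {U : Finset V} {c d : Fin k → V} (hc : OE k K U c)
    (h : Relation.ReflTransGen (Up k K U) c d) :
    ∃ w : List V, (∀ x ∈ w, x ∈ U) ∧ TW K k (List.ofFn c ++ w ++ List.ofFn d) := by
  induction h with
  | refl => exact ⟨[], by simp, by
      rw [List.append_nil]; exact tw_up hK (Or.inr ⟨hc, rfl⟩)⟩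
  | @tail d e _ h2 ih =>
    obtain ⟨w, hw, hwp⟩ := ih
    refine ⟨w ++ List.ofFn d, ?_, ?_⟩
    · intro x hx
      rcases List.mem_append.1 hx with hx | hx
      · exact hw x hx
      · rw [List.mem_ofFn] at hx
        obtain ⟨i, rfl⟩ := hx
        exact h2.1.2.1 i
    · have h3 : TW K k (List.ofFn d ++ List.ofFn e) := tw_up hK (Or.inl h2)
      have := tw_glue hwp h3 (by simp)
      simpa [List.append_assoc] using this

/-- extension by a vertex -/
theorem ext {γ : ℝ} {U : Finset V} (hP : PD k K γ U)
    (hpos : 0 < (1 - 1 / (k : ℝ) - γ) * (U.card : ℝ)) {T : Finset V} (hT : K T)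
    (hTc : T.card < k) : ∃ v ∈ U, v ∉ T ∧ K (insert v T) := by
  classical
  have h1 := hP T hT hTc
  have h2 : 0 < (ex K U T).card := by
    have : (0 : ℝ) < ((ex K U T).card : ℝ) := lt_of_lt_of_le hpos h1
    exact_mod_cast this
  obtain ⟨v, hv⟩ := card_pos.1 h2
  simp only [ex, mem_filter] at hv
  exact ⟨v, hv.1, hv.2⟩

theorem card_toFinset_le (l : List V) : l.toFinset.card ≤ l.length := List.toFinset_card_le l

/-- `n` more points at the end -/
theorem snocs (hK : Cx k K) (hk : 1 ≤ k) {γ : ℝ} {U : Finset V} (hP : PD k K γ U)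
    (hpos : 0 < (1 - 1 / (k : ℝ) - γ) * (U.card : ℝ)) {a : List V} (ha : TW K k a) :
    ∀ n : ℕ, ∃ c : List V, c.length = n ∧ (∀ x ∈ c, x ∈ U) ∧ TW K k (a ++ c) := by
  intro n
  induction n with
  | zero => exact ⟨[], rfl, by simp, by rwa [List.append_nil]⟩
  | succ n ih =>
    obtain ⟨c, hcl, hcU, hct⟩ := ih
    have hlen : ((a ++ c).drop ((a ++ c).length - (k - 1))).length ≤ k - 1 := by
      rw [List.length_drop]; omega
    obtain ⟨v, hvU, hv, hKv⟩ := ext hP hpos
      (T := ((a ++ c).drop ((a ++ c).length - (k - 1))).toFinset)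
      (by
        have := hct.1 ((a ++ c).length - (k - 1))
        rwa [List.take_of_length_le (by omega)] at this)
      (lt_of_le_of_lt (List.toFinset_card_le _) (by omega))
    refine ⟨c ++ [v], by rw [List.length_append, hcl]; rfl, ?_, ?_⟩
    · intro x hx
      rcases List.mem_append.1 hx with hx | hx
      · exact hcU x hx
      · rw [List.mem_singleton] at hx
        rw [hx]; exact hvU
    · rw [← List.append_assoc]
      exact tw_snoc hK hk hct (fun h => hv (List.mem_toFinset.2 h)) hKv

/-- `n` more points in front -/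
theorem conses (hk : 1 ≤ k) {γ : ℝ} {U : Finset V} (hP : PD k K γ U)
    (hpos : 0 < (1 - 1 / (k : ℝ) - γ) * (U.card : ℝ)) (hK : Cx k K) {b : List V}
    (hb : TW K k b) :
    ∀ n : ℕ, ∃ c : List V, c.length = n ∧ (∀ x ∈ c, x ∈ U) ∧ TW K k (c ++ b) := by
  intro n
  induction n with
  | zero => exact ⟨[], rfl, by simp, by rwa [List.nil_append]⟩
  | succ n ih =>
    obtain ⟨c, hcl, hcU, hct⟩ := ih
    obtain ⟨v, hvU, hv, hKv⟩ := ext hP hpos (T := ((c ++ b).take (k - 1)).toFinset)
      (by
        have := hct.1 0
        rw [List.drop_zero] at this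
        exact sub_list hK (List.take_sublist_take_left (by omega)) this)
      (lt_of_le_of_lt (List.toFinset_card_le _) (by rw [List.length_take]; omega))
    refine ⟨v :: c, by rw [List.length_cons, hcl], ?_, ?_⟩
    · intro x hx
      rcases List.mem_cons.1 hx with hx | hx
      · rw [hx]; exact hvU
      · exact hcU x hx
    · rw [List.cons_append]
      exact tw_cons hk hct (fun h => hv (List.mem_toFinset.2 h)) hKv

/-- a list as an ordered edge -/
theorem list_oe {U : Finset V} {c : List V} (hl : c.length = k) (hn : c.Nodup)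
    (hU : ∀ x ∈ c, x ∈ U) (hKc : K c.toFinset) :
    ∃ f : Fin k → V, OE k K U f ∧ List.ofFn f = c := by
  subst hl
  refine ⟨c.get, ⟨?_, fun i => hU _ (List.get_mem c i), ?_⟩, List.ofFn_get c⟩
  · exact List.nodup_iff_injective_get.1 hn
  · have : univ.image c.get = c.toFinset := by
      ext x
      rw [mem_image, List.mem_toFinset, List.mem_iff_get]
      constructor
      · rintro ⟨i, -, hi⟩
        exact ⟨i, hi⟩
      · rintro ⟨i, hi⟩
        exact ⟨i, mem_univ _, hi⟩
    rw [this]
    exact hKc

theorem tw_right {x y : List V} (h : TW K k (x ++ y)) : TW K k y := by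
  have key : ∀ i, (y.drop i) = (x ++ y).drop (x.length + i) := by
    intro i
    rw [← List.drop_drop, List.drop_left]
  exact ⟨fun i => by rw [key]; exact h.1 _, fun i => by rw [key]; exact h.2 _⟩

theorem lft_card (N R : ℕ) : (lft N R).card = N := by
  unfold lft
  rw [card_image_of_injective _ Sum.inl_injective, card_univ, Fintype.card_fin]

end WLKKL

open WLKKL in
theorem wlkk (h : S_UPK) : S_WLKK := by
  intro k hk
  obtain ⟨γ₁, n₀, hγ₁, hup⟩ := h k hk
  refine ⟨min γ₁ (1 / 12), max n₀ 1, lt_min hγ₁ (by norm_num), fun N R hN => ?_⟩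
  have hN0 : n₀ ≤ N := le_trans (le_max_left _ _) hN
  have hN1 : 1 ≤ N := le_trans (le_max_right _ _) hN
  obtain ⟨L, hL⟩ := WLKL.unif (α := (Finset (Fin N ⊕ Fin R) → Prop) × (Fin (k - 1) → Fin N ⊕ Fin R)
      × (Fin (k - 1) → Fin N ⊕ Fin R))
    (fun q m => ∃ w : List (Fin N ⊕ Fin R), w.length ≤ m ∧ (∀ x ∈ w, x ∈ lft N R) ∧
      TW q.1 k (List.ofFn q.2.1 ++ w ++ List.ofFn q.2.2))
    (by
      rintro a m n hmn ⟨w, h1, h2⟩
      exact ⟨w, h1.trans hmn, h2⟩)
  refine ⟨L, fun Γ hΓ hP a b hal hbl han hbn haK hbK => ?_⟩
  have hcard : ((lft N R).card : ℝ) = N := by rw [lft_card]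
  have hk3 : (3 : ℝ) ≤ k := by exact_mod_cast hk
  have hkinv : 1 / (k : ℝ) ≤ 1 / 3 := by
    apply one_div_le_one_div_of_le (by norm_num) hk3
  have hpos : 0 < (1 - 1 / (k : ℝ) - min γ₁ (1 / 12)) * ((lft N R).card : ℝ) := by
    apply mul_pos
    · have : min γ₁ (1 / 12) ≤ 1 / 12 := min_le_right _ _
      linarith
    · rw [hcard]
      exact_mod_cast hN1
  have hP1 : PD k Γ γ₁ (lft N R) := by
    intro T hT hTc
    refine le_trans ?_ (hP T hT hTc)
    apply mul_le_mul_of_nonneg_right _ (Nat.cast_nonneg _)
    have : min γ₁ (1 / 12) ≤ γ₁ := min_le_left _ _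
    linarith
  obtain ⟨c, hcl, hcU, hct⟩ := snocs hΓ (by omega) hP hpos (tw_of_mem hΓ han haK) k
  obtain ⟨d, hdl, hdU, hdt⟩ := conses (by omega) hP hpos hΓ (tw_of_mem hΓ hbn hbK) k
  have hc2 := tw_right hct
  have hcn : c.Nodup := by
    have := hc2.2 0
    rwa [List.drop_zero, List.take_of_length_le (by omega)] at this
  have hcK : Γ c.toFinset := by
    have := hc2.1 0
    rwa [List.drop_zero, List.take_of_length_le (by omega)] at this
  have hdn : d.Nodup := by
    have := hdt.2 0
    rwa [List.drop_zero, List.take_append_of_le_length (by omega),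
      List.take_of_length_le (by omega)] at this
  have hdK : Γ d.toFinset := by
    have := hdt.1 0
    rwa [List.drop_zero, List.take_append_of_le_length (by omega),
      List.take_of_length_le (by omega)] at this
  obtain ⟨f, hf, hfc⟩ := list_oe hcl hcn hcU hcK
  obtain ⟨g, hg, hgd⟩ := list_oe hdl hdn hdU hdK
  obtain ⟨w, hwU, hwt⟩ := walk_one hΓ hf
    (hup _ Γ (lft N R) hΓ (by rw [lft_card]; exact hN0) hP1 f g hf hg)
  rw [hfc, hgd] at hwt
  have h1 : TW Γ k (a ++ (c ++ w ++ d)) := by
    have := tw_glue (x := a) (m := c) (y := w ++ d) hct (by rwa [← List.append_assoc]) (by omega)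
    simpa [List.append_assoc] using this
  have h2 : TW Γ k (a ++ (c ++ w ++ d) ++ b) := by
    have := tw_glue (x := a ++ c ++ w) (m := d) (y := b) (by simpa [List.append_assoc] using h1)
      hdt (by omega)
    simpa [List.append_assoc] using this
  have hae : List.ofFn (fun i : Fin (k - 1) => a.get (i.cast hal.symm)) = a := by
    apply List.ext_getElem
    · simp [hal]
    · intro n h3 h4
      rw [List.getElem_ofFn]
      rfl
  have hbe : List.ofFn (fun i : Fin (k - 1) => b.get (i.cast hbl.symm)) = b := by
    apply List.ext_getElem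
    · simp [hbl]
    · intro n h3 h4
      rw [List.getElem_ofFn]
      rfl
  have := hL (Γ, fun i : Fin (k - 1) => a.get (i.cast hal.symm),
    fun i : Fin (k - 1) => b.get (i.cast hbl.symm)) ⟨(c ++ w ++ d).length, c ++ w ++ d, le_rfl, by
      intro x hx
      rcases List.mem_append.1 hx with hx | hx
      · rcases List.mem_append.1 hx with hx | hx
        · exact hcU x hx
        · exact hwU x hx
      · exact hdU x hx, by
      simp only [hae, hbe]
      exact h2⟩
  simp only [hae, hbe] at this
  exact this

end Pool.Agent.H48.TC
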