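import Pool.Agent.H48.TC.Stm

set_option autoImplicit false

namespace Pool.Agent.H48.TC

open Finset Pool.Agent.H48.PW Pool.Agent.Helper83K9.CF

namespace XSEGL

variable {V : Type} [Fintype V] [DecidableEq V]

/-- the structure is monotone in `c` -/
theorem xs_mono {k : ℕ} {K : Finset V → Prop} {c₁ c c' : ℝ} {Y Ys Xs : Finset V}
    (h : XS k K c₁ c Y Ys Xs) (hc : c ≤ c') : XS k K c₁ c' Y Ys Xs := by
  have hn : c * (Fintype.card V : ℝ) ≤ c' * (Fintype.card V : ℝ) :=
    mul_le_mul_of_nonneg_right hc (Nat.cast_nonneg _)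
  exact ⟨h.ys, h.xs, h.cY.trans hn, h.cYs.trans hn, h.cXs.trans hn, h.ext,
    fun y hy T hT hyT hk => (h.exts y hy T hT hyT hk).trans hn,
    fun x hx => (h.xtp x hx).trans hn, h.xall, h.ydeg⟩

omit [Fintype V] in
/-- distinct representatives outside of `B` -/
theorem sdr {ι : Type} [Fintype ι] (A : ι → Finset V) (B : Finset V)
    (h : ∀ i, B.card + Fintype.card ι ≤ (A i).card) :
    ∃ f : ι → V, Function.Injective f ∧ ∀ i, f i ∈ A i ∧ f i ∉ B := by
  have h1 : ∀ s : Finset ι, s.card ≤ (s.biUnion (fun i => A i \ B)).card := by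
    intro s
    rcases s.eq_empty_or_nonempty with rfl | ⟨i, hi⟩
    · simp
    · have h2 : (A i \ B).card ≤ (s.biUnion (fun i => A i \ B)).card :=
        card_le_card (subset_biUnion_of_mem (fun i => A i \ B) hi)
      have h3 : (A i).card - B.card ≤ (A i \ B).card := le_card_sdiff _ _
      have h4 := h i
      have h5 : s.card ≤ Fintype.card ι := card_le_univ s
      omega
  obtain ⟨f, hf, hf2⟩ := (Finset.all_card_le_biUnion_card_iff_exists_injective _).1 h1
  exact ⟨f, hf, fun i => mem_sdiff.1 (hf2 i)⟩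

/-- a segment with pool `Q` is a segment with a larger pool -/
theorem seg_mono {k : ℕ} {K : Finset V → Prop} {g : ℝ} {Y Q Q' Z : Finset V} {m : ℕ} {s : List V}
    (h : Seg k K g Y Q Z m s) (hQ : Q ⊆ Q') : Seg k K g Y Q' Z m s :=
  ⟨h.nd, h.tp, h.len, h.fst, h.lst, fun v hv => (h.mem v hv).imp (fun h => hQ h) id, h.all⟩

/-- the requests can be served one after the other -/
theorem serve {ι : Type} [DecidableEq ι] {k : ℕ} {K : Finset V → Prop} {g b : ℝ} {Y Xs : Finset V}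
    (Z : ι → Finset V) (m : ι → ℕ) (hZ : ∀ i j, i ≠ j → Disjoint (Z i) (Z j))
    (hZX : ∀ i, Disjoint (Z i) Xs)
    (hs : ∀ i, ∀ Q : Finset V, Q ⊆ Xs → (Xs.card : ℝ) ≤ (Q.card : ℝ) + b →
      ∃ s, Seg k K g Y Q (Z i) (m i) s) :
    ∀ (L : List ι), L.Nodup → ∀ U : Finset V, U ⊆ Xs →
      (Xs.card : ℝ) + ((L.map m).sum : ℕ) ≤ (U.card : ℝ) + b →
      ∃ S : ι → List V, (∀ i ∈ L, Seg k K g Y U (Z i) (m i) (S i)) ∧ (L.map S).flatten.Nodup := by
  intro L
  induction L with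
  | nil =>
    intro _ U _ _
    exact ⟨fun _ => [], by simp, by simp⟩
  | cons i L ih =>
    intro hnd U hU hc
    rw [List.nodup_cons] at hnd
    rw [List.map_cons, List.sum_cons, Nat.cast_add] at hc
    have h0 : (0 : ℝ) ≤ ((L.map m).sum : ℕ) := Nat.cast_nonneg _
    have h1 : (0 : ℝ) ≤ (m i : ℕ) := Nat.cast_nonneg _
    obtain ⟨s, hseg⟩ := hs i U hU (by linarith)
    have hcard : (U.card : ℝ) ≤ ((U \ s.toFinset).card : ℝ) + (m i : ℕ) := by
      have h2 : U.card - s.toFinset.card ≤ (U \ s.toFinset).card := le_card_sdiff _ _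
      have h3 : s.toFinset.card = m i := by
        rw [List.toFinset_card_of_nodup hseg.nd, hseg.len]
      have h4 : U.card ≤ (U \ s.toFinset).card + m i := by omega
      exact_mod_cast h4
    obtain ⟨S, hS1, hS2⟩ := ih hnd.2 (U \ s.toFinset) (sdiff_subset.trans hU) (by linarith)
    refine ⟨Function.update S i s, ?_, ?_⟩
    · intro j hj
      rcases List.mem_cons.1 hj with rfl | hj'
      · rw [Function.update_self]
        exact hseg
      · have hne : j ≠ i := fun h => hnd.1 (h ▸ hj')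
        rw [Function.update_of_ne hne]
        exact seg_mono (hS1 j hj') sdiff_subset
    · have hmap : L.map (Function.update S i s) = L.map S := by
        apply List.map_congr_left
        intro j hj
        have hne : j ≠ i := fun h => hnd.1 (h ▸ hj)
        rw [Function.update_of_ne hne]
      rw [List.map_cons, Function.update_self, hmap, List.flatten_cons, List.nodup_append]
      refine ⟨hseg.nd, hS2, ?_⟩
      intro v hv w hw hvw
      subst hvw
      rw [List.mem_flatten] at hw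
      obtain ⟨l, hl, hvl⟩ := hw
      rw [List.mem_map] at hl
      obtain ⟨j, hj, rfl⟩ := hl
      have hne : i ≠ j := fun h => hnd.1 (h ▸ hj)
      rcases (hS1 j hj).mem v hvl with h | h
      · exact (mem_sdiff.1 h).2 (List.mem_toFinset.2 hv)
      · rcases hseg.mem v hv with h' | h'
        · exact (disjoint_left.1 (hZX j) h) (hU h')
        · exact (disjoint_left.1 (hZ i j hne) h') h

/-- the segments obtained from a complete system of requests -/
theorem finish {ι : Type} [Fintype ι] [DecidableEq ι] {k : ℕ} {K : Finset V → Prop} {g b : ℝ}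
    {Y Ys Xs : Finset V} (hk : 3 ≤ k) (hYs : Ys ⊆ Y) (hXs : Disjoint Xs Y)
    (Z : ι → Finset V) (m y : ι → ℕ) (hZ : ∀ i j, i ≠ j → Disjoint (Z i) (Z j))
    (hZX : ∀ i, Disjoint (Z i) Xs)
    (hs : ∀ i, ∀ Q : Finset V, Q ⊆ Xs → (Xs.card : ℝ) ≤ (Q.card : ℝ) + b →
      ∃ s, Seg k K g Y Q (Z i) (m i) s)
    (hcov : ∀ v, v ∉ Xs → v ∉ Ys → ∃ i, v ∈ Z i)
    (hy : ∀ i, (Z i ∩ Y).card = y i) (hm : ∀ i, k ≤ m i)
    (hb : ((∑ i, m i : ℕ) : ℝ) ≤ b)
    (hbal : ∑ i, ((m i : ℤ) - k * y i - (k - 1)) = (Fintype.card V : ℤ) - k * Y.card) :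
    ∃ (X' Y' : Finset V) (Sg : List (List V)), X' ⊆ Xs ∧ Y' ⊆ Ys ∧ Sg.flatten.Nodup ∧
    (∀ v, v ∈ Sg.flatten ↔ v ∉ X' ∧ v ∉ Y') ∧
    (∀ s ∈ Sg, TP K k s ∧ k ≤ s.length ∧ GB k K g Y (s.take (k - 1)) ∧
      GB k K g Y (lastn (k - 1) s)) ∧
    Sg.flatten.length = ∑ i, m i ∧ Sg.length = Fintype.card ι ∧
    X'.card + (k - 1) * Sg.length = (k - 1) * Y'.card := by
  have hsum : ∀ f : ι → ℕ, ((univ : Finset ι).toList.map f).sum = ∑ i, f i := by
    intro f
    exact Finset.sum_map_toList univ f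
  obtain ⟨S, hS1, hS2⟩ := serve Z m hZ hZX hs (univ : Finset ι).toList (nodup_toList _) Xs
    (Subset.refl _) (by rw [hsum]; linarith)
  have hS : ∀ i, Seg k K g Y Xs (Z i) (m i) (S i) := fun i => hS1 i (mem_toList.2 (mem_univ i))
  set Sg : List (List V) := (univ : Finset ι).toList.map S with hSg
  have hmem : ∀ v, v ∈ Sg.flatten ↔ ∃ i, v ∈ S i := by
    intro v
    rw [List.mem_flatten]
    constructor
    · rintro ⟨l, hl, hv⟩
      rw [hSg, List.mem_map] at hl
      obtain ⟨i, -, rfl⟩ := hl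
      exact ⟨i, hv⟩
    · rintro ⟨i, hv⟩
      exact ⟨S i, List.mem_map.2 ⟨i, mem_toList.2 (mem_univ i), rfl⟩, hv⟩
  have hZS : ∀ i, ∀ v ∈ Z i, v ∈ Sg.flatten := fun i v hv => (hmem v).2 ⟨i, (hS i).all v hv⟩
  have hlen : Sg.flatten.length = ∑ i, m i := by
    rw [List.length_flatten, hSg, List.map_map, ← hsum]
    congr 1
    apply List.map_congr_left
    intro i _
    exact (hS i).len
  have hlen2 : Sg.length = Fintype.card ι := by
    rw [hSg, List.length_map, length_toList, card_univ]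
  have hcy : (Sg.flatten.toFinset ∩ Y).card = ∑ i, y i := by
    have e1 : (Sg.flatten.toFinset ∩ Y).card = Sg.flatten.countP (fun v => decide (v ∈ Y)) := by
      rw [List.countP_eq_length_filter, ← List.toFinset_card_of_nodup (hS2.filter _)]
      congr 1
      ext v
      rw [mem_inter, List.mem_toFinset, List.mem_toFinset, List.mem_filter, decide_eq_true_iff]
    rw [e1, List.countP_flatten, hSg, List.map_map, ← hsum]
    congr 1
    apply List.map_congr_left
    intro i _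
    show (S i).countP (fun v => decide (v ∈ Y)) = y i
    rw [← hy i, List.countP_eq_length_filter, ← List.toFinset_card_of_nodup ((hS i).nd.filter _)]
    congr 1
    ext v
    rw [List.mem_toFinset, List.mem_filter, mem_inter, decide_eq_true_iff]
    constructor
    · rintro ⟨h1, h2⟩
      refine ⟨?_, h2⟩
      rcases (hS i).mem v h1 with h | h
      · exact absurd h2 (disjoint_left.1 hXs h)
      · exact h
    · rintro ⟨h1, h2⟩
      exact ⟨(hS i).all v h1, h2⟩
  refine ⟨Xs \ Sg.flatten.toFinset, Ys \ Sg.flatten.toFinset, Sg, sdiff_subset, sdiff_subset, hS2,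
    ?_, ?_, hlen, hlen2, ?_⟩
  · intro v
    rw [mem_sdiff, mem_sdiff, List.mem_toFinset]
    constructor
    · intro h
      exact ⟨fun h' => h'.2 h, fun h' => h'.2 h⟩
    · rintro ⟨h1, h2⟩
      by_contra hv
      have h3 : v ∉ Xs := fun h => h1 ⟨h, hv⟩
      have h4 : v ∉ Ys := fun h => h2 ⟨h, hv⟩
      obtain ⟨i, hi⟩ := hcov v h3 h4
      exact hv (hZS i v hi)
  · intro s hs'
    rw [hSg, List.mem_map] at hs'
    obtain ⟨i, -, rfl⟩ := hs'
    exact ⟨(hS i).tp, by rw [(hS i).len]; exact hm i, (hS i).fst, (hS i).lst⟩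
  · have hY' : (Ys \ Sg.flatten.toFinset).card + ∑ i, y i = Y.card := by
      rw [← hcy]
      have e : Y = (Ys \ Sg.flatten.toFinset) ∪ (Sg.flatten.toFinset ∩ Y) := by
        ext v
        simp only [mem_union, mem_sdiff, mem_inter, List.mem_toFinset]
        constructor
        · intro hv
          by_cases h : v ∈ Sg.flatten
          · exact Or.inr ⟨h, hv⟩
          · refine Or.inl ⟨?_, h⟩
            by_contra h2
            obtain ⟨i, hi⟩ := hcov v (fun h3 => disjoint_left.1 hXs h3 hv) h2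
            exact h (hZS i v hi)
        · rintro (h | h)
          · exact hYs h.1
          · exact h.2
      conv_rhs => rw [e]
      rw [card_union_of_disjoint]
      rw [disjoint_left]
      intro v hv hv'
      exact (mem_sdiff.1 hv).2 (mem_inter.1 hv').1
    have hn : (Xs \ Sg.flatten.toFinset).card + (Ys \ Sg.flatten.toFinset).card +
        Sg.flatten.toFinset.card = Fintype.card V := by
      rw [← card_univ, ← card_union_of_disjoint, ← card_union_of_disjoint]
      · congr 1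
        ext v
        simp only [mem_union, mem_sdiff, List.mem_toFinset, mem_univ, iff_true]
        by_cases h : v ∈ Sg.flatten
        · exact Or.inr h
        · left
          by_cases h3 : v ∈ Xs
          · exact Or.inl ⟨h3, h⟩
          · by_cases h4 : v ∈ Ys
            · exact Or.inr ⟨h4, h⟩
            · obtain ⟨i, hi⟩ := hcov v h3 h4
              exact absurd (hZS i v hi) h
      · rw [disjoint_left]
        intro v hv hv'
        rcases mem_union.1 hv with h | h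
        · exact (mem_sdiff.1 h).2 hv'
        · exact (mem_sdiff.1 h).2 hv'
      · rw [disjoint_left]
        intro v hv hv'
        exact disjoint_left.1 hXs (mem_sdiff.1 hv).1 (hYs (mem_sdiff.1 hv').1)
    rw [List.toFinset_card_of_nodup hS2, hlen] at hn
    rw [hlen2]
    have h1 : ∑ i, ((m i : ℤ) - k * y i - (k - 1)) =
        ((∑ i, m i : ℕ) : ℤ) - k * ((∑ i, y i : ℕ) : ℤ) - (k - 1) * (Fintype.card ι : ℤ) := by
      rw [sum_sub_distrib, sum_sub_distrib, ← mul_sum, sum_const, card_univ, nsmul_eq_mul]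
      push_cast
      ring
    rw [h1] at hbal
    have hk1 : ((k - 1 : ℕ) : ℤ) = (k : ℤ) - 1 := by
      rw [Nat.cast_sub (by omega)]; simp
    zify at hY' hn ⊢
    rw [hk1]
    push_cast at hY' hn hbal ⊢
    rw [← hY'] at hbal
    rw [← hn] at hbal
    linarith
open Classical in
omit [Fintype V] in
theorem mem_ex {K : Finset V → Prop} {U T : Finset V} {v : V} :
    v ∈ ex K U T ↔ v ∈ U ∧ v ∉ T ∧ K (insert v T) := by
  unfold ex
  exact mem_filter

/-- the four kinds of segments -/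
structure Kinds (k : ℕ) (K : Finset V → Prop) (g b : ℝ) (Y Xs : Finset V) : Prop where
  k1 : ∀ Q : Finset V, Q ⊆ Xs → (Xs.card : ℝ) ≤ (Q.card : ℝ) + b → ∀ y ∈ Y,
    ∃ s, Seg k K g Y Q {y} (2 * (k - 1) + 1) s
  k2 : ∀ Q : Finset V, Q ⊆ Xs → (Xs.card : ℝ) ≤ (Q.card : ℝ) + b → ∀ x y y' : V, x ∉ Y → x ∉ Q →
    y ∈ Y → y' ∈ Y → y ≠ y' → K {x, y} → K {x, y'} →
      ∃ s, Seg k K g Y Q {x, y, y'} (3 * (k - 1) + 2) s
  k3 : ∀ Q : Finset V, Q ⊆ Xs → (Xs.card : ℝ) ≤ (Q.card : ℝ) + b → ∀ (y y' : V) (g' : ℕ),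
    y ∈ Y → y' ∈ Y → y ≠ y' → K {y, y'} → g' + 2 ≤ k →
      ∃ s, Seg k K g Y Q {y, y'} (2 * (k - 1) + g' + 2) s
  k4 : ∀ Q : Finset V, Q ⊆ Xs → (Xs.card : ℝ) ≤ (Q.card : ℝ) + b → ∀ y y' : V, y ∈ Y → y' ∈ Y →
    y ≠ y' → ∃ s, Seg k K g Y Q {y, y'} (2 * (k - 1) + k + 2) s

/-- the special segments, given `p` pairs in `Y` -/
theorem system {k : ℕ} {K : Finset V → Prop} {g bd : ℝ} {Y Ys Xs : Finset V} (hk : 3 ≤ k)
    (hYs : Ys ⊆ Y) (hXs : Disjoint Xs Y) (hK : Kinds k K g bd Y Xs) {p q : ℕ} (a b : Fin p → V)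
    (hinj : Function.Injective (Sum.elim a b)) (hab : ∀ i, a i ∈ Y ∧ b i ∈ Y ∧ K {a i, b i})
    (gp : Fin p → ℕ) (hgp : ∀ i, gp i + 2 ≤ k)
    (hbal : ∑ i, ((gp i : ℤ) - (k - 1)) + q = (Fintype.card V : ℤ) - k * Y.card)
    (hdeg : ∀ x, x ∉ Y → 2 * p + 2 * (q + (Yᶜ \ Xs).card) ≤ (Ys ∩ ex K univ {x}).card)
    (hYs2 : 2 * p + 2 * (q + (Yᶜ \ Xs).card) ≤ Ys.card)
    (hb : ((3 * k * (p + q + (Y \ Ys).card + (Yᶜ \ Xs).card) : ℕ) : ℝ) ≤ bd) :
    ∃ (X' Y' : Finset V) (Sg : List (List V)), X' ⊆ Xs ∧ Y' ⊆ Ys ∧ Sg.flatten.Nodup ∧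
    (∀ v, v ∈ Sg.flatten ↔ v ∉ X' ∧ v ∉ Y') ∧
    (∀ s ∈ Sg, TP K k s ∧ k ≤ s.length ∧ GB k K g Y (s.take (k - 1)) ∧
      GB k K g Y (lastn (k - 1) s)) ∧
    Sg.flatten.length ≤ 3 * k * (p + q + (Y \ Ys).card + (Yᶜ \ Xs).card) ∧
    Sg.length ≤ 3 * k * (p + q + (Y \ Ys).card + (Yᶜ \ Xs).card) ∧
    X'.card + (k - 1) * Sg.length = (k - 1) * Y'.card := by
  have ha : ∀ i j, a i = a j → i = j := fun i j h => by
    have := hinj (a₁ := Sum.inl i) (a₂ := Sum.inl j) h
    exact Sum.inl.inj this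
  have hb' : ∀ i j, b i = b j → i = j := fun i j h => by
    have := hinj (a₁ := Sum.inr i) (a₂ := Sum.inr j) h
    exact Sum.inr.inj this
  have hab' : ∀ i j, a i ≠ b j := fun i j h => by
    have := hinj (a₁ := Sum.inl i) (a₂ := Sum.inr j) h
    exact absurd this (by simp)
  set AB : Finset V := univ.image a ∪ univ.image b with hAB
  have haAB : ∀ i, a i ∈ AB := fun i => mem_union_left _ (mem_image_of_mem a (mem_univ i))
  have hbAB : ∀ i, b i ∈ AB := fun i => mem_union_right _ (mem_image_of_mem b (mem_univ i))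
  have hABc : AB.card ≤ 2 * p := by
    have h1 : (univ.image a).card ≤ p := by
      refine card_image_le.trans ?_
      simp
    have h2 : (univ.image b).card ≤ p := by
      refine card_image_le.trans ?_
      simp
    have h3 : AB.card ≤ (univ.image a).card + (univ.image b).card := card_union_le _ _
    omega
  obtain ⟨f, hfi, hf⟩ := sdr (ι := (Fin q ⊕ ↥(Yᶜ \ Xs)) × Bool)
    (fun z => Sum.elim (fun _ => Ys) (fun x : ↥(Yᶜ \ Xs) => Ys ∩ ex K univ {x.1}) z.1) AB (by
      rintro ⟨z, β⟩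
      have hc : Fintype.card ((Fin q ⊕ ↥(Yᶜ \ Xs)) × Bool) = (q + (Yᶜ \ Xs).card) * 2 := by
        rw [Fintype.card_prod, Fintype.card_sum, Fintype.card_fin, Fintype.card_coe,
          Fintype.card_bool]
      rw [hc]
      rcases z with j | x
      · show _ ≤ Ys.card
        omega
      · show _ ≤ (Ys ∩ ex K univ {x.1}).card
        have hx : x.1 ∉ Y := by
          have := x.2
          rw [mem_sdiff, mem_compl] at this
          exact this.1
        have := hdeg x.1 hx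
        omega)
  have hfY : ∀ z, f z ∈ Ys := by
    rintro ⟨z, β⟩
    have h := (hf (z, β)).1
    rcases z with j | x
    · exact h
    · exact (mem_inter.1 h).1
  have hfa : ∀ z i, f z ≠ a i := fun z i h => (hf z).2 (h ▸ haAB i)
  have hfb : ∀ z i, f z ≠ b i := fun z i h => (hf z).2 (h ▸ hbAB i)
  have hfK : ∀ (x : ↥(Yᶜ \ Xs)) (β : Bool), K {x.1, f (Sum.inr x, β)} := by
    intro x β
    have h := (hf (Sum.inr x, β)).1
    have h2 : f (Sum.inr x, β) ∈ ex K univ {x.1} := (mem_inter.1 h).2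
    rw [mem_ex] at h2
    rw [pair_comm]
    exact h2.2.2
  have hx1 : ∀ x : ↥(Yᶜ \ Xs), x.1 ∉ Y ∧ x.1 ∉ Xs := fun x => by
    have := x.2
    rw [mem_sdiff, mem_compl] at this
    exact this
  have hy1 : ∀ y : ↥((Y \ Ys) \ AB), y.1 ∈ Y ∧ y.1 ∉ Ys ∧ y.1 ∉ AB := fun y => by
    have := y.2
    rw [mem_sdiff, mem_sdiff] at this
    exact ⟨this.1.1, this.1.2, this.2⟩
  have hy2 : ∀ (y : ↥((Y \ Ys) \ AB)) i, y.1 ≠ a i := fun y i h => (hy1 y).2.2 (h ▸ haAB i)
  have hy3 : ∀ (y : ↥((Y \ Ys) \ AB)) i, y.1 ≠ b i := fun y i h => (hy1 y).2.2 (h ▸ hbAB i)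
  have hft : ∀ z, f (z, false) ≠ f (z, true) := fun z h => by
    have := hfi h
    simp at this
  -- the requests
  set Z : (Fin p ⊕ (Fin q ⊕ (↥((Y \ Ys) \ AB) ⊕ ↥(Yᶜ \ Xs)))) → Finset V :=
    Sum.elim (fun i => {a i, b i}) (Sum.elim (fun j => {f (Sum.inl j, false), f (Sum.inl j, true)})
      (Sum.elim (fun y => {y.1}) (fun x => {x.1, f (Sum.inr x, false), f (Sum.inr x, true)})))
    with hZdef
  set m : (Fin p ⊕ (Fin q ⊕ (↥((Y \ Ys) \ AB) ⊕ ↥(Yᶜ \ Xs)))) → ℕ :=
    Sum.elim (fun i => 2 * (k - 1) + gp i + 2) (Sum.elim (fun _ => 2 * (k - 1) + k + 2)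
      (Sum.elim (fun _ => 2 * (k - 1) + 1) (fun _ => 3 * (k - 1) + 2))) with hmdef
  set yc : (Fin p ⊕ (Fin q ⊕ (↥((Y \ Ys) \ AB) ⊕ ↥(Yᶜ \ Xs)))) → ℕ :=
    Sum.elim (fun _ => 2) (Sum.elim (fun _ => 2) (Sum.elim (fun _ => 1) (fun _ => 2))) with hydef
  have hm3 : ∀ i, m i ≤ 3 * k := by
    rintro (i | j | y | x)
    · show 2 * (k - 1) + gp i + 2 ≤ 3 * k
      have := hgp i
      omega
    · show 2 * (k - 1) + k + 2 ≤ 3 * k
      omega
    · show 2 * (k - 1) + 1 ≤ 3 * k
      omega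
    · show 3 * (k - 1) + 2 ≤ 3 * k
      omega
  have hm1 : ∀ i, k ≤ m i := by
    rintro (i | j | y | x)
    · show k ≤ 2 * (k - 1) + gp i + 2
      omega
    · show k ≤ 2 * (k - 1) + k + 2
      omega
    · show k ≤ 2 * (k - 1) + 1
      omega
    · show k ≤ 3 * (k - 1) + 2
      omega
  have hcard : Fintype.card (Fin p ⊕ (Fin q ⊕ (↥((Y \ Ys) \ AB) ⊕ ↥(Yᶜ \ Xs)))) ≤
      p + q + (Y \ Ys).card + (Yᶜ \ Xs).card := by
    rw [Fintype.card_sum, Fintype.card_sum, Fintype.card_sum, Fintype.card_fin, Fintype.card_fin,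
      Fintype.card_coe, Fintype.card_coe]
    have : ((Y \ Ys) \ AB).card ≤ (Y \ Ys).card := card_le_card sdiff_subset
    omega
  have hsm : ∑ i, m i ≤ 3 * k * (p + q + (Y \ Ys).card + (Yᶜ \ Xs).card) := by
    calc ∑ i, m i ≤ ∑ _i : (Fin p ⊕ (Fin q ⊕ (↥((Y \ Ys) \ AB) ⊕ ↥(Yᶜ \ Xs)))), 3 * k :=
          sum_le_sum (fun i _ => hm3 i)
      _ = Fintype.card (Fin p ⊕ (Fin q ⊕ (↥((Y \ Ys) \ AB) ⊕ ↥(Yᶜ \ Xs)))) * (3 * k) := by
          rw [sum_const, card_univ, smul_eq_mul]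
      _ ≤ (p + q + (Y \ Ys).card + (Yᶜ \ Xs).card) * (3 * k) := Nat.mul_le_mul_right _ hcard
      _ = _ := by ring
  have c1 : ∀ i j, i ≠ j → Disjoint (Z i) (Z j) := by
    -- disjointness
    have hfinj : ∀ z w, f z = f w → z = w := fun z w h => hfi h
    intro i j hij
    rw [disjoint_left]
    intro v hv hw
    rcases i with i | i | i | i <;> rcases j with j | j | j | j <;>
      simp only [hZdef, Sum.elim_inl, Sum.elim_inr, mem_insert, mem_singleton] at hv hw <;>
      grind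
  have c2 : ∀ i, Disjoint (Z i) Xs := by
    -- disjoint from Xs
    rintro (i | j | y | x)
    · rw [disjoint_left]
      intro v hv hX
      have hvY : v ∉ Y := disjoint_left.1 hXs hX
      simp only [hZdef, Sum.elim_inl, mem_insert, mem_singleton] at hv
      rcases hv with rfl | rfl
      · exact hvY (hab i).1
      · exact hvY (hab i).2.1
    · rw [disjoint_left]
      intro v hv hX
      have hvY : v ∉ Y := disjoint_left.1 hXs hX
      simp only [hZdef, Sum.elim_inl, Sum.elim_inr, mem_insert, mem_singleton] at hv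
      rcases hv with rfl | rfl
      · exact hvY (hYs (hfY _))
      · exact hvY (hYs (hfY _))
    · rw [disjoint_left]
      intro v hv hX
      have hvY : v ∉ Y := disjoint_left.1 hXs hX
      simp only [hZdef, Sum.elim_inl, Sum.elim_inr, mem_singleton] at hv
      rw [hv] at hvY
      exact hvY (hy1 y).1
    · rw [disjoint_left]
      intro v hv hX
      have hvY : v ∉ Y := disjoint_left.1 hXs hX
      simp only [hZdef, Sum.elim_inr, mem_insert, mem_singleton] at hv
      rcases hv with rfl | rfl | rfl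
      · exact (hx1 x).2 hX
      · exact hvY (hYs (hfY _))
      · exact hvY (hYs (hfY _))
  have c3 : ∀ i, ∀ Q : Finset V, Q ⊆ Xs → (Xs.card : ℝ) ≤ (Q.card : ℝ) + bd →
      ∃ s, Seg k K g Y Q (Z i) (m i) s := by
    -- segments
    rintro (i | j | y | x) Q hQ hQc
    · exact hK.k3 Q hQ hQc (a i) (b i) (gp i) (hab i).1 (hab i).2.1 (hab' i i) (hab i).2.2 (hgp i)
    · exact hK.k4 Q hQ hQc _ _ (hYs (hfY _)) (hYs (hfY _)) (hft _)
    · exact hK.k1 Q hQ hQc y.1 (hy1 y).1
    · exact hK.k2 Q hQ hQc x.1 _ _ (hx1 x).1 (fun h => (hx1 x).2 (hQ h)) (hYs (hfY _))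
        (hYs (hfY _)) (hft _) (hfK x false) (hfK x true)
  have c4 : ∀ v, v ∉ Xs → v ∉ Ys → ∃ i, v ∈ Z i := by
    -- covering
    intro v hvX hvY
    by_cases hY : v ∈ Y
    · by_cases hA : v ∈ AB
      · rw [hAB, mem_union, mem_image, mem_image] at hA
        rcases hA with ⟨i, -, rfl⟩ | ⟨i, -, rfl⟩
        · exact ⟨Sum.inl i, by simp [hZdef]⟩
        · exact ⟨Sum.inl i, by simp [hZdef]⟩
      · refine ⟨Sum.inr (Sum.inr (Sum.inl ⟨v, ?_⟩)), by simp [hZdef]⟩
        rw [mem_sdiff, mem_sdiff]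
        exact ⟨⟨hY, hvY⟩, hA⟩
    · refine ⟨Sum.inr (Sum.inr (Sum.inr ⟨v, ?_⟩)), by simp [hZdef]⟩
      rw [mem_sdiff, mem_compl]
      exact ⟨hY, hvX⟩
  have c5 : ∀ i, (Z i ∩ Y).card = yc i := by
    -- the number of the vertices in Y
    rintro (i | j | y | x)
    · show (({a i, b i} : Finset V) ∩ Y).card = 2
      rw [inter_eq_left.2, card_pair (hab' i i)]
      intro v hv
      rw [mem_insert, mem_singleton] at hv
      rcases hv with rfl | rfl
      · exact (hab i).1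
      · exact (hab i).2.1
    · show (({f (Sum.inl j, false), f (Sum.inl j, true)} : Finset V) ∩ Y).card = 2
      rw [inter_eq_left.2, card_pair (hft _)]
      intro v hv
      rw [mem_insert, mem_singleton] at hv
      rcases hv with rfl | rfl
      · exact hYs (hfY _)
      · exact hYs (hfY _)
    · show (({y.1} : Finset V) ∩ Y).card = 1
      rw [inter_eq_left.2, card_singleton]
      intro v hv
      rw [mem_singleton] at hv
      rw [hv]
      exact (hy1 y).1
    · show (({x.1, f (Sum.inr x, false), f (Sum.inr x, true)} : Finset V) ∩ Y).card = 2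
      have e : (({x.1, f (Sum.inr x, false), f (Sum.inr x, true)} : Finset V) ∩ Y) =
          {f (Sum.inr x, false), f (Sum.inr x, true)} := by
        ext v
        rw [mem_inter, mem_insert, mem_insert, mem_singleton]
        constructor
        · rintro ⟨h | h | h, hY⟩
          · rw [h] at hY
            exact absurd hY (hx1 x).1
          · exact Or.inl h
          · exact Or.inr h
        · rintro (h | h)
          · exact ⟨Or.inr (Or.inl h), h ▸ hYs (hfY _)⟩
          · exact ⟨Or.inr (Or.inr h), h ▸ hYs (hfY _)⟩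
      rw [e, card_pair (hft _)]
  have c6 : ((∑ i, m i : ℕ) : ℝ) ≤ bd := by
    -- total length
    refine le_trans ?_ hb
    exact_mod_cast hsm
  have c7 : ∑ i, ((m i : ℤ) - k * yc i - (k - 1)) = (Fintype.card V : ℤ) - k * Y.card := by
    -- balance
    have hk1 : ((k - 1 : ℕ) : ℤ) = (k : ℤ) - 1 := by
      rw [Nat.cast_sub (by omega)]; simp
    rw [Fintype.sum_sum_type, Fintype.sum_sum_type, Fintype.sum_sum_type, ← hbal]
    have e1 : ∀ i : Fin p, ((m (Sum.inl i) : ℤ) - k * yc (Sum.inl i) - (k - 1)) =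
        (gp i : ℤ) - (k - 1) := by
      intro i
      simp only [hmdef, hydef, Sum.elim_inl]
      push_cast [hk1]
      ring
    have e2 : ∀ j : Fin q, ((m (Sum.inr (Sum.inl j)) : ℤ) - k * yc (Sum.inr (Sum.inl j)) -
        (k - 1)) = 1 := by
      intro i
      simp only [hmdef, hydef, Sum.elim_inl, Sum.elim_inr]
      push_cast [hk1]
      ring
    have e3 : ∀ y : ↥((Y \ Ys) \ AB), ((m (Sum.inr (Sum.inr (Sum.inl y))) : ℤ) -
        k * yc (Sum.inr (Sum.inr (Sum.inl y))) - (k - 1)) = 0 := by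
      intro i
      simp only [hmdef, hydef, Sum.elim_inl, Sum.elim_inr]
      push_cast [hk1]
      ring
    have e4 : ∀ x : ↥(Yᶜ \ Xs), ((m (Sum.inr (Sum.inr (Sum.inr x))) : ℤ) -
        k * yc (Sum.inr (Sum.inr (Sum.inr x))) - (k - 1)) = 0 := by
      intro i
      simp only [hmdef, hydef, Sum.elim_inr]
      push_cast [hk1]
      ring
    rw [sum_congr rfl (fun i _ => e1 i), sum_congr rfl (fun i _ => e2 i),
      sum_congr rfl (fun i _ => e3 i), sum_congr rfl (fun i _ => e4 i)]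
    simp
  obtain ⟨X', Y', Sg, h1, h2, h3, h4, h5, h6, h7, h8⟩ := finish (K := K) (g := g) (b := bd)
    (Y := Y) (Ys := Ys) (Xs := Xs) hk hYs hXs Z m yc c1 c2 c3 c4 c5 hm1 c6 c7
  refine ⟨X', Y', Sg, h1, h2, h3, h4, h5, by rw [h6]; exact hsm, ?_, h8⟩
  rw [h7]
  refine hcard.trans ?_
  exact Nat.le_mul_of_pos_left _ (by omega)

end XSEGL

open XSEGL in
theorem xseg (h1 : S_PAIR) (h2 : S_SEGS) : S_XSEG := by
  intro k hk
  have hkR : (3 : ℝ) ≤ k := by exact_mod_cast hk
  have hk0 : (0 : ℝ) < k := by linarith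
  have hc₁ : (0 : ℝ) < 1 / (100 * (k : ℝ) ^ 2) := by positivity
  refine ⟨1 / (100 * (k : ℝ) ^ 2), hc₁, le_rfl, ?_⟩
  intro c₃ hc₃
  obtain ⟨cP, nP, hcP, hcP1, hP⟩ := h1 k (1 / (100 * (k : ℝ) ^ 2)) hk hc₁ le_rfl
  obtain ⟨cS, nS, hcS, hcS1, hcS3, hS⟩ := h2 k (1 / (100 * (k : ℝ) ^ 2)) c₃ hk hc₁ le_rfl hc₃
  have hc1k : 1 / (100 * (k : ℝ) ^ 2) ≤ 1 / k := by
    apply one_div_le_one_div_of_le hk0
    nlinarith
  set c₁ : ℝ := 1 / (100 * (k : ℝ) ^ 2) with hc₁def
  have hden : (0 : ℝ) < 12 * k * (k + 3) := by positivity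
  set c : ℝ := min (min cP cS) (min c₁ c₃ / (12 * k * (k + 3))) with hcdef
  have hc0 : 0 < c := lt_min (lt_min hcP hcS) (div_pos (lt_min hc₁ hc₃) hden)
  have hcP' : c ≤ cP := (min_le_left _ _).trans (min_le_left _ _)
  have hcS' : c ≤ cS := (min_le_left _ _).trans (min_le_right _ _)
  have hcm : c * (12 * k * (k + 3)) ≤ min c₁ c₃ := by
    have : c ≤ min c₁ c₃ / (12 * k * (k + 3)) := min_le_right _ _
    rwa [le_div_iff₀ hden] at this
  have hcm1 : c * (12 * k * (k + 3)) ≤ c₁ := hcm.trans (min_le_left _ _)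
  have hcm3 : c * (12 * k * (k + 3)) ≤ c₃ := hcm.trans (min_le_right _ _)
  obtain ⟨n₁, hn₁⟩ := exists_nat_gt (2 / c)
  refine ⟨c, max (max nP nS) n₁, hc0, hcP'.trans hcP1, hcS'.trans hcS3, ?_⟩
  intro V _ _ K hCx hn hPD Y Ys Xs hXS
  have hnP : nP ≤ Fintype.card V := ((le_max_left _ _).trans (le_max_left _ _)).trans hn
  have hnS : nS ≤ Fintype.card V := ((le_max_right _ _).trans (le_max_left _ _)).trans hn
  have hN0 : (0 : ℝ) ≤ (Fintype.card V : ℝ) := Nat.cast_nonneg _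
  set N : ℝ := (Fintype.card V : ℝ) with hN
  have hcN : 0 ≤ c * N := mul_nonneg hc0.le hN0
  -- sizes
  have hD : |(k : ℝ) * (Y.card : ℝ) - N| ≤ k * (c * N) := by
    have e : (k : ℝ) * (Y.card : ℝ) - N = k * ((Y.card : ℝ) - N / k) := by
      field_simp
    rw [e, abs_mul, abs_of_pos hk0]
    exact mul_le_mul_of_nonneg_left hXS.cY hk0.le
  have hYlow : N / k - c * N ≤ (Y.card : ℝ) := by
    have := (abs_le.1 hXS.cY).1
    linarith
  have hYYs : ((Y \ Ys).card : ℝ) ≤ c * N := hXS.cYs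
  have hXXs : ((Yᶜ \ Xs).card : ℝ) ≤ c * N := hXS.cXs
  -- the key estimate
  have hsmall1 : (2 * k + 4) * (c * N) ≤ c₁ / 4 * N := by
    have h3 : c * (2 * k + 4) ≤ c₁ / 4 := by nlinarith
    nlinarith
  have main : ∀ (p q : ℕ) (a b : Fin p → V), Function.Injective (Sum.elim a b) →
      (∀ i, a i ∈ Y ∧ b i ∈ Y ∧ K {a i, b i}) → ∀ gp : Fin p → ℕ, (∀ i, gp i + 2 ≤ k) →
      ∑ i, ((gp i : ℤ) - (k - 1)) + q = (Fintype.card V : ℤ) - k * Y.card →
      ((p : ℝ) + q ≤ k * (c * N)) →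
      ∃ (X' Y' : Finset V) (Sg : List (List V)), X' ⊆ Xs ∧ Y' ⊆ Ys ∧ Sg.flatten.Nodup ∧
    (∀ v, v ∈ Sg.flatten ↔ v ∉ X' ∧ v ∉ Y') ∧
    (∀ s ∈ Sg, TP K k s ∧ k ≤ s.length ∧ GB k K c₃ Y (s.take (k - 1)) ∧
      GB k K c₃ Y (lastn (k - 1) s)) ∧
    (Sg.flatten.length : ℝ) ≤ c₃ * N ∧ (Sg.length : ℝ) ≤ c₃ * N ∧
    X'.card + (k - 1) * Sg.length = (k - 1) * Y'.card := by
    intro p q a b hinj hab gp hgp hbal hpq
    have hcount : ((2 * p + 2 * (q + (Yᶜ \ Xs).card) : ℕ) : ℝ) ≤ (2 * k + 2) * (c * N) := by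
      push_cast
      linarith
    have hE : ((3 * k * (p + q + (Y \ Ys).card + (Yᶜ \ Xs).card) : ℕ) : ℝ) ≤
        (c * (12 * k * (k + 3))) * N := by
      push_cast
      have h3 : (p : ℝ) + q + ((Y \ Ys).card : ℝ) + ((Yᶜ \ Xs).card : ℝ) ≤ (k + 2) * (c * N) := by
        linarith
      have h4 : 3 * (k : ℝ) * ((p : ℝ) + q + ((Y \ Ys).card : ℝ) + ((Yᶜ \ Xs).card : ℝ)) ≤
          3 * k * ((k + 2) * (c * N)) := mul_le_mul_of_nonneg_left h3 (by positivity)
      refine h4.trans ?_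
      nlinarith [mul_nonneg hk0.le hcN, mul_nonneg (mul_nonneg hk0.le hk0.le) hcN]
    have hKinds : Kinds k K c₃ (c₁ * N) Y Xs := by
      have hS' := fun Q hQ hQc => hS V K hCx hnS hPD Y Ys Xs (xs_mono hXS hcS') Q hQ hQc
      exact ⟨fun Q hQ hQc => (hS' Q hQ hQc).1, fun Q hQ hQc => (hS' Q hQ hQc).2.1,
        fun Q hQ hQc => (hS' Q hQ hQc).2.2.1, fun Q hQ hQc => (hS' Q hQ hQc).2.2.2⟩
    obtain ⟨X', Y', Sg, g1, g2, g3, g4, g5, g6, g7, g8⟩ := system (K := K) (g := c₃)
      (bd := c₁ * N) (Y := Y) (Ys := Ys) (Xs := Xs) hk hXS.ys hXS.xs hKinds a b hinj hab gp hgp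
      hbal (by
        intro x hx
        have e1 : c₁ / 4 * N ≤ ((Y ∩ ex K univ {x}).card : ℝ) := hXS.xall x hx
        have e2 : (Y ∩ ex K univ {x}).card ≤ (Ys ∩ ex K univ {x}).card + (Y \ Ys).card := by
          refine (card_le_card ?_).trans (card_union_le _ _)
          intro v hv
          rw [mem_inter] at hv
          rw [mem_union, mem_inter, mem_sdiff]
          by_cases h : v ∈ Ys
          · exact Or.inl ⟨h, hv.2⟩
          · exact Or.inr ⟨hv.1, h⟩
        have e3 : ((Y ∩ ex K univ {x}).card : ℝ) ≤ ((Ys ∩ ex K univ {x}).card : ℝ) +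
            ((Y \ Ys).card : ℝ) := by exact_mod_cast e2
        have e4 : ((2 * p + 2 * (q + (Yᶜ \ Xs).card) : ℕ) : ℝ) ≤
            ((Ys ∩ ex K univ {x}).card : ℝ) := by linarith
        exact_mod_cast e4) (by
        have e2 : Y.card ≤ Ys.card + (Y \ Ys).card := by
          refine (card_le_card ?_).trans (card_union_le _ _)
          intro v hv
          rw [mem_union, mem_sdiff]
          by_cases h : v ∈ Ys
          · exact Or.inl h
          · exact Or.inr ⟨hv, h⟩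
        have e3 : (Y.card : ℝ) ≤ (Ys.card : ℝ) + ((Y \ Ys).card : ℝ) := by exact_mod_cast e2
        have e5 : c₁ / 4 * N ≤ N / k := by
          have : c₁ / 4 ≤ 1 / k := by linarith
          have := mul_le_mul_of_nonneg_right this hN0
          rwa [one_div_mul_eq_div] at this
        have e4 : ((2 * p + 2 * (q + (Yᶜ \ Xs).card) : ℕ) : ℝ) ≤ (Ys.card : ℝ) := by linarith
        exact_mod_cast e4) (hE.trans (mul_le_mul_of_nonneg_right hcm1 hN0))
    have hb3 := hE.trans (mul_le_mul_of_nonneg_right hcm3 hN0)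
    refine ⟨X', Y', Sg, g1, g2, g3, g4, g5, ?_, ?_, g8⟩
    · refine le_trans ?_ hb3
      exact_mod_cast g6
    · refine le_trans ?_ hb3
      exact_mod_cast g7
  rcases lt_or_ge (Fintype.card V) (k * Y.card) with hlt | hge
  · -- `D > 0`
    set D : ℕ := k * Y.card - Fintype.card V with hDdef
    have hD1 : 1 ≤ D := by omega
    set t : ℕ := (D - 1) / (k - 1) with ht
    set r : ℕ := (D - 1) % (k - 1) with hr
    have hdiv : (k - 1) * t + r = D - 1 := Nat.div_add_mod _ _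
    have hrk : r < k - 1 := Nat.mod_lt _ (by omega)
    obtain ⟨a, b, hinj, hab⟩ := hP V K hCx hnP hPD Y Ys Xs (xs_mono hXS hcP') hlt (t + 1) (by
      have : (k - 1) * (t + 1) = (k - 1) * t + (k - 1) := by ring
      omega)
    refine main (t + 1) 0 a b hinj hab (fun i => if i = Fin.last t then k - 2 - r else 0) ?_ ?_ ?_
    · intro i
      split_ifs
      · omega
      · omega
    · have hk1 : ((k - 2 - r : ℕ) : ℤ) = (k : ℤ) - 2 - r := by
        rw [Nat.cast_sub (by omega), Nat.cast_sub (by omega)]; simp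
      have hDz : (D : ℤ) = k * Y.card - Fintype.card V := by
        rw [hDdef, Nat.cast_sub hlt.le]; push_cast; ring
      have hdz : ((k : ℤ) - 1) * t + r = D - 1 := by
        have h3 : (((k - 1) * t + r : ℕ) : ℤ) = ((D - 1 : ℕ) : ℤ) := by rw [hdiv]
        rw [Nat.cast_sub hD1] at h3
        push_cast at h3
        rw [Nat.cast_sub (by omega)] at h3
        simpa using h3
      rw [Fin.sum_univ_castSucc]
      have e1 : ∀ i : Fin t, (((if (i.castSucc : Fin (t + 1)) = Fin.last t then k - 2 - r else 0 : ℕ)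
          : ℤ) - (k - 1)) = -((k : ℤ) - 1) := by
        intro i
        rw [if_neg (Fin.castSucc_lt_last i).ne]
        simp
      rw [sum_congr rfl (fun i _ => e1 i), sum_const, card_univ, Fintype.card_fin, nsmul_eq_mul,
        if_pos rfl, hk1]
      push_cast
      linarith
    · have h3 : t + 1 ≤ D := by
        have : t ≤ D - 1 := Nat.div_le_self _ _
        omega
      have h4 : ((t + 1 : ℕ) : ℝ) ≤ (D : ℝ) := by exact_mod_cast h3
      have h5 : (D : ℝ) = k * Y.card - N := by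
        rw [hDdef, Nat.cast_sub hlt.le]; push_cast; rfl
      have h6 := (abs_le.1 hD).2
      rw [Nat.cast_zero, add_zero]
      linarith
  · -- `D ≤ 0`
    refine main 0 (Fintype.card V - k * Y.card) Fin.elim0 Fin.elim0 ?_ (fun i => i.elim0)
      Fin.elim0 (fun i => i.elim0) ?_ ?_
    · rintro (i | i)
      · exact i.elim0
      · exact i.elim0
    · rw [Nat.cast_sub hge]
      simp
    · have h5 : ((Fintype.card V - k * Y.card : ℕ) : ℝ) = N - k * Y.card := by
        rw [Nat.cast_sub hge]; push_cast; rfl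
      have h6 := (abs_le.1 hD).1
      rw [h5, Nat.cast_zero, zero_add]
      linarith

end Pool.Agent.H48.TC
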