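import Pool.Agent.H48.TC.Stm

set_option autoImplicit false

/-!
[XSTR] structure in the extremal case
-/

namespace Pool.Agent.H48.TC

open Finset Pool.Agent.H48.PW Pool.Agent.Helper83K9.CF

namespace XSTRL

open Classical in
/-- double counting -/
theorem dc {V : Type} [DecidableEq V] (A B : Finset V) (r : V → V → Prop) (p q : ℝ)
    (hA' : ∀ a ∈ A, ∃ S : Finset V, S ⊆ B ∧ (∀ b ∈ S, r a b) ∧ p ≤ (S.card : ℝ))
    (hB' : ∀ b ∈ B, ∀ S : Finset V, S ⊆ A → (∀ a ∈ S, r a b) → (S.card : ℝ) ≤ q) :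
    (A.card : ℝ) * p ≤ (B.card : ℝ) * q := by
  have hA : ∀ a ∈ A, p ≤ ((B.filter (r a)).card : ℝ) := by
    intro a ha
    obtain ⟨S, h1, h2, h3⟩ := hA' a ha
    refine h3.trans ?_
    exact_mod_cast card_le_card fun b hb => mem_filter.2 ⟨h1 hb, h2 b hb⟩
  have hB : ∀ b ∈ B, ((A.filter (fun a => r a b)).card : ℝ) ≤ q := by
    intro b hb
    exact hB' b hb _ (filter_subset _ _) fun a ha => (mem_filter.1 ha).2
  have h := Finset.sum_card_bipartiteAbove_eq_sum_card_bipartiteBelow (s := A) (t := B) r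
  have h1 : (A.card : ℝ) * p ≤ ∑ a ∈ A, ((B.filter (r a)).card : ℝ) := by
    rw [← nsmul_eq_mul]
    exact Finset.card_nsmul_le_sum _ _ _ hA
  have h2 : ∑ b ∈ B, ((A.filter (fun a => r a b)).card : ℝ) ≤ (B.card : ℝ) * q := by
    rw [← nsmul_eq_mul]
    exact Finset.sum_le_card_nsmul _ _ _ hB
  have h3 : ∑ a ∈ A, ((B.filter (r a)).card : ℝ) = ∑ b ∈ B, ((A.filter (fun a => r a b)).card : ℝ) := by
    have h' := congrArg (fun x : ℕ => (x : ℝ)) h
    simp only [Nat.cast_sum] at h'
    exact h'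
  linarith

theorem mem_ce {V : Type} [Fintype V] [DecidableEq V] (K : Finset V → Prop) (T : Finset V) (v : V) :
    v ∈ ce K univ T ↔ (v ∈ T ∨ ¬ K (insert v T)) := by
  unfold ce ex
  simp only [mem_sdiff, mem_univ, true_and, mem_filter, not_and_or, not_not]

theorem mem_ex {V : Type} [Fintype V] [DecidableEq V] (K : Finset V → Prop) (T : Finset V) (v : V) :
    v ∈ ex K univ T ↔ (v ∉ T ∧ K (insert v T)) := by
  unfold ex
  simp only [mem_univ, true_and, mem_filter]

theorem mem_ce_ex {V : Type} [Fintype V] [DecidableEq V] (K : Finset V → Prop) (T : Finset V) (v : V) :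
    v ∈ ce K univ T ↔ v ∉ ex K univ T := by
  unfold ce
  simp only [mem_sdiff, mem_univ, true_and]

theorem ce_symm {V : Type} [Fintype V] [DecidableEq V] (K : Finset V → Prop) (v y : V) :
    v ∈ ce K univ {y} ↔ y ∈ ce K univ {v} := by
  rw [mem_ce, mem_ce]
  have : insert v ({y} : Finset V) = insert y {v} := by
    ext z; simp [or_comm]
  rw [this, mem_singleton, mem_singleton, eq_comm]

theorem ce_mono {V : Type} [Fintype V] [DecidableEq V] {k : ℕ} {K : Finset V → Prop} (hK : Cx k K)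
    {y : V} {T : Finset V} (hy : y ∈ T) : ce K univ {y} ⊆ ce K univ T := by
  intro v hv
  rw [mem_ce] at hv ⊢
  by_contra hcon
  rw [not_or, not_not] at hcon
  rcases hv with h | h
  · rw [mem_singleton] at h
    exact hcon.1 (h ▸ hy)
  · refine h (hK.sub _ _ hcon.2 ?_)
    intro z hz
    rw [mem_insert, mem_singleton] at hz
    rcases hz with rfl | rfl
    · exact mem_insert_self _ _
    · exact mem_insert_of_mem hy

theorem ce_le {V : Type} [Fintype V] [DecidableEq V] {k : ℕ} {K : Finset V → Prop}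
    (hP : PD k K 0 univ) (T : Finset V) (hT : K T) (hc : T.card < k) :
    ((ce K univ T).card : ℝ) ≤ (1 / (k : ℝ)) * (Fintype.card V : ℝ) := by
  have h := hP T hT hc
  have h1 : (ce K univ T).card + (ex K univ T).card = (univ : Finset V).card := by
    unfold ce
    have : ex K univ T ⊆ univ := subset_univ _
    exact card_sdiff_add_card_eq_card this
  have h2 : ((ce K univ T).card : ℝ) + ((ex K univ T).card : ℝ) = ((univ : Finset V).card : ℝ) := by
    exact_mod_cast h1
  rw [card_univ] at h2 h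
  linarith

theorem card_split {V : Type} [DecidableEq V] (A B : Finset V) :
    ((A ∩ B).card : ℝ) + ((A \ B).card : ℝ) = (A.card : ℝ) := by
  exact_mod_cast card_inter_add_card_sdiff A B

theorem card_mono' {V : Type} [DecidableEq V] {A B : Finset V} (h : A ⊆ B) :
    (A.card : ℝ) ≤ (B.card : ℝ) := by exact_mod_cast card_le_card h

theorem card_union' {V : Type} [DecidableEq V] (A B : Finset V) :
    ((A ∪ B).card : ℝ) ≤ (A.card : ℝ) + (B.card : ℝ) := by exact_mod_cast card_union_le A B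

end XSTRL

set_option maxHeartbeats 4000000 in
open XSTRL in
open Classical in
theorem xstr : S_XSTR := by
  intro k c₁ c hk hc₁ hc hc₁k hcc
  have hk0 : (3 : ℝ) ≤ (k : ℝ) := by exact_mod_cast hk
  have hkpos : (0 : ℝ) < (k : ℝ) := by linarith
  have hk2 : (0 : ℝ) < 100 * (k : ℝ) ^ 2 := by positivity
  have hck : c₁ * (100 * (k : ℝ) ^ 2) ≤ 1 := by
    rw [le_div_iff₀ hk2] at hc₁k
    exact hc₁k
  have hik : (1 / (k : ℝ)) * k = 1 := by field_simp
  -- `c₁ ≤ (1/k) / 300`
  have hc1small : 300 * c₁ ≤ 1 / (k : ℝ) := by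
    rw [le_div_iff₀ hkpos]
    nlinarith
  have hik3 : 1 / (k : ℝ) ≤ 1 / 3 := by
    rw [div_le_div_iff₀ hkpos (by norm_num)]
    linarith
  set K1 : ℝ := 1 / (k : ℝ) with hK1
  have hc1' : c ≤ 1 / 900 := by linarith
  refine ⟨c ^ 2 / 100, 1, by positivity, ?_⟩
  intro V _ _ K hK hn hP hNE
  set β : ℝ := c ^ 2 / 100 with hβ
  have hβ0 : 0 < β := by positivity
  have hβc : 90000 * β ≤ c := by rw [hβ]; nlinarith
  set n : ℝ := (Fintype.card V : ℝ) with hn'
  have hnpos : 1 ≤ n := by rw [hn']; exact_mod_cast hn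
  -- the bad vertex
  unfold NE at hNE
  push Not at hNE
  obtain ⟨v₀, hv₀, hv₁⟩ := hNE
  rw [card_univ] at hv₀ hv₁
  rw [← hn', ← hK1] at hv₀
  rw [← hn'] at hv₁
  set Y₀ := ce K univ {v₀} with hY₀
  set Ys : Finset V := Y₀.filter (fun y => ((Y₀ ∩ ex K univ {y}).card : ℝ) < β * n) with hYs
  set Y : Finset V := univ.filter (fun v => ((Y₀ ∩ ex K univ {v}).card : ℝ) ≤ c₁ / 3 * n) with hY
  have hYsY₀ : Ys ⊆ Y₀ := filter_subset _ _
  have hsm : β * n ≤ c₁ / 3 * n := by
    apply mul_le_mul_of_nonneg_right _ (by linarith)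
    linarith
  have hYsY : Ys ⊆ Y := by
    intro y hy
    rw [hYs, mem_filter] at hy
    rw [hY, mem_filter]
    exact ⟨mem_univ _, hy.2.le.trans hsm⟩
  have hY₀Ys : ((Y₀ \ Ys).card : ℝ) < β * n := by
    refine lt_of_le_of_lt (card_mono' ?_) hv₁
    intro y hy
    rw [mem_sdiff, hYs, mem_filter] at hy
    rw [mem_filter]
    refine ⟨hy.1, ?_⟩
    by_contra hcon
    rw [not_le] at hcon
    exact hy.2 ⟨hy.1, hcon⟩
  have hY₀Y : ((Y₀ \ Y).card : ℝ) ≤ β * n :=
    (card_mono' (sdiff_subset_sdiff le_rfl hYsY)).trans hY₀Ys.le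
  have hY₀le : (Y₀.card : ℝ) ≤ K1 * n := ce_le hP {v₀} (hK.vert v₀) (by rw [card_singleton]; omega)
  have hYs_card : (K1 - 2 * β) * n ≤ (Ys.card : ℝ) := by
    have h := card_split Y₀ Ys
    rw [inter_eq_right.2 hYsY₀] at h
    nlinarith
  -- nonneighbours of typical vertices
  have hce1 : ∀ y : V, ((ce K univ {y}).card : ℝ) ≤ K1 * n :=
    fun y => ce_le hP {y} (hK.vert y) (by rw [card_singleton]; omega)
  have hinter : ∀ y : V, ((Y₀ ∩ ce K univ {y}).card : ℝ) =
      (Y₀.card : ℝ) - ((Y₀ ∩ ex K univ {y}).card : ℝ) := by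
    intro y
    have h := card_split Y₀ (ex K univ {y})
    have h2 : Y₀ \ ex K univ {y} = Y₀ ∩ ce K univ {y} := by
      ext z
      rw [mem_sdiff, mem_inter, mem_ce_ex K {y} z]
    rw [h2] at h
    linarith
  have hout : ∀ y ∈ Ys, ((ce K univ {y} \ Y₀).card : ℝ) ≤ 2 * β * n := by
    intro y hy
    have h1 := card_split (ce K univ {y}) Y₀
    rw [inter_comm, hinter] at h1
    have h2 := hce1 y
    rw [hYs, mem_filter] at hy
    have h3 := hy.2
    nlinarith
  -- `|Y \ Y₀| ≤ 3 β n`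
  have hYY₀ : ((Y \ Y₀).card : ℝ) ≤ 3 * β * n := by
    have h := dc (Y \ Y₀) Ys (fun v y => v ∈ ce K univ {y}) ((Ys.card : ℝ) - c₁ / 3 * n) (2 * β * n)
      (by
        intro v hv
        rw [mem_sdiff, hY, mem_filter] at hv
        have h1 := card_split Ys (ex K univ {v})
        refine ⟨Ys \ ex K univ {v}, sdiff_subset, ?_, ?_⟩
        · intro z hz
          rw [mem_sdiff] at hz
          rw [ce_symm, mem_ce_ex]
          exact hz.2
        have h4 := card_mono' (inter_subset_inter_right (u := ex K univ {v}) hYsY₀)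
        have h5 := hv.1.2
        linarith)
      (by
        intro y hy S hS hS2
        refine (card_mono' ?_).trans (hout y hy)
        intro v hv
        have hv' := hS hv
        rw [mem_sdiff] at hv'
        rw [mem_sdiff]
        exact ⟨hS2 v hv, hv'.2⟩)
    by_contra hcon
    rw [not_le] at hcon
    have hs : c₁ / 3 * n ≤ (Ys.card : ℝ) / 3 := by
      have : c₁ * n ≤ (K1 - 2 * β) * n := by
        apply mul_le_mul_of_nonneg_right _ (by linarith)
        linarith
      linarith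
    have hYs0 : 0 < (Ys.card : ℝ) := by
      have : 0 < c₁ / 3 * n := by positivity
      linarith
    have h6 : (Ys.card : ℝ) * 2 / 3 ≤ (Ys.card : ℝ) - c₁ / 3 * n := by linarith
    have h7 : ((Y \ Y₀).card : ℝ) * ((Ys.card : ℝ) * 2 / 3) ≤
        ((Y \ Y₀).card : ℝ) * ((Ys.card : ℝ) - c₁ / 3 * n) :=
      mul_le_mul_of_nonneg_left h6 (Nat.cast_nonneg _)
    have h8 : 3 * β * n * ((Ys.card : ℝ) * 2 / 3) < ((Y \ Y₀).card : ℝ) * ((Ys.card : ℝ) * 2 / 3) :=
      mul_lt_mul_of_pos_right hcon (by positivity)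
    nlinarith
  have hYYs : ((Y \ Ys).card : ℝ) ≤ 4 * β * n := by
    have h1 : Y \ Ys ⊆ (Y \ Y₀) ∪ (Y₀ \ Ys) := by
      intro z hz
      rw [mem_sdiff] at hz
      rw [mem_union, mem_sdiff, mem_sdiff]
      by_cases h : z ∈ Y₀
      · exact Or.inr ⟨h, hz.2⟩
      · exact Or.inl ⟨hz.1, h⟩
    have h2 := card_mono' h1
    have h3 := card_union' (Y \ Y₀) (Y₀ \ Ys)
    linarith
  -- the general bound for `Yᶜ \ ex T`
  have hgen : ∀ (y : V) (T : Finset V), K T → y ∈ T → T.card < k →
      ((Yᶜ \ ex K univ T).card : ℝ) ≤ 2 * β * n + ((Y₀ ∩ ex K univ {y}).card : ℝ) := by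
    intro y T hT hy hTk
    have h1 : Yᶜ \ ex K univ T = ce K univ T \ Y := by
      ext z
      rw [mem_sdiff, mem_sdiff, mem_ce_ex, mem_compl, and_comm]
    rw [h1]
    have h2 := card_split (ce K univ T) Y
    have h3 := ce_le hP T hT hTk
    have h4 : (Y₀ ∩ ce K univ {y}) \ (Y₀ \ Y) ⊆ ce K univ T ∩ Y := by
      intro z hz
      rw [mem_sdiff, mem_inter, mem_sdiff, not_and_not_right] at hz
      rw [mem_inter]
      exact ⟨ce_mono hK hy hz.1.2, hz.2 hz.1.1⟩
    have h5 := card_mono' h4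
    have h6 := card_split (Y₀ ∩ ce K univ {y}) (Y₀ \ Y)
    have h7 : (((Y₀ ∩ ce K univ {y}) ∩ (Y₀ \ Y)).card : ℝ) ≤ β * n :=
      (card_mono' inter_subset_right).trans hY₀Y
    have h8 := hinter y
    rw [← hK1] at h3
    nlinarith
  have hexts : ∀ y ∈ Ys, ∀ T : Finset V, K T → y ∈ T → T.card < k →
      ((Yᶜ \ ex K univ T).card : ℝ) ≤ 3 * β * n := by
    intro y hy T hT hyT hTk
    have h := hgen y T hT hyT hTk
    rw [hYs, mem_filter] at hy
    linarith [hy.2]
  have e1 : 3 * β * n ≤ c * n := by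
    apply mul_le_mul_of_nonneg_right _ (by linarith)
    linarith
  have e2 : 4 * β * n ≤ c * n := by
    apply mul_le_mul_of_nonneg_right _ (by linarith)
    linarith
  have e3 : β * n ≤ c / 90000 * n := by
    apply mul_le_mul_of_nonneg_right _ (by linarith)
    linarith
  have e4 : c * n ≤ c₁ * n := mul_le_mul_of_nonneg_right hcc (by linarith)
  have e5 : 0 < c * n := by positivity
  refine ⟨Y, Ys, (Yᶜ).filter (fun x => ((Y \ ex K univ {x}).card : ℝ) ≤ c * n), ?_⟩
  constructor
  · exact hYsY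
  · rw [Finset.disjoint_left]
    intro x hx hxY
    rw [mem_filter, mem_compl] at hx
    exact hx.1 hxY
  · rw [← hn']
    have h1 : n / (k : ℝ) = K1 * n := by rw [hK1]; ring
    rw [h1, abs_le]
    have h2 := card_split Y Y₀
    have h3 := card_mono' (inter_subset_right (s₁ := Y) (s₂ := Y₀))
    have h4 := card_split Y₀ Y
    rw [inter_comm] at h4
    constructor <;> nlinarith
  · rw [← hn']
    exact hYYs.trans e2
  · -- cXs
    rw [← hn']
    have hsub : Yᶜ \ (Yᶜ).filter (fun x => ((Y \ ex K univ {x}).card : ℝ) ≤ c * n) =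
        (Yᶜ).filter (fun x => c * n < ((Y \ ex K univ {x}).card : ℝ)) := by
      ext x
      rw [mem_sdiff, mem_filter, mem_filter, not_and, not_le]
      constructor
      · rintro ⟨h1, h2⟩
        exact ⟨h1, h2 h1⟩
      · rintro ⟨h1, h2⟩
        exact ⟨h1, fun _ => h2⟩
    rw [hsub]
    set Z := (Yᶜ).filter (fun x => c * n < ((Y \ ex K univ {x}).card : ℝ)) with hZ
    have h := dc Z Ys (fun x y => x ∈ ce K univ {y}) (c / 2 * n) (3 * β * n)
      (by
        intro x hx
        rw [hZ, mem_filter] at hx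
        have h1 : Y \ ex K univ {x} ⊆ (Y \ Ys) ∪ (Ys \ ex K univ {x}) := by
          intro z hz
          rw [mem_sdiff] at hz
          rw [mem_union, mem_sdiff, mem_sdiff]
          by_cases h : z ∈ Ys
          · exact Or.inr ⟨h, hz.2⟩
          · exact Or.inl ⟨hz.1, h⟩
        refine ⟨Ys \ ex K univ {x}, sdiff_subset, ?_, ?_⟩
        · intro z hz
          rw [mem_sdiff] at hz
          rw [ce_symm, mem_ce_ex]
          exact hz.2
        have h2 := card_mono' h1
        have h3 := card_union' (Y \ Ys) (Ys \ ex K univ {x})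
        have h4 := hx.2
        have h5 : 4 * β * n ≤ c / 2 * n := by linarith
        linarith)
      (by
        intro y hy S hS hS2
        have h1 := hexts y hy {y} (hK.vert y) (mem_singleton_self y) (by rw [card_singleton]; omega)
        refine (card_mono' ?_).trans h1
        intro x hx
        have hx' := hS hx
        rw [hZ, mem_filter] at hx'
        rw [mem_sdiff, ← mem_ce_ex]
        exact ⟨hx'.1, hS2 x hx⟩)
    have h1 : (Ys.card : ℝ) ≤ n := by
      rw [hn']
      exact_mod_cast card_le_univ Ys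
    have h2 : (Z.card : ℝ) * (c / 2 * n) ≤ n * (3 * β * n) :=
      h.trans (mul_le_mul_of_nonneg_right h1 (by positivity))
    have h3 : n * (3 * β * n) ≤ (c * n) * (c / 2 * n) := by
      rw [hβ]
      nlinarith [sq_nonneg (c * n)]
    have h4 : (Z.card : ℝ) * (c / 2 * n) ≤ (c * n) * (c / 2 * n) := h2.trans h3
    exact le_of_mul_le_mul_right h4 (by positivity)
  · -- ext
    intro y hy T hT hyT hTk
    rw [← hn']
    have h := hgen y T hT hyT hTk
    rw [hY, mem_filter] at hy
    have h2 := hy.2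
    linarith
  · intro y hy T hT hyT hTk
    rw [← hn']
    exact (hexts y hy T hT hyT hTk).trans e1
  · intro x hx
    rw [← hn']
    rw [mem_filter] at hx
    exact hx.2
  · intro x hx
    rw [← hn']
    have h1 : c₁ / 3 * n < ((Y₀ ∩ ex K univ {x}).card : ℝ) := by
      by_contra hcon
      rw [not_lt] at hcon
      apply hx
      rw [hY, mem_filter]
      exact ⟨mem_univ _, hcon⟩
    have h2 : Y₀ ∩ ex K univ {x} ⊆ (Y ∩ ex K univ {x}) ∪ (Y₀ \ Y) := by
      intro z hz
      rw [mem_inter] at hz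
      rw [mem_union, mem_inter, mem_sdiff]
      by_cases h : z ∈ Y
      · exact Or.inl ⟨h, hz.2⟩
      · exact Or.inr ⟨hz.1, h⟩
    have h3 := card_mono' h2
    have h4 := card_union' (Y ∩ ex K univ {x}) (Y₀ \ Y)
    linarith
  · intro y hy
    rw [← hn']
    rw [hY, mem_filter] at hy
    have h2 : Y ∩ ex K univ {y} ⊆ (Y₀ ∩ ex K univ {y}) ∪ (Y \ Y₀) := by
      intro z hz
      rw [mem_inter] at hz
      rw [mem_union, mem_inter, mem_sdiff]
      by_cases h : z ∈ Y₀
      · exact Or.inl ⟨h, hz.2⟩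
      · exact Or.inr ⟨hz.1, h⟩
    have h3 := card_mono' h2
    have h4 := card_union' (Y₀ ∩ ex K univ {y}) (Y \ Y₀)
    have h5 := hy.2
    linarith

end Pool.Agent.H48.TC
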