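import Pool.Agent.H48.TC.Red
import Pool.Agent.H48.TC.KK1
import Pool.Agent.H48.TC.UPK
import Pool.Agent.H48.TC.WLKK
import Pool.Agent.H48.TC.FRACK
import Pool.Agent.H48.TC.SMP
import Pool.Agent.H48.TC.NES
import Pool.Agent.H48.TC.TRK
import Pool.Agent.H48.TC.CONNK
import Pool.Agent.H48.TC.ABSK
import Pool.Agent.H48.TC.APK
import Pool.Agent.H48.TC.FTK
import Pool.Agent.H48.TC.ALMK
import Pool.Agent.H48.TC.NONEX
import Pool.Agent.H48.TC.XSTR
import Pool.Agent.H48.TC.SEGS
import Pool.Agent.H48.TC.PAIR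
import Pool.Agent.H48.TC.XSEG
import Pool.Agent.H48.TC.REG
import Pool.Agent.H48.TC.SWP
import Pool.Agent.H48.TC.CYC
import Pool.Agent.H48.TC.EXTR
import Pool.Agent.H48.PW.HB

/-! Positive codegree `(1 - 1/k) n` forces a tight Hamilton cycle. -/

set_option autoImplicit false

namespace Pool.Agent.H48.TC

open Pool.Agent.H48.PW

theorem main : S_MAIN :=
  have hsmp : S_SMP := smp hoef
  have hnes : S_NES := nes hoef
  have htrk : S_TRK := trk hsmp blow
  have hconn : S_CONNK := connk htrk (wlkk (upk kk1))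
  have hapk : S_APK := apk hconn (absk htrk kk1)
  have halm : S_ALMK := almk pot3 (ftk hoef blow hsmp hnes frack)
  have hnonex : S_NONEX := nonex halm hapk hconn
  have hxseg : S_XSEG := xseg pair (segs extb)
  main_of hnonex (extr xstr hxseg (reg seq) swp (cyc dir))

theorem result : ∀ k : ℕ, 2 ≤ k → ∃ n₀ : ℕ, ∀ n : ℕ, n₀ ≤ n →
      ∀ H : Finset (Finset (Fin n)),
        (∀ e ∈ H, e.card = k) →
        (∀ v : Fin n, ∃ e ∈ H, v ∈ e) →
        (∀ e ∈ H, ∀ f ∈ H,
          Relation.ReflTransGen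
            (fun a b : Finset (Fin n) => a ∈ H ∧ b ∈ H ∧ (a ∩ b).card = k - 1) e f) →
        (∀ S : Finset (Fin n), S.card = k - 1 → (∃ e ∈ H, S ⊆ e) →
          (1 - 1 / (k : ℝ)) * (n : ℝ) ≤
            ((Finset.univ.filter (fun v : Fin n => v ∉ S ∧ insert v S ∈ H)).card : ℝ)) →
        ∃ g : ℕ → Fin n,
          (∀ i : ℕ, g (i + n) = g i) ∧
          (∀ i j : ℕ, i < n → j < n → g i = g j → i = j) ∧
          (∀ i : ℕ, (Finset.range k).image (fun j => g (i + j)) ∈ H) :=
  final main dir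

end Pool.Agent.H48.TC
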