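import Pool.Agent.H48.TC.Stm
import Pool.Agent.H48.PW.Basic

/-!
Basic lemmas: complexes, positive degree, tight paths.
-/

set_option autoImplicit false

namespace Pool.Agent.H48.TC

open Finset Pool.Agent.H48.PW Pool.Agent.Helper83K9.CF

section complexes

variable {V : Type} [DecidableEq V] {K : Finset V → Prop} {k : ℕ} {γ : ℝ} {U : Finset V}

theorem mem_ex {T : Finset V} {v : V} : v ∈ ex K U T ↔ v ∈ U ∧ v ∉ T ∧ K (insert v T) := by
  unfold ex
  simp

theorem mem_ce {T : Finset V} {v : V} : v ∈ ce K U T ↔ v ∈ U ∧ ¬ (v ∉ T ∧ K (insert v T)) := by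
  unfold ce
  rw [mem_sdiff, mem_ex]
  tauto

theorem ex_subset (T : Finset V) : ex K U T ⊆ U := fun _ h => (mem_ex.1 h).1

theorem ce_subset (T : Finset V) : ce K U T ⊆ U := fun _ h => (mem_ce.1 h).1

theorem ex_inter {U' : Finset V} (h : U' ⊆ U) (T : Finset V) : ex K U' T = ex K U T ∩ U' := by
  ext v
  rw [mem_inter, mem_ex, mem_ex]
  constructor
  · rintro ⟨h1, h2⟩; exact ⟨⟨h h1, h2⟩, h1⟩
  · rintro ⟨⟨_, h2⟩, h1⟩; exact ⟨h1, h2⟩

theorem card_ce (T : Finset V) : ((ce K U T).card : ℝ) = (U.card : ℝ) - ((ex K U T).card : ℝ) := by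
  unfold ce
  rw [card_sdiff_of_subset (ex_subset T), Nat.cast_sub (card_le_card (ex_subset T))]

/-- `PD` in terms of the complements -/
theorem PD.ce_le (h : PD k K γ U) {T : Finset V} (hT : K T) (hk : T.card < k) :
    ((ce K U T).card : ℝ) ≤ (1 / (k : ℝ) + γ) * (U.card : ℝ) := by
  rw [card_ce]
  have := h T hT hk
  linarith

theorem PD.mono {γ' : ℝ} (h : PD k K γ U) (hg : γ ≤ γ') : PD k K γ' U := by
  intro T hT hk
  have h1 := h T hT hk
  have h2 : (0 : ℝ) ≤ (U.card : ℝ) := Nat.cast_nonneg _
  nlinarith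

/-- removal of few vertices -/
theorem PD.sub {ρ : ℝ} {U' : Finset V} (h : PD k K γ U) (hU : U' ⊆ U)
    (hB : ((U \ U').card : ℝ) ≤ ρ * (U.card : ℝ)) : PD k K (γ + ρ) U' := by
  intro T hT hk
  have h1 := h T hT hk
  have h3 : ex K U T ⊆ ex K U' T ∪ (U \ U') := by
    intro v hv
    rw [mem_union, mem_sdiff]
    rcases em (v ∈ U') with h4 | h4
    · left
      rw [ex_inter hU]
      exact mem_inter.2 ⟨hv, h4⟩
    · right; exact ⟨ex_subset T hv, h4⟩
  have h4 : ((ex K U T).card : ℝ) ≤ ((ex K U' T).card : ℝ) + ((U \ U').card : ℝ) := by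
    have := (card_le_card h3).trans (card_union_le _ _)
    exact_mod_cast this
  have h5 : (U'.card : ℝ) ≤ (U.card : ℝ) := by exact_mod_cast card_le_card hU
  have h6 : (0 : ℝ) ≤ (U'.card : ℝ) := Nat.cast_nonneg _
  have h7 : (0 : ℝ) ≤ ((ex K U' T).card : ℝ) := Nat.cast_nonneg _
  rcases le_or_gt (1 - 1 / (k : ℝ) - (γ + ρ)) 0 with h8 | h8
  · nlinarith
  · nlinarith

theorem PD.sdiff {ρ : ℝ} {B : Finset V} (h : PD k K γ U)
    (hB : (B.card : ℝ) ≤ ρ * (U.card : ℝ)) : PD k K (γ + ρ) (U \ B) := by
  refine h.sub sdiff_subset ?_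
  refine le_trans ?_ hB
  exact_mod_cast card_le_card (by intro v; simp only [mem_sdiff]; tauto)

/-- adding few vertices -/
theorem PD.superset {ρ : ℝ} {U' : Finset V} (h : PD k K γ U) (hU : U ⊆ U')
    (hB : ((U' \ U).card : ℝ) ≤ ρ * (U'.card : ℝ)) (hk1 : 1 ≤ k) (hγ : 0 ≤ γ) :
    PD k K (γ + ρ) U' := by
  intro T hT hk
  have h1 := h T hT hk
  have h3 : ex K U T ⊆ ex K U' T := by
    rw [ex_inter hU]; exact inter_subset_left
  have h4 : ((ex K U T).card : ℝ) ≤ ((ex K U' T).card : ℝ) := by exact_mod_cast card_le_card h3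
  have h5 : (U'.card : ℝ) = (U.card : ℝ) + ((U' \ U).card : ℝ) := by
    rw [← Nat.cast_add, ← card_sdiff_add_card_eq_card hU, add_comm]
  have h6 : (0 : ℝ) ≤ (U'.card : ℝ) := Nat.cast_nonneg _
  have h7 : (0 : ℝ) ≤ ((ex K U' T).card : ℝ) := Nat.cast_nonneg _
  have h8 : (0 : ℝ) ≤ ((U' \ U).card : ℝ) := Nat.cast_nonneg _
  have h9 : (0 : ℝ) < 1 / (k : ℝ) := by
    have : (0 : ℝ) < k := by exact_mod_cast hk1
    positivity
  nlinarith

theorem PD.univ_card [Fintype V] (h : PD k K γ univ) {T : Finset V} (hT : K T) (hk : T.card < k) :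
    (1 - 1 / (k : ℝ) - γ) * (Fintype.card V : ℝ) ≤ ((ex K univ T).card : ℝ) := by
  have := h T hT hk
  rwa [card_univ] at this

/-- a vertex of `U` outside of `F` which extends `T` -/
theorem PD.exists_ext (h : PD k K γ U) {T F : Finset V} (hT : K T) (hk : T.card < k)
    (hF : (F.card : ℝ) < (1 - 1 / (k : ℝ) - γ) * (U.card : ℝ)) :
    ∃ v ∈ U, v ∉ F ∧ v ∉ T ∧ K (insert v T) := by
  have h1 := h T hT hk
  have h2 : ¬ ex K U T ⊆ F := by
    intro h3
    have : ((ex K U T).card : ℝ) ≤ (F.card : ℝ) := by exact_mod_cast card_le_card h3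
    linarith
  obtain ⟨v, hv, hvF⟩ := not_subset.1 h2
  have h3 := mem_ex.1 hv
  exact ⟨v, h3.1, hvF, h3.2.1, h3.2.2⟩

/-- a vertex of `U` outside of `F` which extends `T` and `T'` -/
theorem PD.exists_ext2 (h : PD k K γ U) {T T' F : Finset V} (hT : K T) (hk : T.card < k)
    (hT' : K T') (hk' : T'.card < k)
    (hF : (F.card : ℝ) < (1 - 2 * (1 / (k : ℝ) + γ)) * (U.card : ℝ)) :
    ∃ v ∈ U, v ∉ F ∧ v ∉ T ∧ v ∉ T' ∧ K (insert v T) ∧ K (insert v T') := by
  have h1 := h.ce_le hT hk
  have h1' := h.ce_le hT' hk'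
  have h2 : ¬ U ⊆ F ∪ (ce K U T ∪ ce K U T') := by
    intro h3
    have h4 := (card_le_card h3).trans ((card_union_le _ _).trans
      (Nat.add_le_add_left (card_union_le _ _) _))
    have h5 : (U.card : ℝ) ≤ (F.card : ℝ) + (((ce K U T).card : ℝ) + ((ce K U T').card : ℝ)) := by
      exact_mod_cast h4
    nlinarith
  obtain ⟨v, hv, hvF⟩ := not_subset.1 h2
  rw [mem_union, mem_union, mem_ce, mem_ce] at hvF
  have h4 : v ∉ T ∧ K (insert v T) := by tauto
  have h5 : v ∉ T' ∧ K (insert v T') := by tauto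
  exact ⟨v, hv, by tauto, h4.1, h5.1, h4.2, h5.2⟩

/-- greedy extension of `T` to a member with `m` elements, the new elements in `U` and outside of `F` -/
theorem PD.exists_grow (h : PD k K γ U) {T F : Finset V} (hT : K T) {m : ℕ} (hTm : T.card ≤ m)
    (hm : m ≤ k) (hF : (F.card : ℝ) < (1 - 1 / (k : ℝ) - γ) * (U.card : ℝ)) :
    ∃ S : Finset V, T ⊆ S ∧ K S ∧ S.card = m ∧ (∀ v ∈ S, v ∉ T → v ∈ U ∧ v ∉ F) := by
  induction m, hTm using Nat.le_induction with
  | base => exact ⟨T, Subset.rfl, hT, rfl, fun v hv hv' => absurd hv hv'⟩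
  | succ m hTm ih =>
    obtain ⟨S, h1, h2, h3, h4⟩ := ih (by omega)
    obtain ⟨v, h5, h6, h7, h8⟩ := h.exists_ext h2 (by omega) hF
    refine ⟨insert v S, h1.trans (subset_insert _ _), h8, ?_, ?_⟩
    · rw [card_insert_of_notMem h7, h3]
    · intro w hw hwT
      rcases mem_insert.1 hw with rfl | hw
      · exact ⟨h5, h6⟩
      · exact h4 w hw hwT

theorem XS.mono [Fintype V] {c₁ c c' : ℝ} {Y Ys Xs : Finset V} (h : XS k K c₁ c Y Ys Xs)
    (hc : c ≤ c') : XS k K c₁ c' Y Ys Xs := by
  have hn : c * (Fintype.card V : ℝ) ≤ c' * (Fintype.card V : ℝ) :=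
    mul_le_mul_of_nonneg_right hc (Nat.cast_nonneg _)
  exact ⟨h.ys, h.xs, h.cY.trans hn, h.cYs.trans hn, h.cXs.trans hn, h.ext,
    fun y hy T h1 h2 h3 => (h.exts y hy T h1 h2 h3).trans hn,
    fun x hx => (h.xtp x hx).trans hn, h.xall, h.ydeg⟩

theorem GB.mono [Fintype V] {g g' : ℝ} {Y Y' : Finset V} {l : List V} (h : GB k K g Y l)
    (hY : Y' ⊆ Y) (hg : g ≤ g') : GB k K g' Y' l := by
  refine ⟨h.len, h.nd, h.mem, ?_⟩
  have h1 : ((Y' \ ex K univ l.toFinset).card : ℝ) ≤ ((Y \ ex K univ l.toFinset).card : ℝ) := by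
    exact_mod_cast card_le_card (sdiff_subset_sdiff hY Subset.rfl)
  exact (h1.trans h.ext).trans (mul_le_mul_of_nonneg_right hg (Nat.cast_nonneg _))

end complexes

section paths

variable {V β : Type} [DecidableEq V] [DecidableEq β] {K K' : Finset V → Prop} {k : ℕ}
  {l u v b : List V}

theorem TP.mono_K (h : ∀ T, K T → K' T) (hl : TP K k l) : TP K' k l := fun i => h _ (hl i)

/-- windows with at most `k` entries -/
theorem TP.window (hK : Cx k K) (h : TP K k l) (i m : ℕ) (hm : m ≤ k) :
    K ((l.drop i).take m).toFinset := by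
  refine hK.sub _ _ (h i) ?_
  intro x hx
  rw [List.mem_toFinset] at hx ⊢
  have e : (l.drop i).take m = ((l.drop i).take k).take m := by
    rw [List.take_take, Nat.min_eq_left hm]
  rw [e] at hx
  exact List.mem_of_mem_take hx

theorem TP.toFinset (h : TP K k l) (hl : l.length ≤ k) : K l.toFinset := by
  have := h 0
  rwa [List.drop_zero, List.take_of_length_le hl] at this

theorem TP.of_length_le (hK : Cx k K) (h : K l.toFinset) : TP K k l := by
  intro i
  refine hK.sub _ _ h ?_
  intro x hx
  rw [List.mem_toFinset] at hx ⊢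
  exact List.mem_of_mem_drop (List.mem_of_mem_take hx)

theorem TP.nil (hK : Cx k K) : TP K k ([] : List V) :=
  TP.of_length_le hK (by simpa using hK.emp)

theorem TP.singleton (hK : Cx k K) (a : V) : TP K k [a] :=
  TP.of_length_le hK (by simpa using hK.vert a)

/-- membership form: `TP` as soon as every `k` consecutive entries lie in a member -/
theorem tp_of (hK : Cx k K)
    (h : ∀ i, i < l.length → ∃ T, K T ∧ ∀ j x, i ≤ j → j < i + k → l[j]? = some x → x ∈ T) :
    TP K k l := by
  intro i
  rcases lt_or_ge i l.length with hi | hi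
  · obtain ⟨T, hT, h1⟩ := h i hi
    refine hK.sub _ _ hT ?_
    intro x hx
    rw [List.mem_toFinset] at hx
    obtain ⟨j, hj⟩ := List.mem_iff_getElem?.1 hx
    rw [List.getElem?_take] at hj
    split_ifs at hj with hjk
    rw [List.getElem?_drop] at hj
    exact h1 (i + j) x (by omega) (by omega) hj
  · rw [List.drop_eq_nil_of_le hi]
    simpa using hK.emp

/-- every set of entries from `k` consecutive positions is a member -/
theorem TP.mem_of (hK : Cx k K) (h : TP K k l) (i : ℕ) {T : Finset V}
    (hT : ∀ x ∈ T, ∃ j, i ≤ j ∧ j < i + k ∧ l[j]? = some x) : K T := by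
  refine hK.sub _ _ (h i) ?_
  intro x hx
  obtain ⟨j, h1, h2, h3⟩ := hT x hx
  rw [List.mem_toFinset, List.mem_iff_getElem?]
  refine ⟨j - i, ?_⟩
  rw [List.getElem?_take, if_pos (by omega), List.getElem?_drop]
  rwa [show i + (j - i) = j by omega]

theorem TP.right (h : TP K k (u ++ v)) : TP K k v := by
  intro i
  have h1 := h (u.length + i)
  rwa [List.drop_append, List.drop_eq_nil_of_le (by omega), List.nil_append,
    Nat.add_sub_cancel_left] at h1

theorem TP.left (hK : Cx k K) (h : TP K k (u ++ v)) : TP K k u := by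
  refine tp_of hK fun i hi => ⟨_, h i, fun j x h1 h2 h3 => ?_⟩
  rw [List.mem_toFinset, List.mem_iff_getElem?]
  refine ⟨j - i, ?_⟩
  rw [List.getElem?_take, if_pos (by omega), List.getElem?_drop, show i + (j - i) = j by omega,
    List.getElem?_append_left (List.getElem?_eq_some_iff.1 h3).1]
  exact h3

theorem TP.inner {w : List V} (hK : Cx k K) (h : TP K k (u ++ v ++ w)) : TP K k v :=
  (TP.left hK h).right

theorem TP.take (hK : Cx k K) (h : TP K k l) (n : ℕ) : TP K k (l.take n) := by
  have h1 : TP K k (l.take n ++ l.drop n) := by rwa [List.take_append_drop]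
  exact TP.left hK h1

theorem TP.drop (h : TP K k l) (n : ℕ) : TP K k (l.drop n) := by
  have h1 : TP K k (l.take n ++ l.drop n) := by rwa [List.take_append_drop]
  exact h1.right

theorem TP.lastn (h : TP K k l) (n : ℕ) : TP K k (PW.lastn n l) := h.drop _

/-- gluing along at least `k - 1` common entries -/
theorem TP.glue (h1 : TP K k (u ++ b)) (h2 : TP K k (b ++ v)) (hb : k - 1 ≤ b.length) :
    TP K k (u ++ b ++ v) := by
  intro i
  rcases lt_or_ge i u.length with h | h
  · have h3 := h1 i
    have e : ((u ++ b ++ v).drop i).take k = ((u ++ b).drop i).take k := by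
      rw [List.drop_append_of_le_length (by simp; omega), List.take_append_of_le_length]
      rw [List.length_drop, List.length_append]
      omega
    rw [e]
    exact h3
  · have h3 := h2 (i - u.length)
    have e : (u ++ b ++ v).drop i = (b ++ v).drop (i - u.length) := by
      rw [List.append_assoc, List.drop_append, List.drop_eq_nil_of_le h, List.nil_append]
    rw [e]
    exact h3

/-- only the last `k - 1` entries of `l` matter for `l ++ v` -/
theorem TP.append_of_lastn (h1 : TP K k l) (h2 : TP K k (PW.lastn (k - 1) l ++ v))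
    (hl : k - 1 ≤ l.length) : TP K k (l ++ v) := by
  have e : l = l.take (l.length - (k - 1)) ++ PW.lastn (k - 1) l := (append_lastn (k - 1) l).symm
  rw [e]
  refine TP.glue ?_ h2 (by rw [length_lastn]; omega)
  rw [← e]
  exact h1

/-- only the first `k - 1` entries of `l` matter for `u ++ l` -/
theorem TP.append_of_take (h1 : TP K k (u ++ l.take (k - 1))) (h2 : TP K k l)
    (hl : k - 1 ≤ l.length) : TP K k (u ++ l) := by
  have e : l = l.take (k - 1) ++ l.drop (k - 1) := (List.take_append_drop (k - 1) l).symm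
  have h3 : TP K k (u ++ l.take (k - 1) ++ l.drop (k - 1)) :=
    TP.glue h1 (by rw [← e]; exact h2) (by rw [List.length_take]; omega)
  rwa [List.append_assoc, ← e] at h3

/-- two lists and a connection -/
theorem TP.connect {c A B : List V} (hA : TP K k A) (hB : TP K k B) (hAl : k - 1 ≤ A.length)
    (hBl : k - 1 ≤ B.length) (h : TP K k (PW.lastn (k - 1) A ++ c ++ B.take (k - 1))) :
    TP K k (A ++ c ++ B) := by
  have h1 : TP K k (PW.lastn (k - 1) A ++ (c ++ B)) := by
    have h2 : TP K k ((PW.lastn (k - 1) A ++ c) ++ B) := TP.append_of_take h hB hBl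
    rwa [List.append_assoc] at h2
  have h3 := TP.append_of_lastn hA h1 hAl
  rwa [← List.append_assoc] at h3

/-- replacing a part by a list with the same first `k - 1` and the same last `k - 1` entries -/
theorem TP.replace {w A A' : List V} (hK : Cx k K) (h : TP K k (u ++ A ++ w)) (hA' : TP K k A')
    (hl' : k - 1 ≤ A'.length) (h1 : A'.take (k - 1) = A.take (k - 1))
    (h2 : PW.lastn (k - 1) A' = PW.lastn (k - 1) A) : TP K k (u ++ A' ++ w) := by
  have h3 : TP K k (u ++ A') := by
    refine TP.append_of_take ?_ hA' hl'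
    rw [h1]
    have h4 : TP K k (u ++ A) := TP.left hK h
    have h5 : TP K k ((u ++ A.take (k - 1)) ++ A.drop (k - 1)) := by
      rw [List.append_assoc, List.take_append_drop]; exact h4
    exact TP.left hK h5
  have h4 : TP K k (A' ++ w) := by
    refine TP.append_of_lastn hA' ?_ hl'
    rw [h2]
    have h5 : TP K k (A ++ w) := by
      rw [List.append_assoc] at h
      exact h.right
    have h6 : TP K k (A.take (A.length - (k - 1)) ++ (PW.lastn (k - 1) A ++ w)) := by
      rw [← List.append_assoc, append_lastn]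
      exact h5
    exact h6.right
  exact TP.glue h3 h4 hl'

/-- one more entry at the end -/
theorem TP.snoc {x : V} (hK : Cx k K) (h : TP K k l)
    (hx : K (insert x (PW.lastn (k - 1) l).toFinset)) : TP K k (l ++ [x]) := by
  have h2 : TP K k (PW.lastn (k - 1) l ++ [x]) := by
    refine TP.of_length_le hK ?_
    have e : (PW.lastn (k - 1) l ++ [x]).toFinset = insert x (PW.lastn (k - 1) l).toFinset := by
      ext y; simp
    rw [e]; exact hx
  rcases le_or_gt (k - 1) l.length with hl | hl
  · exact TP.append_of_lastn h h2 hl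
  · have e : PW.lastn (k - 1) l = l := by
      unfold PW.lastn
      rw [show l.length - (k - 1) = 0 by omega, List.drop_zero]
    rwa [e] at h2

/-- one more entry at the beginning -/
theorem TP.cons {x : V} (hK : Cx k K) (h : TP K k l)
    (hx : K (insert x (l.take (k - 1)).toFinset)) : TP K k (x :: l) := by
  have h2 : TP K k ([x] ++ l.take (k - 1)) := by
    refine TP.of_length_le hK ?_
    have e : ([x] ++ l.take (k - 1)).toFinset = insert x (l.take (k - 1)).toFinset := by
      simp
    rw [e]; exact hx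
  rcases le_or_gt (k - 1) l.length with hl | hl
  · exact TP.append_of_take h2 h hl
  · rw [List.take_of_length_le (by omega)] at h2
    exact h2

theorem TP.snoc_mem {x : V} (hK : Cx k K) (hk : 1 ≤ k) (h : TP K k (l ++ [x])) :
    K (insert x (PW.lastn (k - 1) l).toFinset) := by
  refine TP.mem_of hK h (l.length - (k - 1)) ?_
  intro y hy
  rcases mem_insert.1 hy with rfl | hy
  · refine ⟨l.length, by omega, by omega, ?_⟩
    rw [List.getElem?_append_right le_rfl]
    simp
  · rw [List.mem_toFinset] at hy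
    obtain ⟨j, hj⟩ := List.mem_iff_getElem?.1 hy
    unfold PW.lastn at hj
    rw [List.getElem?_drop] at hj
    have h4 := (List.getElem?_eq_some_iff.1 hj).1
    refine ⟨l.length - (k - 1) + j, by omega, by omega, ?_⟩
    rw [List.getElem?_append_left h4]
    exact hj

theorem TP.cons_mem {x : V} (hk : 1 ≤ k) (h : TP K k (x :: l)) :
    K (insert x (l.take (k - 1)).toFinset) := by
  have h1 := h 0
  rw [List.drop_zero] at h1
  obtain ⟨m, rfl⟩ : ∃ m, k = m + 1 := ⟨k - 1, by omega⟩
  rw [List.take_succ_cons, List.toFinset_cons] at h1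
  exact h1

theorem TP.map {f : V → β} {L : Finset β → Prop} (h : TP (fun T => L (T.image f)) k l) :
    TP L k (l.map f) := by
  intro i
  have h1 := h i
  have e : (((l.map f).drop i).take k).toFinset = ((l.drop i).take k).toFinset.image f := by
    ext x
    simp only [List.mem_toFinset, mem_image, ← List.map_drop, ← List.map_take, List.mem_map]
  rw [e]
  exact h1

/-- the list of the values of a function -/
theorem tp_ofFn (hK : Cx k K) {r : ℕ} {c : Fin r → V}
    (h : ∀ i : ℕ, i < r → ∃ T, K T ∧ ∀ j : Fin r, i ≤ j → (j : ℕ) < i + k → c j ∈ T) :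
    TP K k (List.ofFn c) := by
  refine tp_of hK fun i hi => ?_
  rw [List.length_ofFn] at hi
  obtain ⟨T, hT, h1⟩ := h i hi
  refine ⟨T, hT, fun j x h2 h3 h4 => ?_⟩
  rw [List.getElem?_ofFn] at h4
  split_ifs at h4 with h5
  rw [← Option.some_injective _ h4]
  exact h1 ⟨j, h5⟩ h2 h3

/-- reversal -/
theorem TP.reverse (hK : Cx k K) (h : TP K k l) : TP K k l.reverse := by
  refine tp_of hK fun i hi => ?_
  rw [List.length_reverse] at hi
  refine ⟨_, TP.window hK h (l.length - (i + k)) (min k (l.length - i)) (min_le_left _ _), ?_⟩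
  intro j x h1 h2 h3
  have hj := (List.getElem?_eq_some_iff.1 h3).1
  rw [List.length_reverse] at hj
  rw [List.getElem?_reverse hj] at h3
  rw [List.mem_toFinset, List.mem_iff_getElem?]
  refine ⟨l.length - 1 - j - (l.length - (i + k)), ?_⟩
  rw [List.getElem?_take, if_pos (by omega), List.getElem?_drop,
    show l.length - (i + k) + (l.length - 1 - j - (l.length - (i + k))) = l.length - 1 - j by omega]
  exact h3

/-- a closed tight path -/
theorem TP.closed (h : TP K k l) (hl : k - 1 ≤ l.length) (h1 : TP K k (l ++ l.take (k - 1))) :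
    TP K k (l ++ l) := TP.append_of_take h1 h hl

theorem TW.left (hK : Cx k K) (h : TW K k (u ++ v)) : TW K k u := by
  refine ⟨TP.left hK h.1, fun i => ?_⟩
  have h1 := h.2 i
  refine List.Nodup.sublist ?_ h1
  rw [List.drop_append, List.take_append]
  exact List.sublist_append_left _ _

theorem TW.right (h : TW K k (u ++ v)) : TW K k v := by
  refine ⟨h.1.right, fun i => ?_⟩
  have h1 := h.2 (u.length + i)
  rwa [List.drop_append, List.drop_eq_nil_of_le (by omega), List.nil_append,
    Nat.add_sub_cancel_left] at h1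

/-- gluing of tight walks along at least `k - 1` common entries -/
theorem TW.glue (h1 : TW K k (u ++ b)) (h2 : TW K k (b ++ v)) (hb : k - 1 ≤ b.length) :
    TW K k (u ++ b ++ v) := by
  refine ⟨TP.glue h1.1 h2.1 hb, fun i => ?_⟩
  rcases lt_or_ge i u.length with h | h
  · have h3 := h1.2 i
    have e : ((u ++ b ++ v).drop i).take k = ((u ++ b).drop i).take k := by
      rw [List.drop_append_of_le_length (by simp; omega), List.take_append_of_le_length]
      rw [List.length_drop, List.length_append]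
      omega
    rw [e]
    exact h3
  · have h3 := h2.2 (i - u.length)
    have e : (u ++ b ++ v).drop i = (b ++ v).drop (i - u.length) := by
      rw [List.append_assoc, List.drop_append, List.drop_eq_nil_of_le h, List.nil_append]
    rw [e]
    exact h3

end paths

end Pool.Agent.H48.TC
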