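import Pool.Agent.H48.TC.Stm

/-!
Leaf PAIR: many disjoint adjacent pairs in `Y`.
-/

set_option autoImplicit false

namespace Pool.Agent.H48.TC

open Finset Pool.Agent.H48.PW Pool.Agent.Helper83K9.CF

namespace PAIRL

variable {V : Type} [Fintype V] [DecidableEq V] {K : Finset V → Prop}

theorem mem_ex {U T : Finset V} {v : V} : v ∈ ex K U T ↔ v ∈ U ∧ v ∉ T ∧ K (insert v T) := by
  classical
  unfold ex
  rw [mem_filter]

theorem mem_ex1 {y v : V} : v ∈ ex K univ {y} ↔ v ≠ y ∧ K {v, y} := by
  rw [mem_ex]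
  simp

theorem ex_symm {y v : V} (h : v ∈ ex K univ {y}) : y ∈ ex K univ {v} := by
  rw [mem_ex1] at h ⊢
  refine ⟨fun e => h.1 e.symm, ?_⟩
  rw [pair_comm]
  exact h.2

/-- the greedy set -/
theorem greedy {k : ℕ} {c₁ c : ℝ} {Y Ys Xs : Finset V} (hK : Cx k K) (hX : XS k K c₁ c Y Ys Xs)
    (hbig : c₁ * (Fintype.card V : ℝ) < ((Yᶜ : Finset V).card : ℝ)) {y : V} (hy : y ∈ Y) :
    ∀ j : ℕ, j + 1 < k → ∃ T : Finset V, K T ∧ y ∈ T ∧ T.card = j + 1 ∧ ∀ x ∈ T, x ≠ y → x ∉ Y := by
  intro j
  induction j with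
  | zero =>
    intro _
    refine ⟨{y}, hK.vert y, mem_singleton_self y, card_singleton y, fun x hx hne => ?_⟩
    exact absurd (mem_singleton.1 hx) hne
  | succ j ih =>
    intro hj
    obtain ⟨T, h1, h2, h3, h4⟩ := ih (by omega)
    have h5 := hX.ext y hy T h1 h2 (by omega)
    have h6 : ∃ x ∈ (Yᶜ : Finset V), x ∈ ex K univ T := by
      by_contra hcon
      push Not at hcon
      have : (Yᶜ : Finset V) \ ex K univ T = Yᶜ := by
        rw [sdiff_eq_left, disjoint_left]
        exact hcon
      rw [this] at h5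
      linarith
    obtain ⟨x, hx1, hx2⟩ := h6
    rw [mem_ex] at hx2
    rw [mem_compl] at hx1
    refine ⟨insert x T, hx2.2.2, mem_insert_of_mem h2, ?_, ?_⟩
    · rw [card_insert_of_notMem hx2.2.1, h3]
    · intro z hz hne
      rcases mem_insert.1 hz with rfl | hz
      · exact hx1
      · exact h4 z hz hne

/-- all degrees are large -/
theorem deg_lower {k : ℕ} (hk : 3 ≤ k) {c₁ c : ℝ} {Y Ys Xs : Finset V} (hK : Cx k K)
    (hPD : PD k K 0 univ) (hX : XS k K c₁ c Y Ys Xs)
    (hbig : c₁ * (Fintype.card V : ℝ) < ((Yᶜ : Finset V).card : ℝ)) {y : V} (hy : y ∈ Y) :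
    (Y.card : ℝ) - (Fintype.card V : ℝ) / k + 1 ≤ ((Y ∩ ex K univ {y}).card : ℝ) := by
  obtain ⟨T, h1, h2, h3, h4⟩ := greedy hK hX hbig hy (k - 2) (by omega)
  have hT : T.card = k - 1 := by omega
  have h5 := hPD T h1 (by omega)
  rw [card_univ, sub_zero] at h5
  -- the complement
  have hsub : (T.erase y) ∪ (Y \ ex K univ T) ⊆ (ex K univ T)ᶜ := by
    intro z hz
    rw [mem_compl]
    rcases mem_union.1 hz with hz | hz
    · intro hz'
      exact (mem_ex.1 hz').2.1 (mem_of_mem_erase hz)
    · exact (mem_sdiff.1 hz).2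
  have hdis : Disjoint (T.erase y) (Y \ ex K univ T) := by
    rw [disjoint_left]
    intro z hz hz'
    exact h4 z (mem_of_mem_erase hz) (ne_of_mem_erase hz) (mem_sdiff.1 hz').1
  have h6 := card_le_card hsub
  rw [card_union_of_disjoint hdis, card_erase_of_mem h2, hT, card_compl] at h6
  have h7 : (ex K univ T).card ≤ Fintype.card V := card_le_univ _
  have h8 : (Y ∩ ex K univ T).card + (Y \ ex K univ T).card = Y.card :=
    card_inter_add_card_sdiff Y (ex K univ T)
  have h9 : (Y ∩ ex K univ T).card ≤ (Y ∩ ex K univ {y}).card := by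
    refine card_le_card fun z hz => ?_
    rw [mem_inter] at hz ⊢
    refine ⟨hz.1, ?_⟩
    have h10 := mem_ex.1 hz.2
    rw [mem_ex1]
    refine ⟨fun e => h10.2.1 (e ▸ h2), ?_⟩
    refine hK.sub _ _ h10.2.2 ?_
    intro w hw
    rcases mem_insert.1 hw with rfl | hw
    · exact mem_insert_self _ _
    · rw [mem_singleton.1 hw]
      exact mem_insert_of_mem h2
  have hk0 : (0 : ℝ) < k := by positivity
  have a1 : ((k - 1 - 1 : ℕ) : ℝ) + ((Y \ ex K univ T).card : ℝ) + ((ex K univ T).card : ℝ) ≤
      (Fintype.card V : ℝ) := by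
    have : (k - 1 - 1) + (Y \ ex K univ T).card + (ex K univ T).card ≤ Fintype.card V := by omega
    exact_mod_cast this
  have a2 : (1 : ℝ) ≤ ((k - 1 - 1 : ℕ) : ℝ) := by
    have : 1 ≤ k - 1 - 1 := by omega
    exact_mod_cast this
  have a3 : ((Y ∩ ex K univ T).card : ℝ) + ((Y \ ex K univ T).card : ℝ) = (Y.card : ℝ) := by
    exact_mod_cast h8
  have a4 : ((Y ∩ ex K univ T).card : ℝ) ≤ ((Y ∩ ex K univ {y}).card : ℝ) := by
    exact_mod_cast h9
  have a5 : (1 - 1 / (k : ℝ)) * (Fintype.card V : ℝ) =
      (Fintype.card V : ℝ) - (Fintype.card V : ℝ) / k := by ring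
  rw [a5] at h5
  linarith

/-- a new pair outside of a small set -/
theorem exists_pair {k : ℕ} (hk : 3 ≤ k) {c₁ : ℝ} {Y Ys Xs : Finset V} (hc : 0 < c₁)
    (hX : XS k K c₁ c₁ Y Ys Xs)
    (hdeg : ∀ y ∈ Y, (Y.card : ℝ) - (Fintype.card V : ℝ) / k + 1 ≤
      ((Y ∩ ex K univ {y}).card : ℝ)) (U : Finset V)
    (hU : 2 * (U.card : ℝ) * (c₁ * (Fintype.card V : ℝ)) <
      (Y.card : ℝ) * ((Y.card : ℝ) - (Fintype.card V : ℝ) / k + 1)) :
    ∃ x ∈ Y, ∃ y ∈ Y, x ∉ U ∧ y ∉ U ∧ x ≠ y ∧ K {x, y} := by
  classical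
  by_contra hcon
  push Not at hcon
  have hcn : 0 ≤ c₁ * (Fintype.card V : ℝ) := by positivity
  have h1 : (Y.card : ℝ) * ((Y.card : ℝ) - (Fintype.card V : ℝ) / k + 1) ≤
      ∑ y ∈ Y, ((Y ∩ ex K univ {y}).card : ℝ) := by
    have := Finset.sum_le_sum hdeg
    rwa [sum_const, nsmul_eq_mul] at this
  have h2 : ∑ y ∈ Y, ((Y ∩ ex K univ {y}).card : ℝ) =
      ∑ y ∈ Y ∩ U, ((Y ∩ ex K univ {y}).card : ℝ) +
        ∑ y ∈ Y \ U, ((Y ∩ ex K univ {y}).card : ℝ) := (sum_inter_add_sum_sdiff Y U _).symm
  have h3 : ∑ y ∈ Y ∩ U, ((Y ∩ ex K univ {y}).card : ℝ) ≤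
      (U.card : ℝ) * (c₁ * (Fintype.card V : ℝ)) := by
    calc ∑ y ∈ Y ∩ U, ((Y ∩ ex K univ {y}).card : ℝ)
        ≤ ∑ _y ∈ Y ∩ U, c₁ * (Fintype.card V : ℝ) :=
          sum_le_sum fun y hy => hX.ydeg y (mem_inter.1 hy).1
      _ = ((Y ∩ U).card : ℝ) * (c₁ * (Fintype.card V : ℝ)) := by rw [sum_const, nsmul_eq_mul]
      _ ≤ _ := by
          refine mul_le_mul_of_nonneg_right ?_ hcn
          exact_mod_cast card_le_card inter_subset_right
  have h4 : ∑ y ∈ Y \ U, (Y ∩ ex K univ {y}).card ≤
      ∑ u ∈ Y ∩ U, (Y ∩ ex K univ {u}).card := by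
    calc ∑ y ∈ Y \ U, (Y ∩ ex K univ {y}).card
        ≤ ∑ y ∈ Y \ U, ((Y ∩ U).filter (fun u => u ∈ ex K univ {y})).card := by
          refine sum_le_sum fun y hy => card_le_card fun z hz => ?_
          rw [mem_sdiff] at hy
          rw [mem_inter] at hz
          rw [mem_filter, mem_inter]
          refine ⟨⟨hz.1, ?_⟩, hz.2⟩
          by_contra hzU
          have h5 := mem_ex1.1 hz.2
          exact hcon z hz.1 y hy.1 hzU hy.2 h5.1 h5.2
      _ = ∑ u ∈ Y ∩ U, ((Y \ U).filter (fun y => u ∈ ex K univ {y})).card := by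
          simp only [card_filter]
          exact sum_comm
      _ ≤ ∑ u ∈ Y ∩ U, (Y ∩ ex K univ {u}).card := by
          refine sum_le_sum fun u _ => card_le_card fun z hz => ?_
          rw [mem_filter, mem_sdiff] at hz
          rw [mem_inter]
          exact ⟨hz.1.1, ex_symm hz.2⟩
  have h5 : ∑ y ∈ Y \ U, ((Y ∩ ex K univ {y}).card : ℝ) ≤
      ∑ y ∈ Y ∩ U, ((Y ∩ ex K univ {y}).card : ℝ) := by
    exact_mod_cast h4
  linarith

end PAIRL

open PAIRL in
theorem pair : S_PAIR := by
  intro k c₁ hk hc hc1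
  refine ⟨c₁, 1, hc, le_rfl, ?_⟩
  intro V _ _ K hK hn hPD Y Ys Xs hX hY p hp
  classical
  have hk0 : (0 : ℝ) < k := by positivity
  have hk3 : (3 : ℝ) ≤ k := by exact_mod_cast hk
  have hn0 : (1 : ℝ) ≤ (Fintype.card V : ℝ) := by exact_mod_cast hn
  set n : ℝ := (Fintype.card V : ℝ) with hnd
  have hc2 : c₁ ≤ 1 / 900 := by
    refine hc1.trans ?_
    refine one_div_le_one_div_of_le (by norm_num) ?_
    nlinarith
  have hbig : c₁ * n < ((Yᶜ : Finset V).card : ℝ) := by
    have h1 := (abs_le.1 hX.cY).2
    rw [card_compl, Nat.cast_sub (card_le_univ _)]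
    have h2 : n / k ≤ n / 3 := div_le_div_of_nonneg_left (by linarith) (by norm_num) hk3
    have h3 : c₁ * n ≤ 1 / 900 * n := mul_le_mul_of_nonneg_right hc2 (by linarith)
    rw [← hnd] at h1 ⊢
    linarith
  have hdeg := fun (y : V) (hy : y ∈ Y) => deg_lower hk hK hPD hX hbig hy
  -- bound for `p`
  have hD : (p : ℝ) ≤ k * (Y.card : ℝ) - n + 1 := by
    have h1 : p ≤ k * Y.card - Fintype.card V + 1 := by
      have h2 : 1 ≤ k - 1 := by omega
      by_contra h3
      push Not at h3
      have h4 : (k - 1) * (k * Y.card - Fintype.card V + 2) ≤ (k - 1) * p :=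
        Nat.mul_le_mul_left _ h3
      have h5 : (k - 1) * (k * Y.card - Fintype.card V + 2) =
          (k - 1) * (k * Y.card - Fintype.card V) + 2 * (k - 1) := by ring
      have h6 : k * Y.card - Fintype.card V ≤ (k - 1) * (k * Y.card - Fintype.card V) :=
        Nat.le_mul_of_pos_left _ (by omega)
      omega
    have h7 : p + Fintype.card V ≤ k * Y.card + 1 := by omega
    have h8 : (p : ℝ) + n ≤ k * (Y.card : ℝ) + 1 := by
      rw [hnd]; exact_mod_cast h7
    linarith
  have hYn : n ≤ k * (Y.card : ℝ) := by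
    rw [hnd]; exact_mod_cast hY.le
  have hYpos : n / k ≤ (Y.card : ℝ) := by
    rw [div_le_iff₀ hk0]
    linarith
  have key : ∀ q : ℕ, q ≤ p → ∃ a b : Fin q → V, Function.Injective (Sum.elim a b) ∧
      ∀ i, a i ∈ Y ∧ b i ∈ Y ∧ K {a i, b i} := by
    intro q
    induction q with
    | zero =>
      intro _
      refine ⟨Fin.elim0, Fin.elim0, ?_, fun i => i.elim0⟩
      rintro (i | i)
      · exact i.elim0
      · exact i.elim0
    | succ q ih =>
      intro hq
      obtain ⟨a, b, hinj, hab⟩ := ih (by omega)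
      set U : Finset V := univ.image (Sum.elim a b) with hU
      have hUc : (U.card : ℝ) ≤ 2 * q := by
        have h1 : U.card ≤ q + q := by
          refine card_image_le.trans ?_
          simp
        have : (U.card : ℝ) ≤ q + q := by exact_mod_cast h1
        linarith
      have hlt : 2 * (U.card : ℝ) * (c₁ * n) < (Y.card : ℝ) * ((Y.card : ℝ) - n / k + 1) := by
        have hq' : (q : ℝ) ≤ p := by exact_mod_cast (by omega : q ≤ p)
        set E : ℝ := k * (Y.card : ℝ) - n with hE
        have hE0 : 0 ≤ E := by linarith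
        have e1 : (Y.card : ℝ) - n / k + 1 = (E + k) / k := by
          rw [hE]; field_simp
        have e2 : 2 * (U.card : ℝ) * (c₁ * n) ≤ 4 * (E + 1) * (c₁ * n) := by
          refine mul_le_mul_of_nonneg_right ?_ (by positivity)
          linarith
        have e3 : 4 * (E + 1) * (c₁ * n) ≤ 4 * (E + 1) * (1 / (100 * (k : ℝ) ^ 2) * n) := by
          refine mul_le_mul_of_nonneg_left ?_ (by positivity)
          exact mul_le_mul_of_nonneg_right hc1 (by linarith)
        have e4 : n / k * ((E + k) / k) ≤ (Y.card : ℝ) * ((E + k) / k) :=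
          mul_le_mul_of_nonneg_right hYpos (by positivity)
        have e5 : 4 * (E + 1) * (1 / (100 * (k : ℝ) ^ 2) * n) < n / k * ((E + k) / k) := by
          have e6 : 4 * (E + 1) * (1 / (100 * (k : ℝ) ^ 2) * n) =
              (4 * (E + 1) / 100) * (n / (k : ℝ) ^ 2) := by
            field_simp
          have e7 : n / k * ((E + k) / k) = (E + k) * (n / (k : ℝ) ^ 2) := by
            field_simp
          rw [e6, e7]
          refine mul_lt_mul_of_pos_right ?_ (by positivity)
          linarith
        rw [e1]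
        linarith
      obtain ⟨x, hx, y, hy, hxU, hyU, hxy, hKxy⟩ := exists_pair hk hc hX hdeg U hlt
      have hxa : ∀ s, Sum.elim a b s ≠ x := fun s e => hxU (e ▸ mem_image_of_mem _ (mem_univ s))
      have hya : ∀ s, Sum.elim a b s ≠ y := fun s e => hyU (e ▸ mem_image_of_mem _ (mem_univ s))
      refine ⟨Fin.cons x a, Fin.cons y b, ?_, ?_⟩
      · rintro (i | i) (j | j) h
        · refine Fin.cases ?_ (fun i => ?_) i h
          · refine Fin.cases ?_ (fun j => ?_) j
            · intro _; rfl
            · intro h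
              simp only [Sum.elim_inl, Fin.cons_zero, Fin.cons_succ] at h
              exact absurd h.symm (hxa (Sum.inl j))
          · refine Fin.cases ?_ (fun j => ?_) j
            · intro h
              simp only [Sum.elim_inl, Fin.cons_zero, Fin.cons_succ] at h
              exact absurd h (hxa (Sum.inl i))
            · intro h
              simp only [Sum.elim_inl, Fin.cons_succ] at h
              have := hinj (a₁ := Sum.inl i) (a₂ := Sum.inl j) h
              rw [Sum.inl.inj this]
        · refine Fin.cases ?_ (fun i => ?_) i h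
          · refine Fin.cases ?_ (fun j => ?_) j
            · intro h
              simp only [Sum.elim_inl, Sum.elim_inr, Fin.cons_zero] at h
              exact absurd h hxy
            · intro h
              simp only [Sum.elim_inl, Sum.elim_inr, Fin.cons_zero, Fin.cons_succ] at h
              exact absurd h.symm (hxa (Sum.inr j))
          · refine Fin.cases ?_ (fun j => ?_) j
            · intro h
              simp only [Sum.elim_inl, Sum.elim_inr, Fin.cons_zero, Fin.cons_succ] at h
              exact absurd h (hya (Sum.inl i))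
            · intro h
              simp only [Sum.elim_inl, Sum.elim_inr, Fin.cons_succ] at h
              have := hinj (a₁ := Sum.inl i) (a₂ := Sum.inr j) h
              exact absurd this (by simp)
        · refine Fin.cases ?_ (fun i => ?_) i h
          · refine Fin.cases ?_ (fun j => ?_) j
            · intro h
              simp only [Sum.elim_inl, Sum.elim_inr, Fin.cons_zero] at h
              exact absurd h.symm hxy
            · intro h
              simp only [Sum.elim_inl, Sum.elim_inr, Fin.cons_zero, Fin.cons_succ] at h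
              exact absurd h.symm (hya (Sum.inl j))
          · refine Fin.cases ?_ (fun j => ?_) j
            · intro h
              simp only [Sum.elim_inl, Sum.elim_inr, Fin.cons_zero, Fin.cons_succ] at h
              exact absurd h (hxa (Sum.inr i))
            · intro h
              simp only [Sum.elim_inl, Sum.elim_inr, Fin.cons_succ] at h
              have := hinj (a₁ := Sum.inr i) (a₂ := Sum.inl j) h
              exact absurd this (by simp)
        · refine Fin.cases ?_ (fun i => ?_) i h
          · refine Fin.cases ?_ (fun j => ?_) j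
            · intro _; rfl
            · intro h
              simp only [Sum.elim_inr, Fin.cons_zero, Fin.cons_succ] at h
              exact absurd h.symm (hya (Sum.inr j))
          · refine Fin.cases ?_ (fun j => ?_) j
            · intro h
              simp only [Sum.elim_inr, Fin.cons_zero, Fin.cons_succ] at h
              exact absurd h (hya (Sum.inr i))
            · intro h
              simp only [Sum.elim_inr, Fin.cons_succ] at h
              have := hinj (a₁ := Sum.inr i) (a₂ := Sum.inr j) h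
              rw [Sum.inr.inj this]
      · intro i
        refine Fin.cases ?_ (fun i => ?_) i
        · simp only [Fin.cons_zero]
          exact ⟨hx, hy, hKxy⟩
        · simp only [Fin.cons_succ]
          exact hab i
  exact key p le_rfl

end Pool.Agent.H48.TC
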