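import Pool.Agent.H48.TC.Basic

/-!
The reduction of the frozen statement to `S_MAIN` (`k ≥ 3`) and `S_DIR` (`k = 2`).
-/

set_option autoImplicit false

namespace Pool.Agent.H48.TC

open Finset Pool.Agent.H48.PW Pool.Agent.Helper83K9.CF

theorem main_of (h1 : S_NONEX) (h2 : S_EXTR) : S_MAIN := by
  intro k hk
  obtain ⟨β, n₁, hβ, h3⟩ := h2 k hk
  obtain ⟨n₂, h4⟩ := h1 k β hk hβ
  refine ⟨max n₁ n₂, fun V _ _ K hK hn hP => ?_⟩
  rcases em (NE k K β univ) with h | h
  · exact h4 V K hK (le_trans (le_max_right _ _) hn) hP h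
  · exact h3 V K hK (le_trans (le_max_left _ _) hn) hP h

namespace RedL

/-- a Hamilton cycle as a periodic function -/
theorem cycle {k n : ℕ} (hkn : k ≤ n) (hn : 0 < n) {K : Finset (Fin n) → Prop} (hK : Cx k K)
    (h : HamC K k) : ∃ g : ℕ → Fin n, (∀ i : ℕ, g (i + n) = g i) ∧
      (∀ i j : ℕ, i < n → j < n → g i = g j → i = j) ∧
      (∀ i : ℕ, K ((Finset.range k).image (fun j => g (i + j))) ∧
        ((Finset.range k).image (fun j => g (i + j))).card = k) := by
  obtain ⟨l, hnd, hall, htp⟩ := h
  have hlen : l.length = n := by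
    have h1 : l.toFinset = univ := by
      ext v
      simp only [List.mem_toFinset, mem_univ, iff_true]
      exact hall v
    have h2 := List.toFinset_card_of_nodup hnd
    rw [h1, card_univ, Fintype.card_fin] at h2
    exact h2.symm
  have hmod : ∀ i, i % n < l.length := fun i => by rw [hlen]; exact Nat.mod_lt _ hn
  refine ⟨fun i => l[i % n]'(hmod i), ?_, ?_, ?_⟩
  · intro i
    simp only [Nat.add_mod_right]
  · intro i j hi hj hij
    simp only at hij
    have h1 := (List.Nodup.getElem_inj_iff hnd).1 hij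
    rwa [Nat.mod_eq_of_lt hi, Nat.mod_eq_of_lt hj] at h1
  · intro i
    constructor
    · refine TP.mem_of hK htp (i % n) ?_
      intro x hx
      obtain ⟨j, hj, rfl⟩ := mem_image.1 hx
      rw [mem_range] at hj
      refine ⟨i % n + j, by omega, by omega, ?_⟩
      have h1 : i % n < n := Nat.mod_lt _ hn
      have h2 : (i + j) % n = (i % n + j) % n := by rw [Nat.mod_add_mod]
      rcases lt_or_ge (i % n + j) n with h3 | h3
      · rw [List.getElem?_append_left (by omega), List.getElem?_eq_getElem (by omega)]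
        congr 1
        have h4 : (i + j) % n = i % n + j := by rw [h2, Nat.mod_eq_of_lt h3]
        simp only [h4]
      · rw [List.getElem?_append_right (by omega), List.getElem?_eq_getElem (by omega)]
        congr 1
        have h4 : (i + j) % n = i % n + j - l.length := by
          rw [h2, Nat.mod_eq_sub_mod h3, hlen, Nat.mod_eq_of_lt (by omega)]
        simp only [h4]
    · rw [card_image_of_injOn, card_range]
      intro a ha b hb hab
      simp only [coe_range, Set.mem_Iio] at ha hb
      simp only at hab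
      have h1 := (List.Nodup.getElem_inj_iff hnd).1 hab
      have h2 : i + a ≡ i + b [MOD n] := h1
      have h3 := Nat.ModEq.add_left_cancel' i h2
      have h4 : a % n = b % n := h3
      rwa [Nat.mod_eq_of_lt (by omega), Nat.mod_eq_of_lt (by omega)] at h4

end RedL

open RedL in
theorem final (hm : S_MAIN) (hd : S_DIR) :
    ∀ k : ℕ, 2 ≤ k → ∃ n₀ : ℕ, ∀ n : ℕ, n₀ ≤ n →
      ∀ H : Finset (Finset (Fin n)),
        (∀ e ∈ H, e.card = k) →
        (∀ v : Fin n, ∃ e ∈ H, v ∈ e) →
        (∀ e ∈ H, ∀ f ∈ H,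
          Relation.ReflTransGen
            (fun a b : Finset (Fin n) => a ∈ H ∧ b ∈ H ∧ (a ∩ b).card = k - 1) e f) →
        (∀ S : Finset (Fin n), S.card = k - 1 → (∃ e ∈ H, S ⊆ e) →
          (1 - 1 / (k : ℝ)) * (n : ℝ) ≤
            ((Finset.univ.filter (fun v : Fin n => v ∉ S ∧ insert v S ∈ H)).card : ℝ)) →
        ∃ g : ℕ → Fin n,
          (∀ i : ℕ, g (i + n) = g i) ∧
          (∀ i j : ℕ, i < n → j < n → g i = g j → i = j) ∧
          (∀ i : ℕ, (Finset.range k).image (fun j => g (i + j)) ∈ H) := by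
  intro k hk
  rcases Nat.lt_or_ge k 3 with hk3 | hk3
  · obtain rfl : k = 2 := by omega
    refine ⟨3, fun n hn H hH hv _ hdeg => ?_⟩
    obtain ⟨g, h1, h2, h3⟩ := hd n (fun i j => i ≠ j ∧ insert j ({i} : Finset (Fin n)) ∈ H) hn
      (fun i h => h.1 rfl) (fun i j h => ⟨h.1.symm, by
        have := h.2
        rwa [Finset.pair_comm] at this⟩) (fun i => by
        obtain ⟨e, he, hie⟩ := hv i
        have h1 := hdeg {i} (by simp) ⟨e, he, by simpa using hie⟩
        have h2 : (Finset.univ.filter (fun v : Fin n => v ∉ ({i} : Finset (Fin n)) ∧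
            insert v {i} ∈ H)) ⊆ univ.filter (fun j => i ≠ j ∧ insert j ({i} : Finset (Fin n)) ∈ H) := by
          intro v hv
          simp only [mem_filter, mem_univ, true_and, mem_singleton] at hv ⊢
          exact ⟨fun h => hv.1 h.symm, hv.2⟩
        have h3 : ((Finset.univ.filter (fun v : Fin n => v ∉ ({i} : Finset (Fin n)) ∧
            insert v {i} ∈ H)).card : ℝ) ≤
            ((univ.filter (fun j => i ≠ j ∧ insert j ({i} : Finset (Fin n)) ∈ H)).card : ℝ) := by
          exact_mod_cast card_le_card h2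
        have h4 : (n : ℝ) ≤
            2 * ((univ.filter (fun j => i ≠ j ∧ insert j ({i} : Finset (Fin n)) ∈ H)).card : ℝ) := by
          have h5 := h1.trans h3
          have h6 : (1 : ℝ) - 1 / ((2 : ℕ) : ℝ) = 1 / 2 := by norm_num
          rw [h6] at h5
          linarith
        have h5 : n ≤ 2 * (univ.filter
            (fun j => i ≠ j ∧ insert j ({i} : Finset (Fin n)) ∈ H)).card := by exact_mod_cast h4
        refine h5.trans (le_of_eq ?_)
        congr!)
    refine ⟨g, h1, h2, fun i => ?_⟩
    have h4 := (h3 i).2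
    have e : (Finset.range 2).image (fun j => g (i + j)) = insert (g (i + 1)) {g i} := by
      rw [Finset.range_add_one, Finset.range_one, image_insert, image_singleton]
      simp
    rw [e]
    exact h4
  · obtain ⟨n₀, h⟩ := hm k hk3
    refine ⟨max n₀ k, fun n hn H hH hv _ hdeg => ?_⟩
    have hkn : k ≤ n := le_trans (le_max_right _ _) hn
    have hn0 : 0 < n := by omega
    have hK : Cx k (fun T : Finset (Fin n) => ∃ e ∈ H, T ⊆ e) := by
      refine ⟨?_, ?_, ?_, ?_⟩
      · obtain ⟨e, he, _⟩ := hv ⟨0, hn0⟩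
        exact ⟨e, he, empty_subset _⟩
      · rintro S T ⟨e, he, hTe⟩ hST
        exact ⟨e, he, hST.trans hTe⟩
      · rintro T ⟨e, he, hTe⟩
        exact (card_le_card hTe).trans (le_of_eq (hH e he))
      · intro v
        obtain ⟨e, he, hve⟩ := hv v
        exact ⟨e, he, by simpa using hve⟩
    have hP : PD k (fun T : Finset (Fin n) => ∃ e ∈ H, T ⊆ e) 0 univ := by
      rintro T ⟨e, he, hTe⟩ hTk
      obtain ⟨S, hTS, hSe, hS⟩ := Finset.exists_subsuperset_card_eq hTe
        (show T.card ≤ k - 1 by omega) (by rw [hH e he]; omega)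
      have h1 := hdeg S hS ⟨e, he, hSe⟩
      rw [sub_zero, card_univ, Fintype.card_fin]
      refine h1.trans ?_
      have h2 : (Finset.univ.filter (fun v : Fin n => v ∉ S ∧ insert v S ∈ H)) ⊆
          ex (fun T : Finset (Fin n) => ∃ e ∈ H, T ⊆ e) univ T := by
        intro v hv
        simp only [mem_filter, mem_univ, true_and] at hv
        rw [mem_ex]
        exact ⟨mem_univ _, fun h => hv.1 (hTS h), _, hv.2, insert_subset_insert _ hTS⟩
      exact_mod_cast card_le_card h2
    obtain ⟨g, h1, h2, h3⟩ := cycle hkn hn0 hK (h (Fin n) _ hK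
      (by rw [Fintype.card_fin]; exact le_trans (le_max_left _ _) hn) hP)
    refine ⟨g, h1, h2, fun i => ?_⟩
    obtain ⟨⟨e, he, hs⟩, hc⟩ := h3 i
    rwa [Finset.eq_of_subset_of_card_le hs (by rw [hc, hH e he])]

end Pool.Agent.H48.TC
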