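import Pool.Agent.H48.PW.Stm

/-!
# S08991 (MP_5c6f2e_co): positive codegree `(1 - 1/k) n` forces a tight Hamilton cycle

Definitions and statements of the leaves.  A `k`-graph `H` is replaced by the complex `K` of all sets
which are contained in an edge.  Everywhere `n = Fintype.card V`.
-/

set_option autoImplicit false

namespace Pool.Agent.H48.TC

open Finset Pool.Agent.H48.PW Pool.Agent.Helper83K9.CF

/-! ## Complexes, tight paths -/

/-- `K` is a complex: it is closed under taking subsets, its members have at most `k` elements and all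
vertices are members -/
structure Cx {V : Type} [DecidableEq V] (k : ℕ) (K : Finset V → Prop) : Prop where
  emp : K ∅
  sub : ∀ S T : Finset V, K T → S ⊆ T → K S
  card : ∀ T : Finset V, K T → T.card ≤ k
  vert : ∀ v : V, K {v}

open Classical in
/-- the vertices of `U` which extend `T` -/
noncomputable def ex {V : Type} [DecidableEq V] (K : Finset V → Prop) (U T : Finset V) : Finset V :=
  U.filter (fun v => v ∉ T ∧ K (insert v T))

/-- the vertices of `U` which do not extend `T` (the elements of `T ∩ U` included) -/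
noncomputable def ce {V : Type} [DecidableEq V] (K : Finset V → Prop) (U T : Finset V) : Finset V :=
  U \ ex K U T

/-- positive degree condition: every member with less than `k` elements is extended by at least
`(1 - 1/k - γ) |U|` vertices of `U` -/
def PD {V : Type} [DecidableEq V] (k : ℕ) (K : Finset V → Prop) (γ : ℝ) (U : Finset V) : Prop :=
  ∀ T : Finset V, K T → T.card < k →
    (1 - 1 / (k : ℝ) - γ) * (U.card : ℝ) ≤ ((ex K U T).card : ℝ)

/-- tight path: every `k` consecutive entries (or less) form a member of the complex -/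
def TP {V : Type} [DecidableEq V] (K : Finset V → Prop) (k : ℕ) (l : List V) : Prop :=
  ∀ i : ℕ, K ((l.drop i).take k).toFinset

/-- tight Hamilton cycle -/
def HamC {V : Type} [DecidableEq V] (K : Finset V → Prop) (k : ℕ) : Prop :=
  ∃ l : List V, l.Nodup ∧ (∀ v, v ∈ l) ∧ TP K k (l ++ l)

open Classical in
/-- non-extremality of `U`: if the set `A` of the non-neighbours of `v` in `U` is large then at least
`β |U|` vertices `y` of `A` have at least `β |U|` neighbours in `A` -/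
def NE {V : Type} [DecidableEq V] (k : ℕ) (K : Finset V → Prop) (β : ℝ) (U : Finset V) : Prop :=
  ∀ v : V, (1 / (k : ℝ) - β) * (U.card : ℝ) ≤ ((ce K U {v}).card : ℝ) →
    β * (U.card : ℝ) ≤ (((ce K U {v}).filter
      (fun y => β * (U.card : ℝ) ≤ ((ce K U {v} ∩ ex K U {y}).card : ℝ))).card : ℝ)

/-! ## Finite complexes -/

/-- [KK1] there is a set `Q` with `k + 1` elements all of whose `k`-subsets are members.

PROOF.  Suppose not, `n = |U|`, `A_T = ce K U T` (all sets below are subsets of `U`).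
(1) Let `e ⊆ U` be an edge (`K e`, `|e| = k`).  Every `w ∈ U` belongs to `A_{e - u}` for some `u ∈ e`
(for `w ∉ e` since `e + w` is not a `Q`), and `∑_{u ∈ e} |A_{e-u}| ≤ n + k γ n`.  So
`|A_{e-u} ∩ A_{e-u'}| ≤ μ := k γ n` for `u ≠ u'`.
(2) If `K T`, `|T| ≤ k - 2` then `|A_T| ≤ μ` (extend `T` greedily to an edge `e`; `A_T ⊆ A_{e-u} ∩
A_{e-u'}` for `u, u' ∈ e \ T`).  (3) If `K T`, `|T| = k - 1` then `|A_T| ≥ α n`,
`α = 1/k - (k-1) γ` (by (1), `T = e - u`).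
Fix `T₀` with `K T₀`, `|T₀| = k - 3`.  Write `A_{ca}` for `A_{T₀ ∪ {c,a}}`.
(4) If `T₀ ∪ {c,a,d}` is an edge (`k` distinct elements) then `|A_{ca} ∩ A_{cd}| ≤ μ`.
(5) There are no `t, a_1, ..., a_{k+1}` such that all `T₀ ∪ {t, a_i, a_j}` (`i < j`) are edges with `k`
elements: `(k+1) α n - C(k+1,2) μ > n`.
A defect is `(c, a, d, b)` with `T₀ ∪ {c,a}`, `T₀ ∪ {c,d}` members with `k - 1` elements, `d ∈ A_{ca}`,
`b ∈ A_{cd}`, `b ∉ A_{ca}`.  Given `c, a, b` (so `T₀ ∪ {c,a,b}` is an edge) `d ∈ A_{ca} ∩ A_{cb}`; hence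
there are at most `μ n ^ 3` defects.
Count the tuples `(x, y_1, ..., y_{k+1}, t)` in `U` with: `T₀ ∪ {x, y_i}`, `T₀ ∪ {y_i, y_j}`,
`T₀ ∪ {t, y_i}` members with `k - 1` elements, `y_i ∈ A_{x y_1}` (`i ≥ 2`), `t ∉ A_{x y_1}`: choosing
one after the other, by (2), (3), there are at least `(n/2)^2 (n/(2k))^k (n/4)` of them.  At most
`3 (k+1)^2 μ n^(k+2)` tuples contain one of the defects `(x; y_i, y_1, y_j)`, `(y_i; x, y_j, t)`,
`(x; y_1, y_i, t)` (`(c; a, d, b)`).  For `γ` small there is a tuple without them.  For such a tuple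
`t ∉ A_{y_i y_j}` for all `i < j`: otherwise `y_j ∈ A_{x y_i}` (first type), `t ∈ A_{y_i x}` (second
type), `t ∈ A_{x y_1}` (third type; `y_i ∈ A_{x y_1}`, `t ∈ A_{x y_i}`), a contradiction.  So all
`T₀ ∪ {t, y_i, y_j}` are edges, against (5).  (Symmetry: for `a, b, c` distinct and not in `T₀` with
`T₀ ∪ {c,a}`, `T₀ ∪ {c,b}` members: `b ∈ A_{ca} ↔ ¬ K (T₀ ∪ {a,b,c}) ↔ a ∈ A_{cb}`.) -/
def S_KK1 : Prop := ∀ k : ℕ, 3 ≤ k → ∃ (γ : ℝ) (n₀ : ℕ), 0 < γ ∧
  ∀ (V : Type) [Fintype V] [DecidableEq V] (K : Finset V → Prop) (U : Finset V), Cx k K →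
  n₀ ≤ U.card → PD k K γ U →
  ∃ Q : Finset V, Q ⊆ U ∧ Q.card = k + 1 ∧ ∀ T : Finset V, T ⊆ Q → T.card ≤ k → K T

/-- ordered edges in `U` -/
def OE {V : Type} [DecidableEq V] (k : ℕ) (K : Finset V → Prop) (U : Finset V) (c : Fin k → V) :
    Prop :=
  Function.Injective c ∧ (∀ i, c i ∈ U) ∧ K (univ.image c)

/-- one coordinate of an ordered edge is changed -/
def Up {V : Type} [DecidableEq V] (k : ℕ) (K : Finset V → Prop) (U : Finset V)
    (c d : Fin k → V) : Prop :=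
  OE k K U c ∧ OE k K U d ∧ ∃ i, ∀ j, j ≠ i → d j = c j

/-- [UPK] all ordered edges in `U` are connected by changes of one coordinate.
PROOF.  (i) Sets: for `K T`, `T ⊆ U`, `|T| = k - j`, `j ≥ 1`, any two edges `e, f ⊆ U` containing `T` are
connected by a sequence of edges in `U` (consecutive ones have `k - 1` common elements).  Induction on
`j`; `j = 1` clear.  `j ≥ 2`: `a ∈ e \ T`, `b ∈ f \ T`; `c ∈ ex (T + a) ∩ ex (T + b)` exists, since
`2 (1 - 1/k - γ) > 1` (`k ≥ 3`, `γ < 1/12`); `g ⊇ T + a + c`, `h ⊇ T + b + c` edges in `U`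
(greedily, `PD`); `e ~ g` (`T + a`), `g ~ h` (`T + c`), `h ~ f` (`T + b`).  Use `T = ∅`.
(ii) Functions: along a sequence of sets change one coordinate; so every ordered edge is connected with
one with values in a `k`-subset of `Q` (`S_KK1`), and with the help of the element `w` of `Q` outside of it
two coordinates can be exchanged: `(a, b, ..) → (w, b, ..) → (w, a, ..) → (b, a, ..)`; so all
permutations are possible (`Equiv.Perm` is generated by transpositions: `Equiv.Perm.swap_induction_on`). -/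
def S_UPK : Prop := ∀ k : ℕ, 3 ≤ k → ∃ (γ : ℝ) (n₀ : ℕ), 0 < γ ∧
  ∀ (V : Type) [Fintype V] [DecidableEq V] (K : Finset V → Prop) (U : Finset V), Cx k K →
  n₀ ≤ U.card → PD k K γ U → ∀ c d : Fin k → V, OE k K U c → OE k K U d →
  Relation.ReflTransGen (Up k K U) c d

/-- the sample points of `Fin N ⊕ Fin R` (the points of `Fin R` are exterior vertices) -/
def lft (N R : ℕ) : Finset (Fin N ⊕ Fin R) := univ.image Sum.inl

/-- tight walk: every `k` consecutive entries (or less) are distinct and form a member -/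
def TW {V : Type} [DecidableEq V] (K : Finset V → Prop) (k : ℕ) (l : List V) : Prop :=
  TP K k l ∧ ∀ i : ℕ, ((l.drop i).take k).Nodup

/-- [WLKK] tight walks between arbitrary ends, of bounded length.
PROOF.  Append to `a` greedily `k` points of `lft` (`PD`), the last `k` entries are an ordered edge `c`
in `lft`; in the same way prepend `k` points to `b` (ordered edge `d`).  If `Up c d'` then
`c_1 ... c_k d'_1 ... d'_k` is a tight walk (each window of `k` entries contains each coordinate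
exactly once, so it is the image of an ordered edge `c` or `d'`), so a sequence `c = c^0, c^1, ..., c^m = d`
with `Up (c^i) (c^(i+1))` gives the tight walk `c^0 ++ c^1 ++ ... ++ c^m`.  Uniform bound `L`: there
are finitely many `Γ` (predicates on the finite type `Finset (Fin N ⊕ Fin R)`) and finitely many `a, b`
(lists of length `k - 1`), take a maximum; compare `Pool/Agent/H48/PW/WLK.lean`. -/
def S_WLKK : Prop := ∀ k : ℕ, 3 ≤ k → ∃ (γ : ℝ) (N₀ : ℕ), 0 < γ ∧ ∀ N R : ℕ, N₀ ≤ N → ∃ L : ℕ,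
  ∀ Γ : Finset (Fin N ⊕ Fin R) → Prop, Cx k Γ → PD k Γ γ (lft N R) →
  ∀ a b : List (Fin N ⊕ Fin R), a.length = k - 1 → b.length = k - 1 → a.Nodup → b.Nodup →
    Γ a.toFinset → Γ b.toFinset →
    ∃ w : List (Fin N ⊕ Fin R), w.length ≤ L ∧ (∀ x ∈ w, x ∈ lft N R) ∧ TW Γ k (a ++ w ++ b)

/-- [FRACK] perfect fractional matchings.
PROOF.  Farkas (library `farkas : S_FARKAS`): it is enough to show `∑_v x v ≥ 0` for all `x : W → ℝ` with
`∑_{v ∈ e} x v ≥ 0` for all edges `e`.  If `min x < 0` scale to `min x = -1`.  Let `m` be the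
least integer `> (1/k + γ) N` and `b` the `m`-th smallest value of `x`.  Choosing greedily the smallest
possible value gives an edge with `∑ x ≤ -1 + (k-1) b`, so `b ≥ 1/(k-1)`, and
`∑ x ≥ -(m-1) + (N-m+1)/(k-1) ≥ -2 γ N` (`m - 1 ≤ (1/k+γ) N`).  Suppose `∑ x < 0`.  Then the excess
`∑_{i<m} (x_i + 1) + ∑_{i≥m} (x_i - 1/(k-1))` (values sorted) is at most `2 γ N`; with `κ' = √(2γ)`
all but `κ' N` of the first `m - 1` values are `≤ -1 + κ'` (call these vertices `Y`), and all other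
vertices up to `2 κ' N` exceptions have `x ≤ 1/(k-1) + κ'`.  If `y ≠ z ∈ Y` and `Γ {y, z}`, extend
`{y, z}` by `k - 2` nonexceptional vertices to an edge with
`∑ x ≤ 2 (-1 + κ') + (k-2) (1/(k-1) + κ') < 0`: contradiction.  So `Y` is independent and
`|Y| ≥ m - 1 - κ' N ≥ (1/k - κ) N`: contradiction. -/
def S_FRACK : Prop := ∀ (k : ℕ) (κ : ℝ), 2 ≤ k → 0 < κ → ∃ (γ : ℝ) (N₀ : ℕ), 0 < γ ∧
  ∀ (W : Type) [Fintype W] [DecidableEq W] (Γ : Finset W → Prop), Cx k Γ → N₀ ≤ Fintype.card W →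
  PD k Γ γ univ →
  (∀ Y : Finset W, (∀ y ∈ Y, ∀ z ∈ Y, y ≠ z → ¬ Γ {y, z}) →
    (Y.card : ℝ) < (1 / (k : ℝ) - κ) * (Fintype.card W : ℝ)) →
  ∃ w : Finset W → ℝ, (∀ e, 0 ≤ w e) ∧ (∀ e, w e ≠ 0 → Γ e ∧ e.card = k) ∧
    ∀ v, ∑ e, (if v ∈ e then w e else 0) = 1

/-! ## Sampling -/

/-- the complex on the sample points and the exterior vertices -/
def pl {V : Type} [DecidableEq V] {N R : ℕ} (K : Finset V → Prop) (ω : Fin N → V) (e : Fin R → V) :
    Finset (Fin N ⊕ Fin R) → Prop :=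
  fun T => Set.InjOn (Sum.elim ω e) (T : Set (Fin N ⊕ Fin R)) ∧ K (T.image (Sum.elim ω e))

open Classical in
/-- [SMP] a random sample is good.
PROOF.  For every `T ⊆ Fin N ⊕ Fin R` with at most `k - 1` elements fix the coordinates of `T` (so
`T' = T.image (Sum.elim ω e)` is fixed); if `K T'` then the number of the other coordinates `x` with
`ω x ∈ ex K U T'` is by `S_HOEF` (with `S i = U` for `i ∉ T`, `S i` a singleton for `i ∈ T`) at least
`(1 - 1/k - γ) N - k - γ N / 2` except for a fraction `exp (- c N)`; union bound over the `T` (at most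
`(N + R + 1) ^ k` of them); coincidences and hits of the `e r` contribute at most
`(N^2 + N R) / |U|`. -/
def S_SMP : Prop := ∀ (k : ℕ) (γ : ℝ) (R : ℕ), 1 ≤ k → 0 < γ → ∃ N₀ : ℕ, ∀ N : ℕ, N₀ ≤ N →
  ∃ n₀ : ℕ, ∀ (V : Type) [Fintype V] [DecidableEq V] (K : Finset V → Prop) (U : Finset V), Cx k K →
  n₀ ≤ U.card → PD k K γ U → ∀ e : Fin R → V, Function.Injective e →
  8 * (((Fintype.piFinset (fun _ : Fin N => U)).filter (fun ω => ¬ (Function.Injective ω ∧
    (∀ x r, ω x ≠ e r) ∧ PD k (pl K ω e) (2 * γ) (lft N R)))).card : ℝ) ≤ (U.card : ℝ) ^ N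

open Classical in
/-- [NES] non-extremality of a random sample.
PROOF.  `κ = γ = min β (1/k) / 20` (say).  Outside of a small fraction of the `ω` (Hoeffding `S_HOEF`, one or two
coordinates fixed, union bound): `ω` is injective; for all `x`, `v = ω x`: the number of `z` with
`ω z ∈ ce K U {v}` is at most `|ce K U {v}| N / |U| + κ N`, the number of `z` with `ω z ∈ D_v` is at
least `|D_v| N / |U| - κ N`, where `D_v` is the set of the `y` in the definition of `NE`; for all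
`x ≠ z`, `v = ω x`, `y = ω z` the number of `w` with `ω w ∈ ce K U {v} ∩ ex K U {y}` is at least
`|ce K U {v} ∩ ex K U {y}| N / |U| - κ N`.  Suppose that `Y` is independent,
`|Y| ≥ (1/k - κ) N`, `x ∈ Y`, `v = ω x`.  Then `ω z ∈ ce K U {v}` for all `z ∈ Y`, so
`|ce K U {v}| ≥ (1/k - β) |U|` and `|D_v| ≥ β |U|`; `|ce K U {v}| ≤ (1/k + γ) |U|` by `PD`, so at most
`(γ + 2 κ) N + 1` of the `z` with `ω z ∈ ce K U {v}` are not in `Y`; so there is `z ∈ Y`, `z ≠ x`,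
with `ω z ∈ D_v`, and at least `(β - κ) N - 1` of the `w` have `ω w ∈ ce K U {v}` and are adjacent to
`z`, so not in `Y`: contradiction. -/
def S_NES : Prop := ∀ (k : ℕ) (β : ℝ), 2 ≤ k → 0 < β → ∃ (κ γ : ℝ) (N₀ : ℕ), 0 < κ ∧ 0 < γ ∧
  ∀ N : ℕ, N₀ ≤ N → ∃ n₀ : ℕ, ∀ (V : Type) [Fintype V] [DecidableEq V] (K : Finset V → Prop)
  (U : Finset V), Cx k K → n₀ ≤ U.card → PD k K γ U → NE k K β U → ∀ e : Fin 0 → V,
  8 * (((Fintype.piFinset (fun _ : Fin N => U)).filter (fun ω => ∃ Y : Finset (Fin N ⊕ Fin 0),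
    (1 / (k : ℝ) - κ) * (N : ℝ) ≤ (Y.card : ℝ) ∧
      ∀ y ∈ Y, ∀ z ∈ Y, y ≠ z → ¬ pl K ω e {y, z})).card : ℝ) ≤ (U.card : ℝ) ^ N

/-- `Ω` realises `Γ` (`s` vertices for every point) -/
def Faith {V : Type} [DecidableEq V] {N R s : ℕ} (K : Finset V → Prop) (e : Fin R → V)
    (Γ : Finset (Fin N ⊕ Fin R) → Prop) (Ω : Fin N × Fin s → V) : Prop :=
  Function.Injective Ω ∧ (∀ p r, Ω p ≠ e r) ∧
  ∀ (T : Finset (Fin N ⊕ Fin R)) (φ : Fin N → Fin s), Γ T →
    K (T.image (Sum.elim (fun x => Ω (x, φ x)) e))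

open Classical in
/-- [TRK] transfer.
PROOF.  By `S_SMP` at least half of the `ω : Fin N → U` are good; there are finitely many possibilities
for `pl K ω e`, so for one `Γ` a positive proportion of all `ω` is good with `pl K ω e = Γ`; `S_BLOW`
(`G` = these `ω`); remove the non-injective `Ω` and those which hit some `e r` (at most
`((N s)^2 + N s R) |U|^(N s - 1)`). -/
def S_TRK : Prop := ∀ (k : ℕ) (γ : ℝ) (R : ℕ), 1 ≤ k → 0 < γ → ∃ N₀ : ℕ, ∀ N : ℕ, N₀ ≤ N →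
  ∀ s : ℕ, 1 ≤ s → ∃ (c : ℝ) (n₀ : ℕ), 0 < c ∧
  ∀ (V : Type) [Fintype V] [DecidableEq V] (K : Finset V → Prop) (U : Finset V), Cx k K →
  n₀ ≤ U.card → PD k K γ U → ∀ e : Fin R → V, Function.Injective e →
  ∃ Γ : Finset (Fin N ⊕ Fin R) → Prop, Cx k Γ ∧ PD k Γ (2 * γ) (lft N R) ∧
    (∀ T : Finset (Fin R), K (T.image e) → Γ (T.image Sum.inr)) ∧
    c * (U.card : ℝ) ^ (N * s) ≤ (((Fintype.piFinset (fun _ : Fin N × Fin s => U)).filter
      (fun Ω => Faith K e Γ Ω)).card : ℝ)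

/-- [CONNK] connections.
PROOF.  `S_TRK` with `R = 2 (k - 1)` and the exterior vertices `a_1, ..., a_{k-1}, b_1, ..., b_{k-1}`,
`S_WLKK` for the corresponding points, `s = L` = the bound for the length of the walk (take `s ≥ 1`);
`i`-th entry of the walk: the point `x` is realised by `Ω (x, i)`. -/
def S_CONNK : Prop := ∀ k : ℕ, 3 ≤ k → ∃ (γ : ℝ) (W n₀ : ℕ), 0 < γ ∧
  ∀ (V : Type) [Fintype V] [DecidableEq V] (K : Finset V → Prop) (U : Finset V), Cx k K →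
  n₀ ≤ U.card → PD k K γ U → ∀ a b : List V, a.length = k - 1 → b.length = k - 1 →
  (a ++ b).Nodup → (∀ v ∈ a ++ b, v ∉ U) → K a.toFinset → K b.toFinset →
  ∃ c : List V, c.length ≤ W ∧ (∀ v ∈ c, v ∈ U) ∧ c.Nodup ∧ TP K k (a ++ c ++ b)

/-! ## Absorption -/

/-- index set of the entries of an absorber: `3` rows with `2 (k-1)` entries and `2` middle vertices -/
abbrev IB (k : ℕ) : Type := (Fin 3 × Fin (2 * (k - 1))) ⊕ Fin 2

/-- the row `i` -/
def rowK {V : Type} {k : ℕ} (g : IB k → V) (i : Fin 3) : List V :=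
  List.ofFn (fun a : Fin (2 * (k - 1)) => g (Sum.inl (i, a)))

/-- `v` is inserted in the middle of the row `Q` -/
def md {V : Type} (k : ℕ) (Q : List V) (v : V) : List V := Q.take (k - 1) ++ v :: Q.drop (k - 1)

/-- `g` is an absorber: the rows `0`, `1` with the middle vertices `0`, `1` and the row `2` are tight
paths, and the rows `1`, `2` with the middle vertices `0`, `1` are tight paths -/
structure AbsK {V : Type} [DecidableEq V] (k : ℕ) (K : Finset V → Prop) (g : IB k → V) : Prop where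
  inj : Function.Injective g
  self0 : TP K k (md k (rowK g 0) (g (Sum.inr 0)))
  self1 : TP K k (md k (rowK g 1) (g (Sum.inr 1)))
  next1 : TP K k (md k (rowK g 1) (g (Sum.inr 0)))
  next2 : TP K k (md k (rowK g 2) (g (Sum.inr 1)))
  last : TP K k (rowK g 2)

/-- `v` can be absorbed by `g`: it can be inserted in the row `0` -/
def HitK {V : Type} [DecidableEq V] (k : ℕ) (K : Finset V → Prop) (g : IB k → V) (v : V) : Prop :=
  TP K k (md k (rowK g 0) v)

open Classical in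
/-- [ABSK] many absorbers for every vertex.
PROOF.  `S_TRK` with `R = 1` (the exterior vertex `v`, point `p = inr 0`), `s = 8` (say).  In `Γ`:
`Q` from `S_KK1` (in `lft`), `u₂ ∈ Q`, `Q - u₂ = {b_0, ..., b_{k-1}}`; `S₀`: a `(k-1)`-subset of `lft` with
`Γ (S₀ + p)` (greedily, `PD`), `S₁`: a `(k-1)`-subset of `lft` with `Γ (S₁ + u₂)`;
`u₁ ∈ lft` with `Γ (S₀ + u₁)`, `Γ (S₁ + u₁)` (`u₁ ∉ S₀ ∪ S₁`; `2 (1 - 1/k - 2γ) > 1`).
Row `0`: the entries `a` of the points `S₀ (a % (k-1))`; row `1`: `S₁ (a % (k-1))`; row `2`: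
`b_(a % k)`; middle vertices `u₁`, `u₂`.  (Every window of a row with middle vertex contains the middle
vertex and `k - 1` entries with distinct points, or it is a set `S_i`.  Window of row `0`, `1` with
`k` entries always contains the middle vertex.)  Realise by distinct copies (row `i`: copies `2 i`, `2 i + 1`
for `a < k - 1`, `a ≥ k - 1`; middle vertices: copies `6`, `7`).  A positive proportion of the `Ω`
gives a positive proportion of the `g` (compare `ABSCL.push` in `Pool/Agent/H48/PW/ABSC.lean`). -/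
def S_ABSK : Prop := ∀ k : ℕ, 3 ≤ k → ∃ (γ c : ℝ) (n₀ : ℕ), 0 < γ ∧ 0 < c ∧
  ∀ (V : Type) [Fintype V] [DecidableEq V] (K : Finset V → Prop) (U : Finset V), Cx k K →
  n₀ ≤ U.card → PD k K γ U → ∀ v : V,
    c * (U.card : ℝ) ^ Fintype.card (IB k) ≤
      (((Fintype.piFinset (fun _ : IB k => U)).filter (fun g =>
        AbsK k K g ∧ HitK k K g v ∧ ∀ i, g i ≠ v)).card : ℝ)

/-- [APK] absorbing paths.
PROOF.  Compare `Pool/Agent/H48/PW/APATH.lean`.  Library theorem `S_SEL` (`CF/Sel.lean`) with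
`Cand = IB k → V`, `C` = everything (`n ^ card (IB k)`), requests = all vertices, state = the path `P`
built so far, `allowed P` = the absorbers avoiding `P`, `next P g = P ++ c ++ A`, where
`A = row_0 with its middle ++ c_1 ++ row_1 with its middle ++ c_2 ++ row_2` (connections by `S_CONNK` in
the complement of `P`, `g` and of the connections already chosen, always `PD` since `|P| ≤ γ n`; at most
`a` new vertices in one step), `R = ⌊γ n / a⌋` steps (`γ` may be decreased).  If `g` is hit by `x`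
then `A` can be replaced by `row_0 with x, c_1, row_1 with middle vertex 0, c_2, row_2 with middle
vertex 1` (same first and last `k - 1` entries).  Each `x ∈ X` has at least `c/2 R - log n ≥ |X|`
absorbers in `P`; choose them distinct. -/
def S_APK : Prop := ∀ k : ℕ, 3 ≤ k → ∃ γ₀ : ℝ, 0 < γ₀ ∧ ∀ γ : ℝ, 0 < γ → ∃ (h : ℝ) (n₀ : ℕ), 0 < h ∧
  ∀ (V : Type) [Fintype V] [DecidableEq V] (K : Finset V → Prop), Cx k K →
  n₀ ≤ Fintype.card V → PD k K γ₀ univ →
  ∃ P : List V, P.Nodup ∧ TP K k P ∧ 2 * k ≤ P.length ∧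
    (P.length : ℝ) ≤ γ * (Fintype.card V : ℝ) ∧
    ∀ X : Finset V, (X.card : ℝ) ≤ h * (Fintype.card V : ℝ) → (∀ x ∈ X, x ∉ P) →
      ∃ P' : List V, P'.Nodup ∧ TP K k P' ∧ P'.take (k - 1) = P.take (k - 1) ∧
        lastn (k - 1) P' = lastn (k - 1) P ∧ ∀ v, v ∈ P' ↔ v ∈ P ∨ v ∈ X

/-! ## Almost perfect tilings -/

/-- a tile: a complete `k`-partite `k`-graph with classes of size `s` -/
def TileK {V : Type} [DecidableEq V] (k s : ℕ) (K : Finset V → Prop) (T : Finset V) : Prop :=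
  ∃ p : Fin k × Fin s → V, Function.Injective p ∧ T = univ.image p ∧
    ∀ φ : Fin k → Fin s, K (univ.image (fun i => p (i, φ i)))

/-- [FTK] fractional tilings by tiles.
PROOF.  Farkas (`S_FARKAS`) for the unknowns `w T` (tiles `T ⊆ U`) and the deficiencies `d v ≥ 0`
(`v ∈ U`): `load v + d v = 1`, `∑ d v ≤ η |U|`.  If there is no solution there are `x v` (`v ∈ U`)
and `λ ≥ 0` with `x v ≥ -λ`, `∑_{v ∈ T} x v ≥ 0` for all tiles, `∑ x v + λ η |U| < 0`.  So `λ > 0`;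
scale to `λ = 1` and replace `x v` by `min (x v) (k s)`; then `-1 ≤ x ≤ k s`, still
`∑_{v ∈ T} x v ≥ 0` for all tiles and `∑ x v < - η |U|`.  Sample `ω : Fin N → U` (`N` a large constant):
with probability `≥ 5/8` `pl K ω e` (`R = 0`) has `PD` with `2 γ` (`S_SMP`), no large independent set
(`S_NES`) and `∑_i x (ω i) < - η N / 2` (`S_HOEF`).  By `S_FRACK` it has a perfect fractional matching,
so there is an edge `f` of the sample (`k` points) with `∑_{i ∈ f} x (ω i) < 0`.  So for some `f` a positive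
proportion of the `ω`, hence of the `k`-tuples in `U`, are ordered edges with negative sum.  By `S_BLOW` (and
removing non-injective maps) there is a tile with `∑_{v ∈ T} x v < 0`: contradiction. -/
def S_FTK : Prop := ∀ (k : ℕ) (β : ℝ), 3 ≤ k → 0 < β → ∃ γ : ℝ, 0 < γ ∧
  ∀ (s : ℕ) (η : ℝ), 1 ≤ s → 0 < η → ∃ n₀ : ℕ,
  ∀ (V : Type) [Fintype V] [DecidableEq V] (K : Finset V → Prop) (U : Finset V), Cx k K →
  n₀ ≤ U.card → PD k K γ U → NE k K β U →
  ∃ w : Finset V → ℝ, (∀ T, 0 ≤ w T) ∧ (∀ T, w T ≠ 0 → TileK k s K T ∧ T ⊆ U) ∧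
    (∀ v ∈ U, ∑ T, (if v ∈ T then w T else 0) ≤ 1) ∧
    ∑ v ∈ U, (1 - ∑ T, (if v ∈ T then w T else 0)) ≤ η * (U.card : ℝ)

/-- [POT3] `S_POT2` with polynomially many tests (`Pool/Agent/H48/PW/POT2.lean`: only the bound `h3` for
`2 * T.card` in the proof of `pot2` changes: `2 C k^A ≤ exp (lam γ k / 4)` for large `k`) -/
def S_POT3 : Prop := ∀ (t A : ℕ) (d τ γ κ : ℝ), 1 ≤ t → 0 < d → d ≤ 1 → 0 < τ → 0 < γ → 0 < κ →
  ∃ η : ℝ, 0 < η ∧ η ≤ 1 ∧ ∀ C : ℝ, ∃ k₀ : ℕ, ∀ k : ℕ, k₀ ≤ k →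
  ∀ (V : Type) [Fintype V] [DecidableEq V] (T : Finset (Finset V)) (r e D : V → ℝ)
    (U₀ : Finset V) (ok : Finset V → Prop),
  (T.card : ℝ) ≤ C * (k : ℝ) ^ A → (∀ S ∈ T, (S.card : ℝ) ≤ 3 * k) → (∀ v, 0 ≤ r v ∧ r v ≤ 1) →
  (∀ v, 0 ≤ e v ∧ e v ≤ η) →
  (∀ v, ∀ σ : ℝ, 0 ≤ σ → σ ≤ τ + 1 → d ≤ D v * Real.exp (-(σ * r v)) ∧
    D v * Real.exp (-(σ * r v)) ≤ 1) →
  (∀ K, ok K → K.card = t) →
  (∀ (U : Finset V) (σ : ℝ), U ⊆ U₀ → 0 ≤ σ → σ ≤ τ →
    (∀ S ∈ T, |Y S U (fun v => D v * Real.exp (-(σ * r v))) - Y S U₀ D| ≤ γ * k) →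
    (∀ v, r v + e v = 0 → (v ∈ U ↔ v ∈ U₀)) →
    ∃ w : Finset V → ℝ, (∀ K, 0 ≤ w K) ∧ (∀ K, w K ≠ 0 → ok K ∧ K ⊆ U) ∧
      (∀ v ∈ U, ∑ K, (if v ∈ K then w K else 0) ≤ r v + e v) ∧
      (∀ S ∈ T, ∑ v ∈ S ∩ U, max 0 (r v - ∑ K, (if v ∈ K then w K else 0)) ≤ η * k) ∧
      κ * k ≤ ∑ K, w K) →
  ∃ (σ : ℝ) (F : Finset (Finset V)), τ ≤ σ ∧ σ ≤ τ + 1 ∧ (∀ K ∈ F, ok K ∧ K ⊆ U₀) ∧
    (∀ K ∈ F, ∀ L ∈ F, K ≠ L → Disjoint K L) ∧ (∀ K ∈ F, ∀ v ∈ K, 0 < r v + e v) ∧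
    ∀ S ∈ T, |Y S (U₀ \ F.biUnion id) (fun v => D v * Real.exp (-(σ * r v))) - Y S U₀ D| ≤ γ * k

/-- [ALMK] almost perfect tilings in the non-extremal case.
PROOF.  `S_POT3` with `k := n`, `t := k s`, `r = 1`, `e = 0`, `D = 1`, `d = exp (-(τ+1))`,
`τ = log (2/δ)` (at least `1`), `A = k + 1`, `U₀ = Bᶜ`, `ok = TileK k s K`, tests: `univ`, `ex K univ T` for
all `T` with `K T`, `|T| < k`, `ce K univ {v}`, `D_v = {y ∈ ce K univ {v} | β n ≤ |ce K univ {v} ∩
ex K univ {y}|}`, `ce K univ {v} ∩ ex K univ {y}`.  A set `U` with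
`| |S ∩ U| e^σ - |S ∩ U₀| | ≤ γ' n` for all tests satisfies, with `g = γ' + |B| / n` small,
`|S ∩ U| = e^(-σ) (|S| ± g n)`, hence `PD k K γ₁ U` (`2 g ≤ γ₁`; note `ex K U T = ex K univ T ∩ U`) and
`NE k K (β/2) U`; so `S_FTK` (with `β/2`; take `γ₁` smaller than its `γ`) gives the fractional tilings.
At the end `|U| = e^(-σ) (n ± g n)`, `τ ≤ σ ≤ τ + 1`: `θ = δ / 16` (say). -/
def S_ALMK : Prop := ∀ (k : ℕ) (β γ₁ : ℝ), 3 ≤ k → 0 < β → 0 < γ₁ → ∃ γ : ℝ, 0 < γ ∧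
  ∀ δ : ℝ, 0 < δ → ∃ θ : ℝ, 0 < θ ∧ ∀ s : ℕ, 1 ≤ s → ∃ n₀ : ℕ,
  ∀ (V : Type) [Fintype V] [DecidableEq V] (K : Finset V → Prop), Cx k K →
  n₀ ≤ Fintype.card V → PD k K 0 univ → NE k K β univ →
  ∀ B : Finset V, (B.card : ℝ) ≤ γ * (Fintype.card V : ℝ) →
  ∃ (F : Finset (Finset V)) (U : Finset V), (∀ T ∈ F, TileK k s K T ∧ Disjoint T B) ∧
    (∀ T ∈ F, ∀ T' ∈ F, T ≠ T' → Disjoint T T') ∧ U = (B ∪ F.biUnion id)ᶜ ∧
    θ * (Fintype.card V : ℝ) ≤ (U.card : ℝ) ∧ (U.card : ℝ) ≤ δ * (Fintype.card V : ℝ) ∧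
    PD k K γ₁ U

/-- [NONEX] the non-extremal case.
PROOF.  `γ_c, W` from `S_CONNK`, `γ_B` from `S_ALMK` with `γ₁ = γ_c / 2`, `P, h` from `S_APK` with
`γ = min γ_B (1/2)`, `δ = h / 2` (and `≤ 1/4`), `θ` from `S_ALMK`, `s` with
`2 W ≤ (γ_c / 4) θ k s`, `s ≥ 3`; `B` = the vertices of `P`.  Tiles `T_1, ..., T_m` (`1 ≤ m ≤ n/(k s)`),
each gives the tight path `p (0,0), p (1,0), ..., p (k-1,0), p (0,1), ...` (`k s` vertices).  Connect `P`
with `T_1`, `T_1` with `T_2`, ..., `T_m` with `P` by `S_CONNK` inside `U` minus the connections already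
made (at most `(m+1) W ≤ (γ_c / 2) |U|` vertices; `PD` is kept).  The rest `X` of `U` has at most `h n`
elements; replace `P` by `P'`.  The concatenation is a Hamilton cycle. -/
def S_NONEX : Prop := ∀ (k : ℕ) (β : ℝ), 3 ≤ k → 0 < β → ∃ n₀ : ℕ,
  ∀ (V : Type) [Fintype V] [DecidableEq V] (K : Finset V → Prop), Cx k K →
  n₀ ≤ Fintype.card V → PD k K 0 univ → NE k K β univ → HamC K k

/-! ## The extremal case -/

/-- structure in the extremal case (`n = card V`): `Y` the vertices which are rarely adjacent to `Y`,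
`Ys ⊆ Y` and `Xs ⊆ Yᶜ` the typical vertices -/
structure XS {V : Type} [Fintype V] [DecidableEq V] (k : ℕ) (K : Finset V → Prop) (c₁ c : ℝ)
    (Y Ys Xs : Finset V) : Prop where
  ys : Ys ⊆ Y
  xs : Disjoint Xs Y
  cY : |(Y.card : ℝ) - (Fintype.card V : ℝ) / k| ≤ c * (Fintype.card V : ℝ)
  cYs : ((Y \ Ys).card : ℝ) ≤ c * (Fintype.card V : ℝ)
  cXs : ((Yᶜ \ Xs).card : ℝ) ≤ c * (Fintype.card V : ℝ)
  ext : ∀ y ∈ Y, ∀ T : Finset V, K T → y ∈ T → T.card < k →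
    ((Yᶜ \ ex K univ T).card : ℝ) ≤ c₁ * (Fintype.card V : ℝ)
  exts : ∀ y ∈ Ys, ∀ T : Finset V, K T → y ∈ T → T.card < k →
    ((Yᶜ \ ex K univ T).card : ℝ) ≤ c * (Fintype.card V : ℝ)
  xtp : ∀ x ∈ Xs, ((Y \ ex K univ {x}).card : ℝ) ≤ c * (Fintype.card V : ℝ)
  xall : ∀ x, x ∉ Y → c₁ / 4 * (Fintype.card V : ℝ) ≤ ((Y ∩ ex K univ {x}).card : ℝ)
  ydeg : ∀ y ∈ Y, ((Y ∩ ex K univ {y}).card : ℝ) ≤ c₁ * (Fintype.card V : ℝ)

/-- [XSTR] PROOF.  Exactness gives `|ce K univ T| ≤ n/k` for all `T` with `K T`, `|T| < k`.  Let `v₀`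
violate `NE k K β univ`, `Y₀ = ce K univ {v₀}` (`(1/k - β) n ≤ |Y₀| ≤ n/k`; all but `β n` of the
`y ∈ Y₀` have less than `β n` neighbours in `Y₀`).  `c' = c₁ / 3`;
`Y = {v | |ex K univ {v} ∩ Y₀| ≤ c' n}`, `Ys = {y ∈ Y₀ | |ex K univ {y} ∩ Y₀| < β n}`.  For
`y ∈ Ys`: `|ce {y} \ Y₀| ≤ 2 β n`; double counting the pairs `(v, y)`, `v ∈ Y \ Y₀`, `y ∈ Ys`, `v ∈ ce {y}`
gives `|Y \ Y₀| ≤ 3 β n`, so `|Y \ Ys| ≤ 4 β n`.  If `y ∈ T`, `K T`: `ce {y} ⊆ ce T`,
`|ce T| ≤ n/k`, `|ce {y}| ≥ |Y₀| - c' n` (resp. `- β n`), and `|Yᶜ ∩ ce {y}| ≤ |Y₀ \ Y| + |ce {y} \ Y₀|`;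
so `ext` with `3 β + 2 c'`, `exts` with `5 β`.  `xall`: `x ∉ Y` has more than `c' n` neighbours in `Y₀`,
`|Y₀ \ Y| ≤ β n`.  `Xs` = the `x ∉ Y` with `xtp`; double counting the nonadjacent pairs between `Ys` and
`Yᶜ` (at most `|Ys| 5 β n`).  Everything for `β` small compared with `c₁, c^2`. -/
def S_XSTR : Prop := ∀ (k : ℕ) (c₁ c : ℝ), 3 ≤ k → 0 < c₁ → 0 < c → c₁ ≤ 1 / (100 * (k : ℝ) ^ 2) →
  c ≤ c₁ → ∃ (β : ℝ) (n₀ : ℕ), 0 < β ∧
  ∀ (V : Type) [Fintype V] [DecidableEq V] (K : Finset V → Prop), Cx k K →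
  n₀ ≤ Fintype.card V → PD k K 0 univ → ¬ NE k K β univ →
  ∃ Y Ys Xs : Finset V, XS k K c₁ c Y Ys Xs

/-- good blocks: ordered `(k-1)`-sets which are extended by almost all vertices of `Y` -/
structure GB {V : Type} [Fintype V] [DecidableEq V] (k : ℕ) (K : Finset V → Prop) (g : ℝ)
    (Y : Finset V) (l : List V) : Prop where
  len : l.length = k - 1
  nd : l.Nodup
  mem : K l.toFinset
  ext : ((Y \ ex K univ l.toFinset).card : ℝ) ≤ g * (Fintype.card V : ℝ)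

/-- [EXTB] tight paths which end (begin) with a vertex of `Y` can be continued by a good block.
PROOF.  `n = card V`, `X = Yᶜ`.  (a) If `K T`, `|T| < k` and `T` meets `Y` then all but `c₁ n` of the
`x ∈ X` extend `T` (`ext`).
(b) Call `T ⊆ X` `j`-good if `K T`, `|T| = j`, `|Y \ ex T| ≤ j √c n` (`T = ∅` is `0`-good).  If `T` is
`j`-good, `j < k - 1`, then all but `2 √c n` of the `x ∈ Xs` make `T + x` `(j+1)`-good: for `j = 0` this is
`xtp`; in general every `y ∈ Ys ∩ ex T` has at most `c n` elements in `X \ ex (T + y)` (`exts`), so there are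
at most `|Y| c n` pairs `(y, x)` with `y ∈ Ys ∩ ex T`, `x ∈ X \ ex (T + y)`, and every `x ∉ T` such that
`T + x` is not `(j+1)`-good is in at least `(√c - c) n` such pairs.
Choose the `k - 1` vertices one after the other; in the extension of a tight path ending with `y ∈ Y` the
last `k - 1` entries always contain `y`, so (a) applies.  `c ≤ (c₃/k)^2`, `√c` small compared with `c₁`.
The continuation on the left is symmetric (choose the last vertex of the block first). -/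
def S_EXTB : Prop := ∀ (k : ℕ) (c₁ c₃ : ℝ), 3 ≤ k → 0 < c₁ → c₁ ≤ 1 / (100 * (k : ℝ) ^ 2) → 0 < c₃ →
  ∃ (c : ℝ) (n₀ : ℕ), 0 < c ∧ c ≤ c₁ ∧ c ≤ c₃ ∧
  ∀ (V : Type) [Fintype V] [DecidableEq V] (K : Finset V → Prop), Cx k K →
  n₀ ≤ Fintype.card V → ∀ Y Ys Xs : Finset V, XS k K c₁ c Y Ys Xs →
  ∀ Q : Finset V, Q ⊆ Xs → 2 * c₁ * (Fintype.card V : ℝ) ≤ (Q.card : ℝ) →
  ∀ (l : List V) (y : V), y ∈ Y → (∀ v ∈ l, v ∉ Q) →
    (TP K k (l ++ [y]) → ∃ b : List V, GB k K c₃ Y b ∧ (∀ v ∈ b, v ∈ Q) ∧ TP K k (l ++ [y] ++ b)) ∧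
    (TP K k (y :: l) → ∃ b : List V, GB k K c₃ Y b ∧ (∀ v ∈ b, v ∈ Q) ∧ TP K k (b ++ y :: l))

/-- a segment with `m` vertices which contains all vertices of `Z` and otherwise vertices of `Q` and
begins and ends with good blocks -/
structure Seg {V : Type} [Fintype V] [DecidableEq V] (k : ℕ) (K : Finset V → Prop) (g : ℝ)
    (Y Q Z : Finset V) (m : ℕ) (s : List V) : Prop where
  nd : s.Nodup
  tp : TP K k s
  len : s.length = m
  fst : GB k K g Y (s.take (k - 1))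
  lst : GB k K g Y (lastn (k - 1) s)
  mem : ∀ v ∈ s, v ∈ Q ∨ v ∈ Z
  all : ∀ z ∈ Z, z ∈ s

/-- [SEGS] single segments.
PROOF.  Cores (tight paths which begin and end with a vertex of `Y`), continued on both sides by `S_EXTB`
(first on the left, then on the right).
(i) core `[y]`.
(ii) core `y, x, x_2, ..., x_{k-1}, y'`, `x_j ∈ Q` with `K {y, x, x_2, ..., x_j}`,
`K {x, x_2, ..., x_j, y'}` (each time at most `2 c₁ n` exceptions by `ext`).
(iii) core `y, x_1, ..., x_g, y'` with `K {y, y', x_1, ..., x_j}`.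
(iv) core `y, x_1, ..., x_k, y'`: choose `x_1, ..., x_{k-1} ∈ Q` with `K {y, x_1, ..., x_j}`,
`K {x_2, ..., x_j, y'}`, then `x_k ∈ Q` with `K {x_1, ..., x_k}`, `K {x_2, ..., x_k, y'}`: at least
`(1 - 1/k) n - |Y| - |Yᶜ \ Q| - c₁ n > 0` choices (`k ≥ 3`). -/
def S_SEGS : Prop := ∀ (k : ℕ) (c₁ c₃ : ℝ), 3 ≤ k → 0 < c₁ → c₁ ≤ 1 / (100 * (k : ℝ) ^ 2) → 0 < c₃ →
  ∃ (c : ℝ) (n₀ : ℕ), 0 < c ∧ c ≤ c₁ ∧ c ≤ c₃ ∧
  ∀ (V : Type) [Fintype V] [DecidableEq V] (K : Finset V → Prop), Cx k K →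
  n₀ ≤ Fintype.card V → PD k K 0 univ → ∀ Y Ys Xs : Finset V, XS k K c₁ c Y Ys Xs →
  ∀ Q : Finset V, Q ⊆ Xs → (Xs.card : ℝ) ≤ (Q.card : ℝ) + c₁ * (Fintype.card V : ℝ) →
    (∀ y ∈ Y, ∃ s, Seg k K c₃ Y Q {y} (2 * (k - 1) + 1) s) ∧
    (∀ x y y' : V, x ∉ Y → x ∉ Q → y ∈ Y → y' ∈ Y → y ≠ y' → K {x, y} → K {x, y'} →
      ∃ s, Seg k K c₃ Y Q {x, y, y'} (3 * (k - 1) + 2) s) ∧
    (∀ (y y' : V) (g : ℕ), y ∈ Y → y' ∈ Y → y ≠ y' → K {y, y'} → g + 2 ≤ k →
      ∃ s, Seg k K c₃ Y Q {y, y'} (2 * (k - 1) + g + 2) s) ∧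
    (∀ y y' : V, y ∈ Y → y' ∈ Y → y ≠ y' →
      ∃ s, Seg k K c₃ Y Q {y, y'} (2 * (k - 1) + k + 2) s)

/-- [PAIR] many disjoint adjacent pairs in `Y`, if `D = k |Y| - n > 0`.
PROOF.  Every `y ∈ Y` has at least `D/k + k - 2 ≥ D/k + 1` neighbours in `Y`: choose `T ∋ y` with `K T`,
`|T| = k - 1`, `T - y ⊆ Yᶜ` (greedily, `ext`); `|ce K univ T| ≤ n/k` and
`ce K univ T ⊇ (T - y) ∪ (Y \ ex K univ T)`, so `|Y ∩ ex K univ T| ≥ |Y| + (k - 2) - n/k`.  All
degrees in the graph of the adjacent pairs of `Y` are at most `c₁ n` (`ydeg`), so a maximal matching has at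
least `(D/k + 1) |Y| / (4 c₁ n) ≥ D/(k-1) + 1` edges (`c₁ ≤ 1/(100 k^2)`). -/
def S_PAIR : Prop := ∀ (k : ℕ) (c₁ : ℝ), 3 ≤ k → 0 < c₁ → c₁ ≤ 1 / (100 * (k : ℝ) ^ 2) →
  ∃ (c : ℝ) (n₀ : ℕ), 0 < c ∧ c ≤ c₁ ∧
  ∀ (V : Type) [Fintype V] [DecidableEq V] (K : Finset V → Prop), Cx k K →
  n₀ ≤ Fintype.card V → PD k K 0 univ → ∀ Y Ys Xs : Finset V, XS k K c₁ c Y Ys Xs →
  Fintype.card V < k * Y.card → ∀ p : ℕ, (k - 1) * p ≤ k * Y.card - Fintype.card V + (k - 1) →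
  ∃ a b : Fin p → V, Function.Injective (Sum.elim a b) ∧
    ∀ i, a i ∈ Y ∧ b i ∈ Y ∧ K {a i, b i}

/-- [XSEG] special segments which contain all exceptional vertices and correct the numbers.
PROOF (`S_SEGS`, `S_PAIR`; the conditions in `XS` are monotone in `c`).  `n = card V`, `X = Yᶜ`,
`D = k |Y| - n` (an integer, `|D| ≤ k c n`).  Segments, chosen one after the other, always with the unused
part `Q` of `Xs` (altogether at most `(2 k + 4) c n + 1` segments with at most `4 k` vertices each):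
(iii) if `D > 0`: `p = ⌈D/(k-1)⌉` disjoint pairs `y, y'` (`S_PAIR`) and gaps `0 ≤ g ≤ k - 2` with
`∑ (k - 1 - g) = D`.
(iv) if `D < 0`: `-D` times, with `y, y' ∈ Ys` unused.
(i) for every `y ∈ Y \ Ys` not used in (iii).
(ii) for every `x ∈ X \ Xs`, with `y, y' ∈ Ys` adjacent to `x`, unused (`xall`; at least
`c₁/4 n - c n - (used)` choices, `c` small compared with `c₁`).
The number of `X`-vertices minus `(k-1)` times the number of `Y`-vertices minus `(k-1)` of a segment is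
`-(k-1-g)` in (iii), `1` in (iv), `0` in (i), (ii); the sum is `-D = |X| - (k-1) |Y|`.
`X'`, `Y'` = the unused vertices. -/
def S_XSEG : Prop := ∀ k : ℕ, 3 ≤ k → ∃ c₁ : ℝ, 0 < c₁ ∧ c₁ ≤ 1 / (100 * (k : ℝ) ^ 2) ∧
  ∀ c₃ : ℝ, 0 < c₃ → ∃ (c : ℝ) (n₀ : ℕ), 0 < c ∧ c ≤ c₁ ∧ c ≤ c₃ ∧
  ∀ (V : Type) [Fintype V] [DecidableEq V] (K : Finset V → Prop), Cx k K →
  n₀ ≤ Fintype.card V → PD k K 0 univ → ∀ Y Ys Xs : Finset V, XS k K c₁ c Y Ys Xs →
  ∃ (X' Y' : Finset V) (Sg : List (List V)), X' ⊆ Xs ∧ Y' ⊆ Ys ∧ Sg.flatten.Nodup ∧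
    (∀ v, v ∈ Sg.flatten ↔ v ∉ X' ∧ v ∉ Y') ∧
    (∀ s ∈ Sg, TP K k s ∧ k ≤ s.length ∧ GB k K c₃ Y (s.take (k - 1)) ∧
      GB k K c₃ Y (lastn (k - 1) s)) ∧
    (Sg.flatten.length : ℝ) ≤ c₃ * (Fintype.card V : ℝ) ∧
    (Sg.length : ℝ) ≤ c₃ * (Fintype.card V : ℝ) ∧
    X'.card + (k - 1) * Sg.length = (k - 1) * Y'.card

/-- [SEQ] sequential selection with an exponential potential (abstract): `st` is the state (what has
been used), `allowed` candidates; every test is violated by at most a proportion `p` of the allowed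
candidates.  PROOF.  Potential `Φ = ∑_{w ∈ T} exp (#bad choices so far)`; the average of `Φ'` over the
allowed candidates is at most `(1 + 2 p) Φ`; so `Φ ≤ |T| exp (2 p R)`.  (Compare `CF/Sel.lean`.) -/
def S_SEQ : Prop := ∀ (Cand Ts Sta : Type) [Nonempty Cand] (T : Finset Ts) (s₀ : Sta) (p : ℝ) (R : ℕ)
  (allowed : Sta → Finset Cand) (next : Sta → Cand → Sta) (good : ℕ → Sta → Prop)
  (bad : Ts → Cand → Prop), 0 ≤ p → T.Nonempty → good 0 s₀ →
  (∀ i s g, i < R → good i s → g ∈ allowed s → good (i + 1) (next s g)) →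
  (∀ i s, i < R → good i s → (allowed s).Nonempty ∧ ∀ w ∈ T, ∃ H : Finset Cand, H ⊆ allowed s ∧
    (∀ g ∈ allowed s, g ∉ H → ¬ bad w g) ∧ (H.card : ℝ) ≤ p * ((allowed s).card : ℝ)) →
  ∃ (l : ℕ → Cand) (st : ℕ → Sta), st 0 = s₀ ∧ (∀ i < R, l i ∈ allowed (st i)) ∧
    (∀ i < R, st (i + 1) = next (st i) (l i)) ∧ (∀ i ≤ R, good i (st i)) ∧
    ∀ w ∈ T, ∃ W : Finset ℕ, W ⊆ range R ∧ (∀ i < R, i ∉ W → ¬ bad w (l i)) ∧
      (W.card : ℝ) ≤ 2 * p * R + Real.log T.card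

/-- the balanced situation: typical vertices `X'`, `Y'` and special segments `Sg` -/
structure BS {V : Type} [Fintype V] [DecidableEq V] (k : ℕ) (K : Finset V → Prop) (c : ℝ)
    (X' Y' : Finset V) : Prop where
  dis : Disjoint X' Y'
  cY : (Fintype.card V : ℝ) / (2 * k) ≤ (Y'.card : ℝ)
  cX : (Fintype.card V : ℝ) / 2 ≤ (X'.card : ℝ)
  exts : ∀ y ∈ Y', ∀ T : Finset V, K T → y ∈ T → T.card < k →
    ((X' \ ex K univ T).card : ℝ) ≤ c * (Fintype.card V : ℝ)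
  xtp : ∀ x ∈ X', ((Y' \ ex K univ {x}).card : ℝ) ≤ c * (Fintype.card V : ℝ)

/-- good units: a good block `l` followed by `z` -/
def GU {V : Type} [Fintype V] [DecidableEq V] (k : ℕ) (K : Finset V → Prop) (g : ℝ)
    (Y : Finset V) (l : List V) (z : V) : Prop :=
  GB k K g Y l ∧ z ∈ Y ∧ z ∉ l ∧ K (insert z l.toFinset)

open Classical in
/-- regular units `(B i, y i)`, `i < R` -/
structure RU {V : Type} [Fintype V] [DecidableEq V] (k : ℕ) (K : Finset V → Prop) (p g : ℝ)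
    (X' Y' : Finset V) (R : ℕ) (B : Fin R → Fin (k - 1) → V) (y : Fin R → V) : Prop where
  injB : Function.Injective (fun q : Fin R × Fin (k - 1) => B q.1 q.2)
  injy : Function.Injective y
  memB : ∀ i a, B i a ∈ X'
  memy : ∀ i, y i ∈ Y'
  good : ∀ i, GU k K g Y' (List.ofFn (B i)) (y i)
  t1 : ∀ W z, GU k K g Y' W z →
    ((univ.filter (fun i => ¬ TP K k (W ++ [z] ++ List.ofFn (B i)))).card : ℝ) ≤
      p * (Fintype.card V : ℝ)
  t2 : ∀ W, GB k K g Y' W →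
    ((univ.filter (fun i => ¬ TP K k (List.ofFn (B i) ++ [y i] ++ W))).card : ℝ) ≤
      p * (Fintype.card V : ℝ)
  t3 : ∀ x ∈ X', ∀ a, ((univ.filter (fun i => x ∉ List.ofFn (B i) ∧
    ¬ GU k K g Y' (List.ofFn (Function.update (B i) a x)) (y i))).card : ℝ) ≤
      p * (Fintype.card V : ℝ)
  t4 : ∀ z ∈ Y', ((univ.filter (fun i => ¬ K (insert z (univ.image (B i))))).card : ℝ) ≤
      p * (Fintype.card V : ℝ)

/-- [REG] choice of the regular units.
PROOF.  `g` small compared with `p^2`, `c` small compared with `g p^2`.  `S_SEQ`, candidates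
`(B, y) : (Fin (k-1) → V) × V`, state = the set of used vertices, allowed: `B` injective with values in the
unused part of `X'` (at least `p |X'|` elements), `y` in the unused part of `Y'` (at least `p |Y'|`
elements), `GU k K g Y' B y`.  Tests = the conditions `t1, ..., t4` (at most `n ^ (k + 2)`).
Key count (*): if `K T`, `T ≠ ∅`, `|T| < k - 1`, `|Y' \ ex T| ≤ g' n` then all but `k c n / g` of
the `b ∈ X'` satisfy `K (T + b)`, `|Y' \ ex (T + b)| ≤ (g' + g/k) n` (double counting of the pairs `(y, b)`,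
`y ∈ Y' ∩ ex T`, with `exts` for `T + y`; `b ∈ T` excluded too, `n` large).  Starting with `T = {b_1}`,
`b_1 ∈ X'` (`xtp`), almost all `(B, y)` of the unused part are allowed.  `t3`: start (*) with `T = {x}`
instead.  `t1`: the windows `{w_j, .., w_{k-1}, z, b_1, .., b_i}` contain `z ∈ Y'`: each new `b` has at
most `c n` exceptions.  `t2`: `K (y, w_1, .., w_{k-1})` for all but `g n` of the `y`, then the windows
`{b_j, .., b_{k-1}, y, w_1, .., w_{j-1}}` contain `y`: choose `b_{k-1}, b_{k-2}, ...`.  `t4`: the sets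
`{z, b_1, .., b_j}` contain `z`. -/
def S_REG : Prop := ∀ (k : ℕ) (p : ℝ), 3 ≤ k → 0 < p → p < 1 → ∃ g₀ : ℝ, 0 < g₀ ∧ ∀ g : ℝ, 0 < g →
  g ≤ g₀ → ∃ (c : ℝ) (n₀ : ℕ), 0 < c ∧
  ∀ (V : Type) [Fintype V] [DecidableEq V] (K : Finset V → Prop), Cx k K →
  n₀ ≤ Fintype.card V → ∀ X' Y' : Finset V, BS k K c X' Y' →
  ∀ R : ℕ, (R : ℝ) ≤ (1 - p) * (Y'.card : ℝ) → ((k : ℝ) - 1) * R ≤ (1 - p) * (X'.card : ℝ) →
  ∃ (B : Fin R → Fin (k - 1) → V) (y : Fin R → V), RU k K p g X' Y' R B y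

/-- the unit `(s, y)` can be followed by the unit `(s', y')` -/
def Rel {V : Type} [DecidableEq V] (k : ℕ) (K : Finset V → Prop) (u u' : List V × V) : Prop :=
  TP K k (lastn (k - 1) u.1 ++ [u.2] ++ u'.1.take (k - 1))

open Classical in
/-- a system of units which covers all vertices, such that every unit is compatible with at least half of
the units -/
structure US {V : Type} [DecidableEq V] (k : ℕ) (K : Finset V → Prop) (M : ℕ)
    (u : Fin M → List V × V) : Prop where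
  three : 3 ≤ M
  nd : (List.ofFn (fun i => (u i).1 ++ [(u i).2])).flatten.Nodup
  cov : ∀ v : V, ∃ i, v ∈ (u i).1 ++ [(u i).2]
  tp : ∀ i, TP K k (u i).1
  len : ∀ i, k - 1 ≤ (u i).1.length
  deg : ∀ i, M ≤ 2 * (univ.filter (fun j => j ≠ i ∧ Rel k K (u i) (u j) ∧ Rel k K (u j) (u i))).card

/-- [SWP] completion of the regular units to a system of units.
PROOF.  `n = card V`, `M_b = |X'|/(k-1) = |Y'| - |Sg|` (integer), `M = |Y'|`, `M'' = M_b - R ≤ 3 p n`.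
The rest of `X'` (not in any `B i`) has `(k-1) M''` elements `D (j, a)`, the rest of `Y'` has
`M'' + |Sg|` elements `z_1, ...`.
(1) For `j < M''` choose indices `φ (j, a)`, `a < k - 1`, all different, such that
`B_{φ(j,a)}[a := D (j,a)]` with `y_{φ(j,a)}` is a good unit (`t3`; all but `p n` indices) and the block
`N_j = (B_{φ(j,a)} (a))_a` is good (the number of all injective `(k-1)`-tuples of `X'` which are not good
is at most `ε n^(k-1)` with `ε` small if `c` is small compared with `g`, see (*) in `S_REG`; the number of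
available index tuples is at least `(R - (k+1) M'' - p n - ..)^(k-1) ≥ (n/(8k))^(k-1)`).
(2) The blocks `N_j` and the segments of `Sg` get a vertex of `Y'` each: for a block or segment with last
block `W` and the vertex `z` choose an unused index `i` (`B i` unmodified) with `K (W + y_i)` (all but `g n`
indices) and `K (B_i + z)` (`t4`): units `(W, y_i)`, `(B_i, z)`.
All units `(s, y)` have `K (last block of s + y)`, first and last block good.  By `t1`, `t2` each unit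
is compatible in both directions with all but `2 p n` of the unmodified regular units; there are at
least `R - (k-1) M'' - (M'' + |Sg|)` of them, and `M = R + M'' + |Sg|`, `R ≥ n/(2k) - 4 p n`. -/
def S_SWP : Prop := ∀ k : ℕ, 3 ≤ k → ∃ p₀ : ℝ, 0 < p₀ ∧ ∀ p g : ℝ, 0 < p → p ≤ p₀ → 0 < g → g ≤ p →
  ∃ (c : ℝ) (n₀ : ℕ), 0 < c ∧
  ∀ (V : Type) [Fintype V] [DecidableEq V] (K : Finset V → Prop), Cx k K →
  n₀ ≤ Fintype.card V → ∀ X' Y' : Finset V, BS k K c X' Y' → ∀ Sg : List (List V),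
  Sg.flatten.Nodup → (∀ v, v ∈ Sg.flatten ↔ v ∉ X' ∧ v ∉ Y') →
  (∀ s ∈ Sg, TP K k s ∧ k ≤ s.length ∧ GB k K g Y' (s.take (k - 1)) ∧
    GB k K g Y' (lastn (k - 1) s)) →
  (Sg.length : ℝ) ≤ c * (Fintype.card V : ℝ) → X'.card + (k - 1) * Sg.length = (k - 1) * Y'.card →
  ∀ (R : ℕ) (B : Fin R → Fin (k - 1) → V) (y : Fin R → V), RU k K p g X' Y' R B y →
  (X'.card : ℝ) ≤ ((k : ℝ) - 1) * (R + 3 * p * (Fintype.card V : ℝ)) →
  ∃ (M : ℕ) (u : Fin M → List V × V), US k K M u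

open Classical in
/-- [DIR] Dirac's theorem (`3 ≤ m`, minimum degree at least `m/2`).
PROOF.  Longest path / closing up argument, or: take a cyclic ordering with the maximal number of adjacent
consecutive pairs; if `g 0, g (-1)` are not adjacent, among the `m` positions `i` there is one with
`g 0 ~ g (i+1)` and `g (-1) ~ g i`; reverse the segment `g 0, ..., g i`. -/
def S_DIR : Prop := ∀ (m : ℕ) (A : Fin m → Fin m → Prop), 3 ≤ m → (∀ i, ¬ A i i) →
  (∀ i j, A i j → A j i) → (∀ i, m ≤ 2 * (univ.filter (fun j => A i j)).card) →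
  ∃ g : ℕ → Fin m, (∀ i, g (i + m) = g i) ∧ (∀ i j, i < m → j < m → g i = g j → i = j) ∧
    ∀ i, A (g i) (g (i + 1))

/-- [CYC] a system of units gives a Hamilton cycle.  PROOF.  `S_DIR` for the relation
compatible in both directions; `l = u_{g 0}.1 ++ [u_{g 0}.2] ++ u_{g 1}.1 ++ ...`; a window of `k`
entries of `l ++ l` contains at most one of the vertices `u_i.2` (since `k - 1 ≤ |u_i.1|`), so it lies in
some `u_i.1` or in `lastn (k-1) u_i.1 ++ [u_i.2] ++ take (k-1) u_{i+1}.1`. -/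
def S_CYC : Prop := ∀ (k : ℕ) (V : Type) [Fintype V] [DecidableEq V] (K : Finset V → Prop) (M : ℕ)
  (u : Fin M → List V × V), 2 ≤ k → Cx k K → US k K M u → HamC K k

/-- [EXTR] the extremal case (`S_XSTR`, `S_XSEG`, `S_REG`, `S_SWP`, `S_CYC`).
Constants: `p₀` from `S_SWP`, `p = min p₀ (1/100) / 2`, `g` from `S_REG` (`≤ p`), `c_R` from `S_REG`, `c_S` from
`S_SWP`, `c₃ = min (g, c_R, c_S, ...)/2`, `c₁`, `c` from `S_XSEG`, `β` from `S_XSTR`;
`R = ⌊(1 - 2p) min (|X'|/(k-1), |Y'|)⌋` or so.  (`GB` with respect to `Y` implies `GB` with respect to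
`Y' ⊆ Y`.) -/
def S_EXTR : Prop := ∀ k : ℕ, 3 ≤ k → ∃ (β : ℝ) (n₀ : ℕ), 0 < β ∧
  ∀ (V : Type) [Fintype V] [DecidableEq V] (K : Finset V → Prop), Cx k K →
  n₀ ≤ Fintype.card V → PD k K 0 univ → ¬ NE k K β univ → HamC K k

/-- [MAIN] -/
def S_MAIN : Prop := ∀ k : ℕ, 3 ≤ k → ∃ n₀ : ℕ,
  ∀ (V : Type) [Fintype V] [DecidableEq V] (K : Finset V → Prop), Cx k K →
  n₀ ≤ Fintype.card V → PD k K 0 univ → HamC K k

end Pool.Agent.H48.TC
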